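import Mathlib

/-! Compactly supported homeomorphisms of the plane: basic toolkit. -/

namespace Pool.Agent.Lib.MP_069d55_gt

open Set Filter Topology Metric

noncomputable section

/-- `F` is the identity off a compact subset of `O`. -/
def Supp (F : ℂ ≃ₜ ℂ) (O : Set ℂ) : Prop := ∃ K, IsCompact K ∧ K ⊆ O ∧ ∀ z, z ∉ K → F z = z

lemma hmul (F G : ℂ ≃ₜ ℂ) (z : ℂ) : (F * G) z = F (G z) := rfl
lemma hinv_apply (F : ℂ ≃ₜ ℂ) (z : ℂ) : F⁻¹ (F z) = z := F.symm_apply_apply z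
lemma happly_inv (F : ℂ ≃ₜ ℂ) (z : ℂ) : F (F⁻¹ z) = z := F.apply_symm_apply z
lemma hone (z : ℂ) : (1 : ℂ ≃ₜ ℂ) z = z := rfl
lemma hinv_eq {F : ℂ ≃ₜ ℂ} {z w : ℂ} (h : F z = w) : F⁻¹ w = z := by rw [← h, hinv_apply]
lemma image_hmul (F G : ℂ ≃ₜ ℂ) (A : Set ℂ) : (F * G : ℂ ≃ₜ ℂ) '' A = F '' (G '' A) := by
  rw [image_image]; rfl
lemma image_hone (A : Set ℂ) : (1 : ℂ ≃ₜ ℂ) '' A = A := image_id A
lemma image_hinv {F : ℂ ≃ₜ ℂ} {A B : Set ℂ} (h : F '' A = B) : (F⁻¹ : ℂ ≃ₜ ℂ) '' B = A := by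
  rw [← h, ← image_hmul, inv_mul_cancel, image_hone]
lemma mem_image_h {F : ℂ ≃ₜ ℂ} {A : Set ℂ} {z : ℂ} : z ∈ F '' A ↔ F⁻¹ z ∈ A :=
  ⟨fun ⟨w, hw, e⟩ => by rwa [hinv_eq e], fun h => ⟨_, h, happly_inv F z⟩⟩
lemma apply_mem_image {F : ℂ ≃ₜ ℂ} {A : Set ℂ} {z : ℂ} : F z ∈ F '' A ↔ z ∈ A :=
  F.injective.mem_set_image

lemma Supp.one (O : Set ℂ) : Supp 1 O := ⟨∅, isCompact_empty, empty_subset _, fun _ _ => rfl⟩

lemma Supp.mono {F : ℂ ≃ₜ ℂ} {O O' : Set ℂ} (h : Supp F O) (hO : O ⊆ O') : Supp F O' := by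
  obtain ⟨K, hK, hs, hf⟩ := h
  exact ⟨K, hK, hs.trans hO, hf⟩

lemma Supp.univ {F : ℂ ≃ₜ ℂ} {O : Set ℂ} (h : Supp F O) : Supp F univ := h.mono (subset_univ _)

lemma Supp.mul {F G : ℂ ≃ₜ ℂ} {O : Set ℂ} (h : Supp F O) (h' : Supp G O) : Supp (F * G) O := by
  obtain ⟨K, hK, hs, hf⟩ := h
  obtain ⟨K', hK', hs', hf'⟩ := h'
  refine ⟨K ∪ K', hK.union hK', union_subset hs hs', fun z hz => ?_⟩
  rw [mem_union, not_or] at hz
  rw [hmul, hf' z hz.2, hf z hz.1]

lemma Supp.inv {F : ℂ ≃ₜ ℂ} {O : Set ℂ} (h : Supp F O) : Supp F⁻¹ O := by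
  obtain ⟨K, hK, hs, hf⟩ := h
  exact ⟨K, hK, hs, fun z hz => hinv_eq (hf z hz)⟩

lemma Supp.pow {F : ℂ ≃ₜ ℂ} {O : Set ℂ} (h : Supp F O) (n : ℕ) : Supp (F ^ n) O := by
  induction n with
  | zero => simpa using Supp.one O
  | succ n ih => rw [pow_succ]; exact ih.mul h

lemma Supp.conj {F : ℂ ≃ₜ ℂ} {O : Set ℂ} (h : Supp F O) (g : ℂ ≃ₜ ℂ) :
    Supp (g * F * g⁻¹) (g '' O) := by
  obtain ⟨K, hK, hs, hf⟩ := h
  refine ⟨g '' K, hK.image g.continuous, image_mono hs, fun z hz => ?_⟩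
  rw [mem_image_h] at hz
  rw [hmul, hmul, hf _ hz, happly_inv]

lemma Supp.fix {F : ℂ ≃ₜ ℂ} {O : Set ℂ} (h : Supp F O) {z : ℂ} (hz : z ∉ O) : F z = z := by
  obtain ⟨K, hK, hs, hf⟩ := h
  exact hf z fun hk => hz (hs hk)

lemma mem_iff_of_fix {F : ℂ ≃ₜ ℂ} {O : Set ℂ} (h : ∀ z, z ∉ O → F z = z) (z : ℂ) :
    F z ∈ O ↔ z ∈ O := by
  constructor
  · intro hz; by_contra hn; rw [h z hn] at hz; exact hn hz
  · intro hz; by_contra hn
    have := F.injective (h _ hn)
    rw [this] at hn; exact hn hz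

lemma Supp.mem_iff {F : ℂ ≃ₜ ℂ} {O : Set ℂ} (h : Supp F O) (z : ℂ) : F z ∈ O ↔ z ∈ O :=
  mem_iff_of_fix (fun _ hz => h.fix hz) z

lemma Supp.image_eq {F : ℂ ≃ₜ ℂ} {O : Set ℂ} (h : Supp F O) : F '' O = O := by
  ext z; rw [mem_image_h, h.inv.mem_iff]

lemma Supp.image_of_disjoint {F : ℂ ≃ₜ ℂ} {O A : Set ℂ} (h : Supp F O) (hA : ∀ z ∈ A, z ∉ O) :
    F '' A = A := by
  have : F '' A = id '' A := image_congr fun z hz => h.fix (hA z hz)
  rw [this, image_id]

lemma Supp.exists_ball {F : ℂ ≃ₜ ℂ} {O : Set ℂ} (h : Supp F O) (x : ℂ) (R₀ : ℝ) :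
    ∃ R, R₀ < R ∧ Supp F (O ∩ ball x R) := by
  obtain ⟨K, hK, hs, hf⟩ := h
  obtain ⟨R, hR, hKR⟩ := hK.isBounded.subset_ball_lt R₀ x
  exact ⟨R, hR, K, hK, subset_inter hs hKR, hf⟩

/-- Homeomorphisms with disjoint supports commute. -/
lemma commute_of_disjoint {F G : ℂ ≃ₜ ℂ} {A B : Set ℂ} (hF : ∀ z, z ∉ A → F z = z)
    (hG : ∀ z, z ∉ B → G z = z) (hd : Disjoint A B) : F * G = G * F := by
  ext1 z
  rw [hmul, hmul]
  by_cases ha : z ∈ A
  · have h1 : z ∉ B := fun hb => disjoint_left.1 hd ha hb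
    have h2 : F z ∉ B := fun hb => disjoint_left.1 hd ((mem_iff_of_fix hF z).2 ha) hb
    rw [hG z h1, hG _ h2]
  · rw [hF z ha]
    by_cases hb : z ∈ B
    · exact hF _ fun ha' => disjoint_left.1 hd ha' ((mem_iff_of_fix hG z).2 hb)
    · rw [hG z hb, hF z ha]

lemma exists_homeo {f : ℂ → ℂ} (hc : Continuous f) (hb : Function.Bijective f) {K : Set ℂ}
    (hK : IsCompact K) (hf : ∀ z, z ∉ K → f z = z) : ∃ F : ℂ ≃ₜ ℂ, ∀ z, F z = f z := by
  have hp : IsProperMap f := by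
    refine isProperMap_iff_tendsto_cocompact.2 ⟨hc, ?_⟩
    refine tendsto_id.congr' ?_
    filter_upwards [hK.compl_mem_cocompact] with z hz using (hf z hz).symm
  exact ⟨(Equiv.ofBijective f hb).toHomeomorphOfContinuousClosed hc hp.isClosedMap, fun _ => rfl⟩

lemma exists_twist {w : ℝ → ℂ} (hc : Continuous w) {R : ℝ} (hR : ∀ r, R ≤ r → w r = 1)
    (hm : StrictMonoOn (fun r => r * ‖w r‖) (Ici 0)) :
    ∃ F : ℂ ≃ₜ ℂ, ∀ z, F z = z * w ‖z‖ := by
  have hne : ∀ r, 0 < r → w r ≠ 0 := fun r hr h0 => by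
    have := hm (mem_Ici.2 le_rfl) (mem_Ici.2 hr.le) hr
    simp [h0] at this
  refine exists_homeo (by fun_prop) ⟨fun z z' h => ?_, fun y => ?_⟩ (isCompact_closedBall 0 R)
    (fun z hz => ?_)
  · have h1 : ‖z‖ = ‖z'‖ := by
      apply hm.injOn (mem_Ici.2 (norm_nonneg _)) (mem_Ici.2 (norm_nonneg _))
      simpa using congrArg norm h
    rcases (norm_nonneg z).eq_or_lt with h0 | h0
    · rw [norm_eq_zero.1 h0.symm, norm_eq_zero.1 (h1.symm.trans h0.symm)]
    · simp only [← h1] at h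
      exact mul_right_cancel₀ (hne _ h0) h
  · have hcm : Continuous fun r : ℝ => r * ‖w r‖ := by fun_prop
    set M := max R ‖y‖ with hM
    have hM0 : 0 ≤ M := le_max_of_le_right (norm_nonneg _)
    obtain ⟨r, hr, hry⟩ : ‖y‖ ∈ (fun r : ℝ => r * ‖w r‖) '' Icc 0 M := by
      apply intermediate_value_Icc hM0 hcm.continuousOn
      simp only [hR M (le_max_left _ _)]
      simp [hM]
    simp only at hry
    rcases hr.1.eq_or_lt with h0 | h0
    · refine ⟨0, ?_⟩
      rw [← h0, zero_mul] at hry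
      simp [norm_eq_zero.1 hry.symm]
    · have hw := hne r h0
      have hn : ‖y / w r‖ = r := by
        rw [norm_div, ← hry, mul_div_assoc, div_self (norm_ne_zero_iff.2 hw), mul_one]
      exact ⟨y / w r, by simp only [hn]; field_simp⟩
  · rw [mem_closedBall_zero_iff, not_le] at hz
    rw [hR _ hz.le, mul_one]

/-- piecewise linear increasing function with slopes `k0, k1, k2, 1`. -/
def pl (k0 k1 k2 a b d r : ℝ) : ℝ :=
  k0 * min r a + k1 * (min (max r a) b - a) + k2 * (min (max r b) d - b) + (max r d - d)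

lemma pl_strictMono {k0 k1 k2 a b d : ℝ} (h0 : 0 < k0) (h1 : 0 < k1) (h2 : 0 < k2) (hab : a ≤ b)
    (hbd : b ≤ d) : StrictMono (pl k0 k1 k2 a b d) := by
  intro r s hrs
  have e : ∀ t : ℝ, min t a + (min (max t a) b - a) + (min (max t b) d - b) + (max t d - d) = t := by
    intro t
    simp only [min_def, max_def]
    split_ifs <;> linarith
  have m0 : min r a ≤ min s a := min_le_min_right _ hrs.le
  have m1 : min (max r a) b ≤ min (max s a) b := min_le_min_right _ (max_le_max_right _ hrs.le)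
  have m2 : min (max r b) d ≤ min (max s b) d := min_le_min_right _ (max_le_max_right _ hrs.le)
  have m3 : max r d ≤ max s d := max_le_max_right _ hrs.le
  have er := e r
  have es := e s
  unfold pl
  have p0 := mul_le_mul_of_nonneg_left m0 h0.le
  have p1 := mul_le_mul_of_nonneg_left m1 h1.le
  have p2 := mul_le_mul_of_nonneg_left m2 h2.le
  rcases m0.eq_or_lt with q0 | q0
  · rcases m1.eq_or_lt with q1 | q1
    · rcases m2.eq_or_lt with q2 | q2
      · linarith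
      · have := mul_lt_mul_of_pos_left q2 h2
        linarith
    · have := mul_lt_mul_of_pos_left q1 h1
      linarith
  · have := mul_lt_mul_of_pos_left q0 h0
    linarith

lemma pl_le {k0 k1 k2 a b d r : ℝ} (hab : a ≤ b) (hbd : b ≤ d) (hr : r ≤ a) :
    pl k0 k1 k2 a b d r = k0 * r := by
  unfold pl
  rw [min_eq_left hr, max_eq_right hr, max_eq_right (hr.trans hab), min_eq_left hab,
    min_eq_left hbd, max_eq_right (hr.trans (hab.trans hbd))]
  ring

lemma pl_mid {k0 k1 k2 a b d : ℝ} (hab : a ≤ b) (hbd : b ≤ d) :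
    pl k0 k1 k2 a b d b = k0 * a + k1 * (b - a) := by
  unfold pl
  rw [min_eq_right hab, max_eq_left hab, min_self, max_self, min_eq_left hbd, max_eq_right hbd]
  ring

lemma pl_ge {k0 k1 k2 a b d r : ℝ} (hab : a ≤ b) (hbd : b ≤ d) (hr : d ≤ r) :
    pl k0 k1 k2 a b d r = k0 * a + k1 * (b - a) + k2 * (d - b) + (r - d) := by
  unfold pl
  rw [min_eq_right (hab.trans (hbd.trans hr)), max_eq_left (hab.trans (hbd.trans hr)),
    min_eq_right (hbd.trans hr), max_eq_left (hbd.trans hr), min_eq_right hr, max_eq_left hr]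

/-- the multiplier belonging to `pl`. -/
def plw (k0 k1 k2 a b d r : ℝ) : ℝ := pl k0 k1 k2 a b d (max r a) / max r a

lemma mul_plw {k0 k1 k2 a b d : ℝ} (ha : 0 < a) (hab : a ≤ b) (hbd : b ≤ d) (r : ℝ) :
    r * plw k0 k1 k2 a b d r = pl k0 k1 k2 a b d r := by
  unfold plw
  rcases le_total r a with h | h
  · rw [max_eq_right h, pl_le hab hbd h, pl_le hab hbd le_rfl]; field_simp
  · rw [max_eq_left h]
    have : r ≠ 0 := (ha.trans_le h).ne'
    field_simp

lemma plw_le {k0 k1 k2 a b d r : ℝ} (ha : 0 < a) (hab : a ≤ b) (hbd : b ≤ d) (hr : r ≤ a) :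
    plw k0 k1 k2 a b d r = k0 := by
  unfold plw
  rw [max_eq_right hr, pl_le hab hbd le_rfl]; field_simp

lemma plw_pos {k0 k1 k2 a b d : ℝ} (h0 : 0 < k0) (h1 : 0 < k1) (h2 : 0 < k2) (ha : 0 < a)
    (hab : a ≤ b) (hbd : b ≤ d) (r : ℝ) : 0 < plw k0 k1 k2 a b d r := by
  have hm : 0 < max r a := lt_max_of_lt_right ha
  refine div_pos ?_ hm
  have := pl_strictMono h0 h1 h2 hab hbd hm
  rwa [pl_le hab hbd ha.le, mul_zero] at this

lemma plw_ge {k0 k1 k2 a b d r : ℝ} (ha : 0 < a) (hab : a ≤ b) (hbd : b ≤ d)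
    (he : k0 * a + k1 * (b - a) + k2 * (d - b) = d) (hr : d ≤ r) : plw k0 k1 k2 a b d r = 1 := by
  have hr' : a ≤ r := hab.trans (hbd.trans hr)
  unfold plw
  rw [max_eq_left hr', pl_ge hab hbd hr, he]
  have : r ≠ 0 := (ha.trans_le hr').ne'
  field_simp; ring

lemma continuous_plw {T : Type*} [TopologicalSpace T] {k0 k1 k2 r : T → ℝ} {a b d : ℝ}
    (ha : 0 < a) (h0 : Continuous k0) (h1 : Continuous k1) (h2 : Continuous k2)
    (hr : Continuous r) : Continuous fun t => plw (k0 t) (k1 t) (k2 t) a b d (r t) := by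
  unfold plw pl
  exact Continuous.div (by fun_prop) (by fun_prop) fun t => (lt_max_of_lt_right ha).ne'

/-- A radial homeomorphism supported in `a ≤ |z| ≤ d` taking radius `r` to radius `s`. -/
lemma exists_radial {a r s d : ℝ} (ha : 0 < a) (har : a < r) (has : a < s) (hrd : r < d)
    (hsd : s < d) : ∃ F : ℂ ≃ₜ ℂ, (∀ z, ‖z‖ ≤ a ∨ d ≤ ‖z‖ → F z = z) ∧
      (∀ z, ‖F z‖ < s ↔ ‖z‖ < r) ∧ (∀ z, ‖F z‖ ≤ s ↔ ‖z‖ ≤ r) := by
  set k1 := (s - a) / (r - a) with hk1
  set k2 := (d - s) / (d - r) with hk2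
  have h1 : 0 < k1 := div_pos (by linarith) (by linarith)
  have h2 : 0 < k2 := div_pos (by linarith) (by linarith)
  have e1 : k1 * (r - a) = s - a := div_mul_cancel₀ _ (by linarith)
  have e2 : k2 * (d - r) = d - s := div_mul_cancel₀ _ (by linarith)
  have hge : ∀ t, d ≤ t → plw 1 k1 k2 a r d t = 1 := fun t ht =>
    plw_ge ha har.le hrd.le (by linarith) ht
  have hn : ∀ t, t * ‖((plw 1 k1 k2 a r d t : ℝ) : ℂ)‖ = pl 1 k1 k2 a r d t := fun t => by
    rw [Complex.norm_real, Real.norm_of_nonneg (plw_pos one_pos h1 h2 ha har.le hrd.le t).le,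
      mul_plw ha har.le hrd.le]
  have hsm := pl_strictMono (a := a) (b := r) (d := d) one_pos h1 h2 har.le hrd.le
  obtain ⟨F, hF⟩ := exists_twist (w := fun t => ((plw 1 k1 k2 a r d t : ℝ) : ℂ))
    (Complex.continuous_ofReal.comp (continuous_plw ha continuous_const continuous_const
      continuous_const continuous_id)) (R := d) (fun t ht => by simp [hge t ht])
    (by simp only [hn]; exact hsm.strictMonoOn _)
  have hs : pl 1 k1 k2 a r d r = s := by rw [pl_mid har.le hrd.le]; linarith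
  have hnF : ∀ z, ‖F z‖ = pl 1 k1 k2 a r d ‖z‖ := fun z => by rw [hF, norm_mul, hn]
  refine ⟨F, fun z hz => ?_, fun z => ?_, fun z => ?_⟩
  · rw [hF]
    rcases hz with hz | hz
    · simp [plw_le ha har.le hrd.le hz]
    · simp [hge _ hz]
  · rw [hnF, ← hs, hsm.lt_iff_lt]
  · rw [hnF, ← hs, hsm.le_iff_le]

lemma exists_lip {u : ℂ → ℂ} {c : NNReal} (hu : LipschitzWith c u) (hc : c < 1) :
    ∃ F : ℂ ≃ₜ ℂ, ∀ z, F z = z + u z := by
  have h : ApproximatesLinearOn (fun z => z + u z)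
      ((ContinuousLinearEquiv.refl ℝ ℂ : ℂ ≃L[ℝ] ℂ) : ℂ →L[ℝ] ℂ) univ c := by
    intro x _ y _
    have := hu.dist_le_mul x y
    simp only [dist_eq_norm] at this
    change ‖x + u x - (y + u y) - (x - y)‖ ≤ _
    rwa [show x + u x - (y + u y) - (x - y) = u x - u y by ring]
  refine ⟨h.toHomeomorph _ (Or.inr ?_), fun _ => rfl⟩
  simpa using hc

/-- A compactly supported homeomorphism which is a translation near `p`. -/
lemma exists_transl (p v : ℂ) {r : ℝ} (hr : ‖v‖ < r) : ∃ F : ℂ ≃ₜ ℂ,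
    (∀ z, 2 * r ≤ ‖z - p‖ → F z = z) ∧ ∀ z, ‖z - p‖ ≤ r → F z = z + v := by
  have hr0 : 0 < r := (norm_nonneg _).trans_lt hr
  set χ : ℂ → ℝ := fun z => max 0 (min r (2 * r - ‖z - p‖)) with hχ
  have hl : LipschitzWith 1 χ := by
    refine LipschitzWith.const_max (LipschitzWith.const_min ?_ r) 0
    refine LipschitzWith.of_dist_le_mul fun x y => ?_
    rw [Real.dist_eq, dist_eq_norm, NNReal.coe_one, one_mul]
    have := abs_norm_sub_norm_le (y - p) (x - p)
    rw [show y - p - (x - p) = -(x - y) by ring, norm_neg] at this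
    convert this using 2; ring
  have hu : LipschitzWith (‖v‖ / r).toNNReal (fun z => ((χ z / r : ℝ) : ℂ) * v) := by
    refine LipschitzWith.of_dist_le_mul fun x y => ?_
    have := hl.dist_le_mul x y
    rw [Real.dist_eq, NNReal.coe_one, one_mul] at this
    rw [dist_eq_norm, ← sub_mul, ← Complex.ofReal_sub, norm_mul, Complex.norm_real, ← sub_div,
      Real.norm_eq_abs, abs_div, abs_of_pos hr0]
    rw [Real.coe_toNNReal _ (by positivity)]
    rw [div_mul_eq_mul_div, div_mul_eq_mul_div, mul_comm]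
    gcongr
  obtain ⟨F, hF⟩ := exists_lip hu (Real.toNNReal_lt_one.2 ((div_lt_one hr0).2 hr))
  refine ⟨F, fun z hz => ?_, fun z hz => ?_⟩
  · have : χ z = 0 := max_eq_left (min_le_of_right_le (by linarith))
    rw [hF, this]; simp
  · have : χ z = r := by
      simp only [hχ]; rw [min_eq_left (by linarith), max_eq_right hr0.le]
    rw [hF, this, div_self hr0.ne']; simp

lemma exists_move {O : Set ℂ} (hO : IsOpen O) (hc : IsPreconnected O) {p q : ℂ} (hp : p ∈ O)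
    (hq : q ∈ O) : ∃ F : ℂ ≃ₜ ℂ, Supp F O ∧ F p = q := by
  refine hc.induction₂' (fun p q => ∃ F : ℂ ≃ₜ ℂ, Supp F O ∧ F p = q) (fun x hx => ?_) ?_ hp hq
  · obtain ⟨ε, hε, hb⟩ := Metric.isOpen_iff.1 hO x hx
    refine mem_nhdsWithin_of_mem_nhds ?_
    filter_upwards [ball_mem_nhds x (show 0 < ε / 3 by positivity)] with y hy
    rw [mem_ball, dist_eq_norm] at hy
    obtain ⟨F, h1, h2⟩ := exists_transl x (y - x) hy
    have hS : Supp F O := by
      refine ⟨closedBall x (2 * (ε / 3)), isCompact_closedBall _ _,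
        (closedBall_subset_ball (by linarith)).trans hb, fun z hz => h1 z ?_⟩
      rw [mem_closedBall, dist_eq_norm, not_le] at hz
      exact hz.le
    have hx : F x = y := by rw [h2 x (by simp; positivity)]; ring
    exact ⟨⟨F, hS, hx⟩, F⁻¹, hS.inv, hinv_eq hx⟩
  · rintro x y z - - - ⟨F, hF, rfl⟩ ⟨G, hG, rfl⟩
    exact ⟨G * F, hG.mul hF, rfl⟩

/-! ### Connectedness -/

lemma rank_two : 1 < Module.rank ℝ ℂ := by rw [Complex.rank_real_complex]; norm_num

lemma preconn_ann (x : ℂ) {S : Set ℝ} (hS : IsPreconnected S) (h0 : S ⊆ Ici 0) :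
    IsPreconnected {z : ℂ | ‖z - x‖ ∈ S} := by
  have h := (hS.prod (isPreconnected_sphere rank_two (0 : ℂ) 1)).image
    (fun p : ℝ × ℂ => x + p.1 * p.2) (by fun_prop)
  convert h using 1
  ext z
  constructor
  · intro hz
    by_cases hzx : z - x = 0
    · exact ⟨(‖z - x‖, 1), ⟨hz, by simp⟩, by simp [hzx, (sub_eq_zero.1 hzx)]⟩
    · have hn : (‖z - x‖ : ℂ) ≠ 0 := by simpa using hzx
      refine ⟨(‖z - x‖, (z - x) / ‖z - x‖), ⟨hz, ?_⟩, ?_⟩
      · simp [norm_ne_zero_iff.2 hzx]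
      · simp only; field_simp; ring
  · rintro ⟨⟨r, u⟩, ⟨hr, hu⟩, rfl⟩
    simp only [mem_sphere_iff_norm, sub_zero] at hu
    have : ‖x + r * u - x‖ = r := by
      rw [add_sub_cancel_left, norm_mul, hu, mul_one, Complex.norm_real,
        Real.norm_of_nonneg (h0 hr)]
    simpa only [mem_ofPred_eq, this] using hr

lemma preconn_ball_diff (x : ℂ) {r : ℝ} (hr : 0 < r) {T : Set ℂ} (hT : T.Countable) :
    IsPreconnected (ball x r \ T) := by
  set e := OpenPartialHomeomorph.univBall x r with he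
  have hs : e.source = univ := OpenPartialHomeomorph.univBall_source _ _
  have ht : e.target = ball x r := OpenPartialHomeomorph.univBall_target _ hr
  have hi : Function.Injective e := by
    have := e.injOn; rw [hs] at this; exact injOn_univ.1 this
  have hc := ((hT.preimage hi).isConnected_compl_of_one_lt_rank rank_two).isPreconnected.image e
    (e.continuousOn.mono (by rw [hs]; exact subset_univ _))
  convert hc using 1
  ext z
  constructor
  · rintro ⟨hz, hzT⟩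
    have := e.right_inv (ht ▸ hz)
    exact ⟨e.symm z, by simpa [this] using hzT, this⟩
  · rintro ⟨w, hw, rfl⟩
    exact ⟨ht ▸ e.map_source (hs ▸ mem_univ _), hw⟩

lemma preconn_diff {O : Set ℂ} (hO : IsOpen O) (hc : IsPreconnected O) {T : Set ℂ}
    (hT : T.Countable) : IsPreconnected (O \ T) := by
  have hd : Dense Tᶜ := hT.dense_compl ℝ
  have key : ∀ a ∈ O, ∀ b ∈ O, ∃ C, (∀ᶠ z in 𝓝 a, z ∉ T → connectedComponentIn (O \ T) z = C) ∧
      (∀ᶠ z in 𝓝 b, z ∉ T → connectedComponentIn (O \ T) z = C) := by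
    intro a ha b hb
    refine hc.induction₂' (fun a b => ∃ C,
      (∀ᶠ z in 𝓝 a, z ∉ T → connectedComponentIn (O \ T) z = C) ∧
      (∀ᶠ z in 𝓝 b, z ∉ T → connectedComponentIn (O \ T) z = C)) (fun x hx => ?_) ?_ ha hb
    · obtain ⟨ε, hε, hb⟩ := Metric.isOpen_iff.1 hO x hx
      obtain ⟨z₀, hz₀, hz₀T⟩ := hd.inter_open_nonempty _ isOpen_ball ((nonempty_ball (x := x)).2 hε)
      have h1 : ∀ y ∈ ball x ε, ∀ᶠ z in 𝓝 y, z ∉ T →
          connectedComponentIn (O \ T) z = connectedComponentIn (O \ T) z₀ := by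
        intro y hy
        filter_upwards [isOpen_ball.mem_nhds hy] with z hz hzT
        refine (connectedComponentIn_eq ?_).symm
        exact (preconn_ball_diff x hε hT).subset_connectedComponentIn ⟨hz₀, hz₀T⟩
          (sdiff_subset_sdiff_left hb) ⟨hz, hzT⟩
      refine mem_nhdsWithin_of_mem_nhds ?_
      filter_upwards [ball_mem_nhds x hε] with y hy
      exact ⟨⟨_, h1 x (mem_ball_self hε), h1 y hy⟩, _, h1 y hy, h1 x (mem_ball_self hε)⟩
    · rintro x y z - - - ⟨C, h1, h2⟩ ⟨C', h3, h4⟩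
      obtain ⟨w, hw, hwT⟩ := mem_closure_iff_nhds.1 (hd y) _ (h2.and h3)
      rw [← hw.1 hwT, hw.2 hwT] at h1
      exact ⟨C', h1, h4⟩
  rcases (O \ T).eq_empty_or_nonempty with h | ⟨a, ha⟩
  · rw [h]; exact isPreconnected_empty
  · have : O \ T = connectedComponentIn (O \ T) a := by
      refine subset_antisymm (fun b hb => ?_) (connectedComponentIn_subset _ _)
      obtain ⟨C, h1, h2⟩ := key a ha.1 b hb.1
      rw [h1.self_of_nhds ha.2, ← h2.self_of_nhds hb.2]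
      exact mem_connectedComponentIn hb
    rw [this]; exact isPreconnected_connectedComponentIn

lemma preconn_diff_collar {O D D' : Set ℂ} (hc : IsPreconnected O) (hD : IsClosed D)
    (hD' : IsOpen D') (h1 : D ⊆ D') (h2 : D' ⊆ O) (h3 : IsPreconnected (D' \ D)) :
    IsPreconnected (O \ D) := by
  rw [isPreconnected_iff_subset_of_disjoint] at hc h3 ⊢
  have key : ∀ u v : Set ℂ, IsOpen u → IsOpen v → O \ D ⊆ u ∪ v → O \ D ∩ (u ∩ v) = ∅ →
      D' \ D ⊆ u → O \ D ⊆ u ∨ O \ D ⊆ v := by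
    intro u v hu hv hcov hdis hsub
    have c1 : O ⊆ (u \ D ∪ D') ∪ v \ D := by
      intro z hz
      by_cases hzD : z ∈ D
      · exact Or.inl (Or.inr (h1 hzD))
      · rcases hcov ⟨hz, hzD⟩ with h | h
        · exact Or.inl (Or.inl ⟨h, hzD⟩)
        · exact Or.inr ⟨h, hzD⟩
    have c2 : O ∩ ((u \ D ∪ D') ∩ (v \ D)) = ∅ := by
      refine eq_empty_of_forall_notMem ?_
      rintro z ⟨hz, hz1, hz2⟩
      have hu' : z ∈ u := by
        rcases hz1 with h | h
        · exact h.1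
        · exact hsub ⟨h, hz2.2⟩
      exact (eq_empty_iff_forall_notMem.1 hdis z) ⟨⟨hz, hz2.2⟩, hu', hz2.1⟩
    rcases hc (u \ D ∪ D') (v \ D) ((hu.sdiff hD).union hD') (hv.sdiff hD) c1 c2 with h | h
    · left
      intro z hz
      rcases h hz.1 with h' | h'
      · exact h'.1
      · exact hsub ⟨h', hz.2⟩
    · exact Or.inr fun z hz => (h hz.1).1
  intro u v hu hv hcov hdis
  have hsub : D' \ D ⊆ O \ D := sdiff_subset_sdiff_left h2
  rcases h3 u v hu hv (hsub.trans hcov) (eq_empty_of_forall_notMem fun z hz =>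
    (eq_empty_iff_forall_notMem.1 hdis z) ⟨hsub hz.1, hz.2⟩) with h | h
  · exact key u v hu hv hcov hdis h
  · exact (key v u hv hu (by rwa [union_comm]) (by rwa [inter_comm v u]) h).symm

lemma exists_radius {T : Set ℂ} (hT : T.Countable) (x : ℂ) {a b : ℝ} (hab : a < b) :
    ∃ r, a < r ∧ r < b ∧ ∀ z ∈ T, ‖z - x‖ ≠ r := by
  obtain ⟨r, hr, hrT⟩ := ((hT.image fun z => ‖z - x‖).dense_compl ℝ).inter_open_nonempty _
    isOpen_Ioo (nonempty_Ioo.2 hab)
  exact ⟨r, hr.1, hr.2, fun z hz h => hrT ⟨z, hz, h⟩⟩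

end

end Pool.Agent.Lib.MP_069d55_gt
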