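import Pool.Agent.Lib.MP_069d55_gt.Basic

/-! Cantor-Bendixson derivatives and types of compact countable sets. -/

namespace Pool.Agent.Lib.MP_069d55_gt

open Set Filter Topology Metric CantorBendixson

noncomputable section

abbrev D {X : Type} [TopologicalSpace X] (A : Set X) (β : Ordinal.{0}) : Set X :=
  iteratedDerivedSet A β

section general

variable {X Y : Type} [TopologicalSpace X] [TopologicalSpace Y] {A B : Set X} {β γ : Ordinal.{0}}
  {x : X}

lemma D_zero : D A 0 = A := iteratedDerivedSet_zero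

lemma mem_D_succ : x ∈ D A (β + 1) ↔ AccPt x (𝓟 (D A β)) ∧ x ∈ D A β := by
  rw [D, iteratedDerivedSet_succ]; rfl

lemma mem_D_limit (h : Order.IsSuccLimit β) : x ∈ D A β ↔ ∀ γ < β, x ∈ D A γ := by
  rw [D, iteratedDerivedSet_limit h]; simp

lemma D_anti (h : β ≤ γ) : D A γ ⊆ D A β := iteratedDerivedSet_antitone A h

lemma D_sub : D A β ⊆ A := by simpa using D_anti (A := A) (zero_le (a := β))

lemma D_mono (h : A ⊆ B) : D A β ⊆ D B β := iteratedDerivedSet_mono h β

lemma D_closed (h : IsClosed A) : IsClosed (D A β) := isClosed_iteratedDerivedSet h β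

lemma D_empty_of_le (h : D A β = ∅) (hle : β ≤ γ) : D A γ = ∅ :=
  subset_eq_empty (D_anti hle) h

lemma D_empty_of_subset (h : D B β = ∅) (hs : A ⊆ B) : D A β = ∅ :=
  subset_eq_empty (D_mono hs) h

lemma D_empty : D (∅ : Set X) β = ∅ := subset_eq_empty D_sub rfl

lemma lt_of_D (h : D A β = ∅) (hx : x ∈ D A γ) : γ < β := by
  by_contra hle
  rw [D_empty_of_le h (not_lt.1 hle)] at hx
  exact hx

lemma accPt_preimage {c : X → Y} (hc : IsOpenEmbedding c) {B : Set Y} :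
    AccPt x (𝓟 (c ⁻¹' B)) ↔ AccPt (c x) (𝓟 B) := by
  rw [accPt_iff_frequently, accPt_iff_frequently, ← hc.map_nhds_eq, frequently_map]
  simp [hc.injective.ne_iff]

lemma D_preimage {c : X → Y} (hc : IsOpenEmbedding c) (B : Set Y) (β : Ordinal.{0}) :
    D (c ⁻¹' B) β = c ⁻¹' D B β := by
  induction β using Ordinal.limitRecOn with
  | zero => simp
  | add_one β ih => ext x; rw [mem_preimage, mem_D_succ, mem_D_succ, ih, accPt_preimage hc]; rfl
  | limit β hβ ih =>
    ext x; rw [mem_preimage, mem_D_limit hβ, mem_D_limit hβ]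
    exact forall₂_congr fun γ hγ => by rw [ih γ hγ]; rfl

lemma D_image (F : X ≃ₜ Y) (A : Set X) (β : Ordinal.{0}) : D (F '' A) β = F '' D A β := by
  rw [F.image_eq_preimage_symm, F.image_eq_preimage_symm, D_preimage F.symm.isOpenEmbedding]

lemma D_inter_open {N : Set X} (hN : IsOpen N) (A : Set X) (β : Ordinal.{0}) :
    D (A ∩ N) β = D A β ∩ N := by
  induction β using Ordinal.limitRecOn with
  | zero => simp
  | add_one β ih =>
    ext x
    rw [mem_inter_iff, mem_D_succ, mem_D_succ, ih]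
    constructor
    · rintro ⟨h1, h2, h3⟩
      exact ⟨⟨h1.mono (principal_mono.2 inter_subset_left), h2⟩, h3⟩
    · rintro ⟨⟨h1, h2⟩, h3⟩
      exact ⟨inter_comm N _ ▸ h1.nhds_inter (hN.mem_nhds h3), h2, h3⟩
  | limit β hβ ih =>
    ext x
    rw [mem_inter_iff, mem_D_limit hβ, mem_D_limit hβ]
    constructor
    · intro h
      refine ⟨fun γ hγ => ?_, (D_sub (h 0 hβ.bot_lt)).2⟩
      have := h γ hγ; rw [ih γ hγ] at this; exact this.1
    · rintro ⟨h1, h2⟩ γ hγ
      rw [ih γ hγ]; exact ⟨h1 γ hγ, h2⟩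

lemma D_union (hA : IsClosed A) (hB : IsClosed B) (β : Ordinal.{0}) :
    D (A ∪ B) β = D A β ∪ D B β := by
  refine subset_antisymm ?_ (union_subset (D_mono subset_union_left) (D_mono subset_union_right))
  induction β using Ordinal.limitRecOn with
  | zero => simp
  | add_one β ih =>
    intro x hx
    have h1 := (mem_D_succ.1 hx).1.mono (principal_mono.2 ih)
    rw [← mem_derivedSet, derivedSet_union] at h1
    rcases h1 with h | h
    · exact Or.inl (mem_D_succ.2 ⟨h, (isClosed_iff_derivedSet_subset _).1 (D_closed hA) h⟩)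
    · exact Or.inr (mem_D_succ.2 ⟨h, (isClosed_iff_derivedSet_subset _).1 (D_closed hB) h⟩)
  | limit β hβ ih =>
    intro x hx
    by_contra hcon
    rw [mem_union, not_or, mem_D_limit hβ, mem_D_limit hβ] at hcon
    push Not at hcon
    obtain ⟨⟨γ, hγ, h1⟩, γ', hγ', h2⟩ := hcon
    rcases ih _ (max_lt hγ hγ') (D_anti (max_lt hγ hγ').le hx) with h | h
    · exact h1 (D_anti (le_max_left _ _) h)
    · exact h2 (D_anti (le_max_right _ _) h)

lemma finite_D [T2Space X] (hA : IsCompact A) (h : D A (β + 1) = ∅) : (D A β).Finite := by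
  by_contra hi
  have hc : IsClosed (D A β) := D_closed hA.isClosed
  obtain ⟨x, hx, hacc⟩ := Set.Infinite.exists_accPt_of_subset_isCompact hi
    (hA.of_isClosed_subset hc D_sub) subset_rfl
  exact (h ▸ mem_D_succ.2 ⟨hacc, hx⟩ : x ∈ (∅ : Set X))

lemma encard_D_top [T1Space X] (hx : x ∈ D A γ) (h : β < γ) : (D A β).encard = ⊤ :=
  (Set.Infinite.of_accPt (mem_D_succ.1 (D_anti (Order.add_one_le_of_lt h) hx)).1).encard_eq

lemma D_succ_of_finite [T1Space X] (h : (D A β).Finite) : D A (β + 1) = ∅ :=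
  eq_empty_of_forall_notMem fun _ hx => Set.Infinite.of_accPt (mem_D_succ.1 hx).1 h

lemma exists_type [T2Space X] (hA : IsCompact A) (hne : A.Nonempty) {δ : Ordinal.{0}}
    (h : D A δ = ∅) : ∃ β < δ, (D A β).Nonempty ∧ D A (β + 1) = ∅ := by
  induction δ using Ordinal.limitRecOn with
  | zero => rw [D_zero] at h; exact absurd h hne.ne_empty
  | add_one δ ih =>
    rcases (D A δ).eq_empty_or_nonempty with h' | h'
    · obtain ⟨β, hβ, hb⟩ := ih h'
      exact ⟨β, hβ.trans (Order.lt_add_one_iff.2 le_rfl), hb⟩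
    · exact ⟨δ, Order.lt_add_one_iff.2 le_rfl, h', h⟩
  | limit δ hδ ih =>
    by_cases hex : ∃ γ < δ, D A γ = ∅
    · obtain ⟨γ, hγ, h'⟩ := hex
      obtain ⟨β, hβ, hb⟩ := ih γ hγ h'
      exact ⟨β, hβ.trans hγ, hb⟩
    · push Not at hex
      have : Nonempty (Iio δ) := ⟨⟨0, hδ.bot_lt⟩⟩
      obtain ⟨x, hx⟩ := IsCompact.nonempty_iInter_of_directed_nonempty_isCompact_isClosed
        (fun γ : Iio δ => D A γ)
        (fun a b => ⟨max a b, D_anti (show a.1 ≤ _ from le_max_left a b),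
          D_anti (show b.1 ≤ _ from le_max_right a b)⟩)
        (fun γ => hex γ γ.2) (fun γ => hA.of_isClosed_subset (D_closed hA.isClosed) D_sub)
        (fun γ => D_closed hA.isClosed)
      exact absurd ((mem_D_limit hδ).2 fun γ hγ => mem_iInter.1 hx ⟨γ, hγ⟩) (by simp [h])

lemma exists_exact {δ : Ordinal.{0}} (h : D A δ = ∅) (hx : x ∈ D A β) {N : Set X} (hN : IsOpen N)
    (hxN : x ∈ N) : ∃ y ∈ N, y ∈ D A β ∧ y ∉ D A (β + 1) := by
  by_contra hcon
  push Not at hcon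
  have hp : Preperfect (N ∩ D A β) := fun y hy =>
    (mem_D_succ.1 (hcon y hy.1 hy.2)).1.nhds_inter (hN.mem_nhds hy.1)
  have h1 : D (N ∩ D A β) δ = N ∩ D A β := iteratedDerivedSet_constant_iff_preperfect.1 hp δ
  rw [D_empty_of_subset h (inter_subset_right.trans D_sub)] at h1
  exact (h1.symm ▸ ⟨hxN, hx⟩ : x ∈ (∅ : Set X))

end general

variable {X A B C P Q U Y N : Set ℂ} {α β γ : Ordinal.{0}} {x y : ℂ}

lemma scat (hX : IsClosed X) (hc : X.Countable) : ∃ δ, D X δ = ∅ := by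
  obtain ⟨a, ha⟩ := iteratedDerivedSet_mem_fixedPoints X
  refine ⟨a, ?_⟩
  have hp := perfect_perfectKernel hX
  rw [perfectKernel_eq_iteratedDerivedSet_of_mem_fixedPoints ha] at hp
  by_contra hne
  obtain ⟨f, hf, -, hi⟩ := hp.exists_nat_bool_injection (nonempty_iff_ne_empty.2 hne)
  have : (univ : Set (ℕ → Bool)).Countable :=
    countable_of_injective_of_countable_image hi.injOn
      (hc.mono (by rw [image_univ]; exact hf.trans D_sub))
  obtain ⟨g, hg⟩ := (countable_univ_iff.1 this).exists_injective_nat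
  obtain ⟨e, he⟩ : ∃ e : ℕ → ℕ → Bool, Function.Surjective e :=
    ⟨Function.invFun g, Function.invFun_surjective hg⟩
  obtain ⟨n, hn⟩ := he fun n => !e n n
  simpa using congrFun hn n

/-- `U` is a compact open piece of `X`. -/
def Clop (X U : Set ℂ) : Prop := U ⊆ X ∧ IsCompact U ∧ IsClosed (X \ U)

lemma Clop.D_eq (h : Clop X U) (β : Ordinal.{0}) : D U β = D X β ∩ U := by
  have e : U = X ∩ (X \ U)ᶜ := by
    ext z; constructor
    · exact fun hz => ⟨h.1 hz, fun h' => h'.2 hz⟩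
    · exact fun hz => by_contra fun h' => hz.2 ⟨hz.1, h'⟩
  conv_lhs => rw [e, D_inter_open h.2.2.isOpen_compl]
  ext z; constructor
  · exact fun hz => ⟨hz.1, by_contra fun h' => hz.2 ⟨D_sub hz.1, h'⟩⟩
  · exact fun hz => ⟨hz.1, fun h' => h'.2 hz.2⟩

lemma Clop.union {V : Set ℂ} (h : Clop X U) (h' : Clop X V) : Clop X (U ∪ V) :=
  ⟨union_subset h.1 h'.1, h.2.1.union h'.2.1, by rw [← sdiff_inter_sdiff]; exact h.2.2.inter h'.2.2⟩

lemma clop_empty (hX : IsClosed X) : Clop X ∅ := ⟨empty_subset _, isCompact_empty, by simpa⟩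

lemma clop_of_open (hX : IsClosed X) (hN : IsOpen N) (h : IsCompact (X ∩ N)) : Clop X (X ∩ N) :=
  ⟨inter_subset_left, h, by rw [sdiff_self_inter]; exact hX.sdiff hN⟩

lemma compact_inter_ball (hX : IsClosed X) {r : ℝ} (h : ∀ z ∈ X, ‖z - x‖ ≠ r) :
    IsCompact (X ∩ ball x r) := by
  have : X ∩ ball x r = X ∩ closedBall x r := by
    ext z; simp only [mem_inter_iff, mem_ball, mem_closedBall, dist_eq_norm]
    exact and_congr_right fun hz => ⟨le_of_lt, fun h' => lt_of_le_of_ne h' (h z hz)⟩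
  rw [this]; exact (isCompact_closedBall x r).inter_left hX

lemma exists_piece (hX : IsClosed X) (hc : X.Countable) (h1 : y ∈ D X β) (h2 : y ∉ D X (β + 1))
    (hN : N ∈ 𝓝 y) : ∃ U, Clop X U ∧ U ⊆ N ∧ D U β = {y} := by
  have h3 : ¬ AccPt y (𝓟 (D X β)) := fun h => h2 (mem_D_succ.2 ⟨h, h1⟩)
  rw [accPt_iff_frequently, not_frequently] at h3
  obtain ⟨ε, hε, hb⟩ := Metric.eventually_nhds_iff_ball.1 (h3.and hN)
  obtain ⟨r, hr0, hr, hrX⟩ := exists_radius hc y hε
  refine ⟨X ∩ ball y r, clop_of_open hX isOpen_ball (compact_inter_ball hX hrX),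
    fun z hz => (hb z (ball_subset_ball hr.le hz.2)).2, ?_⟩
  rw [D_inter_open isOpen_ball]
  refine eq_singleton_iff_unique_mem.2 ⟨⟨h1, mem_ball_self hr0⟩, fun z hz => ?_⟩
  by_contra hne
  exact (hb z (ball_subset_ball hr.le hz.2)).1 ⟨hne, hz.1⟩

/-- Same Cantor-Bendixson type. -/
def Ty (A B : Set ℂ) : Prop := ∀ β, (D A β).encard = (D B β).encard

lemma Ty.refl (A : Set ℂ) : Ty A A := fun _ => rfl
lemma Ty.symm (h : Ty A B) : Ty B A := fun β => (h β).symm
lemma Ty.trans (h : Ty A B) (h' : Ty B C) : Ty A C := fun β => (h β).trans (h' β)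

lemma ty_image (F : ℂ ≃ₜ ℂ) (A : Set ℂ) : Ty (F '' A) A := fun β => by
  rw [D_image, F.injective.encard_image]

lemma Ty.D_empty (h : Ty A B) (hA : D A β = ∅) : D B β = ∅ := by
  rw [← encard_eq_zero, ← h β, hA, encard_empty]

lemma encard_D_union (hA : IsClosed A) (hB : IsClosed B) (hd : Disjoint A B) (β : Ordinal.{0}) :
    (D (A ∪ B) β).encard = (D A β).encard + (D B β).encard := by
  rw [D_union hA hB, encard_union_eq (hd.mono D_sub D_sub)]

lemma Ty.union {A' B' : Set ℂ} (h : Ty A A') (h' : Ty B B') (hA : IsClosed A) (hB : IsClosed B)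
    (hA' : IsClosed A') (hB' : IsClosed B') (hd : Disjoint A B) (hd' : Disjoint A' B') :
    Ty (A ∪ B) (A' ∪ B') := fun β => by
  rw [encard_D_union hA hB hd, encard_D_union hA' hB' hd', h β, h' β]

lemma ty_union_of (hY : IsClosed Y) (hP : IsClosed P) (hQ : IsClosed Q) (h1 : Disjoint Y P)
    (h2 : Disjoint Y Q) (h : ∀ β, D Y (β + 1) = ∅ → (D P β).encard = (D Q β).encard) :
    Ty (Y ∪ P) (Y ∪ Q) := fun β => by
  rw [encard_D_union hY hP h1, encard_D_union hY hQ h2]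
  rcases (D Y (β + 1)).eq_empty_or_nonempty with h' | ⟨y, hy⟩
  · rw [h β h']
  · rw [encard_D_top hy (Order.lt_add_one_iff.2 le_rfl), top_add, top_add]

lemma ty_of_type (hA : D A (β + 1) = ∅) (hB : D B (β + 1) = ∅) (hne : (D A β).Nonempty)
    (h : (D A β).encard = (D B β).encard) : Ty A B := fun γ => by
  obtain ⟨a, ha⟩ := hne
  obtain ⟨b, hb⟩ : (D B β).Nonempty := by
    rw [← encard_ne_zero, ← h, encard_ne_zero]; exact ⟨a, ha⟩
  rcases lt_trichotomy γ β with h' | rfl | h'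
  · rw [encard_D_top ha h', encard_D_top hb h']
  · exact h
  · rw [D_empty_of_le hA (Order.add_one_le_of_lt h'), D_empty_of_le hB (Order.add_one_le_of_lt h')]

lemma ty_of_top {a b : ℂ} (hA : D A β = {a}) (hB : D B β = {b}) : Ty A B :=
  ty_of_type (β := β) (D_succ_of_finite (by simp [hA])) (D_succ_of_finite (by simp [hB]))
    (by simp [hA]) (by simp [hA, hB])

/-- Points of all ranks below `γ` leave every compact subset of `N`. -/
def Rich (X : Set ℂ) (γ : Ordinal.{0}) (N : Set ℂ) : Prop :=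
  ∀ β < γ, ∀ K, IsCompact K → K ⊆ N → ∃ y ∈ N, y ∉ K ∧ y ∈ D X β

lemma rich_punct (hx : x ∈ D X γ) (hN : N ∈ 𝓝 x) : Rich X γ (N \ {x}) := fun β hβ K hK hKN => by
  have h := (mem_D_succ.1 (D_anti (Order.add_one_le_of_lt hβ) hx)).1
  obtain ⟨y, ⟨⟨h1, h2⟩, h3⟩, h4⟩ := accPt_iff_nhds.1 h _ (inter_mem hN
    (hK.isClosed.isOpen_compl.mem_nhds fun hxK => (hKN hxK).2 rfl))
  exact ⟨y, ⟨h1, h4⟩, h2, h3⟩

lemma subclop (hX : IsClosed X) (hc : X.Countable) (hN : IsOpen N) (hR : Rich X γ N)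
    (hC : IsCompact C) (hγ : D C γ = ∅) : ∃ U, Clop X U ∧ U ⊆ N ∧ Ty U C := by
  rcases C.eq_empty_or_nonempty with rfl | hne
  · exact ⟨∅, clop_empty hX, empty_subset _, Ty.refl _⟩
  obtain ⟨β, hβ, h1, h2⟩ := exists_type hC hne hγ
  obtain ⟨δ, hδ⟩ := scat hX hc
  have key : ∀ j : ℕ, ∃ U, Clop X U ∧ U ⊆ N ∧ (D U β).encard = j := by
    intro j
    induction j with
    | zero => exact ⟨∅, clop_empty hX, empty_subset _, by simp [D_empty]⟩
    | succ j ih =>
      obtain ⟨U, hU, hUN, hj⟩ := ih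
      obtain ⟨y, hy1, hy2, hy3⟩ := hR β hβ U hU.2.1 hUN
      have ho : IsOpen (N \ U) := hN.sdiff hU.2.1.isClosed
      obtain ⟨y', hy', e1, e2⟩ := exists_exact hδ hy3 ho ⟨hy1, hy2⟩
      obtain ⟨V, hV, hVN, hVy⟩ := exists_piece hX hc e1 e2 (ho.mem_nhds hy')
      refine ⟨U ∪ V, hU.union hV, union_subset hUN (hVN.trans sdiff_subset), ?_⟩
      rw [encard_D_union hU.2.1.isClosed hV.2.1.isClosed
        (disjoint_right.2 fun z hz => (hVN hz).2), hj, hVy]
      simp
  obtain ⟨j, hj⟩ := (finite_D hC h2).exists_encard_eq_coe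
  obtain ⟨U, hU, hUN, hUj⟩ := key j
  exact ⟨U, hU, hUN, (ty_of_type h2 (D_succ_of_finite (finite_of_encard_eq_coe hUj)) h1
    (hj.trans hUj.symm)).symm⟩

/-- not a successor -/
def NS (α : Ordinal.{0}) : Prop := ∀ β < α, β + 1 < α

/-- the point `y` has larger rank in `X` than all points of `P` -/
def Dom (X : Set ℂ) (y : ℂ) (P : Set ℂ) : Prop := ∀ β, y ∉ D X (β + 1) → D P β = ∅

lemma exists_dom (hα : NS α) (hR : Rich X α N) (hN : N.Nonempty) (hP : IsCompact P)
    (h : D P α = ∅) : ∃ y ∈ N, Dom X y P := by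
  rcases P.eq_empty_or_nonempty with rfl | hne
  · obtain ⟨y, hy⟩ := hN
    exact ⟨y, hy, fun β _ => D_empty⟩
  obtain ⟨β, hβ, -, h2⟩ := exists_type hP hne h
  obtain ⟨y, hy, -, hy'⟩ := hR _ (hα β hβ) ∅ isCompact_empty (empty_subset _)
  refine ⟨y, hy, fun γ hγ => D_empty_of_le h2 ?_⟩
  by_contra hlt
  exact hγ (D_anti (Order.add_one_le_of_lt (not_le.1 hlt)) hy')

lemma Dom.mono (h : Dom X y P) (hQ : Q ⊆ P) : Dom X y Q := fun β hβ =>
  D_empty_of_subset (h β hβ) hQ

/-- Absorption. -/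
lemma ty_absorb (hN : IsOpen N) (hy : y ∈ N) (hY : IsClosed (X ∩ N)) (hP : IsClosed P)
    (hQ : IsClosed Q) (h1 : Disjoint (X ∩ N) P) (h2 : Disjoint (X ∩ N) Q) (hP' : Dom X y P)
    (hQ' : Dom X y Q) : Ty (X ∩ N ∪ P) (X ∩ N ∪ Q) := by
  refine ty_union_of hY hP hQ h1 h2 fun β hβ => ?_
  have : y ∉ D X (β + 1) := fun h => by
    rw [D_inter_open hN] at hβ
    exact (hβ ▸ ⟨h, hy⟩ : y ∈ (∅ : Set ℂ))
  rw [hP' β this, hQ' β this]

end

end Pool.Agent.Lib.MP_069d55_gt
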