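import Mathlib

/-! Definitions on end spaces with a marked subset, and the standard model of a surface. -/

open Set Topology Filter OnePoint

namespace Pool.Agent.Lib.MP_069d55_gt.G

section ends
variable {Y : Type} [TopologicalSpace Y] (C : Set Y)

/-- The homeomorphisms of `Y` preserving `C`. -/
def Aut : Subgroup (Y ≃ₜ Y) where
  carrier := {k | ∀ x, k x ∈ C ↔ x ∈ C}
  one_mem' := fun _ => Iff.rfl
  mul_mem' := fun {a b} ha hb x => by rw [Homeomorph.mul_apply, ha, hb]
  inv_mem' := fun {a} ha x => by rw [← ha, Homeomorph.inv_apply, a.apply_symm_apply]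

/-- The orbit of a point. -/
def orb (x : Y) : Set Y := {y | ∃ φ ∈ Aut C, φ x = y}

/-- Stable pair (Mann and Rafi): every point has a clopen neighbourhood with a clopen copy in
every neighbourhood of the point. -/
def Stable : Prop :=
  ∀ x : Y, ∃ U : Set Y, IsClopen U ∧ x ∈ U ∧ ∀ W ∈ 𝓝 x, ∃ U' : Set Y, U' ⊆ W ∧ IsClopen U' ∧
    ∃ φ : U ≃ₜ U', ∀ y : U, (φ y : Y) ∈ C ↔ (y : Y) ∈ C

/-- Points with finite orbit. -/
def finOrb : Set Y := {x | (orb C x).Finite}

/-- Points with finite orbit that are the only accumulation point of some infinite orbit. -/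
def finOrbPlus : Set Y :=
  {y | (orb C y).Finite ∧ ∃ x : Y, (orb C x).Infinite ∧ derivedSet (orb C x) = {y}}

/-- Flux condition: an infinite orbit containing none of its accumulation points, and a clopen set
splitting its accumulation set into two nonempty parts not both met by any infinite orbit. -/
def Flux : Prop :=
  ∃ x : Y, (orb C x).Infinite ∧ Disjoint (orb C x) (derivedSet (orb C x)) ∧
    ∃ A : Set Y, IsClopen A ∧ (derivedSet (orb C x) ∩ A).Nonempty ∧
      (derivedSet (orb C x) \ A).Nonempty ∧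
      ∀ z : Y, (orb C z).Infinite → ¬ ((orb C z ∩ (derivedSet (orb C x) ∩ A)).Nonempty ∧
        (orb C z ∩ (derivedSet (orb C x) \ A)).Nonempty)

/-- Linking condition. -/
def Link : Prop := 4 ≤ (finOrb C).encard + (finOrbPlus C).encard

/-- Handle flux condition: a clopen set splits `C` into two nonempty parts, and the first part has
only finitely many images. -/
def HFlux : Prop := ∃ A : Set Y, IsClopen A ∧ (C ∩ A).Nonempty ∧ (C \ A).Nonempty ∧
  {B | ∃ φ ∈ Aut C, B = φ '' (C ∩ A)}.Finite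

end ends

/-- `S` is the sphere minus the set of ends `E` with one handle attached at each point of `X`;
the map `p` collapses the figure eight core of each handle. -/
structure Model {S : Type} [TopologicalSpace S] (p : S → OnePoint ℂ)
    (E X : Set (OnePoint ℂ)) : Prop where
  closed : IsClosed (E ∪ X)
  totDisc : IsTotallyDisconnected (E ∪ X)
  real : ∀ z : ℂ, (z : OnePoint ℂ) ∈ E ∪ X → z.im = 0
  isolated : ∀ x ∈ X, ∀ᶠ y in 𝓝 x, y ∈ E ∪ X → y = x
  cont : Continuous p
  range_eq : range p = Eᶜ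
  proper : ∀ K, IsCompact K → Disjoint K E → IsCompact (p ⁻¹' K)
  inj : InjOn p (p ⁻¹' Xᶜ)
  handle : ∀ x ∈ X, ∀ W ∈ 𝓝 x, ∃ U ⊆ W, IsOpen U ∧ x ∈ U ∧
    ∃ e : p ⁻¹' U ≃ₜ {t : UnitAddCircle × UnitAddCircle // t ≠ (↑(1 / 2 : ℝ), ↑(1 / 2 : ℝ))},
      ∀ s, p s.1 = x ↔ (e s).1.1 = 0 ∨ (e s).1.2 = 0

/-- The ends accumulated by genus. -/
def genusEnds (E X : Set (OnePoint ℂ)) : Set E := {x | x.1 ∈ closure X}

end Pool.Agent.Lib.MP_069d55_gt.G
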