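import Pool.Agent.Lib.MP_069d55_gt.KFlux
import Pool.Agent.Lib.MP_069d55_gt.CDefs

/-! Clopen copies, absorption and transfer in a profinite space with a marked subset. -/

open Set Topology Filter

namespace Pool.Agent.Lib.MP_069d55_gt.G

open K

variable {X : Type} [TopologicalSpace X] {C : Set X}

/-- `f` preserves the marking on `A`. -/
def Pr (C : Set X) (f : X → X) (A : Set X) : Prop := ∀ x ∈ A, f x ∈ C ↔ x ∈ C

/-- `B` is a copy of `A`. -/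
def Cp (C A B : Set X) : Prop := ∃ f : X → X, ContinuousOn f A ∧ BijOn f A B ∧ Pr C f A

/-- `T` has clopen copies in every punctured neighbourhood of `z`. -/
def Abs (C T : Set X) (z : X) : Prop :=
  ∀ U ∈ 𝓝 z, ∃ T' ⊆ U, z ∉ T' ∧ IsClopen T' ∧ Cp C T T'

/-- `U` is a stable neighbourhood of `x`. -/
def StN (C U : Set X) (x : X) : Prop :=
  IsClopen U ∧ x ∈ U ∧ ∀ W ∈ 𝓝 x, ∃ U' ⊆ W, IsClopen U' ∧ Cp C U U'

/-- Clopen sets with copies converging to a point outside. -/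
def Dead (C W : Set X) : Prop := IsClopen W ∧ ∃ w ∉ W, Abs C W w

theorem Cp.trans {A B D : Set X} (h : Cp C A B) (h' : Cp C B D) : Cp C A D :=
  let ⟨f, hf, hf', a⟩ := h
  let ⟨g, hg, hg', b⟩ := h'
  ⟨g ∘ f, hg.comp hf hf'.mapsTo, hg'.comp hf', fun x hx => (b _ (hf'.mapsTo hx)).trans (a x hx)⟩

theorem Cp.image (A : Set X) {φ : X ≃ₜ X} (hφ : φ ∈ Aut C) : Cp C A (φ '' A) :=
  ⟨φ, φ.continuous.continuousOn, φ.injective.injOn.bijOn_image, fun x _ => hφ x⟩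

omit [TopologicalSpace X] in
theorem Pr.inv {f g : X → X} {A B : Set X} (h : Pr C f A) (hg : MapsTo g B A)
    (e : ∀ y ∈ B, f (g y) = y) : Pr C g B := fun y hy => (h _ (hg hy)).symm.trans (by rw [e y hy])

omit [TopologicalSpace X] in
theorem Pr.union {f f' g : X → X} {A A' : Set X} (h : Pr C f A) (h' : Pr C f' A')
    (e : ∀ x ∈ A, g x = f x) (e' : ∀ x ∈ A', g x = f' x) : Pr C g (A ∪ A') := by
  rintro x (hx | hx)
  exacts [e x hx ▸ h x hx, e' x hx ▸ h' x hx]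

theorem Pr.aut {f : X → X} {W : Set X} (h : Pr C f W) {u : X ≃ₜ X} (e : ∀ x ∈ W, u x = f x)
    (e' : ∀ x ∉ W, u x = x) : u ∈ Aut C := fun x => by
  by_cases hx : x ∈ W
  · rw [e x hx, h x hx]
  · rw [e' x hx]

theorem Stable.stN (h : Stable C) (x : X) : ∃ U, StN C U x := by
  classical
  obtain ⟨U, h1, h2, h3⟩ := h x
  refine ⟨U, h1, h2, fun W hW => ?_⟩
  obtain ⟨U', h4, h5, φ, hφ⟩ := h3 W hW
  refine ⟨U', h4, h5, fun y => if h : y ∈ U then φ ⟨y, h⟩ else y, ?_, ⟨fun y hy => ?_,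
    fun y hy z hz h => ?_, fun y hy => ⟨φ.symm ⟨y, hy⟩, (φ.symm ⟨y, hy⟩).2, ?_⟩⟩,
    fun y hy => by simpa [hy] using hφ ⟨y, hy⟩⟩
  · rw [continuousOn_iff_continuous_domRestrict]
    exact (continuous_subtype_val.comp φ.continuous).congr fun y => by simp [y.2]
  · simp [hy]
  · simp only [hy, hz, dite_true] at h
    simpa using φ.injective (Subtype.ext h)
  · simp

theorem mem_orb_self (x : X) : x ∈ orb C x := ⟨1, one_mem _, rfl⟩

theorem orb_eq {x y : X} (h : y ∈ orb C x) : orb C y = orb C x := by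
  obtain ⟨φ, a, rfl⟩ := h
  ext z
  exact ⟨fun ⟨ψ, b, h⟩ => ⟨ψ * φ, mul_mem b a, h⟩,
    fun ⟨ψ, b, h⟩ => ⟨ψ * φ⁻¹, mul_mem b (inv_mem a), by simpa using h⟩⟩

theorem apply_mem_orb {x y : X} {φ : X ≃ₜ X} (a : φ ∈ Aut C) : φ y ∈ orb C x ↔ y ∈ orb C x :=
  ⟨fun ⟨ψ, b, h⟩ => ⟨φ⁻¹ * ψ, mul_mem (inv_mem a) b, by simp [h]⟩,
    fun ⟨ψ, b, h⟩ => ⟨φ * ψ, mul_mem a b, by simp [h]⟩⟩

theorem orb_subset_derived {x y : X} (h : y ∈ derivedSet (orb C x)) :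
    orb C y ⊆ derivedSet (orb C x) := by
  rintro _ ⟨φ, a, rfl⟩
  exact derivedSet_mono _ _ (by rintro _ ⟨z, hz, rfl⟩; exact (apply_mem_orb a).2 hz)
    (φ.continuous.image_derivedSet φ.injective (mem_image_of_mem _ h))

theorem apply_mem_derived {x y : X} {φ : X ≃ₜ X} (a : φ ∈ Aut C) :
    φ y ∈ derivedSet (orb C x) ↔ y ∈ derivedSet (orb C x) :=
  ⟨fun h => orb_subset_derived h ⟨φ⁻¹, inv_mem a, by simp⟩,
    fun h => orb_subset_derived h ⟨φ, a, rfl⟩⟩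

theorem Cp.union {A B A' B' : Set X} (h : Cp C A B) (h' : Cp C A' B') (hA : IsOpen A)
    (hA' : IsOpen A') (hd : Disjoint A A') (hd' : Disjoint B B') : Cp C (A ∪ A') (B ∪ B') :=
  let ⟨_, h1, h2, a⟩ := h
  let ⟨_, h3, h4, b⟩ := h'
  let ⟨g, h5, h6, c, d⟩ := exists_glue_on hA hA' hd hd' h1 h2 h3 h4
  ⟨g, h5, h6, a.union b c d⟩

theorem Abs.union {A B : Set X} {z : X} (h : Abs C A z) (h' : Abs C B z) (hA : IsOpen A)
    (hB : IsOpen B) (hd : Disjoint A B) : Abs C (A ∪ B) z := fun U hU => by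
  obtain ⟨A', h1, h2, h3, h4⟩ := h U hU
  obtain ⟨B', h5, h6, h7, h8⟩ := h' (U ∩ A'ᶜ) (inter_mem hU (h3.compl.2.mem_nhds h2))
  exact ⟨A' ∪ B', union_subset h1 (h5.trans inter_subset_left), fun h => h.elim h2 h6,
    h3.union h7, h4.union h8 hA hB hd (Set.disjoint_right.2 fun x hx => (h5 hx).2)⟩

theorem Abs.of_cp {A B : Set X} {z : X} (h : Abs C B z) (h' : Cp C A B) : Abs C A z := fun U hU =>
  let ⟨T, h1, h2, h3, h4⟩ := h U hU
  ⟨T, h1, h2, h3, h'.trans h4⟩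

variable [CompactSpace X]

theorem exists_derived_notMem {x : X} (hx : (orb C x).Infinite) {s : Set X} (hs : s.Finite)
    (h : ∀ y ∈ s, (orb C y).Infinite) : ∃ w ∈ derivedSet (orb C x), w ∉ s := by
  by_contra! hc
  obtain ⟨w, hw⟩ := hx.exists_accPt_principal
  exact h w (hc w hw) (hs.subset ((orb_subset_derived hw).trans hc))

variable [T2Space X]

theorem Cp.symm {A B : Set X} (h : Cp C A B) (hA : IsClosed A) : Cp C B A :=
  let ⟨_, hf, hf', a⟩ := h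
  let ⟨g, hg, hg', _, b⟩ := exists_inv_on hA hf hf'
  ⟨g, hg, hg', a.inv hg'.mapsTo b⟩

theorem exists_swap {f : X → X} {T T' : Set X} (hT : IsClopen T) (hT' : IsClopen T')
    (hd : Disjoint T T') (hf : ContinuousOn f T) (h : BijOn f T T') (a : Pr C f T) :
    ∃ u ∈ Aut C, (∀ x ∈ T, u x = f x) ∧ ∀ x ∉ T ∪ T', u x = x := by
  obtain ⟨g, h1, h2, -, b⟩ := exists_inv_on hT.1 hf h
  obtain ⟨k, h3, h4, h5, c⟩ := exists_glue_on hT.2 hT'.2 hd hd.symm hf h h1 h2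
  obtain ⟨u, h6, h7⟩ := exists_homeo_on (hT.union hT') h3 (by rwa [union_comm T'] at h4)
  exact ⟨u, (a.union (a.inv h2.mapsTo b) h5 c).aut h6 h7,
    fun x hx => (h6 x (Or.inl hx)).trans (h5 x hx), h7⟩

theorem Cp.sub {A B T : Set X} (h : Cp C A B) (hA : IsClopen A) (hB : IsClopen B) (hT : IsClopen T)
    (hTA : T ⊆ A) : ∃ T' ⊆ B, IsClopen T' ∧ Cp C T T' :=
  let ⟨f, h1, h2, a⟩ := h
  ⟨f '' T, (image_mono hTA).trans h2.image_eq.subset, isClopen_image_on hA hB h1 h2 hT hTA,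
    f, h1.mono hTA, (h2.injOn.mono hTA).bijOn_image, fun x hx => a x (hTA hx)⟩

theorem Abs.mono {A T : Set X} {z : X} (h : Abs C A z) (hA : IsClopen A) (hT : IsClopen T)
    (hTA : T ⊆ A) : Abs C T z := fun U hU => by
  obtain ⟨B, h1, h2, h3, h4⟩ := h U hU
  obtain ⟨T', h5, h6, h7⟩ := h4.sub hA h3 hT hTA
  exact ⟨T', h5.trans h1, fun h => h2 (h5 h), h6, h7⟩

theorem Abs.trans {T R : Set X} {z w : X} (h : Abs C T z) (hR : IsClopen R) (hz : z ∈ R)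
    (h' : Abs C R w) : Abs C T w :=
  let ⟨_, h1, _, h3, h4⟩ := h R (hR.2.mem_nhds hz)
  (h'.mono hR h3 h1).of_cp h4

theorem StN.abs {U T : Set X} {x : X} (h : StN C U x) (hT : IsClopen T) (hTU : T ⊆ U)
    (hx : x ∉ T) : Abs C T x := fun W hW => by
  obtain ⟨U', h1, h2, f, h3, h4, a⟩ := h.2.2 W hW
  by_cases hxf : x ∈ f '' T
  · obtain ⟨U₂, h5, h6, h7⟩ := h.2.2 (U \ T) ((h.1.diff hT).2.mem_nhds ⟨h.2.1, hx⟩)
    obtain ⟨T₂, h8, h9, h10⟩ := h7.sub h.1 h6 hT hTU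
    have h11 : T₂ ⊆ U := h8.trans (h5.trans sdiff_subset)
    refine ⟨f '' T₂, ((image_mono h11).trans h4.image_eq.subset).trans h1, ?_,
      isClopen_image_on h.1 h2 h3 h4 h9 h11, h10.trans ⟨f, h3.mono h11,
        (h4.injOn.mono h11).bijOn_image, fun y hy => a y (h11 hy)⟩⟩
    obtain ⟨t, ht, rfl⟩ := hxf
    rintro ⟨s, hs, hst⟩
    exact (h5 (h8 hs)).2 (h4.injOn (h11 hs) (hTU ht) hst ▸ ht)
  · exact ⟨f '' T, ((image_mono hTU).trans h4.image_eq.subset).trans h1, hxf,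
      isClopen_image_on h.1 h2 h3 h4 hT hTU, f, h3.mono hTU, (h4.injOn.mono hTU).bijOn_image,
      fun y hy => a y (hTU hy)⟩

omit [CompactSpace X] in
theorem StN.abs_of_derived {U : Set X} {x w : X} (h : StN C U x) (hw : w ∈ derivedSet (orb C x)) :
    Abs C U w := fun O hO => by
  obtain ⟨_, ⟨h1, φ, a, rfl⟩, h2⟩ := accPt_iff_nhds.1 hw _ (interior_mem_nhds.2 hO)
  obtain ⟨U', h3, h4, h5⟩ := h.2.2 (φ ⁻¹' (interior O \ {w})) (φ.continuous.continuousAt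
    ((isOpen_interior.sdiff isClosed_singleton).mem_nhds ⟨h1, h2⟩))
  refine ⟨φ '' U', ?_, ?_, ⟨φ.isClosedMap _ h4.1, φ.isOpenMap _ h4.2⟩, h5.trans (Cp.image _ a)⟩
  · rintro _ ⟨y, hy, rfl⟩; exact interior_subset (h3 hy).1
  · rintro ⟨y, hy, h⟩; exact (h3 hy).2 h

theorem Abs.mem_derived {T : Set X} {x z : X} (h : Abs C T z) (hT : IsClopen T) (hx : x ∈ T)
    (hz : z ∉ T) : z ∈ derivedSet (orb C x) := accPt_iff_nhds.2 fun U hU => by
  obtain ⟨T', h1, h2, h3, f, h4, h5, a⟩ := h (U ∩ Tᶜ) (inter_mem hU (hT.compl.2.mem_nhds hz))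
  obtain ⟨u, b, hu, -⟩ := exists_swap hT h3 (Set.disjoint_right.2 fun y hy => (h1 hy).2) h4 h5 a
  exact ⟨f x, ⟨(h1 (h5.mapsTo hx)).1, u, b, hu x hx⟩, fun h => h2 (h ▸ h5.mapsTo hx)⟩

variable [TotallyDisconnectedSpace X]

theorem StN.mem_derived {U : Set X} {x y : X} (h : StN C U x) (hy : y ∈ U) (hne : y ≠ x) :
    x ∈ derivedSet (orb C y) := by
  obtain ⟨T, h1, h2, h3⟩ := exists_clopen_nhds
    ((h.1.2.sdiff isClosed_singleton).mem_nhds (⟨hy, hne⟩ : y ∈ U \ {x}))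
  exact (h.abs h1 (h3.trans sdiff_subset) fun h => (h3 h).2 rfl).mem_derived h1 h2
    fun h => (h3 h).2 rfl

theorem Stable.finite_finOrb (h : Stable C) : (finOrb C).Finite := by
  by_contra hc
  obtain ⟨x, hx⟩ := Set.Infinite.exists_accPt_principal hc
  obtain ⟨U, hU⟩ := h.stN x
  obtain ⟨y, h1, h2⟩ := accPt_iff_nhds.1 hx U (hU.1.2.mem_nhds hU.2.1)
  exact infinite_of_mem_derived (hU.mem_derived h1.1 h2) h1.2

variable [FirstCountableTopology X]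

theorem exists_absorb {R T : Set X} {z : X} (hR : IsClopen R) (hT : IsClopen T) (hz : z ∈ R)
    (hd : Disjoint R T) (h : Abs C T z) :
    ∃ f : X → X, ContinuousOn f (R ∪ T) ∧ BijOn f (R ∪ T) R ∧ f z = z ∧ Pr C f (R ∪ T) := by
  classical
  obtain ⟨B, hB⟩ := (𝓝 z).exists_antitone_basis
  let P : Set X × Set X → Prop := fun p => IsClopen p.1 ∧ z ∈ p.1 ∧ IsClopen p.2 ∧ Cp C T p.2 ∧
    Disjoint p.1 p.2
  have step : ∀ (n : ℕ) p, P p → ∃ q, P q ∧ q.1 ⊆ p.1 ∧ q.2 ⊆ p.1 ∧ q.1 ⊆ B n := fun n p hp => by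
    obtain ⟨T', h1, h2, h3, h4⟩ := h p.1 (hp.1.2.mem_nhds hp.2.1)
    obtain ⟨V, h5, h6, h7⟩ := exists_clopen_nhds (inter_mem (inter_mem
      (hp.1.2.mem_nhds hp.2.1) (h3.compl.2.mem_nhds h2)) (hB.mem n))
    exact ⟨(V, T'), ⟨h5, h6, h3, h4, Set.disjoint_left.2 fun x hx => (h7 hx).1.2⟩,
      fun x hx => (h7 hx).1.1, h1, fun x hx => (h7 hx).2⟩
  choose! F hF using step
  let s : ℕ → Set X × Set X := fun n => Nat.rec (R, T) F n
  have hs : ∀ n, P (s n) := fun n => by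
    induction n with
    | zero => exact ⟨hR, hz, hT, ⟨id, continuousOn_id, bijOn_id _, fun _ _ => Iff.rfl⟩, hd⟩
    | succ n ih => exact (hF n _ ih).1
  have hs' : ∀ n, (s (n + 1)).1 ⊆ (s n).1 ∧ (s (n + 1)).2 ⊆ (s n).1 ∧ (s (n + 1)).1 ⊆ B n :=
    fun n => (hF n _ (hs n)).2
  have anti : Antitone fun n => (s n).1 := antitone_nat_of_succ_le fun n => (hs' n).1
  have sub : ∀ {m n}, m < n → (s n).2 ⊆ (s m).1 := fun {m n} h => by
    obtain ⟨n, rfl⟩ := Nat.exists_eq_succ_of_ne_zero (Nat.ne_zero_of_lt h)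
    exact (hs' n).2.1.trans (anti (Nat.lt_succ_iff.1 h))
  have lt : ∀ {m n x}, x ∈ (s m).1 → x ∈ (s n).2 → m < n := fun {m n x} h1 h2 => by
    by_contra! h
    exact Set.disjoint_left.1 (hs n).2.2.2.2 (anti h h1) h2
  have uniq : ∀ {m n x}, x ∈ (s m).2 → x ∈ (s n).2 → m = n := fun {m n x} h1 h2 => by
    rcases lt_trichotomy m n with h | h | h
    exacts [(Set.disjoint_left.1 (hs m).2.2.2.2 (sub h h2) h1).elim, h,
      (Set.disjoint_left.1 (hs n).2.2.2.2 (sub h h1) h2).elim]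
  choose g hg hg' hg'' using fun n => ((hs n).2.2.2.1.symm hT.1).trans (hs (n + 1)).2.2.2.1
  let f : X → X := fun x => if h : ∃ n, x ∈ (s n).2 then g h.choose x else x
  have f1 : ∀ {n x}, x ∈ (s n).2 → f x = g n x := fun {n x} h => by
    have : ∃ n, x ∈ (s n).2 := ⟨n, h⟩
    simp only [f, dif_pos this, uniq this.choose_spec h]
  have f2 : ∀ {x}, (¬ ∃ n, x ∈ (s n).2) → f x = x := fun h => dif_neg h
  have f3 : ∀ n, MapsTo f (s n).1 (s n).1 := fun n x hx => by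
    by_cases h : ∃ n, x ∈ (s n).2
    · obtain ⟨m, hm⟩ := h
      rw [f1 hm]; exact sub ((lt hx hm).trans m.lt_succ_self) ((hg' m).mapsTo hm)
    · rwa [f2 h]
  have fz : f z = z := f2 fun ⟨n, hn⟩ => lt_irrefl _ (lt (hs n).2.1 hn)
  refine ⟨f, fun x _ => ContinuousAt.continuousWithinAt ?_, ⟨?_, ?_, ?_⟩, fz, fun x _ => by
    by_cases h : ∃ n, x ∈ (s n).2
    · obtain ⟨n, hn⟩ := h
      rw [f1 hn, hg'' n x hn]
    · rw [f2 h]⟩
  · by_cases h : ∃ n, x ∈ (s n).2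
    · obtain ⟨n, hn⟩ := h
      have := (hs n).2.2.1.2.mem_nhds hn
      exact ((hg n).continuousAt this).congr (by filter_upwards [this] with y hy using (f1 hy).symm)
    by_cases hx : x = z
    · subst hx
      rw [ContinuousAt, fz, hB.1.tendsto_right_iff]
      intro n _
      filter_upwards [(hs (n + 1)).1.2.mem_nhds (hs (n + 1)).2.1] with y hy
      exact (hs' n).2.2 (f3 (n + 1) hy)
    obtain ⟨n, -, hn⟩ := hB.1.mem_iff.1 (isOpen_compl_singleton.mem_nhds (Ne.symm hx))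
    refine continuousAt_id.congr ?_
    filter_upwards [(hs (n + 1)).1.compl.2.mem_nhds fun h => hn ((hs' n).2.2 h) rfl,
      ((finite_le_nat (n + 1)).isClosed_biUnion fun m _ => (hs m).2.2.1.1).isOpen_compl.mem_nhds
        fun h' => h (by obtain ⟨m, -, hm⟩ := mem_iUnion₂.1 h'; exact ⟨m, hm⟩)] with y h1 h2
    refine (f2 fun ⟨m, hm⟩ => ?_).symm
    by_cases hmn : m ≤ n + 1
    exacts [h2 (mem_iUnion₂.2 ⟨m, hmn, hm⟩), h1 (sub (not_le.1 hmn) hm)]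
  · rintro x (hx | hx)
    · exact f3 0 hx
    · rw [f1 (n := 0) hx]; exact (hs' 0).2.1 ((hg' 0).mapsTo hx)
  · intro x _ y _ hxy
    by_cases hx : ∃ n, x ∈ (s n).2 <;> by_cases hy : ∃ n, y ∈ (s n).2
    · obtain ⟨n, hn⟩ := hx
      obtain ⟨m, hm⟩ := hy
      rw [f1 hn, f1 hm] at hxy
      obtain rfl := Nat.succ_injective (uniq ((hg' n).mapsTo hn) (hxy ▸ (hg' m).mapsTo hm))
      exact (hg' n).injOn hn hm hxy
    · obtain ⟨n, hn⟩ := hx
      rw [f1 hn, f2 hy] at hxy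
      exact (hy ⟨n + 1, hxy ▸ (hg' n).mapsTo hn⟩).elim
    · obtain ⟨n, hn⟩ := hy
      rw [f1 hn, f2 hx] at hxy
      exact (hx ⟨n + 1, hxy ▸ (hg' n).mapsTo hn⟩).elim
    · rwa [f2 hx, f2 hy] at hxy
  · intro y hy
    by_cases h : ∃ n, y ∈ (s n).2
    · obtain ⟨n, hn⟩ := h
      obtain ⟨n, rfl⟩ := Nat.exists_eq_succ_of_ne_zero (Nat.ne_zero_of_lt (lt (m := 0) hy hn))
      obtain ⟨x, hx, rfl⟩ := (hg' n).surjOn hn
      refine ⟨x, ?_, f1 hx⟩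
      rcases n.eq_zero_or_pos with rfl | h
      exacts [Or.inr hx, Or.inl (sub h hx)]
    · exact ⟨y, Or.inl hy, f2 h⟩

theorem exists_transfer {R R' T : Set X} {z z' : X} (hR : IsClopen R) (hR' : IsClopen R')
    (hT : IsClopen T) (hz : z ∈ R) (hz' : z' ∈ R') (hd : Disjoint R T) (hd' : Disjoint R' T)
    (hd'' : Disjoint R R') (h : Abs C T z) (h' : Abs C T z') :
    ∃ u ∈ Aut C, (∀ x ∉ R ∪ T ∪ R', u x = x) ∧ BijOn u (R ∪ T) R ∧ BijOn u R' (R' ∪ T) ∧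
      u z = z ∧ u z' = z' := by
  obtain ⟨f, h1, h2, h3, a⟩ := exists_absorb hR hT hz hd h
  obtain ⟨f', h4, h5, h6, a'⟩ := exists_absorb hR' hT hz' hd' h'
  obtain ⟨g, h7, h8, h9, b⟩ := exists_inv_on (hR'.union hT).1 h4 h5
  obtain ⟨k, k1, k2, k3, k4⟩ := exists_glue_on (hR.union hT).2 hR'.2
    (disjoint_union_left.2 ⟨hd'', hd'.symm⟩) (disjoint_union_right.2 ⟨hd'', hd⟩) h1 h2 h7 h8
  obtain ⟨u, u1, u2⟩ := exists_homeo_on ((hR.union hT).union hR') k1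
    (by rwa [union_comm R', ← union_assoc] at k2)
  have e1 : EqOn f u (R ∪ T) := fun x hx => ((u1 x (Or.inl hx)).trans (k3 x hx)).symm
  have e2 : EqOn g u R' := fun x hx => ((u1 x (Or.inr hx)).trans (k4 x hx)).symm
  exact ⟨u, (a.union (a'.inv h8.mapsTo b) k3 k4).aut u1 u2, u2, h2.congr e1, h8.congr e2, (e1 (Or.inl hz)).symm.trans h3,
    (e2 hz').symm.trans (by simpa [h6] using h9 z' (Or.inl hz'))⟩

end Pool.Agent.Lib.MP_069d55_gt.G
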