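import Pool.Agent.Lib.MP_069d55_gt.GWind

/-! Finite positive genus and handle flux give open normal subgroups of infinite index. -/

open Set Topology Filter Metric OnePoint

namespace Pool.Agent.Lib.MP_069d55_gt.G

open K

theorem pos_of_comm {G A : Type} [Group G] [TopologicalSpace G] [SeparatelyContinuousMul G]
    [AddCommGroup A] (P : G → A →+ A) (hP : ∀ g h u, P (g * h) u = P h (P g u))
    (h1 : ∀ u, P 1 u = u) (L : AddSubgroup A) (H : Subgroup G) [H.FiniteIndex]
    (hc : ∀ g ∈ H, (L.comap (P g)).relIndex L ≠ 0) {g₀ : G} (h0 : g₀ ∈ H) (hlt : L.comap (P g₀) < L)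
    (hn : ∀ᶠ g in 𝓝 1, g ∈ H ∧ L.comap (P g) = L) : Pos G := by
  have inv : ∀ g (K K' : AddSubgroup A), (K.comap (P g)).relIndex (K'.comap (P g)) =
      K.relIndex K' := fun g K K' => by
    rw [AddSubgroup.relIndex_comap, AddSubgroup.map_comap_eq_self_of_surjective fun u =>
      ⟨P g⁻¹ u, by rw [← hP, inv_mul_cancel, h1]⟩]
  have mul : ∀ g h, L.comap (P (g * h)) = (L.comap (P h)).comap (P g) := fun g h => by
    ext u; simp [hP]
  have hc' : ∀ g ∈ H, L.relIndex (L.comap (P g)) ≠ 0 := fun g hg => by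
    have := hc _ (inv_mem hg)
    rwa [← inv g, ← mul, mul_inv_cancel, show L.comap (P 1) = L from by ext u; simp [h1]] at this
  obtain ⟨r, hr, hd⟩ := Nat.exists_prime_and_dvd
    (mt AddSubgroup.relIndex_eq_one.1 (not_le_of_gt hlt))
  have := Fact.mk hr
  let v : AddSubgroup A → AddSubgroup A → ℤ := fun K K' =>
    padicValNat r (K'.relIndex K) - padicValNat r (K.relIndex K')
  have key : ∀ K K' M : AddSubgroup A, M ≤ K → M ≤ K' → M.relIndex K ≠ 0 → M.relIndex K' ≠ 0 →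
      v K K' = padicValNat r (M.relIndex K) - padicValNat r (M.relIndex K') := by
    intro K K' M a b c d
    rw [← AddSubgroup.relIndex_mul_relIndex M _ K (le_inf a b) inf_le_left,
      AddSubgroup.inf_relIndex_left] at c ⊢
    rw [← AddSubgroup.relIndex_mul_relIndex M _ K' (le_inf a b) inf_le_right,
      AddSubgroup.inf_relIndex_right] at d ⊢
    rw [padicValNat.mul (left_ne_zero_of_mul c) (right_ne_zero_of_mul c),
      padicValNat.mul (left_ne_zero_of_mul d) (right_ne_zero_of_mul d)]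
    simp [v]
  refine pos_of H (fun g => v L (L.comap (P g))) (fun a ha b hb => ?_) h0 ?_
    (hn.mono fun g hg => ⟨hg.1, by simp [v, hg.2]⟩)
  · have e : v L (L.comap (P b)) = v (L.comap (P a)) (L.comap (P (a * b))) := by
      simp only [v, mul, inv]
    have c : ((L ⊓ L.comap (P a)) ⊓ L.comap (P (a * b))).relIndex (L.comap (P a)) ≠ 0 :=
      AddSubgroup.relIndex_inf_ne_zero (AddSubgroup.inf_relIndex_right L _ ▸ hc' a ha)
        (by rw [mul, inv]; exact hc b hb)
    have c1 := AddSubgroup.relIndex_ne_zero_trans c (hc a ha)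
    have c2 := AddSubgroup.relIndex_ne_zero_trans c
      (show _ ≠ 0 by rw [mul a b, inv]; exact hc' b hb : (L.comap (P a)).relIndex
        (L.comap (P (a * b))) ≠ 0)
    simp only [e]
    rw [key _ _ _ (inf_le_left.trans inf_le_left) inf_le_right c1 c2,
      key _ _ _ (inf_le_left.trans inf_le_left) (inf_le_left.trans inf_le_right) c1 c,
      key _ _ _ (inf_le_left.trans inf_le_right) inf_le_right c c2]
    ring
  · have := one_le_padicValNat_of_dvd (hc _ h0) hd
    simp only [v, AddSubgroup.relIndex_eq_one.2 hlt.le, padicValNat_one_right]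
    omega

variable {S : Type} [TopologicalSpace S] {o : Ori S} {p : S → OnePoint ℂ} {q : OnePoint ℂ → S}
  {E X : Set (OnePoint ℂ)}

/-- Precomposition. -/
def pre (g : S ≃ₜ S) : C(S, TT) →+ C(S, TT) := ContinuousMap.compAddMonoidHom' (g : C(S, S))

theorem pre_mem {u : C(S, TT)} (hu : u ∈ Ac S) (g : S ≃ₜ S) : pre g u ∈ Ac S :=
  let ⟨_, a, b⟩ := hu; ⟨_, g.isCompact_preimage.2 a, fun _ hs => b _ hs⟩

theorem pre_inv (g : S ≃ₜ S) (u : C(S, TT)) : pre g (pre g⁻¹ u) = u :=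
  ContinuousMap.ext fun s => congrArg u (g.symm_apply_apply s)

theorem exists_shear : ∃ f : C(TT, TT), dg f = 1 ∧ ∀ᶠ t in 𝓝 (↑(1 / 2 : ℝ)), f t = 0 := by
  let φ : TT → ℝ := AddCircle.liftIco 1 0 fun s => max (-s) (min (s - 1 / 2) (1 - s))
  have c : Continuous φ := AddCircle.liftIco_zero_continuous (by norm_num) (by fun_prop)
  let w : C(TT, TT) := ⟨fun t => φ t, (AddCircle.continuous_mk' 1).comp c⟩
  refine ⟨⟨fun t => t - ↑(1 / 2 : ℝ), by fun_prop⟩ - w, by
    rw [map_sub, dg_sub_const _ fun _ => rfl, dg_lift (f := w) c fun _ => rfl, sub_zero],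
    (lh_circ _).of_comp ?_⟩
  filter_upwards [Ioo_mem_nhds (show (1 / 4 : ℝ) < 1 / 2 by norm_num)
    (show (1 / 2 : ℝ) < 3 / 4 by norm_num)] with s hs
  change (s : TT) - _ - (φ s : TT) = 0
  rw [show φ s = s - 1 / 2 from (AddCircle.liftIco_zero_coe_apply ⟨by linarith [hs.1],
    by linarith [hs.2]⟩).trans (by
      rw [min_eq_left (by linarith [hs.2]), max_eq_right (by linarith [hs.1])]),
    AddCircle.coe_sub, sub_self]

variable [T2Space S] [Charted S] [ConnectedSpace S]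

theorem exists_twist {x : OnePoint ℂ} {U : Set (OnePoint ℂ)} {j : Tor → S} {c : S → Tor}
    (h : Hd p x U j c) (o : Ori S) :
    ∃ τ ∈ OPS o, ∀ n : ℕ, dg ((pre (τ ^ n) (du h true)).comp (lo h false)) = n := by
  obtain ⟨f, f1, f2⟩ := exists_shear
  have a : IsOpenEmbedding fun t : {t : Tor // t ≠ oo} => j t := emb_of_lh
    (fun t t' e => Subtype.ext (h.tc.inj t.2 t'.2 e)) fun t =>
    (lh_emb isOpen_ne.isOpenEmbedding_subtypeVal t).comp (h.tc.lh _ t.2)
  let F : ℤ → {t : Tor // t ≠ oo} → {t : Tor // t ≠ oo} := fun k t =>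
    ⟨(t.1.1 + k • f t.1.2, t.1.2), fun e => t.2 (by
      have b : t.1.2 = ↑(1 / 2 : ℝ) := congrArg Prod.snd e
      rwa [show f t.1.2 = 0 from b ▸ f2.self_of_nhds, smul_zero, add_zero] at e)⟩
  have Fc : ∀ k, Continuous (F k) := fun k => Continuous.subtype_mk (by fun_prop) _
  have Fa : ∀ k l t, F k (F l t) = F (l + k) t := fun k l t => by simp [F, add_smul, add_assoc]
  have F0 : ∀ t, F 0 t = t := fun t => by simp [F]
  have hC : IsCompact {t : {t : Tor // t ≠ oo} | t.1.2 ∉ interior {t | f t = 0}} :=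
    IsInducing.subtypeVal.isCompact_preimage' (K := {t : Tor | t.2 ∉ interior {t | f t = 0}})
      (isOpen_interior.isClosed_compl.preimage continuous_snd).isCompact fun t ht =>
      ⟨⟨t, fun e => ht (e ▸ mem_interior_iff_mem_nhds.2 f2)⟩, rfl⟩
  obtain ⟨τ, t1, t2⟩ := exists_lift_gen a (Fc 1) (Fc (-1)) (fun t => by rw [Fa, add_neg_cancel, F0])
    (fun t => by rw [Fa, neg_add_cancel, F0]) hC fun t ht => by
      simp [F, show f t.1.2 = 0 from interior_subset (s := {t | f t = 0}) (not_not.1 ht)]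
  let t₀ : {t : Tor // t ≠ oo} := ⟨ax false ↑(1 / 2 : ℝ), ax_ne _ _⟩
  refine ⟨τ, OPS_of_AA (Ω := _) ⟨_, hC.image a.continuous, subset_rfl, t2⟩ (x := j t₀)
    fun ⟨t, b, e⟩ => b (a.injective e ▸ mem_interior_iff_mem_nhds.2 f2), fun n => ?_⟩
  have e : ∀ t : {t : Tor // t ≠ oo}, (τ ^ n) (j t) = j (F n t) := fun t => by
    induction n with
    | zero => simp [F0]
    | succ n ih => rw [pow_succ', Homeomorph.mul_apply, ih, t1, Fa]; simp
  rw [show (pre (τ ^ n) (du h true)).comp (lo h false) = n • f - ContinuousMap.const _ ↑(1 / 2 : ℝ)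
    from ContinuousMap.ext fun t => by
      change (c ((τ ^ n) (j (⟨ax false t, ax_ne _ _⟩ : {t : Tor // t ≠ oo})))).1 - _ = _
      rw [e, h.cj _ (F _ _).2]; simp [F, ax], map_sub, dg_const (f := ContinuousMap.const _ _)
    fun _ => rfl]
  simp [f1]

theorem pos_finite (h : Std o p q E X) (hf : X.Finite) (hn : X.Nonempty) : Pos (CO (OPS o)) := by
  let N : Subgroup (CO (OPS o)) :=
    { carrier := {g | ∀ u ∈ Ac S, ∀ δ, dg ((pre g.1 u).comp δ) = dg (u.comp δ)}
      one_mem' := fun _ _ _ => rfl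
      mul_mem' := fun {a _} ha hb u hu δ => (hb _ (pre_mem hu a.1) δ).trans (ha u hu δ)
      inv_mem' := fun {a} ha u hu δ => (ha _ (pre_mem hu a.1⁻¹) δ).symm.trans (by rw [pre_inv]) }
  have : N.Normal := ⟨fun g hg k u hu δ => (hg _ (pre_mem hu k.1)
    (((k.1⁻¹ : S ≃ₜ S) : C(S, S)).comp δ)).trans (congrArg dg (ContinuousMap.ext fun t =>
      congrArg u (k.1.apply_symm_apply _)))⟩
  refine ⟨N, this, ?_, ?_⟩
  · obtain ⟨U, γ, b, a, -⟩ := exists_sys h (B := fun _ => univ) fun _ => univ_mem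
    have := hf.fintype
    filter_upwards [CO.ev (eventually_all.2 fun x => eventually_all.2 fun i => eventually_all.2
      fun y => eventually_all.2 fun k => dg_ev (F := fun g => (pre g (b x i)).comp (γ y k))
      ((ContinuousMap.continuous_precomp _).comp ((ContinuousMap.continuous_postcomp _).comp
        continuous_toC)) 1)] with g hg u hu δ
    have d := fun u hu => a.dec h.toBS (u := u) hu (Z := Finset.univ) (by simp)
    rw [d _ (pre_mem hu _), d _ hu]
    refine Finset.sum_congr rfl fun y _ => Finset.sum_congr rfl fun k _ => congrArg (· * _) ?_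
    refine (d u hu ((g.1 : C(S, S)).comp (γ y k))).trans (.trans ?_ (d u hu _).symm)
    exact Finset.sum_congr rfl fun x _ => Finset.sum_congr rfl fun i _ => congrArg _ (hg x i y k)
  · obtain ⟨x, hx⟩ := hn
    obtain ⟨W, w1, w2, -⟩ := exists_nhds_cpt h.toBS hx
    obtain ⟨U, u1, j, c, a⟩ := h.hand x hx W w1
    obtain ⟨τ, t1, t2⟩ := exists_twist a o
    have := N.pow_index_mem ⟨τ, t1⟩ (du a true) ⟨_, w2, fun s hs => (core a).out _ s fun c =>
      hs (u1 c)⟩ (lo a false)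
    exact_mod_cast (t2 _).symm.trans (this.trans ((core a).dual _ _))

/-- Functions with even degrees along the handles outside `Y`. -/
def LY (γ : X → Bool → C(TT, S)) (Y : Set X) : AddSubgroup C(S, TT) where
  carrier := {u | u ∈ Ac S ∧ ∀ x ∉ Y, ∀ i, Even (dg (u.comp (γ x i)))}
  zero_mem' := ⟨zero_mem _, fun _ _ _ => by simp⟩
  add_mem' := fun a b => ⟨add_mem a.1 b.1, fun x hx i => by
    rw [ContinuousMap.add_comp, map_add]; exact (a.2 x hx i).add (b.2 x hx i)⟩
  neg_mem' := fun a => ⟨neg_mem a.1, fun x hx i => by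
    rw [ContinuousMap.neg_comp, map_neg]; exact (a.2 x hx i).neg⟩

section
variable {U : X → Set (OnePoint ℂ)} {γ : X → Bool → C(TT, S)} {b : X → Bool → C(S, TT)}
omit [T2Space S] [Charted S] [ConnectedSpace S]

theorem Sys.le_comap (a : Sys p X U γ b) (h : BS o p q E X) {Y Y' : Set X} {g : S ≃ₜ S}
    (e : ∀ x ∈ Y, ∀ y ∉ Y', ∀ s, p s = y.1 → p (g s) ∉ U x) : LY γ Y ≤ (LY γ Y').comap (pre g) :=
  fun u hu => ⟨pre_mem hu.1 g, fun y hy k => by
    obtain ⟨Z, hZ⟩ := a.dec' h hu.1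
    refine (hZ ((g : C(S, S)).comp (γ y k))).symm ▸ Finset.even_sum _ fun x _ =>
      Finset.even_sum _ fun i _ => ?_
    by_cases m : x ∈ Y
    · rw [dg_const (f := (b x i).comp _) fun t => (a.core x).out i _
        (e x m y hy _ ((a.core y).fib k t))]; simp
    · exact (hu.2 x m i).mul_right _⟩

theorem Sys.comap_le (a : Sys p X U γ b) (h : BS o p q E X) {Y Y' : Set X} {g : S ≃ₜ S}
    (e : ∀ x ∈ Y, ∀ y ∉ Y', ∀ s, p s = y.1 → p (g⁻¹ s) ∉ U x) : (LY γ Y).comap (pre g) ≤ LY γ Y' :=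
  fun u hu => pre_inv g⁻¹ u ▸ a.le_comap h e hu

theorem LY_index (γ : X → Bool → C(TT, S)) (Y : Set X) {Z : Set X} (hZ : Z.Finite) :
    (LY γ (Y \ Z)).relIndex (LY γ Y) ≠ 0 := by
  have := hZ.to_subtype
  let φ : C(S, TT) →+ (Z × Bool → ZMod 2) := AddMonoidHom.pi fun z => (Int.castAddHom _).comp
    (dg.comp (ContinuousMap.compAddMonoidHom' (γ z.1 z.2)))
  refine mt (AddSubgroup.relIndex_eq_zero_of_le_left (H := φ.ker ⊓ LY γ Y) fun u hu =>
    ⟨hu.2.1, fun x hx i => ?_⟩) ?_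
  · by_cases m : x ∈ Y
    · exact (ZMod.intCast_eq_zero_iff_even).1 (congrFun hu.1 (⟨x, by_contra fun c => hx ⟨m, c⟩⟩, i))
    · exact hu.2.2 x m i
  · rw [AddSubgroup.inf_relIndex_right, AddSubgroup.relIndex_ker]
    exact Nat.card_pos.ne'

end

omit [T2Space S] [Charted S] [ConnectedSpace S] in
theorem _root_.Pool.Agent.Lib.MP_069d55_gt.K.Acc.congr {M : Type*} [MetricSpace M] {X X' C : Set M}
    (h : Acc X C) (a : (X' \ X).Finite) (b : (X \ X').Finite) (c : ∀ x ∈ X', x ∉ C) : Acc X' C :=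
  ⟨fun ε hε => ((h.fin ε hε).union a).subset fun x hx => (em (x ∈ X)).imp (⟨·, hx.2⟩) (⟨hx.1, ·⟩), c,
    fun y hy U hU => ((h.inf y hy U hU).sdiff b).mono fun _ hx =>
      ⟨by_contra fun m => hx.2 ⟨hx.1.1, m⟩, hx.1.2⟩⟩

omit [T2Space S] in
theorem pos_hflux (h : Std o p q E X) (hF : HFlux (genusEnds E X)) : Pos (CO (OPS o)) := by
  obtain ⟨H, a⟩ := h.exists_EH
  obtain ⟨A, hA, ⟨e, he⟩, ⟨e', he'⟩, hfin⟩ := hF
  obtain ⟨D, d1, d2⟩ := exists_cd h.toBS hA
  have : CompactSpace E := isCompact_iff_compactSpace.1 h.clE.isCompact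
  have c1 := h.cl.inter d1.1.isCompact.isClosed
  have c2 : IsClosed ((E ∪ X) \ D) := by
    convert h.cl.sdiff (isOpen_interior (s := D)) using 1
    exact Set.ext fun y => and_congr_right fun b => not_congr ⟨d1.2 y b, fun c => interior_subset c⟩
  have n1 : ((E ∪ X) ∩ D ∩ E ∩ closure X).Nonempty := ⟨e, ⟨⟨Or.inl e.2, (d2 e).2 he.2⟩, e.2⟩, he.1⟩
  have n2 : ((E ∪ X) \ D ∩ E ∩ closure X).Nonempty :=
    ⟨e', ⟨⟨Or.inl e'.2, mt (d2 e').1 he'.2⟩, e'.2⟩, he'.1⟩
  have a1 := image_id _ ▸ h.acc c1 (by rwa [sdiff_self_inter]) 1 (image_id _) n1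
  have a2 := image_id _ ▸ h.acc c2 (by rwa [sdiff_sdiff_right_self]) 1 (image_id _) n2
  have k1 := (c1.inter h.clE).inter (isClosed_closure (s := X))
  have k2 := (c2.inter h.clE).inter (isClosed_closure (s := X))
  obtain ⟨δ, δ0, δ1⟩ := c1.isCompact.exists_thickening_subset_open c2.isOpen_compl
    fun y b c => c.2 b.2
  set C₁ := (E ∪ X) ∩ D ∩ E ∩ closure X
  obtain ⟨U, γ, b, sy, hU⟩ := exists_sys h (B := fun x => ball x.1 (δ / 2) ∩ ball x.1 (infDist x.1 C₁))
    fun x => inter_mem (ball_mem_nhds _ (half_pos δ0)) (ball_mem_nhds _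
      ((k1.notMem_iff_infDist_pos n1).1 fun c => h.disj x.2 c.1.2))
  let Y : Set X := {x | x.1 ∈ D}
  let : MulAction (CO (OPS o)) (Set E) :=
    { smul := fun g B => H g.1 '' B
      one_smul := fun B => show H 1 '' B = B by simp
      mul_smul := fun g g' B => show H (g.1 * g'.1) '' B = H g.1 '' (H g'.1 '' B) by
        simp [image_image] }
  have : (MulAction.stabilizer (CO (OPS o)) (genusEnds E X ∩ A)).FiniteIndex := ⟨by
    rw [MulAction.index_stabilizer]
    exact ncard_ne_zero_of_mem (MulAction.mem_orbit_self _) (hfin.subset (by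
      rintro _ ⟨g, rfl⟩; exact ⟨_, a.stab h g.1, rfl⟩))⟩
  obtain ⟨y₀, y1, -⟩ := (a1.inf _ n1.some_mem _ univ_mem).nonempty
  obtain ⟨d, f1, f2, f3, f4⟩ := glue_match (P := fun i => bif i then (E ∪ X) ∩ D ∩ X else (E ∪ X) \ D ∩ X)
    (P' := fun i => bif i then ((E ∪ X) ∩ D ∩ X) \ {y₀} else insert y₀ ((E ∪ X) \ D ∩ X))
    (pairwise_disjoint_on_bool.2 (disjoint_left.2 fun y b c => c.1.2 b.1.2))
    (pairwise_disjoint_on_bool.2 (disjoint_left.2 fun y b c => c.elim b.2 fun c => c.1.2 b.1.1.2))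
    (by
      rintro (_ | _)
      · exact a2.exists_match (a2.congr ((finite_singleton y₀).subset fun y c => c.1.resolve_right c.2)
          (finite_empty.subset fun y c => c.2 (Or.inr c.1)) fun y b c =>
          h.disj (b.elim (fun b => b ▸ y1.2) (·.2)) c.1.2) k2.isCompact n2
      · exact a1.exists_match (a1.congr (finite_empty.subset fun y c => c.2 c.1.1)
          ((finite_singleton y₀).subset fun y c => by_contra fun m => c.2 ⟨c.1, m⟩) fun y b c =>
          h.disj b.1.2 c.1.2) k1.isCompact n1)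
  have u1 : (⋃ i, bif i then (E ∪ X) ∩ D ∩ X else (E ∪ X) \ D ∩ X) = X := by
    ext y; simp only [mem_iUnion, Bool.exists_bool, cond_true, cond_false, mem_inter_iff,
      Set.mem_sdiff, mem_union]; tauto
  have u2 : (⋃ i, bif i then ((E ∪ X) ∩ D ∩ X) \ {y₀} else insert y₀ ((E ∪ X) \ D ∩ X)) = X := by
    ext y; simp only [mem_iUnion, Bool.exists_bool, cond_true, cond_false, mem_inter_iff,
      Set.mem_sdiff, mem_union, mem_insert_iff, mem_singleton_iff]
    by_cases c : y = y₀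
    · simp [c, y1.2]
    · tauto
  rw [u1] at f1 f2 f4
  rw [u2] at f1
  have f5 : ∀ y ∈ E, d y = y := fun y c => f4 y fun m => h.disj m c
  obtain ⟨Φ, g1, ψ, -, g2, -, g3, -⟩ := h.realize isOpen_univ isPreconnected_univ h.cl (by simp)
    subset_rfl (subset_univ _) (f2.contOn f5 (fun _ => h.disj) h.iso)
    ((bijOn_id _).congr fun y c => (f5 y c.2).symm) (by rwa [union_inter_cancel_right])
    fun x c => h.sim c.2 (f1.mapsTo c.2)
  refine pos_of_comm (fun g : CO (OPS o) => pre g.1) (fun _ _ _ => rfl) (fun _ => rfl) (LY γ Y)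
    (MulAction.stabilizer _ (genusEnds E X ∩ A)) (fun g hg => ?_) (g₀ := ⟨Φ, g1⟩) ?_ ?_ ?_
  · obtain ⟨η, η0, η1⟩ := k1.isCompact.exists_thickening_subset_open
      (isOpen_interior (s := {y | ∀ t, p t = y → p (g.1⁻¹ t) ∈ D})) fun x c => by
        have m := (inv_mem hg).subset ⟨⟨x, c.1.2⟩, ⟨c.2, (d2 _).1 c.1.1.2⟩, rfl⟩
        exact mem_interior_iff_mem_nhds.2 (eventually_comap.1 ((a _ ⟨x, c.1.2⟩).eventually
          (tendsto_comap.eventually (mem_interior_iff_mem_nhds.1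
            (d1.2 _ (Or.inl (Subtype.prop _)) ((d2 _).2 m.2))))))
    refine mt (AddSubgroup.relIndex_eq_zero_of_le_left (sy.le_comap h.toBS fun x c y m s hs n => ?_))
      (LY_index γ Y ((a1.fin _ (half_pos η0)).preimage Subtype.val_injective.injOn))
    have l : infDist x.1 C₁ < η / 2 := not_le.1 fun l => c.2 ⟨⟨⟨Or.inr x.2, c.1⟩, x.2⟩, l⟩
    have := interior_subset (η1 ((mem_thickening_iff_infDist_lt n1).2 (by
      linarith [infDist_le_infDist_add_dist (x := p (g.1 s)) (y := x.1) (s := C₁),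
        mem_ball.1 (hU x n).2]))) _ rfl
    exact m (show y.1 ∈ D by simpa [hs] using this)
  · have : H Φ = 1 := Homeomorph.ext fun x => Subtype.ext ((a.of_lift h.toBS g2 x).trans
      ((g3 x (Or.inl x.2)).trans (f5 x x.2)))
    exact show H Φ '' _ = _ by simp [this]
  · refine (sy.comap_le h.toBS (Y' := Y \ {⟨y₀, y1.2⟩}) fun x c y m s hs n => ?_).trans_lt
      ⟨fun u hu => ⟨hu.1, fun x c => hu.2 x fun m => c m.1⟩, fun c => ?_⟩
    · obtain ⟨z, z1, z2⟩ := f1.surjOn y.2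
      have : p (Φ⁻¹ s) = z := by
        rw [lift_inv g2, hs, ← z2, ← g3 z (Or.inr z1)]; simp
      have e := sy.one x _ n (this ▸ z1)
      have := f3 true (show z ∈ (E ∪ X) ∩ D ∩ X from ⟨⟨Or.inr z1, this ▸ e ▸ c⟩, z1⟩)
      exact m ⟨show y.1 ∈ D from z2 ▸ this.1.1.2, fun c => this.2 (z2.trans (congrArg Subtype.val c))⟩
    · have := (c (show b ⟨y₀, y1.2⟩ true ∈ LY γ Y from ⟨sy.mem _ _, fun x m i => by
        rw [dg_const (f := (b _ _).comp _) fun t => (sy.core _).out _ _ (sy.ne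
          (by rintro rfl; exact m y1.1.2) ((sy.core x).fib i t))]; simp⟩)).2 _ (fun c => c.2 rfl) true
      simp [(sy.core _).dual] at this
  · filter_upwards [CO.ev (h.near (half_pos δ0)), CO.ev ((a.tendsto h.toBS).eventually
      ((ev_mapsTo hA.1.isCompact hA.2 subset_rfl).and
        (ev_mapsTo hA.compl.1.isCompact hA.compl.2 subset_rfl)))] with g b1 b2
    have key : ∀ x ∈ Y, ∀ y ∉ Y, ∀ z ∈ U x, dist z y.1 < δ / 2 → False := fun x c y m z n l =>
      δ1 (mem_thickening_iff.2 ⟨x, ⟨Or.inr x.2, c⟩, by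
        linarith [dist_triangle_left y.1 x.1 z, mem_ball.1 (hU x n).1]⟩) ⟨Or.inr y.2, m⟩
    refine ⟨mem_Stab_iff_image.1 fun x => and_congr (a.stab h g.1 x)
      ⟨fun c => by_contra fun m => b2.2 m c, fun c => b2.1 c⟩, le_antisymm
      (sy.comap_le h.toBS fun x c y m s hs n => key x c y m _ n ?_)
      (sy.le_comap h.toBS fun x c y m s hs n => key x c y m _ n (hs ▸ b1 s))⟩
    simpa [hs, dist_comm] using b1 (g.1⁻¹ s)

theorem neg_iff (h : Std o p q E X) (hn : X.Nonempty) : ¬ Neg (CO (OPS o)) ↔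
    X.Finite ∨ HFlux (genusEnds E X) ∨ ¬ Neg (CO (Aut (genusEnds E X))) := by
  refine ⟨fun n => by_contra fun c => ?_, ?_⟩
  · rw [not_or, not_or, not_not] at c
    obtain ⟨e, he, hX⟩ : ∃ e ∈ E, e ∈ closure X := by_contra fun m => c.1 ((h.finite_inter
      isClosed_closure.isCompact (disjoint_left.2 fun y a b => m ⟨y, b, a⟩)).subset
      fun y c => ⟨c, subset_closure c⟩)
    exact n (neg_of h he hX c.2.1 c.2.2)
  · rintro (c | c | c)
    exacts [(pos_finite h c hn).not_neg, (pos_hflux h c).not_neg, mt (neg_aut h) c]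

end Pool.Agent.Lib.MP_069d55_gt.G
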