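import Pool.Agent.Lib.MP_069d55_gt.CStep
import Pool.Agent.Lib.MP_069d55_gt.GPos

/-! The group of a stable pair. -/

open Set Topology Filter

namespace Pool.Agent.Lib.MP_069d55_gt.G

open K

variable {X : Type} [TopologicalSpace X] {C : Set X}

theorem exists_small {A : Set (X ≃ₜ X)} [T2Space X] (hA : A ∈ 𝓝 1) : ∃ O : X → Set X,
    (∀ x, O x ∈ 𝓝 x) ∧ ∀ φ : X ≃ₜ X, (∀ y, φ y = y ∨ ∃ x, y ∈ O x ∧ φ y ∈ O x) → φ ∈ A := by
  obtain ⟨T, t1, t2, t3⟩ := nhds_one_basis hA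
  refine ⟨fun x => {y | ∀ a ∈ T, (x ∈ a.2 → y ∈ a.2) ∧ (x ∉ a.2 → y ∉ a.1)}, fun x =>
    (eventually_all_finite t1).2 fun a ha => ?_, fun φ h => t3 φ fun a ha y hy => ?_⟩
  · by_cases m : x ∈ a.2
    · exact mem_of_superset ((t2 a ha).2.1.mem_nhds m) fun y c => ⟨fun _ => c, fun n => (n m).elim⟩
    · exact mem_of_superset ((t2 a ha).1.isClosed.isOpen_compl.mem_nhds fun c => m ((t2 a ha).2.2 c))
        fun y c => ⟨fun n => (m n).elim, fun _ => c⟩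
  · rcases h y with e | ⟨x, b, c⟩
    · exact e.symm ▸ (t2 a ha).2.2 hy
    · exact (c a ha).1 (by_contra fun m => (b a ha).2 m hy)

theorem conj_supp {W W' : Set X} {φ g : X ≃ₜ X} (h : ∀ x ∉ W, φ x = x) (hg : MapsTo g W W') :
    ∀ x ∉ W', (g * φ * g⁻¹) x = x := fun x hx => by
  simp [h (g.symm x) fun c => hx (by simpa using hg c)]

theorem small_of_supp {W O : Set X} {φ : X ≃ₜ X} (h : ∀ x ∉ W, φ x = x) (hO : W ⊆ O) (y : X) :
    φ y = y ∨ y ∈ O ∧ φ y ∈ O :=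
  (em (y ∈ W)).symm.imp (h y) fun c => ⟨hO c, hO ((fix_mem_iff h y).2 c)⟩

/-- The subgroup fixing the points of finite orbit. -/
def fixF (C : Set X) : Subgroup (CO (Aut C)) := (K.Fix (finOrb C)).comap CO.val

theorem apply_mem_finOrb {φ : X ≃ₜ X} (a : φ ∈ Aut C) {x : X} : φ x ∈ finOrb C ↔ x ∈ finOrb C := by
  simp only [finOrb, mem_ofPred_eq, orb_eq (show φ x ∈ orb C x from ⟨φ, a, rfl⟩)]

variable [CompactSpace X] [T2Space X]

theorem Cp.swap {A B : Set X} (h : Cp C A B) (hA : IsClopen A) (hB : IsClopen B)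
    (hd : Disjoint A B) : ∃ u : CO (Aut C), MapsTo u.1 A B ∧ ∀ x ∉ A ∪ B, u.1 x = x :=
  let ⟨_, a, b, c⟩ := h
  let ⟨u, u0, u1, u2⟩ := exists_swap hA hB hd a b c
  ⟨⟨u, u0⟩, fun x hx => (u1 x hx).symm ▸ b.mapsTo hx, u2⟩

variable [TotallyDisconnectedSpace X]

theorem fixF_index (hs : Stable C) : (fixF C).FiniteIndex := by
  have := hs.finite_finOrb.to_subtype
  set t : CO (Aut C) →* Equiv.Perm (finOrb C) := MonoidHom.mk'
    (fun g => Equiv.Perm.subtypePerm g.1.toEquiv fun _ => apply_mem_finOrb g.2) fun a b => rfl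
  exact Subgroup.finiteIndex_of_le (H := t.ker) fun g hg y hy =>
    congrArg Subtype.val (Equiv.congr_fun (MonoidHom.mem_ker.1 hg) ⟨y, hy⟩)

omit [TotallyDisconnectedSpace X] in
theorem dead_triv {W : Type} {ρ : CO (Aut C) →* Equiv.Perm W} (h1 : ∀ v, {g | ρ g v = v} ∈ 𝓝 1)
    (h2 : ∀ v w, {u | ∃ g, ρ g v = v ∧ ρ g w = u}.Finite) {T : Set X} (hT : Dead C T)
    {φ : CO (Aut C)} (hφ : ∀ x ∉ T, φ.1 x = x) (v : W) : ρ φ v = v := by
  obtain ⟨hT, w, hw, ha⟩ := hT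
  obtain ⟨O, o1, o2⟩ := exists_small (CO.ev' (h1 v))
  obtain ⟨T', a1, a2, a3, a4⟩ := ha _ (inter_mem (o1 w) (hT.compl.2.mem_nhds hw))
  obtain ⟨g, g1, -⟩ := a4.swap hT a3 (disjoint_right.2 fun y c => (a1 c).2)
  have key : ∀ z, ρ (g * φ * g⁻¹) z = z := fun z => by
    obtain ⟨O', p1, p2⟩ := exists_small (CO.ev' ((eventually_all_finite (h2 v z)).2 fun u _ => h1 u))
    obtain ⟨T'', b1, -, b3, b4⟩ := ha _ (inter_mem (inter_mem (o1 w) (p1 w))
      (a3.compl.2.mem_nhds a2))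
    obtain ⟨k, k1, k2⟩ := ((a4.symm hT.1).trans b4).swap a3 b3 (disjoint_right.2 fun y c => (b1 c).2)
    have : ρ (k * (g * φ * g⁻¹) * k⁻¹) (ρ k z) = ρ k z := p2 _ (fun y => (small_of_supp
      (conj_supp (conj_supp hφ g1) k1) (fun y c => (b1 c).1.2) y).imp_right fun c => ⟨w, c⟩)
      (k * (g * φ * g⁻¹) * k⁻¹).2 _ ⟨k, o2 _ (fun y => (small_of_supp k2 (union_subset
        (fun y c => (a1 c).1) fun y c => (b1 c).1.1) y).imp_right fun c => ⟨w, c⟩) k.2, rfl⟩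
    simpa using this
  simpa using key (ρ g v)

variable [FirstCountableTopology X]

theorem neg_aut_iff (hs : Stable C) : ¬ Neg (CO (Aut C)) ↔ Flux C := by
  have := fixF_index hs
  refine ⟨fun n => by_contra fun hF => n fun W ρ h1 h2 v => finite_orbit ρ (fixF C) fun g hg => ?_,
    fun hF => Pos.not_neg ?_⟩
  · obtain ⟨O, o1, o2⟩ := exists_small (CO.ev' (h1 v))
    obtain ⟨g', a, b⟩ := step_one hs hF
      (U := ((MulAction.stabilizer (Equiv.Perm W) v).comap ρ).map CO.val)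
      (by rintro _ ⟨g, -, rfl⟩; exact g.2) (fun T hT φ a b => ⟨⟨φ, a⟩, dead_triv h1 h2 hT b v, rfl⟩)
      o1 (fun l _ b φ a c => ⟨⟨φ, a⟩, o2 φ (fun y => Or.inr ⟨_, b y, c y ▸ b _⟩) a, rfl⟩) g.2 hg
    exact Subtype.ext b ▸ a
  · obtain ⟨A, χ, hA, h1, h2, u, hu, h3⟩ := flux_data hs hF
    refine pos_of (fixF C) (fun g => χ g.1) (fun g hg g' hg' => h1 _ ⟨g.2, hg⟩ _ ⟨g'.2, hg'⟩)
      (g₀ := ⟨u, hu.1⟩) hu.2 h3 ?_
    have hf := hs.finite_finOrb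
    filter_upwards [CO.ev (ev_mapsTo hA.1.isCompact hA.2 subset_rfl),
      CO.ev (ev_mapsTo hA.compl.1.isCompact hA.compl.2 subset_rfl),
      CO.ev ((eventually_all_finite hf).2 fun x _ => ev_mapsTo (isCompact_singleton (x := x))
        (hf.subset (sdiff_subset (t := {x}))).isClosed.isOpen_compl fun y c m => m.2 c)]
      with g g1 g2 g3
    exact ⟨fun x hx => by_contra fun m => g3 x hx rfl ⟨(apply_mem_finOrb g.2).2 hx, m⟩,
      h2 _ g.2 fun x => ⟨fun h => by_contra fun h' => g2 h' h, fun h => g1 h⟩⟩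

end Pool.Agent.Lib.MP_069d55_gt.G
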