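import Pool.Agent.Lib.MP_069d55_gt.CEnds

/-! Generation of the stabiliser of the finite orbits, and the flux character. -/

open Set Topology Filter

namespace Pool.Agent.Lib.MP_069d55_gt.G

open K

variable {X : Type} [TopologicalSpace X] {C : Set X} [CompactSpace X] [T2Space X]
  [TotallyDisconnectedSpace X]

theorem exists_swap_point (hs : Stable C) {U : Subgroup (X ≃ₜ X)}
    (hU : ∀ W, Dead C W → ∀ φ ∈ Aut C, (∀ x ∉ W, φ x = x) → φ ∈ U) {x x' : X} (hx : x' ∈ orb C x)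
    (hne : x ≠ x') (hi : (orb C x).Infinite) {Φ : Set X} (hΦ : Φ.Finite) (h1 : x ∉ Φ)
    (h2 : x' ∉ Φ) : ∃ u ∈ U, u x = x' ∧ ∀ y ∈ Φ, u y = y := by
  obtain ⟨w, hw, hw'⟩ := exists_derived_notMem hi (toFinite {x, x'}) (by
    rintro _ (rfl | rfl); exacts [hi, orb_eq hx ▸ hi])
  rw [mem_insert_iff, mem_singleton_iff, not_or] at hw'
  obtain ⟨φ, a, rfl⟩ := hx
  obtain ⟨A, hA⟩ := hs.stN x
  obtain ⟨O, O', hO, hO', hxO, hxO', hd⟩ := t2_separation hne
  have hc := (hΦ.insert w).isClosed.isOpen_compl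
  obtain ⟨T, t1, t2, t3⟩ := exists_clopen_nhds (inter_mem (inter_mem (hA.1.2.mem_nhds hA.2.1)
    ((hO.inter hc).mem_nhds ⟨hxO, fun h => h.elim (Ne.symm hw'.1) h1⟩))
    (φ.continuous.continuousAt ((hO'.inter hc).mem_nhds
      ⟨hxO', fun h => h.elim (Ne.symm hw'.2) h2⟩)))
  have hT' : IsClopen (φ '' T) := ⟨φ.isClosedMap _ t1.1, φ.isOpenMap _ t1.2⟩
  have hdT : Disjoint T (φ '' T) := hd.mono (fun y hy => (t3 hy).1.2.1)
    (by rintro _ ⟨y, hy, rfl⟩; exact (t3 hy).2.1)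
  have hn : ∀ y ∈ insert w Φ, y ∉ T ∪ φ '' T := by
    rintro y hy (h | ⟨y, h, rfl⟩)
    exacts [(t3 h).1.2.2 hy, (t3 h).2.2 hy]
  obtain ⟨u, u0, u1, u2⟩ := exists_swap t1 hT' hdT φ.continuous.continuousOn
    φ.injective.injOn.bijOn_image fun y _ => a y
  have ha : Abs C T w := (hA.abs_of_derived hw).mono hA.1 t1 fun y hy => (t3 hy).1.1
  exact ⟨u, hU _ ⟨t1.union hT', w, hn w (mem_insert _ _), ha.union
    (ha.of_cp ((Cp.image T a).symm t1.1)) t1.2 hT'.2 hdT⟩ u u0 u2, u1 x t2,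
    fun y hy => u2 y (hn y (mem_insert_of_mem _ hy))⟩

theorem exists_fix_points (hs : Stable C) {U : Subgroup (X ≃ₜ X)} (hC : U ≤ Aut C)
    (hU : ∀ W, Dead C W → ∀ φ ∈ Aut C, (∀ x ∉ W, φ x = x) → φ ∈ U) {φ : X ≃ₜ X} (b : φ ∈ Aut C)
    (hφ : ∀ y ∈ finOrb C, φ y = y) {t : Set X} (ht : t.Finite) :
    ∃ u ∈ U, ∀ y ∈ finOrb C ∪ t, u (φ y) = y := by
  induction t, ht using Set.Finite.induction_on with
  | empty => exact ⟨1, one_mem _, by simpa using hφ⟩
  | @insert a t _ ht ih =>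
    obtain ⟨u, hu, h⟩ := ih
    by_cases ha : u (φ a) = a
    · refine ⟨u, hu, ?_⟩
      rintro y (hy | rfl | hy)
      exacts [h y (Or.inl hy), ha, h y (Or.inr hy)]
    have h1 : a ∉ finOrb C ∪ t := fun h' => ha (h a h')
    have h2 : a ∈ orb C (u (φ a)) := ⟨(u * φ)⁻¹, inv_mem (mul_mem (hC hu) b), by simp⟩
    obtain ⟨v, hv, h3, h4⟩ := exists_swap_point hs hU h2 ha
      (by rw [← orb_eq h2]; exact fun h => h1 (Or.inl h)) (hs.finite_finOrb.union ht)
      (fun h' => ha ((u * φ).injective (h _ h'))) h1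
    refine ⟨v * u, mul_mem hv hu, ?_⟩
    rintro y (hy | rfl | hy)
    exacts [(congrArg v (h y (Or.inl hy))).trans (h4 y (Or.inl hy)), h3,
      (congrArg v (h y (Or.inr hy))).trans (h4 y (Or.inr hy))]

variable [FirstCountableTopology X]

theorem eqv_transfer (hs : Stable C) {U : Subgroup (X ≃ₜ X)}
    (hU : ∀ W, Dead C W → ∀ φ ∈ Aut C, (∀ x ∉ W, φ x = x) → φ ∈ U) {l : X → X}
    (hl : IsLocallyConstant l) {T : Set X} [DecidablePred (· ∈ T)] (hT : IsClopen T) {z z' w : X}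
    (hz : z' ∈ orb C z) (hw : w ∈ derivedSet (orb C z)) (h1 : z ∉ T) (h2 : z' ∉ T) (h3 : w ∉ T)
    (h4 : w ≠ z) (h5 : w ≠ z') (hne : z ≠ z') (ha : Abs C T z) (ha' : Abs C T z')
    (hlT : ∀ y ∈ T, l y = l z) : Eqv U l (T.piecewise (fun _ => l z') l) := by
  obtain ⟨A, hA⟩ := hs.stN z
  obtain ⟨A', hA'⟩ := hs.stN z'
  obtain ⟨O, O', hO, hO', hxO, hxO', hd⟩ := t2_separation hne
  have hc := hT.compl.2.sdiff (isClosed_singleton (x := w))
  obtain ⟨R, r1, r2, r3⟩ := exists_clopen_nhds (inter_mem (inter_mem (hA.1.2.mem_nhds hA.2.1)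
    ((hO.inter hc).mem_nhds ⟨hxO, h1, h4.symm⟩)) (hl.eventually_eq z))
  obtain ⟨R', s1, s2, s3⟩ := exists_clopen_nhds (inter_mem (inter_mem (hA'.1.2.mem_nhds hA'.2.1)
    ((hO'.inter hc).mem_nhds ⟨hxO', h2, h5.symm⟩)) (hl.eventually_eq z'))
  have d1 : Disjoint R T := Set.disjoint_left.2 fun y hy => (r3 hy).1.2.2.1
  have d2 : Disjoint R' T := Set.disjoint_left.2 fun y hy => (s3 hy).1.2.2.1
  have d3 : Disjoint R R' := hd.mono (fun y hy => (r3 hy).1.2.1) fun y hy => (s3 hy).1.2.1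
  obtain ⟨u, u0, u1, u2, u3, -⟩ := exists_transfer r1 s1 hT r2 s2 d1 d2 d3 ha ha'
  have a1 : Abs C R w := (hA.abs_of_derived hw).mono hA.1 r1 fun y hy => (r3 hy).1.1
  have a2 : Abs C R' w := (hA'.abs_of_derived (orb_eq hz ▸ hw)).mono hA'.1 s1
    fun y hy => (s3 hy).1.1
  refine ⟨u, hU _ ⟨(r1.union hT).union s1, w, ?_, (a1.union (ha.trans r1 r2 a1) r1.2 hT.2 d1).union
    a2 (r1.union hT).2 s1.2 (disjoint_union_left.2 ⟨d3, d2.symm⟩)⟩ u u0 u1, fun x => ?_⟩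
  · rintro ((h | h) | h)
    exacts [(r3 h).1.2.2.2 rfl, h3 h, (s3 h).1.2.2.2 rfl]
  by_cases hx : x ∈ R ∪ T
  · have := u2.mapsTo hx
    rw [piecewise_eq_of_notMem _ _ _ (Set.disjoint_left.1 d1 this), (r3 this).2]
    exact (hx.elim (fun h => (r3 h).2) (hlT x)).symm
  by_cases hx' : x ∈ R'
  · rw [(s3 hx').2]
    rcases u3.mapsTo hx' with h | h
    · rw [piecewise_eq_of_notMem _ _ _ (Set.disjoint_left.1 d2 h), (s3 h).2]
    · rw [piecewise_eq_of_mem _ _ _ h]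
  · rw [u1 x fun h => h.elim hx hx', piecewise_eq_of_notMem _ _ _ fun h => hx (Or.inr h)]

open Classical in
theorem eqv_local (hs : Stable C) (hF : ¬ Flux C) {U : Subgroup (X ≃ₜ X)}
    (hU : ∀ W, Dead C W → ∀ φ ∈ Aut C, (∀ x ∉ W, φ x = x) → φ ∈ U) {l0 l1 : X → X}
    (h0 : IsLocallyConstant l0) (h1 : IsLocallyConstant l1) {x : X} (hx : l0 x ≠ l1 x)
    (e0 : l0 (l0 x) = l0 x) (e0' : l1 (l0 x) = l0 x) (e1 : l0 (l1 x) = l1 x)
    (e1' : l1 (l1 x) = l1 x) (d0 : l0 x ∈ derivedSet (orb C x)) (d1 : l1 x ∈ derivedSet (orb C x)) :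
    ∃ N ∈ 𝓝 x, ∀ T ⊆ N, IsClopen T → ∀ l, IsLocallyConstant l → (∀ y, l0 y = l1 y → l y = l0 y) →
      (∀ y ∈ T, l y = l1 x) → Eqv U l (T.piecewise (fun _ => l0 x) l) := by
  have hi := infinite_of_mem_derived d0
  obtain ⟨A, hA⟩ := hs.stN x
  have hab : ∀ T ⊆ A, IsClopen T → ∀ z ∈ derivedSet (orb C x), Abs C T z := fun T h h' z hz =>
    (hA.abs_of_derived hz).mono hA.1 h' h
  by_cases hd : Disjoint (orb C x) (derivedSet (orb C x))
  · refine ⟨A ∩ (derivedSet (orb C x))ᶜ, inter_mem (hA.1.2.mem_nhds hA.2.1)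
      ((isClosed_derivedSet _).isOpen_compl.mem_nhds (Set.disjoint_left.1 hd (mem_orb_self x))),
      fun T hT hTc l hl e hlT => ?_⟩
    have nT : ∀ z ∈ derivedSet (orb C x), z ∉ T := fun z hz h => (hT h).2 hz
    let S := {c | Eqv U l (T.piecewise (fun _ => c) l)}
    have hS : l1 x ∈ S := by
      have : T.piecewise (fun _ => l1 x) l = l := by
        ext y; by_cases hy : y ∈ T <;> simp [hy, hlT y]
      change Eqv U l _
      rw [this]; exact Eqv.refl U l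
    by_contra hc
    refine hF ⟨x, hi, hd, l ⁻¹' S, ⟨⟨hl Sᶜ⟩, hl S⟩, ⟨l1 x, d1, ?_⟩, ⟨l0 x, d0, ?_⟩, ?_⟩
    · rwa [mem_preimage, e _ (e1.trans e1'.symm), e1]
    · rwa [mem_preimage, e _ (e0.trans e0'.symm), e0]
    rintro z hz ⟨⟨a, ha, ha1, ha2⟩, ⟨b, hb, hb1, hb2⟩⟩
    rw [← orb_eq ha] at hz hb
    obtain ⟨w, hw, hw'⟩ := exists_derived_notMem hz (toFinite {a, b}) (by
      rintro _ (rfl | rfl); exacts [hz, orb_eq hb ▸ hz])
    rw [mem_insert_iff, mem_singleton_iff, not_or] at hw'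
    have := eqv_transfer hs hU (locConst_piecewise hTc (IsLocallyConstant.const (l a)) hl) hTc hb hw
      (nT a ha1) (nT b hb1) (nT w ((isClosed_derivedSet _).closure_subset_iff.2
        (orb_subset_derived ha1) (derivedSet_subset_closure _ hw))) hw'.1 hw'.2
      (fun h => hb2 (h ▸ ha2)) (hab T (hT.trans inter_subset_left) hTc a ha1)
      (hab T (hT.trans inter_subset_left) hTc b hb1) fun y hy => by simp [hy, nT a ha1]
    refine hb2 (Eqv.trans ha2 ?_)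
    convert this using 1
    all_goals funext y; by_cases hy : y ∈ T <;> simp [hy, nT b hb1]
  · obtain ⟨z, ⟨⟨z0, z1⟩, hz⟩, -⟩ := accPt_iff_nhds.1 d1 _
      (inter_mem (h0.eventually_eq (l1 x)) (h1.eventually_eq (l1 x)))
    obtain ⟨z', ⟨⟨z0', z1'⟩, hz'⟩, -⟩ := accPt_iff_nhds.1 d0 _
      (inter_mem (h0.eventually_eq (l0 x)) (h1.eventually_eq (l0 x)))
    rw [mem_ofPred, e1] at z0
    rw [mem_ofPred, e1'] at z1
    rw [mem_ofPred, e0] at z0'
    rw [mem_ofPred, e0'] at z1'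
    obtain ⟨v, hv, hv'⟩ := Set.not_disjoint_iff.1 hd
    have hsub : orb C x ⊆ derivedSet (orb C x) := (orb_eq hv).symm.subset.trans (orb_subset_derived hv')
    obtain ⟨w, hw, hw'⟩ := exists_derived_notMem hi (toFinite {z, z', x}) (by
      rintro _ (rfl | rfl | rfl); exacts [orb_eq hz ▸ hi, orb_eq hz' ▸ hi, hi])
    simp only [mem_insert_iff, mem_singleton_iff, not_or] at hw'
    refine ⟨A ∩ {w}ᶜ ∩ ({y | l0 y = l0 x} ∩ {y | l1 y = l1 x}), inter_mem (inter_mem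
      (hA.1.2.mem_nhds hA.2.1) (isOpen_compl_singleton.mem_nhds (Ne.symm hw'.2.2)))
      (inter_mem (h0.eventually_eq x) (h1.eventually_eq x)), fun T hT hTc l hl e hlT => ?_⟩
    have := eqv_transfer hs hU hl hTc (orb_eq hz ▸ hz') (orb_eq hz ▸ hw)
      (fun h => hx ((hT h).2.1.symm.trans z0)) (fun h => hx (z1'.symm.trans (hT h).2.2))
      (fun h => (hT h).1.2 rfl) hw'.1 hw'.2.1 (fun h => hx (z0'.symm.trans (h ▸ z0)))
      (hab T (fun y hy => (hT hy).1.1) hTc z (hsub hz))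
      (hab T (fun y hy => (hT hy).1.1) hTc z' (hsub hz'))
      fun y hy => by rw [hlT y hy, e z (z0.trans z1.symm), z0]
    rwa [e z' (z0'.trans z1'.symm), z0'] at this

theorem step_one (hs : Stable C) (hF : ¬ Flux C) {U : Subgroup (X ≃ₜ X)} (hC : U ≤ Aut C)
    (hU : ∀ W, Dead C W → ∀ φ ∈ Aut C, (∀ x ∉ W, φ x = x) → φ ∈ U) {O : X → Set X}
    (hO : ∀ x, O x ∈ 𝓝 x) (hU' : ∀ l : X → X, IsLocallyConstant l → (∀ x, x ∈ O (l x)) →
      ∀ φ ∈ Aut C, (∀ x, l (φ x) = l x) → φ ∈ U) {φ : X ≃ₜ X} (b : φ ∈ Aut C)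
    (hφ : ∀ y ∈ finOrb C, φ y = y) :
    φ ∈ U := by
  classical
  choose A hA using hs.stN
  obtain ⟨l0, h0, e0, hm⟩ := exists_labelling (fun x => A x ∩ O x) fun x =>
    inter_mem ((hA x).1.2.mem_nhds (hA x).2.1) (hO x)
  obtain ⟨u, hu, hu'⟩ := exists_fix_points hs hC hU b hφ h0.range_finite
  suffices u * φ ∈ U by simpa using mul_mem (inv_mem hu) this
  set ψ := u * φ
  have hψ : ∀ x, ψ.symm (l0 x) = l0 x := fun x => by
    rw [Homeomorph.symm_apply_eq]; exact (hu' _ (Or.inr ⟨x, rfl⟩)).symm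
  let l1 : X → X := fun x => l0 (ψ.symm x)
  have h1 : IsLocallyConstant l1 := h0.comp_continuous ψ.symm.continuous
  have e1 : ∀ x, l1 (l0 x) = l0 x := fun x => by simp only [l1, hψ, e0]
  have hd : ∀ x, x ≠ l0 x → l0 x ∈ derivedSet (orb C x) := fun x hx =>
    (hA _).mem_derived (hm x).1 hx
  have key : ∀ x, l0 x ≠ l1 x → ∃ N, IsClopen N ∧ x ∈ N ∧ (∀ y ∈ N, l0 y = l0 x ∧ l1 y = l1 x) ∧
      ∀ T ⊆ N, IsClopen T → ∀ l, IsLocallyConstant l → (∀ y, l0 y = l1 y → l y = l0 y) →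
      (∀ y ∈ T, l y = l1 x) → Eqv U l (T.piecewise (fun _ => l0 x) l) := fun x hx => by
    obtain ⟨N, hN, h⟩ := eqv_local hs hF hU h0 h1 hx (e0 x) (e1 x) (e0 _) (e1 _)
      (hd x fun h => hx (by rw [h, e0, e1])) (by
        rw [← orb_eq (x := x) (y := ψ.symm x) ⟨ψ.symm, inv_mem (mul_mem (hC hu) b), rfl⟩]
        refine hd _ fun h => hx ?_
        have : x = l0 (ψ.symm x) := ψ.symm.injective (by rw [hψ, ← h])
        rw [this, e0, e1])
    obtain ⟨N', n1, n2, n3⟩ := exists_clopen_nhds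
      (inter_mem hN (inter_mem (h0.eventually_eq x) (h1.eventually_eq x)))
    exact ⟨N', n1, n2, fun y hy => (n3 hy).2, fun T hT => h T fun y hy => (n3 (hT hy)).1⟩
  choose! N n1 n2 n3 n4 using key
  have hD : IsClosed {x | l0 x ≠ l1 x} := ⟨by
    simpa [compl_ofPred] using (h0.prodMk h1) {p | p.1 = p.2}⟩
  obtain ⟨t, ht, ht'⟩ := hD.isCompact.elim_nhds_subcover N fun x hx => (n1 x hx).2.mem_nhds (n2 x hx)
  have main : ∀ s : Finset X, (∀ x ∈ s, l0 x ≠ l1 x) →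
      Eqv U l1 ((⋃ x ∈ s, N x).piecewise l0 l1) := by
    intro s
    induction s using Finset.induction_on with
    | empty => intro _; convert Eqv.refl U l1; funext y; exact piecewise_eq_of_notMem _ _ _ (by simp)
    | @insert a s _ ih =>
      intro h
      have ha := h a (Finset.mem_insert_self _ _)
      have hB : IsClopen (⋃ x ∈ s, N x) := s.finite_toSet.isClopen_biUnion fun x hx =>
        n1 x (h x (Finset.mem_insert_of_mem hx))
      refine (ih fun x hx => h x (Finset.mem_insert_of_mem hx)).trans ?_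
      convert n4 a ha (N a \ ⋃ x ∈ s, N x) sdiff_subset ((n1 a ha).diff hB) _
        (locConst_piecewise hB h0 h1) (fun y hy => ?_) fun y hy => ?_ using 1
      · ext y
        rw [Finset.set_biUnion_insert]
        by_cases h1 : y ∈ ⋃ x ∈ s, N x
        · simp only [piecewise, mem_union, Set.mem_sdiff, h1]; simp
        by_cases h2 : y ∈ N a
        · simp only [piecewise, mem_union, Set.mem_sdiff, h1, h2]; simp [(n3 a ha y h2).1]
        · simp only [piecewise, mem_union, Set.mem_sdiff, h1, h2]; simp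
      · by_cases h1 : y ∈ ⋃ x ∈ s, N x
        · rw [piecewise_eq_of_mem _ _ _ h1]
        · rw [piecewise_eq_of_notMem _ _ _ h1, hy]
      · rw [piecewise_eq_of_notMem _ _ _ hy.2, (n3 a ha y hy.1).2]
  obtain ⟨v, hv, hv'⟩ := main t ht
  have : v * ψ ∈ U := hU' l0 h0 (fun x => (hm x).2) _
    (mul_mem (hC hv) (mul_mem (hC hu) b)) fun x => by
    have := hv' (ψ x)
    by_cases h : v (ψ x) ∈ ⋃ x ∈ t, N x
    · rw [piecewise_eq_of_mem _ _ _ h] at this; simpa [l1] using this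
    · rw [piecewise_eq_of_notMem _ _ _ h, ← not_not.1 fun h' => h (ht' h')] at this
      simpa [l1] using this
  simpa using mul_mem (inv_mem hv) this

theorem flux_data (hs : Stable C) (hF : Flux C) :
    ∃ (A : Set X) (χ : (X ≃ₜ X) → ℤ), IsClopen A ∧
      (∀ a ∈ Aut C ⊓ Fix (finOrb C), ∀ b ∈ Aut C ⊓ Fix (finOrb C), χ (a * b) = χ a + χ b) ∧
      (∀ a ∈ Aut C, (∀ x, a x ∈ A ↔ x ∈ A) → χ a = 0) ∧
      ∃ u ∈ Aut C ⊓ Fix (finOrb C), χ u ≠ 0 := by
  classical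
  obtain ⟨x, hx, hd, A, hA, ⟨z, hz⟩, ⟨z', hz'⟩, hsp⟩ := hF
  wlog hxA : x ∉ A generalizing A z z'
  · refine this Aᶜ hA.compl z' hz' (fun w hw h => hsp w hw ⟨?_, h.1⟩) z ⟨hz.1, fun h => h hz.2⟩
      fun h => h (not_not.1 hxA)
    simpa only [sdiff_compl] using h.2
  set c : X → ℤ := fun y => if y ∈ orb C x ∧ y ∈ A then 1 else 0 with hc
  have cz : ∀ g ∈ Aut C, ∀ y, (y ∈ orb C x → (g y ∈ A ↔ y ∈ A)) → c (g y) - c y = 0 :=
    fun g a y hy => by simp only [hc, apply_mem_orb a, and_congr_right hy, sub_self]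
  have fs : ∀ g ∈ Aut C ⊓ Fix (finOrb C), Function.HasFiniteSupport fun y => c (g y) - c y := by
    rintro g ⟨g0, hg⟩
    refine Set.Finite.subset (s := orb C x ∩ ((g ⁻¹' A ∩ Aᶜ) ∪ ((g ⁻¹' A)ᶜ ∩ A))) ?_ fun y hy => ?_
    · by_contra hinf
      obtain ⟨w, hw⟩ := Set.Infinite.exists_accPt_of_subset_isCompact hinf isCompact_univ
        (subset_univ _)
      have h1 : w ∈ derivedSet (orb C x) := hw.2.mono (principal_mono.2 inter_subset_left)
      have hA' := hA.preimage g.continuous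
      have h2 := ((hA'.inter hA.compl).union (hA'.compl.inter hA)).1.closure_subset
        (mem_closure_iff_clusterPt.2 ((hw.2.mono (principal_mono.2 inter_subset_right)).clusterPt))
      have h3 := (apply_mem_derived g0).2 h1
      by_cases hf : (orb C w).Finite
      · have := hg w hf
        rcases h2 with h | h
        exacts [h.2 (this ▸ (h.1 : g w ∈ A)), h.1 (this.symm ▸ h.2 : g w ∈ A)]
      · rcases h2 with h | h
        exacts [hsp w hf ⟨⟨_, ⟨g, g0, rfl⟩, h3, h.1⟩, _, mem_orb_self w, h1, h.2⟩,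
          hsp w hf ⟨⟨_, mem_orb_self w, h1, h.2⟩, _, ⟨g, g0, rfl⟩, h3, h.1⟩]
    · by_contra hcon
      exact hy (cz g g0 y fun hy' => ⟨fun h => by_contra fun h2 => hcon ⟨hy', Or.inl ⟨h, h2⟩⟩,
        fun h => by_contra fun h2 => hcon ⟨hy', Or.inr ⟨h2, h⟩⟩⟩)
  refine ⟨A, fun g => ∑ᶠ y, (c (g y) - c y), hA, fun a ha b hb => ?_,
    fun a a0 ha => finsum_eq_zero_of_forall_eq_zero fun y => cz a a0 y fun _ => ha y, ?_⟩
  · simp only
    rw [← finsum_comp_equiv b.toEquiv (f := fun y => c (a y) - c y)]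
    refine Eq.trans (finsum_congr fun y => ?_)
      (finsum_add_distrib ((fs a ha).preimage b.injective.injOn) (fs b hb))
    simp
  have hx' : x ∉ derivedSet (orb C x) := Set.disjoint_left.1 hd (mem_orb_self x)
  obtain ⟨U, hU⟩ := hs.stN x
  obtain ⟨U', hU', iso⟩ := isolated_of_notMem hx'
  have hf := hs.finite_finOrb
  obtain ⟨T, t1, t2, t3, t4⟩ := exists_clopen_avoid (hf.insert z') (inter_mem
    (inter_mem (hU.1.2.mem_nhds hU.2.1) hU') (hA.compl.2.mem_nhds hxA))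
  have zT : z' ∉ T := fun h => hx' (t4 z' (mem_insert _ _) h ▸ hz'.1)
  obtain ⟨R, r1, r2, r3, r4⟩ := exists_clopen_avoid hf (hA.2.mem_nhds hz.2)
  obtain ⟨R', s1, s2, s3, s4⟩ := exists_clopen_avoid hf
    (inter_mem (hA.compl.2.mem_nhds hz'.2) (t1.compl.2.mem_nhds zT))
  have ab : ∀ w ∈ derivedSet (orb C x), Abs C T w := fun w hw =>
    (hU.abs_of_derived hw).mono hU.1 t1 fun y hy => (t3 hy).1.1
  obtain ⟨u, u0, u1, u2, u3, u4, u5⟩ := exists_transfer r1 s1 t1 r2 s2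
    (Set.disjoint_left.2 fun y h h' => (t3 h').2 (r3 h)) (Set.disjoint_left.2 fun y h => (s3 h).2)
    (Set.disjoint_left.2 fun y h h' => (s3 h').1 (r3 h)) (ab z hz.1) (ab z' hz'.1)
  refine ⟨u, ⟨u0, fun y hy => ?_⟩, ?_⟩
  · by_cases h : y ∈ R ∪ T ∪ R'
    · rcases h with (h | h) | h
      · rw [r4 y hy h, u4]
      · exact absurd (t4 y (Or.inr hy) h ▸ hy) hx
      · rw [s4 y hy h, u5]
    · exact u1 y h
  · simp only
    rw [finsum_eq_single _ x fun y hy => cz u u0 y fun hy' => ?_]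
    · simp [hc, hxA, apply_mem_orb u0, mem_orb_self, r3 (u2.mapsTo (Or.inr t2))]
    · by_cases h : y ∈ R ∪ T ∪ R'
      · rcases h with (h | h) | h
        · exact iff_of_true (r3 (u2.mapsTo (Or.inl h))) (r3 h)
        · exact absurd (iso y hy' (t3 h).1.2) hy
        · exact iff_of_false (fun h' => (u3.mapsTo h).elim (fun e => (s3 e).1 h')
            fun e => (t3 e).2 h') (s3 h).1
      · rw [u1 y h]

end Pool.Agent.Lib.MP_069d55_gt.G
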