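import Mathlib

/-! The length-area principle. -/

namespace Pool.Agent.Lib.MP_069d55_gt

open Set Filter Topology Metric MeasureTheory Complex

noncomputable section

lemma det_cmul (c : ℂ) : (c • (1 : ℂ →L[ℝ] ℂ)).det = ‖c‖ ^ 2 := by
  have : ((c • (1 : ℂ →L[ℝ] ℂ) : ℂ →L[ℝ] ℂ) : ℂ →ₗ[ℝ] ℂ) = Algebra.lmul ℝ ℂ c := by
    apply LinearMap.ext; intro z; simp
  rw [ContinuousLinearMap.det, this, ← Algebra.norm_apply, Algebra.norm_complex_apply,
    normSq_eq_norm_sq]

lemma exists_slice {W : Set ℂ} (hW : IsOpen W) {φ : ℂ → ℂ} (hd : DifferentiableOn ℂ φ W)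
    (hi : InjOn φ W) (hb : Bornology.IsBounded (φ '' W)) (c : ℝ) {η : ℝ} (hη : 0 < η) :
    ∃ x < c, ∫⁻ y : ℝ, W.indicator (fun w => ENNReal.ofReal (‖deriv φ w‖ ^ 2)) (x + y * I)
      ≤ ENNReal.ofReal η := by
  set G : ℂ → ENNReal := W.indicator (fun w => ENNReal.ofReal (‖deriv φ w‖ ^ 2)) with hG
  have hGm : Measurable G := by
    refine Measurable.indicator ?_ hW.measurableSet
    exact ENNReal.measurable_ofReal.comp ((measurable_deriv φ).norm.pow_const 2)
  have h1 : ∫⁻ w, G w < ⊤ := by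
    rw [hG, lintegral_indicator hW.measurableSet]
    have := lintegral_abs_det_fderiv_eq_addHaar_image volume hW.measurableSet
      (f := φ) (f' := fun w => deriv φ w • (1 : ℂ →L[ℝ] ℂ))
      (fun w hw => (hd.differentiableAt (hW.mem_nhds hw)).hasDerivAt.complexToReal_fderiv
        |>.hasFDerivWithinAt) hi
    simp only [det_cmul, abs_pow, abs_norm] at this
    rw [this]; exact hb.measure_lt_top
  have h2 : ∫⁻ w, G w = ∫⁻ x : ℝ, ∫⁻ y : ℝ, G (x + y * I) := by
    rw [← (volume_preserving_equiv_real_prod.symm).lintegral_comp_emb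
      measurableEquivRealProd.symm.measurableEmbedding, Measure.volume_eq_prod, lintegral_prod]
    · congr 1; funext x; congr 1; funext y; congr 1
      apply Complex.ext <;> simp
    · exact (hGm.comp measurableEquivRealProd.symm.measurable).aemeasurable
  by_contra hcon
  push Not at hcon
  have h3 : ∫⁻ x in Iio c, ENNReal.ofReal η ≤ ∫⁻ x : ℝ, ∫⁻ y : ℝ, G (x + y * I) := by
    refine le_trans ?_ (setLIntegral_le_lintegral (Iio c) _)
    exact setLIntegral_mono' measurableSet_Iio fun x hx => (hcon x hx).le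
  rw [setLIntegral_const, Real.volume_Iio, ENNReal.mul_top (by simpa using hη), ← h2] at h3
  exact h1.not_ge h3

lemma len_le {W : Set ℂ} (hW : IsOpen W) {φ : ℂ → ℂ} (hd : DifferentiableOn ℂ φ W) {x t : ℝ}
    (ht : 0 < t)
    (hJ : ∫⁻ y : ℝ, W.indicator (fun w => ENNReal.ofReal (‖deriv φ w‖ ^ 2)) (x + y * I)
      ≤ ENNReal.ofReal (t ^ 2)) {a b : ℝ} (hab : a ≤ b) (h4 : b - a ≤ 4)
    (hs : ∀ y ∈ Icc a b, (x + y * I : ℂ) ∈ W) :
    ‖φ (x + b * I) - φ (x + a * I)‖ ≤ 5 * t := by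
  have hcd : ContDiffOn ℝ 1 (fun y : ℝ => φ (x + y * I)) (Icc a b) := by
    intro y hy
    have h1 : ContDiffAt ℝ 1 φ (x + y * I) :=
      ((hd.analyticAt (hW.mem_nhds (hs y hy))).contDiffAt).restrict_scalars ℝ
    have h2 : ContDiffAt ℝ 1 (fun y : ℝ => (x + y * I : ℂ)) y :=
      contDiffAt_const.add (ofRealCLM.contDiff.contDiffAt.mul contDiffAt_const)
    exact (h1.comp y h2).contDiffWithinAt
  have h := enorm_sub_le_lintegral_deriv_of_contDiffOn_Icc hcd hab
  have hder : ∀ y ∈ Icc a b, ‖deriv (fun y : ℝ => φ (x + y * I)) y‖ₑ ≤ ENNReal.ofReal t +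
      ENNReal.ofReal t⁻¹ *
        W.indicator (fun w => ENNReal.ofReal (‖deriv φ w‖ ^ 2)) (x + y * I) := by
    intro y hy
    have h1 : HasDerivAt (fun w : ℂ => φ (x + w * I)) (deriv φ (x + y * I) * I) (y : ℂ) := by
      have := (hd.differentiableAt (hW.mem_nhds (hs y hy))).hasDerivAt.comp (y : ℂ)
        (((hasDerivAt_id (y : ℂ)).mul_const I).const_add (x : ℂ))
      rw [one_mul] at this
      exact this
    rw [h1.comp_ofReal.deriv, indicator_of_mem (hs y hy), ← ENNReal.ofReal_mul (by positivity),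
      ← ENNReal.ofReal_add ht.le (by positivity), ← ofReal_norm, norm_mul, norm_I,
      mul_one]
    refine ENNReal.ofReal_le_ofReal ?_
    set d := ‖deriv φ (x + y * I)‖
    have : d * t ≤ (t + t⁻¹ * d ^ 2) * t := by
      have : (t + t⁻¹ * d ^ 2) * t = t ^ 2 + d ^ 2 := by field_simp
      rw [this]; nlinarith [sq_nonneg (d - t), sq_nonneg d, sq_nonneg t]
    exact le_of_mul_le_mul_right this ht
  have h2 := h.trans (setLIntegral_mono' measurableSet_Icc hder)
  rw [lintegral_add_left measurable_const, setLIntegral_const, Real.volume_Icc,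
    lintegral_const_mul' _ _ ENNReal.ofReal_ne_top] at h2
  have h3 : ‖φ (x + b * I) - φ (x + a * I)‖ₑ ≤ ENNReal.ofReal (5 * t) := by
    refine h2.trans ?_
    have := (setLIntegral_le_lintegral (Icc a b) _).trans hJ
    calc _ ≤ ENNReal.ofReal t * ENNReal.ofReal 4 + ENNReal.ofReal t⁻¹ * ENNReal.ofReal (t ^ 2) := by
          gcongr
      _ = _ := by
          rw [← ENNReal.ofReal_mul ht.le, ← ENNReal.ofReal_mul (by positivity),
            ← ENNReal.ofReal_add (by positivity) (by positivity)]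
          congr 1; field_simp; ring
  rwa [← ofReal_norm, ENNReal.ofReal_le_ofReal_iff (by positivity)] at h3

lemma norm_one_sub_exp_lt {x y : ℝ} : ‖1 - exp (x + y * I)‖ < 1 ↔ Real.exp x < 2 * Real.cos y := by
  rw [← sq_lt_one_iff₀ (norm_nonneg _), ← normSq_eq_norm_sq, normSq_apply]
  simp only [sub_re, one_re, exp_re, add_re, ofReal_re, mul_re, I_re, mul_zero, ofReal_im, I_im,
    mul_one, sub_self, add_zero, add_im, mul_im, zero_add, sub_im, one_im, exp_im, zero_sub]
  have h := Real.sin_sq_add_cos_sq y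
  have he := Real.exp_pos x
  have : (1 - Real.exp x * Real.cos y) * (1 - Real.exp x * Real.cos y) +
      -(Real.exp x * Real.sin y) * -(Real.exp x * Real.sin y) =
      1 + Real.exp x * (Real.exp x - 2 * Real.cos y) := by
    linear_combination (Real.exp x) ^ 2 * h
  rw [this]
  constructor
  · intro h1; nlinarith
  · intro h1; nlinarith

/-- Short crosscuts. -/
lemma exists_crosscut {ψ : ℂ → ℂ} (hd : DifferentiableOn ℂ ψ (ball 0 1)) (hi : InjOn ψ (ball 0 1))
    (hb : Bornology.IsBounded (ψ '' ball 0 1)) {ζ : ℂ} (hζ : ‖ζ‖ = 1) {η δ : ℝ} (hη : 0 < η)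
    (hδ : 0 < δ) : ∃ ρ, 0 < ρ ∧ ρ < δ ∧ ∀ z ∈ ball (0 : ℂ) 1, ∀ z' ∈ ball (0 : ℂ) 1,
      ‖z - ζ‖ = ρ → ‖z' - ζ‖ = ρ → ‖ψ z - ψ z'‖ ≤ η := by
  have hζ0 : ζ ≠ 0 := by rintro rfl; simp at hζ
  set W : Set ℂ := {w | |w.im| < Real.pi / 2 ∧ ‖1 - exp w‖ < 1} with hWd
  have hW : IsOpen W :=
    IsOpen.and (isOpen_lt (f := fun w : ℂ => |w.im|) (by fun_prop) continuous_const)
      (isOpen_lt (f := fun w : ℂ => ‖1 - exp w‖) (by fun_prop) continuous_const)
  have hm : MapsTo (fun w => ζ * (1 - exp w)) W (ball 0 1) := fun w hw => by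
    simpa [hζ] using hw.2
  have hd' : DifferentiableOn ℂ (fun w => ψ (ζ * (1 - exp w))) W :=
    hd.comp (Differentiable.differentiableOn (by fun_prop)) hm
  have hpi := Real.pi_pos
  have hi' : InjOn (fun w => ψ (ζ * (1 - exp w))) W := fun w hw w' hw' h => by
    have h1 := mul_left_cancel₀ hζ0 (hi (hm hw) (hm hw') h)
    have a1 := abs_lt.1 hw.1
    have a2 := abs_lt.1 hw'.1
    exact exp_inj_of_neg_pi_lt_of_le_pi (by linarith) (by linarith) (by linarith) (by linarith)
      (by linear_combination -h1)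
  obtain ⟨x, hx, hJ⟩ := exists_slice hW hd' hi'
    (hb.subset (by rintro _ ⟨w, hw, rfl⟩; exact ⟨_, hm hw, rfl⟩)) (Real.log δ)
    (η := (η / 5) ^ 2) (by positivity)
  refine ⟨Real.exp x, Real.exp_pos x, (Real.lt_log_iff_exp_lt hδ).1 hx, ?_⟩
  have hpar : ∀ z ∈ ball (0 : ℂ) 1, ‖z - ζ‖ = Real.exp x →
      ∃ y : ℝ, (x + y * I : ℂ) ∈ W ∧ z = ζ * (1 - exp (x + y * I)) := by
    intro z hz hρ
    set u := 1 - z / ζ with hu
    have hn : ‖u‖ = Real.exp x := by
      rw [← hρ, show u = -(z - ζ) / ζ by rw [hu]; field_simp; ring, norm_div, hζ, norm_neg, div_one]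
    have he : exp (x + arg u * I) = u := by
      rw [exp_add, ← ofReal_exp, ← hn, norm_mul_exp_arg_mul_I]
    have h1 : ‖1 - u‖ < 1 := by simpa [hu, hζ] using hz
    have h2 : 0 < u.re := by
      have := (abs_re_le_norm (1 - u)).trans_lt h1
      have := (abs_lt.1 this).2
      simpa using this
    refine ⟨arg u, ⟨by simpa using abs_arg_lt_pi_div_two_iff.2 (Or.inl h2), by rwa [he]⟩, ?_⟩
    rw [he, hu]; field_simp; ring
  have hseg : ∀ a b : ℝ, a ≤ b → (x + a * I : ℂ) ∈ W → (x + b * I : ℂ) ∈ W →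
      ‖ψ (ζ * (1 - exp (x + b * I))) - ψ (ζ * (1 - exp (x + a * I)))‖ ≤ η := by
    intro a b hab ha hb
    have ha1 : |a| < Real.pi / 2 := by simpa using ha.1
    have hb1 : |b| < Real.pi / 2 := by simpa using hb.1
    have ha2 := norm_one_sub_exp_lt.1 ha.2
    have hb2 := norm_one_sub_exp_lt.1 hb.2
    have := len_le hW hd' (t := η / 5) (by positivity) hJ hab
      (by linarith [abs_lt.1 ha1, abs_lt.1 hb1, Real.pi_le_four]) (fun y hy => ?_)
    · linarith
    · have hy' : |y| ≤ max |a| |b| := abs_le_max_abs_abs hy.1 hy.2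
      refine ⟨by simpa using hy'.trans_lt (max_lt ha1 hb1), norm_one_sub_exp_lt.2 ?_⟩
      rw [← Real.cos_abs y]
      rcases le_max_iff.1 hy' with h | h
      · have := Real.cos_le_cos_of_nonneg_of_le_pi (abs_nonneg y) (by linarith) h
        rw [Real.cos_abs a] at this; linarith
      · have := Real.cos_le_cos_of_nonneg_of_le_pi (abs_nonneg y) (by linarith) h
        rw [Real.cos_abs b] at this; linarith
  intro z hz z' hz' h h'
  obtain ⟨y, hy, rfl⟩ := hpar z hz h
  obtain ⟨y', hy', rfl⟩ := hpar z' hz' h'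
  rcases le_total y y' with hh | hh
  · rw [norm_sub_rev]; exact hseg y y' hh hy hy'
  · exact hseg y' y hh hy' hy

end

end Pool.Agent.Lib.MP_069d55_gt
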