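import Pool.Agent.Lib.MP_069d55_gt.RMT
import Pool.Agent.Lib.MP_069d55_gt.LenArea

/-! Boundary behaviour of the Riemann map of the image of a disc under a homeomorphism. -/

namespace Pool.Agent.Lib.MP_069d55_gt

open Set Filter Topology Metric Complex ComplexConjugate Pool.Agent.Lib.MP_1e9af3_an

noncomputable section

/-- `h` is a self-homeomorphism of the unit disc fixing `0`, with inverse `k`. -/
structure DiscHom (h k : ℂ → ℂ) : Prop where
  hc : ContinuousOn h (ball 0 1)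
  kc : ContinuousOn k (ball 0 1)
  hm : MapsTo h (ball 0 1) (ball 0 1)
  km : MapsTo k (ball 0 1) (ball 0 1)
  kh : ∀ z ∈ ball (0 : ℂ) 1, k (h z) = z
  hk : ∀ z ∈ ball (0 : ℂ) 1, h (k z) = z
  h0 : h 0 = 0

def Cross (h : ℂ → ℂ) : Prop := ∀ ζ : ℂ, ‖ζ‖ = 1 → ∀ η > 0, ∀ δ > 0, ∃ ρ, 0 < ρ ∧ ρ < δ ∧
  ∀ z ∈ ball (0 : ℂ) 1, ∀ z' ∈ ball (0 : ℂ) 1, ‖z - ζ‖ = ρ → ‖z' - ζ‖ = ρ → ‖h z - h z'‖ ≤ η

variable {h k : ℂ → ℂ}

lemma DiscHom.proper (H : DiscHom h k) {s : ℝ} (hs : s < 1) :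
    ∃ r < 1, ∀ z ∈ ball (0 : ℂ) 1, r < ‖z‖ → s < ‖h z‖ := by
  have hc : IsCompact (k '' closedBall 0 s) :=
    (isCompact_closedBall 0 s).image_of_continuousOn (H.kc.mono (closedBall_subset_ball hs))
  obtain ⟨r, hr, hsub⟩ := exists_lt_subset_ball hc.isClosed
    (show k '' closedBall 0 s ⊆ ball 0 1 by
      rintro _ ⟨w, hw, rfl⟩; exact H.km (closedBall_subset_ball hs hw))
  refine ⟨r, hr, fun z hz hrz => ?_⟩
  by_contra hle
  have := hsub ⟨h z, by simpa using not_lt.1 hle, H.kh z hz⟩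
  rw [mem_ball_zero_iff] at this
  linarith

lemma DiscHom.osc (H : DiscHom h k) (hx : Cross h) {ζ : ℂ} (hζ : ‖ζ‖ = 1) {η : ℝ} (hη : 0 < η) :
    ∃ ρ > 0, ∃ b : ℂ, ∀ z ∈ ball (0 : ℂ) 1, ‖z - ζ‖ < ρ → ‖h z - b‖ ≤ η := by
  set s := min (η ^ 2 / 4) (1 / 4) with hs
  have hs0 : 0 < s := by positivity
  have hs1 : s ≤ 1 / 4 := min_le_right _ _
  have hs2 : s ≤ η ^ 2 / 4 := min_le_left _ _
  obtain ⟨r, hr, hrp⟩ := H.proper (s := 1 - s) (by linarith)
  obtain ⟨ρ, hρ0, hρ, hcr⟩ := hx ζ hζ s hs0 (min (1 - r) 1) (lt_min (by linarith) one_pos)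
  have hρ1 : ρ < 1 := hρ.trans_le (min_le_right _ _)
  have hρ2 : ρ < 1 - r := hρ.trans_le (min_le_left _ _)
  set z₀ : ℂ := ζ * ((1 - ρ : ℝ) : ℂ) with hz₀
  have n₀ : ‖z₀‖ = 1 - ρ := by
    rw [hz₀, norm_mul, hζ, one_mul, norm_real, Real.norm_of_nonneg (by linarith)]
  have m₀ : z₀ ∈ ball (0 : ℂ) 1 := by rw [mem_ball_zero_iff, n₀]; linarith
  have d₀ : ‖z₀ - ζ‖ = ρ := by
    rw [show z₀ - ζ = -(ζ * ρ) by rw [hz₀]; push_cast; ring, norm_neg, norm_mul, hζ, one_mul,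
      norm_real, Real.norm_of_nonneg hρ0.le]
  have h1 : 1 - s < ‖h z₀‖ := hrp z₀ m₀ (by linarith)
  have h2 : ‖h z₀‖ < 1 := mem_ball_zero_iff.1 (H.hm m₀)
  have h3 : (‖h z₀‖ : ℂ) ≠ 0 := by exact_mod_cast (show ‖h z₀‖ ≠ 0 by linarith)
  set b : ℂ := h z₀ / ‖h z₀‖ with hb
  have nb : ‖b‖ = 1 := by
    rw [hb, norm_div, norm_real, norm_norm, div_self (by linarith)]
  have db : ‖h z₀ - b‖ < s := by
    have : h z₀ - b = b * ((‖h z₀‖ - 1 : ℝ) : ℂ) := by rw [hb]; push_cast; field_simp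
    rw [this, norm_mul, nb, one_mul, norm_real, Real.norm_eq_abs, abs_lt]
    constructor <;> linarith
  have hbb : b * conj b = 1 := by rw [mul_conj, normSq_eq_norm_sq, nb]; simp
  set W : Set ℂ := ball 0 1 ∩ {w | (w * conj b).re < 1 - 2 * s} with hW
  have hWc : Convex ℝ W := by
    refine (convex_ball 0 1).inter (convex_halfSpace_lt (f := fun w : ℂ => (w * conj b).re) ?_ _)
    exact ⟨fun x y => by simp [add_mul], fun c x => by simp; ring⟩
  have hW0 : (0 : ℂ) ∈ W := ⟨mem_ball_self one_pos, by simp; linarith⟩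
  have hk0 : k 0 = 0 := by have := H.kh 0 (mem_ball_self one_pos); rwa [H.h0] at this
  have hne : ∀ w ∈ W, ‖k w - ζ‖ ≠ ρ := fun w hw he => by
    have e1 := hcr (k w) (H.km hw.1) z₀ m₀ he d₀
    rw [H.hk w hw.1] at e1
    have e2 : ‖w - b‖ < 2 * s := by
      have := norm_sub_le_norm_sub_add_norm_sub w (h z₀) b
      linarith
    have e3 : (w * conj b).re = 1 + ((w - b) * conj b).re := by
      rw [sub_mul, hbb]; simp
    have e4 := abs_re_le_norm ((w - b) * conj b)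
    rw [norm_mul, RCLike.norm_conj, nb, mul_one] at e4
    have e5 := hw.2
    simp only [mem_ofPred_eq] at e5
    linarith [(abs_le.1 e4).1]
  have hgt : ∀ w ∈ W, ρ ≤ ‖k w - ζ‖ := fun w hw => by
    by_contra hlt
    obtain ⟨v, hv, hv'⟩ := hWc.isPreconnected.intermediate_value hw hW0
      (f := fun w => ‖k w - ζ‖) (((H.kc.mono inter_subset_left).sub continuousOn_const).norm)
      (show ρ ∈ Icc _ _ from ⟨(not_le.1 hlt).le, by simp [hk0, hζ, hρ1.le]⟩)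
    exact hne v hv hv'
  refine ⟨ρ, hρ0, b, fun z hz hzρ => ?_⟩
  have e1 : 1 - 2 * s ≤ (h z * conj b).re := by
    by_contra hlt
    have := hgt (h z) ⟨H.hm hz, not_le.1 hlt⟩
    rw [H.kh z hz] at this; linarith
  have e2 : ‖h z‖ < 1 := mem_ball_zero_iff.1 (H.hm hz)
  have e3 : ‖h z - b‖ ^ 2 = ‖h z‖ ^ 2 + ‖b‖ ^ 2 - 2 * (h z * conj b).re := by
    simp only [← normSq_eq_norm_sq]; exact normSq_sub _ _
  refine le_of_sq_le_sq ?_ hη.le
  rw [e3, nb]; nlinarith [norm_nonneg (h z)]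

lemma neBot_ball {ζ : ℂ} (hζ : ζ ∈ closedBall (0 : ℂ) 1) : (𝓝[ball 0 1] ζ).NeBot :=
  mem_closure_iff_nhdsWithin_neBot.1 (by rwa [closure_ball 0 one_ne_zero])

lemma DiscHom.lim (H : DiscHom h k) (hx : Cross h) {ζ : ℂ} (hζ : ζ ∈ closedBall (0 : ℂ) 1) :
    ∃ y, Tendsto h (𝓝[ball 0 1] ζ) (𝓝 y) := by
  rcases (mem_closedBall_zero_iff.1 hζ).lt_or_eq with h1 | h1
  · exact ⟨_, H.hc ζ (mem_ball_zero_iff.2 h1)⟩
  have := neBot_ball hζ
  refine cauchy_map_iff_exists_tendsto.1 (Metric.cauchy_iff.2 ⟨inferInstance, fun ε hε => ?_⟩)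
  obtain ⟨ρ, hρ, b, hb⟩ := H.osc hx h1 (η := ε / 3) (by positivity)
  refine ⟨closedBall b (ε / 3), ?_, fun x hx y hy => ?_⟩
  · rw [mem_map]
    filter_upwards [self_mem_nhdsWithin, mem_nhdsWithin_of_mem_nhds (ball_mem_nhds ζ hρ)]
      with z hz hz'
    simpa [dist_eq_norm] using hb z hz (by simpa [dist_eq_norm] using hz')
  · have := dist_triangle_right x y b
    rw [mem_closedBall] at hx hy
    linarith

lemma DiscHom.ext_cont (H : DiscHom h k) (hx : Cross h) :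
    ContinuousOn (extendFrom (ball 0 1) h) (closedBall 0 1) :=
  continuousOn_extendFrom (by rw [closure_ball 0 one_ne_zero]) fun _ hζ => H.lim hx hζ

lemma DiscHom.ext_norm (H : DiscHom h k) (hx : Cross h) {ζ : ℂ} (hζ : ‖ζ‖ = 1) :
    ‖extendFrom (ball 0 1) h ζ‖ = 1 := by
  have hζ' : ζ ∈ closedBall (0 : ℂ) 1 := mem_closedBall_zero_iff.2 hζ.le
  have := neBot_ball hζ'
  have ht := (tendsto_extendFrom (H.lim hx hζ')).norm
  refine le_antisymm (le_of_tendsto ht ?_) (le_of_forall_lt_imp_le_of_dense fun s hs => ?_)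
  · filter_upwards [self_mem_nhdsWithin] with z hz using (mem_ball_zero_iff.1 (H.hm hz)).le
  · obtain ⟨r, hr, hrp⟩ := H.proper hs
    refine ge_of_tendsto ht ?_
    filter_upwards [self_mem_nhdsWithin, mem_nhdsWithin_of_mem_nhds
      (continuous_norm.continuousAt.eventually (lt_mem_nhds (hζ ▸ hr : r < ‖ζ‖)))] with z hz hz'
    exact (hrp z hz hz').le

lemma eq_or_conj {v w : ℂ} (h1 : v.re = w.re) (h2 : ‖v‖ = ‖w‖) : v = w ∨ v = conj w := by
  have : normSq v = normSq w := by rw [normSq_eq_norm_sq, normSq_eq_norm_sq, h2]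
  rw [normSq_apply, normSq_apply, h1, add_right_inj, mul_self_eq_mul_self_iff] at this
  rcases this with h | h
  · exact Or.inl (Complex.ext h1 h)
  · exact Or.inr (Complex.ext (by simpa using h1) (by simpa using h))

lemma DiscHom.ext_inj (H : DiscHom h k) (hx : Cross h)
    (hnc : ∀ ξ : ℂ, ‖ξ‖ = 1 → ∀ η > 0, ∀ b : ℂ, ‖b‖ = 1 →
      ∃ z : ℂ, ‖z‖ = 1 ∧ ‖z - ξ‖ < η ∧ extendFrom (ball 0 1) h z ≠ b)
    {ζ₁ ζ₂ : ℂ} (h₁ : ‖ζ₁‖ = 1) (h₂ : ‖ζ₂‖ = 1)
    (he : extendFrom (ball 0 1) h ζ₁ = extendFrom (ball 0 1) h ζ₂) : ζ₁ = ζ₂ := by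
  by_contra hne
  set g := extendFrom (ball 0 1) h with hg
  have gc : ContinuousOn g (closedBall 0 1) := H.ext_cont hx
  have ge : ∀ z ∈ ball (0 : ℂ) 1, g z = h z := extendFrom_extends H.hc
  set b := g ζ₂ with hb
  have nb : ‖b‖ = 1 := H.ext_norm hx h₂
  have hd : ‖ζ₂ - ζ₁‖ ≠ 0 := norm_ne_zero_iff.2 (sub_ne_zero.2 (Ne.symm hne))
  have hd' : (‖ζ₂ - ζ₁‖ : ℂ) ≠ 0 := by exact_mod_cast hd
  set u : ℂ := (ζ₂ - ζ₁) / ‖ζ₂ - ζ₁‖ with hu
  have nu : ‖u‖ = 1 := by rw [hu, norm_div, norm_real, norm_norm, div_self hd]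
  have huu : u * conj u = 1 := by rw [mul_conj, normSq_eq_norm_sq, nu]; simp
  set A : ℂ → ℝ := fun z => (z * conj u).re with hA
  have Ac : Continuous A := by rw [hA]; fun_prop
  have hlt : A ζ₁ < A ζ₂ := by
    have e : (ζ₂ - ζ₁) * conj u = ‖ζ₂ - ζ₁‖ := by
      have : ζ₂ - ζ₁ = ‖ζ₂ - ζ₁‖ * u := by rw [hu]; field_simp
      rw [this, mul_assoc, huu, ← this, mul_one]
    have := congrArg re e
    rw [sub_mul, sub_re, ofReal_re] at this
    have := lt_of_le_of_ne (norm_nonneg _) hd.symm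
    simp only [hA]; linarith
  have claim : ∀ c, A ζ₁ < c → c < A ζ₂ → ∃ z, ‖z‖ = 1 ∧ A z = c ∧ g z = b := by
    intro c hc1 hc2
    by_contra hcon
    push Not at hcon
    have hL : IsCompact (closedBall (0 : ℂ) 1 ∩ {z | A z = c}) :=
      (isCompact_closedBall 0 1).inter_right (isClosed_eq Ac continuous_const)
    have hb' : b ∉ g '' (closedBall (0 : ℂ) 1 ∩ {z | A z = c}) := by
      rintro ⟨z, ⟨hz, hzc⟩, hzb⟩
      rcases (mem_closedBall_zero_iff.1 hz).lt_or_eq with h1 | h1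
      · have := H.hm (mem_ball_zero_iff.2 h1)
        rw [← ge z (mem_ball_zero_iff.2 h1), hzb, mem_ball_zero_iff, nb] at this
        exact lt_irrefl _ this
      · exact hcon z h1 hzc hzb
    obtain ⟨s, hs, hsb⟩ := Metric.isOpen_iff.1
      (hL.image_of_continuousOn (gc.mono inter_subset_left)).isClosed.isOpen_compl b hb'
    have near : ∀ ζ : ℂ, ‖ζ‖ = 1 → g ζ = b → ∀ P : Set ℝ, P ∈ 𝓝 (A ζ) →
        ∃ w ∈ ball (0 : ℂ) 1 ∩ ball b s, A (k w) ∈ P := by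
      intro ζ hζ hζb P hP
      have hζ' : ζ ∈ closedBall (0 : ℂ) 1 := mem_closedBall_zero_iff.2 hζ.le
      have := neBot_ball hζ'
      have ht : Tendsto h (𝓝[ball 0 1] ζ) (𝓝 b) := hζb ▸ tendsto_extendFrom (H.lim hx hζ')
      obtain ⟨z, ⟨hz1, hz2⟩, hz3⟩ := (((ht.eventually (ball_mem_nhds b hs)).and
        (mem_nhdsWithin_of_mem_nhds (Ac.continuousAt.eventually hP))).and
          self_mem_nhdsWithin).exists
      exact ⟨h z, ⟨H.hm hz3, hz1⟩, by rwa [H.kh z hz3]⟩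
    obtain ⟨w₁, hw₁, hw₁'⟩ := near ζ₁ h₁ he _ (Iio_mem_nhds hc1)
    obtain ⟨w₂, hw₂, hw₂'⟩ := near ζ₂ h₂ rfl _ (Ioi_mem_nhds hc2)
    obtain ⟨w, hw, hwc⟩ := ((convex_ball (0 : ℂ) 1).inter (convex_ball b s)).isPreconnected
      |>.intermediate_value hw₁ hw₂ (f := fun w => A (k w))
      (Ac.comp_continuousOn (H.kc.mono inter_subset_left))
      (show c ∈ Icc _ _ from ⟨le_of_lt hw₁', le_of_lt hw₂'⟩)
    exact hsb hw.2 ⟨k w, ⟨ball_subset_closedBall (H.km hw.1), hwc⟩, by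
      rw [ge _ (H.km hw.1), H.hk w hw.1]⟩
  obtain ⟨ξ, hξ, hξc⟩ := (isPreconnected_sphere (E := ℂ)
    (by rw [Complex.rank_real_complex]; norm_num) 0 1).intermediate_value
    (mem_sphere_zero_iff_norm.2 h₁) (mem_sphere_zero_iff_norm.2 h₂) Ac.continuousOn
    (show (A ζ₁ + A ζ₂) / 2 ∈ Icc _ _ from ⟨by linarith, by linarith⟩)
  obtain ⟨η, hη, hηb⟩ := Metric.isOpen_iff.1 ((isOpen_Ioo (a := A ζ₁) (b := A ζ₂)).preimage Ac) ξ
    (by rw [mem_preimage, hξc]; constructor <;> linarith)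
  obtain ⟨z₁, nz₁, dz₁, gz₁⟩ := hnc ξ (mem_sphere_zero_iff_norm.1 hξ) η hη b nb
  have hev : ∀ᶠ z in 𝓝[closedBall 0 1] z₁, g z ≠ b ∧ A z ∈ Ioo (A ζ₁) (A ζ₂) :=
    ((gc z₁ (mem_closedBall_zero_iff.2 nz₁.le)).eventually (isOpen_ne.mem_nhds gz₁)).and
      (mem_nhdsWithin_of_mem_nhds ((isOpen_Ioo.preimage Ac).mem_nhds
        (hηb (by simpa [dist_eq_norm] using dz₁))))
  obtain ⟨ε, hε, hεb⟩ := Metric.mem_nhdsWithin_iff.1 hev
  set σ : ℂ → ℂ := fun z => u * u * conj z with hσ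
  have nσ : ∀ z, ‖σ z‖ = ‖z‖ := fun z => by simp [hσ, nu]
  have σσ : ∀ z, σ (σ z) = z := fun z => by
    simp only [hσ, map_mul, conj_conj]; linear_combination (u * conj u + 1) * z * huu
  have σA : ∀ z, σ z * conj u = conj (z * conj u) := fun z => by
    simp only [hσ, map_mul, conj_conj]; linear_combination u * conj z * huu
  obtain ⟨z, nz, dz, gz⟩ := hnc (σ z₁) (by rw [nσ, nz₁]) ε hε b nb
  have hσz := hεb (show σ z ∈ ball z₁ ε ∩ closedBall 0 1 from ⟨by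
    rw [mem_ball, dist_eq_norm, ← σσ z₁, show σ z - σ (σ z₁) = σ (z - σ z₁) by
      simp only [hσ, map_sub]; ring, nσ]; exact dz, by rw [mem_closedBall_zero_iff, nσ, nz]⟩)
  obtain ⟨z', nz', Az', gz'⟩ := claim _ hσz.2.1 hσz.2.2
  have hu0 : conj u ≠ 0 := fun h0 => by rw [h0, mul_zero] at huu; exact zero_ne_one huu
  rcases eq_or_conj (v := z' * conj u) (w := σ z * conj u) Az'
    (by rw [norm_mul, norm_mul, nz', nσ, nz]) with h' | h'
  · exact hσz.1 (mul_right_cancel₀ hu0 h' ▸ gz')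
  · rw [← σA, σσ] at h'
    exact gz (mul_right_cancel₀ hu0 h' ▸ gz')

lemma no_arc {Ψ : ℂ → ℂ} (hΨ : DiffContOnCl ℂ Ψ (ball 0 1)) {c ξ : ℂ} (hξ : ‖ξ‖ = 1) {η : ℝ}
    (hη : 0 < η) (h : ∀ z : ℂ, ‖z‖ = 1 → ‖z - ξ‖ < η → Ψ z = c) : Ψ 0 = c := by
  obtain ⟨t, ht⟩ := (isCompact_sphere (0 : ℂ) 1).elim_finite_subcover
    (fun u : sphere (0 : ℂ) 1 => {z : ℂ | ‖u * z - ξ‖ < η})
    (fun u => isOpen_lt (by fun_prop) continuous_const) (fun z hz => by
      have nz := mem_sphere_zero_iff_norm.1 hz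
      have hz0 : z ≠ 0 := by rintro rfl; simp at nz
      exact mem_iUnion.2 ⟨⟨ξ / z, by simp [hξ, nz]⟩, by simp [hz0, hη]⟩)
  have hf : ∀ u : sphere (0 : ℂ) 1, DiffContOnCl ℂ (fun z => Ψ (u * z) - c) (ball 0 1) := by
    intro u
    refine DiffContOnCl.sub_const (hΨ.comp (g := fun z : ℂ => (u : ℂ) * z)
      (Differentiable.diffContOnCl (by fun_prop)) fun z hz => ?_) c
    simpa [mem_sphere_zero_iff_norm.1 u.2] using hz
  have hP : DiffContOnCl ℂ (fun z => ∏ u ∈ t, (Ψ (u * z) - c)) (ball 0 1) :=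
    ⟨DifferentiableOn.fun_finsetProd fun u _ => (hf u).differentiableOn,
      continuousOn_finsetProd _ fun u _ => (hf u).continuousOn⟩
  have := norm_le_of_forall_mem_frontier_norm_le isBounded_ball hP (C := 0) (z := 0) (fun z hz => ?_)
    (subset_closure (mem_ball_self one_pos))
  · obtain ⟨u, -, hu⟩ := Finset.prod_eq_zero_iff.1 (norm_le_zero_iff.1 this)
    simpa [sub_eq_zero] using hu
  · rw [frontier_ball 0 one_ne_zero] at hz
    obtain ⟨u, hu, hzu⟩ := mem_iUnion₂.1 (ht hz)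
    rw [Finset.prod_eq_zero hu, norm_zero]
    rw [h _ (by rw [norm_mul, mem_sphere_zero_iff_norm.1 u.2, mem_sphere_zero_iff_norm.1 hz,
      mul_one]) hzu, sub_self]

theorem cara (F : ℂ ≃ₜ ℂ) : ∃ ψ g : ℂ → ℂ, DifferentiableOn ℂ ψ (ball 0 1) ∧ InjOn ψ (ball 0 1) ∧
    (∀ z ∈ ball (0 : ℂ) 1, F (g z) = ψ z) ∧ ContinuousOn g (closedBall 0 1) ∧
    InjOn g (closedBall 0 1) ∧ g 0 = 0 ∧ g '' ball 0 1 = ball 0 1 ∧
    ∀ z, ‖z‖ = 1 → ‖g z‖ = 1 := by
  set U := F '' ball 0 1 with hU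
  have hUo : IsOpen U := F.isOpenMap _ isOpen_ball
  have hK : IsCompact (F '' closedBall 0 1) := (isCompact_closedBall 0 1).image F.continuous
  have hUb : Bornology.IsBounded U := hK.isBounded.subset (image_mono ball_subset_closedBall)
  have hUs : IsSimplyConnected U := by
    rw [hU, F.isSimplyConnected_image]
    have := (convex_ball (0 : ℂ) 1).contractibleSpace (nonempty_ball.2 one_pos)
    exact SimplyConnectedSpace.ofContractible _
  obtain ⟨G, Gd, Gi, Gim, G0⟩ := riemann hUo hUs hUb (z₀ := F 0) ⟨0, mem_ball_self one_pos, rfl⟩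
  set ψ := Function.invFunOn G U with hψ
  have ψG : ∀ w ∈ U, ψ (G w) = w := fun w hw => Gi.leftInvOn_invFunOn hw
  have hex : ∀ z ∈ ball (0 : ℂ) 1, ∃ w ∈ U, G w = z := fun z hz => by rwa [← Gim] at hz
  have Gψ : ∀ z ∈ ball (0 : ℂ) 1, G (ψ z) = z := fun z hz => Function.invFunOn_eq (hex z hz)
  have ψm : ∀ z ∈ ball (0 : ℂ) 1, ψ z ∈ U := fun z hz => Function.invFunOn_mem (hex z hz)
  have ψd : DifferentiableOn ℂ ψ (ball 0 1) := fun z hz => by
    obtain ⟨w, hw, rfl⟩ := hex z hz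
    exact (inv_analyticAt hUo Gd Gi ψG hw).differentiableAt.differentiableWithinAt
  have ψi : InjOn ψ (ball 0 1) := fun z hz z' hz' h => by rw [← Gψ z hz, h, Gψ z' hz']
  have H : DiscHom (fun z => F.symm (ψ z)) (fun w => G (F w)) := by
    refine ⟨F.symm.continuous.comp_continuousOn ψd.continuousOn,
      Gd.continuousOn.comp F.continuous.continuousOn (mapsTo_image _ _), fun z hz => ?_,
      fun w hw => Gim ▸ mem_image_of_mem _ (mem_image_of_mem _ hw), fun z hz => ?_,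
      fun w hw => ?_, ?_⟩
    · obtain ⟨w, hw, e⟩ := ψm z hz
      simpa [← e] using hw
    · simp [Gψ z hz]
    · simp [ψG _ (mem_image_of_mem _ hw)]
    · have := ψG _ (mem_image_of_mem F (mem_ball_self one_pos))
      rw [G0] at this
      simp [this]
  have hx : Cross (fun z => F.symm (ψ z)) := by
    intro ζ hζ η hη δ hδ
    obtain ⟨ε, hε, hu⟩ := Metric.uniformContinuousOn_iff_le.1
      (hK.uniformContinuousOn_of_continuous F.symm.continuous.continuousOn) η hη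
    obtain ⟨ρ, h1, h2, h3⟩ := exists_crosscut ψd ψi
      (hUb.subset (by rintro _ ⟨z, hz, rfl⟩; exact ψm z hz)) hζ hε hδ
    refine ⟨ρ, h1, h2, fun z hz z' hz' e e' => ?_⟩
    rw [← dist_eq_norm]
    exact hu _ (image_mono ball_subset_closedBall (ψm z hz)) _
      (image_mono ball_subset_closedBall (ψm z' hz')) (by rw [dist_eq_norm]; exact h3 z hz z' hz' e e')
  set g := extendFrom (ball 0 1) (fun z => F.symm (ψ z)) with hg
  have ge : ∀ z ∈ ball (0 : ℂ) 1, g z = F.symm (ψ z) := extendFrom_extends H.hc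
  have Fg : ∀ z ∈ ball (0 : ℂ) 1, F (g z) = ψ z := fun z hz => by simp [ge z hz]
  have g0 : g 0 = 0 := (ge 0 (mem_ball_self one_pos)).trans H.h0
  have gc : ContinuousOn g (closedBall 0 1) := H.ext_cont hx
  have gm : ∀ z ∈ ball (0 : ℂ) 1, ‖g z‖ < 1 := fun z hz => by
    rw [ge z hz]; exact mem_ball_zero_iff.1 (H.hm hz)
  have hnc : ∀ ξ : ℂ, ‖ξ‖ = 1 → ∀ η > 0, ∀ b : ℂ, ‖b‖ = 1 →
      ∃ z : ℂ, ‖z‖ = 1 ∧ ‖z - ξ‖ < η ∧ g z ≠ b := by
    intro ξ hξ η hη b hb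
    by_contra hcon
    push Not at hcon
    have := no_arc (Ψ := fun z => F (g z)) (c := F b) ⟨ψd.congr Fg, by
      rw [closure_ball 0 one_ne_zero]; exact F.continuous.comp_continuousOn gc⟩ hξ hη
      (fun z h1 h2 => by rw [hcon z h1 h2])
    have := F.injective this
    rw [g0] at this
    rw [← this] at hb; simp at hb
  refine ⟨ψ, g, ψd, ψi, Fg, gc, fun z hz z' hz' e => ?_, g0, ?_, fun z hz => H.ext_norm hx hz⟩
  · rcases (mem_closedBall_zero_iff.1 hz).lt_or_eq with h1 | h1 <;>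
      rcases (mem_closedBall_zero_iff.1 hz').lt_or_eq with h2 | h2
    · have m1 := mem_ball_zero_iff.2 h1
      have m2 := mem_ball_zero_iff.2 h2
      exact ψi m1 m2 (by rw [← Fg z m1, e, Fg z' m2])
    · have := gm z (mem_ball_zero_iff.2 h1)
      rw [e, H.ext_norm hx h2] at this; exact absurd this (lt_irrefl _)
    · have := gm z' (mem_ball_zero_iff.2 h2)
      rw [← e, H.ext_norm hx h1] at this; exact absurd this (lt_irrefl _)
    · exact H.ext_inj hx hnc h1 h2 e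
  · refine subset_antisymm ?_ fun w hw => ⟨_, H.km hw, by rw [ge _ (H.km hw)]; exact H.hk w hw⟩
    rintro _ ⟨z, hz, rfl⟩
    exact mem_ball_zero_iff.2 (gm z hz)

end

end Pool.Agent.Lib.MP_069d55_gt
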