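import Pool.Agent.Lib.MP_069d55_gt.Deg

/-! Mapping class groups of planar surfaces and actions on complexes: definitions. -/

namespace Pool.Agent.Lib.MP_069d55_gt

open Set Filter Topology Metric TopologicalSpace Pool.Agent.Lib.MP_1e9af3_an

noncomputable section

/-- `f` preserves the orientation: the image of each positively oriented circle bounding a disc
in `S` winds once positively around the image of the centre. -/
def OrPres {S : Set ℂ} (f : S ≃ₜ S) : Prop :=
  ∀ (p : S) (r : ℝ), 0 < r → Metric.closedBall (p : ℂ) r ⊆ S → ∀ γ : ℝ → S,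
    (∀ t : ℝ, (γ t : ℂ) = p + r * Complex.exp (2 * Real.pi * Complex.I * t)) →
    ∃ L : ℝ → ℂ, Continuous L ∧ (∀ t, Complex.exp (L t) = (f (γ t) : ℂ) - f p) ∧
      L 1 - L 0 = 2 * Real.pi * Complex.I

open Classical in
/-- a map between subsets of the plane as a function on the plane -/
def fn {S T : Set ℂ} (f : S ≃ₜ T) (z : ℂ) : ℂ := if h : z ∈ S then f ⟨z, h⟩ else 0

section
variable {S T U : Set ℂ}

lemma fn_mem (f : S ≃ₜ T) {z : ℂ} (h : z ∈ S) : fn f z = f ⟨z, h⟩ := dif_pos h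
lemma fn_coe (f : S ≃ₜ T) (z : S) : fn f z = f z := dif_pos z.2
lemma fn_maps (f : S ≃ₜ T) {z : ℂ} (h : z ∈ S) : fn f z ∈ T := fn_mem f h ▸ (f ⟨z, h⟩).2

lemma fn_cont (f : S ≃ₜ T) : ContinuousOn (fn f) S := by
  rw [continuousOn_iff_continuous_domRestrict]
  convert continuous_subtype_val.comp f.continuous using 1
  ext z; exact fn_coe f z

lemma fn_inj (f : S ≃ₜ T) : InjOn (fn f) S := fun z hz w hw h => by
  rw [fn_mem f hz, fn_mem f hw] at h
  exact congrArg Subtype.val (f.injective (Subtype.ext h))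

lemma fn_locInj (f : S ≃ₜ T) {p : ℂ} {r : ℝ} (hr : 0 < r) (h : closedBall p r ⊆ S) :
    LocInj (fn f) p r := ⟨hr, (fn_cont f).mono h, (fn_inj f).mono h⟩

lemma exists_locInj (hS : IsOpen S) (f : S ≃ₜ T) {p : ℂ} (hp : p ∈ S) :
    ∃ r, LocInj (fn f) p r :=
  let ⟨r, hr, h⟩ := nhds_basis_closedBall.mem_iff.1 (hS.mem_nhds hp)
  ⟨r, fn_locInj f hr h⟩

/-- local degree one everywhere -/
def OP (f : S ≃ₜ T) : Prop := ∀ p ∈ S, HasDeg (fn f) p 1

lemma OP.trans (hS : IsOpen S) (hT : IsOpen T) {f : S ≃ₜ T} {g : T ≃ₜ U} (hf : OP f) (hg : OP g) :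
    OP (f.trans g) := fun p hp => by
  obtain ⟨r, hr⟩ := exists_locInj hS f hp
  obtain ⟨r', hr'⟩ := exists_locInj hT g (fn_maps f hp)
  refine ((hg _ (fn_maps f hp)).comp (hf p hp) hr hr').congr ?_
  filter_upwards [hS.mem_nhds hp] with z hz
  rw [Function.comp_apply, fn_mem f hz, fn_coe, fn_mem _ hz]; rfl

lemma OP.refl (hS : IsOpen S) : OP (Homeomorph.refl S) := fun p hp => (hasDeg_id p).congr (by
  filter_upwards [hS.mem_nhds hp] with z hz
  rw [fn_mem _ hz]; rfl)

lemma OP.symm (hS : IsOpen S) (hT : IsOpen T) {f : S ≃ₜ T} (hf : OP f) : OP f.symm := by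
  intro q hq
  obtain ⟨p, hp, rfl⟩ : ∃ p ∈ S, fn f p = q :=
    ⟨f.symm ⟨q, hq⟩, (f.symm ⟨q, hq⟩).2, by rw [fn_coe]; simp⟩
  obtain ⟨r, hr⟩ := exists_locInj hS f hp
  obtain ⟨r', hr'⟩ := exists_locInj hT f.symm hq
  have h1 := (hr'.hasDeg.comp (hf p hp) hr hr').congr (G := id) (by
    filter_upwards [hS.mem_nhds hp] with z hz
    rw [Function.comp_apply, fn_mem f hz, fn_coe]; simp)
  have h2 := h1.unique (hasDeg_id p)
  rw [one_mul] at h2
  exact h2 ▸ hr'.hasDeg

lemma hasWind_one_iff {Γ : ℝ → ℂ} (hp : ∀ t, Γ (t + 1) = Γ t) : HasWind Γ 1 ↔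
    ∃ L : ℝ → ℂ, Continuous L ∧ (∀ t, Complex.exp (L t) = Γ t) ∧
      L 1 - L 0 = 2 * Real.pi * Complex.I := by
  constructor
  · rintro ⟨l, hl, he, hs⟩
    refine ⟨fun t => tpi * l t, by fun_prop, he, ?_⟩
    have := hs 0
    rw [zero_add] at this
    simp only [this]; unfold tpi; push_cast; ring
  · rintro ⟨L, hL, he, hs⟩
    have e : ∀ t, ee (L t / tpi) = Γ t := fun t => by rw [← exp_eq_ee, he]
    obtain ⟨k, hk⟩ := lift_step (l := fun t => L t / tpi) (by fun_prop)
      fun t => by rw [e, e, hp]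
    have := hk 0
    rw [zero_add, ← sub_eq_iff_eq_add', ← sub_div, hs, show 2 * Real.pi * Complex.I = tpi from rfl,
      div_self tpi_ne] at this
    exact ⟨_, by fun_prop, e, fun t => by rw [hk, ← this]; simp⟩

lemma orPres_iff (hS : IsOpen S) {f : S ≃ₜ S} : OrPres f ↔ OP f := by
  constructor
  · intro h p hp
    obtain ⟨r, hr, hb⟩ := nhds_basis_closedBall.mem_iff.1 (hS.mem_nhds hp)
    refine (fn_locInj f hr hb).hasDeg_of ((hasWind_one_iff (lp_per _ _ _)).2 ?_)
    obtain ⟨L, h1, h2, h3⟩ := h ⟨p, hp⟩ r hr hb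
      (fun t => ⟨_, hb (circ_mem hr.le le_rfl t)⟩) fun t => rfl
    exact ⟨L, h1, fun t => by rw [h2, lp, fn_mem f hp, fn_mem f (hb (circ_mem hr.le le_rfl t))], h3⟩
  · intro h p r hr hb γ hγ
    obtain ⟨L, h1, h2, h3⟩ := (hasWind_one_iff (lp_per _ _ _)).1
      ((fn_locInj f hr hb).hasWind (h p p.2))
    exact ⟨L, h1, fun t => by rw [h2, lp, fn_coe, ← fn_coe f (γ t), hγ]; rfl, h3⟩

end

/-- The group of orientation preserving homeomorphisms of the open set `S`. -/
def homeoPlus (S : Opens ℂ) : Subgroup ((S : Set ℂ) ≃ₜ (S : Set ℂ)) where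
  carrier := {f | OrPres f}
  one_mem' := (orPres_iff S.2).2 (OP.refl S.2)
  mul_mem' h h' := (orPres_iff S.2).2
    (((orPres_iff S.2).1 h').trans S.2 S.2 ((orPres_iff S.2).1 h))
  inv_mem' h := (orPres_iff S.2).2 (((orPres_iff S.2).1 h).symm S.2 S.2)

/-- `Homeo⁺(S)` as a type of its own. -/
def HomeoP (S : Opens ℂ) : Type := homeoPlus S

instance (S : Opens ℂ) : Group (HomeoP S) := inferInstanceAs (Group (homeoPlus S))

/-- The compact-open topology. -/
instance (S : Opens ℂ) : TopologicalSpace (HomeoP S) :=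
  TopologicalSpace.induced
    (fun f : homeoPlus S => (f.1 : C((S : Set ℂ), (S : Set ℂ)))) ContinuousMap.compactOpen

/-- Isotopy through homeomorphisms. -/
def Isotopic {S : Set ℂ} (f g : S ≃ₜ S) : Prop :=
  ∃ H : unitInterval → S ≃ₜ S, (Continuous fun p : unitInterval × S => H p.1 p.2) ∧
    H 0 = f ∧ H 1 = g

/-- The elements isotopic to the identity. -/
def isoId (S : Opens ℂ) : Subgroup (HomeoP S) where
  carrier := {f | Isotopic 1 f.1}
  one_mem' := ⟨fun _ => 1, continuous_snd, rfl, rfl⟩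
  mul_mem' := by
    rintro f g ⟨H, hc, h0, h1⟩ ⟨H', hc', h0', h1'⟩
    exact ⟨fun t => H t * H' t, hc.comp (continuous_fst.prodMk hc'), by simp [h0, h0'],
      by simp only [h1, h1']; rfl⟩
  inv_mem' := by
    rintro f ⟨H, hc, h0, h1⟩
    exact ⟨fun t => H (unitInterval.symm t) * f.1⁻¹,
      hc.comp ((unitInterval.continuous_symm.comp continuous_fst).prodMk
        (f.1⁻¹.continuous.comp continuous_snd)), by simp [h1], by simp [h0]; rfl⟩

instance (S : Opens ℂ) : (isoId S).Normal where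
  conj_mem := by
    rintro f ⟨H, hc, h0, h1⟩ g
    exact ⟨fun t => g.1 * H t * g.1⁻¹, g.1.continuous.comp (hc.comp (continuous_fst.prodMk
      (g.1⁻¹.continuous.comp continuous_snd))), by simp [h0], by simp only [h1]; rfl⟩

/-- The mapping class group with the quotient topology. -/
abbrev MCG (S : Opens ℂ) : Type := HomeoP S ⧸ isoId S

/-- The 1-skeleton. -/
def skel {V : Type} (K : AbstractSimplicialComplex V) : SimpleGraph V where
  Adj u v := u ≠ v ∧ ∃ s ∈ K.faces, u ∈ s ∧ v ∈ s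
  symm := ⟨fun _ _ ⟨h, s, hs, hu, hv⟩ => ⟨h.symm, s, hs, hv, hu⟩⟩
  loopless := ⟨fun _ h => h.1 rfl⟩

/-- Gromov's four point condition. -/
def Hyperbolic {V : Type} (Γ : SimpleGraph V) : Prop :=
  ∃ δ : ℕ, ∀ x y z w, Γ.dist x y + Γ.dist z w ≤
    max (Γ.dist x z + Γ.dist y w) (Γ.dist x w + Γ.dist y z) + δ

/-- `ρ` is a continuous simplicial action with unbounded orbits on the connected locally finite
complex `K`. -/
structure GoodAction (G : Type) [Group G] [TopologicalSpace G] {V : Type}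
    (K : AbstractSimplicialComplex V) (ρ : G →* Equiv.Perm V) : Prop where
  conn : (skel K).Connected
  locFin : ∀ v, {s ∈ K.faces | v ∈ s}.Finite
  simpl : ∀ g, ∀ s ∈ K.faces, s.map (ρ g).toEmbedding ∈ K.faces
  cont : ∀ v, IsOpen {g | ρ g v = v}
  unbdd : ∀ v (B : ℕ), ∃ g, B < (skel K).dist v (ρ g v)

def Q1 (G : Type) [Group G] [TopologicalSpace G] : Prop :=
  ∃ (V : Type) (K : AbstractSimplicialComplex V) (ρ : G →* Equiv.Perm V), GoodAction G K ρ

def Q2 (G : Type) [Group G] [TopologicalSpace G] : Prop :=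
  ∃ (V : Type) (K : AbstractSimplicialComplex V) (ρ : G →* Equiv.Perm V),
    GoodAction G K ρ ∧ Hyperbolic (skel K)

/-- The sphere minus the closed set `E ∋ ∞`, as an open subset of the plane. -/
def surf (E : Set (OnePoint ℂ)) (hE : IsClosed E) : Opens ℂ :=
  ⟨{z | (z : OnePoint ℂ) ∉ E}, hE.isOpen_compl.preimage OnePoint.continuous_coe⟩

end

end Pool.Agent.Lib.MP_069d55_gt
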