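import Pool.Agent.Lib.MP_069d55_gt.Basic
import Pool.Agent.Lib.MP_1e9af3_an.Wind

/-! Local degree of locally injective continuous maps of the plane. -/

namespace Pool.Agent.Lib.MP_069d55_gt

open Set Filter Topology Metric Pool.Agent.Lib.MP_1e9af3_an

noncomputable section

/-- the image of the circle of radius `r` about `p`, seen from the image of `p`. -/
def lp (F : ℂ → ℂ) (p : ℂ) (r : ℝ) : ℝ → ℂ := fun θ => F (p + r * ee θ) - F p

def LocInj (F : ℂ → ℂ) (p : ℂ) (R : ℝ) : Prop :=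
  0 < R ∧ ContinuousOn F (closedBall p R) ∧ InjOn F (closedBall p R)

def HasDeg (F : ℂ → ℂ) (p : ℂ) (d : ℤ) : Prop := ∀ᶠ r in 𝓝[>] (0 : ℝ), HasWind (lp F p r) d

lemma circ_mem {p : ℂ} {r R : ℝ} (hr : 0 ≤ r) (hR : r ≤ R) (θ : ℝ) :
    p + r * ee θ ∈ closedBall p R := by
  simp [norm_ee_real, abs_of_nonneg hr, hR]

lemma lp_per (F : ℂ → ℂ) (p : ℂ) (r θ : ℝ) : lp F p r (θ + 1) = lp F p r θ := by
  simp [lp, ee_add_one]

lemma LocInj.mono {F : ℂ → ℂ} {p : ℂ} {R r : ℝ} (h : LocInj F p R) (hr : 0 < r) (hR : r ≤ R) :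
    LocInj F p r :=
  ⟨hr, h.2.1.mono (closedBall_subset_closedBall hR), h.2.2.mono (closedBall_subset_closedBall hR)⟩

lemma LocInj.ne {F : ℂ → ℂ} {p : ℂ} {R : ℝ} (h : LocInj F p R) {z : ℂ} (hz : z ≠ 0)
    (hR : ‖z‖ ≤ R) : F (p + z) - F p ≠ 0 := by
  intro h0
  have := h.2.2 (by simpa using hR) (mem_closedBall_self h.1.le) (sub_eq_zero.1 h0)
  exact hz (by simpa using this)

lemma LocInj.lp_ne {F : ℂ → ℂ} {p : ℂ} {R r : ℝ} (h : LocInj F p R) (hr : 0 < r) (hR : r ≤ R)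
    (θ : ℝ) : lp F p r θ ≠ 0 :=
  h.ne (mul_ne_zero (by exact_mod_cast hr.ne') (ee_ne _))
    (by simp [norm_ee_real, abs_of_pos hr, hR])

lemma LocInj.loop {F : ℂ → ℂ} {p : ℂ} {R r : ℝ} (h : LocInj F p R) (hr : 0 < r) (hR : r ≤ R) :
    Loop (lp F p r) := by
  refine ⟨?_, h.lp_ne hr hR, lp_per F p r⟩
  exact (h.2.1.comp_continuous (by fun_prop) (circ_mem hr.le hR)).sub continuous_const

lemma LocInj.wind_eq {F : ℂ → ℂ} {p : ℂ} {R r : ℝ} (h : LocInj F p R) (hr : 0 < r) (hR : r ≤ R) :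
    wind (lp F p r) = wind (lp F p R) := by
  refine wind_homotopy (H := fun r => lp F p r) (S := Ioc 0 R) isPreconnected_Ioc ?_
    (fun t ht => h.lp_ne ht.1 ht.2) (fun t _ => lp_per F p t) ⟨hr, hR⟩ ⟨h.1, le_rfl⟩
  refine ContinuousOn.sub (h.2.1.comp (by fun_prop) fun q hq => ?_) continuousOn_const
  exact circ_mem hq.1.1.le hq.1.2 _

lemma LocInj.hasDeg {F : ℂ → ℂ} {p : ℂ} {R : ℝ} (h : LocInj F p R) :
    HasDeg F p (wind (lp F p R)) := by
  filter_upwards [Ioc_mem_nhdsGT h.1] with r hr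
  rw [← h.wind_eq hr.1 hr.2]
  exact (h.loop hr.1 hr.2).hasWind

lemma HasDeg.unique {F : ℂ → ℂ} {p : ℂ} {d d' : ℤ} (h : HasDeg F p d) (h' : HasDeg F p d') :
    d = d' := by
  obtain ⟨r, h1, h2⟩ := (h.and h').exists
  exact h1.unique h2

lemma LocInj.hasWind {F : ℂ → ℂ} {p : ℂ} {R : ℝ} {d : ℤ} (h : LocInj F p R) (hd : HasDeg F p d) :
    HasWind (lp F p R) d := by
  rw [hd.unique h.hasDeg]; exact (h.loop h.1 le_rfl).hasWind

lemma LocInj.hasDeg_of {F : ℂ → ℂ} {p : ℂ} {R : ℝ} {d : ℤ} (h : LocInj F p R)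
    (hd : HasWind (lp F p R) d) : HasDeg F p d := hd.wind_eq ▸ h.hasDeg

lemma HasDeg.congr {F G : ℂ → ℂ} {p : ℂ} {d : ℤ} (h : HasDeg F p d) (he : F =ᶠ[𝓝 p] G) :
    HasDeg G p d := by
  obtain ⟨ε, hε, hb⟩ := nhds_basis_closedBall.eventually_iff.1 he
  filter_upwards [h, Ioc_mem_nhdsGT hε] with r h1 hr
  refine h1.congr fun θ => ?_
  simp only [lp]
  rw [hb (circ_mem hr.1.le hr.2 θ), hb (mem_closedBall_self hε.le)]

lemma hasDeg_id (p : ℂ) : HasDeg id p 1 := by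
  filter_upwards [self_mem_nhdsWithin] with r hr
  exact (hasWind_circle (c := r) (by exact_mod_cast (ne_of_gt hr))).congr fun θ => by simp [lp]

lemma convex_strip {R : ℝ} (hR : 0 < R) : Convex ℝ {w : ℂ | ‖ee w‖ < R} := by
  convert convex_halfSpace_im_gt (-Real.log R / (2 * Real.pi)) using 3 with w
  rw [norm_ee, ← Real.lt_log_iff_exp_lt hR, div_lt_iff₀ (by positivity)]
  constructor <;> intro h <;> linarith

lemma lift_int {U : Set ℂ} (hU : ∀ w ∈ U, ∀ n : ℤ, w + n ∈ U) {L : ℂ → ℂ} {d : ℂ}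
    (h : ∀ w ∈ U, L (w + 1) = L w + d) (n : ℤ) : ∀ w ∈ U, L (w + n) = L w + n * d := by
  induction n using Int.induction_on with
  | zero => simp
  | succ n ih =>
    intro w hw
    have := h _ (hU w hw n)
    push_cast at ih this ⊢
    rw [← add_assoc, this, ih w hw]; ring
  | pred n ih =>
    intro w hw
    have := h _ (hU w hw (-n - 1))
    push_cast at ih this ⊢
    rw [show w + (-(n : ℂ) - 1) + 1 = w + -n by ring, ih w hw] at this
    linear_combination -this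

lemma LocInj.lift {F : ℂ → ℂ} {p : ℂ} {R : ℝ} {d : ℤ} (h : LocInj F p R) (hd : HasDeg F p d) :
    ∃ L : ℂ → ℂ, ContinuousOn L {w | ‖ee w‖ < R} ∧
      (∀ w, ‖ee w‖ < R → ee (L w) = F (p + ee w) - F p) ∧
      ∀ w, ‖ee w‖ < R → ∀ n : ℤ, L (w + n) = L w + n * d := by
  have hR := h.1
  set w₀ : ℂ := Complex.log ((R / 2 : ℝ) : ℂ) / tpi with hw₀
  have e₀ : ee w₀ = ((R / 2 : ℝ) : ℂ) := ee_log (by exact_mod_cast (half_pos hR).ne')
  have hU : ∀ w, ‖ee w‖ < R → ∀ t : ℝ, ‖ee (w + t)‖ < R := fun w hw t => by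
    rwa [ee_add, norm_mul, norm_ee_real, mul_one]
  have m₀ : ‖ee w₀‖ < R := by
    rw [e₀, Complex.norm_real, Real.norm_of_nonneg (half_pos hR).le]; linarith
  obtain ⟨L, hL, he⟩ := exists_lift (convex_strip hR) (isOpen_lt (by fun_prop) continuous_const)
    ⟨w₀, m₀⟩ (g := fun w => F (p + ee w) - F p)
    (ContinuousOn.sub (h.2.1.comp (by fun_prop) fun w hw => by simpa using le_of_lt hw)
      continuousOn_const) (fun w hw => h.ne (ee_ne w) (le_of_lt hw))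
  have h1 : ∀ w, ‖ee w‖ < R → ‖ee (w + 1)‖ < R := fun w hw => by rwa [ee_add_one]
  have hi : ∀ w, ‖ee w‖ < R → ∃ n : ℤ, L (w + 1) - L w = n := fun w hw => by
    obtain ⟨n, hn⟩ := ee_eq_iff.1 (show ee (L (w + 1)) = ee (L w) by
      rw [he _ (h1 w hw), he _ hw, ee_add_one])
    exact ⟨n, by rw [hn]; ring⟩
  have hconst : ∀ w, ‖ee w‖ < R → L (w + 1) - L w = L (w₀ + 1) - L w₀ := fun w hw =>
    int_const (convex_strip hR).isPreconnected (g := fun w => L (w + 1) - L w)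
      ((hL.comp (by fun_prop) fun w hw => h1 w hw).sub hL) hi hw m₀
  obtain ⟨n, hn⟩ := hi w₀ m₀
  have hw : HasWind (lp F p (R / 2)) n := by
    refine ⟨fun θ => L (w₀ + θ), hL.comp_continuous (by fun_prop) (hU w₀ m₀), fun θ => ?_,
      fun θ => ?_⟩
    · rw [he _ (hU w₀ m₀ θ), ee_add, e₀]; rfl
    · have := hconst _ (hU w₀ m₀ θ)
      push_cast
      rw [← add_assoc]; linear_combination this + hn
  have hnd : n = d := hw.unique ((h.mono (half_pos hR) (by linarith)).hasWind hd)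
  refine ⟨L, hL, he, fun w hw n' => lift_int (U := {w | ‖ee w‖ < R})
    (fun w hw n => by simpa [ee_add_int] using hw) (fun w hw => ?_) n' w hw⟩
  rw [← hnd]; linear_combination hconst w hw + hn

lemma HasDeg.comp {F G : ℂ → ℂ} {p : ℂ} {R R' : ℝ} {d d' : ℤ} (hG : HasDeg G (F p) d')
    (hF : HasDeg F p d) (h : LocInj F p R) (h' : LocInj G (F p) R') :
    HasDeg (G ∘ F) p (d * d') := by
  obtain ⟨L, hL, he, hn⟩ := h'.lift hG
  have hc : ContinuousAt F p := h.2.1.continuousAt (closedBall_mem_nhds p h.1)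
  obtain ⟨ε, hε, hb⟩ := nhds_basis_closedBall.eventually_iff.1
    (hc.eventually (ball_mem_nhds _ h'.1))
  filter_upwards [hF, Ioc_mem_nhdsGT hε] with r ⟨l, hl, hle, hlp⟩ hr
  have hm : ∀ θ, ‖ee (l θ)‖ < R' := fun θ => by
    rw [hle]; simpa [lp, dist_eq_norm] using hb (circ_mem hr.1.le hr.2 θ)
  refine ⟨fun θ => L (l θ), hL.comp_continuous hl hm, fun θ => ?_, fun θ => ?_⟩
  · rw [he _ (hm θ), hle]; simp [lp]
  · simp only [hlp]; rw [hn _ (hm θ)]; push_cast; ring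

lemma locInj_homeo (F : ℂ ≃ₜ ℂ) (p : ℂ) {R : ℝ} (hR : 0 < R) : LocInj F p R :=
  ⟨hR, F.continuous.continuousOn, F.injective.injOn⟩

/-- The degree of a homeomorphism of the plane. -/
def deg (F : ℂ ≃ₜ ℂ) : ℤ := wind (lp F 0 1)

lemma hasDeg_homeo (F : ℂ ≃ₜ ℂ) (p : ℂ) : HasDeg F p (deg F) := by
  have : wind (lp F p 1) = wind (lp F 0 1) :=
    wind_homotopy (H := fun p => lp F p 1) (S := univ) isPreconnected_univ
      (Continuous.continuousOn (by unfold lp; fun_prop))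
      (fun t _ => (locInj_homeo F t one_pos).lp_ne one_pos le_rfl) (fun t _ => lp_per F t 1)
      (mem_univ _) (mem_univ _)
  rw [deg, ← this]; exact (locInj_homeo F p one_pos).hasDeg

lemma deg_mul (F G : ℂ ≃ₜ ℂ) : deg (F * G) = deg G * deg F :=
  (hasDeg_homeo (F * G) 0).unique ((hasDeg_homeo F (G 0)).comp (hasDeg_homeo G 0)
    (locInj_homeo G 0 one_pos) (locInj_homeo F _ one_pos))

lemma deg_one : deg 1 = 1 := (hasDeg_homeo 1 0).unique (hasDeg_id 0)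

lemma deg_inv {F : ℂ ≃ₜ ℂ} (h : deg F = 1) : deg F⁻¹ = 1 := by
  have := deg_mul F⁻¹ F
  rwa [inv_mul_cancel, deg_one, h, one_mul, eq_comm] at this

lemma deg_of_eventually {F : ℂ ≃ₜ ℂ} {p : ℂ} (h : ∀ᶠ z in 𝓝 p, F z = z) : deg F = 1 :=
  ((hasDeg_homeo F p).congr (G := id) h).unique (hasDeg_id p)

lemma Supp.deg {F : ℂ ≃ₜ ℂ} {O : Set ℂ} (h : Supp F O) : deg F = 1 := by
  obtain ⟨K, hK, -, hf⟩ := h
  obtain ⟨p, hp⟩ : (Kᶜ).Nonempty := nonempty_compl.2 hK.ne_univ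
  refine deg_of_eventually (p := p) ?_
  filter_upwards [hK.isClosed.isOpen_compl.mem_nhds hp] with z hz using hf z hz

end

end Pool.Agent.Lib.MP_069d55_gt
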