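import Pool.Agent.Lib.MP_069d55_gt.Cara
import Pool.Agent.Lib.MP_069d55_gt.Deg

/-! The disc theorem: an orientation preserving homeomorphism of the plane agrees on any given
ball with a compactly supported one. -/

namespace Pool.Agent.Lib.MP_069d55_gt

open Set Filter Topology Metric Complex Pool.Agent.Lib.MP_1e9af3_an

noncomputable section

lemma plw_one {a b d : ℝ} (ha : 0 < a) (hab : a ≤ b) (hbd : b ≤ d) (r : ℝ) :
    plw 1 1 1 a b d r = 1 := by
  have e : ∀ t, pl 1 1 1 a b d t = t := by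
    intro t
    simp only [pl, min_def, max_def]
    split_ifs <;> linarith
  unfold plw
  rw [e, div_self (lt_max_of_lt_right ha).ne']

def cut (a η r : ℝ) : ℝ := max 0 (min 1 ((a + η - r) / η))

lemma cut_le {a η r : ℝ} (hη : 0 < η) (hr : r ≤ a) : cut a η r = 1 := by
  unfold cut
  rw [min_eq_left ((one_le_div hη).2 (by linarith)), max_eq_right zero_le_one]

lemma cut_ge {a η r : ℝ} (hη : 0 < η) (hr : a + η ≤ r) : cut a η r = 0 :=
  max_eq_left (min_le_of_right_le (div_nonpos_of_nonpos_of_nonneg (by linarith) hη.le))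

@[fun_prop] lemma continuous_cut (a η : ℝ) : Continuous (cut a η) := by unfold cut; fun_prop

/-- multiplier equal to `l e(θ)` near `0` and to `1` near infinity -/
def sw (l θ R d a η r : ℝ) : ℂ :=
  (plw l 1 ((d - l * R) / (d - R)) R R d r : ℝ) * ee ((θ * cut a η r : ℝ) : ℂ)

lemma sw_le {l θ R d a η r : ℝ} (hR : 0 < R) (hd : R < d) (hη : 0 < η) (h1 : r ≤ R) (h2 : r ≤ a) :
    sw l θ R d a η r = l * ee θ := by
  rw [sw, plw_le hR le_rfl hd.le h1, cut_le hη h2, mul_one]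

lemma sw_ge {l θ R d a η r : ℝ} (hR : 0 < R) (hd : R < d) (hη : 0 < η) (h1 : d ≤ r)
    (h2 : a + η ≤ r) : sw l θ R d a η r = 1 := by
  have : d - R ≠ 0 := by linarith
  rw [sw, plw_ge hR le_rfl hd.le (by field_simp; ring) h1, cut_ge hη h2]; simp [ee_zero]

lemma sw_one {θ R d a η r : ℝ} (hR : 0 < R) (hd : R < d) :
    sw 1 θ R d a η r = ee ((θ * cut a η r : ℝ) : ℂ) := by
  rw [sw, one_mul, div_self (by linarith), plw_one hR le_rfl hd.le]; simp

lemma continuous_sw {T : Type*} [TopologicalSpace T] {l θ r : T → ℝ} {R d a η : ℝ} (hR : 0 < R)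
    (hl : Continuous l) (hθ : Continuous θ) (hr : Continuous r) :
    Continuous fun t => sw (l t) (θ t) R d a η (r t) := by
  unfold sw
  exact (continuous_ofReal.comp (continuous_plw hR hl continuous_const (by fun_prop) hr)).mul
    (by fun_prop)

lemma exists_sw {l R d η : ℝ} (θ a : ℝ) (hl : 0 < l) (hR : 0 < R) (hd : R < d) (hld : l * R < d)
    (hη : 0 < η) : ∃ F : ℂ ≃ₜ ℂ, ∀ z, F z = z * sw l θ R d a η ‖z‖ := by
  have hk : 0 < (d - l * R) / (d - R) := div_pos (by linarith) (by linarith)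
  refine exists_twist (continuous_sw hR continuous_const continuous_const continuous_id)
    (R := max d (a + η)) (fun r hr => sw_ge hR hd hη (le_of_max_le_left hr) (le_of_max_le_right hr))
    ?_
  have : ∀ r, r * ‖sw l θ R d a η r‖ = pl l 1 ((d - l * R) / (d - R)) R R d r := fun r => by
    rw [sw, norm_mul, norm_ee_real, mul_one, norm_real,
      Real.norm_of_nonneg (plw_pos hl one_pos hk hR le_rfl hd.le r).le, mul_plw hR le_rfl hd.le]
  simp only [this]
  exact (pl_strictMono hl one_pos hk le_rfl hd.le).strictMonoOn _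

lemma ee_polar (w : ℂ) : ee w = ‖ee w‖ * ee w.re := by
  conv_lhs => rw [← re_add_im w, ee_add, mul_comm]
  congr 1
  rw [norm_ee, ee, ofReal_exp]; congr 1
  unfold tpi; push_cast; linear_combination (2 * Real.pi * w.im) * I_mul_I

/-- normalised argument -/
def targ (z : ℂ) : ℝ := (log z / tpi).re

lemma polar {z : ℂ} (hz : z ≠ 0) : z = ‖z‖ * ee (targ z) := by
  conv_lhs => rw [← ee_log hz, ee_polar, ee_log hz]
  rfl

lemma targ_ee (w : ℂ) : ∃ n : ℤ, targ (ee w) = w.re + n := by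
  obtain ⟨n, hn⟩ := ee_eq_iff.1 (ee_log (ee_ne w))
  exact ⟨n, by rw [targ, hn]; simp⟩

lemma ee_real_mul {r : ℝ} (hr : 0 < r) (t : ℝ) : ∃ w : ℂ, ee w = r * ee t ∧ w.re = t := by
  refine ⟨(Real.log r : ℂ) / tpi + t, ?_, ?_⟩
  · rw [ee_add, ← exp_eq_ee, ← ofReal_exp, Real.exp_log hr]
  · have : ((Real.log r : ℂ) / tpi) = ((-(Real.log r / (2 * Real.pi)) : ℝ) : ℂ) * I := by
      rw [div_eq_iff tpi_ne]; unfold tpi; push_cast
      have : (Real.pi : ℂ) ≠ 0 := by exact_mod_cast Real.pi_ne_zero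
      field_simp; simp
    rw [this, add_re, re_ofReal_mul]; simp

lemma continuousAt_of_ee {Y : Type*} [TopologicalSpace Y] {G : ℂ → Y} {z : ℂ} (hz : z ≠ 0)
    (h : Continuous fun w => G (ee w)) : ContinuousAt G z := by
  have ho : IsOpenMap ee := isOpenMap_exp.comp (Homeomorph.mulLeft₀ tpi tpi_ne).isOpenMap
  rw [← ee_log hz, ContinuousAt, ← ho.map_nhds_eq continuous_ee.continuousAt]
  exact h.continuousAt

lemma exists_scale {c : ℂ} (hc : c ≠ 0) {R : ℝ} (hR : 0 < R) :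
    ∃ M : ℂ ≃ₜ ℂ, Supp M univ ∧ ∀ z, ‖z‖ ≤ R → M z = c * z := by
  have hn := norm_pos_iff.2 hc
  have hd : R < (‖c‖ + 2) * R := by nlinarith
  obtain ⟨M, hM⟩ := exists_sw (l := ‖c‖) (d := (‖c‖ + 2) * R) (targ c) R hn hR hd (by nlinarith)
    one_pos
  refine ⟨M, ⟨closedBall 0 (max ((‖c‖ + 2) * R) (R + 1)), isCompact_closedBall _ _, subset_univ _,
    fun z hz => ?_⟩, fun z hz => ?_⟩
  · rw [mem_closedBall_zero_iff, not_le, max_lt_iff] at hz
    rw [hM, sw_ge hR hd one_pos hz.1.le hz.2.le, mul_one]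
  · rw [hM, sw_le hR hd one_pos hz hz, ← polar hc, mul_comm]

lemma germ_conformal {ψ : ℂ → ℂ} (ha : AnalyticAt ℂ ψ 0) (h0 : deriv ψ 0 ≠ 0) :
    ∃ k : ℂ ≃ₜ ℂ, Supp k univ ∧ ∀ᶠ z in 𝓝 0, k z = ψ z := by
  set c := deriv ψ 0
  set u : ℂ → ℂ := fun z => (ψ z - ψ 0) / c - z with hu
  have hs : HasStrictDerivAt u 0 0 := by
    have h1 : HasStrictDerivAt (fun z => ψ z - ψ 0) c 0 := ha.hasStrictDerivAt.sub_const (ψ 0)
    have := (h1.div_const c).sub (hasStrictDerivAt_id 0)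
    rw [div_self h0, sub_self] at this
    exact this
  set L := lipschitzExtensionConstant ℂ
  obtain ⟨s, hs0, hl⟩ := hs.hasStrictFDerivAt.exists_lipschitzOnWith_of_nnnorm_lt (L + 1)⁻¹
    (by simp)
  obtain ⟨r, hr, hrs⟩ := nhds_basis_closedBall.mem_iff.1 hs0
  have u0 : u 0 = 0 := by simp [hu]
  have hb : ∀ x ∈ closedBall (0 : ℂ) r, ∀ y : ℂ, 2 * r ≤ ‖y‖ →
      ‖u x‖ ≤ ((L + 1)⁻¹ : NNReal) * dist x y := fun x hx y hy => by
    have := hl.dist_le_mul x (hrs hx) 0 (hrs (mem_closedBall_self hr.le))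
    rw [u0, dist_zero_right, dist_zero_right] at this
    refine this.trans (mul_le_mul_of_nonneg_left ?_ (NNReal.coe_nonneg _))
    rw [mem_closedBall_zero_iff] at hx
    have := norm_sub_norm_le y x
    rw [dist_comm, dist_eq_norm]; linarith
  classical
  have hl' : LipschitzOnWith (L + 1)⁻¹ (fun z => if ‖z‖ ≤ r then u z else 0)
      (closedBall 0 r ∪ {z | 2 * r ≤ ‖z‖}) := by
    refine LipschitzOnWith.of_dist_le_mul fun x hx y hy => ?_
    have hn : ∀ z : ℂ, 2 * r ≤ ‖z‖ → ¬ ‖z‖ ≤ r := fun z hz => by linarith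
    rcases hx with hx | hx <;> rcases hy with hy | hy
    · rw [if_pos (mem_closedBall_zero_iff.1 hx), if_pos (mem_closedBall_zero_iff.1 hy)]
      exact hl.dist_le_mul x (hrs hx) y (hrs hy)
    · rw [if_pos (mem_closedBall_zero_iff.1 hx), if_neg (hn y hy), dist_zero_right]
      exact hb x hx y hy
    · rw [if_pos (mem_closedBall_zero_iff.1 hy), if_neg (hn x hx), dist_comm, dist_zero_right,
        dist_comm]
      exact hb y hy x hx
    · rw [if_neg (hn x hx), if_neg (hn y hy), dist_self]; positivity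
  obtain ⟨v, hv, hve⟩ := hl'.extend_finite_dimension
  obtain ⟨P, hP⟩ := exists_lip hv (by
    rw [← div_eq_mul_inv, div_lt_one (by positivity)]; exact lt_add_one L)
  have hPs : Supp P univ := by
    refine ⟨closedBall 0 (2 * r), isCompact_closedBall _ _, subset_univ _, fun z hz => ?_⟩
    rw [mem_closedBall_zero_iff, not_le] at hz
    rw [hP, ← hve (Or.inr hz.le)]; simp [show ¬ ‖z‖ ≤ r by linarith]
  have hPe : ∀ z, ‖z‖ ≤ r → c * P z = ψ z - ψ 0 := fun z hz => by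
    rw [hP, ← hve (Or.inl (mem_closedBall_zero_iff.2 hz))]
    simp only [if_pos hz, hu]; field_simp; ring
  have P0 : P 0 = 0 := by simpa [h0] using hPe 0 (by simpa using hr.le)
  obtain ⟨M, hMs, hM⟩ := exists_scale h0 one_pos
  obtain ⟨T, hT1, hT2⟩ := exists_transl 0 (ψ 0) (lt_add_one ‖ψ 0‖)
  have hTs : Supp T univ := ⟨closedBall 0 (2 * (‖ψ 0‖ + 1)), isCompact_closedBall _ _,
    subset_univ _, fun z hz => hT1 z (by
      rw [mem_closedBall_zero_iff, not_le] at hz; simpa using hz.le)⟩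
  refine ⟨T * (M * P), hTs.mul (hMs.mul hPs), ?_⟩
  have e1 : ∀ᶠ z in 𝓝 (0 : ℂ), ‖P z‖ < 1 :=
    P.continuous.norm.continuousAt.eventually_lt continuousAt_const (by simp [P0])
  have e2 : ∀ᶠ z in 𝓝 (0 : ℂ), ‖ψ z - ψ 0‖ < 1 :=
    (ha.continuousAt.sub continuousAt_const).norm.eventually_lt continuousAt_const (by simp)
  filter_upwards [e1, e2, closedBall_mem_nhds 0 hr] with z h1 h2 h3
  rw [hmul, hmul, hM _ h1.le, hPe z (mem_closedBall_zero_iff.1 h3), hT2 _ (by
    rw [sub_zero]; linarith [norm_nonneg (ψ 0)])]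
  ring

lemma extend_disc {g : ℂ → ℂ} (h : LocInj g 0 1) (g0 : g 0 = 0) (gb : g '' ball 0 1 = ball 0 1)
    (gs : ∀ z, ‖z‖ = 1 → ‖g z‖ = 1) (hd : HasDeg g 0 1) :
    ∃ K : ℂ ≃ₜ ℂ, Supp K univ ∧ ∀ z, ‖z‖ ≤ 1 → K z = g z := by
  obtain ⟨l, hl, hle, hlp⟩ := h.hasWind hd
  simp only [lp, g0, zero_add, ofReal_one, one_mul, sub_zero] at hle
  set Θ : ℝ → ℝ := fun t => (l t).re with hΘ
  have Θc : Continuous Θ := by rw [hΘ]; fun_prop
  have Θe : ∀ t : ℝ, ee (Θ t) = g (ee t) := fun t => by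
    have := ee_polar (l t)
    rw [hle, gs _ (norm_ee_real t)] at this
    simpa using this.symm
  have Θn : ∀ (t : ℝ) (n : ℤ), Θ (t + n) = Θ t + n := fun t n => by
    have := per_int (Γ := fun t => Θ t - t) (fun t => by simp [hΘ, hlp]) n t
    linarith
  have Θi : Function.Injective Θ := fun s t hst => by
    have h1 : g (ee s) = g (ee t) := by rw [← Θe, ← Θe, hst]
    obtain ⟨n, hn⟩ := ee_eq_iff.1 (h.2.2 (by simp [norm_ee_real]) (by simp [norm_ee_real]) h1)
    have hn' : s = t + n := by exact_mod_cast hn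
    rw [hn', Θn] at hst
    have : (n : ℝ) = 0 := by linarith
    rw [hn', this, add_zero]
  have Θm : StrictMono Θ := by
    rcases Θc.strictMono_of_inj Θi with h | h
    · exact h
    · have := h (show (0 : ℝ) < 0 + (1 : ℤ) by simp)
      rw [Θn] at this; simp at this; linarith
  set c : ℝ → ℝ := fun r => max 0 (min 1 (2 - r)) with hc
  have c0 : ∀ r, 0 ≤ c r := fun r => le_max_left _ _
  have c1 : ∀ r, c r ≤ 1 := fun r => max_le zero_le_one (min_le_left _ _)
  set Φ : ℝ → ℝ → ℝ := fun r t => t + c r * (Θ t - t) with hΦ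
  have Φm : ∀ r, StrictMono (Φ r) := fun r s t hst => by
    have := Θm hst
    simp only [hΦ]
    rcases (c0 r).eq_or_lt with h | h
    · rw [← h]; linarith
    · nlinarith [c1 r, mul_lt_mul_of_pos_left this h]
  have Φn : ∀ (r t : ℝ) (n : ℤ), Φ r (t + n) = Φ r t + n := fun r t n => by
    simp only [hΦ, Θn]; ring
  have Φs : ∀ r, Function.Surjective (Φ r) := fun r s => by
    obtain ⟨n, hn⟩ := exists_nat_ge |s - Φ r 0|
    have hc' : Continuous (Φ r) := by simp only [hΦ]; fun_prop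
    refine intermediate_value_univ (0 + ((-n : ℤ) : ℝ)) (0 + ((n : ℤ) : ℝ)) hc' ?_
    rw [Φn, Φn]; push_cast
    constructor <;> linarith [abs_le.1 hn]
  set G : ℂ → ℂ := fun z => ‖z‖ * ee (Φ ‖z‖ (targ z)) with hG
  have Gee : ∀ w, G (ee w) = ‖ee w‖ * ee (Φ ‖ee w‖ w.re) := fun w => by
    obtain ⟨n, hn⟩ := targ_ee w
    simp only [hG, hn, Φn]; push_cast; rw [ee_add_int]
  have Gc : ∀ z, z ≠ 0 → ContinuousAt G z := fun z hz => by
    refine continuousAt_of_ee hz ?_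
    simp only [Gee, hΦ, hc]; fun_prop
  have Gn : ∀ z, ‖G z‖ = ‖z‖ := fun z => by simp [hG, norm_ee_real]
  have Gg : ∀ z, ‖z‖ = 1 → g z = G z := fun z hz => by
    have hz0 : z ≠ 0 := by rintro rfl; simp at hz
    have : c 1 = 1 := by simp only [hc]; norm_num
    simp only [hG, hz, hΦ, this]
    conv_lhs => rw [polar hz0, hz]
    simp [← Θe]
  have gle : ∀ z, ‖z‖ ≤ 1 → ‖g z‖ ≤ 1 := fun z hz => by
    rcases hz.lt_or_eq with h1 | h1
    · exact (mem_ball_zero_iff.1 (gb ▸ mem_image_of_mem g (mem_ball_zero_iff.2 h1))).le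
    · exact (gs z h1).le
  classical
  have hcl : IsClosed {z : ℂ | ‖z‖ ≤ 1} := isClosed_le continuous_norm continuous_const
  have hfar : ∀ z, z ∉ closedBall (0 : ℂ) 2 → (if ‖z‖ ≤ 1 then g z else G z) = z := by
    intro z hz
    rw [mem_closedBall_zero_iff, not_le] at hz
    have : c ‖z‖ = 0 := max_eq_left (min_le_of_right_le (by linarith))
    rw [if_neg (by linarith)]
    simp only [hG, hΦ, this, zero_mul, add_zero]
    exact (polar (by rintro rfl; norm_num at hz)).symm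
  have hinj : Function.Injective fun z => if ‖z‖ ≤ 1 then g z else G z := by
    intro z z' e
    simp only at e
    split_ifs at e with h1 h2 h2
    · exact h.2.2 (mem_closedBall_zero_iff.2 h1) (mem_closedBall_zero_iff.2 h2) e
    · exact absurd (by rw [← Gn, ← e]; exact gle z h1) h2
    · exact absurd (by rw [← Gn, e]; exact gle z' h2) h1
    · have hn : ‖z‖ = ‖z'‖ := by rw [← Gn, e, Gn]
      have hz : z ≠ 0 := by rintro rfl; simp at h1
      have hz' : z' ≠ 0 := by rintro rfl; simp at h2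
      simp only [hG, hn] at e
      obtain ⟨n, hn'⟩ := ee_eq_iff.1 (mul_left_cancel₀ (by simpa using hz') e)
      have h3 : Φ ‖z'‖ (targ z) = Φ ‖z'‖ (targ z' + n) := by rw [Φn]; exact_mod_cast hn'
      have h4 := (Φm _).injective h3
      calc z = ‖z‖ * ee (targ z) := polar hz
        _ = ‖z'‖ * ee (targ z') := by rw [h4, hn]; push_cast; rw [ee_add_int]
        _ = z' := (polar hz').symm
  have hsurj : Function.Surjective fun z => if ‖z‖ ≤ 1 then g z else G z := by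
    intro y
    rcases lt_or_ge ‖y‖ 1 with h1 | h1
    · obtain ⟨z, hz, rfl⟩ : y ∈ g '' ball 0 1 := gb.symm ▸ mem_ball_zero_iff.2 h1
      exact ⟨z, if_pos (mem_ball_zero_iff.1 hz).le⟩
    · obtain ⟨t, ht⟩ := Φs ‖y‖ (targ y)
      obtain ⟨w, hw, hwt⟩ := ee_real_mul (one_pos.trans_le h1) t
      have hn : ‖ee w‖ = ‖y‖ := by rw [hw]; simp [norm_ee_real]
      have hGy : G (ee w) = y := by
        rw [Gee, hn, hwt, ht]; exact (polar (by rintro rfl; norm_num at h1)).symm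
      refine ⟨ee w, ?_⟩
      simp only
      split_ifs with h2
      · rw [Gg _ (by linarith), hGy]
      · exact hGy
  obtain ⟨K, hK⟩ := exists_homeo (f := fun z => if ‖z‖ ≤ 1 then g z else G z)
    (continuous_if (fun z hz => Gg z (frontier_le_subset_eq continuous_norm continuous_const hz))
      (by rw [hcl.closure_eq]; exact h.2.1.mono fun z hz => mem_closedBall_zero_iff.2 hz)
      (fun z hz => (Gc z (by
        have : 1 ≤ ‖z‖ := closure_lt_subset_le continuous_const continuous_norm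
          (by simpa using hz)
        rintro rfl; norm_num at this)).continuousWithinAt))
    ⟨hinj, hsurj⟩ (isCompact_closedBall 0 2) hfar
  exact ⟨K, ⟨closedBall 0 2, isCompact_closedBall 0 2, subset_univ _, fun z hz =>
    (hK z).trans (hfar z hz)⟩, fun z hz => by rw [hK, if_pos hz]⟩

lemma disc_germ {F : ℂ ≃ₜ ℂ} (hF : deg F = 1) :
    ∃ k : ℂ ≃ₜ ℂ, Supp k univ ∧ ∀ᶠ z in 𝓝 0, k z = F z := by
  obtain ⟨ψ, g, ψd, ψi, Fg, gc, gi, g0, gb, gs⟩ := cara F
  have m0 : (0 : ℂ) ∈ ball (0 : ℂ) 1 := mem_ball_self one_pos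
  obtain ⟨k, hk, hkψ⟩ := germ_conformal (ψd.analyticAt (ball_mem_nhds 0 one_pos))
    (deriv_ne_zero_of_injOn isOpen_ball ψd ψi m0)
  have hd : HasDeg g 0 1 := by
    have := hasDeg_homeo (F⁻¹ * k) 0
    rw [deg_mul, hk.deg, deg_inv hF, mul_one] at this
    refine this.congr ?_
    filter_upwards [hkψ, ball_mem_nhds 0 one_pos] with z h1 h2
    rw [hmul, h1, ← Fg z h2, hinv_apply]
  obtain ⟨K, hK, hKg⟩ := extend_disc ⟨one_pos, gc, gi⟩ g0 gb gs hd
  refine ⟨k * K⁻¹, hk.mul hK.inv, ?_⟩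
  have K0 : K⁻¹ 0 = 0 := hinv_eq (by rw [hKg 0 (by simp), g0])
  have ht : Tendsto (K⁻¹ : ℂ ≃ₜ ℂ) (𝓝 0) (𝓝 0) := by
    have := (K⁻¹ : ℂ ≃ₜ ℂ).continuous.tendsto 0
    rwa [K0] at this
  filter_upwards [ht.eventually (hkψ.and (ball_mem_nhds 0 one_pos))] with w ⟨h1, h2⟩
  rw [hmul, h1, ← Fg _ h2, ← hKg _ (mem_ball_zero_iff.1 h2).le, happly_inv]

/-- A squeeze: identity near `0`, compactly supported, taking a big ball into a small one. -/
lemma exists_squeeze {R ε : ℝ} (hε : 0 < ε) {R' : ℝ} (hR : R < R') (hR' : 0 < R') :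
    ∃ s : ℂ ≃ₜ ℂ, Supp s (ball 0 R') ∧ (∀ᶠ z in 𝓝 0, s z = z) ∧ ∀ z, ‖z‖ ≤ R → ‖s z‖ < ε := by
  set r := (max R 0 + R') / 2 with hr
  have h1 : max R 0 < R' := max_lt hR hR'
  have h2 := le_max_left R 0
  have h3 := le_max_right R 0
  have h4 : 0 < min ε r := lt_min hε (by linarith)
  have h5 := min_le_right ε r
  obtain ⟨s, hs1, hs2, -⟩ := exists_radial (a := min ε r / 2) (r := r) (s := min ε r)
    (d := (r + R') / 2) (by linarith) (by linarith) (by linarith) (by linarith) (by linarith)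
  refine ⟨s, ⟨closedBall 0 ((r + R') / 2), isCompact_closedBall _ _,
    closedBall_subset_ball (by linarith), fun z hz => hs1 z (Or.inr ?_)⟩, ?_, fun z hz => ?_⟩
  · rw [mem_closedBall_zero_iff, not_le] at hz; exact hz.le
  · filter_upwards [closedBall_mem_nhds 0 (half_pos h4)] with z hz
    exact hs1 z (Or.inl (mem_closedBall_zero_iff.1 hz))
  · exact ((hs2 z).2 (by linarith)).trans_le (min_le_left _ _)

theorem disc_ball {F : ℂ ≃ₜ ℂ} (hF : deg F = 1) (R : ℝ) :
    ∃ k : ℂ ≃ₜ ℂ, Supp k univ ∧ ∀ z, ‖z‖ ≤ R → k z = F z := by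
  obtain ⟨k, hk, he⟩ := disc_germ hF
  obtain ⟨ε, hε, hb⟩ := Metric.eventually_nhds_iff_ball.1 he
  obtain ⟨s, hs, -, hs2⟩ := exists_squeeze (R := R) hε (R' := |R| + 1)
    (by linarith [le_abs_self R]) (by positivity)
  refine ⟨F * s⁻¹ * F⁻¹ * (k * s), (hs.inv.conj F).univ.mul (hk.mul hs.univ), fun z hz => ?_⟩
  simp only [hmul]
  rw [hb _ (mem_ball_zero_iff.2 (hs2 z hz)), hinv_apply, hinv_apply]

theorem disc_loc {F : ℂ ≃ₜ ℂ} (hF : deg F = 1) (h0 : F 0 = 0) {ε : ℝ} (hε : 0 < ε) :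
    ∃ k : ℂ ≃ₜ ℂ, Supp k (ball 0 ε) ∧ ∀ᶠ z in 𝓝 0, k z = F z := by
  obtain ⟨k, hk, he⟩ := disc_germ hF
  obtain ⟨R, hR, hkR⟩ := hk.exists_ball 0 0
  obtain ⟨s, -, hs1, hs2⟩ := exists_squeeze (R := R) hε (lt_add_one R) (by linarith)
  refine ⟨s * k * s⁻¹, (hkR.conj s).mono ?_, ?_⟩
  · rintro _ ⟨z, hz, rfl⟩
    exact mem_ball_zero_iff.2 (hs2 z (mem_ball_zero_iff.1 hz.2).le)
  · have ht : Tendsto F (𝓝 0) (𝓝 0) := by
      have := F.continuous.tendsto 0
      rwa [h0] at this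
    filter_upwards [he, hs1, ht.eventually hs1] with z h1 h2 h3
    rw [hmul, hmul, hinv_eq h2, h1, h3]

end

end Pool.Agent.Lib.MP_069d55_gt
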