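import Mathlib

/-! Definitions on end spaces: orbits, stability, the flux and linking conditions. -/

open Set Topology Filter

namespace Pool.Agent.Lib.MP_069d55_gt.K

section ends
variable {X : Type*} [TopologicalSpace X]

/-- The orbit of a point under all self-homeomorphisms. -/
def orb (x : X) : Set X := {y | ∃ φ : X ≃ₜ X, φ x = y}

/-- Stable space (Mann and Rafi): every point has a clopen neighbourhood with a clopen copy in
every neighbourhood of the point. -/
def Stable (X : Type*) [TopologicalSpace X] : Prop :=
  ∀ x : X, ∃ U : Set X, IsClopen U ∧ x ∈ U ∧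
    ∀ W ∈ 𝓝 x, ∃ U' : Set X, U' ⊆ W ∧ IsClopen U' ∧ Nonempty (U ≃ₜ U')

/-- Points with finite orbit. -/
def finOrb (X : Type*) [TopologicalSpace X] : Set X := {x | (orb x).Finite}

/-- Points with finite orbit that are the only accumulation point of some infinite orbit. -/
def finOrbPlus (X : Type*) [TopologicalSpace X] : Set X :=
  {y | (orb y).Finite ∧ ∃ x : X, (orb x).Infinite ∧ derivedSet (orb x) = {y}}

/-- Flux condition: an infinite orbit containing none of its accumulation points, and a clopen set
splitting its accumulation set into two nonempty parts not both met by any infinite orbit. -/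
def Flux (X : Type*) [TopologicalSpace X] : Prop :=
  ∃ x : X, (orb x).Infinite ∧ Disjoint (orb x) (derivedSet (orb x)) ∧
    ∃ A : Set X, IsClopen A ∧ (derivedSet (orb x) ∩ A).Nonempty ∧
      (derivedSet (orb x) \ A).Nonempty ∧
      ∀ z : X, (orb z).Infinite → ¬ ((orb z ∩ (derivedSet (orb x) ∩ A)).Nonempty ∧
        (orb z ∩ (derivedSet (orb x) \ A)).Nonempty)

/-- Linking condition. -/
def Link (X : Type*) [TopologicalSpace X] : Prop :=
  4 ≤ (finOrb X).encard + (finOrbPlus X).encard

end ends

end Pool.Agent.Lib.MP_069d55_gt.K
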