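import Pool.Agent.Lib.MP_069d55_gt.Kill

/-! Truncation at infinity; one and two top points. -/

namespace Pool.Agent.Lib.MP_069d55_gt

open Set Filter Topology Metric

noncomputable section

variable {X : Set ℂ} {α : Ordinal.{0}} {F G a b g : ℂ ≃ₜ ℂ}
variable {W : Type*} {φ : (ℂ ≃ₜ ℂ) → Equiv.Perm W} {v : W}

lemma compact_ball0 (hX : IsClosed X) {r : ℝ} (h : ∀ z ∈ X, ‖z‖ ≠ r) : IsCompact (X ∩ ball 0 r) :=
  compact_inter_ball hX (by simpa using h)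

lemma compact_rest (hX : IsClosed X) (hF : Pres F X) {R R₂ : ℝ} (mR : ∀ z ∈ X, ‖z‖ ≠ R)
    (mR₂ : ∀ z ∈ X, ‖z‖ ≠ R₂) : IsCompact (X ∩ (ball 0 R₂ \ F '' closedBall 0 R)) := by
  convert (compact_ball0 hX mR₂).diff (F.isOpenMap _ (isOpen_ball (x := 0) (ε := R))) using 1
  ext w; obtain ⟨z, rfl⟩ := F.surjective w
  simp only [mem_inter_iff, Set.mem_sdiff, apply_mem_image, mem_ball_zero_iff,
    mem_closedBall_zero_iff, hF z, not_le, not_lt]
  exact ⟨fun h => ⟨⟨h.1, h.2.1⟩, h.2.2.le⟩,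
    fun h => ⟨h.1.1, h.1.2, lt_of_le_of_ne h.2 (mR z h.1.1).symm⟩⟩

lemma trunc (hX : IsClosed X) (hc : X.Countable) (hF : F ∈ gp X) {R : ℝ} (hR : 0 < R)
    (mR : ∀ z ∈ X, ‖z‖ ≠ R)
    (hy : ∀ R₂, R < R₂ → F '' closedBall 0 R ⊆ ball 0 R₂ → (∀ z ∈ X, ‖z‖ ≠ R₂) →
      ∃ y : ℂ, R₂ < ‖y‖ ∧ ∀ β, y ∉ D X (β + 1) → (D (X ∩ ann 0 R R₂) β).encard =
        (D (X ∩ (ball 0 R₂ \ F '' closedBall 0 R)) β).encard) :
    ∃ a ∈ gc X, ∀ z, ‖z‖ ≤ R → a z = F z := by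
  obtain ⟨k, hk, hkF⟩ := disc_ball hF.1 R
  obtain ⟨R₁, hR₁, hk₁⟩ := hk.exists_ball 0 R
  obtain ⟨R₂, a0, -, mR₂⟩ := exists_radius0 hc (lt_add_one R₁)
  have hk₂ : Supp k (ball 0 R₂) := hk₁.mono fun z hz => ball_subset_ball a0.le hz.2
  have him : k '' closedBall 0 R = F '' closedBall 0 R :=
    image_congr fun z hz => hkF z (mem_closedBall_zero_iff.1 hz)
  have hsub : F '' closedBall 0 R ⊆ ball 0 R₂ := by
    rw [← him, ← hk₂.image_eq]; exact image_mono (closedBall_subset_ball (hR₁.trans a0))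
  obtain ⟨y, hy1, hy2⟩ := hy R₂ (hR₁.trans a0) hsub mR₂
  obtain ⟨R₃, b0, -, mR₃⟩ := exists_radius0 hc (lt_add_one ‖y‖)
  have h23 : R₂ < R₃ := hy1.trans b0
  have hk₃ : Supp k (ball 0 R₃) := hk₂.mono (ball_subset_ball h23.le)
  have hY := compact_ann0 hX mR₂ mR₃
  have hP := compact_ann0 hX mR mR₂
  have hQ := compact_rest hX hF.2 mR mR₂
  have i1 : k '' X ∩ k '' ann 0 R R₃ = k '' (X ∩ ann 0 R R₃) :=
    (image_inter k.injective).symm
  have i2 : X ∩ k '' ann 0 R R₃ =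
      X ∩ ann 0 R₂ R₃ ∪ X ∩ (ball 0 R₂ \ F '' closedBall 0 R) := by
    rw [← him]
    ext w; obtain ⟨z, rfl⟩ := k.surjective w
    have e2 := hk₂.mem_iff z
    have e3 := hk₃.mem_iff z
    simp only [mem_inter_iff, mem_union, Set.mem_sdiff, apply_mem_image, mem_ball_zero_iff,
      mem_closedBall_zero_iff, not_le, mem_ann0] at e2 e3 ⊢
    constructor
    · rintro ⟨h1, h2, h3⟩
      rcases lt_or_gt_of_ne (mR₂ _ h1) with h | h
      exacts [Or.inr ⟨h1, h, h2⟩, Or.inl ⟨h1, h, e3.2 h3⟩]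
    · rintro (⟨h1, h2, h3⟩ | ⟨h1, h2, h3⟩)
      · exact ⟨h1, (hR₁.trans a0).trans_le (not_lt.1 fun h => lt_asymm h2 (e2.2 h)), e3.1 h3⟩
      · exact ⟨h1, h3, (e2.1 h2).trans h23⟩
  obtain ⟨H, sH, eH⟩ := tame_fix (k.isOpenMap _ (isOpen_ann 0 R R₃))
    ((preconn_ann' 0 hR.le R₃).image k k.continuous.continuousOn) (hc.image k) hc
    (i1 ▸ (compact_ann0 hX mR mR₃).image k.continuous) (i2 ▸ hY.union hQ) (by
      rw [i1, i2]
      refine (ty_image _ _).trans ?_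
      rw [ann_split (hR₁.trans a0) h23 mR₂, union_comm]
      refine ty_union_of hY.isClosed hP.isClosed hQ.isClosed ann_disj.symm
        (disjoint_left.2 fun z h h' => lt_asymm (mem_ann0.1 h.2).1 (mem_ball_zero_iff.1 h'.2.1))
        fun β hβ => hy2 β fun h => ?_
      rw [D_inter_open (isOpen_ann _ _ _)] at hβ
      exact (hβ ▸ ⟨h, mem_ann0.2 ⟨hy1, b0⟩⟩ : y ∈ (∅ : Set ℂ)))
  have hin : ∀ z, ‖z‖ ≤ R → (H * k) z = F z := fun z hz => by
    rw [hmul, sH.fix (by rw [apply_mem_image, mem_ann0]; exact fun h => h.1.not_ge hz), hkF z hz]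
  refine ⟨H * k, ⟨sH.univ.mul hk, fun z => ?_⟩, hin⟩
  by_cases c : z ∈ ann 0 R R₃
  · rw [hmul, eH _ (mem_image_of_mem _ c), apply_mem_image]
  · rcases le_or_gt ‖z‖ R with h | h
    · rw [hin z h, hF.2]
    · rw [hmul, sH.fix (by rwa [apply_mem_image]),
        hk₃.fix fun h' => c (mem_ann0.2 ⟨h, mem_ball_zero_iff.1 h'⟩)]

lemma trunc_ns (hX : IsClosed X) (hc : X.Countable) (hα : NS α)
    (far : ∀ R, Rich X α {z | R < ‖z‖}) (hF : F ∈ gp X) {R : ℝ} (hR : 0 < R)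
    (mR : ∀ z ∈ X, ‖z‖ ≠ R) (ht : D X α ⊆ ball 0 R) :
    ∃ a ∈ gc X, ∀ z, ‖z‖ ≤ R → a z = F z := by
  refine trunc hX hc hF hR mR fun R₂ h1 h2 mR₂ => ?_
  have hP := compact_ann0 hX mR mR₂
  have hQ := compact_rest hX hF.2 mR mR₂
  obtain ⟨y, hy, d⟩ := exists_dom hα (far R₂) (far_nonempty R₂) (hP.union hQ) (by
    rw [D_union hP.isClosed hQ.isClosed, union_empty_iff]
    constructor <;> refine eq_empty_of_forall_notMem fun z hz => ?_
    · exact lt_asymm (mem_ball_zero_iff.1 (ht (D_mono inter_subset_left hz)))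
        (mem_ann0.1 (D_sub hz).2).1
    · exact (D_sub hz).2.2 (mem_image_h.2 (ball_subset_closedBall
        (ht (((hF.2.D α).inv z).2 (D_mono inter_subset_left hz))))))
  exact ⟨y, hy, fun β hβ => by rw [d.mono subset_union_left β hβ, d.mono subset_union_right β hβ]⟩

lemma trunc_one (hX : IsClosed X) (hc : X.Countable) (ht : D X α = ∅)
    (far : ∀ R, Rich X α {z | R < ‖z‖}) (hF : F ∈ gp X) {R : ℝ} (hR : 0 < R)
    (mR : ∀ z ∈ X, ‖z‖ ≠ R) : ∃ a ∈ gc X, ∀ z, ‖z‖ ≤ R → a z = F z := by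
  refine trunc hX hc hF hR mR fun R₂ h1 h2 mR₂ => ?_
  have hP := compact_ann0 hX mR mR₂
  have hQ := compact_rest hX hF.2 mR mR₂
  have hZ := compact_ball0 hX mR₂
  have hB := compact_ball0 hX mR
  obtain ⟨y, hy, hfin⟩ : ∃ y : ℂ, R₂ < ‖y‖ ∧ ∀ β, y ∉ D X (β + 1) →
      D (X ∩ ball 0 R₂) (β + 1) = ∅ := by
    rcases (X ∩ ball 0 R₂).eq_empty_or_nonempty with h | h
    · obtain ⟨y, hy⟩ := far_nonempty R₂
      exact ⟨y, hy, fun β _ => by rw [h, D_empty]⟩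
    · obtain ⟨β, hβ, -, h'⟩ := exists_type hZ h (D_empty_of_subset ht inter_subset_left)
      obtain ⟨y, hy, -, hy'⟩ := far R₂ β hβ ∅ isCompact_empty (empty_subset _)
      refine ⟨y, hy, fun γ hγ => D_empty_of_le h' (add_le_add_left ?_ 1)⟩
      by_contra hlt
      exact hγ (D_anti (Order.add_one_le_of_lt (not_le.1 hlt)) hy')
  refine ⟨y, hy, fun β hβ => ?_⟩
  have e1 : X ∩ ball 0 R₂ = X ∩ ball 0 R ∪ X ∩ ann 0 R R₂ := by
    ext z
    simp only [mem_inter_iff, mem_union, mem_ann0, mem_ball_zero_iff]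
    constructor
    · rintro ⟨h, h'⟩
      rcases lt_or_gt_of_ne (mR z h) with c | c
      exacts [Or.inl ⟨h, c⟩, Or.inr ⟨h, c, h'⟩]
    · rintro (⟨h, h'⟩ | ⟨h, -, h'⟩)
      exacts [⟨h, h'.trans h1⟩, ⟨h, h'⟩]
  have e2 : X ∩ ball 0 R₂ = F '' (X ∩ ball 0 R) ∪ X ∩ (ball 0 R₂ \ F '' closedBall 0 R) := by
    ext w; obtain ⟨z, rfl⟩ := F.surjective w
    simp only [mem_inter_iff, mem_union, Set.mem_sdiff, apply_mem_image, hF.2 z,
      mem_closedBall_zero_iff, not_le]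
    constructor
    · rintro ⟨h, h'⟩
      rcases lt_or_gt_of_ne (mR z h) with c | c
      exacts [Or.inl ⟨h, mem_ball_zero_iff.2 c⟩, Or.inr ⟨h, h', c⟩]
    · rintro (⟨h, h'⟩ | ⟨h, h', -⟩)
      exacts [⟨h, h2 (mem_image_of_mem _ (ball_subset_closedBall h'))⟩, ⟨h, h'⟩]
  have f1 := encard_D_union hB.isClosed hP.isClosed (disjoint_left.2 fun z h h' =>
    lt_asymm (mem_ball_zero_iff.1 h.2) (mem_ann0.1 h'.2).1) β
  have f2 := encard_D_union (hB.image F.continuous).isClosed hQ.isClosed (disjoint_left.2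
    fun z h h' => h'.2.2 (image_mono (inter_subset_right.trans ball_subset_closedBall) h)) β
  rw [← e2, ty_image F _ β] at f2
  rw [← e1, f2] at f1
  refine (WithTop.add_left_cancel ?_ f1).symm
  exact (finite_D hB (D_empty_of_subset (hfin β hβ)
    (inter_subset_inter_right _ (ball_subset_ball h1.le)))).encard_lt_top.ne

lemma isOpen_far (R : ℝ) : IsOpen {z : ℂ | R < ‖z‖} := isOpen_lt continuous_const continuous_norm

lemma preconn_far {R : ℝ} (hR : 0 ≤ R) : IsPreconnected {z : ℂ | R < ‖z‖} := by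
  simpa using preconn_ann 0 (S := Ioi R) isPreconnected_Ioi fun _ h => hR.trans (le_of_lt h)

lemma move_far (hX : IsClosed X) (hc : X.Countable) (ht : D X α = ∅)
    (far : ∀ R, Rich X α {z | R < ‖z‖}) {O : Set ℂ} (hO : IsOpen O) (hOc : IsPreconnected O)
    (hXO : IsClosed (X ∩ O)) {R₀ : ℝ} (hR₀ : {z | R₀ < ‖z‖} ⊆ O) (g : ℂ ≃ₜ ℂ) {r r' : ℝ}
    (hr : 0 < r) (hrr : r < r') (hg : g '' ball 0 r' ⊆ O) (mr : ∀ z, ‖z‖ = r → g z ∉ X)
    (R₁ : ℝ) : ∃ σ : ℂ ≃ₜ ℂ, Supp σ O ∧ Pres σ X ∧ ∀ z, ‖z‖ ≤ r → R₁ < ‖σ (g z)‖ := by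
  have hgc : IsCompact (g '' closedBall 0 r) := (isCompact_closedBall 0 r).image g.continuous
  obtain ⟨R₂, hR₂, hgb⟩ := hgc.isBounded.subset_ball_lt (max (max R₀ R₁) 0) 0
  simp only [max_lt_iff] at hR₂
  set N := {z : ℂ | R₂ < ‖z‖} with hN
  have hNO : N ⊆ O := fun z hz => hR₀ (hR₂.1.1.trans hz)
  have eV : X ∩ g '' closedBall 0 r = X ∩ g '' ball 0 r := by
    ext w; obtain ⟨z, rfl⟩ := g.surjective w
    simp only [mem_inter_iff, apply_mem_image, mem_closedBall_zero_iff, mem_ball_zero_iff]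
    exact and_congr_right fun h => ⟨fun h' => lt_of_le_of_ne h' fun e => mr z e h, le_of_lt⟩
  set V := X ∩ g '' ball 0 r with hV
  have cV : IsCompact V := eV ▸ hgc.inter_left hX
  have lV : Clop X V := clop_of_open hX (g.isOpenMap _ isOpen_ball) cV
  obtain ⟨U, lU, hUN, hUV⟩ := subclop hX hc (isOpen_far R₂) (far R₂) cV
    (D_empty_of_subset ht inter_subset_left)
  obtain ⟨p, hp⟩ := nonempty_diff (isOpen_far R₂) (far_nonempty R₂) hc
  obtain ⟨η, hη, hηb⟩ := Metric.isOpen_iff.1 ((isOpen_far R₂).sdiff hX) p hp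
  obtain ⟨μ, sμ, eμ⟩ := exists_move hO hOc (hg (mem_image_of_mem g (mem_ball_self (hr.trans hrr))))
    (hNO hp.1)
  obtain ⟨δ, hδ, hδb⟩ := Metric.eventually_nhds_iff_ball.1
    ((μ * g).continuous.continuousAt.eventually (ball_mem_nhds ((μ * g) 0) hη))
  obtain ⟨s, ss, -, hs⟩ := exists_squeeze hδ hrr (hr.trans hrr)
  set τ := μ * (g * s * g⁻¹) with hτ
  have sτ : Supp τ O := sμ.mul ((ss.conj g).mono hg)
  have hT : ∀ z, ‖z‖ ≤ r → τ (g z) ∈ N \ X := fun z hz => by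
    apply hηb
    have := hδb (s z) (mem_ball_zero_iff.2 (hs z hz))
    simp only [hmul, eμ] at this
    simpa only [hτ, hmul, hinv_apply, mem_ball] using this
  set T := (τ * g : ℂ ≃ₜ ℂ) '' closedBall 0 r with hTd
  have hT' : T ⊆ N \ X := by
    rintro _ ⟨z, hz, rfl⟩; exact hT z (mem_closedBall_zero_iff.1 hz)
  have cT : IsCompact T := (isCompact_closedBall 0 r).image (τ * g).continuous
  have hVT : τ '' V ⊆ T := by
    rw [hTd, image_hmul τ g]
    exact image_mono (inter_subset_right.trans (image_mono ball_subset_closedBall))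
  obtain ⟨H, sH, eH⟩ := tame ((isOpen_far R₂).sdiff lU.2.2)
    (preconn_diff (isOpen_far R₂) (preconn_far hR₂.2.le) (hc.mono sdiff_subset))
    ⟨lU.2.1, hc.mono lU.1, fun z hz => ⟨hUN hz, fun h => h.2 hz⟩⟩
    ⟨cV.image τ.continuous, (hc.mono lV.1).image _,
      fun z hz => ⟨(hT' (hVT hz)).1, fun h => (hT' (hVT hz)).2 h.1⟩⟩
    (hUV.trans (ty_image τ V).symm)
  obtain ⟨R₃', hR₃', sτ'⟩ := sτ.exists_ball 0 R₂
  obtain ⟨R₄, hR₄, hU₄⟩ := lU.2.1.isBounded.subset_ball_lt R₃' 0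
  obtain ⟨R₃, c0, -, mR₃⟩ := exists_radius0 hc (lt_add_one R₄)
  have sτ₃ : Supp τ (O ∩ ball 0 R₃) :=
    sτ'.mono (inter_subset_inter_right _ (ball_subset_ball (hR₄.trans c0).le))
  set M := X ∩ (O ∩ ball 0 R₃) with hM
  have cM : IsCompact M := by
    rw [hM, ← inter_assoc]; exact compact_ball0 hXO fun z hz => mR₃ z hz.1
  have lM : Clop X M := clop_of_open hX (hO.inter isOpen_ball) cM
  have hUM : U ⊆ M := fun z hz => ⟨lU.1 hz, hNO (hUN hz), ball_subset_ball c0.le (hU₄ hz)⟩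
  have hVb : V ⊆ ball 0 R₂ := fun z hz => hgb (eV.symm ▸ hz : z ∈ X ∩ _).2
  have hVM : V ⊆ M := fun z hz => ⟨hz.1, hg (image_mono (ball_subset_ball hrr.le) hz.2),
    ball_subset_ball ((hR₃'.trans hR₄).trans c0).le (hVb hz)⟩
  have hUV' : Disjoint U V := disjoint_left.2 fun z h h' =>
    lt_asymm (hUN h) (mem_ball_zero_iff.1 (hVb h'))
  have cd : ∀ Z, Clop X Z → IsCompact (M \ Z) := fun Z hZ => by
    convert cM.inter_left hZ.2.2 using 1
    ext z; simp only [Set.mem_sdiff, mem_inter_iff, hM]; tauto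
  have hOT : IsPreconnected (O \ T) := by
    refine preconn_diff_collar hOc cT.isClosed ((τ * g).isOpenMap _ (isOpen_ball (x := 0) (ε := r')))
      (image_mono (closedBall_subset_ball hrr)) ?_ ?_
    · rw [image_hmul τ g, ← sτ.image_eq]; exact image_mono hg
    · rw [hTd, ← image_sdiff (τ * g).injective]
      refine IsPreconnected.image ?_ _ (τ * g).continuous.continuousOn
      convert preconn_ann' 0 hr.le r' using 1
      ext z; simp [mem_ann0, and_comm]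
  obtain ⟨κ, sκ, eκ⟩ := tame ((hO.sdiff cT.isClosed).sdiff lM.2.2)
    (preconn_diff (hO.sdiff cT.isClosed) hOT (hc.mono sdiff_subset))
    (A := τ '' (M \ V)) (B := M \ U)
    ⟨(cd V lV).image τ.continuous, (hc.mono fun z hz => hz.1.1).image _, by
      rintro _ ⟨z, hz, rfl⟩
      refine ⟨⟨(sτ.mem_iff z).2 hz.1.2.1, fun h => ?_⟩,
        fun h => h.2 ⟨h.1, (sτ₃.mem_iff z).2 hz.1.2⟩⟩
      rw [hTd, image_hmul τ g, apply_mem_image] at h
      exact hz.2 (eV ▸ ⟨hz.1.1, h⟩)⟩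
    ⟨cd U lU, hc.mono fun z hz => hz.1.1, fun z hz =>
      ⟨⟨hz.1.2.1, fun h => (hT' h).2 hz.1.1⟩, fun h => h.2 hz.1⟩⟩ (by
      refine (ty_image _ _).trans ?_
      have e1 : M \ V = M \ (U ∪ V) ∪ U := by
        ext z; simp only [Set.mem_sdiff, mem_union]
        have := @hUM z; have := fun h => disjoint_left.1 hUV' (show z ∈ U from h); tauto
      have e2 : M \ U = M \ (U ∪ V) ∪ V := by
        ext z; simp only [Set.mem_sdiff, mem_union]
        have := @hVM z; have := fun h => disjoint_left.1 hUV' (show z ∈ U from h); tauto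
      have cW := (cd _ (lU.union lV)).isClosed
      rw [e1, e2]
      exact (Ty.refl _).union hUV cW lU.2.1.isClosed cW cV.isClosed
        (disjoint_left.2 fun z h h' => h.2 (Or.inl h')) (disjoint_left.2 fun z h h' => h.2 (Or.inr h')))
  refine ⟨H⁻¹ * (κ * τ), (sH.inv.mono (sdiff_subset.trans hNO)).mul
    ((sκ.mono (sdiff_subset.trans sdiff_subset)).mul sτ), pres_of_image ?_, fun z hz => ?_⟩
  · have e1 : X = X \ M ∪ V ∪ M \ V := by
      ext z; simp only [Set.mem_sdiff, mem_union]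
      have := @hVM z; have := @lM.1 z; tauto
    have e2 : X \ M ∪ τ '' V ∪ M \ U = X \ U ∪ τ '' V := by
      ext z; simp only [Set.mem_sdiff, mem_union]
      have := @hUM z; have := @lM.1 z; tauto
    have f1 : τ '' X = X \ M ∪ τ '' V ∪ τ '' (M \ V) := by
      conv_lhs => rw [e1]
      rw [image_union, image_union, sτ₃.image_of_disjoint (A := X \ M) fun z hz h => hz.2 ⟨hz.1, h⟩]
    have f2 : κ '' (τ '' X) = X \ U ∪ τ '' V := by
      rw [f1, image_union, eκ, image_union, sκ.image_of_disjoint (A := X \ M) fun z hz h => h.2 hz,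
        sκ.image_of_disjoint (A := τ '' V) fun z hz h => h.1.2 (hVT hz), e2]
    have f3 : H '' X = X \ U ∪ τ '' V := by
      conv_lhs => rw [← sdiff_union_of_subset lU.1]
      rw [image_union, sH.image_of_disjoint (A := X \ U) fun z hz h => h.2 hz, eH]
    rw [image_hmul H⁻¹, image_hmul κ τ, f2]
    exact image_hinv f3
  · have h1 : τ (g z) ∈ T := ⟨z, mem_closedBall_zero_iff.2 hz, rfl⟩
    rw [hmul, hmul, sκ.fix fun h => h.1.2 h1]
    exact hR₂.1.2.trans (((sH.inv.mono sdiff_subset).mem_iff _).2 (hT' h1).1)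

/-- elements supported near infinity fix a given point -/
def Far (X : Set ℂ) {W : Type*} (φ : (ℂ ≃ₜ ℂ) → Equiv.Perm W) : Prop :=
  ∀ v, ∃ R, ∀ a ∈ gc X, Supp a {z | R < ‖z‖} → φ a v = v

lemma comm_one (hX : IsClosed X) (hc : X.Countable) (ht : D X α = ∅)
    (far : ∀ R, Rich X α {z | R < ‖z‖}) (h : Act (gc X) φ) (hs : Far X φ) (ha : a ∈ gc X)
    (hb : b ∈ gc X) : φ a * φ b = φ b * φ a := by
  ext1 v
  obtain ⟨R', hv⟩ := hs v
  obtain ⟨R, hR, -, mR⟩ := exists_radius0 hc (lt_add_one (max R' 0))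
  rw [max_lt_iff] at hR
  obtain ⟨r₁, h1, sa⟩ := ha.1.exists_ball 0 0
  obtain ⟨r₂, h2, sb⟩ := hb.1.exists_ball 0 r₁
  obtain ⟨r, h3, -, mr⟩ := exists_radius0 hc (lt_add_one r₂)
  obtain ⟨r', h4, -, mr'⟩ := exists_radius0 hc (lt_add_one r)
  have hr : 0 < r := h1.trans (h2.trans h3)
  have sa' : Supp a (ball 0 r) := sa.mono fun z hz => ball_subset_ball (h2.trans h3).le hz.2
  have sb' : Supp b (ball 0 r) := sb.mono fun z hz => ball_subset_ball h3.le hz.2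
  obtain ⟨g, sg, pg, hg⟩ := move_far hX hc ht far isOpen_univ isPreconnected_univ (by simpa)
    (R₀ := 0) (subset_univ _) 1 (hr.trans h4) (lt_add_one r') (subset_univ _)
    (fun z hz h => mr' z h hz) R
  have hgO : g '' ball 0 r' ⊆ {z | R < ‖z‖} := by
    rintro _ ⟨z, hz, rfl⟩; exact hg z (mem_ball_zero_iff.1 hz).le
  have hXO : IsClosed (X ∩ {z | R < ‖z‖}) := by
    convert hX.inter (isClosed_le continuous_const continuous_norm (f := fun _ => R)) using 1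
    ext z; simp only [mem_inter_iff, mem_ofPred_eq]
    exact and_congr_right fun h => ⟨le_of_lt, fun h' => lt_of_le_of_ne h' (mR z h).symm⟩
  have key : ∀ R₁, ∃ σ : ℂ ≃ₜ ℂ, ∃ R₂, Supp σ {z | R < ‖z‖} ∧ Pres σ X ∧
      ∀ w ∈ σ '' (g '' ball 0 r), R₁ < ‖w‖ ∧ ‖w‖ < R₂ := fun R₁ => by
    obtain ⟨σ, s1, s2, s3⟩ := move_far hX hc ht far (isOpen_far R) (preconn_far hR.2.le) hXO
      subset_rfl g hr h4 hgO (fun z hz h => mr z ((pg z).1 h) hz) R₁
    obtain ⟨R₂, hR₂⟩ := ((isCompact_closedBall (0 : ℂ) r).image (σ * g).continuous).isBounded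
      |>.subset_ball 0
    refine ⟨σ, R₂, s1, s2, ?_⟩
    rintro _ ⟨_, ⟨z, hz, rfl⟩, rfl⟩
    exact ⟨s3 z (mem_ball_zero_iff.1 hz).le,
      mem_ball_zero_iff.1 (hR₂ ⟨z, ball_subset_closedBall hz, rfl⟩)⟩
  choose σ nx k1 k2 k3 using key
  set ρ : ℕ → ℝ := fun n => nx^[n] 0 with hρ
  have ρs : ∀ n, ρ (n + 1) = nx (ρ n) := fun n => Function.iterate_succ_apply' _ _ _
  have ρm : Monotone ρ := monotone_nat_of_le_succ fun n => by
    have := k3 (ρ n) _ (mem_image_of_mem _ (mem_image_of_mem _ (mem_ball_self hr)))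
    rw [ρs]; exact (this.1.trans this.2).le
  have hlt : ∀ i j, i < j → Disjoint (σ (ρ i) '' (g '' ball 0 r)) (σ (ρ j) '' (g '' ball 0 r)) :=
    fun i j hij => disjoint_left.2 fun w h1 h2 => by
      have e1 := (k3 _ w h1).2
      have e2 := (k3 _ w h2).1
      have e3 := ρm (Nat.succ_le_of_lt hij)
      rw [ρs] at e3; linarith
  have hg' : g ∈ gc X := ⟨sg, pg⟩
  have hv' : ∀ c ∈ gc X, Supp c {z | R < ‖z‖} → φ c v = v := fun c hc sc =>
    hv c hc (sc.mono fun z hz => hR.1.trans hz)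
  have hsub : g '' ball 0 r ⊆ {z | R < ‖z‖} := (image_mono (ball_subset_ball h4.le)).trans hgO
  have ma := (gc X).mul_mem ((gc X).mul_mem hg' ha) ((gc X).inv_mem hg')
  have mb := (gc X).mul_mem ((gc X).mul_mem hg' hb) ((gc X).inv_mem hg')
  refine congrFun (congrArg _ (h.comm_conj ha hb hg' (h.comm (v := v) (C := g '' ball 0 r)
    (σ := fun i => σ (ρ i)) ma mb (hv' _ ma ((sa'.conj g).mono hsub))
    (hv' _ mb ((sb'.conj g).mono hsub)) (fun z hz => (sa'.conj g).fix hz)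
    (fun z hz => (sb'.conj g).fix hz) (fun i => mem_gc (k1 _) (k2 _))
    (fun i => hv' _ (mem_gc (k1 _) (k2 _)) (k1 _)) fun i j hij => ?_))) v
  rcases lt_or_gt_of_ne hij with h' | h'
  exacts [hlt i j h', (hlt j i h').symm]

lemma kill_gc_one (hX : IsClosed X) (hc : X.Countable) (ht : D X α = ∅)
    (far : ∀ R, Rich X α {z | R < ‖z‖}) (h : Act (gc X) φ) (hs : Far X φ) (ha : a ∈ gc X)
    (v : W) : φ a v = v := by
  obtain ⟨R, hv⟩ := hs v
  obtain ⟨r₁, h1, sa⟩ := ha.1.exists_ball 0 0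
  obtain ⟨r, h3, -, mr⟩ := exists_radius0 hc (lt_add_one r₁)
  obtain ⟨g, sg, pg, hg⟩ := move_far hX hc ht far isOpen_univ isPreconnected_univ (by simpa)
    (R₀ := 0) (subset_univ _) 1 (h1.trans h3) (lt_add_one r) (subset_univ _)
    (fun z hz h => mr z h hz) R
  have hg' : g ∈ gc X := ⟨sg, pg⟩
  refine h.fix_of_comm ha hg' (comm_one hX hc ht far h hs hg' ha) (hv _ ((gc X).mul_mem
    ((gc X).mul_mem hg' ha) ((gc X).inv_mem hg')) ((sa.conj g).mono ?_))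
  rintro _ ⟨z, hz, rfl⟩
  exact hg z ((mem_ball_zero_iff.1 hz.2).trans h3).le

/-- point stabilisers contain compact-open neighbourhoods of the identity -/
def Opn (X : Set ℂ) {W : Type*} (φ : (ℂ ≃ₜ ℂ) → Equiv.Perm W) : Prop :=
  ∀ v, ∃ K, IsCompact K ∧ Disjoint K X ∧ ∃ ε > 0, ∀ F ∈ gp X,
    (∀ z ∈ K, dist (F z) z < ε) → φ F v = v

lemma Opn.fix (h : Opn X φ) (v : W) : ∃ K, IsCompact K ∧ Disjoint K X ∧ ∀ F ∈ gp X,
    (∀ z ∈ K, F z = z) → φ F v = v := by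
  obtain ⟨K, h1, h2, ε, hε, h3⟩ := h v
  exact ⟨K, h1, h2, fun F hF e => h3 F hF fun z hz => by simpa [e z hz] using hε⟩

lemma fix_of_trunc (h : Act (gp X) φ) (ho : Opn X φ) (hF : F ∈ gp X)
    (hk : ∀ a ∈ gc X, φ a v = v) (ht : ∀ R₀, ∃ R, R₀ < R ∧ ∃ a ∈ gc X, ∀ z, ‖z‖ ≤ R → a z = F z) :
    φ F v = v := by
  obtain ⟨K, h1, -, h3⟩ := ho.fix v
  obtain ⟨R₀, hK⟩ := h1.isBounded.subset_ball 0
  obtain ⟨R, hR, a, ha, e⟩ := ht R₀
  have m : a⁻¹ * F ∈ gp X := (gp X).mul_mem ((gp X).inv_mem (gc_le_gp ha)) hF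
  rw [show F = a * (a⁻¹ * F) by group]
  exact h.fix_mul (gc_le_gp ha) m (hk a ha) (h3 _ m fun z hz =>
    hinv_eq (e z ((mem_ball_zero_iff.1 (hK hz)).trans hR).le))

theorem kill_one (hX : IsClosed X) (hc : X.Countable) (ht : D X α = ∅)
    (far : ∀ R, Rich X α {z | R < ‖z‖}) (h : Act (gp X) φ) (ho : Opn X φ) (hF : F ∈ gp X)
    (v : W) : φ F v = v := by
  refine fix_of_trunc h ho hF (fun a ha => kill_gc_one hX hc ht far (h.mono gc_le_gp)
    (fun v => ?_) ha v) fun R₀ => ?_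
  · obtain ⟨K, h1, -, h3⟩ := ho.fix v
    obtain ⟨R, hK⟩ := h1.isBounded.subset_ball 0
    exact ⟨R, fun a ha sa => h3 a (gc_le_gp ha) fun z hz =>
      sa.fix fun h => lt_asymm h (mem_ball_zero_iff.1 (hK hz))⟩
  · obtain ⟨R, h1, -, mR⟩ := exists_radius0 hc (lt_add_one (max R₀ 0))
    rw [max_lt_iff] at h1
    exact ⟨R, h1.1, trunc_one hX hc ht far hF h1.2 mR⟩

theorem kill_two (M : Model X α) (h : Act (gp X) φ) (ho : Opn X φ) (hF : F ∈ gp X) (v : W) :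
    φ F v = v := by
  refine fix_of_trunc h ho hF (fun a ha => M.kill (h.mono gc_le_gp) (fun v => ?_) ha v)
    fun R₀ => ?_
  · obtain ⟨K, h1, h2, h3⟩ := ho.fix v
    obtain ⟨ε, hε, hb⟩ := Metric.isOpen_iff.1 h1.isClosed.isOpen_compl 0 fun h =>
      disjoint_left.1 h2 h (D_sub (M.top ▸ mem_singleton 0 : (0 : ℂ) ∈ D X α))
    exact ⟨ε, hε, fun a ha sa => h3 a (gc_le_gp ha) fun z hz => sa.fix fun h => hb h hz⟩
  · obtain ⟨R, h1, -, mR⟩ := exists_radius0 M.cnt (lt_add_one (max R₀ 0))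
    rw [max_lt_iff] at h1
    exact ⟨R, h1.1, trunc_ns M.cl M.cnt M.ns M.far hF h1.2 mR
      (by rw [M.top]; simpa using h1.2)⟩

end

end Pool.Agent.Lib.MP_069d55_gt
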