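import Pool.Agent.Lib.MP_069d55_gt.Defs
import Pool.Agent.Lib.MP_069d55_gt.Kill0

/-! Extension of homeomorphisms to the ends. -/

namespace Pool.Agent.Lib.MP_069d55_gt

open Set Filter Topology Metric OnePoint

noncomputable section

abbrev SE (E : Set (OnePoint ℂ)) : Set ℂ := {z | (z : OnePoint ℂ) ∉ E}
abbrev XE (E : Set (OnePoint ℂ)) : Set ℂ := ((↑) : ℂ → OnePoint ℂ) ⁻¹' E

structure Ends (E : Set (OnePoint ℂ)) : Prop where
  cl : IsClosed E
  cnt : E.Countable
  inf : ∞ ∈ E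

variable {E E' : Set (OnePoint ℂ)}

lemma Ends.xcl (h : Ends E) : IsClosed (XE E) := h.cl.preimage continuous_coe
lemma Ends.xcnt (h : Ends E) : (XE E).Countable := h.cnt.preimage coe_injective
lemma Ends.op (h : Ends E) : IsOpen (SE E) := h.xcl.isOpen_compl

lemma Ends.exists_coe (h : Ends E) {y : OnePoint ℂ} (hy : y ∉ E) : ∃ z : SE E, y = (z : ℂ) := by
  induction y using OnePoint.rec with
  | infty => exact absurd h.inf hy
  | coe z => exact ⟨⟨z, hy⟩, rfl⟩

lemma Ends.dense (h : Ends E) : Dense Eᶜ :=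
  (denseRange_coe.dense_image continuous_coe (h.xcnt.dense_compl ℝ)).mono
    (by rintro _ ⟨z, hz, rfl⟩; exact hz)

lemma closed_coe {K : Set ℂ} (hK : IsCompact K) : IsClosed (((↑) : ℂ → OnePoint ℂ) '' K) :=
  (hK.image continuous_coe).isClosed

lemma conn_nhds (x : OnePoint ℂ) {N : Set (OnePoint ℂ)} (hN : N ∈ 𝓝 x) :
    ∃ T : Set ℂ, IsOpen T ∧ IsPreconnected T ∧ (∀ z ∈ T, (z : OnePoint ℂ) ∈ N) ∧
      ∀ᶠ y : OnePoint ℂ in 𝓝 x, ∀ z : ℂ, y = (z : OnePoint ℂ) → z ∈ T := by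
  induction x using OnePoint.rec with
  | infty =>
    obtain ⟨K, ⟨-, hK⟩, hKN⟩ := hasBasis_nhds_infty.mem_iff.1 hN
    obtain ⟨R, hR, hKR⟩ := hK.isBounded.subset_closedBall_lt 0 0
    refine ⟨_, isOpen_far R, preconn_far hR.le, fun z hz => hKN (Or.inl ⟨z, fun h =>
      (mem_closedBall_zero_iff.1 (hKR h)).not_gt hz, rfl⟩), ?_⟩
    filter_upwards [(closed_coe (isCompact_closedBall (0 : ℂ) R)).isOpen_compl.mem_nhds
      (show ∞ ∉ _ by simp)] with y hy z e
    exact not_le.1 fun h => hy ⟨z, mem_closedBall_zero_iff.2 h, e.symm⟩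
  | coe p =>
    obtain ⟨ε, hε, hb⟩ := Metric.mem_nhds_iff.1 (continuous_coe.continuousAt.preimage_mem_nhds hN)
    refine ⟨ball p ε, isOpen_ball, (convex_ball p ε).isPreconnected, hb, ?_⟩
    filter_upwards [(isOpenMap_coe _ isOpen_ball).mem_nhds (mem_image_of_mem _ (mem_ball_self hε))]
      with y ⟨w, hw, e⟩ z e'
    rwa [← coe_injective (e.trans e')]

lemma exists_ext_ends (h : Ends E) (f : SE E ≃ₜ SE E) : ∃ g : OnePoint ℂ → OnePoint ℂ,
    Continuous g ∧ ∀ z : SE E, g (z : ℂ) = (f z : ℂ) := by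
  set u : OnePoint ℂ → OnePoint ℂ := OnePoint.map (fn f) with hu
  have uc : ContinuousOn u Eᶜ := fun y hy => by
    obtain ⟨z, rfl⟩ := h.exists_coe hy
    refine ContinuousAt.continuousWithinAt (continuousAt_coe.2 ?_)
    exact continuous_coe.continuousAt.comp ((fn_cont f).continuousAt (h.op.mem_nhds z.2))
  have hlim : ∀ x, ∃ y, Tendsto u (𝓝[Eᶜ] x) (𝓝 y) := by
    intro x
    by_cases hx : x ∈ E
    swap
    · exact ⟨_, uc x hx⟩
    have hne : (𝓝[Eᶜ] x).NeBot := mem_closure_iff_nhdsWithin_neBot.1 (h.dense x)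
    have key : ∀ (c : ℂ) (y : OnePoint ℂ), MapClusterPt (c : OnePoint ℂ) (𝓝[Eᶜ] x) u →
        MapClusterPt y (𝓝[Eᶜ] x) u → y = c := by
      intro c y h1 h2
      by_contra hyc
      obtain ⟨ε, hε, hb⟩ := Metric.mem_nhds_iff.1 (continuous_coe.continuousAt.preimage_mem_nhds
        (isOpen_ne.mem_nhds (Ne.symm hyc)))
      obtain ⟨r, hr0, hr, mr⟩ := exists_radius h.xcnt c hε
      have hsp : sphere c r ⊆ SE E := fun z hz hz' => mr z hz' (mem_sphere_iff_norm.1 hz)
      have hΓ : IsCompact (fn f.symm '' sphere c r) :=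
        (isCompact_sphere c r).image_of_continuousOn ((fn_cont _).mono hsp)
      obtain ⟨T, hT, hTc, hTN, hTx⟩ := conn_nhds x ((closed_coe hΓ).isOpen_compl.mem_nhds (by
        rintro ⟨_, ⟨w, hw, rfl⟩, e⟩
        exact fn_maps f.symm (hsp hw) (e ▸ hx)))
      have hfr : ∀ {V : Set (OnePoint ℂ)} {y : OnePoint ℂ}, MapClusterPt y (𝓝[Eᶜ] x) u →
          V ∈ 𝓝 y → ∃ z ∈ T \ XE E, (fn f z : OnePoint ℂ) ∈ V := fun hy hV => by
        obtain ⟨w, hw, h3, h4⟩ := ((mapClusterPt_iff_frequently.1 hy _ hV).and_eventually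
          ((hTx.filter_mono nhdsWithin_le_nhds).and self_mem_nhdsWithin)).exists
        obtain ⟨z, rfl⟩ := h.exists_coe h4
        exact ⟨z, ⟨h3 z rfl, z.2⟩, hw⟩
      obtain ⟨z₁, hz₁, w₁, hw₁, e₁⟩ := hfr h1
        ((isOpenMap_coe _ isOpen_ball).mem_nhds (mem_image_of_mem _ (mem_ball_self hr0)))
      obtain ⟨z₂, hz₂, hw₂⟩ := hfr h2
        ((closed_coe (isCompact_closedBall c r)).isOpen_compl.mem_nhds (by
          rintro ⟨w, hw, e⟩; exact hb (closedBall_subset_ball hr hw) e))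
      obtain ⟨z, hz, e⟩ := (preconn_diff hT hTc h.xcnt).intermediate_value hz₁ hz₂
        (f := fun z => ‖fn f z - c‖)
        ((((fn_cont f).mono fun z hz => hz.2).sub continuousOn_const).norm)
        (show r ∈ Icc _ _ from ⟨by
          rw [← coe_injective e₁, ← dist_eq_norm]; exact le_of_lt hw₁,
          le_of_not_ge fun h => hw₂ ⟨_, by rwa [mem_closedBall, dist_eq_norm], rfl⟩⟩)
      refine hTN z hz.1 ⟨z, ⟨fn f z, mem_sphere_iff_norm.2 e, ?_⟩, rfl⟩
      rw [fn_mem f hz.2, fn_coe]; simp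
    obtain ⟨y, hy⟩ := exists_clusterPt_of_compactSpace (map u (𝓝[Eᶜ] x))
    refine ⟨y, tendsto_nhds_of_unique_mapClusterPt fun y' hy' => ?_⟩
    induction y using OnePoint.rec with
    | coe c => exact key c y' hy hy'
    | infty =>
      induction y' using OnePoint.rec with
      | coe c => exact (key c _ hy' hy).symm
      | infty => rfl
  refine ⟨extendFrom Eᶜ u, continuous_extendFrom h.dense hlim, fun z => ?_⟩
  rw [extendFrom_extends uc _ z.2, hu, OnePoint.map_some, fn_coe]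

lemma Ends.ext (h : Ends E) {g g' : OnePoint ℂ → OnePoint ℂ} (hg : Continuous g)
    (hg' : Continuous g') (e : ∀ z : SE E, g (z : ℂ) = g' (z : ℂ)) : g = g' :=
  hg.ext_on h.dense hg' fun y hy => by obtain ⟨z, rfl⟩ := h.exists_coe hy; exact e z

lemma exists_hat (h : Ends E) (f : SE E ≃ₜ SE E) : ∃ g : OnePoint ℂ ≃ₜ OnePoint ℂ,
    ∀ z : SE E, g (z : ℂ) = (f z : ℂ) := by
  obtain ⟨g, gc, ge⟩ := exists_ext_ends h f
  obtain ⟨g', gc', ge'⟩ := exists_ext_ends h f.symm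
  exact ⟨⟨⟨g, g', congrFun (h.ext (gc'.comp gc) continuous_id fun z => by simp [ge, ge']),
    congrFun (h.ext (gc.comp gc') continuous_id fun z => by simp [ge, ge'])⟩, gc, gc'⟩, ge⟩

/-- extension to the sphere -/
def hat (h : Ends E) : (SE E ≃ₜ SE E) →* (OnePoint ℂ ≃ₜ OnePoint ℂ) :=
  MonoidHom.mk' (fun f => (exists_hat h f).choose) fun f g => by
    ext1 y
    refine congrFun (h.ext (exists_hat h (f * g)).choose.continuous
      ((exists_hat h f).choose * (exists_hat h g).choose).continuous fun z => ?_) y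
    rw [(exists_hat h (f * g)).choose_spec, Homeomorph.mul_apply, Homeomorph.mul_apply,
      (exists_hat h g).choose_spec, (exists_hat h f).choose_spec]

lemma hat_coe (h : Ends E) (f : SE E ≃ₜ SE E) (z : SE E) : hat h f (z : ℂ) = (f z : ℂ) :=
  (exists_hat h f).choose_spec z

lemma hat_mem (h : Ends E) (f : SE E ≃ₜ SE E) (y : OnePoint ℂ) : hat h f y ∈ E ↔ y ∈ E := by
  have key : ∀ (f : SE E ≃ₜ SE E) (y : OnePoint ℂ), y ∉ E → hat h f y ∉ E := fun f y hy => by
    obtain ⟨z, rfl⟩ := h.exists_coe hy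
    rw [hat_coe]; exact (f z).2
  refine not_iff_not.1 ⟨fun hy => ?_, key f y⟩
  have := key f⁻¹ _ hy
  rwa [map_inv, Homeomorph.inv_apply, Homeomorph.symm_apply_apply] at this

lemma hat_D (h : Ends E) (f : SE E ≃ₜ SE E) (β : Ordinal.{0}) (y : OnePoint ℂ) :
    hat h f y ∈ D E β ↔ y ∈ D E β := by
  have : hat h f ⁻¹' E = E := Set.ext (hat_mem h f)
  conv_rhs => rw [← this, D_preimage (hat h f).isOpenEmbedding]
  rfl

lemma exists_lift_coe {T : Type} [TopologicalSpace T] {g : T → OnePoint ℂ} (hg : Continuous g)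
    (h : ∀ t, g t ≠ ∞) : ∃ f : T → ℂ, Continuous f ∧ ∀ t, (f t : OnePoint ℂ) = g t := by
  choose f hf using fun t => ne_infty_iff_exists.1 (h t)
  refine ⟨f, isOpenEmbedding_coe.isInducing.continuous_iff.2 ?_, hf⟩
  convert hg using 1; ext t; exact hf t

lemma exists_ind (hE : ∞ ∈ E) (hE' : ∞ ∈ E') (m : OnePoint ℂ ≃ₜ OnePoint ℂ)
    (hm : ∀ y, m y ∈ E' ↔ y ∈ E) :
    ∃ f : SE E ≃ₜ SE E', ∀ z : SE E, ((f z : ℂ) : OnePoint ℂ) = m (z : ℂ) := by
  have hm' : ∀ y, m.symm y ∈ E ↔ y ∈ E' := fun y => by rw [← hm]; simp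
  obtain ⟨f, fc, fe⟩ := exists_lift_coe (g := fun z : SE E => m (z : ℂ))
    (m.continuous.comp (continuous_coe.comp continuous_subtype_val))
    fun z e => z.2 ((hm _).1 (e ▸ hE'))
  obtain ⟨g, gc, ge⟩ := exists_lift_coe (g := fun z : SE E' => m.symm (z : ℂ))
    (m.symm.continuous.comp (continuous_coe.comp continuous_subtype_val))
    fun z e => z.2 ((hm' _).1 (e ▸ hE))
  have f1 : ∀ z, f z ∈ SE E' := fun z h => z.2 ((hm _).1 (fe z ▸ h))
  have g1 : ∀ z, g z ∈ SE E := fun z h => z.2 ((hm' _).1 (ge z ▸ h))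
  exact ⟨⟨⟨fun z => ⟨f z, f1 z⟩, fun z => ⟨g z, g1 z⟩,
    fun z => Subtype.ext (coe_injective (by simp [ge, fe])),
    fun z => Subtype.ext (coe_injective (by simp [ge, fe]))⟩, fc.subtype_mk _, gc.subtype_mk _⟩, fe⟩

lemma exists_plane (m : OnePoint ℂ ≃ₜ OnePoint ℂ) (hm : m ∞ = ∞) :
    ∃ F : ℂ ≃ₜ ℂ, ∀ z : ℂ, (F z : OnePoint ℂ) = m z := by
  obtain ⟨f, fc, fe⟩ := exists_lift_coe (g := fun z : ℂ => m z) (m.continuous.comp continuous_coe)
    fun z e => coe_ne_infty z (m.injective (e.trans hm.symm))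
  obtain ⟨g, gc, ge⟩ := exists_lift_coe (g := fun z : ℂ => m.symm z)
    (m.symm.continuous.comp continuous_coe)
    fun z e => coe_ne_infty z (by rw [← hm, ← e]; simp)
  exact ⟨⟨⟨f, g, fun z => coe_injective (by simp [ge, fe]),
    fun z => coe_injective (by simp [ge, fe])⟩, fc, gc⟩, fe⟩

lemma exists_inversion : ∃ j : OnePoint ℂ ≃ₜ OnePoint ℂ, j ((0 : ℂ) : OnePoint ℂ) = ∞ ∧
    j ∞ = (0 : ℂ) ∧ ∀ z : ℂ, z ≠ 0 → j z = (z⁻¹ : ℂ) := by
  classical
  set j : OnePoint ℂ → OnePoint ℂ := fun y =>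
    OnePoint.elim y ((0 : ℂ) : OnePoint ℂ)
      (fun z => if z = 0 then ∞ else ((z⁻¹ : ℂ) : OnePoint ℂ)) with hj
  have j1 : j ∞ = (0 : ℂ) := rfl
  have j2 : j ((0 : ℂ) : OnePoint ℂ) = ∞ := if_pos rfl
  have j3 : ∀ z : ℂ, z ≠ 0 → j z = (z⁻¹ : ℂ) := fun z hz => if_neg hz
  have jj : ∀ y, j (j y) = y := fun y => by
    induction y using OnePoint.rec with
    | infty => rw [j1, j2]
    | coe z =>
      by_cases hz : z = 0
      · rw [hz, j2, j1]
      · rw [j3 z hz, j3 _ (inv_ne_zero hz), inv_inv]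
  have jc : Continuous j := by
    rw [OnePoint.continuous_iff, coclosedCompact_eq_cocompact, ← cobounded_eq_cocompact]
    refine ⟨?_, continuous_iff_continuousAt.2 fun z => ?_⟩
    · refine ((continuous_coe.tendsto 0).comp tendsto_inv₀_cobounded).congr' ?_
      filter_upwards [Bornology.eventually_ne_cobounded 0] with z hz using (j3 z hz).symm
    · by_cases hz : z = 0
      · rw [hz, ContinuousAt, ← nhdsNE_sup_pure, tendsto_sup, j2]
        refine ⟨?_, by rw [← j2]; exact tendsto_pure_nhds _ _⟩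
        have h1 := tendsto_coe_infty (X := ℂ)
        rw [coclosedCompact_eq_cocompact, ← cobounded_eq_cocompact] at h1
        refine (h1.comp tendsto_inv₀_nhdsNE_zero).congr' ?_
        filter_upwards [self_mem_nhdsWithin] with w hw using (j3 w hw).symm
      · refine (continuous_coe.continuousAt.comp (continuousAt_inv₀ hz)).congr ?_
        filter_upwards [isOpen_ne.mem_nhds hz] with w hw using (j3 w hw).symm
  exact ⟨⟨⟨j, j, jj, jj⟩, jc, jc⟩, j2, j1, j3⟩

lemma near_id (h : Ends E) (f : SE E ≃ₜ SE E) {x : ℂ} {a η : ℝ} (ha : 0 < a) (hη : 0 < η)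
    (hfree : ∀ z ∈ XE E, ‖z - x‖ < a ∨ a + η < ‖z - x‖)
    (hf : ∀ z : SE E, a ≤ ‖z - x‖ → ‖z - x‖ ≤ a + η → dist (f z) z < η / 4) :
    (∀ y, y ∈ (↑) '' ball x (a + η / 2) → hat h f y ∈ (↑) '' closedBall x (a + 3 * η / 4)) ∧
    ∀ y ∈ E, (hat h f y ∈ (↑) '' ball x a ↔ y ∈ (↑) '' ball x a) := by
  have hd : ∀ z : SE E, a ≤ ‖z - x‖ → ‖z - x‖ ≤ a + η → |‖f z - x‖ - ‖z - x‖| < η / 4 :=
    fun z h1 h2 => (abs_norm_sub_norm_le _ _).trans_lt (by
      simpa [Subtype.dist_eq, dist_eq_norm] using hf z h1 h2)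
  have hp : ∀ t : ℝ, a ≤ t → t ≤ a + η → ∃ p : SE E, ‖p - x‖ = t := fun t h1 h2 => by
    have e : ‖x + t - x‖ = t := by simp [abs_of_pos (ha.trans_le h1)]
    exact ⟨⟨x + t, fun h => by rcases hfree _ h with h | h <;> linarith⟩, e⟩
  have side : ∀ T : Set ℂ, IsOpen T → IsPreconnected T →
      (∀ w ∈ T, η / 4 ≤ |‖w - x‖ - (a + η / 2)|) → ∀ z z' : SE E, (f z : ℂ) ∈ T → (f z' : ℂ) ∈ T →
      ‖z - x‖ ≤ a + η / 2 → ‖z' - x‖ < a + η / 2 := by
    intro T hT hTc hw z z' hz hz' hle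
    by_contra hcon
    obtain ⟨w, hw', e⟩ := (preconn_diff hT hTc h.xcnt).intermediate_value
      (a := f z) (b := f z') ⟨hz, (f z).2⟩ ⟨hz', (f z').2⟩ (f := fun w => ‖fn f.symm w - x‖)
      ((((fn_cont _).mono fun z hz => hz.2).sub continuousOn_const).norm)
      (show a + η / 2 ∈ Icc _ _ by simpa [fn_coe] using ⟨hle, not_lt.1 hcon⟩)
    simp only [fn_mem f.symm hw'.2] at e
    have := hd (f.symm ⟨w, hw'.2⟩) (by linarith) (by linarith)
    rw [e, Homeomorph.apply_symm_apply] at this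
    exact this.not_ge (hw w hw'.1)
  have A : ∀ z : SE E, ‖f z - x‖ < a + η / 4 → ‖z - x‖ < a + η / 2 := fun z hz => by
    obtain ⟨p, hp⟩ := hp a le_rfl (by linarith)
    have := abs_lt.1 (hd p hp.ge (by linarith))
    refine side (ball x (a + η / 4)) isOpen_ball (convex_ball _ _).isPreconnected
      (fun w hw => ?_) p z (by rw [mem_ball, dist_eq_norm]; linarith)
      (by rwa [mem_ball, dist_eq_norm]) (by linarith)
    rw [mem_ball, dist_eq_norm] at hw
    rw [le_abs]; right; linarith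
  have B : ∀ z : SE E, ‖z - x‖ ≤ a + η / 2 → ‖f z - x‖ ≤ a + 3 * η / 4 := fun z hz => by
    by_contra hcon
    obtain ⟨p, hp⟩ := hp (a + η) (by linarith) le_rfl
    have := abs_lt.1 (hd p (by linarith) hp.le)
    have := side {w | ‖w - x‖ ∈ Ioi (a + 3 * η / 4)}
      (isOpen_Ioi.preimage (f := fun w : ℂ => ‖w - x‖) (by fun_prop))
      (preconn_ann x isPreconnected_Ioi fun t ht => le_of_lt
        (lt_trans (show 0 < a + 3 * η / 4 by positivity) ht))
      (fun w hw => by rw [le_abs]; left; linarith [show a + 3 * η / 4 < ‖w - x‖ from hw]) z p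
      (not_le.1 hcon) (show a + 3 * η / 4 < _ by linarith) hz
    linarith
  have dens : ∀ {U C : Set (OnePoint ℂ)}, IsOpen U → IsClosed C →
      (∀ z : SE E, ((z : ℂ) : OnePoint ℂ) ∈ U → ((z : ℂ) : OnePoint ℂ) ∈ C) → U ⊆ C :=
    fun hU hC hz => (h.dense.open_subset_closure_inter hU).trans (closure_minimal (fun y hy => by
      obtain ⟨z, rfl⟩ := h.exists_coe hy.2; exact hz z hy.1) hC)
  have A' : hat h f ⁻¹' ((↑) '' ball x (a + η / 4)) ⊆ (↑) '' closedBall x (a + η / 2) :=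
    dens ((isOpenMap_coe _ isOpen_ball).preimage (hat h f).continuous)
      (closed_coe (isCompact_closedBall _ _)) fun z hz => by
        rw [mem_preimage, hat_coe, coe_injective.mem_set_image, mem_ball, dist_eq_norm] at hz
        exact mem_image_of_mem _ (by rw [mem_closedBall, dist_eq_norm]; exact (A z hz).le)
  have B' : (↑) '' ball x (a + η / 2) ⊆ hat h f ⁻¹' ((↑) '' closedBall x (a + 3 * η / 4)) :=
    dens (isOpenMap_coe _ isOpen_ball)
      ((closed_coe (isCompact_closedBall _ _)).preimage (hat h f).continuous) fun z hz => by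
        rw [coe_injective.mem_set_image, mem_ball, dist_eq_norm] at hz
        rw [mem_preimage, hat_coe, coe_injective.mem_set_image, mem_closedBall, dist_eq_norm]
        exact B z hz.le
  have shr : ∀ y ∈ E, ∀ t, t ≤ a + η → y ∈ (↑) '' closedBall x t → y ∈ (↑) '' ball x a := by
    rintro _ hy t ht ⟨z, hz, rfl⟩
    rw [mem_closedBall, dist_eq_norm] at hz
    exact mem_image_of_mem _ (by
      rw [mem_ball, dist_eq_norm]; exact (hfree z hy).resolve_right (by linarith))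
  refine ⟨B', fun y hy => ⟨fun h1 => shr y hy _ (by linarith) (A' ?_), fun h1 =>
    shr _ ((hat_mem h f y).2 hy) _ (by linarith) (B' ?_)⟩⟩
  · exact image_mono (ball_subset_ball (by linarith)) h1
  · exact image_mono (ball_subset_ball (by linarith)) h1

end

end Pool.Agent.Lib.MP_069d55_gt
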