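import Pool.Agent.Lib.MP_069d55_gt.GDisc

/-! Maps that collapse closed sets to isolated points; lifting and descending homeomorphisms. -/

open Set Topology Filter Metric

namespace Pool.Agent.Lib.MP_069d55_gt.K

theorem lh_of_local {A B : Type*} [TopologicalSpace A] [TopologicalSpace B] {f : A → B}
    {g : B → A} {x : A} (hf : ∀ᶠ y in 𝓝 x, ContinuousAt f y ∧ g (f y) = y)
    (hg : ∀ᶠ z in 𝓝 (f x), ContinuousAt g z ∧ f (g z) = z) : LH f x := by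
  obtain ⟨U, u1, u2, u3⟩ := _root_.mem_nhds_iff.1 hf
  obtain ⟨V, v1, v2, v3⟩ := _root_.mem_nhds_iff.1 hg
  have a : ContinuousOn f U := fun y hy => (u1 hy).1.continuousWithinAt
  have b : ContinuousOn g V := fun y hy => (v1 hy).1.continuousWithinAt
  exact lh_of_inv (a.isOpen_inter_preimage u2 v2) (b.isOpen_inter_preimage v2 u2)
    (a.mono inter_subset_left) (b.mono inter_subset_left)
    (fun y hy => ⟨hy.2, by rw [mem_preimage, (u1 hy.1).2]; exact hy.1⟩)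
    (fun y hy => ⟨hy.2, by rw [mem_preimage, (v1 hy.1).2]; exact hy.1⟩)
    (fun y hy => (u1 hy.1).2) (fun y hy => (v1 hy.1).2) ⟨u3, v3⟩

theorem exists_homeo_of_lh {A B : Type*} [TopologicalSpace A] [TopologicalSpace B] {f : A → B}
    (hb : Function.Bijective f) (h : ∀ x, LH f x) : ∃ k : A ≃ₜ B, ∀ x, k x = f x :=
  ⟨(emb_of_lh hb.1 h).isEmbedding.toHomeomorphOfSurjective hb.2, fun _ => rfl⟩

theorem neBot_ne {M : Type*} [TopologicalSpace M] [Charted M] (x : M) : (𝓝[≠] x).NeBot :=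
  let ⟨_, _, h1, h2⟩ := exists_chart x
  h2 ▸ h1.tendsto_ne.neBot

variable {S M : Type*} [TopologicalSpace S] [TopologicalSpace M]

/-- `p` is a homeomorphism onto the complement of `E`, up to the fibres over the isolated
points in `X`. -/
structure Blob (p : S → M) (q : M → S) (E X : Set M) : Prop where
  cont : Continuous p
  cl : IsClosed (E ∪ X)
  iso : ∀ x ∈ X, ∀ᶠ y in 𝓝 x, y ∈ E ∪ X → y = x
  notE : ∀ s, p s ∉ E
  qc : ContinuousOn q (E ∪ X)ᶜ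
  pq : ∀ y ∉ E ∪ X, p (q y) = y
  qp : ∀ s, p s ∉ X → q (p s) = s
  nb : ∀ x ∈ X, ∀ U ∈ 𝓝ˢ (p ⁻¹' {x}), ∀ᶠ y in 𝓝 x, p ⁻¹' {y} ⊆ U
  sur : ∀ x ∈ X, ∃ s, p s = x

variable {p : S → M} {q : M → S} {E X : Set M}

theorem isClosed_left (cl : IsClosed (E ∪ X)) (iso : ∀ x ∈ X, ∀ᶠ y in 𝓝 x, y ∈ E ∪ X → y = x) :
    IsClosed E := isOpen_compl_iff.1 (isOpen_iff_mem_nhds.2 fun y hy => by
  by_cases h : y ∈ X
  · filter_upwards [iso y h] with z hz hE using hy (hz (Or.inl hE) ▸ hE)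
  · filter_upwards [cl.isOpen_compl.mem_nhds fun c => c.elim hy h] with z hz hE using hz (Or.inl hE))

theorem exists_blob [Nonempty S] (cont : Continuous p) (cl : IsClosed (E ∪ X))
    (iso : ∀ x ∈ X, ∀ᶠ y in 𝓝 x, y ∈ E ∪ X → y = x) (rg : range p = Eᶜ) (hd : ∀ x ∈ X, x ∉ E)
    (inj : InjOn p (p ⁻¹' Xᶜ))
    (hc : ∀ C, IsClosed C → ∀ y ∉ E, y ∉ p '' C → ∀ᶠ z in 𝓝 y, z ∉ p '' C) :
    ∃ q, Blob p q E X := by
  have pq : ∀ y ∉ E, p (Function.invFun p y) = y := fun y hy =>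
    Function.invFun_eq (rg ▸ hy : y ∈ range p)
  have nE : ∀ s, p s ∉ E := fun s => (rg ▸ mem_range_self s : p s ∈ Eᶜ)
  have qp : ∀ s, p s ∉ X → Function.invFun p (p s) = s := fun s hs =>
    inj (by rwa [mem_preimage, pq _ (nE s)]) hs (pq _ (nE s))
  have nb : ∀ x ∉ E, ∀ U ∈ 𝓝ˢ (p ⁻¹' {x}), ∀ᶠ y in 𝓝 x, p ⁻¹' {y} ⊆ U := fun x hx U hU => by
    filter_upwards [hc _ isOpen_interior.isClosed_compl x hx fun ⟨s, a, b⟩ =>
      a (subset_interior_iff_mem_nhdsSet.2 hU b)] with y hy s hs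
    exact interior_subset (by_contra fun c => hy ⟨s, c, hs⟩)
  refine ⟨Function.invFun p, cont, cl, iso, nE, fun y hy U hU => ?_, fun y hy =>
    pq y fun c => hy (Or.inl c), qp, fun x hx => nb x (hd x hx), fun x hx => ⟨_, pq x (hd x hx)⟩⟩
  rw [mem_map]
  filter_upwards [mem_nhdsWithin_of_mem_nhds (nb y (fun c => hy (Or.inl c)) U
    (mem_nhdsSet_iff_forall.2 fun s hs => by
      rwa [← qp s fun c => hy (Or.inr (hs ▸ c)), show p s = y from hs])), self_mem_nhdsWithin]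
    with z a b using a (pq z fun c => b (Or.inl c))

theorem exists_blob_of_proper [Nonempty S] [T2Space M] [LocallyCompactSpace M]
    (cont : Continuous p) (cl : IsClosed (E ∪ X))
    (iso : ∀ x ∈ X, ∀ᶠ y in 𝓝 x, y ∈ E ∪ X → y = x) (rg : range p = Eᶜ) (hd : ∀ x ∈ X, x ∉ E)
    (inj : InjOn p (p ⁻¹' Xᶜ)) (hc : ∀ K, IsCompact K → Disjoint K E → IsCompact (p ⁻¹' K)) :
    ∃ q, Blob p q E X := exists_blob cont cl iso rg hd inj fun C hC y hy hy' => by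
  obtain ⟨K, k1, k2, k3⟩ := exists_compact_subset (isClosed_left cl iso).isOpen_compl hy
  filter_upwards [mem_interior_iff_mem_nhds.1 k2, (((hc K k1 (disjoint_left.2 k3)).inter_right
    hC).image cont).isClosed.isOpen_compl.mem_nhds fun c => hy' (image_mono inter_subset_right c)]
    with z a b ⟨s, c, d⟩ using b ⟨s, ⟨mem_preimage.2 (d ▸ a), c⟩, d⟩

theorem iso_finite [T1Space M] (hX : X.Finite) (x : M) : ∀ᶠ y in 𝓝 x, y ∈ ∅ ∪ X → y = x := by
  filter_upwards [(hX.subset (sdiff_subset (t := {x}))).isClosed.isOpen_compl.mem_nhds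
    fun h => h.2 rfl] with y hy h
  exact by_contra fun c => hy ⟨by simpa using h, c⟩

theorem exists_blob_of_closed [Nonempty S] [T1Space M] (cont : Continuous p) (hX : X.Finite)
    (rg : Function.Surjective p) (inj : InjOn p (p ⁻¹' Xᶜ)) (hc : IsClosedMap p) :
    ∃ q, Blob p q ∅ X :=
  exists_blob cont (by simpa using hX.isClosed) (fun x _ => iso_finite hX x)
    (by simpa using rg.range_eq) (by simp) inj fun C hC _ _ hy =>
      (hc C hC).isOpen_compl.mem_nhds hy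

/-- Exact local lift of `φ` around the fibre over `x`. -/
def Dat2 (p p' : S → M) (φ : M → M) (x : M) (g : OpenPartialHomeomorph S S) : Prop :=
  p ⁻¹' {x} ⊆ g.source ∧ g '' (p ⁻¹' {x}) = p' ⁻¹' {φ x} ∧
    ∀ᶠ s in 𝓝ˢ (p ⁻¹' {x}), p' (g s) = φ (p s)

/-- The case of one collapse. -/
abbrev Dat (p : S → M) := Dat2 p p

/-- Lift of a homeomorphism that is the identity on the fibres. -/
def Lf (p : S → M) (X : Set M) (φ : M ≃ₜ M) (Φ : S ≃ₜ S) : Prop :=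
  (∀ s, p (Φ s) = φ (p s)) ∧ ∀ s, p s ∈ X → Φ s = s

theorem Lf.one : Lf p X 1 1 := ⟨fun _ => rfl, fun _ _ => rfl⟩

theorem Lf.mul {φ ψ : M ≃ₜ M} {Φ Ψ : S ≃ₜ S} (h : Lf p X φ Φ) (h' : Lf p X ψ Ψ) :
    Lf p X (φ * ψ) (Φ * Ψ) :=
  ⟨fun s => by simp [h.1, h'.1], fun s hs => by simp [h.2 s hs, h'.2 s hs]⟩

theorem lift_inv {φ : M ≃ₜ M} {Φ : S ≃ₜ S} (h : ∀ s, p (Φ s) = φ (p s)) (s : S) :
    p (Φ⁻¹ s) = φ⁻¹ (p s) := φ.injective (by rw [← h]; simp)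

theorem Lf.inv {φ : M ≃ₜ M} {Φ : S ≃ₜ S} (h : Lf p X φ Φ) : Lf p X φ⁻¹ Φ⁻¹ :=
  ⟨lift_inv h.1, fun s hs => by rw [Homeomorph.inv_apply, Homeomorph.symm_apply_eq, h.2 s hs]⟩

/-- Homeomorphisms that are the identity near each point of `Z`. -/
def Nb (Z : Set M) : Subgroup (M ≃ₜ M) where
  carrier := {k | ∀ x ∈ Z, ∀ᶠ y in 𝓝 x, k y = y}
  one_mem' := fun _ _ => .of_forall fun _ => rfl
  mul_mem' := fun {a b} ha hb x hx => by
    filter_upwards [ha x hx, hb x hx] with y h h'; rw [Homeomorph.mul_apply, h', h]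
  inv_mem' := fun {a} ha x hx => by
    filter_upwards [ha x hx] with y h; rw [Homeomorph.inv_apply, Homeomorph.symm_apply_eq, h]

theorem Nb_le_Fix {Z : Set M} : Nb Z ≤ Fix Z := fun _ h x hx => (h x hx).self_of_nhds

theorem AA_le_Nb [T2Space M] {Ω Z : Set M} (h : ∀ x ∈ Z, x ∉ Ω) : AA Ω ≤ Nb Z :=
  fun _ hk x hx => AA_eventually hk (h x hx)

theorem Fix_le_Stab {Z : Set M} : Fix Z ≤ Stab Z := fun k h x =>
  ⟨fun c => k.injective (h _ c) ▸ c, fun c => (h x c).symm ▸ c⟩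

theorem ev_fibre (hp : Continuous p) {x : M} {P : M → Prop} (h : ∀ᶠ y in 𝓝 x, P y) :
    ∀ᶠ s in 𝓝ˢ (p ⁻¹' {x}), P (p s) :=
  eventually_nhdsSet_iff_forall.2 fun s hs => hp.continuousAt.eventually (by rwa [show p s = x from hs])

namespace Blob

theorem disj (h : Blob p q E X) {x : M} (hx : x ∈ X) : x ∉ E :=
  let ⟨s, hs⟩ := h.sur x hx; hs ▸ h.notE s

theorem clE (h : Blob p q E X) : IsClosed E := isClosed_left h.cl h.iso

theorem reg (h : Blob p q E X) {s : S} (hs : p s ∉ X) : p s ∉ E ∪ X := fun c => c.elim (h.notE s) hs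

theorem surj (h : Blob p q E X) {y : M} (hy : y ∉ E) : ∃ s, p s = y := by
  by_cases c : y ∈ X
  exacts [h.sur y c, ⟨_, h.pq y fun a => a.elim hy c⟩]

theorem ev_reg (h : Blob p q E X) {s : S} (hs : p s ∉ X) : ∀ᶠ t in 𝓝 s, p t ∉ X := by
  filter_upwards [h.cont.continuousAt (h.cl.isOpen_compl.mem_nhds (h.reg hs))] with t a b
  exact a (Or.inr b)

theorem inj (h : Blob p q E X) {s t : S} (hs : p s ∉ X) (e : p s = p t) : s = t := by
  rw [← h.qp s hs, e, h.qp t (e ▸ hs)]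

theorem lh_p (h : Blob p q E X) {s : S} (hs : p s ∉ X) : LH p s :=
  lh_of_inv (h.cl.isOpen_compl.preimage h.cont) h.cl.isOpen_compl h.cont.continuousOn h.qc
    (fun _ a => a) (fun y a => by rwa [mem_preimage, h.pq y a])
    (fun t a => h.qp t fun c => a (Or.inr c)) h.pq (h.reg hs)

theorem lh_q (h : Blob p q E X) {y : M} (hy : y ∉ E ∪ X) : LH q y :=
  lh_of_inv h.cl.isOpen_compl (h.cl.isOpen_compl.preimage h.cont) h.qc h.cont.continuousOn
    (fun y a => by rwa [mem_preimage, h.pq y a]) (fun _ a => a) h.pq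
    (fun t a => h.qp t fun c => a (Or.inr c)) hy

theorem preconn [PreconnectedSpace S] [T1Space M] (h : Blob p q E X) {O : Set M} (hO : IsOpen O)
    (hc : IsPreconnected (O \ (E ∪ X))) (hn : O.Nonempty → (O \ (E ∪ X)).Nonempty) :
    IsPreconnected (p ⁻¹' O) := by
  have a : ∀ s, p s ∈ O → p s ∉ X → s ∈ q '' (O \ (E ∪ X)) := fun s h1 h2 =>
    ⟨_, ⟨h1, h.reg h2⟩, h.qp s h2⟩
  have key : ∀ u v, IsOpen u → IsOpen v → p ⁻¹' O ⊆ u ∪ v → p ⁻¹' O ∩ (u ∩ v) = ∅ →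
      q '' (O \ (E ∪ X)) ⊆ u → p ⁻¹' O ⊆ u := fun u v hu hv h1 h2 h3 t ht => by
    by_contra c
    have hx : p t ∈ X := by_contra fun b => c (h3 (a t ht b))
    obtain ⟨N, n1, n2, n3⟩ := _root_.mem_nhds_iff.1 (h.iso _ hx)
    have e : p ⁻¹' {p t} \ u = v ∩ p ⁻¹' (O ∩ N) := Set.ext fun w => ⟨fun hw =>
      have : p w = p t := hw.1
      ⟨(h1 (mem_preimage.2 (this ▸ ht))).resolve_left hw.2, mem_preimage.2 (this ▸ ⟨ht, n3⟩)⟩,
      fun hw =>
        have : w ∉ u := fun b => (h2.subset ⟨hw.2.1, b, hw.1⟩).elim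
        ⟨n1 hw.2.2 (Or.inr (by_contra fun b => this (h3 (a w hw.2.1 b)))), this⟩⟩
    obtain ⟨y, hy⟩ := hn ⟨_, ht⟩
    have : q y ∈ p ⁻¹' {p t} \ u := (IsClopen.eq_univ ⟨(isClosed_singleton.preimage
      h.cont).sdiff hu, e ▸ hv.inter ((hO.inter n2).preimage h.cont)⟩ ⟨t, rfl, c⟩).symm ▸ trivial
    exact this.2 (h3 ⟨y, hy, rfl⟩)
  refine isPreconnected_iff_subset_of_disjoint.2 fun u v hu hv h1 h2 => ?_
  have b : q '' (O \ (E ∪ X)) ⊆ p ⁻¹' O := by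
    rintro _ ⟨y, hy, rfl⟩; rw [mem_preimage, h.pq y hy.2]; exact hy.1
  exact (isPreconnected_iff_subset_of_disjoint.1 (hc.image q (h.qc.mono fun _ a => a.2)) u v hu hv
    (b.trans h1) (subset_eq_empty (inter_subset_inter_left _ b) h2)).imp (key u v hu hv h1 h2)
    (key v u hv hu (union_comm u v ▸ h1) (inter_comm u v ▸ h2))

variable {p' : S → M} {q' : M → S} {E' X' : Set M}

theorem lift2 (h : Blob p q E X) (h' : Blob p' q' E' X') {φ : M ≃ₜ M} (hE : ∀ y, φ y ∈ E' ↔ y ∈ E)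
    (hX : ∀ y, φ y ∈ X' ↔ y ∈ X) {g : M → OpenPartialHomeomorph S S}
    (hg : ∀ x ∈ X, Dat2 p p' φ x (g x)) :
    ∃ Φ : S ≃ₜ S, (∀ s, p' (Φ s) = φ (p s)) ∧ ∀ x ∈ X, ∀ᶠ s in 𝓝ˢ (p ⁻¹' {x}), Φ s = g x s := by
  classical
  let L : S → S := fun s => if p s ∈ X then g (p s) s else q' (φ (p s))
  have l1 : ∀ s, p s ∈ X → L s = g (p s) s := fun s hs => if_pos hs
  have l2 : ∀ s, p s ∉ X → L s = q' (φ (p s)) := fun s hs => if_neg hs
  have r : ∀ y, y ∉ E ∪ X → φ y ∉ E' ∪ X' := fun y hy c => hy (c.imp (hE y).1 (hX y).1)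
  have l3 : ∀ s, p' (L s) = φ (p s) := fun s => by
    by_cases hs : p s ∈ X
    · rw [l1 s hs]; exact (hg _ hs).2.1.subset ⟨s, rfl, rfl⟩
    · rw [l2 s hs, h'.pq _ (r _ (h.reg hs))]
  have l4 : ∀ x ∈ X, ∀ᶠ s in 𝓝ˢ (p ⁻¹' {x}), L s = g x s := fun x hx => by
    filter_upwards [(hg x hx).2.2, ev_fibre h.cont (h.iso x hx)] with s a b
    by_cases hs : p s ∈ X
    · rw [l1 s hs, b (Or.inr hs)]
    · exact h'.inj (by rw [l3]; exact mt (hX _).1 hs) ((l3 s).trans a.symm)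
  refine (exists_homeo_of_lh (f := L) ⟨fun s t e => ?_, fun t => ?_⟩ fun s => ?_).imp
    fun Φ (hΦ : ∀ s, Φ s = L s) => ⟨fun s => hΦ s ▸ l3 s, fun x hx => (l4 x hx).mono fun s a => (hΦ s).trans a⟩
  · have a : p s = p t := φ.injective (by rw [← l3, e, l3])
    by_cases hs : p s ∈ X
    · rw [l1 s hs, l1 t (a ▸ hs), ← a] at e
      exact (g _).injOn ((hg _ hs).1 rfl) ((hg _ hs).1 a.symm) e
    · exact h.inj hs a
  · obtain ⟨y, hy⟩ := φ.surjective (p' t)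
    by_cases hs : y ∈ X
    · obtain ⟨s, a, b⟩ := (hg y hs).2.1.superset (show t ∈ p' ⁻¹' {φ y} from hy.symm)
      replace a : p s = y := a
      exact ⟨s, by rw [l1 s (a ▸ hs), a, b]⟩
    · have a : y ∉ E ∪ X := fun c => c.elim (fun c => h'.notE t (hy ▸ (hE y).2 c)) hs
      exact ⟨q y, by rw [l2 _ (by rwa [h.pq y a]), h.pq y a, hy, h'.qp t (hy ▸ mt (hX y).1 hs)]⟩
  · by_cases hs : p s ∈ X
    · exact (lh_oph _ ((hg _ hs).1 rfl)).congr
        (EventuallyEq.symm (eventually_nhdsSet_iff_forall.1 (l4 _ hs) s rfl))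
    · exact (((h.lh_p hs).comp (lh_homeo φ _)).comp (h'.lh_q (r _ (h.reg hs)))).congr
        ((h.ev_reg hs).mono fun t ht => (l2 t ht).symm)

theorem lift (h : Blob p q E X) {φ : M ≃ₜ M} (hE : φ ∈ Stab E) (hX : φ ∈ Stab X)
    {g : M → OpenPartialHomeomorph S S} (hg : ∀ x ∈ X, Dat p φ x (g x)) :
    ∃ Φ : S ≃ₜ S, (∀ s, p (Φ s) = φ (p s)) ∧ ∀ x ∈ X, ∀ᶠ s in 𝓝ˢ (p ⁻¹' {x}), Φ s = g x s :=
  h.lift2 h hE hX hg

theorem dat_refl (h : Blob p q E X) {φ : M → M} {x : M} (hx : ∀ᶠ y in 𝓝 x, φ y = y) :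
    Dat p φ x (OpenPartialHomeomorph.refl S) :=
  ⟨subset_univ _, by simp [hx.self_of_nhds], (ev_fibre h.cont hx).mono fun _ a => a.symm⟩

theorem lift_nb (h : Blob p q E X) {φ : M ≃ₜ M} (hE : φ ∈ Stab E) (hX : φ ∈ Nb X) :
    ∃ Φ, Lf p X φ Φ :=
  let ⟨Φ, a, b⟩ := h.lift hE (Fix_le_Stab (Nb_le_Fix hX)) fun x hx => h.dat_refl (hX x hx)
  ⟨Φ, a, fun s hs => (b _ hs).self_of_nhdsSet s rfl⟩

theorem lf_fix (h : Blob p q E X) {φ : M ≃ₜ M} {Φ : S ≃ₜ S} (a : Lf p X φ Φ) {s : S}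
    (hs : φ (p s) = p s) : Φ s = s := by
  by_cases c : p s ∈ X
  exacts [a.2 s c, (h.inj c (hs.symm.trans (a.1 s).symm)).symm]

theorem lf_unique (h : Blob p q E X) {φ : M ≃ₜ M} {Φ Ψ : S ≃ₜ S} (a : Lf p X φ Φ)
    (b : Lf p X φ Ψ) : Φ = Ψ := by
  have := a.mul b.inv
  exact mul_inv_eq_one.1 (Homeomorph.ext fun s => h.lf_fix this (by simp))

theorem desc_aux (h : Blob p q E X) (h' : Blob p' q' E' X') [T1Space M] {x x' : M} (hx : x ∈ X)
    (hx' : x' ∈ X')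
    {g : OpenPartialHomeomorph S S} (hs : p ⁻¹' {x} ⊆ g.source)
    (hi : g '' (p ⁻¹' {x}) = p' ⁻¹' {x'}) {G : M → M} (g1 : G x = x')
    (g2 : ∀ y ≠ x, G y = p' (g (q y))) : ∀ᶠ y in 𝓝 x, ContinuousAt G y ∧
      (y ≠ x → y ∉ E ∪ X ∧ G y ∉ E' ∪ X') ∧ ∀ s, p s = y → s ∈ g.source ∧ p' (g s) = G y := by
  have a : ∀ W ∈ 𝓝 x', ∀ᶠ y in 𝓝 x, (y ≠ x → y ∉ E ∪ X) ∧
      ∀ s, p s = y → s ∈ g.source ∧ p' (g s) ∈ W := fun W hW => by
    filter_upwards [h.iso x hx, h.nb x hx (g.source ∩ g ⁻¹' (p' ⁻¹' W))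
      (mem_nhdsSet_iff_forall.2 fun s c => inter_mem (g.open_source.mem_nhds (hs c))
        (g.continuousAt (hs c) (h'.cont.continuousAt (by
          rwa [show p' (g s) = x' from hi.subset ⟨s, c, rfl⟩]))))] with y b c
    exact ⟨mt b, fun s e => c e⟩
  have b : ContinuousAt G x := fun W hW => by
    rw [g1] at hW
    rw [mem_map]
    filter_upwards [a W hW] with y c
    by_cases e : y = x
    · rw [mem_preimage, e, g1]; exact mem_of_mem_nhds hW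
    · rw [mem_preimage, g2 y e]; exact (c.2 _ (h.pq y (c.1 e))).2
  filter_upwards [a _ (h'.iso x' hx')] with y c
  by_cases e : y = x
  · subst e
    exact ⟨b, fun c => absurd rfl c, fun s e => ⟨hs e, g1 ▸ hi.subset ⟨s, e, rfl⟩⟩⟩
  have d := c.2 _ (h.pq y (c.1 e))
  refine ⟨((h'.cont.continuousAt.comp (g.continuousAt d.1)).comp (h.lh_q (c.1 e)).contAt).congr
    ((eventually_ne_nhds e).mono fun z hz => (g2 z hz).symm), fun _ => ⟨c.1 e, fun m => ?_⟩,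
    fun s e' => ⟨(c.2 s e').1, ?_⟩⟩
  · rw [g2 y e] at m
    obtain ⟨s, s1, s2⟩ := hi.superset (d.2 m)
    exact e (by rw [← h.pq y (c.1 e), ← g.injOn (hs s1) d.1 s2]; exact s1)
  · rw [g2 y e, ← e', h.qp s fun m => c.1 e (Or.inr (e' ▸ m))]

theorem descend (h : Blob p q E X) (h' : Blob p' q' E' X') [T1Space M] {x x' : M} (hx : x ∈ X)
    (hx' : x' ∈ X')
    {g : OpenPartialHomeomorph S S} (hs : p ⁻¹' {x} ⊆ g.source)
    (hi : g '' (p ⁻¹' {x}) = p' ⁻¹' {x'}) : ∃ G : M → M, LH G x ∧ G x = x' ∧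
      ∀ᶠ y in 𝓝 x, (y ≠ x → y ∉ E ∪ X ∧ G y ∉ E' ∪ X') ∧
        ∀ s, p s = y → s ∈ g.source ∧ p' (g s) = G y := by
  classical
  have hs' : p' ⁻¹' {x'} ⊆ g.symm.source := hi ▸ image_subset_iff.2 fun s c => g.map_source (hs c)
  have hi' : g.symm '' (p' ⁻¹' {x'}) = p ⁻¹' {x} := by
    rw [← hi, image_image]; exact (image_congr fun s c => g.left_inv (hs c)).trans (image_id _)
  let G : M → M := fun y => if y = x then x' else p' (g (q y))
  let G' : M → M := fun y => if y = x' then x else p (g.symm (q' y))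
  have a := h.desc_aux h' hx hx' hs hi (G := G) (if_pos rfl) fun y hy => if_neg hy
  have b := h'.desc_aux h hx' hx hs' hi' (G := G') (if_pos rfl) fun y hy => if_neg hy
  have G0 : G x = x' := if_pos rfl
  have G0' : G' x' = x := if_pos rfl
  refine ⟨G, lh_of_local (g := G') ?_ ?_, G0, a.mono fun _ c => c.2⟩
  · filter_upwards [a, a.self_of_nhds.1.eventually (G0 ▸ b)] with y c d
    obtain ⟨s, rfl⟩ := h.surj (y := y) fun m => by
      by_cases e : y = x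
      exacts [h.disj hx (e ▸ m), (c.2.1 e).1 (Or.inl m)]
    exact ⟨c.1, by rw [← (d.2.2 _ (c.2.2 s rfl).2).2, g.left_inv (c.2.2 s rfl).1]⟩
  · rw [G0]
    filter_upwards [b, b.self_of_nhds.1.eventually (G0' ▸ a)] with y c d
    obtain ⟨s, rfl⟩ := h'.surj (y := y) fun m => by
      by_cases e : y = x'
      exacts [h'.disj hx' (e ▸ m), (c.2.1 e).1 (Or.inl m)]
    exact ⟨c.1, by rw [← (d.2.2 _ (c.2.2 s rfl).2).2, g.right_inv (c.2.2 s rfl).1]⟩

theorem descend_nb (h : Blob p q ∅ X) {a : S ≃ₜ S}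
    (ha : ∀ x ∈ X, ∀ᶠ s in 𝓝ˢ (p ⁻¹' {x}), a s = s) : ∃ b ∈ Nb X, Lf p X b a := by
  classical
  have f1 : ∀ s, p s ∈ X → a s = s := fun s hs => (ha _ hs).self_of_nhdsSet s rfl
  have f2 : ∀ s, p s ∉ X → p (a s) ∉ X := fun s hs c => hs (a.injective (f1 _ c) ▸ c)
  let L : M → M := fun y => if y ∈ X then y else p (a (q y))
  have l1 : ∀ s, L (p s) = p (a s) := fun s => by
    by_cases c : p s ∈ X
    · rw [f1 s c]; exact if_pos c
    · exact (if_neg c).trans (by rw [h.qp s c])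
  have su : ∀ y, ∃ s, p s = y := fun y => h.surj (notMem_empty y)
  have l2 : ∀ x ∈ X, ∀ᶠ y in 𝓝 x, L y = y := fun x hx => by
    filter_upwards [h.nb x hx _ (ha x hx)] with y hy
    obtain ⟨s, rfl⟩ := su y
    rw [l1, show a s = s from hy rfl]
  refine (exists_homeo_of_lh (f := L) ⟨fun y z e => ?_, fun y => ?_⟩ fun y => ?_).imp
    fun b (hb : ∀ s, b s = L s) => ⟨fun x hx => (l2 x hx).mono fun y c => (hb y).trans c, fun s => by rw [hb, l1], f1⟩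
  · obtain ⟨s, rfl⟩ := su y
    obtain ⟨t, rfl⟩ := su z
    rw [l1, l1] at e
    by_cases c : p s ∈ X
    · rw [f1 s c] at e
      rwa [f1 t (by_contra fun d => f2 t d (e ▸ c))] at e
    · rw [a.injective (h.inj (f2 s c) e)]
  · obtain ⟨s, rfl⟩ := su y
    exact ⟨p (a.symm s), by rw [l1, a.apply_symm_apply]⟩
  · by_cases c : y ∈ X
    · exact (lh_id y).congr (EventuallyEq.symm (l2 y c))
    · have d : y ∉ ∅ ∪ X := by simpa using c
      refine (((h.lh_q d).comp (lh_homeo a _)).comp (h.lh_p (f2 _ (by rwa [h.pq y d])))).congr ?_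
      filter_upwards [h.cl.isOpen_compl.mem_nhds d] with z hz
      exact (if_neg fun m => hz (Or.inr m)).symm

end Blob

end Pool.Agent.Lib.MP_069d55_gt.K
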