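import Pool.Agent.Lib.MP_069d55_gt.GDead

/-! Collapsing discs; the closed surface obtained by collapsing neighbourhoods of the ends. -/

open Set Topology Filter Metric OnePoint

namespace Pool.Agent.Lib.MP_069d55_gt.K

theorem exists_collapse_plane : ∃ μ : ℂ → ℂ, Continuous μ ∧ Function.Surjective μ ∧
    (∀ z, μ z = 0 ↔ ‖z‖ ≤ 1) ∧ InjOn μ {z | 1 < ‖z‖} ∧ ∀ z ∉ closedBall (0 : ℂ) 2, μ z = z := by
  let n : ℝ → ℝ := fun t => min 1 (2 - 2 / max 1 t)
  have n1 : ∀ t, 1 < t → t * n t = min t (2 * t - 2) := fun t ht => by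
    simp only [n, max_eq_right ht.le]
    rw [mul_min_of_nonneg _ _ (by linarith)]; congr 1
    · ring
    · field_simp
  have n2 : ∀ t, 1 < t → 0 < n t := fun t ht => pos_of_mul_pos_right
    (n1 t ht ▸ lt_min (by linarith) (by linarith)) (show 0 ≤ t by linarith)
  have nm : ∀ z : ℂ, 1 < ‖z‖ → ‖z * (n ‖z‖ : ℝ)‖ = min ‖z‖ (2 * ‖z‖ - 2) := fun z hz => by
    rw [norm_mul, Complex.norm_real, Real.norm_of_nonneg (n2 _ hz).le, n1 _ hz]
  refine ⟨fun z => z * (n ‖z‖ : ℝ), ?_, fun y => ?_, fun z => ⟨fun h => by_contra fun c => ?_,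
    fun h => by simp [n, max_eq_left h]⟩, fun z hz w hw e => ?_, fun z hz => ?_⟩
  · exact continuous_id.mul (Complex.continuous_ofReal.comp (continuous_const.min
      (continuous_const.sub (continuous_const.div (by fun_prop) fun z => by positivity))))
  · by_cases y0 : y = 0
    · exact ⟨0, by simp [y0]⟩
    have s0 := norm_pos_iff.2 y0
    set t := max ‖y‖ (‖y‖ / 2 + 1)
    have t1 : 1 < t := lt_max_of_lt_right (by linarith)
    have a : ‖y * (t / ‖y‖ : ℝ)‖ = t := by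
      rw [norm_mul, Complex.norm_real, Real.norm_of_nonneg (by positivity)]; field_simp
    have b : t * n t = ‖y‖ := by
      rw [n1 t t1]
      rcases le_total ‖y‖ (‖y‖ / 2 + 1) with h | h
      · rw [show t = _ from max_eq_right h, min_eq_right (by linarith)]; ring
      · rw [show t = _ from max_eq_left h, min_eq_left (by linarith)]
    refine ⟨y * (t / ‖y‖ : ℝ), ?_⟩
    simp only [a]
    rw [mul_assoc, ← Complex.ofReal_mul, div_mul_eq_mul_div, b, div_self s0.ne']; simp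
  · have := nm z (not_le.1 c)
    rw [show z * (n ‖z‖ : ℝ) = 0 from h, norm_zero] at this
    exact (lt_min (by linarith [not_le.1 c]) (by linarith [not_le.1 c])).ne this
  · replace hz : 1 < ‖z‖ := hz
    replace hw : 1 < ‖w‖ := hw
    have a := (nm z hz).symm.trans ((congrArg norm e).trans (nm w hw))
    have b : ‖z‖ = ‖w‖ := by
      rcases le_total ‖z‖ (2 * ‖z‖ - 2) with h | h <;> rcases le_total ‖w‖ (2 * ‖w‖ - 2) with h' | h' <;>
        simp only [min_eq_left, min_eq_right, h, h'] at a <;> linarith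
    simp only [b] at e
    exact mul_right_cancel₀ (Complex.ofReal_ne_zero.2 (n2 _ hw).ne') e
  · replace hz : 2 < ‖z‖ := by simpa using hz
    have : (2 : ℝ) / ‖z‖ ≤ 1 := (div_le_one (by linarith)).2 hz.le
    simp [n, max_eq_right (show 1 ≤ ‖z‖ by linarith), min_eq_left (show 1 ≤ 2 - 2 / ‖z‖ by linarith)]

/-- `ν` collapses the discs `C i` to the points `z i` and is the identity outside the `O i`. -/
structure Cl {M ι : Type*} [TopologicalSpace M] (I : Set ι) (C O : ι → Set M) (z : ι → M)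
    (ν : M → M) : Prop where
  cont : Continuous ν
  surj : Function.Surjective ν
  out : ∀ y, (∀ i ∈ I, y ∉ O i) → ∀ᶠ y' in 𝓝 y, ν y' = y'
  maps : ∀ i ∈ I, ∀ y, ν y ∈ O i ↔ y ∈ O i
  fib : ∀ i ∈ I, ∀ y, ν y = z i ↔ y ∈ C i
  mem : ∀ i ∈ I, z i ∈ interior (C i)
  inj : InjOn ν (⋃ i ∈ I, C i)ᶜ

theorem exists_Cl_one {M : Type*} [TopologicalSpace M] [T2Space M] {C O : Set M} (hC : IsDisc C)
    (hO : IsOpen O) (h : C ⊆ O) : ∃ z ν, Cl {()} (fun _ => C) (fun _ => O) (fun _ => z) ν := by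
  obtain ⟨d, d1, rfl, d3⟩ := hC.chart hO h
  obtain ⟨μ, m1, m2, m3, m4, m5⟩ := exists_collapse_plane
  have e1 : ∀ u, Function.extend d (d ∘ μ) id (d u) = d (μ u) := fun u => d1.injective.extend_apply _ _ u
  have e2 : ∀ y ∉ range d, Function.extend d (d ∘ μ) id y = y := fun y hy =>
    Function.extend_apply' _ _ _ hy
  refine ⟨d 0, Function.extend d (d ∘ μ) id, (ext_cont_gen (T := Unit) d1 (F := fun _ => μ)
    (m1.comp continuous_snd) (isCompact_closedBall 0 2) fun _ => m5).comp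
    (Continuous.prodMk_right ()), fun y => ?_, fun y hy => ?_, fun _ _ y => ?_, fun _ _ y => ?_,
    fun _ _ => ?_, ?_⟩
  · by_cases c : y ∈ range d
    · obtain ⟨u, rfl⟩ := c
      obtain ⟨u, rfl⟩ := m2 u
      exact ⟨_, e1 u⟩
    · exact ⟨y, e2 y c⟩
  · filter_upwards [((isCompact_closedBall 0 2).image d1.continuous).isClosed.isOpen_compl.mem_nhds
      fun ⟨u, _, e⟩ => hy _ rfl (e ▸ d3 u)] with y hy using ext_fix d1.injective m5 hy
  · by_cases c : y ∈ range d
    · obtain ⟨u, rfl⟩ := c; rw [e1]; exact iff_of_true (d3 _) (d3 _)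
    · rw [e2 y c]
  · by_cases c : y ∈ range d
    · obtain ⟨u, rfl⟩ := c
      rw [e1, d1.injective.eq_iff, m3, d1.injective.mem_set_image, mem_closedBall_zero_iff]
    · rw [e2 y c]; exact iff_of_false (fun e => c ⟨0, e.symm⟩) fun m => c (image_subset_range _ _ m)
  · rw [interior_image_ball d1]; exact ⟨0, mem_ball_self one_pos, rfl⟩
  · rw [biUnion_singleton]
    intro x hx y hy e
    by_cases c : x ∈ range d <;> by_cases c' : y ∈ range d
    · obtain ⟨u, rfl⟩ := c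
      obtain ⟨v, rfl⟩ := c'
      rw [e1, e1] at e
      exact congrArg d (m4 (not_le.1 fun m => hx ⟨u, by simpa, rfl⟩)
        (not_le.1 fun m => hy ⟨v, by simpa, rfl⟩) (d1.injective e))
    · obtain ⟨u, rfl⟩ := c; rw [e1, e2 y c'] at e; exact absurd ⟨_, e⟩ c'
    · obtain ⟨u, rfl⟩ := c'; rw [e1, e2 x c] at e; exact absurd ⟨_, e.symm⟩ c
    · rwa [e2 x c, e2 y c'] at e

theorem exists_Cl_of {M ι : Type*} [TopologicalSpace M] {I : Set ι} (hf : I.Finite)
    {C O : ι → Set M} {z : ι → M} {f : ι → M → M} (h : ∀ i ∈ I, C i ⊆ O i)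
    (hf' : ∀ i ∈ I, Cl {()} (fun _ => C i) (fun _ => O i) (fun _ => z i) (f i))
    (hd : I.PairwiseDisjoint O) : ∃ ν, Cl I C O z ν ∧ ∀ i ∈ I, ∀ y ∈ O i, ν y = f i y := by
  induction I, hf using Set.Finite.induction_on with
  | empty => exact ⟨id, ⟨continuous_id, Function.surjective_id, by simp, by simp, by simp, by simp,
      injOn_id _⟩, by simp⟩
  | @insert A I hA hf ih =>
    obtain ⟨ν, a, a'⟩ := ih (fun C c => h C (Or.inr c)) (fun C c => hf' C (Or.inr c))
      (hd.subset (subset_insert _ _))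
    have b := hf' A (Or.inl rfl)
    have dj : ∀ i ∈ I, ∀ y ∈ O A, y ∉ O i := fun i c y m m' =>
      hA (hd.elim_set (Or.inl rfl) (Or.inr c) y m m' ▸ c)
    have i1 : ∀ y ∈ O A, ν y = y := fun y m => (a.out y fun C c => dj C c y m).self_of_nhds
    have i2 : ∀ y ∉ O A, f A y = y := fun y m => (b.out y fun _ _ => m).self_of_nhds
    have i3 : ∀ y ∉ O A, ν y ∉ O A := fun y m m' => by
      by_cases c : ∃ C ∈ I, y ∈ O C
      · obtain ⟨C, c1, c2⟩ := c; exact dj C c1 _ m' ((a.maps C c1 y).2 c2)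
      · push Not at c; exact m ((a.out y c).self_of_nhds ▸ m')
    have j1 : ∀ y ∈ O A, f A (ν y) = f A y := fun y m => by rw [i1 y m]
    have j2 : ∀ y ∉ O A, f A (ν y) = ν y := fun y m => i2 _ (i3 y m)
    have m1 := b.maps () rfl
    have zA : ∀ i ∈ insert A I, z i ∈ O i := fun i c =>
      h i c (interior_subset ((hf' i c).mem () rfl))
    refine ⟨f A ∘ ν, ⟨b.cont.comp a.cont, b.surj.comp a.surj, fun y hy => ?_, ?_, ?_,
      fun C c => (hf' C c).mem () rfl, fun x hx y hy e => ?_⟩, ?_⟩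
    · filter_upwards [a.out y fun C c => hy C (Or.inr c), b.out y fun _ _ => hy A (Or.inl rfl)]
        with y u v using by rw [Function.comp_apply, u, v]
    · intro i c y
      by_cases m : y ∈ O A <;> rcases c with rfl | c
      · exact iff_of_true ((m1 _).2 ((i1 y m).symm ▸ m)) m
      · exact iff_of_false (dj i c _ ((m1 _).2 ((i1 y m).symm ▸ m))) (dj i c y m)
      · exact iff_of_false (mt (m1 _).1 (i3 y m)) m
      · rw [Function.comp_apply, j2 y m, a.maps i c]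
    · intro i c y
      by_cases m : y ∈ O A <;> rcases c with rfl | c
      · rw [Function.comp_apply, j1 y m, b.fib () rfl]
      · rw [Function.comp_apply, j1 y m]
        exact iff_of_false (fun e => dj i c _ ((m1 y).2 m) (e ▸ zA i (Or.inr c)))
          fun e => dj i c y m (h i (Or.inr c) e)
      · rw [Function.comp_apply, j2 y m]
        exact iff_of_false (fun e => i3 y m (e ▸ zA i (Or.inl rfl))) fun e => m (h i (Or.inl rfl) e)
      · rw [Function.comp_apply, j2 y m, a.fib i c]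
    · rw [biUnion_insert, compl_union] at hx hy
      simp only [Function.comp_apply] at e
      by_cases m : x ∈ O A <;> by_cases m' : y ∈ O A
      · rw [j1 x m, j1 y m'] at e
        exact b.inj (by simpa using hx.1) (by simpa using hy.1) e
      · rw [j1 x m, j2 y m'] at e; exact absurd (e ▸ (m1 x).2 m) (i3 y m')
      · rw [j2 x m, j1 y m'] at e; exact absurd (e ▸ (m1 y).2 m') (i3 x m)
      · rw [j2 x m, j2 y m'] at e; exact a.inj hx.2 hy.2 e
    · rintro i (rfl | c) y m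
      · exact j1 y m
      · exact (j2 y fun m' => dj i c y m' m).trans (a' i c y m)

theorem exists_Cl {M ι : Type*} [TopologicalSpace M] [T2Space M] [Nonempty M] {I : Set ι}
    (hf : I.Finite) {C O : ι → Set M} (h : ∀ i ∈ I, IsDisc (C i) ∧ IsOpen (O i) ∧ C i ⊆ O i)
    (hd : I.PairwiseDisjoint O) : ∃ z ν, Cl I C O z ν := by
  choose! z f hf' using fun C hC => exists_Cl_one (h C hC).1 (h C hC).2.1 (h C hC).2.2
  exact ⟨z, (exists_Cl_of hf (fun i c => (h i c).2.2) hf' hd).imp fun _ => And.left⟩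

section
variable {ι : Type*} {I : Set ι} {C O : ι → Set (OnePoint ℂ)} {z : ι → OnePoint ℂ}
  {ν : OnePoint ℂ → OnePoint ℂ}

theorem Cl.mem_iff (h : Cl I C O z ν) (y : OnePoint ℂ) : ν y ∈ z '' I ↔ y ∈ ⋃ i ∈ I, C i :=
  ⟨fun ⟨i, a, b⟩ => mem_biUnion a ((h.fib i a y).1 b.symm), fun m =>
    let ⟨i, a, b⟩ := mem_iUnion₂.1 m; ⟨i, a, ((h.fib i a y).2 b).symm⟩⟩

theorem Cl.blob (h : Cl I C O z ν) (hf : I.Finite) : ∃ μ, Blob ν μ ∅ (z '' I) :=
  exists_blob_of_closed h.cont (hf.image z) h.surj (h.inj.mono fun y hy c => hy ((h.mem_iff y).2 c))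
    h.cont.isClosedMap

variable {S : Type*} [TopologicalSpace S] {o : Ori S} {p : S → OnePoint ℂ} {q : OnePoint ℂ → S}
  {E X : Set (OnePoint ℂ)}

theorem Blob.finite_diff {M : Type*} [TopologicalSpace M] [CompactSpace M] {p : S → M} {q : M → S}
    {E X U : Set M} (h : Blob p q E X) (hU : E ⊆ interior U) : (X \ U).Finite :=
  (h.finite_inter isOpen_interior.isClosed_compl.isCompact (disjoint_left.2 fun _ a b =>
    a (hU b))).subset fun _ hy => ⟨hy.1, fun m => hy.2 (interior_subset m)⟩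

theorem BS.surj_cl (h : BS o p q E X) (c : Cl I C O z ν) (hE : ∀ x ∈ E, ∃ i ∈ I, x ∈ interior (C i))
    (y : OnePoint ℂ) : ∃ s, ν (p s) = y := by
  obtain ⟨y, rfl⟩ := c.surj y
  by_cases m : y ∈ E
  · obtain ⟨i, a, b⟩ := hE y m
    obtain ⟨w, w1, w2⟩ := h.te.nd _ isOpen_interior ⟨y, b⟩
    exact ⟨q w, by
      rw [h.pq w w2, (c.fib i a _).2 (interior_subset w1), (c.fib i a _).2 (interior_subset b)]⟩
  · obtain ⟨s, rfl⟩ := h.surj m; exact ⟨s, rfl⟩

theorem subset_interior_biUnion {M : Type*} [TopologicalSpace M] {E : Set M} {C : ι → Set M}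
    (hE : ∀ x ∈ E, ∃ i ∈ I, x ∈ interior (C i)) : E ⊆ interior (⋃ i ∈ I, C i) := fun x hx =>
  let ⟨_, a, b⟩ := hE x hx; interior_mono (subset_biUnion_of_mem a) b

/-- The closed surface obtained by collapsing the parts of `S` over the discs. -/
structure Mdl (o : Ori S) (p : S → OnePoint ℂ) (X U : Set (OnePoint ℂ))
    (ν : OnePoint ℂ → OnePoint ℂ) {M : Type} [TopologicalSpace M] (oM : Ori M) (π : S → M)
    (σ : M → S) (Z : Set M) (r : M → OnePoint ℂ) (ρ : OnePoint ℂ → M) : Prop where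
  bl : Blob π σ ∅ Z
  clo : IsClosedMap π
  sg : ∀ s, π s ∉ Z → Sg o oM π s 1
  fin : Z.Finite
  mem : ∀ s, π s ∈ Z ↔ p s ∈ U
  br : Blob r ρ ∅ (X \ U)
  finY : (X \ U).Finite
  comm : ∀ s, r (π s) = ν (p s)
  hand : ∀ y ∈ X \ U, ∃ j o, TC j o ∧ ∃ B ∈ 𝓝 y, r ⁻¹' B ⊆ j '' {o}ᶜ

theorem Std.exists_model [T2Space S] [Charted S] [ConnectedSpace S] (h : Std o p q E X)
    (hf : I.Finite) (c : Cl I C O z ν)
    (hC : ∀ i ∈ I, IsDisc (C i) ∧ ∀ y ∈ E ∪ X, y ∈ O i → y ∈ interior (C i))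
    (hE : ∀ x ∈ E, ∃ i ∈ I, x ∈ interior (C i)) :
    ∃ (M : Type) (_ : MetricSpace M) (_ : CompactSpace M) (_ : Charted M) (_ : PreconnectedSpace M)
      (oM : Ori M) (π : S → M) (σ : M → S) (Z : Set M) (r : M → OnePoint ℂ) (ρ : OnePoint ℂ → M),
      Mdl o p X (⋃ i ∈ I, C i) ν oM π σ Z r ρ := by
  set 𝒰 := ⋃ i ∈ I, C i
  have uc : IsClosed 𝒰 := hf.isClosed_biUnion fun C a => (hC C a).1.isCompact.isClosed
  have kc : IsCompact (interior 𝒰)ᶜ := isOpen_interior.isClosed_compl.isCompact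
  have kE : Disjoint (interior 𝒰)ᶜ E := disjoint_left.2 fun x a b => a (subset_interior_biUnion hE b)
  have hY : (X \ 𝒰).Finite := h.finite_diff (subset_interior_biUnion hE)
  have := hY.fintype
  have νY : ∀ y ∈ X \ 𝒰, ∀ᶠ y' in 𝓝 y, ν y' = y' := fun y hy => c.out y fun i a m =>
    hy.2 (mem_biUnion a (interior_subset ((hC i a).2 y (Or.inr hy.1) m)))
  choose U u1 j cc u2 using fun x : ↥(X \ 𝒰) => h.hand x x.2.1 _ (inter_mem
    (uc.isOpen_compl.mem_nhds x.2.2) (νY x x.2))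
  let J : S → OnePoint ℂ × (↥(X \ 𝒰) → Tor) := fun s => (ν (p s), fun x => cc x s)
  have Jc : Continuous J := (c.cont.comp h.cont).prodMk (continuous_pi fun x => (u2 x).cont)
  have J1 : ∀ i ∈ I, ∀ s, p s ∈ C i → J s = (z i, fun _ => oo) := fun i a s hs =>
    Prod.ext ((c.fib i a _).2 hs) (funext fun x => (u2 x).out s fun m => (u1 x m).1 (mem_biUnion a hs))
  have pe : ∀ s s', p s ∉ 𝒰 → ν (p s) = ν (p s') → p s = p s' := fun s s' a b =>
    c.inj a (fun m => a ((c.mem_iff _).1 (b ▸ (c.mem_iff _).2 m))) b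
  have J2 : ∀ s s', p s ∉ 𝒰 → J s = J s' → s = s' := fun s s' a b => by
    have e := pe s s' a (congrArg Prod.fst b)
    by_cases m : p s ∈ X
    · have x := u2 ⟨_, m, a⟩
      exact (x.jc (s := s) x.mem).2.symm.trans ((congrArg _ (congrFun (congrArg Prod.snd b)
        ⟨_, m, a⟩)).trans (x.jc (s := s') (by rw [← e]; exact x.mem)).2)
    · exact h.inj m e
  have Jcl : ∀ A, IsClosed A → IsCompact (J '' A) := fun A hA => by
    have : J '' A = J '' (p ⁻¹' (interior 𝒰)ᶜ ∩ A) ∪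
        (fun C => (z C, fun _ => oo)) '' I ∩ J '' A := by
      refine Subset.antisymm ?_ (union_subset (image_mono inter_subset_right) inter_subset_right)
      rintro _ ⟨s, hs, rfl⟩
      by_cases m : p s ∈ 𝒰
      · obtain ⟨C, a, b⟩ := mem_iUnion₂.1 m; exact Or.inr ⟨⟨C, a, (J1 C a s b).symm⟩, s, hs, rfl⟩
      · exact Or.inl ⟨s, ⟨fun n => m (interior_subset n), hs⟩, rfl⟩
    rw [this]
    exact (((h.prop _ kc kE).inter_right hA).image Jc).union
      ((hf.image _).inter_of_left _).isCompact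
  let π : S → range J := rangeFactorization J
  have πc : Continuous π := Jc.subtype_mk _
  have πs : Function.Surjective π := rangeFactorization_surjective
  have : CompactSpace (range J) := isCompact_iff_compactSpace.1 (image_univ ▸ Jcl _ isClosed_univ)
  have : PreconnectedSpace (range J) := ⟨πs.range_eq ▸ isPreconnected_range πc⟩
  let Z : Set (range J) := π '' (p ⁻¹' 𝒰)
  have mem : ∀ s, π s ∈ Z ↔ p s ∈ 𝒰 := fun s => ⟨fun ⟨s', a, b⟩ => by_contra fun m =>
    m (J2 s s' m (congrArg Subtype.val b).symm ▸ a), fun a => ⟨s, a, rfl⟩⟩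
  have Zf : Z.Finite := ((hf.image fun C => (z C, fun _ => oo)).preimage
    Subtype.val_injective.injOn).subset (by
      rintro _ ⟨s, m, rfl⟩
      obtain ⟨C, a, b⟩ := mem_iUnion₂.1 m; exact ⟨C, a, (J1 C a s b).symm⟩)
  have clo : IsClosedMap π := fun A hA => by
    convert (Jcl A hA).isClosed.preimage (continuous_subtype_val (p := (· ∈ range J))) using 1
    ext m; exact ⟨fun ⟨s, a, b⟩ => ⟨s, a, congrArg Subtype.val b⟩, fun ⟨s, a, b⟩ => ⟨s, a, Subtype.ext b⟩⟩
  obtain ⟨σ, bπ⟩ := exists_blob_of_closed πc Zf πs (fun s a s' _ b => J2 s s' (mt (mem s).2 a)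
    (congrArg Subtype.val b)) clo
  let r : range J → OnePoint ℂ := fun m => m.1.1
  have rc : Continuous r := continuous_fst.comp continuous_subtype_val
  obtain ⟨ρ, br⟩ := exists_blob_of_closed rc hY (fun y =>
    let ⟨s, hs⟩ := h.surj_cl c hE y; ⟨π s, hs⟩) (fun m a m' _ b => by
      obtain ⟨s, rfl⟩ := πs m
      obtain ⟨s', rfl⟩ := πs m'
      by_cases e : p s ∈ 𝒰
      · obtain ⟨C, c1, c2⟩ := mem_iUnion₂.1 e
        exact Subtype.ext ((J1 C c1 s c2).trans (J1 C c1 s' ((c.fib C c1 _).1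
          (b.symm.trans ((c.fib C c1 _).2 c2)))).symm)
      · exact congrArg π (h.inj (fun x => a (show ν (p s) ∈ _ by
          rw [(νY _ ⟨x, e⟩).self_of_nhds]; exact ⟨x, e⟩)) (pe s s' e b))) rc.isClosedMap
  have ch : Charted (range J) := charted_of_lh fun m => by
    obtain ⟨s, rfl⟩ := πs m
    by_cases e : π s ∈ Z
    · have a : r (π s) ∉ X \ 𝒰 := fun x => by
        obtain ⟨C, c1, c2⟩ := mem_iUnion₂.1 ((mem s).1 e)
        exact x.2 (mem_biUnion c1 (interior_subset (by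
          rw [show r (π s) = z C from (c.fib C c1 _).2 c2]; exact c.mem C c1)))
      obtain ⟨d, u, d1, d2⟩ := exists_chart (r (π s))
      exact ⟨ρ ∘ d, u, d1.comp (d2 ▸ br.lh_q (br.reg a)), by rw [Function.comp_apply, d2, br.qp _ a]⟩
    · obtain ⟨d, u, d1, d2⟩ := exists_chart s
      exact ⟨π ∘ d, u, d1.comp (d2 ▸ bπ.lh_p e), congrArg π d2⟩
  obtain ⟨oM, hoM⟩ := exists_ori_ext o Zf (g := σ) fun y hy => bπ.lh_q (by simpa using hy)
  refine ⟨range J, inferInstance, inferInstance, ch, inferInstance, oM, π, σ, Z, r, ρ, bπ, clo,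
    fun s hs => ?_, Zf, mem, br, hY, fun _ => rfl, fun y hy => ⟨π ∘ j ⟨y, hy⟩, oo, ?_, U ⟨y, hy⟩,
      (u2 _).op.mem_nhds (u2 ⟨y, hy⟩).mem, fun m hm => ?_⟩⟩
  · have := (hoM _ hs).inv (g := π) (by rw [bπ.qp s hs]; exact bπ.lh_p hs)
      ((Zf.isClosed.isOpen_compl.eventually_mem hs).mono fun y hy => bπ.pq y (by simpa using hy))
    rwa [bπ.qp s hs] at this
  · have n := fun t ht => mt (mem _).1 (u1 _ ((u2 ⟨y, hy⟩).mem_U (t := t) ht)).1
    exact ⟨fun t ht => ((u2 _).tc.lh t ht).comp (bπ.lh_p (n t ht)),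
      fun t ht t' ht' e => (u2 _).tc.inj ht ht' (bπ.inj (n t ht) e)⟩
  · obtain ⟨s, rfl⟩ := πs m
    have a : ν (ν (p s)) = ν (p s) := (u1 _ hm).2
    have b : p s ∉ 𝒰 := fun x => (u1 _ hm).1 ((c.mem_iff _).1 (a.symm ▸ (c.mem_iff _).2 x))
    have e : p s = ν (p s) := c.inj b (u1 _ hm).1 a.symm
    obtain ⟨t, t1, t2⟩ := (u2 ⟨y, hy⟩).rg.symm.subset (show p s ∈ U ⟨y, hy⟩ by rw [e]; exact hm)
    exact ⟨t, t1, congrArg π t2⟩

end

end Pool.Agent.Lib.MP_069d55_gt.K
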