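import Pool.Agent.Lib.MP_069d55_gt.GComp

/-! In infinite genus all compactly supported homeomorphisms act trivially. -/

open Set Topology Filter Metric OnePoint

namespace Pool.Agent.Lib.MP_069d55_gt.K

section
variable {M : Type*} [MetricSpace M] [Charted M] {o : Ori M} {Z Q : Set M}

theorem exists_germ_fix (hZ : Z.Finite) {γ : M ≃ₜ M} (h1 : γ ∈ Fix Z) (h2 : γ ∈ OPS o)
    (hQ : IsOpen Q) (hZQ : Z ⊆ Q) : ∃ t ∈ AA Q, t * γ ∈ Nb Z := by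
  obtain ⟨O, O1, O2⟩ := exists_disjoint_opens hZ (C := fun i => {i}) (fun _ _ => isClosed_singleton)
    fun i hi j hj hij => disjoint_singleton.2 hij
  have hO : ∀ i ∈ Z, O i ∩ Q ∈ 𝓝 i := fun i hi => ((O1 i).1.inter hQ).mem_nhds ⟨(O1 i).2 rfl, hZQ hi⟩
  choose! t t1 t2 using fun i hi => germ_loc (inv_mem h2 i) (inv_mem h1 i hi) (hO i hi)
  obtain ⟨T, T1, T2, -⟩ := glue_open hZ (O2.mono fun _ => inter_subset_left) t1
  refine ⟨T, AA_mono (iUnion₂_subset fun _ _ => inter_subset_right) T1, fun i hi => ?_⟩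
  filter_upwards [(γ.continuous.tendsto' i i (h1 i hi)).eventually ((t2 i hi).and (hO i hi))]
    with y a
  rw [Homeomorph.mul_apply, T2 i hi _ a.2, a.1]; simp

variable [CompactSpace M]

omit [Charted M] in
theorem near_of_nhds {A : Set (M ≃ₜ M)} (hA : A ∈ 𝓝 1) :
    ∃ ε > 0, ∀ γ : M ≃ₜ M, (∀ x, dist (γ x) x < ε) → γ ∈ A := by
  rw [nhds_induced] at hA
  obtain ⟨B, b1, b2⟩ := hA
  obtain ⟨ε, hε, h⟩ := Metric.mem_nhds_iff.1 b1
  exact ⟨ε, hε, fun γ a => b2 (h ((ContinuousMap.dist_lt_iff hε).2 a))⟩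

variable [PreconnectedSpace M]

theorem ev_OPS (o : Ori M) : ∀ᶠ γ : M ≃ₜ M in 𝓝 1, γ ∈ OPS o := by
  rcases isEmpty_or_nonempty M with h | ⟨⟨x⟩⟩
  · exact .of_forall fun _ x => h.elim x
  exact (Sg.family (F := id) continuous_hm_eval (t := 1) (sg_id o x)).mono fun _ => OPS_of_sg

theorem HS.nb_le {r : M → OnePoint ℂ} {q : OnePoint ℂ → M} {Y : Set (OnePoint ℂ)} (h : HS r q Y)
    (o : Ori M) (hZ : Z.Finite) (hQ : IsOpen Q) (hZQ : Z ⊆ Q) (hn : Z.Nonempty)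
    {V : Subgroup (M ≃ₜ M)} (near : ∀ᶠ γ in 𝓝 1, ∀ t ∈ AA Q, t * γ ∈ Nb Z → t * γ ∈ V)
    (kill : ∀ Ω, IsOpen Ω → IsPreconnected Ω → Z ⊆ Ω → Fix Ω ≤ V) : Nb Z ≤ V := by
  have alt : ∀ {γ t}, t ∈ AA Q → t * γ ∈ Nb Z → t * γ ∈ V →
      ∀ t' ∈ AA Q, t' * γ ∈ Nb Z → t' * γ ∈ V := fun {γ t} a b c t' d e => by
    have := near.self_of_nhds _ (mul_mem d (inv_mem a)) (by
      simpa [mul_assoc] using mul_mem e (inv_mem b))
    simpa [mul_assoc] using mul_mem this c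
  let G : Subgroup (M ≃ₜ M) :=
    { carrier := {γ | γ ∈ Fix Z ∧ γ ∈ OPS o ∧ ∀ t ∈ AA Q, t * γ ∈ Nb Z → t * γ ∈ V}
      one_mem' := ⟨one_mem _, one_mem _, near.self_of_nhds⟩
      mul_mem' := fun {a b} ha hb => by
        obtain ⟨t, t1, t2⟩ := exists_germ_fix hZ ha.1 ha.2.1 hQ hZQ
        obtain ⟨u, u1, u2⟩ := exists_germ_fix hZ hb.1 hb.2.1 (hQ.inter (hQ.preimage a.continuous))
          fun x hx => ⟨hZQ hx, by rw [mem_preimage, ha.1 x hx]; exact hZQ hx⟩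
        have e : t * (a * u * a⁻¹) * (a * b) = t * a * (u * b) := by group
        exact ⟨mul_mem ha.1 hb.1, mul_mem ha.2.1 hb.2.1, alt (mul_mem t1 (AA_mono
          (image_subset_iff.2 inter_subset_right) (AA_conj u1 a))) (e ▸ mul_mem t2 u2)
          (e ▸ mul_mem (ha.2.2 t t1 t2) (hb.2.2 u (AA_mono inter_subset_left u1) u2))⟩
      inv_mem' := fun {a} ha => by
        obtain ⟨u, u1, u2⟩ := exists_germ_fix hZ ha.1 ha.2.1 (hQ.inter (hQ.preimage a⁻¹.continuous))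
          fun x hx => ⟨hZQ hx, by rw [mem_preimage, inv_mem ha.1 x hx]; exact hZQ hx⟩
        have e : a⁻¹ * u⁻¹ * a⁻¹⁻¹ * a⁻¹ = (u * a)⁻¹ := by group
        exact ⟨inv_mem ha.1, inv_mem ha.2.1, alt (AA_mono (image_subset_iff.2 inter_subset_right)
          (AA_conj (inv_mem u1) a⁻¹)) (e ▸ inv_mem u2)
          (e ▸ inv_mem (ha.2.2 u (AA_mono inter_subset_left u1) u2))⟩ }
  obtain ⟨z, hz⟩ := hn
  have : Lam Z ≤ G := (Subgroup.closure_le _).2 (by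
    rintro c (hc | ⟨Ω, o1, o2, o3, o4⟩)
    · obtain ⟨ε, hε, e⟩ := near_of_nhds ((ev_OPS o).and near)
      exact Iso0_le_of_open (Λ := G) hε (fun γ a b => ⟨a, e γ b⟩) hc
    · have nb : c ∈ Nb Z := fun x hx => mem_of_superset (o1.mem_nhds (o3 hx)) o4
      exact ⟨Nb_le_Fix nb, OPS_of_id (nb z hz), alt (one_mem _) (by simpa using nb)
        (by simpa using kill Ω o1 o2 o3 o4)⟩)
  intro g hg
  simpa using (this (h.mem_Lam o hZ (Nb_le_Fix hg) hz (hg z hz))).2.2 1 (one_mem _) (by simpa using hg)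

end

variable {S : Type*} [TopologicalSpace S] {o : Ori S} {p : S → OnePoint ℂ} {q : OnePoint ℂ → S}
  {E X : Set (OnePoint ℂ)} [T2Space S] [Charted S] [ConnectedSpace S] {V N : Subgroup (S ≃ₜ S)}

omit [T2Space S] in
theorem Blob.ops_nb {M : Type*} [TopologicalSpace M] {π : S → M} {σ : M → S} {Z : Set M}
    (h : Blob π σ ∅ Z) (hn : Z.Nonempty) {γ : M ≃ₜ M} (hγ : γ ∈ Nb Z) {Φ : S ≃ₜ S}
    (a : Lf π Z γ Φ) : Φ ∈ OPS o := by
  obtain ⟨z, hz⟩ := hn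
  obtain ⟨s, rfl⟩ := h.sur z hz
  exact OPS_of_id ((h.cont.continuousAt.eventually (hγ _ hz)).mono fun t ht => h.lf_fix a ht)

theorem Std.cpt_le (h : Std o p q E X) (c : GC o V N) {e : OnePoint ℂ} (he : e ∈ E)
    (hX : e ∈ closure X) : AA univ ≤ V := by
  rintro g ⟨K, k1, -, k2⟩
  obtain ⟨T, t1, t2, t3⟩ := nhds_one_basis c.V_open
  obtain ⟨x, hx⟩ := closure_nonempty_iff.1 ⟨e, hX⟩
  have kc : IsCompact (⋃ a ∈ T, a.1) := t1.isCompact_biUnion fun a ha => (t2 a ha).1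
  have K0 := ((k1.union kc).image h.cont).insert x
  obtain ⟨𝒞, c1, c2, c3, c4⟩ := h.te.discs h.clE subset_union_left (O := fun _ : Unit => _)
    (fun _ => K0.isClosed.isOpen_compl) (fun y hy => mem_iUnion.2 ⟨(), by
      rintro (rfl | ⟨s, -, rfl⟩); exacts [h.disj hx hy, h.notE s hy]⟩) one_pos
  set 𝒰 := ⋃ C ∈ 𝒞, C
  have far : ∀ y ∈ 𝒰, y ∉ insert x (p '' (K ∪ ⋃ a ∈ T, a.1)) := fun y m =>
    let ⟨C, a, b⟩ := mem_iUnion₂.1 m; let ⟨_, d⟩ := (c2 C a).2.2.1; d b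
  have cc : ∀ C ∈ 𝒞, IsClosed C := fun C a => (c2 C a).1.1.isCompact.isClosed
  obtain ⟨O, O1, O2⟩ := exists_disjoint_opens c1 cc c3
  have hY : (X \ 𝒰).Finite := h.finite_diff (subset_interior_biUnion c4)
  have sO : ∀ C ∈ 𝒞, C ⊆ O C \ (X \ 𝒰) := fun C a y b => ⟨(O1 C).2 b, fun m => m.2 (mem_biUnion a b)⟩
  obtain ⟨z, ν, cl⟩ := exists_Cl c1 (C := fun C => C) (O := fun C => O C \ (X \ 𝒰))
    (fun C a => ⟨(c2 C a).1.1, (O1 C).1.sdiff hY.isClosed, sO C a⟩) (O2.mono fun _ => sdiff_subset)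
  have cov : ∀ y ∈ E ∪ X, y ∉ X \ 𝒰 → y ∈ 𝒰 := fun y a b => by_contra fun m =>
    a.elim (fun a => m (interior_subset (subset_interior_biUnion c4 a))) fun a => b ⟨a, m⟩
  obtain ⟨M, _, _, _, _, oM, π, σ, Z, r, ρ, m⟩ := h.exists_model c1 cl (fun C a =>
    ⟨(c2 C a).1.1, fun y b d => by
      obtain ⟨C', u, v⟩ := mem_iUnion₂.1 (cov y b d.2)
      obtain rfl := O2.elim_set a u y d.1 ((O1 C').2 v)
      exact (c2 C a).1.2 y b v⟩) c4
  obtain ⟨μ, bν⟩ := cl.blob c1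
  have Zn : Z.Nonempty := by
    obtain ⟨C, a, b⟩ := c4 e he
    obtain ⟨w, w1, w2⟩ := h.te.nd _ isOpen_interior ⟨e, b⟩
    exact ⟨π (q w), (m.mem _).2 (mem_biUnion a (by rw [h.pq w w2]; exact interior_subset w1))⟩
  let V' : Subgroup (M ≃ₜ M) :=
    { carrier := {γ | ∃ Φ ∈ V, Lf π Z γ Φ}
      one_mem' := ⟨1, one_mem _, Lf.one⟩
      mul_mem' := fun ⟨_, a, b⟩ ⟨_, c, d⟩ => ⟨_, mul_mem a c, b.mul d⟩
      inv_mem' := fun ⟨_, a, b⟩ => ⟨_, inv_mem a, b.inv⟩ }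
  have nz : ∀ s ∈ K ∪ ⋃ a ∈ T, a.1, π s ∉ Z := fun s hs a => far _ ((m.mem s).1 a) (Or.inr ⟨s, hs, rfl⟩)
  have zo : IsOpen (π ⁻¹' Zᶜ) := m.fin.isClosed.isOpen_compl.preimage m.bl.cont
  have hs : HS r ρ (X \ 𝒰) := ⟨m.br, hY, ⟨x, hx, fun a => far x a (Or.inl rfl)⟩, m.hand⟩
  have lift := fun γ (a : γ ∈ Nb Z) => m.bl.lift_nb (φ := γ) (fun _ => Iff.rfl) a
  have key : Nb Z ≤ V' := by
    let W : Set S × Set S → Set M := fun a => π '' (a.2 ∩ π ⁻¹' Zᶜ)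
    have Wo : ∀ a ∈ T, IsOpen (W a) := fun a ha =>
      isOpen_image_lh ((t2 a ha).2.1.inter zo) fun s hs => m.bl.lh_p hs.2
    obtain ⟨Q, Q', q1, q2, q3, q4, q5⟩ := normal_separation m.fin.isClosed
      (kc.image m.bl.cont).isClosed (disjoint_right.2 (by
        rintro _ ⟨s, hs, rfl⟩; exact nz s (Or.inr hs)))
    refine hs.nb_le oM m.fin q1 q3 Zn ?_ fun Ω o1 o2 o3 k hk => ?_
    · filter_upwards [(eventually_all_finite t1).2 fun a ha => ev_mapsTo ((t2 a ha).1.image m.bl.cont)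
        ((Wo a ha).inter q2) (by
          rintro _ ⟨s, hs, rfl⟩
          exact ⟨⟨s, ⟨(t2 a ha).2.2 hs, nz s (Or.inr (mem_biUnion ha hs))⟩, rfl⟩,
            q4 ⟨s, mem_biUnion ha hs, rfl⟩⟩)] with γ hγ t ht nb
      obtain ⟨Φ, f⟩ := lift _ nb
      refine ⟨Φ, t3 Φ (fun a ha s hs => ?_) (m.bl.ops_nb Zn nb f), f⟩
      obtain ⟨⟨s', u, v⟩, w⟩ := hγ a ha ⟨s, hs, rfl⟩
      rw [← m.bl.inj u.2 (t := Φ s) (by
        rw [f.1, Homeomorph.mul_apply, AA_fix ht (disjoint_right.1 q5 w), v])]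
      exact u.1
    obtain ⟨D, d1, d2, d3⟩ := exists_disc_finite hY.isClosed.isOpen_compl (by
      rw [compl_eq_univ_sdiff]; exact preconn_diff_finite isPreconnected_univ isOpen_univ hY)
      hY.infinite_compl.nonempty (c1.image z) (by
        rintro _ ⟨C, a, rfl⟩ b; exact b.2 (mem_biUnion a (interior_subset (cl.mem C a))))
    have rg : ∀ y ∈ D, y ∉ ∅ ∪ X \ 𝒰 := fun y a b => d2 a (b.resolve_left id)
    have rD : ∀ s, ν (p s) ∈ D → π s ∈ ρ '' D := fun s a =>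
      ⟨_, a, by rw [← m.comm, m.br.qp _ (by rw [m.comm]; exact d2 a)]⟩
    obtain ⟨ψ, -, p2, p3⟩ := gather_nb oM (d1.image_lh (fun y a => m.br.lh_q (rg y a))
      fun y a y' b e => by rw [← m.br.pq y (rg y a), e, m.br.pq y' (rg y' b)]).1 isOpen_univ
      isPreconnected_univ (subset_univ _) o1 o2 (subset_univ _) (Zn.mono o3) m.fin (fun y hy => by
        obtain ⟨s, rfl⟩ := m.bl.sur y hy
        exact rD s (interior_subset (d3 ((cl.mem_iff _).2 ((m.mem s).1 hy))))) o3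
    have nb : k ∈ Nb Z := fun x hx => mem_of_superset (o1.mem_nhds (o3 hx)) hk
    obtain ⟨Φ, f1⟩ := lift k nb
    obtain ⟨Ψ, f2⟩ := lift ψ p2
    obtain ⟨D', e1, e2, e3⟩ := sphere_compl d1 (c1.image z).isCompact d3
    have rg' : ∀ y ∈ D', y ∉ ∅ ∪ z '' 𝒞 := fun y a => by
      simpa only [empty_union] using disjoint_left.1 e3 a
    obtain ⟨g1, g2⟩ := e1.image_lh (fun y a => bν.lh_q (rg' y a))
      fun y a y' b e => by rw [← bν.pq y (rg' y a), e, bν.pq y' (rg' y' b)]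
    have nU : ∀ y ∈ μ '' D', y ∉ 𝒰 := by
      rintro _ ⟨y, a, rfl⟩ b
      exact rg' y a (Or.inr (bν.pq y (rg' y a) ▸ (cl.mem_iff _).2 b))
    have := h.dead c he hX (Δ := μ '' D') ⟨g1, fun y a b => by
      have yY : y ∈ X \ 𝒰 := by_contra fun n => nU y b (cov y a n)
      have ny := (cl.out y fun C _ n => n.2 yY).self_of_nhds
      rw [g2]
      exact ⟨y, e2 fun n => d2 (interior_subset n) yY, by
        rw [← ny, bν.qp y (mt (cl.mem_iff y).1 yY.2), ny]⟩⟩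
      (disjoint_left.2 fun y a b => nU y a (cov y (Or.inl b) fun n => h.disj n.1 b))
      (g := Ψ⁻¹ * Φ * Ψ) fun s hs => m.bl.lf_fix ((f2.inv.mul f1).mul f2) (by
        have : ν (p s) ∈ D := by
          by_cases n : ν (p s) ∈ z '' 𝒞
          · exact interior_subset (d3 n)
          · exact interior_subset (by_contra fun n' => hs ⟨_, interior_subset (e2 n'), bν.qp _ n⟩)
        simp [hk _ (p3 (rD s this))])
    exact ⟨Φ, c.N_le (by simpa [mul_assoc] using c.N_conj Ψ (m.bl.ops_nb Zn p2 f2) _ this), f1⟩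
  obtain ⟨b, b1, b2⟩ := m.bl.descend_nb (a := g) fun y hy => mem_of_superset
    (k1.isClosed.isOpen_compl.mem_nhdsSet.2 fun s (hs : π s = y) n => nz s (Or.inl n) (hs ▸ hy)) k2
  obtain ⟨Φ, f1, f2⟩ := key b1
  rwa [m.bl.lf_unique b2 f2]

end Pool.Agent.Lib.MP_069d55_gt.K
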