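import Pool.Agent.Lib.MP_069d55_gt.GStd

/-! Homeomorphisms supported over a disc without ends act trivially. -/

open Set Topology Filter Metric OnePoint

namespace Pool.Agent.Lib.MP_069d55_gt.K

variable {S : Type*} [TopologicalSpace S] {o : Ori S} {p : S → OnePoint ℂ} {q : OnePoint ℂ → S}
  {E X : Set (OnePoint ℂ)}

/-- `V` is a vertex stabiliser and `N` the kernel of an action on a locally finite graph. -/
structure GC [Charted S] (o : Ori S) (V N : Subgroup (S ≃ₜ S)) : Prop where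
  V_open : ∀ᶠ g in 𝓝 1, g ∈ OPS o → g ∈ V
  N_le : N ≤ V
  N_conj : ∀ g ∈ OPS o, ∀ n ∈ N, g * n * g⁻¹ ∈ N
  N_lim : ∀ h ∈ OPS o, (∀ U ∈ 𝓝 1, ∃ v ∈ V, v * h * v⁻¹ ∈ U) → h ∈ N

theorem stab_of_eqOn {M : Type*} [TopologicalSpace M] {F A : Set M} {φ ψ : M ≃ₜ M}
    (hA : φ ∈ Stab A) (hAF : A ⊆ F) (h : ∀ y ∈ F, ψ y = φ y) : ψ ∈ Stab A :=
  fun y => ⟨fun c => by
    have a : φ.symm (ψ y) ∈ A := (inv_mem hA _).2 c
    have b := h _ (hAF a)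
    rw [φ.apply_symm_apply] at b
    exact ψ.injective b ▸ a, fun c => (h y (hAF c)).symm ▸ (hA y).2 c⟩

theorem Blob.infinite_near {M : Type*} [TopologicalSpace M] [T1Space M] {p : S → M} {q : M → S}
    {E X : Set M} (h : Blob p q E X) {e : M} (he : e ∈ E) (hX : e ∈ closure X) {U : Set M}
    (hU : U ∈ 𝓝 e) : (X ∩ U).Infinite := fun c => by
  obtain ⟨x, a, b⟩ := mem_closure_iff_nhds.1 hX _ (inter_mem hU
    (c.isClosed.isOpen_compl.mem_nhds fun m => h.disj m.1 he))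
  exact a.2 ⟨b, a.1⟩

theorem supp_conj {A : Set (OnePoint ℂ)} {h Φ : S ≃ₜ S} {ψ : OnePoint ℂ ≃ₜ OnePoint ℂ}
    (a : ∀ s, p s ∉ A → h s = s) (b : ∀ s, p (Φ s) = ψ (p s)) (s : S) (hs : p s ∉ ψ '' A) :
    (Φ * h * Φ⁻¹) s = s := by
  have : p (Φ⁻¹ s) ∉ A := fun c => hs ⟨_, c, by rw [← b]; simp⟩
  rw [Homeomorph.mul_apply, Homeomorph.mul_apply, a _ this]; simp

variable [Charted S] [PreconnectedSpace S]

theorem Std.move_blob (h : Std o p q E X) {Ω Q Δ : Set (OnePoint ℂ)} (hΩ : IsOpen Ω)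
    (hc : IsPreconnected Ω) (hΔ : CD (E ∪ X) Δ) (hE : Disjoint Δ E) (hΔΩ : Δ ⊆ Ω) (hQ : IsOpen Q)
    (hQc : IsPreconnected Q) (hQΩ : Q ⊆ Ω) {e : OnePoint ℂ} (he : e ∈ E) (hX : e ∈ closure X)
    (heQ : e ∈ Q) : ∃ Φ ∈ OPS o, ∃ ψ : OnePoint ℂ ≃ₜ OnePoint ℂ, (∀ s, p (Φ s) = ψ (p s)) ∧
      (∀ s, p s ∉ Ω → Φ s = s) ∧ ψ ∈ Stab E ∧ ψ ∈ Stab (E ∪ X) ∧ ψ '' Δ ⊆ Q ∧ ψ ∈ OPS oS ∧
      ψ ∈ Stab X ∧ Φ ∈ AA (p ⁻¹' Ω) := by
  have dc := hΔ.1.isCompact.isClosed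
  have hW := h.finite_inter hΔ.1.isCompact hE
  obtain ⟨w, w1, w2⟩ := exists_inj_choice hW (fun _ => X ∩ (Q ∩ Δᶜ)) fun _ _ =>
    h.infinite_near he hX ((hQ.inter dc.isOpen_compl).mem_nhds ⟨heQ, disjoint_right.1 hE he⟩)
  have wX : w '' (X ∩ Δ) ⊆ X := by rintro _ ⟨x, hx, rfl⟩; exact (w2 x hx).1
  have reg : ∀ {O W}, IsOpen O → IsPreconnected O → W ⊆ X →
      IsOpen (O \ ((E ∪ X) \ W)) ∧ IsPreconnected (O \ ((E ∪ X) \ W)) := fun a b c =>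
    ⟨a.sdiff (h.isClosed_diff c), h.te.ns _ sdiff_subset (h.isClosed_diff c) _ a b⟩
  obtain ⟨o1, o2⟩ := reg hΩ hc (union_subset (inter_subset_left (t := Δ)) wX)
  obtain ⟨q1, q2⟩ := reg hQ hQc wX
  have sq : Q \ ((E ∪ X) \ w '' (X ∩ Δ)) ⊆ Ω \ ((E ∪ X) \ (X ∩ Δ ∪ w '' (X ∩ Δ))) :=
    fun y hy => ⟨hQΩ hy.1, fun c => hy.2 ⟨c.1, fun m => c.2 (Or.inr m)⟩⟩
  obtain ⟨a, a1, a2⟩ := h.te.nd Q hQ ⟨e, heQ⟩
  obtain ⟨k1, b1, b2⟩ := gather_discs o1 o2 (finite_singleton ()) (D := fun _ => Δ)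
    (fun _ _ => hΔ.1) (pairwiseDisjoint_singleton _ _) (fun _ _ y hy => ⟨hΔΩ hy, fun c =>
      c.2 (Or.inl ⟨c.1.resolve_left (disjoint_left.1 hE hy), hy⟩)⟩) (fun _ _ => q1)
    (fun _ _ => ⟨a, a1, fun c => a2 c.1⟩) fun _ _ => sq
  obtain ⟨k2, c1, c2⟩ := germClass_true.multi q1 q2 hW (p := k1) k1.injective.injOn w1
    (fun x hx => b2 () rfl hx.2) fun x hx => ⟨(w2 x hx).2.1, fun c => c.2 ⟨x, hx, rfl⟩⟩
  have d1 := hΔ.1.image (k2 * k1)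
  have d2 : (k2 * k1) '' Δ ⊆ Q \ ((E ∪ X) \ w '' (X ∩ Δ)) := by
    rintro _ ⟨y, hy, rfl⟩; exact (AA_mem_iff c1 _).2 (b2 () rfl hy)
  have k21 := mul_mem (AA_mono sq c1) b1
  obtain ⟨k3, e1, e2⟩ := germClass_true.multi (o1.sdiff d1.isCompact.isClosed)
    (d1.preconn_diff o2 o1 (d2.trans sq)) hW (p := fun x => (k2 * k1) (w x))
    ((k2 * k1).injective.comp_injOn w1) (injOn_id _)
    (fun x hx => ⟨(AA_mem_iff k21 _).2 (sq ⟨(w2 x hx).2.1, fun c => c.2 ⟨x, hx, rfl⟩⟩),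
      fun c => (w2 x hx).2.2 ((k2 * k1).injective.mem_set_image.1 c)⟩)
    fun x hx => ⟨⟨hΔΩ hx.2, fun c => c.2 (Or.inl hx)⟩, fun c => (d2 c).2 ⟨Or.inr hx.1,
      fun ⟨y, a, b⟩ => (w2 y a).2.2 (b ▸ hx.2)⟩⟩
  set φ := k3 * (k2 * k1) with hφ
  have f0 : φ ∈ AA _ := mul_mem (AA_mono sdiff_subset e1) k21
  have f1 : ∀ y ∈ Δ, φ y = (k2 * k1) y := fun y hy => AA_fix e1 fun c => c.2 ⟨y, hy, rfl⟩
  have f2 : ∀ y ∈ E ∪ X, y ∉ X ∩ Δ ∪ w '' (X ∩ Δ) → φ y = y := fun y a b =>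
    AA_fix f0 fun c => c.2 ⟨a, b⟩
  have f3 : ∀ y ∈ E, φ y = y := fun y hy => f2 y (Or.inl hy) fun c =>
    h.disj (union_subset inter_subset_left wX c) hy
  have f4 : φ '' X = X := by
    refine Subset.antisymm ?_ fun y hy => ?_
    · rintro _ ⟨y, hy, rfl⟩
      by_cases c : y ∈ X ∩ Δ ∪ w '' (X ∩ Δ)
      · rcases c with c | ⟨x, hx, rfl⟩
        · rw [f1 y c.2, Homeomorph.mul_apply, (c2 y c).1]; exact (w2 y c).1
        · rw [hφ, Homeomorph.mul_apply, (e2 x hx).1]; exact hx.1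
      · rwa [f2 y (Or.inr hy) c]
    · by_cases c : y ∈ X ∩ Δ ∪ w '' (X ∩ Δ)
      · rcases c with c | ⟨x, hx, rfl⟩
        · exact ⟨w y, (w2 y c).1, (e2 y c).1⟩
        · exact ⟨x, hx.1, (f1 x hx.2).trans (c2 x hx).1⟩
      · exact ⟨y, hy, f2 y (Or.inr hy) c⟩
  have sX := mem_Stab_iff_image.2 f4
  have sE : φ ∈ Stab E := Fix_le_Stab f3
  have sF : φ ∈ Stab (E ∪ X) := fun y => or_congr (sE y) (sX y)
  classical
  obtain ⟨K, K1, K2, K3⟩ := id f0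
  obtain ⟨Ω', w3, w4, w5⟩ := normal_exists_closure_subset K1.isClosed (hΩ.sdiff h.clE) fun y hy =>
    ⟨(K2 hy).1, fun c => (K2 hy).2 ⟨Or.inl c, fun m =>
      h.disj (union_subset inter_subset_left wX m) c⟩⟩
  obtain ⟨Φ, g1, ψ, g2, g3, g4, g5, -, g7⟩ := h.lift_AA (OPS_of_AA f0 (x := e) fun c => c.2
    ⟨Or.inl he, fun m => h.disj (union_subset inter_subset_left wX m) he⟩) sE sX
    (fun x hx => h.sim hx ((sX x).2 hx)) w3 ⟨K, K1, w4, K3⟩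
    (O := fun x => if x ∈ Δ then Δ else Δᶜ) fun x hx => by
      split_ifs with c
      exacts [mem_interior_iff_mem_nhds.1 (hΔ.2 x (Or.inr hx) c), dc.isOpen_compl.mem_nhds c]
  refine ⟨Φ, g1, ψ, g3, fun s hs => g5 s fun c => hs (w5 (subset_closure c)).1,
    stab_of_eqOn sE subset_union_left g4, stab_of_eqOn sF subset_rfl g4, ?_, g2,
    stab_of_eqOn sX subset_union_right g4, _, h.prop _ isClosed_closure.isCompact
      (disjoint_left.2 fun y a => (w5 a).2), fun s hs => (w5 hs).1,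
    fun s hs => g5 s fun c => hs (subset_closure c)⟩
  rintro _ ⟨y, hy, rfl⟩
  obtain ⟨z, z1, z2⟩ := g7 y
  have : z ∈ Δ := by
    rcases z2 with rfl | ⟨x, -, u, v⟩
    · exact hy
    · split_ifs at u v
      exacts [v, absurd hy u]
  rw [z1, f1 z this]; exact (d2 ⟨z, this, rfl⟩).1

variable [T2Space S] {V N : Subgroup (S ≃ₜ S)}

omit [Charted S] [PreconnectedSpace S] [T2Space S] in
theorem Blob.far (h : Blob p q E X) {K : Set S} (hK : IsCompact K) {e : OnePoint ℂ} (he : e ∈ E) :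
    (p '' K)ᶜ ∈ 𝓝 e :=
  (hK.image h.cont).isClosed.isOpen_compl.mem_nhds fun ⟨s, _, c⟩ => h.notE s (c ▸ he)

omit [T2Space S] in
theorem Blob.ops (h : Blob p q E X) {A : Set (OnePoint ℂ)} (hA : IsClosed A) {e : OnePoint ℂ}
    (hd : Dense (E ∪ X)ᶜ) (he : e ∉ A) {g : S ≃ₜ S} (hg : ∀ s, p s ∉ A → g s = s) : g ∈ OPS o := by
  obtain ⟨y, a, b⟩ := hd.inter_open_nonempty _ hA.isOpen_compl ⟨e, he⟩
  exact OPS_of_id (x := q y) ((h.cont.continuousAt.eventually (hA.isOpen_compl.mem_nhds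
    (by rwa [h.pq y b]))).mono hg)

omit [T2Space S] in
theorem Std.dead (h : Std o p q E X) (c : GC o V N) {e : OnePoint ℂ} (he : e ∈ E)
    (hX : e ∈ closure X) {Δ : Set (OnePoint ℂ)} (hΔ : CD (E ∪ X) Δ) (hE : Disjoint Δ E)
    {g : S ≃ₜ S} (hg : ∀ s, p s ∉ Δ → g s = s) : g ∈ N := by
  obtain ⟨K, k1, k2⟩ := nhds_one_fix c.V_open
  obtain ⟨Q, q1, q2, q3, q4⟩ := exists_conn_nhds (h.far k1 he)
  obtain ⟨Φ, a1, ψ, a2, -, a4, a5, a6, -⟩ := h.move_blob isOpen_univ isPreconnected_univ hΔ hE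
    (subset_univ _) q1 q4 (subset_univ _) he hX q2
  have gO : g ∈ OPS o :=
    h.ops hΔ.1.isCompact.isClosed h.te.dense (disjoint_right.1 hE he) hg
  have : Φ * g * Φ⁻¹ ∈ N := c.N_lim _ (mul_mem (mul_mem a1 gO) (inv_mem a1)) fun U hU => by
    obtain ⟨K', l1, l2⟩ := nhds_one_fix hU
    obtain ⟨Q', r1, r2, r3, r4⟩ := exists_conn_nhds (inter_mem (h.far l1 he) (q1.mem_nhds q2))
    obtain ⟨Ψ, b1, χ, b2, b3, -, -, b6, -⟩ := h.move_blob q1 q4 (hΔ.image a5) (disjoint_left.2 (by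
      rintro _ ⟨y, hy, rfl⟩ m; exact disjoint_left.1 hE hy ((a4 y).1 m))) a6 r1 r4
      (r3.trans inter_subset_right) he hX r2
    exact ⟨Ψ, k2 Ψ (fun s hs => b3 s fun m => q3 m ⟨s, hs, rfl⟩) b1, l2 _ fun s hs =>
      supp_conj (supp_conj hg a2) b2 s fun m => (r3 (b6 m)).1 ⟨s, hs, rfl⟩⟩
  simpa [mul_assoc] using c.N_conj Φ⁻¹ (inv_mem a1) _ this

end Pool.Agent.Lib.MP_069d55_gt.K
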