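import Pool.Agent.Lib.MP_069d55_gt.Grp

/-! The combinatorial horoball over a set with an invariant proper metric: the two questions have
the same answer for every separable group. -/

namespace Pool.Agent.Lib.MP_069d55_gt

open Set Topology Filter

noncomputable section

/-- Proper integer valued metrics. -/
structure IM {Q : Type} (D : Q → Q → ℕ) : Prop where
  self : ∀ x, D x x = 0
  symm : ∀ x y, D x y = D y x
  tri : ∀ x y z, D x z ≤ D x y + D y z
  fin : ∀ x k, {y | D x y ≤ k}.Finite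

/-- Weighted chains. -/
inductive Chain {Q : Type} (B : ℕ → Q → Q → Prop) : ℕ → Q → Q → Prop
  | refl (x : Q) : Chain B 0 x x
  | step {k n : ℕ} {x y z : Q} : B k x y → Chain B n y z → Chain B (k + 1 + n) x z

lemma Chain.trans {Q : Type} {B : ℕ → Q → Q → Prop} {m n : ℕ} {x y z : Q} (h : Chain B m x y)
    (h' : Chain B n y z) : Chain B (m + n) x z := by
  induction h with
  | refl => simpa using h'
  | step a _ ih => rw [add_assoc]; exact .step a (ih h')

lemma Chain.symm {Q : Type} {B : ℕ → Q → Q → Prop} (hB : ∀ k x y, B k x y → B k y x) {m : ℕ}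
    {x y : Q} (h : Chain B m x y) : Chain B m y x := by
  induction h with
  | refl => exact .refl _
  | step a _ ih => rw [add_comm]; exact ih.trans (.step (hB _ _ _ a) (.refl _))

lemma Chain.map {Q : Type} {B : ℕ → Q → Q → Prop} {f : Q → Q}
    (hB : ∀ k x y, B k x y → B k (f x) (f y)) {m : ℕ} {x y : Q} (h : Chain B m x y) :
    Chain B m (f x) (f y) := by
  induction h with
  | refl => exact .refl _
  | step a _ ih => exact .step (hB _ _ _ a) ih

lemma Chain.finite {Q : Type} {B : ℕ → Q → Q → Prop} (hB : ∀ k x, {y | B k x y}.Finite) (k : ℕ) :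
    ∀ x, {z | ∃ n ≤ k, Chain B n x z}.Finite := by
  induction k with
  | zero =>
    refine fun x => (finite_singleton x).subset fun z ⟨n, hn, h⟩ => ?_
    cases h with
    | refl => rfl
    | step => omega
  | succ k ih =>
    refine fun x => ((((finite_le_nat k).biUnion fun j _ => hB j x).biUnion
      fun y _ => ih y).insert x).subset fun z ⟨n, hn, h⟩ => ?_
    cases h with
    | refl => exact Or.inl rfl
    | @step j n _ y _ a b =>
      exact Or.inr (mem_biUnion (mem_biUnion (show j ≤ k by omega) a) ⟨n, by omega, b⟩)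

lemma exists_IM {G Q : Type} [Group G] [Countable Q] [Nonempty Q] (σ : G →* Equiv.Perm Q)
    (h : ∀ v w, {u | ∃ g, σ g v = v ∧ σ g w = u}.Finite) :
    ∃ D, IM D ∧ ∀ g x y, D (σ g x) (σ g y) = D x y := by
  obtain ⟨e, he⟩ := exists_surjective_nat (Q × Q)
  let B : ℕ → Q → Q → Prop := fun k x y => ∃ g, (σ g (e k).1 = x ∧ σ g (e k).2 = y) ∨
    (σ g (e k).2 = x ∧ σ g (e k).1 = y)
  have f0 : ∀ a b x, {y | ∃ g, σ g a = x ∧ σ g b = y}.Finite := fun a b x => by
    by_cases c : ∃ g, σ g a = x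
    · obtain ⟨g0, rfl⟩ := c
      exact (h (σ g0 a) (σ g0 b)).subset fun y ⟨g, h1, h2⟩ => ⟨g * g0⁻¹, by simp [h1], by simp [h2]⟩
    · exact finite_empty.subset fun y ⟨g, h1, _⟩ => c ⟨g, h1⟩
  have f1 : ∀ k x, {y | B k x y}.Finite := fun k x =>
    ((f0 _ _ x).union (f0 _ _ x)).subset fun y ⟨g, hg⟩ => hg.imp (⟨g, ·⟩) (⟨g, ·⟩)
  have ne : ∀ x y, {n | Chain B n x y}.Nonempty := fun x y => by
    obtain ⟨k, hk⟩ := he (x, y)
    exact ⟨_, Chain.step (k := k) ⟨1, Or.inl (by simp [hk])⟩ (.refl y)⟩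
  have sy : ∀ k x y, B k x y → B k y x := fun k x y ⟨g, hg⟩ =>
    ⟨g, hg.symm.imp And.symm And.symm⟩
  have mp : ∀ g x y, sInf {n | Chain B n (σ g x) (σ g y)} ≤ sInf {n | Chain B n x y} :=
    fun g x y => Nat.sInf_le (Chain.map (fun k x y ⟨g', hg⟩ => ⟨g * g', hg.imp
      (fun a => by simp [a.1, a.2]) fun a => by simp [a.1, a.2]⟩) (Nat.sInf_mem (ne x y)))
  refine ⟨fun x y => sInf {n | Chain B n x y}, ⟨fun x => Nat.eq_zero_of_le_zero
    (Nat.sInf_le (.refl x)), fun x y => le_antisymm (Nat.sInf_le ((Nat.sInf_mem (ne y x)).symm sy))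
    (Nat.sInf_le ((Nat.sInf_mem (ne x y)).symm sy)), fun x y z => Nat.sInf_le
    ((Nat.sInf_mem (ne x y)).trans (Nat.sInf_mem (ne y z))), fun x k => (Chain.finite f1 k x).subset
    fun y hy => ⟨_, hy, Nat.sInf_mem (ne x y)⟩⟩, fun g x y => le_antisymm (mp g x y) ?_⟩
  simpa using mp g⁻¹ (σ g x) (σ g y)

section
variable {Q : Type} (D : Q → Q → ℕ)

def grel (x y : Q × ℕ) : Prop :=
  (x.2 = y.2 ∧ D x.1 y.1 ≤ 2 ^ x.2) ∨ (x.1 = y.1 ∧ (x.2 + 1 = y.2 ∨ y.2 + 1 = x.2))

def goro : AbstractSimplicialComplex (Q × ℕ) where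
  faces := {s | s.Nonempty ∧ ∀ x ∈ s, ∀ y ∈ s, x ≠ y → grel D x y}
  isRelLowerSet_faces := fun _ hs => ⟨hs.1, fun _ hts ht =>
    ⟨ht, fun x hx y hy => hs.2 x (hts hx) y (hts hy)⟩⟩
  singleton_mem v := ⟨Finset.singleton_nonempty v, by simp⟩

variable {D}

lemma grel_symm (h : IM D) {x y : Q × ℕ} (h' : grel D x y) : grel D y x := by
  rcases h' with ⟨a, b⟩ | ⟨a, b⟩
  · exact Or.inl ⟨a.symm, by rw [h.symm, ← a]; exact b⟩
  · exact Or.inr ⟨a.symm, b.symm⟩

lemma goro_adj (h2 : IM D) {x y : Q × ℕ} :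
    (skel (goro D)).Adj x y ↔ x ≠ y ∧ grel D x y := by
  classical
  refine and_congr_right fun hne => ⟨fun ⟨s, hs, hx, hy⟩ => hs.2 x hx y hy hne, fun h =>
    ⟨{x, y}, ⟨by simp, fun a ha b hb hab => ?_⟩, by simp, by simp⟩⟩
  simp only [Finset.mem_insert, Finset.mem_singleton] at ha hb
  rcases ha with rfl | rfl <;> rcases hb with rfl | rfl
  exacts [absurd rfl hab, h, grel_symm h2 h, absurd rfl hab]

lemma goro_up (h2 : IM D) (q : Q) (m k : ℕ) :
    ∃ p : (skel (goro D)).Walk (q, m) (q, m + k), p.length = k := by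
  induction k with
  | zero => exact ⟨.nil, rfl⟩
  | succ k ih =>
    obtain ⟨p, hp⟩ := ih
    exact ⟨p.concat ((goro_adj h2).2 ⟨by simp, Or.inr ⟨rfl, Or.inl rfl⟩⟩), by simp [hp]⟩

/-- the height at which two vertices become close -/
def gh (D : Q → Q → ℕ) (x y : Q × ℕ) : ℕ := max (max x.2 y.2) (Nat.clog 2 (D x.1 y.1))

lemma goro_walk (h2 : IM D) (x y : Q × ℕ) :
    ∃ p : (skel (goro D)).Walk x y, p.length + x.2 + y.2 ≤ 2 * gh D x y + 1 := by
  obtain ⟨q, m⟩ := x
  obtain ⟨q', n⟩ := y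
  have a1 : m ≤ gh D (q, m) (q', n) := le_max_of_le_left (le_max_left _ _)
  have a2 : n ≤ gh D (q, m) (q', n) := le_max_of_le_left (le_max_right _ _)
  have a3 : D q q' ≤ 2 ^ gh D (q, m) (q', n) :=
    (Nat.clog_le_iff_le_pow one_lt_two).1 (le_max_right _ _)
  generalize gh D (q, m) (q', n) = h at *
  obtain ⟨k, rfl⟩ := Nat.exists_eq_add_of_le a1
  obtain ⟨l, hl⟩ := Nat.exists_eq_add_of_le a2
  obtain ⟨p, hp⟩ := goro_up h2 q m k
  obtain ⟨p', hp'⟩ := goro_up h2 q' n l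
  by_cases e : q = q'
  · subst e
    exact ⟨p.append (p'.reverse.copy (by rw [hl]) rfl), by simp [hp, hp']; omega⟩
  · exact ⟨p.append (.cons (v := (q', m + k)) ((goro_adj h2).2 ⟨by simp [e], Or.inl ⟨rfl, a3⟩⟩)
      (p'.reverse.copy (show (q', n + l) = (q', m + k) by rw [hl]) rfl)), by simp [hp, hp']; omega⟩

lemma goro_lower (h2 : IM D) {x y : Q × ℕ} (p : (skel (goro D)).Walk x y) :
    D x.1 y.1 ^ 2 ≤ 9 * 2 ^ (p.length + x.2 + y.2) ∧ x.2 ≤ p.length + y.2 ∧
      y.2 ≤ p.length + x.2 := by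
  induction p with
  | nil => simp [h2.self]
  | @cons x z y hadj p ih =>
    obtain ⟨i1, i2, i3⟩ := ih
    rw [SimpleGraph.Walk.length_cons]
    rcases ((goro_adj h2).1 hadj).2 with ⟨a, b⟩ | ⟨a, b⟩
    · refine ⟨?_, by omega, by omega⟩
      have t := h2.tri x.1 z.1 y.1
      have u : (2 ^ x.2) ^ 2 ≤ 2 ^ (p.length + z.2 + y.2) := by
        rw [← pow_mul]; exact Nat.pow_le_pow_right two_pos (by omega)
      rw [show p.length + 1 + x.2 + y.2 = p.length + z.2 + y.2 + 1 by omega, pow_succ 2]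
      generalize 2 ^ (p.length + z.2 + y.2) = U at *
      have t2 := Nat.pow_le_pow_left (t.trans (Nat.add_le_add_right b _)) 2
      zify at *
      nlinarith [sq_nonneg ((D z.1 y.1 : ℤ) - 3 * 2 ^ x.2)]
    · refine ⟨?_, by omega, by omega⟩
      rw [a]
      exact i1.trans (Nat.mul_le_mul_left _ (Nat.pow_le_pow_right two_pos (by omega)))

lemma goro_dist (h2 : IM D) (x y : Q × ℕ) :
    (skel (goro D)).dist x y + x.2 + y.2 ≤ 2 * gh D x y + 1 ∧
      2 * gh D x y ≤ (skel (goro D)).dist x y + x.2 + y.2 + 5 := by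
  obtain ⟨p, hp⟩ := goro_walk h2 x y
  refine ⟨le_trans (by have := SimpleGraph.dist_le p; omega) hp, ?_⟩
  obtain ⟨w, hw⟩ := p.reachable.exists_walk_length_eq_dist
  obtain ⟨i1, i2, i3⟩ := goro_lower h2 w
  rw [hw] at i1 i2 i3
  set e := (skel (goro D)).dist x y + x.2 + y.2 with he
  have : Nat.clog 2 (D x.1 y.1) ≤ (e + 5) / 2 := by
    rw [Nat.clog_le_iff_le_pow one_lt_two, ← Nat.pow_le_pow_iff_left two_ne_zero, ← pow_mul]
    refine i1.trans (le_trans ?_ (Nat.pow_le_pow_right two_pos (show e + 4 ≤ _ by omega)))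
    rw [pow_add 2 e 4]; omega
  unfold gh; omega

lemma gh_tri (h2 : IM D) (x y z : Q × ℕ) : gh D x y ≤ max (gh D x z) (gh D z y) + 1 := by
  have t := h2.tri x.1 z.1 y.1
  have a : D x.1 z.1 ≤ 2 ^ max (gh D x z) (gh D z y) :=
    (Nat.clog_le_iff_le_pow one_lt_two).1 (le_max_of_le_left (le_max_right _ _))
  have b : D z.1 y.1 ≤ 2 ^ max (gh D x z) (gh D z y) :=
    (Nat.clog_le_iff_le_pow one_lt_two).1 (le_max_of_le_right (le_max_right _ _))
  have : Nat.clog 2 (D x.1 y.1) ≤ max (gh D x z) (gh D z y) + 1 := by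
    rw [Nat.clog_le_iff_le_pow one_lt_two, pow_succ]; omega
  unfold gh at *; omega

lemma gh_symm (h2 : IM D) (x y : Q × ℕ) : gh D x y = gh D y x := by
  unfold gh; rw [max_comm x.2, h2.symm]

end

variable {G : Type} [Group G] [TopologicalSpace G]

theorem q2_of_action {Q : Type} [Countable Q] [Infinite Q] (σ : G →* Equiv.Perm Q)
    (ho : ∀ v, IsOpen {g | σ g v = v}) (h : ∀ v w, {u | ∃ g, σ g v = v ∧ σ g w = u}.Finite)
    (ht : ∀ v w, ∃ g, σ g v = w) : Q2 G := by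
  classical
  obtain ⟨D, h2, h3⟩ := exists_IM σ h
  let ρ : G →* Equiv.Perm (Q × ℕ) :=
    { toFun := fun g => (σ g).prodCongr (Equiv.refl ℕ)
      map_one' := by ext x <;> simp
      map_mul' := fun g h => by ext x <;> simp }
  have hρ : ∀ g x, ρ g x = (σ g x.1, x.2) := fun _ _ => rfl
  refine ⟨Q × ℕ, goro D, ρ, ⟨?_, fun v => ?_, fun g s hs => ?_, fun v => ?_,
    fun v B => ?_⟩, 16, fun x y z w => ?_⟩
  · exact (SimpleGraph.connected_iff _).2 ⟨fun x y => (goro_walk h2 x y).choose.reachable,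
      inferInstance⟩
  · have hf : {y | y = v ∨ grel D v y}.Finite := by
      refine ((h2.fin v.1 (2 ^ v.2)).prod (finite_le_nat (v.2 + 1))).subset fun y hy => ?_
      rcases hy with rfl | ⟨a, b⟩ | ⟨a, b⟩
      · exact ⟨by simp [h2.self], by simp⟩
      · exact ⟨b, show y.2 ≤ _ by omega⟩
      · exact ⟨by simp [← a, h2.self], show y.2 ≤ _ by omega⟩
    refine (hf.toFinset.powerset.finite_toSet).subset fun s hs => ?_
    simp only [Finset.coe_powerset, Finite.coe_toFinset, mem_preimage, mem_powerset_iff]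
    intro y hy
    by_cases e : v = y
    exacts [Or.inl e.symm, Or.inr (hs.1.2 v hs.2 y hy e)]
  · refine ⟨hs.1.map, fun x hx y hy hxy => ?_⟩
    obtain ⟨a, ha, rfl⟩ := Finset.mem_map.1 hx
    obtain ⟨b, hb, rfl⟩ := Finset.mem_map.1 hy
    have := hs.2 a ha b hb fun e => hxy (e ▸ rfl)
    simpa [grel, hρ, h3] using this
  · convert ho v.1 using 2 with g
    simp [hρ, Prod.ext_iff]
  · obtain ⟨u, hu⟩ := (h2.fin v.1 (2 ^ (B + v.2 + 5))).infinite_compl.nonempty
    obtain ⟨g, rfl⟩ := ht v.1 u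
    refine ⟨g, ?_⟩
    have a := (goro_dist h2 v (σ g v.1, v.2)).2
    have b : B + v.2 + 5 < gh D v (σ g v.1, v.2) :=
      lt_max_of_lt_right (not_le.1 fun h => hu ((Nat.clog_le_iff_le_pow one_lt_two).1 h))
    rw [hρ]; simp only at a; omega
  · have d := goro_dist h2
    have a1 := (d x y).1
    have a2 := (d z w).1
    have a3 := (d x z).2
    have a4 := (d y w).2
    have a5 := (d x w).2
    have a6 := (d y z).2
    have t1 := gh_tri h2 x y z
    have t2 := gh_tri h2 x y w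
    have t3 := gh_tri h2 z w x
    have t4 := gh_tri h2 z w y
    rw [gh_symm h2 z y] at t1 t4
    rw [gh_symm h2 w y] at t2
    rw [gh_symm h2 z x] at t3
    omega

theorem Pos.not_neg [SeparatelyContinuousMul G] (h : Pos G) : ¬ Neg G := fun hn => by
  obtain ⟨N, h1, h2, h3⟩ := h
  have fx : ∀ g ∈ N, ∀ v : G ⧸ N, MulAction.toPermHom G (G ⧸ N) g v = v := fun g hg v => by
    obtain ⟨a, rfl⟩ := QuotientGroup.mk_surjective v
    exact QuotientGroup.eq.2 (by simpa using h1.conj_mem _ (inv_mem hg) a⁻¹)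
  have := hn (G ⧸ N) (MulAction.toPermHom G _) (fun v => mem_of_superset h2 fun g hg => fx g hg v)
    (fun v w => (finite_singleton w).subset fun u ⟨g, a, b⟩ => by
      obtain ⟨x, rfl⟩ := QuotientGroup.mk_surjective v
      have : x⁻¹ * g⁻¹ * x ∈ N := by simpa using QuotientGroup.eq.1 a
      rw [← b, fx g (by simpa [mul_assoc] using h1.conj_mem _ (inv_mem this) x)]; rfl) (1 : G)
  have e := Subgroup.index_eq_zero_iff_infinite.1 h3
  refine infinite_univ (this.subset fun u _ => ?_)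
  obtain ⟨x, rfl⟩ := QuotientGroup.mk_surjective u
  exact ⟨x, congrArg _ (mul_one x)⟩

/-- The quotient by a normal subgroup contained in all open subgroups. -/
theorem q2_of_not_neg [SeparatelyContinuousMul G] [SecondCountableTopology G] (I : Subgroup G)
    [I.Normal] (hI : ∀ N : Subgroup G, (N : Set G) ∈ 𝓝 (1 : G) → I ≤ N) (h : ¬ Neg G) :
    Q2 (G ⧸ I) := by
  simp only [Neg, not_forall] at h
  obtain ⟨W, ρ, h1, h2, v, h3⟩ := h
  let O := {u | ∃ g, ρ g v = u}
  have ho : ∀ w, IsOpen {g | ρ g w = w} := fun w =>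
    ((MulAction.stabilizer (Equiv.Perm W) w).comap ρ).isOpen_of_mem_nhds (h1 w)
  let σ : G →* Equiv.Perm O := MonoidHom.mk' (fun g => (ρ g).subtypePerm fun u =>
    ⟨fun ⟨a, ha⟩ => ⟨g⁻¹ * a, by simp [ha]⟩, fun ⟨a, ha⟩ => ⟨g * a, by simp [ha]⟩⟩)
    fun a b => by ext; simp
  have hσ : ∀ g u, (σ g u : W) = ρ g u := fun _ _ => rfl
  have : Infinite O := Set.infinite_coe_iff.2 h3
  have : Countable O := by
    refine Pairwise.countable_of_isOpen_disjoint (α := G) (s := fun q : O => {g | ρ g v = q})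
      (fun a b hab => disjoint_left.2 fun g h h' => hab (Subtype.ext (h.symm.trans h')))
      (fun q => ?_) fun q => q.2
    obtain ⟨_, a, rfl⟩ := q
    convert (ho v).preimage (continuous_const_mul a⁻¹) using 1
    ext g
    simp [Equiv.symm_apply_eq]
  let τ : G ⧸ I →* Equiv.Perm O := QuotientGroup.lift I σ fun g hg => Equiv.ext fun u =>
    Subtype.ext (hI ((MulAction.stabilizer (Equiv.Perm W) u.1).comap ρ) (h1 u) hg)
  refine q2_of_action τ (fun w => ?_) (fun a b => ?_) ?_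
  · rw [← (QuotientGroup.isQuotientMap_mk _).isOpen_preimage]
    convert ho w using 1
    ext g
    exact Subtype.ext_iff
  · refine ((h2 a b).preimage Subtype.val_injective.injOn).subset fun u ⟨g, c, d⟩ => ?_
    obtain ⟨g, rfl⟩ := QuotientGroup.mk_surjective g
    exact ⟨g, congrArg Subtype.val c, congrArg Subtype.val d⟩
  · rintro ⟨_, a, rfl⟩ ⟨_, b, rfl⟩
    exact ⟨(b * a⁻¹ : G), Subtype.ext (by change ρ (b * a⁻¹) _ = _; simp)⟩

theorem q_iff [SeparatelyContinuousMul G] [SecondCountableTopology G] (I : Subgroup G)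
    [I.Normal] (hI : ∀ N : Subgroup G, (N : Set G) ∈ 𝓝 (1 : G) → I ≤ N) :
    (Q1 (G ⧸ I) ↔ ¬ Neg G) ∧ (Q2 (G ⧸ I) ↔ ¬ Neg G) := by
  have a : Q1 (G ⧸ I) → ¬ Neg G := fun q h => (h.of_surj (QuotientGroup.mk' _)
    QuotientGroup.continuous_mk (QuotientGroup.mk'_surjective _)).not_q1 q
  exact ⟨⟨a, fun h => (q2_of_not_neg I hI h).q1⟩, fun q => a q.q1, q2_of_not_neg I hI⟩

theorem Q1.of_surj {G' : Type} [Group G'] [TopologicalSpace G'] (e : G →* G') (hc : Continuous e)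
    (hs : Function.Surjective e) (h : Q1 G') : Q1 G :=
  let ⟨V, K, ρ, A⟩ := h
  ⟨V, K, ρ.comp e, A.conn, A.locFin, fun g => A.simpl (e g), fun v => (A.cont v).preimage hc,
    fun v B => let ⟨g, hg⟩ := A.unbdd v B; let ⟨a, ha⟩ := hs g; ⟨a, by simpa [ha] using hg⟩⟩

theorem q1_iff [SeparatelyContinuousMul G] [SecondCountableTopology G] : Q1 G ↔ ¬ Neg G :=
  ⟨fun q h => h.not_q1 q, fun h => Q1.of_surj (QuotientGroup.mk' ⊥) QuotientGroup.continuous_mk
    (QuotientGroup.mk'_surjective _) (q2_of_not_neg ⊥ (fun _ _ => bot_le) h).q1⟩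

end

end Pool.Agent.Lib.MP_069d55_gt
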