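import Pool.Agent.Lib.MP_069d55_gt.GTorus
import Pool.Agent.Lib.MP_069d55_gt.GHoro

/-! Mapping class groups of oriented surfaces: definitions. -/

open Set Topology Filter Pool.Agent.Lib.MP_1e9af3_an

namespace Pool.Agent.Lib.MP_069d55_gt.G

open K

/-- `F` has local degree one at `z`: the image of every small positive circle about `z` winds
once positively around `F z`. -/
def PosAt (F : ℂ → ℂ) (z : ℂ) : Prop :=
  ∀ᶠ r : ℝ in 𝓝[>] 0, ∃ L : ℝ → ℂ, Continuous L ∧ (∀ t : ℝ, Complex.exp (L t) =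
    F (z + r * Complex.exp (2 * Real.pi * Complex.I * t)) - F z) ∧
    L 1 - L 0 = 2 * Real.pi * Complex.I

/-- `f` has local degree one in all charts of the atlas. -/
def OrP {S : Type} [TopologicalSpace S] [ChartedSpace ℂ S] (f : S → S) : Prop :=
  ∀ e ∈ atlas ℂ S, ∀ e' ∈ atlas ℂ S, ∀ x ∈ e.source, f x ∈ e'.source →
    PosAt (e' ∘ f ∘ e.symm) (e x)

/-- The atlas is oriented: all changes of charts have local degree one. -/
class Oriented (S : Type) [TopologicalSpace S] [ChartedSpace ℂ S] : Prop where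
  out : OrP (id : S → S)

theorem posAt_iff {F : ℂ → ℂ} {z : ℂ} : PosAt F z ↔ HasDeg F z 1 :=
  eventually_congr (.of_forall fun r => (hasWind_one_iff (lp_per F z r)).symm)

variable {S : Type} [TopologicalSpace S] [ChartedSpace ℂ S]

omit [ChartedSpace ℂ S] in
theorem lh_symm (e : OpenPartialHomeomorph S ℂ) {x : S} (hx : x ∈ e.source) : LH e.symm (e x) :=
  lh_oph e.symm (e.map_source hx)

instance charted : Charted S := charted_of_lh fun x =>
  ⟨_, _, lh_symm _ (mem_chart_source ℂ x), (chartAt ℂ x).left_inv (mem_chart_source ℂ x)⟩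

omit [ChartedSpace ℂ S] in
theorem ld_self (e : OpenPartialHomeomorph S ℂ) {x : S} (hx : x ∈ e.source) :
    ld (e ∘ e.symm) (e x) = 1 :=
  (ld_congr (G := id) (e.eventually_right_inverse' hx)).trans (ld_id _)

variable [Oriented S]

theorem ld_chart {e e' : OpenPartialHomeomorph S ℂ} (he : e ∈ atlas ℂ S) (he' : e' ∈ atlas ℂ S)
    {a : ℂ → S} {u : ℂ} (h : LH a u) (h1 : a u ∈ e.source) (h2 : a u ∈ e'.source) :
    ld (e' ∘ a) u = ld (e ∘ a) u := by
  have := ld_comp (h.comp (lh_oph e h1)) ((lh_symm e h1).comp (g := e')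
    (lh_oph e' ((e.left_inv h1).symm ▸ h2)))
  rw [show ld (e' ∘ e.symm) ((e ∘ a) u) = 1 from
    ld_eq (posAt_iff.1 (Oriented.out e he e' he' _ h1 h2)), mul_one] at this
  exact (ld_congr ((h.contAt.eventually (e.eventually_left_inverse h1)).mono fun y hy =>
    congrArg e' hy.symm)).trans this

variable (S) in
/-- The orientation given by the atlas. -/
noncomputable def ori : Ori S where
  sg a u := ld (chartAt ℂ (a u) ∘ a) u
  congr h := by rw [h.self_of_nhds]; exact ld_congr (h.fun_comp _)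
  comp hF h := ld_comp hF (h.comp (lh_oph _ (mem_chart_source ℂ _)))
  sq h := ld_sq (h.comp (lh_oph _ (mem_chart_source ℂ _)))
  lc {a u} h := by
    filter_upwards [ld_lc (h.comp (lh_oph _ (mem_chart_source ℂ (a u)))), h.eventually,
      h.contAt (chart_source_mem_nhds ℂ (a u))] with v h1 h2 h3
    exact (ld_chart (chart_mem_atlas ℂ _) (chart_mem_atlas ℂ _) h2 h3
      (mem_chart_source ℂ _)).trans h1

theorem ori_sg {e : OpenPartialHomeomorph S ℂ} (he : e ∈ atlas ℂ S) {a : ℂ → S} {u : ℂ}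
    (h : LH a u) (h1 : a u ∈ e.source) : (ori S).sg a u = ld (e ∘ a) u :=
  ld_chart he (chart_mem_atlas ℂ _) h h1 (mem_chart_source ℂ _)

theorem orP_iff {f : S ≃ₜ S} : OrP f ↔ f ∈ OPS (ori S) := by
  have key : ∀ e ∈ atlas ℂ S, ∀ e' ∈ atlas ℂ S, ∀ x ∈ e.source, f x ∈ e'.source →
      LH (e' ∘ f ∘ e.symm) (e x) ∧ (ori S).sg (f ∘ e.symm) (e x) = ld (e' ∘ f ∘ e.symm) (e x) ∧
      (ori S).sg e.symm (e x) = 1 := fun e he e' he' x hx hx' => by
    have a := (lh_symm e hx).comp (lh_homeo f _)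
    have b : (f ∘ e.symm) (e x) ∈ e'.source := by simpa [e.left_inv hx] using hx'
    exact ⟨a.comp (lh_oph _ b), ori_sg he' a b, (ori_sg he (lh_symm e hx)
      ((e.left_inv hx).symm ▸ hx)).trans (ld_self e hx)⟩
  constructor
  · intro h x
    have hx := mem_chart_source ℂ x
    obtain ⟨-, b, c⟩ := key _ (chart_mem_atlas ℂ x) _ (chart_mem_atlas ℂ (f x)) x hx
      (mem_chart_source ℂ _)
    refine sg_of_chart (lh_homeo f x) (lh_symm _ hx) ((chartAt ℂ x).left_inv hx) ?_
    rw [b, c, ld_eq (posAt_iff.1 (h _ (chart_mem_atlas ℂ x) _ (chart_mem_atlas ℂ (f x)) x hx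
      (mem_chart_source ℂ _))), mul_one]
  · intro h e he e' he' x hx hx'
    obtain ⟨a, b, c⟩ := key e he e' he' x hx hx'
    have := (h x).2 _ _ (lh_symm e hx) (e.left_inv hx)
    rw [b, c, mul_one] at this
    exact posAt_iff.2 (this ▸ a.hasDeg)

variable (S)

/-- The orientation preserving homeomorphisms. -/
def plus : Subgroup (S ≃ₜ S) where
  carrier := {f | OrP f}
  one_mem' := Oriented.out
  mul_mem' h h' := orP_iff.2 (mul_mem (orP_iff.1 h) (orP_iff.1 h'))
  inv_mem' h := orP_iff.2 (inv_mem (orP_iff.1 h))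

/-- A subgroup of the homeomorphisms of a space as a type of its own. -/
def CO {Y : Type} [TopologicalSpace Y] (A : Subgroup (Y ≃ₜ Y)) : Type := A

instance {Y : Type} [TopologicalSpace Y] (A : Subgroup (Y ≃ₜ Y)) : Group (CO A) :=
  inferInstanceAs (Group A)

/-- The compact-open topology. -/
instance {Y : Type} [TopologicalSpace Y] (A : Subgroup (Y ≃ₜ Y)) : TopologicalSpace (CO A) :=
  TopologicalSpace.induced (fun f : A => (f.1 : C(Y, Y))) ContinuousMap.compactOpen

/-- The elements isotopic to the identity through homeomorphisms. -/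
def isoOne : Subgroup (CO (plus S)) where
  carrier := {f | ∃ H : unitInterval → S ≃ₜ S, (Continuous fun p : unitInterval × S => H p.1 p.2) ∧
    H 0 = 1 ∧ H 1 = f.1}
  one_mem' := ⟨fun _ => 1, continuous_snd, rfl, rfl⟩
  mul_mem' := by
    rintro f g ⟨H, hc, h0, h1⟩ ⟨H', hc', h0', h1'⟩
    exact ⟨fun t => H t * H' t, hc.comp (continuous_fst.prodMk hc'), by simp [h0, h0'],
      by simp only [h1, h1']; rfl⟩
  inv_mem' := by
    rintro f ⟨H, hc, h0, h1⟩
    exact ⟨fun t => H (unitInterval.symm t) * f.1⁻¹,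
      hc.comp ((unitInterval.continuous_symm.comp continuous_fst).prodMk
        (f.1⁻¹.continuous.comp continuous_snd)), by simp [h1], by simp [h0]; rfl⟩

instance : (isoOne S).Normal where
  conj_mem := by
    rintro f ⟨H, hc, h0, h1⟩ g
    exact ⟨fun t => g.1 * H t * g.1⁻¹, g.1.continuous.comp (hc.comp (continuous_fst.prodMk
      (g.1⁻¹.continuous.comp continuous_snd))), by simp [h0], by simp only [h1]; rfl⟩

/-- The mapping class group with the quotient topology. -/
abbrev Map : Type := CO (plus S) ⧸ isoOne S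

end Pool.Agent.Lib.MP_069d55_gt.G
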