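import Pool.Agent.Lib.MP_069d55_gt.GOri

/-! The disc theorem on oriented surfaces. -/

open Set Topology Filter Metric OnePoint Pool.Agent.Lib.MP_1e9af3_an

namespace Pool.Agent.Lib.MP_069d55_gt.K

section
variable {A B C : Type*} [TopologicalSpace A] [TopologicalSpace B] [TopologicalSpace C]

theorem emb_of_lh {f : A → B} (hi : Function.Injective f) (h : ∀ x, LH f x) : IsOpenEmbedding f :=
  .of_continuous_injective_isOpenMap (continuous_iff_continuousAt.2 fun x => (h x).contAt) hi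
    (isOpenMap_iff_nhds_le.2 fun x => (h x).map_nhds.ge)

theorem exists_homeo_of_range {a : A → B} {b : C → B} (ha : IsEmbedding a) (hb : IsEmbedding b)
    (h : range a = range b) : ∃ k : A ≃ₜ C, ∀ z, b (k z) = a z :=
  ⟨ha.toHomeomorph.trans ((Homeomorph.setCongr h).trans hb.toHomeomorph.symm), fun _ =>
    congrArg Subtype.val (hb.toHomeomorph.apply_symm_apply _)⟩

theorem LH.injOn {f : A → B} {x : A} (h : LH f x) : ∃ u ∈ 𝓝 x, InjOn f u :=
  let ⟨g, _, _, g2, _⟩ := h.inv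
  ⟨_, g2, fun a ha b hb e => by rw [← show g (f a) = a from ha, e, show g (f b) = b from hb]⟩

theorem exists_open_lh [T2Space B] {f : A → B} {K : Set A} (hK : IsCompact K)
    (h : ∀ x ∈ K, LH f x) (hi : InjOn f K) :
    ∃ U, IsOpen U ∧ K ⊆ U ∧ InjOn f U ∧ ∀ x ∈ U, LH f x := by
  obtain ⟨t, ht, ht'⟩ := hi.exists_mem_nhdsSet hK (fun x hx => (h x hx).contAt)
    fun x hx => (h x hx).injOn
  obtain ⟨U, h1, h2, h3⟩ := mem_nhdsSet_iff_exists.1 (inter_mem ht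
    (mem_nhdsSet_iff_forall.2 fun x hx => (h x hx).eventually : {x | LH f x} ∈ 𝓝ˢ K))
  exact ⟨U, h1, h2, ht'.mono fun _ hx => (h3 hx).1, fun _ hx => (h3 hx).2⟩

end

theorem exists_rad {δ : ℝ} (hδ : 0 < δ) : ∃ ρ : ℂ → ℂ, IsOpenEmbedding ρ ∧
    range ρ = ball 0 (1 + δ) ∧ ∀ z, ‖z‖ ≤ 1 → ρ z = z := by
  let ρ : ℂ → ℂ := fun z => z * ((1 + δ - δ / max 1 ‖z‖) / max 1 ‖z‖ : ℝ)
  let σ : ℂ → ℂ := fun y => y * (δ / (1 + δ - max 1 ‖y‖) / max 1 ‖y‖ : ℝ)
  have m0 : ∀ z : ℂ, 0 < max 1 ‖z‖ := fun z => one_pos.trans_le (le_max_left _ _)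
  have r1 : ∀ z, ‖z‖ ≤ 1 → ρ z = z := fun z hz => by simp [ρ, max_eq_left hz]
  have s1 : ∀ z, ‖z‖ ≤ 1 → σ z = z := fun z hz => by simp [σ, max_eq_left hz, hδ.ne']
  have r2 : ∀ z : ℂ, 1 ≤ ‖z‖ → 1 ≤ 1 + δ - δ / ‖z‖ ∧ ‖ρ z‖ = 1 + δ - δ / ‖z‖ := fun z hz => by
    have a : 1 ≤ 1 + δ - δ / ‖z‖ := by linarith [div_le_self hδ.le hz]
    refine ⟨a, ?_⟩
    simp only [ρ, max_eq_right hz, norm_mul, Complex.norm_real]
    rw [Real.norm_of_nonneg (by positivity)]; field_simp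
  have s2 : ∀ z : ℂ, 1 ≤ ‖z‖ → ‖z‖ < 1 + δ → 1 ≤ δ / (1 + δ - ‖z‖) ∧ ‖σ z‖ = δ / (1 + δ - ‖z‖) :=
    fun z hz hz' => by
      have a : 1 ≤ δ / (1 + δ - ‖z‖) := (one_le_div (by linarith)).2 (by linarith)
      refine ⟨a, ?_⟩
      simp only [σ, max_eq_right hz, norm_mul, Complex.norm_real]
      rw [Real.norm_of_nonneg (by positivity)]; field_simp
  have h1 : MapsTo ρ univ (ball 0 (1 + δ)) := fun z _ => by
    rw [mem_ball_zero_iff]
    rcases le_total ‖z‖ 1 with h | h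
    · rw [r1 z h]; linarith
    · rw [(r2 z h).2]; linarith [div_pos hδ (one_pos.trans_le h)]
  have h3 : ∀ z ∈ univ, σ (ρ z) = z := fun z _ => by
    rcases le_total ‖z‖ 1 with h | h
    · rw [r1 z h, s1 z h]
    · obtain ⟨a, b⟩ := r2 z h
      have c : ‖z‖ ≠ 0 := by positivity
      simp only [σ, b, max_eq_right a]
      simp only [ρ, max_eq_right h]
      rw [mul_assoc, ← Complex.ofReal_mul, show (1 + δ - δ / ‖z‖) / ‖z‖ *
        (δ / (1 + δ - (1 + δ - δ / ‖z‖)) / (1 + δ - δ / ‖z‖)) = 1 by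
          have : 1 + δ - δ / ‖z‖ ≠ 0 := by positivity
          rw [sub_sub_cancel]; generalize 1 + δ - δ / ‖z‖ = w at *; field_simp]
      simp
  have h4 : ∀ z ∈ ball (0 : ℂ) (1 + δ), ρ (σ z) = z := fun z hz => by
    rw [mem_ball_zero_iff] at hz
    rcases le_total ‖z‖ 1 with h | h
    · rw [s1 z h, r1 z h]
    · obtain ⟨a, b⟩ := s2 z h hz
      have c : ‖z‖ ≠ 0 := by positivity
      have c' : 1 + δ - ‖z‖ ≠ 0 := by linarith [sub_pos.2 hz] |> fun (h : 0 < 1 + δ - ‖z‖) => h.ne'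
      simp only [ρ, b, max_eq_right a]
      simp only [σ, max_eq_right h]
      rw [mul_assoc, ← Complex.ofReal_mul, show δ / (1 + δ - ‖z‖) / ‖z‖ *
        ((1 + δ - δ / (δ / (1 + δ - ‖z‖))) / (δ / (1 + δ - ‖z‖))) = 1 by
          generalize hw : 1 + δ - ‖z‖ = w at *
          rw [show δ / (δ / w) = w by field_simp, ← hw, sub_sub_cancel, hw]; field_simp]
      simp
  have rc : Continuous ρ := continuous_id.mul (Complex.continuous_ofReal.comp
    ((continuous_const.sub (continuous_const.div (by fun_prop) fun z => (m0 z).ne')).div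
      (by fun_prop) fun z => (m0 z).ne'))
  have sc : ContinuousOn σ (ball 0 (1 + δ)) := continuousOn_id.mul
    (Complex.continuous_ofReal.comp_continuousOn ((continuousOn_const.div (by fun_prop)
      fun z hz => (sub_pos.2 (max_lt (by linarith) (mem_ball_zero_iff.1 hz))).ne').div
      (by fun_prop) fun z _ => (m0 z).ne'))
  exact ⟨ρ, emb_of_lh (fun a b e => by rw [← h3 a trivial, e, h3 b trivial]) fun z =>
    lh_of_inv isOpen_univ isOpen_ball rc.continuousOn sc h1 (mapsTo_univ _ _) h3 h4 trivial,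
    Subset.antisymm (range_subset_iff.2 fun z => h1 trivial) fun z hz => ⟨_, h4 z hz⟩, r1⟩

theorem exists_rad' {U : Set ℂ} (hU : IsOpen U) (h : closedBall 0 1 ⊆ U) : ∃ ρ : ℂ → ℂ,
    IsOpenEmbedding ρ ∧ (∀ z, ρ z ∈ U) ∧ ∀ z, ‖z‖ ≤ 1 → ρ z = z := by
  obtain ⟨δ, hδ, hs⟩ := (isCompact_closedBall (0 : ℂ) 1).exists_thickening_subset_open hU h
  rw [thickening_closedBall hδ zero_le_one, add_comm] at hs
  obtain ⟨ρ, a, b, c⟩ := exists_rad hδ
  exact ⟨ρ, a, fun z => hs (b ▸ mem_range_self z), c⟩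

theorem germ_global {F : ℂ → ℂ} (h : LH F 0) : ∃ k : ℂ ≃ₜ ℂ, ∀ᶠ z in 𝓝 0, k z = F z := by
  obtain ⟨U, u1, u2, u3, u4⟩ := exists_open_lh (f := F) isCompact_singleton (K := {0}) (by simpa using h)
    (injOn_singleton _ _)
  obtain ⟨r, hr, hb⟩ := Metric.mem_nhds_iff.1 (inter_mem (u1.mem_nhds (u2 rfl))
    (h.contAt.preimage_mem_nhds (ball_mem_nhds _ one_pos)))
  obtain ⟨ρ, ρ1, ρ2, ρ3⟩ := exists_rad one_pos
  have sc : ∀ c : ℝ, 0 < c → IsOpenEmbedding fun z : ℂ => (c : ℂ) * z := fun c hc =>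
    (Homeomorph.mulLeft₀ (c : ℂ) (by exact_mod_cast hc.ne')).isOpenEmbedding
  have rg : ∀ c : ℝ, 0 < c → range (fun z => (c : ℂ) * ρ z) = ball 0 (c * 2) := fun c hc => by
    rw [show (fun z => (c : ℂ) * ρ z) = (fun z => (c : ℂ) • z) ∘ ρ from rfl, range_comp, ρ2,
      image_smul, _root_.smul_ball (c := (c : ℂ)) (by exact_mod_cast hc.ne')]
    simp [abs_of_pos hc]; norm_num
  have hr2 := half_pos hr
  have m : ∀ z, ((r / 2 : ℝ) : ℂ) * ρ z ∈ ball (0 : ℂ) r := fun z => by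
    have := rg _ hr2 ▸ mem_range_self (f := fun z => ((r / 2 : ℝ) : ℂ) * ρ z) z
    rwa [div_mul_cancel₀ _ two_ne_zero] at this
  have G1 : IsOpenEmbedding fun z => F (((r / 2 : ℝ) : ℂ) * ρ z) := emb_of_lh
    (fun a b e => ((sc _ hr2).comp ρ1).injective (u3 (hb (m a)).1 (hb (m b)).1 e))
    fun z => (lh_emb ((sc _ hr2).comp ρ1) z).comp (u4 _ (hb (m z)).1)
  set G := fun z => F (((r / 2 : ℝ) : ℂ) * ρ z) with hG
  have G0 : G 0 = F 0 := by simp [hG, ρ3]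
  obtain ⟨g, gd, gi, gim, g0⟩ := riemann G1.isOpen_range (show SimplyConnectedSpace _ from
    G1.isEmbedding.toHomeomorph.symm.toHomotopyEquiv.simplyConnectedSpace)
    (isBounded_ball.subset (range_subset_iff.2 fun z => (hb (m z)).2)) (mem_range_self 0)
  have ga : ∀ z, AnalyticAt ℂ g (G z) := fun z =>
    gd.analyticAt (G1.isOpen_range.mem_nhds (mem_range_self z))
  have gd' := fun z => deriv_ne_zero_of_injOn G1.isOpen_range gd gi (mem_range_self z)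
  have gl : ∀ z, LH g (G z) := fun z =>
    ⟨((ga z).hasStrictDerivAt.hasStrictFDerivAt_equiv (gd' z)).toOpenPartialHomeomorph g,
      HasStrictFDerivAt.mem_toOpenPartialHomeomorph_source _, .rfl⟩
  obtain ⟨k, hk⟩ := exists_homeo_of_range (emb_of_lh (f := g ∘ G) (fun a b e => G1.injective
    (gi (mem_range_self a) (mem_range_self b) e)) fun z => (lh_emb G1 z).comp (gl z)).isEmbedding
    (((sc _ one_half_pos).comp ρ1).comp (sc _ two_pos)).isEmbedding (by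
      rw [range_comp g, gim]
      exact ((by norm_num : ball (0 : ℂ) 1 = ball 0 (1 / 2 * 2)).trans
        (rg _ one_half_pos).symm).trans (Function.Surjective.range_comp
        (Homeomorph.mulLeft₀ ((2 : ℝ) : ℂ) (by norm_num)).surjective _).symm)
  obtain ⟨c, -, hc⟩ := germ_conformal (ψ := fun w => g (w + G 0))
    (((ga 0).comp_of_eq (analyticAt_id.add analyticAt_const) (by simp)))
    (by rw [deriv_comp_add_const, zero_add]; exact gd' 0)
  have k0 : k 0 = 0 := (((sc _ one_half_pos).comp ρ1).comp (sc _ two_pos)).injective (by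
    rw [hk]; simp [g0, ρ3])
  let a : ℂ ≃ₜ ℂ := Homeomorph.mulLeft₀ ((r / 2 : ℝ) : ℂ) (by exact_mod_cast hr2.ne')
  refine ⟨a.symm.trans (k.trans (c.symm.trans (Homeomorph.addRight (G 0)))), ?_⟩
  rw [show (0 : ℂ) = a 0 by simp [a]]
  refine (lh_homeo a 0).of_comp ?_
  filter_upwards [closedBall_mem_nhds 0 one_pos, k.continuous.tendsto' 0 0 k0
    (closedBall_mem_nhds 0 one_half_pos), ((G1.continuous.sub continuous_const).tendsto' 0 0
      (sub_self (G 0))).eventually hc] with z h1 h2 h3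
  have h4 := hk z
  simp only [Function.comp_apply] at h4
  rw [ρ3 _ (by simp at h2 ⊢; linarith), ← mul_assoc, ← Complex.ofReal_mul] at h4
  replace h3 : c (G z - G 0) = g (G z - G 0 + G 0) := h3
  rw [sub_add_cancel] at h3
  have h5 : k z = c (G z - G 0) := by rw [h3, ← h4]; simp
  simp only [Homeomorph.trans_apply, a.symm_apply_apply, h5, c.symm_apply_apply]
  simp [hG, a, ρ3 z (by simpa using h1)]

section
variable {M M' : Type*} [TopologicalSpace M] [TopologicalSpace M'] {o : Ori M}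

theorem exists_chart0 [Charted M] (x : M) : ∃ e : ℂ → M, IsOpenEmbedding e ∧ e 0 = x :=
  let ⟨e, he, u, hu⟩ := Charted.chart x
  ⟨e ∘ Homeomorph.addRight u, he.comp (Homeomorph.isOpenEmbedding _), by simpa using hu⟩

theorem germ_loc [T2Space M] [Charted M] {f : M → M} {x : M} (h : Sg o o f x 1) (hx : f x = x)
    {U : Set M} (hU : U ∈ 𝓝 x) : ∃ k ∈ AA U, ∀ᶠ y in 𝓝 x, k y = f y := by
  obtain ⟨e, he, rfl⟩ := exists_chart0 x
  obtain ⟨g, g0, g1, -, g3⟩ := (lh_emb he 0).inv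
  have a : LH (g ∘ f ∘ e) 0 := ((lh_emb he 0).comp h.1).comp (by rwa [Function.comp_apply, hx])
  have a0 : (g ∘ f ∘ e) 0 = 0 := by simp [hx, g1]
  have b : f ∘ e =ᶠ[𝓝 0] e ∘ (g ∘ f ∘ e) :=
    (((lh_emb he 0).comp h.1).contAt.eventually (by rwa [Function.comp_apply, hx])).mono
      fun z hz => Eq.symm hz
  have c := h.2 e 0 (lh_emb he 0) rfl
  rw [o.congr b, o.comp a (lh_emb he _), a0] at c
  obtain ⟨k, hk⟩ := germ_global a
  obtain ⟨ε, hε, hb⟩ := Metric.mem_nhds_iff.1 (he.continuous.continuousAt hU)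
  obtain ⟨t, t1, t2⟩ := disc_loc (F := k) (by
    rw [← ld_homeo k 0, ld_congr hk]
    exact mul_right_cancel₀ (left_ne_zero_of_mul_eq_one (o.sq (lh_emb he 0))) c)
    (hk.self_of_nhds.trans a0) hε
  obtain ⟨K, K1, K2⟩ := exists_lift he (Ω := ball 0 ε) t1
  refine ⟨K, AA_mono (image_subset_iff.2 hb) K2, (lh_emb he 0).of_comp ?_⟩
  filter_upwards [hk, t2, b] with z h1 h2 h3
  rw [K1.1, h2, h1]; exact h3.symm

theorem IsDisc.chart {D U : Set M} (h : IsDisc D) (hU : IsOpen U) (hD : D ⊆ U) :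
    ∃ d : ℂ → M, IsOpenEmbedding d ∧ D = d '' closedBall 0 1 ∧ ∀ z, d z ∈ U := by
  obtain ⟨d, hd, rfl⟩ := h
  obtain ⟨ρ, a, b, c⟩ := exists_rad' (hU.preimage hd.continuous) (image_subset_iff.1 hD)
  exact ⟨d ∘ ρ, hd.comp a, image_congr fun z hz => by simp [c z (by simpa using hz)], b⟩

theorem IsDisc.chart_lh [T2Space M'] {D : Set M} (h : IsDisc D) {f : M → M'} (hf : ∀ x ∈ D, LH f x)
    (hi : InjOn f D) : ∃ d : ℂ → M, IsOpenEmbedding d ∧ D = d '' closedBall 0 1 ∧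
      IsOpenEmbedding (f ∘ d) := by
  obtain ⟨U, u1, u2, u3, u4⟩ := exists_open_lh h.isCompact hf hi
  obtain ⟨d, a, b, c⟩ := h.chart u1 u2
  exact ⟨d, a, b, emb_of_lh (fun _ _ e => a.injective (u3 (c _) (c _) e))
    fun z => (lh_emb a z).comp (u4 _ (c z))⟩

theorem IsDisc.image_lh [T2Space M'] {D : Set M} (h : IsDisc D) {f : M → M'}
    (hf : ∀ x ∈ D, LH f x) (hi : InjOn f D) :
    IsDisc (f '' D) ∧ interior (f '' D) = f '' interior D := by
  obtain ⟨d, a, rfl, c⟩ := h.chart_lh hf hi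
  exact ⟨⟨_, c, (image_comp _ _ _).symm⟩, by
    rw [← image_comp, interior_image_ball c, interior_image_ball a, image_comp]⟩

end

section
variable {M : Type*} [MetricSpace M] [Charted M] [PreconnectedSpace M] {o : Ori M} {ι : Type*}
  {s : Set ι} {Ω : Set M}

theorem multi_move (o : Ori M) (hΩ : IsOpen Ω) (hc : IsPreconnected Ω) (hs : s.Finite)
    {p q : ι → M} (hp : InjOn p s) (hq : InjOn q s) (hpΩ : MapsTo p s Ω) (hqΩ : MapsTo q s Ω) :
    ∃ k ∈ AA Ω, k ∈ OPS o ∧ ∀ i ∈ s, k (p i) = q i := by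
  rcases s.eq_empty_or_nonempty with rfl | ⟨i, hi⟩
  · exact ⟨1, one_mem _, one_mem _, by simp⟩
  obtain ⟨a, -, ha⟩ := (infinite_of_open hΩ ⟨_, hpΩ hi⟩).exists_notMem_finite
    ((hs.image p).union (hs.image q))
  obtain ⟨k, h1, h2⟩ := germClass_true.multi (hΩ.sdiff isClosed_singleton)
    (preconn_diff_point hc hΩ a) hs hp hq
    (fun j hj => ⟨hpΩ hj, fun e => ha (Or.inl ⟨j, hj, e⟩)⟩)
    fun j hj => ⟨hqΩ hj, fun e => ha (Or.inr ⟨j, hj, e⟩)⟩
  exact ⟨k, AA_mono sdiff_subset h1, OPS_of_AA h1 fun h => h.2 rfl, fun j hj => (h2 j hj).1⟩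

theorem multi_germ (hΩ : IsOpen Ω) (hc : IsPreconnected Ω) (hs : s.Finite) {p : ι → M}
    {f : ι → M → M} (hf : ∀ i ∈ s, Sg o o (f i) (p i) 1) (hp : InjOn p s)
    (hq : InjOn (fun i => f i (p i)) s) (hpΩ : MapsTo p s Ω)
    (hqΩ : MapsTo (fun i => f i (p i)) s Ω) :
    ∃ k ∈ AA Ω, ∀ i ∈ s, ∀ᶠ y in 𝓝 (p i), k y = f i y := by
  obtain ⟨k, k1, k2, k3⟩ := multi_move o hΩ hc hs hp hq hpΩ hqΩ
  obtain ⟨O, O1, O2⟩ := exists_disjoint_opens hs (C := fun i => {p i}) (fun _ _ => isClosed_singleton)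
    fun i hi j hj hij => disjoint_singleton.2 fun e => hij (hp hi hj e)
  have hO : ∀ i ∈ s, O i ∩ Ω ∈ 𝓝 (p i) := fun i hi =>
    ((O1 i).1.inter hΩ).mem_nhds ⟨(O1 i).2 rfl, hpΩ hi⟩
  choose! t t1 t2 using fun i hi => germ_loc ((hf i hi).comp1 (inv_mem k2 _))
    (show k.symm _ = _ by rw [← k3 i hi, k.symm_apply_apply]) (hO i hi)
  obtain ⟨T, T1, T2, -⟩ := glue_open hs (O2.mono fun _ => inter_subset_left) t1
  refine ⟨k * T, mul_mem k1 (AA_mono (iUnion₂_subset fun _ _ => inter_subset_right) T1),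
    fun i hi => ?_⟩
  filter_upwards [hO i hi, t2 i hi] with y a b
  rw [Homeomorph.mul_apply, T2 i hi y a, b]; simp

/-- The disc theorem for finitely many discs. -/
theorem multi_disc (hΩ : IsOpen Ω) (hc : IsPreconnected Ω) (hs : s.Finite) {D : ι → Set M}
    {f : ι → M → M} (hD : ∀ i ∈ s, IsDisc (D i)) (hf : ∀ i ∈ s, ∀ x ∈ D i, Sg o o (f i) x 1)
    (hi : ∀ i ∈ s, InjOn (f i) (D i)) (hp : s.PairwiseDisjoint D)
    (hq : s.PairwiseDisjoint fun i => f i '' D i) (hpΩ : ∀ i ∈ s, D i ⊆ Ω)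
    (hqΩ : ∀ i ∈ s, MapsTo (f i) (D i) Ω) : ∃ k ∈ AA Ω, ∀ i ∈ s, ∀ x ∈ D i, k x = f i x := by
  rcases isEmpty_or_nonempty M with hM | hM
  · exact ⟨1, one_mem _, fun _ _ x => hM.elim x⟩
  choose! d d1 d2 d3 using fun i h => (hD i h).chart_lh (fun x hx => (hf i h x hx).1) (hi i h)
  have d0 : ∀ i ∈ s, ∀ z, ‖z‖ ≤ 1 → d i z ∈ D i := fun i h z hz => d2 i h ▸ ⟨z, by simpa, rfl⟩
  have d0' := fun i h => d0 i h 0 (by simp)
  obtain ⟨k, k1, k2⟩ := multi_germ hΩ hc hs (p := fun i => d i 0) (fun i h => hf i h _ (d0' i h))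
    (fun i h j h' e => hp.elim_set h h' _ (d0' i h) ((show d i 0 = d j 0 from e) ▸ d0' j h'))
    (fun i h j h' e => hq.elim_set h h' _ ⟨_, d0' i h, rfl⟩ ⟨_, d0' j h', e.symm⟩)
    (fun i h => hpΩ i h (d0' i h)) fun i h => hqΩ i h (d0' i h)
  obtain ⟨O, O1, O2⟩ := exists_disjoint_opens hs (fun i h => (hD i h).isCompact.isClosed) hp
  obtain ⟨O', O1', O2'⟩ := exists_disjoint_opens hs (fun i h => ((hD i h).image_lh
    (fun x hx => (hf i h x hx).1) (hi i h)).1.isCompact.isClosed) hq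
  have key : ∀ i ∈ s, ∃ S ∈ AA (O i ∩ Ω), ∃ S' ∈ AA (O' i ∩ Ω), ∀ x ∈ D i,
      k (S x) = S' (f i x) := fun i h => by
    obtain ⟨δ, hδ, hb⟩ := (isCompact_closedBall (0 : ℂ) 1).exists_thickening_subset_open
      ((((O1 i).1.inter hΩ).preimage (d1 i h).continuous).inter
        (((O1' i).1.inter hΩ).preimage (d3 i h).continuous)) fun z hz =>
        have := d0 i h z (by simpa using hz)
        ⟨⟨(O1 i).2 this, hpΩ i h this⟩, (O1' i).2 ⟨_, this, rfl⟩, hqΩ i h this⟩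
    rw [thickening_closedBall hδ zero_le_one] at hb
    obtain ⟨ε, hε, he⟩ := Metric.eventually_nhds_iff_ball.1
      ((d1 i h).continuous.continuousAt.eventually (k2 i h))
    obtain ⟨σ, σ1, -, σ2⟩ := exists_squeeze (R := 1) hε (R' := δ + 1) (by linarith) (by linarith)
    obtain ⟨S, S1, S2⟩ := exists_lift (d1 i h) (Ω := ball 0 (δ + 1)) σ1
    obtain ⟨S', S1', S2'⟩ := exists_lift (d3 i h) (Ω := ball 0 (δ + 1)) σ1
    refine ⟨S, AA_mono (image_subset_iff.2 fun z hz => (hb hz).1) S2, S',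
      AA_mono (image_subset_iff.2 fun z hz => (hb hz).2) S2', fun x hx => ?_⟩
    obtain ⟨z, hz, rfl⟩ := d2 i h ▸ hx
    rw [S1.1, he _ (mem_ball_zero_iff.2 (σ2 z (by simpa using hz)))]
    exact (S1'.1 z).symm
  choose! S S1 S' S2 S3 using key
  obtain ⟨T, T1, T2, -⟩ := glue_open hs (O2.mono fun _ => inter_subset_left) S1
  obtain ⟨T', T1', T2', -⟩ := glue_open hs (O2'.mono fun _ => inter_subset_left) S2
  refine ⟨T'⁻¹ * k * T, mul_mem (mul_mem (inv_mem (AA_mono (iUnion₂_subset fun _ _ =>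
    inter_subset_right) T1')) k1) (AA_mono (iUnion₂_subset fun _ _ => inter_subset_right) T1),
    fun i h x hx => ?_⟩
  rw [Homeomorph.mul_apply, Homeomorph.mul_apply, T2 i h x ⟨(O1 i).2 hx, hpΩ i h hx⟩, S3 i h x hx,
    ← T2' i h _ ⟨(O1' i).2 ⟨x, hx, rfl⟩, hqΩ i h hx⟩]
  simp

theorem one_disc (hΩ : IsOpen Ω) (hc : IsPreconnected Ω) {D : Set M} {f : M → M} (hD : IsDisc D)
    (hf : ∀ x ∈ D, Sg o o f x 1) (hi : InjOn f D) (hpΩ : D ⊆ Ω) (hqΩ : MapsTo f D Ω) :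
    ∃ k ∈ AA Ω, ∀ x ∈ D, k x = f x :=
  let ⟨k, a, b⟩ := multi_disc hΩ hc (finite_singleton ()) (D := fun _ => D) (f := fun _ => f)
    (fun _ _ => hD) (fun _ _ => hf) (fun _ _ => hi) (pairwiseDisjoint_singleton _ _)
    (pairwiseDisjoint_singleton _ _) (fun _ _ => hpΩ) fun _ _ => hqΩ
  ⟨k, a, b () rfl⟩

end

section sphere

theorem lh_coe (z : ℂ) : LH ((↑) : ℂ → OnePoint ℂ) z := lh_emb isOpenEmbedding_coe z

theorem lh_fin {y : OnePoint ℂ} (hy : y ≠ ∞) : LH fin y := by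
  induction y using OnePoint.rec with
  | infty => exact absurd rfl hy
  | coe z =>
    obtain ⟨g, g0, -, g2, -⟩ := (lh_coe z).inv
    exact g0.congr ((lh_coe z).of_comp g2)

theorem exists_oS : ∃ o : Ori (OnePoint ℂ), ∀ y ∉ ({∞} : Set (OnePoint ℂ)), Sg o oriC fin y 1 :=
  exists_ori_ext oriC (finite_singleton _) fun _ => lh_fin

/-- The orientation of the sphere. -/
noncomputable def oS : Ori (OnePoint ℂ) := exists_oS.choose

theorem sg_fin (z : ℂ) : Sg oS oriC fin z 1 := exists_oS.choose_spec _ (coe_ne_infty z)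

theorem sg_coe (z : ℂ) : Sg oriC oS (↑) z 1 :=
  (sg_fin z).inv (lh_coe z) ((lh_coe z).of_comp (.of_forall fun _ => rfl))

theorem sg_plane {F : ℂ → ℂ} {z : ℂ} (h : LH F z) : Sg oriC oriC F z (ld F z) :=
  ⟨h, fun e u a b => by subst b; exact (ld_comp a h).trans (mul_comm _ _)⟩

theorem exists_rev : ∃ c : OnePoint ℂ ≃ₜ OnePoint ℂ, ∀ y, Sg oS oS c y (-1) := by
  have h : ld Complex.conjCLE.toHomeomorph 0 = -1 := ld_eq
    ((locInj_homeo _ 0 one_pos).hasDeg_of ((hasWind_ee 0).inv.congr fun θ => by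
      simp [lp, ee, tpi, ← Complex.exp_conj, ← Complex.exp_neg, map_ofNat]))
  refine ⟨Complex.conjCLE.toHomeomorph.onePointCongr, fun y => Sg.prop isPreconnected_univ
    (fun y _ => lh_homeo _ y) (mem_univ ((0 : ℂ) : OnePoint ℂ)) ?_ trivial⟩
  have := (sg_coe 0).of_comp_left (lh_homeo Complex.conjCLE.toHomeomorph.onePointCongr _)
    ((sg_plane (lh_homeo Complex.conjCLE.toHomeomorph 0)).comp (sg_coe _))
  rwa [h] at this

theorem sphere_ext {D : Set (OnePoint ℂ)} (hD : IsDisc D) {f : OnePoint ℂ → OnePoint ℂ}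
    (hf : ∀ x ∈ D, LH f x) (hi : InjOn f D) :
    ∃ k : OnePoint ℂ ≃ₜ OnePoint ℂ, ∀ x ∈ D, k x = f x := by
  obtain ⟨a, ha⟩ := hD.interior_nonempty
  replace ha := interior_subset ha
  obtain ⟨d, hd⟩ := (hf a ha).exists_sg oS oS
  have h := fun x hx => hd.prop hD.preconn hf ha (y := x) hx
  rcases hd.cases with rfl | rfl
  · obtain ⟨k, -, hk⟩ := one_disc isOpen_univ isPreconnected_univ hD h hi (subset_univ _)
      (mapsTo_univ _ _)
    exact ⟨k, hk⟩
  · obtain ⟨c, hc⟩ := exists_rev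
    obtain ⟨k, -, hk⟩ := one_disc isOpen_univ isPreconnected_univ hD
      (fun x hx => (h x hx).comp (hc _)) (c.injective.comp_injOn hi) (subset_univ _)
      (mapsTo_univ _ _)
    exact ⟨k.trans c.symm, fun x hx => by simp [hk x hx]⟩

theorem sphere_compl {D K : Set (OnePoint ℂ)} (hD : IsDisc D) (hK : IsCompact K)
    (h : K ⊆ interior D) : ∃ D', IsDisc D' ∧ (interior D)ᶜ ⊆ interior D' ∧ Disjoint D' K := by
  obtain ⟨d, hd, rfl⟩ := hD
  rw [interior_image_ball hd] at h ⊢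
  obtain ⟨k, hk⟩ := sphere_ext (D := (↑) '' closedBall (0 : ℂ) 1) ⟨_, isOpenEmbedding_coe, rfl⟩
    (f := d ∘ fin) (by rintro _ ⟨z, -, rfl⟩; exact (sg_fin z).1.comp (lh_emb hd _))
    (by rintro _ ⟨z, -, rfl⟩ _ ⟨w, -, rfl⟩ e; exact congrArg _ (hd.injective e))
  replace hk : ∀ z : ℂ, ‖z‖ ≤ 1 → k z = d z := fun z hz => hk _ ⟨z, by simpa, rfl⟩
  obtain ⟨r, hr, hr'⟩ := exists_pos_lt_subset_ball one_pos (hK.isClosed.preimage hd.continuous)
    (preimage_subset_iff.2 fun z hz => hd.injective.mem_set_image.1 (h hz))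
  obtain ⟨j, j0, ji, j1⟩ := exists_inversion
  obtain ⟨a, b⟩ := isDisc_closedBall ((k.isOpenEmbedding.comp j.isOpenEmbedding).comp
    isOpenEmbedding_coe) 0 (inv_pos.2 hr.1)
  refine ⟨_, a, fun y hy => b ▸ ?_, Set.disjoint_left.2 ?_⟩
  · obtain ⟨y, rfl⟩ := k.surjective y
    induction y using OnePoint.rec with
    | infty => exact ⟨0, mem_ball_self (inv_pos.2 hr.1), congrArg k j0⟩
    | coe z =>
      have hz : 1 ≤ ‖z‖ := not_lt.1 fun c => hy ⟨z, by simpa, (hk z c.le).symm⟩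
      have : z ≠ 0 := norm_pos_iff.1 (one_pos.trans_le hz)
      exact ⟨z⁻¹, by simpa using inv_strictAnti₀ hr.1 (hr.2.trans_le hz), by
        simp [j1 _ (inv_ne_zero this)]⟩
  · rintro _ ⟨w, hw, rfl⟩ hm
    obtain ⟨z, hz, e⟩ := h hm
    have hz' := mem_ball_zero_iff.1 (hr' (show d z ∈ K from e ▸ hm))
    rw [← hk z (mem_ball_zero_iff.1 hz).le] at e
    replace e : (z : OnePoint ℂ) = j w := k.injective e
    by_cases w0 : w = 0
    · exact coe_ne_infty z (by rw [e, w0, j0])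
    · rw [j1 w w0, coe_eq_coe] at e
      rw [e, norm_inv] at hz'
      exact hz'.not_ge (by rw [le_inv_comm₀ hr.1 (norm_pos_iff.2 w0)]; simpa using hw)

end sphere

end Pool.Agent.Lib.MP_069d55_gt.K
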