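import Pool.Agent.Lib.MP_069d55_gt.GDefs

/-! The two questions have the same answer. -/

open Set Topology Filter

namespace Pool.Agent.Lib.MP_069d55_gt.G

open K

section
variable {Y : Type} [TopologicalSpace Y] {A : Subgroup (Y ≃ₜ Y)}

theorem CO.inducing : IsInducing fun f : CO A => (f.1 : C(Y, Y)) := ⟨rfl⟩

theorem CO.inducing' : IsInducing fun f : CO A => f.1 :=
  ⟨(induced_compose (f := fun f : CO A => f.1) (g := fun f : Y ≃ₜ Y => (f : C(Y, Y)))).symm⟩

instance : SeparatelyContinuousMul (CO A) where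
  continuous_const_mul {a} := CO.inducing.continuous_iff.2
    ((ContinuousMap.continuous_postcomp (a.1 : C(Y, Y))).comp CO.inducing.continuous)
  continuous_mul_const {a} := CO.inducing.continuous_iff.2
    ((ContinuousMap.continuous_precomp (a.1 : C(Y, Y))).comp CO.inducing.continuous)

instance [SecondCountableTopology Y] [LocallyCompactSpace Y] : SecondCountableTopology (CO A) :=
  CO.inducing.secondCountableTopology

theorem CO.ev {P : (Y ≃ₜ Y) → Prop} (h : ∀ᶠ g in 𝓝 1, P g) : ∀ᶠ g : CO A in 𝓝 1, P g.1 :=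
  CO.inducing'.continuous.continuousAt h

theorem CO.ev' {P : CO A → Prop} (h : ∀ᶠ g in 𝓝 1, P g) : ∀ᶠ g in 𝓝 1, ∀ h : g ∈ A, P ⟨g, h⟩ := by
  rw [CO.inducing'.nhds_eq_comap, eventually_comap] at h
  exact h.mono fun g hg h => hg ⟨g, h⟩ rfl

end

variable {S : Type} [TopologicalSpace S] [ChartedSpace ℂ S] [Oriented S]

theorem plus_eq : plus S = OPS (ori S) := Subgroup.ext fun _ => orP_iff

theorem isoOne_le (N : Subgroup (CO (plus S))) (hN : (N : Set (CO (plus S))) ∈ 𝓝 1) :
    isoOne S ≤ N := by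
  rintro f ⟨H, hc, h0, h1⟩
  have hop : ∀ t, H t ∈ plus S := fun t => orP_iff.2 fun x => by
    have : IsLocallyConstant fun t => Sg (ori S) (ori S) (H t) x 1 :=
      (IsLocallyConstant.iff_eventually_eq _).2 fun t => by
        obtain ⟨d, hd⟩ := (lh_homeo (H t) x).exists_sg (ori S) (ori S)
        exact (hd.family hc).mono fun s hs => propext
          ⟨fun a => hs.unique a ▸ hd, fun a => hd.unique a ▸ hs⟩
    rw [this.apply_eq_of_preconnectedSpace t 0, h0]
    exact sg_id _ x
  set γ : unitInterval → CO (plus S) := fun t => ⟨H t, hop t⟩ with hγ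
  have γc : Continuous γ := CO.inducing'.continuous_iff.2 (continuous_hm hc)
  have ho := N.isOpen_of_mem_nhds hN
  have := (IsClopen.preimage ⟨N.isClosed_of_isOpen ho, ho⟩ γc).eq_univ
    ⟨0, by rw [mem_preimage, show γ 0 = 1 from Subtype.ext h0]; exact N.one_mem⟩
  have h2 : γ 1 ∈ N := (this ▸ mem_univ 1 : 1 ∈ γ ⁻¹' N)
  rwa [show γ 1 = f from Subtype.ext h1] at h2

theorem map_iff [SecondCountableTopology S] :
    (Q1 (Map S) ↔ ¬ Neg (CO (plus S))) ∧ (Q2 (Map S) ↔ ¬ Neg (CO (plus S))) :=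
  haveI := ChartedSpace.locallyCompactSpace ℂ S
  q_iff _ isoOne_le

end Pool.Agent.Lib.MP_069d55_gt.G
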