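import Pool.Agent.Lib.MP_069d55_gt.GPat

/-! The image of an annulus becomes standard for a modified collapse. -/

open Set Topology Filter Metric OnePoint

namespace Pool.Agent.Lib.MP_069d55_gt.K

variable {S : Type*} [TopologicalSpace S] {o : Ori S} {p : S → OnePoint ℂ} {q : OnePoint ℂ → S}
  {E X U : Set (OnePoint ℂ)} {ι : Type*} {I : Set ι} {Q : ι → Set (OnePoint ℂ)}

section
variable {M : Type} [TopologicalSpace M] {oM : Ori M} {π : S → M} {σ : M → S} {Z : Set M}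
  {r : M → OnePoint ℂ} {ρ : OnePoint ℂ → M} {ν : OnePoint ℂ → OnePoint ℂ}

theorem Mdl.surj (m : Mdl o p X U ν oM π σ Z r ρ) : Function.Surjective π := fun y =>
  m.bl.surj (notMem_empty y)

theorem Mdl.disc [T2Space M] (m : Mdl o p X U ν oM π σ Z r ρ) {D : Set (OnePoint ℂ)} (hD : IsDisc D)
    (hY : Disjoint D (X \ U)) : IsDisc (ρ '' D) ∧ (∀ y ∈ D, r (ρ y) = y ∧ LH ρ y) ∧
      ∀ a, r a ∈ D → ρ (r a) = a := by
  have rg : ∀ y ∈ D, y ∉ ∅ ∪ X \ U := fun y a b => disjoint_left.1 hY a (b.resolve_left id)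
  exact ⟨(hD.image_lh (fun y a => m.br.lh_q (rg y a)) fun y a y' b e => by
    rw [← m.br.pq y (rg y a), e, m.br.pq y' (rg y' b)]).1,
    fun y a => ⟨m.br.pq y (rg y a), m.br.lh_q (rg y a)⟩, fun a b => m.br.qp a (disjoint_left.1 hY b)⟩

theorem Mdl.lift (m : Mdl o p X U ν oM π σ Z r ρ) (h : BS o p q E X) (hU : E ⊆ interior U)
    {γ : M ≃ₜ M} (hγ : γ ∈ Nb Z) : ∃ n ∈ AA univ, Lf π Z γ n :=
  let ⟨n, a⟩ := m.bl.lift_nb (φ := γ) (fun _ => Iff.rfl) hγ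
  ⟨n, ⟨_, h.prop _ isOpen_interior.isClosed_compl.isCompact (disjoint_left.2 fun _ a b => a (hU b)),
    subset_univ _, fun s hs => a.2 s ((m.mem s).2 (interior_subset (not_not.1 hs)))⟩, a⟩

theorem Mdl.nb {C O : ι → Set (OnePoint ℂ)} {z : ι → OnePoint ℂ} (c : Cl I C O z ν)
    (m : Mdl o p X (⋃ i ∈ I, C i) ν oM π σ Z r ρ) {γ : M ≃ₜ M}
    (h : ∀ i ∈ I, ∀ a, r a ∈ C i → γ a = a) : γ ∈ Nb Z := fun a ha => by
  obtain ⟨s, rfl⟩ := m.surj a
  obtain ⟨i, u, v⟩ := mem_iUnion₂.1 ((m.mem s).1 ha)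
  refine mem_of_superset (m.br.cont.continuousAt (mem_interior_iff_mem_nhds.1 ?_)) (h i u)
  rw [m.comm, (c.fib i u _).2 v]; exact c.mem i u

end

theorem BS.AA_le [T2Space S] [Charted S] [PreconnectedSpace S] (h : BS o p q E X) (hn : E.Nonempty) :
    AA univ ≤ OPS o := by
  rintro k ⟨K, k1, -, k2⟩
  obtain ⟨e, he⟩ := hn
  have := h.neBot e
  obtain ⟨s, hs⟩ := Filter.nonempty_of_mem (preimage_mem_comap (m := p) (h.far k1 he))
  exact OPS_of_id (x := s) (mem_of_superset (k1.isClosed.isOpen_compl.mem_nhds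
    fun c => hs ⟨s, c, rfl⟩) k2)

variable [T2Space S] [Charted S] [ConnectedSpace S]

theorem Std.model (h : Std o p q E X) (hI : I.Finite) (hQ : ∀ i ∈ I, CD (E ∪ X) (Q i))
    (hd : I.PairwiseDisjoint Q) (hE : ∀ x ∈ E, ∃ i ∈ I, x ∈ Q i) :
    ∃ C z ν, Cl I C (fun i => interior (Q i)) z ν ∧ (∀ i ∈ I, C i ⊆ interior (Q i)) ∧
      (∀ i ∈ I, Disjoint (Q i) (X \ ⋃ i ∈ I, C i)) ∧ E ⊆ interior (⋃ i ∈ I, C i) ∧
    ∃ (M : Type) (_ : MetricSpace M) (_ : CompactSpace M) (_ : Charted M) (_ : PreconnectedSpace M)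
      (oM : Ori M) (π : S → M) (σ : M → S) (Z : Set M) (r : M → OnePoint ℂ) (ρ : OnePoint ℂ → M),
      Mdl o p X (⋃ i ∈ I, C i) ν oM π σ Z r ρ := by
  choose! C c1 c2 c3 using fun i hi => (hQ i hi).shrink h.cl
  obtain ⟨z, ν, c⟩ := exists_Cl hI (C := C) (O := fun i => interior (Q i))
    (fun i a => ⟨c1 i a, isOpen_interior, c3 i a⟩) (hd.mono fun _ => interior_subset)
  have e : ∀ x ∈ E, ∃ i ∈ I, x ∈ interior (C i) := fun x a =>
    let ⟨i, u, v⟩ := hE x a; ⟨i, u, c2 i u ⟨Or.inl a, v⟩⟩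
  exact ⟨C, z, ν, c, c3, fun i a => disjoint_left.2
    fun y u v => v.2 (mem_biUnion a (interior_subset (c2 i a ⟨Or.inr v.1, u⟩))),
    subset_interior_biUnion e, h.exists_model hI c
      (fun i a => ⟨c1 i a, fun y u v => c2 i a ⟨u, interior_subset v⟩⟩) e⟩

theorem Std.exo (h : Std o p q E X) {f : S ≃ₜ S} (hf : f ∈ OPS o) {C O : Bool → Set (OnePoint ℂ)}
    {z : Bool → OnePoint ℂ} {ν : OnePoint ℂ → OnePoint ℂ} (c : Cl univ C O z ν)
    (hO : ∀ k, IsOpen (O k) ∧ IsPreconnected (O k) ∧ C k ⊆ O k)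
    (hd : (univ : Set Bool).PairwiseDisjoint O) (hF : ∀ y ∈ E ∪ X, ∃ k, y ∈ interior (C k))
    {y₀ : OnePoint ℂ} (hy : ∀ k, y₀ ∉ O k) (hI : I.Finite) (hQ : ∀ i ∈ I, CD (E ∪ X) (Q i))
    (hdQ : I.PairwiseDisjoint Q) (hE : ∀ x ∈ E, ∃ i ∈ I, x ∈ Q i) (hn : E.Nonempty) {κ : ι → Bool}
    (hκ : ∀ i ∈ I, ∀ s, p s ∈ Q i → p (f.symm s) ∈ C (κ i)) {Δ : Set (OnePoint ℂ)} (hΔ : IsDisc Δ)
    (hΔQ : ∀ i ∈ I, Disjoint Δ (Q i)) (hY : X \ ⋃ i ∈ I, Q i ⊆ interior Δ) {x : Bool → OnePoint ℂ}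
    (hx : Function.Injective x) (hxΔ : ∀ k, x k ∈ interior Δ) :
    ∃ n ∈ AA univ, (∀ i ∈ I, ∀ s, p s ∈ Q i → n s = s) ∧ ∃ Λ ∈ OPS oS, ∃ P, Pt p Δ P (range x) ∧
      (∀ s, p s ∉ Δ → P s = p s) ∧ (∀ s, (∀ k, p s ∉ O k) → P (n (f s)) = Λ (p s)) ∧
      (∀ k s, p s ∈ O k → P (n (f s)) ∈ Λ '' O k) ∧ (∀ k, x k ∈ Λ '' O k) ∧
      ∀ i ∈ I, Q i ⊆ Λ '' O (κ i) := by
  classical
  obtain ⟨C', z', ν', c', s1, s2, s3, M, _, _, _, _, oM, π, σ, Z, r, ρ, m⟩ := h.model hI hQ hdQ hE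
  replace s1 := fun i a => (s1 i a).trans interior_subset
  obtain ⟨D, d1, d2, d3⟩ := sphere_compl hΔ m.finY.isCompact fun y a => hY ⟨a.1, fun b =>
    let ⟨i, u, v⟩ := mem_iUnion₂.1 b; disjoint_left.1 (s2 i u) v a⟩
  have nD : ∀ y ∉ Δ, y ∈ D := fun y a => interior_subset (d2 fun b => a (interior_subset b))
  have QD : ∀ i ∈ I, Q i ⊆ D := fun i a y b => nD y (disjoint_right.1 (hΔQ i a) b)
  have νD := c'.pres (T := D) fun i a => Or.inl (interior_subset.trans (QD i a))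
  have νΔ := c'.pres (T := Δ) fun i a => Or.inr ((hΔQ i a).symm.mono_left interior_subset)
  have νQ := fun i (a : i ∈ I) => c'.pres (T := Q i) fun j b => (eq_or_ne j i).imp
    (fun e : j = i => e ▸ interior_subset) fun e => (hdQ b a e).mono_left interior_subset
  have nZ : ∀ s, (∀ i ∈ I, p s ∉ Q i) → π s ∉ Z := fun s a b =>
    let ⟨i, u, v⟩ := mem_iUnion₂.1 ((m.mem s).1 b); a i u (s1 i u v)
  have cz : ∀ i ∈ I, ∀ s, p s ∈ Q i → ν (p (f.symm s)) = z (κ i) := fun i a s b =>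
    (c.fib _ trivial _).2 (hκ i a s b)
  have zO : ∀ k, z k ∈ O k := fun k => (hO k).2.2 (interior_subset (c.mem k trivial))
  have zf : (z '' univ).Finite := toFinite _
  obtain ⟨r', hr⟩ : ∃ r' : M → OnePoint ℂ, ∀ s, r' (π s) = ν (p (f.symm s)) := by
    refine ⟨fun a => ν (p (f.symm (Function.surjInv m.surj a))), fun s => ?_⟩
    have e := Function.surjInv_eq m.surj (π s)
    by_cases a : π s ∈ Z
    · obtain ⟨i, u, v⟩ := mem_iUnion₂.1 ((m.mem s).1 a)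
      exact (cz i u _ (s1 i u ((c'.fib i u _).1 (by
        rw [← m.comm, e, m.comm, (c'.fib i u _).2 v])))).trans (cz i u s (s1 i u v)).symm
    · simp only [← m.bl.inj a e.symm]
  have rc : Continuous r' := (m.clo.isQuotientMap m.bl.cont m.surj).continuous_iff.2 (by
    rw [show r' ∘ π = _ from funext hr]; exact c.cont.comp (h.cont.comp f.symm.continuous))
  have : Nonempty M := ⟨ρ y₀⟩
  obtain ⟨ρ', b'⟩ := exists_blob_of_closed rc zf (fun y =>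
    let ⟨s, hs⟩ := h.surj_cl c (fun x a => let ⟨k, b⟩ := hF x (Or.inl a); ⟨k, trivial, b⟩) y
    ⟨π (f s), by simpa [hr] using hs⟩) (fun a u b _ e => by
      obtain ⟨s, rfl⟩ := m.surj a
      obtain ⟨t, rfl⟩ := m.surj b
      rw [mem_preimage, hr] at u
      rw [hr, hr] at e
      have v := mt (c.mem_iff _).2 u
      rw [f.symm.injective (h.inj (fun w => let ⟨k, b⟩ := hF _ (Or.inr w)
        v (mem_biUnion trivial (interior_subset b))) (c.inj v (mt (c.mem_iff _).2 (e ▸ u)) e))])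
    rc.isClosedMap
  have pc : ∀ {A}, IsOpen A → IsPreconnected A → A.Nonempty → IsPreconnected (r' ⁻¹' A) ∧
      (r' ⁻¹' (A \ z '' univ)).Nonempty := fun {A} a b n =>
    have := ((infinite_of_open a n).sdiff zf).nonempty
    ⟨b'.preconn a (by simpa only [empty_union] using preconn_diff_finite b a zf)
      fun _ => by simpa only [empty_union] using this,
      let ⟨y, u⟩ := this; ⟨ρ' y, by rwa [mem_preimage, b'.pq y (by simpa using u.2)]⟩⟩
  have dQ := fun i a => m.disc (hQ i a).1 (s2 i a)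
  have dD := m.disc d1 d3
  have BO : ∀ i ∈ I, ρ '' Q i ⊆ r' ⁻¹' O (κ i) := by
    rintro i a _ ⟨y, u, rfl⟩
    obtain ⟨s, e⟩ := m.surj (ρ y)
    rw [mem_preimage, ← e, hr, cz i a s ((νQ i a _).1 (by rwa [← m.comm, e, ((dQ i a).2.1 y u).1]))]
    exact zO _
  have Bd : I.PairwiseDisjoint fun i => ρ '' Q i := fun i a j b e => disjoint_left.2 (by
    rintro _ ⟨y, u, rfl⟩ ⟨y', v, w⟩
    exact disjoint_left.1 (hdQ a b e) u (by
      rwa [← ((dQ i a).2.1 y u).1, ← w, ((dQ j b).2.1 y' v).1]))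
  choose θ' t1 t2 using fun k => gather_discs ((hO k).1.preimage rc)
    (pc (hO k).1 (hO k).2.1 ⟨_, zO k⟩).1 (hI.subset (sep_subset I fun i => κ i = k))
    (t := fun _ => r' ⁻¹' (O k \ z '' univ)) (fun i a => (dQ i a.1).1) (Bd.subset (sep_subset _ _))
    (fun i a => a.2 ▸ BO i a.1) (fun _ _ => ((hO k).1.sdiff zf.isClosed).preimage rc)
    (fun _ _ => (pc (hO k).1 (hO k).2.1 ⟨_, zO k⟩).2) fun _ _ => preimage_mono sdiff_subset
  obtain ⟨θ, t3, t4, t5⟩ := glue_open finite_univ (k := θ') (fun i a j b e => (hd a b e).preimage r')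
    fun k _ => t1 k
  have t6 : ∀ a, (∀ k, r' a ∉ O k) → a ∉ ⋃ k ∈ (univ : Set Bool), r' ⁻¹' O k := fun a u => by simpa using u
  have zc := pc zf.isClosed.isOpen_compl (by
    rw [compl_eq_univ_sdiff]; exact preconn_diff_finite isPreconnected_univ isOpen_univ zf)
    zf.infinite_compl.nonempty
  obtain ⟨ψ, -, p2, p3⟩ := gather_fix oM dD.1 isOpen_univ isPreconnected_univ (subset_univ _)
    ((zf.isClosed.isOpen_compl.preimage rc).preimage θ.continuous) (θ.isPreconnected_preimage.2 zc.1)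
    (subset_univ _) ((zc.2.mono (preimage_mono sdiff_subset)).preimage θ.surjective) hI
    (fun i a => (dQ i a).1) Bd (fun i a => image_mono (QD i a)) fun i a y u => by
      rw [mem_preimage, t4 _ trivial y (BO i a u)]; exact (t2 _ i ⟨a, rfl⟩ u).2
  have p4 : ∀ i ∈ I, ∀ a, r a ∈ Q i → ψ a = a := fun i u a v => p2 i u a ⟨_, v, (dQ i u).2.2 a v⟩
  have pN := m.nb c' fun i u a v => p4 i u a (s1 i u v)
  have Rl : ∀ a, r' (θ (ψ a)) ∉ z '' univ → LH (r' ∘ θ ∘ ψ) a := fun a u =>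
    ((lh_homeo ψ a).comp (lh_homeo θ _)).comp (b'.lh_p u)
  have Ri : ∀ a b, r' (θ (ψ a)) ∉ z '' univ → r' (θ (ψ a)) = r' (θ (ψ b)) → a = b := fun a b u e =>
    ψ.injective (θ.injective (b'.inj u e))
  obtain ⟨L, l1⟩ := sphere_ext d1 (f := (r' ∘ θ ∘ ψ) ∘ ρ)
    (fun y u => (dD.2.1 y u).2.comp (Rl _ (p3 ⟨y, u, rfl⟩))) fun y u y' v e => by
      rw [← (dD.2.1 y u).1, Ri _ _ (p3 ⟨y, u, rfl⟩) e, (dD.2.1 y' v).1]
  have l2 : ∀ s, p s ∈ D → r' (θ (ψ (π s))) = L (ν' (p s)) := fun s u => by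
    have v := (νD _).2 u
    rw [l1 _ v, ← m.comm, Function.comp_apply, dD.2.2 _ (m.comm s ▸ v)]; rfl
  have l3 : ∀ y ∈ D, L y ∉ z '' univ := fun y u => l1 y u ▸ p3 ⟨y, u, rfl⟩
  have LO : L ∈ OPS oS := by
    obtain ⟨ε, e1⟩ := h.sgn
    obtain ⟨ε', e2⟩ := (b'.ob (h.te.preconn_compl (empty_subset _) isClosed_empty zf) oM oS).sgn
    have y1 : y₀ ∉ E ∪ X := fun a => let ⟨k, b⟩ := hF _ a; hy k ((hO k).2.2 (interior_subset b))
    have y2 : p (f.symm (f (q y₀))) = y₀ := by rw [f.symm_apply_apply, h.pq _ y1]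
    have y3 := c.out y₀ fun k _ => hy k
    have y4 : r' (π (f (q y₀))) = y₀ := by rw [hr, y2, y3.self_of_nhds]
    have y5 := (m.sg _ (nZ _ fun i a b => hy _ ((hO _).2.2 (y2 ▸ hκ i a _ b)))).comp
      (e2 _ (by rw [y4]; rintro ⟨k, -, b⟩; exact hy k (b ▸ zO k)))
    have y6 := ((inv_mem hf (f (q y₀))).comp (e1 (f.symm (f (q y₀))) (by
      rw [y2]; exact fun a => y1 (Or.inr a)))).congr (f' := r' ∘ π) (by
        filter_upwards [(h.cont.comp f.symm.continuous).continuousAt.eventually (y2.symm ▸ y3)]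
          with t a using ((hr t).trans a).symm)
    obtain rfl : ε' = ε := by simpa using y5.unique y6
    obtain ⟨y, ⟨u, v⟩, w⟩ := h.te.nd _ (isOpen_interior.inter isOpen_interior) (by
      simpa using isPreconnected_univ _ _ isOpen_interior isOpen_interior
        (fun y _ => or_iff_not_imp_right.2 (@d2 y)) (by simpa using d1.interior_nonempty)
        (by simpa using hΔ.interior_nonempty))
    obtain ⟨s, rfl⟩ : ∃ s, p s = y := ⟨_, h.pq y w⟩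
    have nQ : ∀ i ∈ I, p s ∉ Q i := fun i a => disjoint_left.1 (hΔQ i a) (interior_subset v)
    obtain ⟨e, he⟩ := hn
    obtain ⟨w', a, b⟩ := h.te.nd _ isOpen_interior ⟨e, s3 he⟩
    have k1 : ψ ∈ OPS oM := OPS_of_id (pN _ ((m.mem (q w')).2 (by
      rw [h.pq _ b]; exact interior_subset a)))
    have k2 : θ ∈ OPS oM := OPS_of_AA t3 (t6 _ (y4.symm ▸ hy))
    have k3 := ((((m.sg s (nZ s nQ)).comp1 (k1 _)).comp1 (k2 _)).comp (e2 _ (by
      rw [Function.comp_apply, Function.comp_apply, l2 s (interior_subset u)]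
      exact l3 _ ((νD _).2 (interior_subset u))))).congr (f' := L ∘ p) (by
        filter_upwards [h.cont.continuousAt (mem_interior_iff_mem_nhds.1 u),
          h.cont.continuousAt.eventually (c'.out _ fun i a b => nQ i a (interior_subset b))]
          with t a b using (l2 t a).trans (congrArg L b))
    have k4 := e1 s fun a => w (Or.inr a)
    have := k4.of_comp_left (lh_homeo L _) k3
    rw [mul_one, k4.sq] at this
    exact OPS_of_sg this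
  have zD : ∀ k, L.symm (z k) ∈ interior Δ := fun k => by_contra fun a =>
    l3 _ (interior_subset (d2 a)) (by simp)
  obtain ⟨m₀, m1, m2, m3⟩ := multi_move oS isOpen_interior hΔ.preconn_interior finite_univ
    (p := L.symm ∘ z) (q := x) (L.symm.injective.comp_injOn fun k _ k' _ e =>
      hd.elim_set trivial trivial _ (zO k) (e ▸ zO k')) hx.injOn (fun k _ => zD k) fun k _ => hxΔ k
  have m4 : ∀ y ∉ Δ, m₀ y = y := fun y a => AA_fix m1 fun b => a (interior_subset b)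
  have m5 := fix_mem_iff m4
  obtain ⟨n, n1, n2⟩ := m.lift h.toBS s3 (inv_mem pN)
  let G : S → OnePoint ℂ := fun s => m₀ (L.symm (r' (θ (ψ (π s)))))
  have g1 : ∀ s, p s ∈ D → G s = m₀ (ν' (p s)) := fun s a => by simp [G, l2 s a]
  have g2 : ∀ s, G (n (f s)) = (m₀ * L⁻¹) (r' (θ (π (f s)))) := fun s => by simp [G, n2.1]
  have g3 : ∀ s, p s ∉ Δ → G s = ν' (p s) := fun s a => by
    rw [g1 s (nD _ a), m4 _ (mt (νΔ _).1 a)]
  have g4 : ∀ i ∈ I, Q i ⊆ (m₀ * L⁻¹) '' O (κ i) := fun i a y u =>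
    ⟨L y, by
      rw [l1 y (QD i a u)]
      simp only [Function.comp_apply, p2 i a _ ⟨y, u, rfl⟩]
      exact (t5 _ trivial _).2 (BO i a ⟨y, u, rfl⟩),
    by simpa using m4 y (disjoint_right.1 (hΔQ i a) u)⟩
  have g5 : ∀ s, G s ∈ Δ ↔ p s ∈ Δ := fun s => by
    by_cases a : p s ∈ D
    · rw [g1 s a, m5, νΔ]
    · refine iff_of_true ((m5 _).2 (by_contra fun b => a ?_)) (by_contra fun b => a (nD _ b))
      have u := nD _ b
      rw [← νD, ← m.comm, ← Ri _ (π s) (p3 ⟨_, u, rfl⟩) ((l1 _ u).symm.trans (by simp)),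
        (dD.2.1 _ u).1]
      exact u
  let P : S → OnePoint ℂ := fun s => if p s ∈ Δ then G s else p s
  have q1 : ∀ s, p s ∈ Δ → P s = G s := fun s a => if_pos a
  have q2 : ∀ s, p s ∉ Δ → P s = p s := fun s a => if_neg a
  have q3 : ∀ s, P s = G s ∨ ∃ i ∈ I, P s ∈ Q i ∧ G s ∈ Q i := fun s => by
    by_cases a : p s ∈ Δ
    · exact Or.inl (q1 s a)
    · rw [q2 s a, g3 s a]
      refine or_iff_not_imp_right.2 fun b => (c'.out _ fun i u v => b ⟨i, u, interior_subset v,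
        (νQ i u _).2 (interior_subset v)⟩).self_of_nhds.symm
  obtain ⟨K, k1, k2, k3⟩ := id m1
  refine ⟨n, n1, fun i a s u => m.bl.lf_fix n2 (by
    rw [Homeomorph.inv_apply, Homeomorph.symm_apply_eq, p4 i a _ (m.comm s ▸ (νQ i a _).2 u)]),
    m₀ * L⁻¹, mul_mem m2 (inv_mem LO), P, ⟨?_, ⟨K ∪ (interior D)ᶜ,
      k1.isClosed.union isOpen_interior.isClosed_compl, union_subset k2 (compl_subset_comm.1 d2),
      fun s a b => ?_⟩, Subset.antisymm ?_ fun y a => ?_, fun s a t b e => ?_⟩, q2, fun s a => ?_,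
      fun k s a => ?_, fun k => ⟨z k, zO k, m3 k trivial⟩, g4⟩
  · exact (m₀.continuous.comp (L.symm.continuous.comp (rc.comp (θ.continuous.comp
      (ψ.continuous.comp m.bl.cont))))).continuousOn.congr q1
  · rw [q1 s a, g1 s (interior_subset (by_contra fun d => b (Or.inr d))), (c'.out _ fun i u v =>
      disjoint_left.1 (hΔQ i u) a (interior_subset v)).self_of_nhds, k3 _ fun d => b (Or.inl d)]
  · rintro _ ⟨s, a, rfl⟩; rw [q1 s a]; exact (g5 s).2 a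
  · obtain ⟨s, e⟩ : ∃ s, G s = y := ((((m₀.surjective.comp L.symm.surjective).comp
      fun y => b'.surj (notMem_empty y)).comp θ.surjective).comp ψ.surjective).comp m.surj y
    exact ⟨s, (g5 s).1 (e ▸ a), (q1 s ((g5 s).1 (e ▸ a))).trans e⟩
  · rw [q1 s a.1, q1 t b.1] at e
    refine m.bl.inj (nZ s fun i u => disjoint_left.1 (hΔQ i u) a.1)
      (Ri _ _ ?_ (L.symm.injective (m₀.injective e)))
    rintro ⟨k, -, u⟩
    exact a.2 ⟨k, by rw [q1 s a.1, ← m3 k trivial]; simp [G, u]⟩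
  · have u : r' (π (f s)) = p s := by
      rw [hr, f.symm_apply_apply, (c.out _ fun k _ => a k).self_of_nhds]
    have v := g2 s
    rw [AA_fix t3 (t6 _ (u ▸ a)), u] at v
    exact ((q3 _).resolve_right fun ⟨i, b, _, d⟩ => a _
      ((m₀ * L⁻¹).injective.mem_set_image.1 (v ▸ g4 i b d))).trans v
  · have u : G (n (f s)) ∈ (m₀ * L⁻¹) '' O k := ⟨_, (t5 k trivial _).2 (by
      rw [mem_preimage, hr, f.symm_apply_apply]; exact (c.maps k trivial _).2 a), (g2 s).symm⟩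
    rcases q3 (n (f s)) with b | ⟨i, b, d, e⟩
    · exact b ▸ u
    · obtain ⟨y, v, w⟩ := u
      exact hd.elim_set trivial trivial y
        ((m₀ * L⁻¹).injective.mem_set_image.1 (w ▸ g4 i b e)) v ▸ g4 i b d

/-- Nested discs on both sides of an annulus. -/
structure Geo (F D : Set (OnePoint ℂ)) (C O : Bool → Set (OnePoint ℂ)) (z : Bool → OnePoint ℂ)
    (ν : OnePoint ℂ → OnePoint ℂ) (B B' : Set (OnePoint ℂ)) (w : OnePoint ℂ)
    (μ : OnePoint ℂ → OnePoint ℂ) : Prop where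
  cl : Cl univ C O z ν
  op : ∀ k, IsOpen (O k) ∧ IsPreconnected (O k) ∧ C k ⊆ O k
  dj : (univ : Set Bool).PairwiseDisjoint O
  inn : F ∩ D ⊆ interior (C true)
  out : (interior D)ᶜ ⊆ interior (C false)
  dB : IsDisc B
  dB' : IsDisc B'
  s1 : O true ⊆ interior B
  s2 : B ⊆ interior B'
  s3 : B' ⊆ interior D
  s4 : Disjoint (O false) B'
  cl' : Cl {()} (fun _ => B) (fun _ => interior B') (fun _ => w) μ

theorem CD.geo {F D : Set (OnePoint ℂ)} (h : CD F D) (hF : IsClosed F) :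
    ∃ C O z ν B B' w μ, Geo F D C O z ν B B' w μ := by
  obtain ⟨B', a1, a2, a3⟩ := h.shrink hF
  have k := h.1.isCompact.inter_left hF
  obtain ⟨B, b1, b2, b3⟩ := a1.exists_smaller k a2
  obtain ⟨C, c1, c2, c3⟩ := b1.exists_smaller k b2
  obtain ⟨D', d1, d2, d3⟩ := sphere_compl h.1 a1.isCompact a3
  obtain ⟨C', e1, e2, e3⟩ := d1.exists_smaller isOpen_interior.isClosed_compl.isCompact d2
  have dj : (univ : Set Bool).PairwiseDisjoint fun k => cond k (interior B) (interior D') :=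
    pairwise_univ.2 (pairwise_disjoint_on_bool.2 (d3.symm.mono
      (interior_subset.trans (b3.trans interior_subset)) interior_subset))
  obtain ⟨z, ν, c⟩ := exists_Cl finite_univ (C := fun k => cond k C C') (by
    rintro (_ | _) -; exacts [⟨e1, isOpen_interior, e3⟩, ⟨c1, isOpen_interior, c3⟩]) dj
  obtain ⟨w, μ, c'⟩ := exists_Cl_one b1 isOpen_interior b3
  exact ⟨_, _, z, ν, B, B', w, μ, c, by
    rintro (_ | _)
    exacts [⟨isOpen_interior, d1.preconn_interior, e3⟩, ⟨isOpen_interior, b1.preconn_interior, c3⟩],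
    dj, c2, e2, b1, a1, subset_rfl, b3, a3, d3.mono_left interior_subset, c'⟩

/-- The collapse `P`, modified over `Δ`, for which `g` descends to `Λ` over an annulus. -/
structure Ex (p : S → OnePoint ℂ) (E X : Set (OnePoint ℂ)) (g : S ≃ₜ S) (B B' : Set (OnePoint ℂ))
    (μ : OnePoint ℂ → OnePoint ℂ) (𝒬 : Set (Set (OnePoint ℂ))) (Δ : Set (OnePoint ℂ))
    (x : Bool → OnePoint ℂ) (Λ : OnePoint ℂ ≃ₜ OnePoint ℂ) (P : S → OnePoint ℂ) : Prop where
  fin : 𝒬.Finite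
  cd : ∀ Q ∈ 𝒬, CD (E ∪ X) Q
  dj : 𝒬.PairwiseDisjoint id
  cov : ∀ y ∈ E, ∃ Q ∈ 𝒬, y ∈ interior Q
  side : ∀ Q ∈ 𝒬, (Q ⊆ interior B ∧ Q ⊆ interior (Λ '' B)) ∨ (Disjoint Q B' ∧ Disjoint Q (Λ '' B'))
  cdΔ : CD (E ∪ X) Δ
  djΔ : ∀ Q ∈ 𝒬, Disjoint Δ Q
  covΔ : X \ ⋃ Q ∈ 𝒬, Q ⊆ Δ
  xin : ∀ k, x k ∈ X ∩ Δ
  x1 : x true ∈ interior (Λ '' B)
  x0 : x false ∉ Λ '' B'
  ops : Λ ∈ OPS oS
  pt : Pt p Δ P (range x)
  off : ∀ s, p s ∉ Δ → P s = p s
  col : ∀ s, p s ∈ B' → μ (Λ.symm (P (g s))) = μ (p s)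
  mem : ∀ s, P (g s) ∈ Λ '' B ↔ p s ∈ B

theorem Std.ex (h : Std o p q E X) {f : S ≃ₜ S} (hf : f ∈ OPS o) {C O : Bool → Set (OnePoint ℂ)}
    {z : Bool → OnePoint ℂ} {ν μ : OnePoint ℂ → OnePoint ℂ} {D B B' W : Set (OnePoint ℂ)}
    {w e : OnePoint ℂ} (g : Geo (E ∪ X) D C O z ν B B' w μ)
    (hE : ∀ x ∈ E, ∃ k, x ∈ interior (C k) ∧ ∀ᶠ s in comap p (𝓝 x), p (f.symm s) ∈ C k)
    {𝒢 : Set (Set (OnePoint ℂ))} (h1 : 𝒢.Finite) (h2 : 𝒢.PairwiseDisjoint id)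
    (h3 : ∀ Q ∈ 𝒢, CD (E ∪ X) Q ∧ Disjoint Q D ∧ e ∉ Q ∧ ∀ s, p s ∈ Q → f s = s) (he : e ∈ E)
    (hX : e ∈ closure X) (hW : W ∈ 𝓝 e) : ∃ n ∈ AA univ, ∃ 𝒬 Δ x Λ P,
      Ex p E X (n * f) B B' μ 𝒬 Δ x Λ P ∧ (∀ Q ∈ 𝒬, ∀ s, p s ∈ Q → n s = s) ∧ 𝒢 ⊆ 𝒬 ∧
      ∃ Q ∈ 𝒬, e ∈ interior Q ∧ Q ⊆ W := by
  have gc : IsClosed (⋃ Q ∈ 𝒢, Q) := h1.isClosed_biUnion fun Q a => (h3 Q a).1.1.isCompact.isClosed
  have xi := h.infinite_near he hX (gc.isOpen_compl.mem_nhds (by simpa using fun Q a => (h3 Q a).2.2.1))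
  obtain ⟨x, x1, x2⟩ := exists_inj_choice (finite_univ (α := Bool)) _ fun _ _ => xi
  obtain ⟨δ, d1, d2⟩ := Metric.mem_nhds_iff.1 hW
  obtain ⟨𝒬, a1, a2, a3, a4⟩ := h.te.discs (E := E \ ⋃ Q ∈ 𝒢, interior Q)
    (h.clE.sdiff (isOpen_biUnion fun _ _ => isOpen_interior)) (sdiff_subset.trans subset_union_left)
    (O := fun k => ((interior {y | ∀ s, p s = y → p (f.symm s) ∈ C k} ∩ interior (C k)) \ range x)
      \ ⋃ Q ∈ 𝒢, Q) (fun k => ((isOpen_interior.inter isOpen_interior).sdiff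
      (finite_range x).isClosed).sdiff gc) (fun y a => by
        obtain ⟨k, u, v⟩ := hE y a.1
        refine mem_iUnion.2 ⟨k, ⟨⟨mem_interior_iff_mem_nhds.2 (eventually_comap.1 v), u⟩, ?_⟩, fun b => ?_⟩
        · rintro ⟨k, rfl⟩; exact h.disj (x2 k trivial).1 a.1
        · obtain ⟨Q, c, d⟩ := mem_iUnion₂.1 b
          exact a.2 (mem_biUnion c ((h3 Q c).1.2 y (Or.inl a.1) d))) d1
  have cd : ∀ Q ∈ 𝒢 ∪ 𝒬, CD (E ∪ X) Q := fun Q a => a.elim (fun a => (h3 Q a).1) fun a => (a2 Q a).1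
  have dj : (𝒢 ∪ 𝒬).PairwiseDisjoint id := h2.union a3 fun Q a Q' b _ =>
    let ⟨_, c⟩ := (a2 Q' b).2.2.1; disjoint_left.2 fun y u v => (c v).2 (mem_biUnion a u)
  have cov : ∀ y ∈ E, ∃ Q ∈ 𝒢 ∪ 𝒬, y ∈ interior Q := fun y a => by
    by_cases b : y ∈ ⋃ Q ∈ 𝒢, interior Q
    · obtain ⟨Q, c, d⟩ := mem_iUnion₂.1 b; exact ⟨Q, Or.inl c, d⟩
    · obtain ⟨Q, c, d⟩ := a4 y ⟨a, b⟩; exact ⟨Q, Or.inr c, d⟩
  have ka : ∀ Q ∈ 𝒢 ∪ 𝒬, ∃ k, Q ⊆ C k ∧ ∀ s, p s ∈ Q → p (f.symm s) ∈ C k := by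
    rintro Q (a | a)
    · have b : Q ⊆ C false := fun y u => interior_subset (g.out fun v =>
        disjoint_left.1 (h3 Q a).2.1 u (interior_subset v))
      exact ⟨false, b, fun s u => by rw [f.symm_apply_eq.2 ((h3 Q a).2.2.2 s u).symm]; exact b u⟩
    · obtain ⟨k, b⟩ := (a2 Q a).2.2.1
      exact ⟨k, fun y u => interior_subset (b u).1.1.2, fun s u => interior_subset (b u).1.1.1 s rfl⟩
  choose! κ k1 k2 using ka
  have xQ : ∀ k, x k ∈ X \ ⋃ Q ∈ 𝒢 ∪ 𝒬, Q := fun k => ⟨(x2 k trivial).1, fun a => by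
    obtain ⟨Q, b | b, c⟩ := mem_iUnion₂.1 a
    · exact (x2 k trivial).2 (mem_biUnion b c)
    · obtain ⟨_, d⟩ := (a2 Q b).2.2.1; exact (d c).1.2 ⟨k, rfl⟩⟩
  obtain ⟨o1, o2⟩ := preconn_diff_discs isOpen_univ isPreconnected_univ (h1.union a1)
    (D := fun Q => Q) (fun Q a => (cd Q a).1) dj fun _ _ => subset_univ _
  obtain ⟨Δ, b1, b2, b3⟩ := exists_disc_finite o1 o2 ⟨_, trivial, (xQ true).2⟩
    (h.finite_diff (subset_interior_biUnion cov)) (sdiff_subset_sdiff_left (subset_univ X))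
  have b4 : ∀ Q ∈ 𝒢 ∪ 𝒬, Disjoint Δ Q := fun Q a => disjoint_left.2 fun y u v =>
    (b2 u).2 (mem_biUnion a v)
  obtain ⟨y₀, y1, y2⟩ := g.dB.exists_notMem isOpen_interior g.s2
  have o3 : ∀ y, (∀ k, y ∉ O k) ∨ ∃ k, y ∈ O k := fun y => by simpa using em' (∃ k, y ∈ O k)
  obtain ⟨n, n1, n2, Λ, l1, P, p1, p2, p3, p4, p5, p6⟩ := h.exo hf g.cl g.op g.dj (fun y a => by
      by_cases b : y ∈ D
      exacts [⟨_, g.inn ⟨a, b⟩⟩, ⟨_, g.out fun c => b (interior_subset c)⟩])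
    (y₀ := y₀) (by
      rintro (_ | _) a
      exacts [disjoint_left.1 g.s4 a (interior_subset y1), y2 (interior_subset (g.s1 a))])
    (h1.union a1) cd dj (fun y a => (cov y a).imp fun _ b => ⟨b.1, interior_subset b.2⟩) ⟨e, he⟩ k2
    b1 b4 b3 (injOn_univ.1 x1) fun k => b3 (xQ k)
  have i1 : Λ '' O true ⊆ interior (Λ '' B) := Λ.image_interior B ▸ image_mono g.s1
  have i2 : Disjoint (Λ '' O false) (Λ '' B') := (disjoint_image_iff Λ.injective).2 g.s4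
  have sB : B ⊆ B' := g.s2.trans interior_subset
  refine ⟨n, n1, _, Δ, x, Λ, P, ⟨h1.union a1, cd, dj, cov, fun Q a => ?_, ⟨b1, fun y a u => b3
    ⟨a.resolve_left fun c => let ⟨Q, d, v⟩ := cov y c; (b2 u).2 (mem_biUnion d (interior_subset v)),
    (b2 u).2⟩⟩, b4, b3.trans interior_subset, fun k => ⟨(xQ k).1, interior_subset (b3 (xQ k))⟩,
    i1 (p5 _), disjoint_left.1 i2 (p5 _), l1, p1, p2, fun s a => ?_, fun s => ?_⟩, n2,
    subset_union_left, ?_⟩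
  · have u := (k1 Q a).trans (g.op _).2.2
    have v := p6 Q a
    cases c : κ Q <;> rw [c] at u v
    exacts [Or.inr ⟨g.s4.mono_left u, i2.mono_left v⟩, Or.inl ⟨u.trans g.s1, v.trans i1⟩]
  · rcases o3 (p s) with b | ⟨_ | _, b⟩
    · simp [p3 s b]
    · exact (disjoint_left.1 g.s4 b a).elim
    · obtain ⟨y, u, v⟩ := p4 _ s b
      rw [Homeomorph.mul_apply, ← v, Λ.symm_apply_apply, (g.cl'.fib () rfl _).2
        (interior_subset (g.s1 u)), (g.cl'.fib () rfl _).2 (interior_subset (g.s1 b))]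
  · rcases o3 (p s) with b | ⟨_ | _, b⟩
    · rw [Homeomorph.mul_apply, p3 s b, Λ.injective.mem_set_image]
    · exact iff_of_false (fun c => disjoint_left.1 i2 (p4 _ s b) (image_mono sB c))
        fun c => disjoint_left.1 g.s4 b (sB c)
    · exact iff_of_true (interior_subset (i1 (p4 _ s b))) (interior_subset (g.s1 b))
  · obtain ⟨Q, a, b⟩ := a4 e ⟨he, by simpa using fun Q a b => (h3 Q a).2.2.1 (interior_subset b)⟩
    exact ⟨Q, Or.inr a, b, fun y u => d2 ((a2 Q a).2.1 y u e (interior_subset b))⟩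

end Pool.Agent.Lib.MP_069d55_gt.K
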