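import Pool.Agent.Lib.MP_069d55_gt.KNeg

/-! The flux character. -/

open Set Topology Filter Metric OnePoint

namespace Pool.Agent.Lib.MP_069d55_gt.K

section
variable {X : Type*} [TopologicalSpace X] [CompactSpace X] [T2Space X]
  [TotallyDisconnectedSpace X]

theorem exists_clopen_avoid {s : Set X} (hs : s.Finite) {x : X} {U : Set X} (hU : U ∈ 𝓝 x) :
    ∃ V, IsClopen V ∧ x ∈ V ∧ V ⊆ U ∧ ∀ y ∈ s, y ∈ V → y = x := by
  obtain ⟨V, h1, h2, h3⟩ := exists_clopen_nhds (inter_mem hU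
    ((hs.subset (sdiff_subset (t := {x}))).isClosed.isOpen_compl.mem_nhds fun h => h.2 rfl))
  exact ⟨V, h1, h2, fun y hy => (h3 hy).1, fun y hy h => by_contra fun h' => (h3 h).2 ⟨hy, h'⟩⟩

omit [CompactSpace X] [T2Space X] [TotallyDisconnectedSpace X] in
theorem isolated_of_notMem {O : Set X} {x : X} (h : x ∉ derivedSet O) :
    ∃ U ∈ 𝓝 x, ∀ y ∈ O, y ∈ U → y = x := by
  rw [mem_derivedSet, accPt_iff_nhds] at h
  push Not at h
  obtain ⟨U, hU, h⟩ := h
  exact ⟨U, hU, fun y h1 h2 => h y ⟨h2, h1⟩⟩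

theorem flux_data [FirstCountableTopology X] (hs : Stable X) (hF : Flux X) :
    ∃ (A : Set X) (χ : (X ≃ₜ X) → ℤ), IsClopen A ∧
      (∀ a ∈ Fix (finOrb X), ∀ b ∈ Fix (finOrb X), χ (a * b) = χ a + χ b) ∧
      (∀ a : X ≃ₜ X, (∀ x, a x ∈ A ↔ x ∈ A) → χ a = 0) ∧ ∃ u ∈ Fix (finOrb X), χ u ≠ 0 := by
  classical
  obtain ⟨x, hx, hd, A, hA, ⟨z, hz⟩, ⟨z', hz'⟩, hsp⟩ := hF
  wlog hxA : x ∉ A generalizing A z z'
  · refine this Aᶜ hA.compl z' hz' (fun w hw h => hsp w hw ⟨?_, h.1⟩) z ⟨hz.1, fun h => h hz.2⟩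
      fun h => h (not_not.1 hxA)
    simpa only [sdiff_compl] using h.2
  set c : X → ℤ := fun y => if y ∈ orb x ∧ y ∈ A then 1 else 0 with hc
  have cz : ∀ (g : X ≃ₜ X) y, (y ∈ orb x → (g y ∈ A ↔ y ∈ A)) → c (g y) - c y = 0 :=
    fun g y hy => by simp only [hc, apply_mem_orb g, and_congr_right hy, sub_self]
  have fs : ∀ g ∈ Fix (finOrb X), Function.HasFiniteSupport fun y => c (g y) - c y := by
    intro g hg
    refine Set.Finite.subset (s := orb x ∩ ((g ⁻¹' A ∩ Aᶜ) ∪ ((g ⁻¹' A)ᶜ ∩ A))) ?_ fun y hy => ?_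
    · by_contra hinf
      obtain ⟨w, hw⟩ := Set.Infinite.exists_accPt_of_subset_isCompact hinf isCompact_univ
        (subset_univ _)
      have h1 : w ∈ derivedSet (orb x) := hw.2.mono (principal_mono.2 inter_subset_left)
      have hA' := hA.preimage g.continuous
      have h2 := ((hA'.inter hA.compl).union (hA'.compl.inter hA)).1.closure_subset
        (mem_closure_iff_clusterPt.2 ((hw.2.mono (principal_mono.2 inter_subset_right)).clusterPt))
      have h3 := (apply_mem_derived g).2 h1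
      by_cases hf : (orb w).Finite
      · have := hg w hf
        rcases h2 with h | h
        exacts [h.2 (this ▸ (h.1 : g w ∈ A)), h.1 (this.symm ▸ h.2 : g w ∈ A)]
      · rcases h2 with h | h
        exacts [hsp w hf ⟨⟨_, ⟨g, rfl⟩, h3, h.1⟩, _, mem_orb_self w, h1, h.2⟩,
          hsp w hf ⟨⟨_, mem_orb_self w, h1, h.2⟩, _, ⟨g, rfl⟩, h3, h.1⟩]
    · by_contra hcon
      exact hy (cz g y fun hy' => ⟨fun h => by_contra fun h2 => hcon ⟨hy', Or.inl ⟨h, h2⟩⟩,
        fun h => by_contra fun h2 => hcon ⟨hy', Or.inr ⟨h2, h⟩⟩⟩)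
  refine ⟨A, fun g => ∑ᶠ y, (c (g y) - c y), hA, fun a ha b hb => ?_,
    fun a ha => finsum_eq_zero_of_forall_eq_zero fun y => cz a y fun _ => ha y, ?_⟩
  · simp only
    rw [← finsum_comp_equiv b.toEquiv (f := fun y => c (a y) - c y)]
    refine Eq.trans (finsum_congr fun y => ?_)
      (finsum_add_distrib ((fs a ha).preimage b.injective.injOn) (fs b hb))
    simp
  have hx' : x ∉ derivedSet (orb x) := Set.disjoint_left.1 hd (mem_orb_self x)
  obtain ⟨U, hU⟩ := hs.stN x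
  obtain ⟨U', hU', iso⟩ := isolated_of_notMem hx'
  have hf := hs.finite_finOrb
  obtain ⟨T, t1, t2, t3, t4⟩ := exists_clopen_avoid (hf.insert z') (inter_mem
    (inter_mem (hU.1.2.mem_nhds hU.2.1) hU') (hA.compl.2.mem_nhds hxA))
  have zT : z' ∉ T := fun h => hx' (t4 z' (mem_insert _ _) h ▸ hz'.1)
  obtain ⟨R, r1, r2, r3, r4⟩ := exists_clopen_avoid hf (hA.2.mem_nhds hz.2)
  obtain ⟨R', s1, s2, s3, s4⟩ := exists_clopen_avoid hf
    (inter_mem (hA.compl.2.mem_nhds hz'.2) (t1.compl.2.mem_nhds zT))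
  have ab : ∀ w ∈ derivedSet (orb x), Abs T w := fun w hw =>
    (hU.abs_of_derived hw).mono hU.1 t1 fun y hy => (t3 hy).1.1
  obtain ⟨u, u1, u2, u3, u4, u5⟩ := exists_transfer r1 s1 t1 r2 s2
    (Set.disjoint_left.2 fun y h h' => (t3 h').2 (r3 h)) (Set.disjoint_left.2 fun y h => (s3 h).2)
    (Set.disjoint_left.2 fun y h h' => (s3 h').1 (r3 h)) (ab z hz.1) (ab z' hz'.1)
  refine ⟨u, fun y hy => ?_, ?_⟩
  · by_cases h : y ∈ R ∪ T ∪ R'
    · rcases h with (h | h) | h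
      · rw [r4 y hy h, u4]
      · exact absurd (t4 y (Or.inr hy) h ▸ hy) hx
      · rw [s4 y hy h, u5]
    · exact u1 y h
  · simp only
    rw [finsum_eq_single _ x fun y hy => cz u y fun hy' => ?_]
    · simp [hc, hxA, apply_mem_orb, mem_orb_self, r3 (u2.mapsTo (Or.inr t2))]
    · by_cases h : y ∈ R ∪ T ∪ R'
      · rcases h with (h | h) | h
        · exact iff_of_true (r3 (u2.mapsTo (Or.inl h))) (r3 h)
        · exact absurd (iso y hy' (t3 h).1.2) hy
        · exact iff_of_false (fun h' => (u3.mapsTo h).elim (fun e => (s3 e).1 h')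
            fun e => (t3 e).2 h') (s3 h).1
      · rw [u1 y h]

end

variable {E : Set (OnePoint ℂ)} {h : TE E}
  {H : HomeoP (surf E h.closed) →* (OnePoint ℂ ≃ₜ OnePoint ℂ)}

theorem Hat.ev_maps (a : Hat h H) {K U : Set (OnePoint ℂ)} (hK : IsCompact K) (hU : IsOpen U)
    (hKU : K ⊆ U) : ∀ᶠ g in 𝓝 (1 : HomeoP (surf E h.closed)), ∀ x ∈ K, H g x ∈ U := by
  obtain ⟨δ, hδ, hs⟩ := hK.exists_thickening_subset_open hU hKU
  filter_upwards [a.near hδ] with g hg x hx using hs (mem_thickening_iff.2 ⟨x, hx, hg x⟩)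

theorem Hat.ev_ends (a : Hat h H) {K U : Set E} (hK : IsClosed K) (hU : IsOpen U)
    (hKU : K ⊆ U) : ∀ᶠ g in 𝓝 (1 : HomeoP (surf E h.closed)), ∀ x ∈ K, a.ends g x ∈ U := by
  have := h.compactSpace
  obtain ⟨δ, hδ, hs⟩ := hK.isCompact.exists_thickening_subset_open hU hKU
  filter_upwards [a.near hδ] with g hg x hx using hs (mem_thickening_iff.2 ⟨x, hx, hg x⟩)

theorem Hat.ev_fix (a : Hat h H) {O : Set E} {x : E} (hx : x ∉ derivedSet O) :
    ∀ᶠ g in 𝓝 (1 : HomeoP (surf E h.closed)), a.ends g x ∈ O → a.ends g x = x := by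
  obtain ⟨U, hU, iso⟩ := isolated_of_notMem hx
  filter_upwards [a.ev_ends isClosed_singleton isOpen_interior
    (singleton_subset_iff.2 (mem_interior_iff_mem_nhds.2 hU))] with g hg hO
  exact iso _ hO (interior_subset (hg x rfl))

theorem Hat.ev_fixF (a : Hat h H) (hs : Stable E) :
    ∀ᶠ g in 𝓝 (1 : HomeoP (surf E h.closed)), g ∈ a.fixF := by
  have := h.compactSpace
  have := h.tdSpace
  filter_upwards [(eventually_all_finite hs.finite_finOrb).2 fun x _ => a.ev_fix (O := finOrb E)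
    (x := x) fun h => infinite_of_mem_derived h hs.finite_finOrb] with g hg x hx
  exact hg x hx ((apply_mem_finOrb _).2 hx)

theorem Hat.ends_surj (a : Hat h H) (φ : E ≃ₜ E) : ∃ g, a.ends g = φ := by
  obtain ⟨p, -, hp⟩ := h.nd univ isOpen_univ univ_nonempty
  obtain ⟨k, h1, h2, h3, -⟩ := h.realize_homeo (Ω := univ \ {p}) (isOpen_univ.sdiff
    isClosed_singleton) (preconn_diff_point isPreconnected_univ isOpen_univ p) isClopen_univ
    (fun x _ => ⟨trivial, fun e => hp (e ▸ x.2)⟩) (φ := φ) fun _ => Iff.rfl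
  obtain ⟨g, rfl⟩ := a.mem_of_id h2 (AA_eventually h1 (x := p) fun h => h.2 rfl)
  exact ⟨g, Homeomorph.ext fun x => Subtype.ext (h3 x trivial)⟩

theorem Hat.pos_flux (a : Hat h H) (hs : Stable E) (hF : Flux E) :
    Pos (HomeoP (surf E h.closed)) := by
  have := h.compactSpace
  have := h.tdSpace
  have := a.fixF_index hs
  obtain ⟨A, χ, hA, h1, h2, u, hu, h3⟩ := flux_data hs hF
  obtain ⟨g, rfl⟩ := a.ends_surj u
  refine pos_of a.fixF (fun g => χ (a.ends g)) (fun g hg g' hg' => by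
    simp only [map_mul]; exact h1 _ hg _ hg') hu h3 ?_
  filter_upwards [a.ev_fixF hs, a.ev_ends hA.1 hA.2 subset_rfl,
    a.ev_ends hA.compl.1 hA.compl.2 subset_rfl] with g g1 g2 g3
  exact ⟨g1, h2 _ fun x => ⟨fun h => by_contra fun h' => g3 x h' h, g2 x⟩⟩

end Pool.Agent.Lib.MP_069d55_gt.K
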