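import Pool.Agent.Lib.MP_069d55_gt.KLog
import Pool.Agent.Lib.MP_069d55_gt.KFlux

/-! The linking case and the classification. -/

open Set Topology Filter Metric OnePoint

namespace Pool.Agent.Lib.MP_069d55_gt.K

section
variable {X : Type*} [TopologicalSpace X]

/-- An invariant set accumulating at most at `y`. -/
structure Ob (y : X) (O : Set X) : Prop where
  fin : y ∈ finOrb X
  ne : O.Nonempty
  der : derivedSet O ⊆ {y}
  inv : ∀ φ ∈ Fix (finOrb X), ∀ x, φ x ∈ O ↔ x ∈ O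

theorem derived_finite [CompactSpace X] [T2Space X] [TotallyDisconnectedSpace X] {s : Set X}
    (hs : s.Finite) {x : X} : x ∉ derivedSet s := fun h => infinite_of_mem_derived h hs

theorem finite_diff_of_derived [CompactSpace X] {O U : Set X} {y : X} (h : derivedSet O ⊆ {y})
    (hU : U ∈ 𝓝 y) : (O \ U).Finite := by
  by_contra hinf
  obtain ⟨w, hw, hw'⟩ := Set.Infinite.exists_accPt_of_subset_isCompact hinf
    isOpen_interior.isClosed_compl.isCompact fun x hx h => hx.2 (interior_subset h)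
  exact hw (h (hw'.mono (principal_mono.2 sdiff_subset)) ▸ mem_interior_iff_mem_nhds.2 hU)

theorem link_data [CompactSpace X] [T2Space X] [TotallyDisconnectedSpace X] (h : Link X) :
    ∃ (y₁ y₂ : X) (O₁ O₂ : Set X), Ob y₁ O₁ ∧ Ob y₂ O₂ ∧ y₁ ≠ y₂ ∧ Disjoint O₁ O₂ ∧
      y₁ ∉ O₁ ∪ O₂ ∧ y₂ ∉ O₁ ∪ O₂ := by
  have pt : ∀ y ∈ finOrb X, ∀ f ∈ finOrb X, Ob y {f} := fun y hy f hf =>
    ⟨hy, singleton_nonempty f, fun _ h => absurd h (derived_finite (finite_singleton f)),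
      fun φ hφ x => by rw [mem_singleton_iff, mem_singleton_iff, ← φ.injective.eq_iff (a := x),
        hφ f hf]⟩
  have ob : ∀ y ∈ finOrbPlus X, ∃ x, Ob y (orb x) ∧ derivedSet (orb x) = {y} ∧
      ∀ f ∈ finOrb X, f ∉ orb x := fun y ⟨hy, x, h1, h2⟩ =>
    ⟨x, ⟨hy, ⟨x, mem_orb_self x⟩, h2.le, fun φ _ _ => apply_mem_orb φ⟩, h2,
      fun f hf h => h1 (orb_eq h ▸ hf)⟩
  have sub : finOrbPlus X ⊆ finOrb X := fun _ h => h.1
  have pick : ∀ s : Set X, s.encard < (finOrb X).encard → ∃ f ∈ finOrb X, f ∉ s := fun s hs =>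
    not_subset.1 fun h => (encard_le_encard h).not_gt hs
  by_cases h2 : 1 < (finOrbPlus X).encard
  · obtain ⟨y₁, y₂, m1, m2, hne⟩ := one_lt_encard_iff.1 h2
    obtain ⟨x₁, a1, a2, a3⟩ := ob y₁ m1
    obtain ⟨x₂, b1, b2, b3⟩ := ob y₂ m2
    refine ⟨y₁, y₂, _, _, a1, b1, hne, Set.disjoint_left.2 fun x h h' => hne ?_,
      fun h => h.elim (a3 _ m1.1) (b3 _ m1.1), fun h => h.elim (a3 _ m2.1) (b3 _ m2.1)⟩
    rw [← orb_eq h, orb_eq h', b2] at a2
    exact (singleton_injective a2).symm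
  rcases (finOrbPlus X).eq_empty_or_nonempty with h0 | ⟨y₁, m1⟩
  · rw [Link, h0, encard_empty, add_zero] at h
    obtain ⟨y₁, m1, -⟩ := pick ∅ (lt_of_lt_of_le (by simp) h)
    obtain ⟨y₂, m2, n2⟩ := pick {y₁} (lt_of_lt_of_le (by simp) h)
    obtain ⟨f₁, m3, n3⟩ := pick {y₂, y₁} (lt_of_lt_of_le (by
      rw [encard_pair n2]; norm_num) h)
    obtain ⟨f₂, m4, n4⟩ := pick {f₁, y₂, y₁} (lt_of_lt_of_le (by
      rw [encard_insert_of_notMem n3, encard_pair n2]; norm_num) h)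
    simp only [mem_insert_iff, mem_singleton_iff, not_or] at n2 n3 n4
    exact ⟨y₁, y₂, _, _, pt _ m1 _ m3, pt _ m2 _ m4, Ne.symm n2, by simpa using Ne.symm n4.1,
      by simpa using ⟨Ne.symm n4.2.2, Ne.symm n3.2⟩, by simpa using ⟨Ne.symm n4.2.1, Ne.symm n3.1⟩⟩
  · have h3 : 3 ≤ (finOrb X).encard := by
      have : (3 : ℕ∞) + 1 ≤ (finOrb X).encard + 1 := le_trans h (add_le_add le_rfl (not_lt.1 h2))
      exact (ENat.add_le_add_iff_right ENat.one_ne_top).1 this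
    obtain ⟨y₂, m2, n2⟩ := pick {y₁} (lt_of_lt_of_le (by simp) h3)
    obtain ⟨f, m3, n3⟩ := pick {y₂, y₁} (lt_of_lt_of_le (by rw [encard_pair n2]; norm_num) h3)
    obtain ⟨x₁, a1, -, a3⟩ := ob y₁ m1
    simp only [mem_insert_iff, mem_singleton_iff, not_or] at n2 n3
    exact ⟨y₁, y₂, _, _, a1, pt _ m2 _ m3, Ne.symm n2, by simpa using a3 f m3,
      fun h => h.elim (a3 _ m1.1) (Ne.symm n3.2), fun h => h.elim (a3 _ m2) (Ne.symm n3.1)⟩

end

section
variable {M : Type*} [MetricSpace M]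

theorem near_chart {e : ℂ → M} (he : IsOpenEmbedding e) {K : Set ℂ} (hK : IsCompact K) {ε : ℝ}
    (hε : 0 < ε) : ∃ δ > 0, ∀ z ∈ K, ∀ w, dist (e w) (e z) < δ → ‖w - z‖ < ε := by
  obtain ⟨δ, hδ, h⟩ := lebesgue_number_lemma_of_metric (hK.image he.continuous)
    (c := fun z => e '' ball z (ε / 2)) (fun _ => he.isOpenMap _ isOpen_ball) (by
      rintro _ ⟨z, -, rfl⟩; exact mem_iUnion.2 ⟨z, z, mem_ball_self (half_pos hε), rfl⟩)
  refine ⟨δ, hδ, fun z hz w hw => ?_⟩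
  obtain ⟨c, hc⟩ := h _ (mem_image_of_mem _ hz)
  have h1 := he.injective.mem_set_image.1 (hc hw)
  have h2 := he.injective.mem_set_image.1 (hc (mem_ball_self hδ))
  rw [← dist_eq_norm]
  linarith [dist_triangle_right w z c, mem_ball.1 h1, mem_ball.1 h2]

theorem LC.descend {y : M} {e : ℂ → M} (he : LC y e) {k : M ≃ₜ M} (hk : k y = y) :
    ∃ F : ℂ ≃ₜ ℂ, ∀ z, k (e z) = e (F z) :=
  exists_descend he.emb fun x => by
    rw [he.range_eq, mem_compl_singleton_iff, mem_compl_singleton_iff,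
      ← k.injective.ne_iff (x := x), hk]

theorem TE.link_chart [CompactSpace M] [Charted M] [PreconnectedSpace M] {E : Set M} (h : TE E)
    {y : M} {e₀ : ℂ → M} (he : LC y e₀) {W : Set E} (hW : IsClopen W) (hy : ∀ x ∈ W, (x : M) ≠ y)
    {y₀ : E} (h0 : y₀ ∈ W) : ∃ e, LC y e ∧ e 0 = y₀ ∧ ∃ r > 0, ∀ u, ∀ x : E, e u = x →
      (x ∈ W → ‖u‖ < 2 * r) ∧ (x ∉ W → 4 * r < ‖u‖) := by
  obtain ⟨_, ⟨p, rfl⟩, hp⟩ := h.nd _ he.emb.isOpen_range (range_nonempty _)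
  obtain ⟨R, hR, hb⟩ := nhds_basis_closedBall.mem_iff.1
    (he.emb.continuous.continuousAt (h.closed.isOpen_compl.mem_nhds hp))
  have hc : IsPreconnected ({y}ᶜ : Set M) := by
    rw [compl_eq_univ_sdiff]; exact preconn_diff_point isPreconnected_univ isOpen_univ y
  obtain ⟨h1, h2⟩ := h.region isOpen_compl_singleton hc hW.2
  obtain ⟨k, hk, hk'⟩ := gather_one h1 h2 (h.isCompact_val hW.1)
    (h.tame.mono (Subtype.coe_image_subset _ _)) (t := e₀ '' ball p (R / 5))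
    (by rintro _ ⟨x, hx, rfl⟩; exact ⟨hy x hx, by simpa using hx⟩)
    (he.emb.isOpenMap _ isOpen_ball) ⟨_, p, mem_ball_self (by positivity), rfl⟩ (by
      rintro _ ⟨z, hz, rfl⟩
      exact ⟨he.ne z, fun ⟨x, _, e⟩ => hb (closedBall_subset_closedBall (by linarith)
        (ball_subset_closedBall hz)) (e ▸ x.2)⟩)
  have ky : k⁻¹ y = y := AA_fix (inv_mem hk) fun h => h.1 rfl
  obtain ⟨c, hc1, hc2⟩ := hk' (mem_image_of_mem _ h0)
  refine ⟨((k⁻¹ : M ≃ₜ M) ∘ e₀) ∘ Homeomorph.addRight c, ⟨(he.comp ky).emb.comp (Homeomorph.isOpenEmbedding _),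
    by rw [(Homeomorph.surjective _).range_comp, (he.comp ky).range_eq]⟩, by simp [hc2], R / 5,
    by positivity, fun u x hu => ?_⟩
  have e : e₀ (u + c) = k x := by rw [← hu]; simp
  rw [mem_ball_iff_norm] at hc1
  refine ⟨fun hx => ?_, fun hx => ?_⟩
  · have := mem_ball_iff_norm.1 (he.emb.injective.mem_set_image.1 (e ▸ hk' (mem_image_of_mem _ hx)))
    linarith [norm_sub_le (u + c - p) (c - p), show u + c - p - (c - p) = u by ring,
      congrArg norm (show u + c - p - (c - p) = u by ring)]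
  · rw [AA_fix hk fun h => h.2 (mem_image_of_mem _ hx)] at e
    have : R < ‖u + c - p‖ := lt_of_not_ge fun h' => hb (mem_closedBall_iff_norm.2 h') (e ▸ x.2)
    linarith [norm_add_le u (c - p), congrArg norm (show u + (c - p) = u + c - p by ring)]

end

variable {E : Set (OnePoint ℂ)} {h : TE E}
  {H : HomeoP (surf E h.closed) →* (OnePoint ℂ ≃ₜ OnePoint ℂ)}

theorem Pc.deg {y : OnePoint ℂ} {e : ℂ → OnePoint ℂ} (he : LC y e)
    {k : OnePoint ℂ ≃ₜ OnePoint ℂ} (hk : Pc y k) :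
    ∃ F : ℂ ≃ₜ ℂ, deg F = 1 ∧ ∀ z, k (e z) = e (F z) := by
  obtain ⟨F, hF⟩ := he.descend (Iso0_le_Fix hk.1 y rfl)
  obtain ⟨x, hx⟩ := hk.2
  obtain ⟨w, h1, h2⟩ := (infinite_of_open isOpen_interior
    ⟨x, mem_interior_iff_mem_nhds.2 hx⟩).exists_notMem_finite (finite_singleton y)
  obtain ⟨p, rfl⟩ : w ∈ range e := he.range_eq ▸ h2
  refine ⟨F, deg_of_eventually (p := p) ?_, hF⟩
  filter_upwards [he.emb.continuous.continuousAt.eventually (mem_interior_iff_mem_nhds.1 h1)]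
    with z hz using he.emb.injective ((hF z).symm.trans hz)

theorem Hat.pos_link (a : Hat h H) (hs : Stable E) (hL : Link E) :
    Pos (HomeoP (surf E h.closed)) := by
  have := h.compactSpace
  have := h.tdSpace
  have := a.fixF_index hs
  obtain ⟨y₁, y₂, O₁, O₂, o1, o2, hne, hd, n1, n2⟩ := link_data hL
  obtain ⟨x₀, x1⟩ := o1.ne
  obtain ⟨y₀, y1⟩ := o2.ne
  have iso : ∀ x ∈ O₁ ∪ O₂, ∃ W, IsClopen W ∧ x ∈ W ∧ ∀ z ∈ O₁ ∪ O₂ ∪ {y₁, y₂}, z ∈ W → z = x :=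
    fun x hx => by
      obtain ⟨U, hU, h1⟩ := isolated_of_notMem (O := O₁ ∪ O₂ ∪ {y₁, y₂}) (x := x) (by
        rw [derivedSet_union, derivedSet_union]
        rintro ((h | h) | h)
        exacts [n1 (o1.der h ▸ hx), n2 (o2.der h ▸ hx), derived_finite (toFinite _) h])
      obtain ⟨W, h2, h3, h4⟩ := exists_clopen_nhds hU
      exact ⟨W, h2, h3, fun z hz h => h1 z hz (h4 h)⟩
  obtain ⟨W₁, c1, c2, c3⟩ := iso x₀ (Or.inl x1)
  obtain ⟨W₂, d1, d2, d3⟩ := iso y₀ (Or.inr y1)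
  have hW : ∀ z ∈ O₁ ∪ O₂ ∪ {y₁, y₂}, z ∈ W₁ ∪ W₂ → z = x₀ ∨ z = y₀ := fun z hz h =>
    h.imp (c3 z hz) (d3 z hz)
  have nW : ∀ z ∈ ({y₁, y₂} : Set E), z ∉ O₁ ∪ O₂ → z ∉ W₁ ∪ W₂ := fun z hz h h' =>
    (hW z (Or.inr hz) h').elim (fun e => h (Or.inl (e ▸ x1))) fun e => h (Or.inr (e ▸ y1))
  obtain ⟨e₀, he₀⟩ := exists_lc (y₂ : OnePoint ℂ)
  obtain ⟨e, he, e0, r, hr, hu⟩ := h.link_chart he₀ (c1.union d1)
    (fun x hx e => nW y₂ (by simp) n2 (Subtype.ext e ▸ hx)) (Or.inr d2)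
  have ex : ∀ x : E, x ≠ y₂ → ∃ u, e u = x := fun x hx =>
    he.range_eq.ge fun h => hx (Subtype.ext h)
  obtain ⟨b, hb⟩ := ex y₁ hne
  obtain ⟨u₀, hu₀⟩ := ex x₀ fun h => n2 (Or.inl (h ▸ x1))
  have mem : ∀ {O : Set E} {u} {x : E}, e u = x → (u ∈ e ⁻¹' (Subtype.val '' O) ↔ x ∈ O) :=
    fun h => by rw [mem_preimage, h, Subtype.val_injective.mem_set_image]
  have ld : LD b (e ⁻¹' (Subtype.val '' O₁)) (e ⁻¹' (Subtype.val '' O₂)) := by
    refine ⟨fun ρ hρ => ?_, fun ρ => ?_, fun h => n1 (Or.inr ((mem hb).1 h)),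
      fun h => n1 (Or.inl ((mem hb).1 h)),
      ((disjoint_image_iff Subtype.val_injective).2 hd).preimage _⟩
    · refine (((finite_diff_of_derived o1.der (continuous_subtype_val.continuousAt
        (hb ▸ he.emb.image_mem_nhds.2 (ball_mem_nhds b hρ)))).image Subtype.val).preimage
        he.emb.injective.injOn).subset ?_
      rintro u ⟨⟨x, hx, e'⟩, h'⟩
      exact ⟨x, ⟨hx, fun h => h' (he.emb.injective.mem_set_image.1 (e' ▸ h))⟩, e'⟩
    · refine (((finite_diff_of_derived o2.der (continuous_subtype_val.continuousAt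
        (((isCompact_closedBall b ρ).image he.emb.continuous).isClosed.isOpen_compl.mem_nhds
        fun ⟨u, _, h⟩ => he.ne u h))).image Subtype.val).preimage
        he.emb.injective.injOn).subset ?_
      rintro u ⟨⟨x, hx, e'⟩, h'⟩
      exact ⟨x, ⟨hx, fun h => h ⟨u, ball_subset_closedBall h', e'.symm⟩⟩, e'⟩
  have dsc : ∀ g ∈ a.fixF, ∃ F, Adm b (e ⁻¹' (Subtype.val '' O₁)) (e ⁻¹' (Subtype.val '' O₂)) F ∧
      ∀ z, H g (e z) = e (F z) := fun g hg => by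
    obtain ⟨K, U, e', k1, k2⟩ := a.split g y₂.2 (congrArg Subtype.val (hg y₂ o2.fin))
    obtain ⟨F, f1, f2⟩ := k1.deg he
    obtain ⟨G, g1, g2⟩ := k2.deg he
    have key : ∀ z, H g (e z) = e ((F * G) z) := fun z => by rw [e', hmul, ← f2, ← g2]; rfl
    have inv : ∀ {y O}, Ob y O → ∀ z, (F * G) z ∈ e ⁻¹' (Subtype.val '' O) ↔
        z ∈ e ⁻¹' (Subtype.val '' O) := fun o z => by
      by_cases hz : e z ∈ E
      · rw [mem (x := ⟨_, hz⟩) rfl, mem (x := a.ends g ⟨_, hz⟩) (key z).symm, o.inv _ hg]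
      · exact iff_of_false (fun ⟨x, _, h⟩ => hz ((a.stab g _).1 (key z ▸ h ▸ x.2)))
          fun ⟨x, _, h⟩ => hz (h ▸ x.2)
    exact ⟨F * G, ⟨by rw [deg_mul, f1, g1]; rfl, he.emb.injective (by
      rw [← key, hb]; exact congrArg Subtype.val (hg y₁ o1.fin)), inv o1, inv o2⟩, key⟩
  choose! F hF hF' using dsc
  obtain ⟨χ, χ1, χ2⟩ := ld.exists_char
  have out : ∀ u, ∀ x : E, e u = x → x ∉ W₁ ∪ W₂ → 2 * r + r < ‖u‖ := fun u x h h' => by
    linarith [(hu u x h).2 h']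
  obtain ⟨T, T1, T2⟩ := ld.twist (a := 2 * r) (by positivity) hr ((mem hu₀).2 x1)
    ((hu _ _ hu₀).1 (Or.inl c2)) ((mem e0).2 y1) (out b _ hb (nW y₁ (by simp) n1))
    (by
      rintro u ⟨x, hx, e'⟩ hne
      refine out u x e'.symm fun h => (hW x (Or.inl (Or.inl hx)) h).elim
        (fun h => hne (he.emb.injective (by rw [← e', h, hu₀]))) fun h => ?_
      exact Set.disjoint_left.1 hd hx (h ▸ y1))
    (by
      rintro u ⟨x, hx, e'⟩ hne
      refine out u x e'.symm fun h => (hW x (Or.inl (Or.inr hx)) h).elim (fun h => ?_)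
        fun h => hne (he.emb.injective (by rw [← e', h, e0]))
      exact Set.disjoint_left.1 hd x1 (h ▸ hx))
  obtain ⟨K, K1, K2⟩ := exists_lift he.emb (k := T) (Ω := e ⁻¹' Eᶜ)
    ⟨closedBall 0 (2 * r + r) \ ball 0 (2 * r), (isCompact_closedBall _ _).diff isOpen_ball,
      fun z hz hE => by
        simp only [Set.mem_sdiff, mem_closedBall_zero_iff, mem_ball_zero_iff] at hz
        by_cases c : (⟨_, hE⟩ : E) ∈ W₁ ∪ W₂
        exacts [hz.2 ((hu z _ rfl).1 c), (out z _ rfl c).not_ge hz.1], fun z hz => T1 z (by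
      simp only [Set.mem_sdiff, mem_closedBall_zero_iff, mem_ball_zero_iff, not_and, not_not] at hz
      exact (le_or_gt ‖z‖ _).imp (fun h => (hz h).le) le_of_lt)⟩
  replace K2 := AA_mono (image_preimage_subset _ _) K2
  obtain ⟨g₀, rfl⟩ := a.mem_of_id (fun x => not_iff_not.1 (AA_mem_iff K2 x))
    (AA_eventually K2 (x := y₂) fun h => h y₂.2)
  have m0 : g₀ ∈ a.fixF := fun x _ => Subtype.ext (AA_fix K2 fun h => h x.2)
  refine pos_of a.fixF (fun g => χ (F g)) (fun g hg g' hg' => ?_) m0 ?_ ?_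
  · rw [← χ1 _ _ (hF g hg) (hF g' hg')]
    congr 1
    exact Homeomorph.ext fun z => he.emb.injective (by
      rw [← hF' _ (mul_mem hg hg'), hmul, ← hF' _ hg, ← hF' _ hg', map_mul]; rfl)
  · obtain rfl : F g₀ = T := Homeomorph.ext fun z => he.emb.injective (by rw [← hF' _ m0, K1.1])
    obtain ⟨L, hL⟩ := exists_JL (hF _ m0).deg
    have := χ2 _ L (hF _ m0) hL (u₀, 0) ((mem hu₀).2 x1) ((mem e0).2 y1) (T2 L hL).2
    rw [(T2 L hL).1] at this
    exact fun h => by simp [h] at this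
  · filter_upwards [a.ev_fixF hs, ld.near (l := 𝓝 1 ⊓ 𝓟 a.fixF) (F := F) (fun K hK ε hε => by
      obtain ⟨δ, hδ, hd⟩ := near_chart he.emb hK hε
      filter_upwards [mem_inf_of_left (a.near hδ), mem_inf_of_right (mem_principal_self _)]
        with g g1 g2 z hz
      refine ⟨hd z hz _ (hF' g g2 z ▸ g1 _), hd z hz _ ?_⟩
      have := g1 (e ((F g).symm z))
      rwa [hF' g g2, Homeomorph.apply_symm_apply, dist_comm] at this) |> mem_inf_principal.1]
      with g g1 g2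
    obtain ⟨L, hL⟩ := exists_JL (hF _ g1).deg
    have e := g2 g1 (hF _ g1) L hL
    have := χ2 _ L (hF _ g1) hL (u₀, 0) ((mem hu₀).2 x1) ((mem e0).2 y1) fun x hx y hy _ =>
      e x hx y hy
    rw [e _ ((mem hu₀).2 x1) _ ((mem e0).2 y1)] at this
    exact ⟨g1, by exact_mod_cast this⟩

theorem TE.classification (h : TE E) (hi : ∞ ∈ E) (hs : Stable E) :
    (Q1 (MCG (surf E h.closed)) ↔ Flux E ∨ Link E) ∧
      (Q2 (MCG (surf E h.closed)) ↔ Flux E ∨ Link E) := by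
  obtain ⟨H, a⟩ := h.exists_Hat hi
  have pos : Flux E ∨ Link E → Q2 (MCG (surf E h.closed)) := fun c =>
    (c.elim (a.pos_flux hs) (a.pos_link hs)).mcg
  have neg : Q1 (MCG (surf E h.closed)) → Flux E ∨ Link E := fun q => by_contra fun c =>
    (a.neg hs (fun h => c (Or.inl h)) fun h => c (Or.inr h)).mcg q
  exact ⟨⟨neg, fun c => (pos c).q1⟩, fun q => neg q.q1, pos⟩

end Pool.Agent.Lib.MP_069d55_gt.K
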