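import Pool.Agent.Lib.MP_069d55_gt.CNeg
import Pool.Agent.Lib.MP_069d55_gt.KLink

/-! The classification. -/

open Set Topology Filter Metric OnePoint

namespace Pool.Agent.Lib.MP_069d55_gt.G

open K

section transport
variable {Y Y' : Type} [TopologicalSpace Y] [TopologicalSpace Y'] (e : Y ≃ₜ Y')

theorem orb_tr (x : Y) : K.orb (e x) = e '' orb ∅ x := Set.ext fun _ =>
  ⟨fun ⟨φ, h⟩ => ⟨_, ⟨e.trans (φ.trans e.symm), fun _ => Iff.rfl, rfl⟩, by simp [h]⟩,
    by rintro ⟨_, ⟨φ, -, rfl⟩, rfl⟩; exact ⟨e.symm.trans (φ.trans e), by simp⟩⟩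

theorem der_tr (A : Set Y) : derivedSet (e '' A) = e '' derivedSet A :=
  Subset.antisymm (fun y hy => ⟨e.symm y, by
    have := e.symm.continuous.image_derivedSet e.symm.injective (mem_image_of_mem _ hy)
    simpa [image_image] using this, by simp⟩)
    (e.continuous.image_derivedSet e.injective)

theorem clopen_tr {A : Set Y} : IsClopen (e '' A) ↔ IsClopen A :=
  and_congr e.isClosed_image e.isOpen_image

include e

theorem stable_tr (h : Stable (∅ : Set Y)) : K.Stable Y' := fun x => by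
  obtain ⟨x, rfl⟩ := e.surjective x
  obtain ⟨U, a, b, c⟩ := h x
  refine ⟨e '' U, (clopen_tr e).2 a, ⟨x, b, rfl⟩, fun W hW => ?_⟩
  obtain ⟨U', d, f, φ, -⟩ := c _ (e.continuous.continuousAt hW)
  exact ⟨e '' U', image_subset_iff.2 d, (clopen_tr e).2 f,
    ⟨(e.image U).symm.trans (φ.trans (e.image U'))⟩⟩

theorem flux_tr : K.Flux Y' ↔ Flux (∅ : Set Y) := by
  simp only [K.Flux, Flux, e.surjective.exists, e.surjective.forall,
    e.surjective.image_surjective.exists, orb_tr, der_tr, infinite_image_iff e.injective.injOn,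
    disjoint_image_iff e.injective, clopen_tr, ← image_inter e.injective,
    ← image_sdiff e.injective, image_nonempty]

theorem link_tr : K.Link Y' ↔ Link (∅ : Set Y) := by
  have a : K.finOrb Y' = e '' finOrb ∅ := Set.ext (e.surjective.forall.2 fun x => by
    simp only [K.finOrb, finOrb, mem_ofPred_eq, orb_tr, finite_image_iff e.injective.injOn,
      e.injective.mem_set_image])
  have b : K.finOrbPlus Y' = e '' finOrbPlus ∅ := Set.ext (e.surjective.forall.2 fun x => by
    simp only [K.finOrbPlus, finOrbPlus, mem_ofPred_eq, orb_tr, finite_image_iff e.injective.injOn,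
      e.injective.mem_set_image, e.surjective.exists, infinite_image_iff e.injective.injOn, der_tr,
      ← image_singleton, image_eq_image e.injective])
  simp only [K.Link, Link, a, b, e.injective.encard_image]

theorem neg_conj {A : Subgroup (Y ≃ₜ Y)} {A' : Subgroup (Y' ≃ₜ Y')}
    (h1 : ∀ g ∈ A, e.symm.trans (g.trans e) ∈ A') (h2 : ∀ g ∈ A', e.trans (g.trans e.symm) ∈ A) :
    Neg (CO A) → Neg (CO A') :=
  Neg.of_surj (MonoidHom.mk' (fun g : CO A => (⟨_, h1 _ g.2⟩ : CO A')) fun a b =>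
    Subtype.ext (Homeomorph.ext fun z => by
      change e (a.1 (b.1 (e.symm z))) = e (a.1 (e.symm (e (b.1 (e.symm z)))))
      simp))
    (CO.inducing.continuous_iff.2 ((ContinuousMap.continuous_precomp (e.symm : C(Y', Y))).comp
      ((ContinuousMap.continuous_postcomp (e : C(Y, Y'))).comp CO.inducing.continuous)))
    fun g => ⟨⟨_, h2 _ g.2⟩, Subtype.ext (Homeomorph.ext fun z => by
      change e (e.symm (g.1 (e (e.symm z)))) = g.1 z
      simp)⟩

variable [Charted Y] [Charted Y'] (o : Ori Y) (o' : Ori Y')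

theorem ops_conj [ConnectedSpace Y] {g : Y ≃ₜ Y} (hg : g ∈ OPS o) :
    e.symm.trans (g.trans e) ∈ OPS o' := fun y => by
  obtain ⟨x, rfl⟩ := e.surjective y
  obtain ⟨d, hd⟩ := (lh_homeo e x).exists_sg o o'
  have a := hd.inv (lh_homeo e.symm _) (.of_forall e.symm_apply_apply)
  have := (a.comp (hg _)).comp
    (hd.prop isPreconnected_univ (fun y _ => lh_homeo e y) trivial trivial)
  rwa [one_mul, hd.sq] at this

theorem neg_homeo [ConnectedSpace Y] : Neg (CO (OPS o)) ↔ Neg (CO (OPS o')) :=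
  haveI := e.surjective.connectedSpace e.continuous
  ⟨neg_conj e (fun _ => ops_conj e o o') fun _ => ops_conj e.symm o' o,
    neg_conj e.symm (fun _ => ops_conj e.symm o' o) fun _ => ops_conj e o o'⟩

end transport

theorem neg_sphere : Neg (CO (OPS oS)) := fun W ρ h1 _ v => by
  refine finite_orbit ρ ⊤ fun g _ => ?_
  have dx : ∀ a : OnePoint ℂ, DX {a}ᶜ := fun a =>
    let ⟨_, he⟩ := exists_lc a; he.range_eq ▸ DX_range he.emb
  have iso : ∀ a k, k ∈ AA {a}ᶜ → k ∈ Iso0 (∅ : Set (OnePoint ℂ)) := fun a k hk =>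
    let ⟨b, hb⟩ := exists_ne a; (dx a).iso0 hk hb (by simp)
  obtain ⟨a, ha⟩ := (toFinite {∞, g.1 ∞}).exists_notMem
  rw [mem_insert_iff, mem_singleton_iff, not_or] at ha
  obtain ⟨D, d1, d2, d3⟩ := exists_disc_nhds (inter_mem (isOpen_compl_singleton.mem_nhds (Ne.symm ha.1))
    (g.1.continuous.continuousAt (isOpen_compl_singleton.mem_nhds (Ne.symm ha.2))))
  obtain ⟨k, k1, k2⟩ := one_disc (dx a).1 (dx a).preconn d1 (fun x _ => g.2 x) g.1.injective.injOn
    (fun x c => (d3 c).1) fun x c => (d3 c).2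
  have : g.1 ∈ Iso0 ∅ := by
    simpa using mul_mem (iso a k k1) (iso ∞ (k⁻¹ * g.1) ⟨(interior D)ᶜ,
      isOpen_interior.isClosed_compl.isCompact, fun x c e => c (e ▸ d2), fun x c => by
        simp [← k2 x (interior_subset (not_not.1 c))]⟩)
  obtain ⟨ε, hε, h⟩ := near_of_nhds ((CO.ev' (h1 v)).and (ev_OPS oS))
  obtain ⟨g', a, b⟩ := Iso0_le_of_open
    (Λ := ((MulAction.stabilizer (Equiv.Perm W) v).comap ρ).map CO.val) hε
    (fun γ _ c => ⟨⟨γ, (h γ c).2⟩, (h γ c).1 _, rfl⟩) this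
  exact Subtype.ext b ▸ a

theorem te_image {M : Type*} [MetricSpace M] [CompactSpace M] {E : Set M} (h : TE E) (k : M ≃ₜ M) :
    TE (k '' E) where
  closed := k.isClosedMap _ h.closed
  tame := h.tame.image k
  td := k.isEmbedding.isTotallyDisconnected_image.2 h.td
  ns Z a b Ω c d := by
    have := (h.ns (k ⁻¹' Z) (fun x m => k.injective.mem_set_image.1 (a m)) (b.preimage k.continuous)
      (k ⁻¹' Ω) (c.preimage k.continuous) (k.isPreconnected_preimage.2 d))
    rwa [← preimage_sdiff, k.isPreconnected_preimage] at this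
  nd U a b :=
    let ⟨x, c, d⟩ := h.nd (k ⁻¹' U) (a.preimage k.continuous) (b.preimage k.surjective)
    ⟨k x, c, mt k.injective.mem_set_image.1 d⟩

theorem homeoPlus_eq (T : TopologicalSpace.Opens ℂ) : ∃ (_ : Charted (T : Set ℂ))
    (o : Ori (T : Set ℂ)), homeoPlus T = OPS o := by
  have l := lh_emb T.2.isOpenEmbedding_subtypeVal
  have : Charted (T : Set ℂ) := charted_of_lh fun x =>
    let ⟨g, a, b, _⟩ := (l x).inv; ⟨g, x, a, b⟩
  obtain ⟨o, ho⟩ := exists_ori_ext oriC finite_empty fun y _ => l y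
  refine ⟨this, o, Subgroup.ext fun f => (orPres_iff T.2).trans ?_⟩
  have key : ∀ x : (T : Set ℂ), LH (fn f) x ∧ Sg o o f x (ld (fn f) x) := fun x => by
    obtain ⟨g, a, b, -, c⟩ := (l x).inv
    have lf : LH (fn f) x := ((a.comp (lh_homeo f _)).comp (l _)).congr (c.mono fun z e => by
      simp only [Function.comp_apply]; rw [← fn_coe, e])
    obtain ⟨d, hd⟩ := (lh_homeo f x).exists_sg o o
    have := (ho x id).of_comp_left lf ((hd.comp (ho _ id)).congr
      (.of_forall fun z => (fn_coe f z).symm))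
    rw [mul_one, one_mul] at this
    exact ⟨lf, (sg_plane lf).unique this ▸ hd⟩
  exact ⟨fun h x => ld_eq (h x x.2) ▸ (key x).2,
    fun h z hz => (key ⟨z, hz⟩).2.unique (h _) ▸ (key ⟨z, hz⟩).1.hasDeg⟩

variable {S : Type} [TopologicalSpace S] [T2Space S] [Charted S] [ConnectedSpace S]
  {p : S → OnePoint ℂ} {E X : Set (OnePoint ℂ)}

theorem Model.std (h : Model p E X) (o : Ori S) : ∃ q, Std o p q E X := by
  have hd : ∀ x ∈ X, ∀ W ∈ 𝓝 x, ∃ U ⊆ W, ∃ j c, Hd p x U j c := fun x a W b =>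
    let ⟨U, c, d, e, f, g⟩ := h.handle x a W b; ⟨U, c, exists_Hd h.cont d e f g⟩
  have te := TE.of_real h.closed h.totDisc h.real
  obtain ⟨q, hq⟩ := exists_blob_of_proper h.cont h.closed h.isolated h.range_eq (fun x a =>
    let ⟨_, _, _, _, b⟩ := hd x a univ univ_mem
    h.range_eq.subset ⟨_, (core b).fib true 0⟩) h.inj h.proper
  exact ⟨q, ⟨⟨hq.ob (by simpa using te.preconn_compl subset_rfl h.closed finite_empty) o oS, te,
    h.proper⟩, hd⟩⟩

theorem neg_planar (h : Model p E ∅) (o : Ori S) (hs : Stable (∅ : Set E)) :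
    ¬ Neg (CO (OPS o)) ↔ Flux (∅ : Set E) ∨ Link (∅ : Set E) := by
  obtain ⟨q, a⟩ := h.std o
  have emb : IsOpenEmbedding p := emb_of_lh (fun s t => a.inj id) fun s => a.lh_p id
  rcases E.eq_empty_or_nonempty with rfl | ⟨y, hy⟩
  · obtain ⟨e, -⟩ := exists_homeo_of_range emb.isEmbedding IsEmbedding.id (by simp [h.range_eq])
    refine iff_of_false (not_not.2 ((neg_homeo e o oS).2 neg_sphere)) ?_
    rintro (⟨x, -⟩ | c)
    · exact x.2
    · simp [Link, eq_empty_of_isEmpty] at c
  obtain ⟨k, -, hk⟩ := exists_mover (y := y) finite_empty id id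
  have te := te_image (a.te.mono a.clE subset_union_left) k.symm
  have hi : ∞ ∈ k.symm '' E := ⟨y, hy, by simp [← hk]⟩
  obtain ⟨e, -⟩ := exists_homeo_of_range (k.symm.isEmbedding.comp emb.isEmbedding) te.emb.isEmbedding
    (by rw [range_SE hi, range_comp, h.range_eq, image_compl_eq k.symm.bijective])
  obtain ⟨i, o', ho⟩ := homeoPlus_eq (surf _ te.closed)
  obtain ⟨H, b⟩ := te.exists_Hat hi
  have s := stable_tr (k.symm.image E) hs
  let e' : S ≃ₜ (surf _ te.closed : Set ℂ) := e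
  rw [neg_homeo e' o o', ← ho, ← flux_tr (k.symm.image E), ← link_tr (k.symm.image E)]
  exact ⟨fun n => by_contra fun c => n (b.neg s (fun h => c (Or.inl h)) fun h => c (Or.inr h)),
    fun c => (c.elim (b.pos_flux s) (b.pos_link s)).not_neg⟩

theorem neg_stable (h : Model p E X) (o : Ori S) (hs : Stable (genusEnds E X)) :
    ¬ Neg (CO (OPS o)) ↔ (X.Finite ∧ X.Nonempty) ∨ Flux (genusEnds E X) ∨ HFlux (genusEnds E X) ∨
      (X = ∅ ∧ Link (genusEnds E X)) := by
  rcases X.eq_empty_or_nonempty with rfl | hn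
  · have e : genusEnds E ∅ = ∅ := by simp [genusEnds]
    rw [e] at hs ⊢
    simp [neg_planar h o hs, HFlux]
  · obtain ⟨q, a⟩ := h.std o
    have : CompactSpace E := isCompact_iff_compactSpace.1 a.clE.isCompact
    have := (a.te.mono a.clE subset_union_left).tdSpace
    rw [neg_iff a hn, neg_aut_iff hs]
    simp [hn, hn.ne_empty, or_comm]

omit [Charted S]
variable [ChartedSpace ℂ S] [Oriented S] [SecondCountableTopology S]

theorem genus_iff (h : Model p E X) (hn : X.Nonempty) : Q1 (Map S) ↔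
    X.Finite ∨ HFlux (genusEnds E X) ∨ Q1 (CO (Aut (genusEnds E X))) := by
  obtain ⟨q, a⟩ := h.std (ori S)
  have : CompactSpace E := isCompact_iff_compactSpace.1 a.clE.isCompact
  rw [map_iff.1, plus_eq, neg_iff a hn, q1_iff]

theorem stable_iff (h : Model p E X) (hs : Stable (genusEnds E X)) : Q1 (Map S) ↔
    (X.Finite ∧ X.Nonempty) ∨ Flux (genusEnds E X) ∨ HFlux (genusEnds E X) ∨
      (X = ∅ ∧ Link (genusEnds E X)) := by
  rw [map_iff.1, plus_eq, neg_stable h _ hs]

end Pool.Agent.Lib.MP_069d55_gt.G
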