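import Pool.Agent.Lib.MP_069d55_gt.GSwap

/-! Extending the germ of a homeomorphism at some ends, using an end accumulated by handles. -/

open Set Topology Filter Metric OnePoint

namespace Pool.Agent.Lib.MP_069d55_gt.K

theorem glue_match {M ι : Type*} [MetricSpace M] [Finite ι] {P P' : ι → Set M}
    (hd : Pairwise (Function.onFun Disjoint P)) (hd' : Pairwise (Function.onFun Disjoint P'))
    (h : ∀ c, ∃ b, BijOn b (P c) (P' c) ∧ Null (P c) b) : ∃ d : M → M, BijOn d (⋃ c, P c) (⋃ c, P' c) ∧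
      Null (⋃ c, P c) d ∧ (∀ c, MapsTo d (P c) (P' c)) ∧ ∀ y ∉ ⋃ c, P c, d y = y := by
  classical
  choose b b1 b2 using h
  obtain ⟨d, d1, d2⟩ : ∃ d : M → M, (∀ c, ∀ y ∈ P c, d y = b c y) ∧ ∀ y ∉ ⋃ c, P c, d y = y :=
    ⟨fun y => if a : ∃ c, y ∈ P c then b a.choose y else y, fun c y u => by
      have a : ∃ c, y ∈ P c := ⟨c, u⟩
      simp only [dif_pos a]
      rw [by_contra fun n : a.choose ≠ c => disjoint_left.1 (hd n) a.choose_spec u],
    fun y u => dif_neg (by simpa using u)⟩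
  have m : ∀ c, MapsTo d (P c) (P' c) := fun c y u => d1 c y u ▸ (b1 c).mapsTo u
  refine ⟨d, ⟨mapsTo_iUnion_iUnion m, fun y u y' v e => ?_, surjOn_iUnion_iUnion fun c =>
    (b1 c).surjOn.congr fun y u => (d1 c y u).symm⟩, fun ε a => (finite_iUnion fun c =>
      b2 c ε a).subset fun y u => ?_, m, d2⟩
  · obtain ⟨c, u⟩ := mem_iUnion.1 u
    obtain ⟨c', v⟩ := mem_iUnion.1 v
    obtain rfl : c = c' := by_contra fun n => disjoint_left.1 (hd' n) (m c u) (e ▸ m c' v)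
    exact (b1 c).injOn u v (by rwa [d1 c y u, d1 c y' v] at e)
  · obtain ⟨c, v⟩ := mem_iUnion.1 u.1
    exact mem_iUnion.2 ⟨c, v, d1 c y v ▸ u.2⟩

theorem Cl.eq_of {M ι : Type*} [TopologicalSpace M] {I : Set ι} {C O : ι → Set M} {z : ι → M}
    {ν : M → M} (h : Cl I C O z ν) {y : M} (hy : ∀ i ∈ I, ν y ∉ O i) : ν y = y :=
  (h.out y fun i a b => hy i a ((h.maps i a y).2 b)).self_of_nhds

theorem Cl.fibre {M ι S : Type*} [TopologicalSpace M] {I : Set ι} {C O : ι → Set M} {z : ι → M}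
    {ν : M → M} (h : Cl I C O z ν) {y : M} (hy : ∀ i ∈ I, y ∉ O i) (p : S → M) :
    (ν ∘ p) ⁻¹' {y} = p ⁻¹' {y} := Set.ext fun s =>
  ⟨fun a : ν (p s) = y => (h.eq_of (a ▸ hy)).symm.trans a,
    fun a : p s = y => show ν (p s) = y from a.symm ▸ (h.out y hy).self_of_nhds⟩

variable {S : Type*} [TopologicalSpace S] {o : Ori S} {p : S → OnePoint ℂ} {q : OnePoint ℂ → S}
  {E X : Set (OnePoint ℂ)} [Charted S] [ConnectedSpace S]

theorem BS.copies (h : BS o p q E X) {Δ Y : Set (OnePoint ℂ)} {P : S → OnePoint ℂ} (pt : Pt p Δ P Y)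
    (hY : Y ⊆ X ∩ Δ) (hc : IsClosed Δ) (hE : Disjoint Δ E) {σ : ℕ → S ≃ₜ S}
    {ψ : ℕ → OnePoint ℂ ≃ₜ OnePoint ℂ} (h1 : ∀ j s, p (σ j s) = ψ j (p s)) (h2 : ∀ j, ψ j ∈ Stab E)
    (h3 : ∀ j, ψ j ∈ Stab X) (hd : Pairwise (Function.onFun Disjoint fun j => ψ j '' Δ))
    {e : OnePoint ℂ} (he : e ∈ E) (hn : ∀ W ∈ 𝓝 e, ∀ᶠ j in atTop, ψ j '' Δ ⊆ W) (J : Set ℕ) :
    ∃ P' Q', BS o P' Q' E ((X \ ⋃ j ∈ J, ψ j '' Δ) ∪ ⋃ j ∈ J, ψ j '' Y) ∧
      (∀ j ∈ J, ∀ s, p s ∈ ψ j '' Δ → P' s = ψ j (P ((σ j).symm s)) ∧ P' s ∈ ψ j '' Δ) ∧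
      (∀ s, (∀ j ∈ J, p s ∉ ψ j '' Δ) → P' s = p s) ∧
      (∀ y, (∀ j ∈ J, y ∉ ψ j '' Δ) → P' ⁻¹' {y} = p ⁻¹' {y}) ∧
      (∀ j ∈ J, ∀ y ∈ Δ, P' ⁻¹' {ψ j y} = σ j '' (p ⁻¹' Δ ∩ P ⁻¹' {y})) ∧
      ∀ x ∈ E, comap P' (𝓝 x) = comap p (𝓝 x) := by
  obtain ⟨P', Q', a, b, c, d, f⟩ := h.patch (J := J) he (fun j _ => (ψ j).isClosedMap _ hc)
    (fun j _ => disjoint_left.2 (by rintro _ ⟨y, u, rfl⟩ v; exact disjoint_left.1 hE u ((h2 j y).1 v)))
    (fun i _ j _ n => hd n) (fun j _ => pt.move (h1 j))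
    (by rintro j - _ ⟨y, u, rfl⟩; exact ⟨(h3 j y).2 (hY u).1, y, (hY u).2, rfl⟩) fun W hW => by
      have := hn W hW
      rw [← Nat.cofinite_eq_atTop] at this
      exact (mem_cofinite.1 this).subset fun j u => u.2
  refine ⟨P', Q', a, fun j u s v => ⟨b j u s v, (d j u s).2 v⟩, c, fun y u => Set.ext fun s =>
    ⟨fun v : P' s = y => (c s fun j w x => u j w (v ▸ (d j w s).2 x)).symm.trans v,
      fun v : p s = y => (c s (v ▸ u)).trans v⟩, fun j u y v => Set.ext fun s => ?_, f⟩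
  obtain ⟨s, rfl⟩ := (σ j).surjective s
  rw [(σ j).injective.mem_set_image]
  refine ⟨fun w : P' _ = _ => ?_, fun w => ?_⟩
  · have x := (d j u (σ j s)).1 (w ▸ mem_image_of_mem _ v)
    rw [b j u _ x] at w
    rw [h1] at x
    exact ⟨(ψ j).injective.mem_set_image.1 x, by simpa using w⟩
  · rw [mem_preimage, b j u _ (h1 j s ▸ ⟨_, w.1, rfl⟩)]; simpa using w.2

theorem Std.exists_seq (h : Std o p q E X) {Δ W : Set (OnePoint ℂ)} (hΔ : CD (E ∪ X) Δ)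
    (dE : Disjoint Δ E) {e : OnePoint ℂ} (he : e ∈ E) (hX : e ∈ closure X) (hW : W ∈ 𝓝 e)
    (hd : Disjoint Δ W) : ∃ (σ : ℕ → S ≃ₜ S) (ψ : ℕ → OnePoint ℂ ≃ₜ OnePoint ℂ) (y : ℕ → OnePoint ℂ),
      σ 0 = 1 ∧ ψ 0 = 1 ∧ (∀ j, σ j ∈ OPS o ∧ (∀ s, p (σ j s) = ψ j (p s)) ∧ ψ j ∈ Stab E ∧
        ψ j ∈ Stab X) ∧ (∀ j ≠ 0, ψ j '' Δ ⊆ W) ∧ (∀ j, y j ∈ X ∩ W) ∧
      Pairwise (Function.onFun Disjoint fun j => ψ j '' Δ) ∧ (∀ i j, y i ∉ ψ j '' Δ) ∧
      Function.Injective y ∧ (∀ W ∈ 𝓝 e, ∀ᶠ j in atTop, ψ j '' Δ ⊆ W) ∧ Tendsto y atTop (𝓝 e) := by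
  have dc := hΔ.1.isCompact.isClosed
  obtain ⟨c, c1, c2, c3⟩ := exists_disjoint_seq (e := e)
    (c := fun a : (S ≃ₜ S) × (OnePoint ℂ ≃ₜ OnePoint ℂ) × OnePoint ℂ => insert a.2.2 (a.2.1 '' Δ))
    (P := fun a => (a.1 ∈ OPS o ∧ (∀ s, p (a.1 s) = a.2.1 (p s)) ∧ a.2.1 ∈ Stab E ∧ a.2.1 ∈ Stab X) ∧
      a.2.2 ∈ X ∧ a.2.2 ∉ a.2.1 '' Δ) (fun W hW => by
      obtain ⟨Q, r1, r2, r3, r4⟩ := exists_conn_nhds hW
      obtain ⟨σ, m1, ψ, m2, -, m4, -, m6, -, m8, -⟩ := h.move_blob isOpen_univ isPreconnected_univ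
        hΔ dE (subset_univ _) r1 r4 (subset_univ _) he hX r2
      have ne : e ∉ ψ '' Δ := fun ⟨y, u, v⟩ => disjoint_left.1 dE u ((m4 y).1 (v ▸ he))
      obtain ⟨y, u, v⟩ := (h.infinite_near he hX
        ((r1.sdiff (ψ.isClosedMap _ dc)).mem_nhds ⟨r2, ne⟩)).nonempty
      exact ⟨(σ, ψ, y), ⟨⟨m1, m2, m4, m8⟩, u, v.2⟩, insert_subset (r3 v.1) (m6.trans r3),
        isClosed_singleton.union (ψ.isClosedMap _ dc), by
          rintro (b | b); exacts [h.disj u ((show e = y from b) ▸ he), ne b]⟩) hW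
  refine ⟨fun j => j.casesOn 1 fun i => (c i).1, fun j => j.casesOn 1 fun i => (c i).2.1,
    fun i => (c i).2.2, rfl, rfl, ?_, ?_, fun j => ⟨(c1 j).1.2.1, (c1 j).2 (Or.inl rfl)⟩,
    (pairwise_disjoint_on _).2 ?_, ?_, fun i j b => by_contra fun m =>
      disjoint_left.1 (c2 m) (Or.inl rfl) (Or.inl b), fun W hW => map_add_atTop_eq_nat 1 ▸
      (c3 W hW).mono fun j u => (subset_insert _ _).trans u,
    fun W hW => (c3 W hW).mono fun j u => u (Or.inl rfl)⟩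
  · rintro (_ | j); exacts [⟨one_mem _, fun _ => rfl, one_mem _, one_mem _⟩, (c1 j).1.1]
  · rintro (_ | j) u; exacts [(u rfl).elim, (subset_insert _ _).trans (c1 j).2]
  · rintro (_ | i) (_ | j) u
    · exact (lt_irrefl _ u).elim
    · exact hd.mono (image_id Δ).subset ((subset_insert _ _).trans (c1 j).2)
    · exact (Nat.not_lt_zero _ u).elim
    · exact (c2 (by omega : i ≠ j)).mono (subset_insert _ _) (subset_insert _ _)
  · rintro i (_ | j) u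
    · exact disjoint_left.1 hd ((image_id Δ).subset u) ((c1 i).2 (Or.inl rfl))
    · rcases eq_or_ne i j with rfl | b
      exacts [(c1 i).1.2.2 u, disjoint_left.1 (c2 b) (Or.inl rfl) (Or.inr u)]

variable [T2Space S] {H : (S ≃ₜ S) →* (E ≃ₜ E)}

omit [Charted S] [ConnectedSpace S] [T2Space S] in
theorem EH.triv (a : EH p H) {f : S ≃ₜ S} (hf : H f = 1) {x : OnePoint ℂ} (hx : x ∈ E) :
    Tendsto f (comap p (𝓝 x)) (comap p (𝓝 x)) := by simpa [hf] using a f ⟨x, hx⟩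

omit [Charted S] [ConnectedSpace S] [T2Space S] in
theorem EH.eq_one (a : EH p H) (h : BS o p q E X) {f : S ≃ₜ S}
    (hf : ∀ x ∈ E, Tendsto f (comap p (𝓝 x)) (comap p (𝓝 x))) : H f = 1 :=
  Homeomorph.ext fun x => Subtype.ext (h.lim_unique (a f x) (hf x x.2))

theorem Std.germ_ext (h : Std o p q E X) (a : EH p H) {f : S ≃ₜ S} (hf : f ∈ OPS o) (ht : H f = 1)
    {D W : Set (OnePoint ℂ)} (hD : CD (E ∪ X) D) {e : OnePoint ℂ} (he : e ∈ E) (hX : e ∈ closure X)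
    (heD : e ∉ D) (hW : W ∈ 𝓝 e) : ∃ g ∈ OPS o, H g = 1 ∧
      (∀ x ∈ E ∩ D, ∀ᶠ s in comap p (𝓝 x), g s = f s) ∧
      ∀ x ∈ E, x ∉ D → x ∉ W → ∀ᶠ s in comap p (𝓝 x), g s = s := by
  classical
  obtain ⟨C, O, z, ν, B, B', w, μ, g⟩ := hD.geo h.cl
  obtain ⟨n, n1, 𝒬, Δ, x, Λ, P, ex, n2, -, Qe, q1, q2, q3⟩ := h.ex hf g (fun x u => by
      have : ∃ k, x ∈ interior (C k) := by
        by_cases b : x ∈ D
        exacts [⟨_, g.inn ⟨Or.inl u, b⟩⟩, ⟨_, g.out fun c => b (interior_subset c)⟩]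
      exact this.imp fun k b => ⟨b, a.triv (f := f⁻¹) (by simp [ht]) u
        (preimage_mem_comap (mem_interior_iff_mem_nhds.1 b))⟩)
    finite_empty pairwiseDisjoint_empty (fun _ => False.elim) he hX hW
  have sB : B ⊆ B' := g.s2.trans interior_subset
  have sD : B' ⊆ D := g.s3.trans interior_subset
  have fB : (E ∪ X) ∩ D ⊆ interior B := g.inn.trans (interior_subset.trans ((g.op _).2.2.trans g.s1))
  have sd : ∀ Q ∈ 𝒬, (∃ y ∈ Q, y ∉ D) → Disjoint Q B' ∧ Disjoint Q (Λ '' B') := fun Q a ⟨y, u, v⟩ =>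
    (ex.side Q a).resolve_left fun c => v (sD (sB (interior_subset (c.1 u))))
  have qe := sd Qe q1 ⟨e, interior_subset q2, heD⟩
  have dc := ex.cdΔ.1.isCompact.isClosed
  have dE : Disjoint Δ E := disjoint_left.2 fun y a b =>
    let ⟨Q, u, v⟩ := ex.cov y b; disjoint_left.1 (ex.djΔ Q u) a (interior_subset v)
  obtain ⟨y₁, y1, y2⟩ := h.te.nd _ isOpen_interior ⟨e, q2⟩
  obtain ⟨N, N1, N2, N3⟩ := exists_mem_nhds_isClosed_subset
    (isOpen_compl_singleton.mem_nhds fun c : y₁ = e => y2 (Or.inl (c ▸ he)))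
  obtain ⟨σ, ψ, y, σ0, ψ1, c1, ψQ, yX, ψd, yψ, yi, ψn, yn⟩ := h.exists_seq ex.cdΔ dE he hX
    ((isOpen_interior.sdiff N2).mem_nhds ⟨q2, fun b => N3 b rfl⟩)
    ((ex.djΔ Qe q1).mono_right (sdiff_subset.trans interior_subset))
  have σO := fun j => (c1 j).1
  have ψX := fun j => (c1 j).2.2.2
  have ψ0 : ∀ A, ψ 0 '' A = A := by simp [ψ1]
  have yQ : ∀ j, y j ∈ Qe := fun j => interior_subset (yX j).2.1
  have cp := h.copies ex.pt (range_subset_iff.2 ex.xin) dc dE (fun j => (c1 j).2.1)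
    (fun j => (c1 j).2.2.1) ψX ψd he ψn
  obtain ⟨p₁, q₁, b1, a1, a2, a3, a4, a5⟩ := cp {0}ᶜ
  obtain ⟨p₂, q₂, b2, a1', a2', a3', a4', a5'⟩ := cp univ
  set X₁ := (X \ ⋃ j ∈ ({0}ᶜ : Set ℕ), ψ j '' Δ) ∪ ⋃ j ∈ ({0}ᶜ : Set ℕ), ψ j '' range x
  set X₂ := (X \ ⋃ j ∈ (univ : Set ℕ), ψ j '' Δ) ∪ ⋃ j ∈ (univ : Set ℕ), ψ j '' range x
  have xX : ∀ j k, ψ j (x k) ∈ X ∩ ψ j '' Δ := fun j k =>
    ⟨(ψX j _).2 (ex.xin k).1, _, (ex.xin k).2, rfl⟩
  have sX : ∀ J : Set ℕ, (X \ ⋃ j ∈ J, ψ j '' Δ) ∪ ⋃ j ∈ J, ψ j '' range x ⊆ X := fun J =>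
    union_subset sdiff_subset (iUnion₂_subset (by rintro j - _ ⟨_, ⟨k, rfl⟩, rfl⟩; exact (xX j k).1))
  have ψQ' : ∀ j ≠ 0, ∀ u ∈ ψ j '' Δ, u ∈ Qe := fun j u v w => interior_subset (ψQ j u w).1
  have hO1 : ∀ u ∈ E ∪ X₁, u ∈ B' → u ∈ interior B := fun u v w =>
    fB ⟨v.imp_right (@sX _ u), sD w⟩
  have hO2 : ∀ u ∈ E ∪ X₂, u ∈ Λ '' B' → u ∈ interior (Λ '' B) := fun u v w => ex.sing (by
    rcases v with v | v | v
    · exact Or.inl v
    · exact Or.inr (Or.inl ⟨v.1, fun m => v.2 (mem_biUnion (mem_univ 0) ((ψ0 Δ).symm ▸ m))⟩)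
    · obtain ⟨j, -, v⟩ := mem_iUnion₂.1 v
      exact Or.inr (Or.inr (by_contra fun m => disjoint_left.1 qe.2 (ψQ' j
        (fun b => m ((ψ0 _).subset (b ▸ v))) u (image_mono
          (range_subset_iff.2 fun k => (ex.xin k).2) v)) w))) w
  have c' := g.cl'.conj Λ
  obtain ⟨qs, bs, cs⟩ := b1.collapse (finite_singleton ()) g.cl'
    (fun _ _ => ⟨g.dB.isCompact.isClosed, g.s2⟩) fun _ _ u v w => hO1 u v (interior_subset w)
  obtain ⟨qt, bt, ct⟩ := b2.collapse (finite_singleton ()) c' (fun _ _ =>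
    ⟨(g.dB.image Λ).isCompact.isClosed, image_mono g.s2⟩)
    fun _ _ u v w => hO2 u v (image_mono interior_subset w)
  simp only [biUnion_singleton, image_singleton, Function.comp_apply] at bs cs bt ct
  have o1 : ∀ u ∉ B', μ u = u := fun u v =>
    (g.cl'.out u fun _ _ m => v (interior_subset m)).self_of_nhds
  have o2 : ∀ u ∉ Λ '' B', (Λ ∘ μ ∘ Λ.symm) u = u := fun u v =>
    (c'.out u fun _ _ m => v (image_mono interior_subset m)).self_of_nhds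
  have loc : ∀ t, p t ∉ B' → p t ∉ Λ '' B' → (∀ j, p t ∉ ψ j '' Δ) →
      (μ ∘ p₁) t = p t ∧ ((Λ ∘ μ ∘ Λ.symm) ∘ p₂) t = p t := fun t u v w =>
    ⟨by rw [Function.comp_apply, a2 t fun j _ => w j, o1 _ u],
      by rw [Function.comp_apply, a2' t fun j _ => w j, o2 _ v]⟩
  have wB : w ∈ B := interior_subset (g.cl'.mem () rfl)
  have ob : OB2 o oS (μ ∘ p₁) qs (E \ B) (X₁ \ B ∪ {w}) ((Λ ∘ μ ∘ Λ.symm) ∘ p₂) qt (E \ Λ '' B)
      (X₂ \ Λ '' B ∪ {Λ w}) := by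
    have u : ∀ᶠ t in 𝓝 (q y₁), (μ ∘ p₁) t = p t ∧ ((Λ ∘ μ ∘ Λ.symm) ∘ p₂) t = p t := by
      filter_upwards [h.cont.continuousAt (by
        rw [h.pq _ y2]; exact inter_mem (mem_interior_iff_mem_nhds.1 y1) N1)] with t v
      refine loc t (disjoint_left.1 qe.1 v.1) (disjoint_left.1 qe.2 v.1) fun j m => ?_
      by_cases b : j = 0
      exacts [disjoint_left.1 (ex.djΔ Qe q1) (ψ0 Δ ▸ b ▸ m) v.1, (ψQ j b m).2 v.2]
    refine bs.ob2 bt cs ct o (s := q y₁) ?_ ?_ (u.mono fun t v => v.1.trans v.2.symm)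
    · rw [u.self_of_nhds.1, h.pq _ y2]
      rintro (b | rfl)
      exacts [y2 (Or.inr (sX _ b.1)), disjoint_left.1 qe.1 (interior_subset y1) (sB wB)]
    · rw [u.self_of_nhds.2, h.pq _ y2]
      rintro (b | rfl)
      exacts [y2 (Or.inr (sX _ b.1)), disjoint_left.1 qe.2 (interior_subset y1) ⟨w, sB wB, rfl⟩]
  set 𝒬' := {Q ∈ 𝒬 | Q ≠ Qe ∧ Disjoint Q B' ∧ Disjoint Q (Λ '' B')}
  set U := ⋃ Q ∈ 𝒬', Q
  have f' : 𝒬'.Finite := ex.fin.subset (sep_subset _ _)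
  have d' : 𝒬'.PairwiseDisjoint id := ex.dj.subset (sep_subset _ _)
  have eU : ∀ u ∈ Qe, u ∉ B ∪ U ∧ u ∉ Λ '' B ∪ U := fun u v =>
    have : u ∉ U := fun m => let ⟨Q, a, b⟩ := mem_iUnion₂.1 m; a.2.1 (ex.dj.elim_set a.1 q1 u b v)
    ⟨fun m => m.elim (fun m => disjoint_left.1 qe.1 v (sB m)) this,
      fun m => m.elim (fun m => disjoint_left.1 qe.2 v (image_mono sB m)) this⟩
  have Uψ : ∀ u ∈ U, ∀ j, u ∉ ψ j '' Δ := fun u v j m => by
    by_cases b : j = 0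
    · obtain ⟨Q, a, c⟩ := mem_iUnion₂.1 v
      exact disjoint_left.1 (ex.djΔ Q a.1) (ψ0 Δ ▸ b ▸ m) c
    · exact (eU u (ψQ' j b u m)).1 (Or.inr v)
  have UB : ∀ u ∈ U, u ∉ B' ∧ u ∉ Λ '' B' := fun u v =>
    let ⟨Q, a, c⟩ := mem_iUnion₂.1 v; ⟨disjoint_left.1 a.2.2.1 c, disjoint_left.1 a.2.2.2 c⟩
  have BΛ : ∀ u ∈ ⋃ Q ∈ 𝒬, Q, (u ∈ B ↔ u ∈ Λ '' B) ∧ u ∉ Δ := fun u v =>
    let ⟨Q, a, c⟩ := mem_iUnion₂.1 v
    ⟨(ex.side Q a).elim (fun b => iff_of_true (interior_subset (b.1 c)) (interior_subset (b.2 c)))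
      fun b => iff_of_false (fun m => disjoint_left.1 b.1 c (sB m))
        fun m => disjoint_left.1 b.2 c (image_mono sB m), disjoint_right.1 (ex.djΔ Q a) c⟩
  have EQ : E ⊆ ⋃ Q ∈ 𝒬, Q := (subset_interior_biUnion ex.cov).trans interior_subset
  have Ω1 := preconn_diff_point isPreconnected_univ isOpen_univ (Λ w)
  have Ω0 : IsOpen (univ \ {Λ w}) := isOpen_univ.sdiff isClosed_singleton
  have QΩ : ∀ Q ∈ 𝒬', Q ⊆ univ \ {Λ w} := fun Q a u v => ⟨trivial, fun m =>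
    disjoint_left.1 a.2.2.2 v ⟨w, sB wB, Eq.symm m⟩⟩
  obtain ⟨k₁, k1, k2⟩ := multi_disc (o := oS) Ω0 Ω1 f' (D := fun Q => Λ '' Q)
    (f := fun _ => (Λ⁻¹ : _ ≃ₜ _)) (fun Q a => (ex.cd Q a.1).1.image Λ)
    (fun _ _ u _ => inv_mem ex.ops u) (fun _ _ => Λ⁻¹.injective.injOn)
    (fun i hi j hj e => (disjoint_image_iff Λ.injective).2 (d' hi hj e))
    (by simp only [image_image, Homeomorph.inv_apply, Homeomorph.symm_apply_apply, image_id']; exact d') (by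
      rintro Q a _ ⟨u, v, rfl⟩
      exact ⟨trivial, fun m => disjoint_left.1 a.2.2.1 v (Λ.injective m ▸ sB wB)⟩)
    (by rintro Q a _ ⟨u, v, rfl⟩; simpa using QΩ Q a v)
  replace k2 : ∀ u ∈ U, (k₁ * Λ) u = u := fun u v =>
    let ⟨Q, a, b⟩ := mem_iUnion₂.1 v; by simpa using k2 Q a _ ⟨u, b, rfl⟩
  let T : Bool → Set (OnePoint ℂ) := fun k => range fun j => ψ (j + 1) (x k)
  have TQ : ∀ k, T k ⊆ Qe := by rintro k _ ⟨j, rfl⟩; exact ψQ' _ j.succ_ne_zero _ (xX (j + 1) k).2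
  let R : Option Bool → Set (OnePoint ℂ) := fun c => c.elim
    ((X \ ⋃ j ∈ ({0}ᶜ : Set ℕ), ψ j '' Δ) \ (B ∪ U)) T
  let R' : Option Bool → Set (OnePoint ℂ) := fun c => c.elim
    ((X \ ⋃ j ∈ (univ : Set ℕ), ψ j '' Δ) \ (Λ '' B ∪ U)) fun k => T k ∪ cond k ∅ {x false}
  have xne : x true ≠ x false := fun b => ex.x0 (b ▸ image_mono sB (interior_subset ex.x1))
  have xi : ∀ i j k k', ψ i (x k) = ψ j (x k') → i = j ∧ k = k' := fun i j k k' b => by
    obtain rfl : i = j := by_contra fun m => disjoint_left.1 (ψd m) (xX i k).2 (b ▸ (xX j k').2)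
    have := (ψ i).injective b
    cases k <;> cases k'
    exacts [⟨rfl, rfl⟩, (xne this.symm).elim, (xne this).elim, ⟨rfl, rfl⟩]
  have R1 : ∀ k, ∀ u ∈ R' (Option.some k), ∃ j, ψ j (x k) = u := by
    rintro (_ | _) u (⟨j, b⟩ | b)
    exacts [⟨_, b⟩, ⟨0, ψ1 ▸ Eq.symm b⟩, ⟨_, b⟩, b.elim]
  have e1 : ⋃ c, R c = X₁ \ (B ∪ U) := by
    refine Subset.antisymm (iUnion_subset ?_) ?_
    · rintro (_ | k) u v
      · exact ⟨Or.inl v.1, v.2⟩
      · refine ⟨Or.inr ?_, (eU u (TQ k v)).1⟩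
        obtain ⟨j, rfl⟩ := v
        exact mem_biUnion j.succ_ne_zero ⟨_, ⟨k, rfl⟩, rfl⟩
    · rintro u ⟨v | v, m⟩
      · exact mem_iUnion.2 ⟨none, v, m⟩
      · obtain ⟨_ | j, b, _, ⟨k, rfl⟩, rfl⟩ := mem_iUnion₂.1 v
        exacts [(b rfl).elim, mem_iUnion.2 ⟨Option.some k, j, rfl⟩]
  have e2 : ⋃ c, R' c = X₂ \ (Λ '' B ∪ U) := by
    refine Subset.antisymm (iUnion_subset ?_) ?_
    · rintro (_ | k) u v
      · exact ⟨Or.inl v.1, v.2⟩
      · obtain ⟨j, rfl⟩ := R1 k u v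
        refine ⟨Or.inr (mem_biUnion trivial ⟨_, ⟨k, rfl⟩, rfl⟩), ?_⟩
        rcases v with v | v
        · exact (eU _ (TQ k v)).2
        · cases k
          · rw [show ψ j _ = x false from v]
            exact fun m => m.elim (fun m => ex.x0 (image_mono sB m)) fun m =>
              Uψ _ m 0 ((ψ0 Δ).symm ▸ (ex.xin _).2)
          · exact v.elim
    · rintro u ⟨v | v, m⟩
      · exact mem_iUnion.2 ⟨none, v, m⟩
      · obtain ⟨_ | j, b, _, ⟨k, rfl⟩, rfl⟩ := mem_iUnion₂.1 v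
        · rw [ψ1] at m ⊢
          cases k
          exacts [mem_iUnion.2 ⟨Option.some false, Or.inr rfl⟩, (m (Or.inl (interior_subset ex.x1))).elim]
        · exact mem_iUnion.2 ⟨Option.some k, Or.inl ⟨j, rfl⟩⟩
  have xf : (X \ ⋃ Q ∈ 𝒬, Q).Finite := h.finite_diff (subset_interior_biUnion ex.cov)
  obtain ⟨d, d1, d2, d3, d4⟩ := glue_match (P := R) (P' := R') (by
      rintro (_ | k) (_ | k') b <;> refine disjoint_left.2 fun u v m => ?_
      · exact b rfl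
      · obtain ⟨j, rfl⟩ := m; exact v.1.2 (mem_biUnion j.succ_ne_zero (xX _ _).2)
      · obtain ⟨j, rfl⟩ := v; exact m.1.2 (mem_biUnion j.succ_ne_zero (xX _ _).2)
      · obtain ⟨j, rfl⟩ := v
        obtain ⟨i, m⟩ := m
        exact b (by rw [(xi _ _ _ _ m).2])) (by
      rintro (_ | k) (_ | k') b <;> refine disjoint_left.2 fun u v m => ?_
      · exact b rfl
      · obtain ⟨j, rfl⟩ := R1 _ u m; exact v.1.2 (mem_biUnion trivial (xX _ _).2)
      · obtain ⟨j, rfl⟩ := R1 _ u v; exact m.1.2 (mem_biUnion trivial (xX _ _).2)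
      · obtain ⟨j, rfl⟩ := R1 _ u v
        obtain ⟨i, m⟩ := R1 _ _ m
        exact b (by rw [(xi _ _ _ _ m).2])) (by
      rintro (_ | k)
      · refine exists_match_fin (xf.subset fun u v => ⟨v.1.1.1, fun m => v.2 ⟨⟨v.1.1.1, fun b => ?_⟩,
          fun b => v.1.2 (b.imp_left (BΛ u m).1.2)⟩⟩) (xf.subset fun u v => ⟨v.1.1.1, fun m => v.2
          ⟨⟨v.1.1.1, fun b => v.1.1.2 (biUnion_subset_biUnion_left (subset_univ _) b)⟩,
          fun b => v.1.2 (b.imp_left (BΛ u m).1.1)⟩⟩) yi yn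
          (fun j => ⟨⟨(yX j).1, fun b => let ⟨i, _, b⟩ := mem_iUnion₂.1 b; yψ j i b⟩,
            (eU _ (yQ j)).1⟩)
          (fun j => ⟨⟨(yX j).1, by simpa using yψ j⟩, (eU _ (yQ j)).2⟩)
          (fun b => h.disj b.1.1 he) fun b => h.disj b.1.1 he
        obtain ⟨j, -, b⟩ := mem_iUnion₂.1 b
        by_cases i : j = 0
        exacts [(BΛ u m).2 (ψ0 Δ ▸ i ▸ b), v.1.1.2 (mem_biUnion i b)]
      · exact exists_match_fin (finite_empty.subset fun u v => v.2 (Or.inl v.1))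
          ((show (cond k ∅ {x false} : Set _).Finite by cases k <;> simp).subset
            fun u v => v.1.resolve_left v.2) (y := fun j => ψ (j + 1) (x k))
          (fun i j b => Nat.succ_injective (xi _ _ _ _ b).1) (fun W hW =>
            ((tendsto_add_atTop_nat 1).eventually (ψn W hW)).mono fun j m => m (xX (j + 1) k).2)
          (fun j => ⟨j, rfl⟩) (fun j => Or.inl ⟨j, rfl⟩)
          (fun ⟨j, b⟩ => h.disj (xX _ _).1 ((show ψ _ _ = e from b) ▸ he))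
          fun b => let ⟨j, b⟩ := R1 k e b; h.disj (xX j k).1 (b ▸ he))
  rw [e1] at d1 d2 d4
  rw [e2] at d1
  have d5 : ∀ u ∈ E, d u = u := fun u v => d4 u fun m => b1.disj m.1 v
  set A := (E ∪ X₁) \ (B ∪ U)
  have cA : IsClosed A := by
    convert b1.cl.sdiff (isOpen_interior.union (isOpen_biUnion fun Q (_ : Q ∈ 𝒬') =>
      isOpen_interior (s := Q))) (t := interior B ∪ _) using 1
    exact Set.ext fun u => and_congr_right fun v => not_congr (or_congr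
      ⟨fun m => hO1 u v (sB m), fun m => interior_subset m⟩ ⟨fun m =>
        let ⟨Q, a, b⟩ := mem_iUnion₂.1 m
        mem_biUnion a ((ex.cd Q a.1).2 u (v.imp_right (@sX _ u)) b),
      fun m => iUnion₂_mono (fun _ _ => interior_subset) m⟩)
  have dA : BijOn d A ((E ∪ X₂) \ (Λ '' B ∪ U)) := by
    have : E \ (B ∪ U) = E \ (Λ '' B ∪ U) := Set.ext fun u => and_congr_right fun v =>
      not_congr (or_congr_left (BΛ u (EQ v)).1)
    simp only [A, union_sdiff_distrib, ← this]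
    refine ((bijOn_id _).congr fun u v => (d5 u v.1).symm).union d1 ?_
    rintro u (v | v) u' (v' | v') b
    · rwa [d5 u v.1, d5 u' v'.1] at b
    · exact (b2.disj (d1.mapsTo v').1 (b ▸ (d5 u v.1).symm ▸ v.1)).elim
    · exact (b2.disj (d1.mapsTo v).1 (b ▸ (d5 u' v'.1).symm ▸ v'.1)).elim
    · exact d1.injOn v v' b
  obtain ⟨Ω2, Ω3⟩ := preconn_diff_discs Ω0 Ω1 f' (D := fun Q => Q) (fun Q a => (ex.cd Q a.1).1) d' QΩ
  have im : (d ∘ (k₁ * Λ).symm) '' ((k₁ * Λ) '' A) = (E ∪ X₂) \ (Λ '' B ∪ U) := by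
    rw [← dA.image_eq, image_image]; simp only [Function.comp_apply, Homeomorph.symm_apply_apply]
  have k3 : (k₁ * Λ) w = Λ w := AA_fix k1 fun m => m.2 rfl
  obtain ⟨k₂, k4, k5⟩ := extend_tame Ω2 Ω3 (cA.isCompact.image (k₁ * Λ).continuous)
    ((b1.te.tame.mono sdiff_subset).image _) (f := d ∘ (k₁ * Λ).symm)
    ((d2.contOn d5 (fun u v => b1.disj v.1) fun u v => (b1.iso u v.1).mono fun _ a b =>
      a (b.imp_right And.left)).comp (k₁ * Λ).symm.continuous.continuousOn (by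
        rintro _ ⟨u, v, rfl⟩
        rw [Homeomorph.symm_apply_apply]; exact v.1.imp_right fun m => ⟨m, v.2⟩))
    (dA.injOn.comp (k₁ * Λ).symm.injective.injOn (by
      rintro _ ⟨u, v, rfl⟩; rwa [Homeomorph.symm_apply_apply]))
    (im ▸ b2.te.tame.mono sdiff_subset) (by
      rintro _ ⟨u, v, rfl⟩
      exact ⟨⟨trivial, fun m => v.2 (Or.inl ((k₁ * Λ).injective (m.trans k3.symm) ▸ wB))⟩,
        fun m => v.2 (Or.inr ((k₁ * Λ).injective (k2 _ m) ▸ m))⟩)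
    (im ▸ fun u v => ⟨⟨trivial, fun m => v.2 (Or.inl ⟨w, wB, Eq.symm m⟩)⟩, fun m => v.2 (Or.inr m)⟩)
  set φ := k₂ * (k₁ * Λ) with hφ
  have φ1 : ∀ u ∈ A, φ u = d u := fun u v =>
    (k5 _ ⟨u, v, rfl⟩).trans (congrArg d ((k₁ * Λ).symm_apply_apply u))
  have φ2 : ∀ u ∈ U, φ u = u := fun u v => by
    rw [hφ, Homeomorph.mul_apply, k2 u v, AA_fix k4 fun m => m.2 v]
  have k6 : k₂ * k₁ ∈ AA (univ \ {Λ w}) := mul_mem (AA_mono sdiff_subset k4) k1
  have φ3 : ∀ᶠ u in 𝓝 w, φ u = Λ u :=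
    Λ.continuous.continuousAt.eventually (AA_eventually k6 fun m => m.2 rfl)
  have φ4 : ∀ u ∈ E \ B, φ u = u := fun u v => by
    by_cases m : u ∈ U
    exacts [φ2 u m, (φ1 u ⟨Or.inl v.1, fun b => b.elim v.2 m⟩).trans (d5 u v.1)]
  have im' : ∀ {A A' : Set (OnePoint ℂ)}, φ '' A = A' → ∀ u, φ u ∈ A' ↔ u ∈ A := fun b u =>
    b ▸ φ.injective.mem_set_image
  have XU : ∀ J : Set ℕ, ∀ u ∈ U, u ∈ X → u ∈ (X \ ⋃ j ∈ J, ψ j '' Δ) ∪ ⋃ j ∈ J, ψ j '' range x :=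
    fun J u v m => Or.inl ⟨m, by simpa using fun j _ => Uψ u v j⟩
  have Uc : IsClosed U := f'.isClosed_biUnion fun Q a => (ex.cd Q a.1).1.isCompact.isClosed
  have wU : w ∉ U := fun m => (UB w m).1 (sB wB)
  have pP : ∀ s, p s ∈ B' → p₁ s = p s := fun s u => a2 s fun j b m =>
    disjoint_left.1 qe.1 (ψQ' j b _ m) u
  have pP' : ∀ s, p₂ s = P s ∨ p₂ s ∈ Qe ∧ P s ∈ Qe := fun s => by
    by_cases b : ∃ j, p s ∈ ψ j '' Δ
    · obtain ⟨j, b⟩ := b
      by_cases i : j = 0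
      · subst i; exact Or.inl ((a1' 0 trivial s b).1.trans (by rw [ψ1, σ0]; rfl))
      · have := ψQ' j i _ b
        exact Or.inr ⟨ψQ' j i _ (a1' j trivial s b).2,
          (ex.off s (disjoint_right.1 (ex.djΔ Qe q1) this)).symm ▸ this⟩
    · push Not at b
      exact Or.inl ((a2' s fun j _ => b j).trans (ex.off s (ψ0 Δ ▸ b 0)).symm)
  obtain ⟨Φ, l1, t, -, l2, l3, l4, l5⟩ := ob.lift_col (φ := φ)
    (by rw [hφ, ← mul_assoc]; exact mul_mem (OPS_of_AA k6 fun m => m.2 rfl) ex.ops)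
    (im' ((image_congr φ4).trans ((image_id' _).trans (Set.ext fun u => and_congr_right fun v =>
      not_congr (BΛ u (EQ v)).1))))
    (im' (by
      rw [image_union, image_singleton, φ3.self_of_nhds]
      congr 1
      refine Subset.antisymm ?_ fun u v => ?_
      · rintro _ ⟨u, v, rfl⟩
        by_cases m : u ∈ U
        · rw [φ2 u m]; exact ⟨XU _ u m (sX _ v.1), fun b => (UB u m).2 (image_mono sB b)⟩
        · have b : u ∉ B ∪ U := fun b => b.elim v.2 m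
          rw [φ1 u ⟨Or.inr v.1, b⟩]
          exact ⟨(d1.mapsTo ⟨v.1, b⟩).1, fun i => (d1.mapsTo ⟨v.1, b⟩).2 (Or.inl i)⟩
      · by_cases m : u ∈ U
        · exact ⟨u, ⟨XU _ u m (sX _ v.1), fun b => (UB u m).1 (sB b)⟩, φ2 u m⟩
        · obtain ⟨u', b, rfl⟩ := d1.surjOn ⟨v.1, fun b => b.elim v.2 m⟩
          exact ⟨u', ⟨b.1, fun i => b.2 (Or.inl i)⟩, φ1 u' ⟨Or.inr b.1, b.2⟩⟩))
    (X₁ := insert w U) (g := fun u => if u = w then ((n * f) * 1⁻¹).toOpenPartialHomeomorph else .refl S)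
    (by
      rintro u ⟨v', rfl | v⟩
      · rw [if_pos rfl]
        refine dat_of (θ := 1) (θ' := Λ) (g.cl'.cont.comp h.cont) (isOpen_interior.preimage h.cont)
          (fun s a => g.s2 ((g.cl'.fib () rfl _).1 a))
          (fun s a => congrArg μ (pP s (interior_subset a))) (fun s a => ?_)
          (fun s a => ?_) (fun s a => ?_) φ3
        · have b := ex.col s (interior_subset a)
          have i := (g.cl'.maps () rfl _).1 (b ▸ (g.cl'.maps () rfl _).2 a)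
          rw [Function.comp_apply, (pP' _).resolve_right fun m => disjoint_left.1 qe.2 m.2
            ⟨_, interior_subset i, by simp⟩]
          exact congrArg Λ b
        · have b : p₁ s ∈ B := (g.cl'.fib () rfl _).1 a
          rw [a2 s fun j i m => (eU _ (ψQ' j i _ (a1 j i s m).2)).1 (Or.inl b)] at b
          exact (g.cl'.fib () rfl _).2 b
        · have b := (c'.fib () rfl _).1 a
          rw [(pP' _).resolve_right fun m => (eU _ m.1).2 (Or.inl b)] at b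
          exact (g.cl'.fib () rfl _).2 ((ex.mem s).1 b)
      · rw [if_neg fun m : u = w => wU (m ▸ v)]
        have i1 := (g.cl'.fibre (fun _ _ m => (UB u v).1 (interior_subset m)) p₁).trans
          (a3 u fun j _ => Uψ u v j)
        refine ⟨subset_univ _, ?_, ?_⟩
        · rw [φ2 u v, i1, c'.fibre (fun _ _ m => (UB u v).2 (image_mono interior_subset m)),
            a3' u fun j _ => Uψ u v j]; simp
        · obtain ⟨Q, i, m⟩ := mem_iUnion₂.1 v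
          rw [i1]
          filter_upwards [ev_fibre h.cont (mem_interior_iff_mem_nhds.1 ((ex.cd Q i.1).2 u (Or.inr (sX _
            (v'.resolve_right fun m : u = w => wU (m ▸ v)).1)) m))]
            with s b
          have b : p s ∈ U := mem_biUnion i b
          obtain ⟨i2, i3⟩ := loc s (UB _ b).1 (UB _ b).2 (Uψ _ b)
          rw [i2, φ2 _ b]; exact i3)
    (fun u v => by
      have b : u ∈ X₁ \ (B ∪ U) := let m := v.1.resolve_right fun m => v.2 (Or.inl m)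
        ⟨m.1, fun i => i.elim m.2 fun i => v.2 (Or.inr i)⟩
      have b' := d1.mapsTo b
      rw [φ1 u ⟨Or.inr b.1, b.2⟩, g.cl'.fibre fun _ _ m => b.2 (Or.inl (interior_subset
        (hO1 u (Or.inr b.1) (interior_subset m)))), c'.fibre fun _ _ m => b'.2 (Or.inl (interior_subset
        (hO2 _ (Or.inr b'.1) (image_mono interior_subset m))))]
      obtain ⟨_ | k, i⟩ := mem_iUnion.1 (e1.symm ▸ b : u ∈ ⋃ c, R c)
      · have i' := d3 none i
        rw [a3 u fun j m r => i.1.2 (mem_biUnion m r), a3' _ fun j m r => i'.1.2 (mem_biUnion m r)]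
        exact h.sim i.1.1 i'.1.1
      · obtain ⟨j', m⟩ := R1 k _ (d3 _ i)
        obtain ⟨j, rfl⟩ := i
        rw [← m, a4 _ j.succ_ne_zero _ (ex.xin k).2, a4' j' trivial _ (ex.xin k).2]
        exact (Sim.of_homeo (σO _) _).symm.trans (Sim.of_homeo (σO _) _))
    (O := fun _ => Uᶜ) fun u v => Uc.isOpen_compl.mem_nhds fun m => v.2 (Or.inr m)
  have l6 : ∀ s, p s ∈ B → Φ s = n (f s) := fun s u => by
    have : (μ ∘ p₁) s = w := (g.cl'.fib () rfl _).2 (pP s (sB u) ▸ u)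
    exact (l5 s (this ▸ ⟨Or.inr rfl, Or.inl rfl⟩)).trans (by rw [if_pos this]; rfl)
  have l7 : ∀ x ∈ E ∩ B, ∀ᶠ s in comap p (𝓝 x), Φ s = f s := fun x u => by
    obtain ⟨Q, v, m⟩ := ex.cov x u.1
    filter_upwards [a.triv ht u.1 (preimage_mem_comap (mem_interior_iff_mem_nhds.1 m)),
      preimage_mem_comap (mem_interior_iff_mem_nhds.1 (fB ⟨Or.inl u.1, sD (sB u.2)⟩))] with s i j
    rw [l6 s j, n2 Q v _ i]
  refine ⟨Φ, l1, a.eq_one h.toBS fun x u => ?_, fun x u => l7 x ⟨u.1, interior_subset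
    (fB ⟨Or.inl u.1, u.2⟩)⟩, fun x u v m => ?_⟩
  · by_cases b : x ∈ B
    · exact (a.triv ht u).congr' (EventuallyEq.symm (l7 x ⟨u, b⟩))
    have i : x ∉ B' := fun m => b (interior_subset (hO1 x (Or.inl u) m))
    have : Tendsto (fun s => φ (t (μ (p₁ s)))) (comap p₁ (𝓝 x)) (𝓝 x) := by
      have := ((φ.continuous.comp (t.continuous.comp g.cl'.cont)).tendsto x).comp
        (tendsto_comap (f := p₁))
      rwa [Function.comp_apply, Function.comp_apply, o1 x i, l3 x (Or.inl ⟨u, b⟩), φ4 x ⟨u, b⟩] at this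
    conv_lhs => rw [← a5 x u]
    rw [← a5' x u, tendsto_comap_iff]
    refine this.congr' ((this.eventually ((g.dB'.image Λ).isCompact.isClosed.isOpen_compl.mem_nhds fun m =>
      b ((BΛ x (EQ u)).1.2 (interior_subset (hO2 x (Or.inl u) m))))).mono fun s m => ?_)
    exact (l2 s).symm.trans (c'.eq_of fun _ _ j => m (image_mono interior_subset (l2 s ▸ j)))
  · obtain ⟨Q, i, j⟩ := ex.cov x u
    have i' : Q ∈ 𝒬' := ⟨i, fun b => m (q3 (b ▸ interior_subset j)), sd Q i ⟨x, interior_subset j, v⟩⟩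
    filter_upwards [preimage_mem_comap (mem_interior_iff_mem_nhds.1 j)] with s b
    have b : p s ∈ U := mem_biUnion i' b
    obtain ⟨i2, i3⟩ := loc s (UB _ b).1 (UB _ b).2 (Uψ _ b)
    by_cases r : p s ∈ X
    · have := l5 s (i2 ▸ ⟨Or.inl ⟨XU _ _ b r, fun m => (UB _ b).1 (sB m)⟩, Or.inr b⟩)
      rwa [i2, if_neg fun m : p s = w => wU (m ▸ b)] at this
    · refine (bt.inj (by
        rw [i3]; rintro (m | m)
        exacts [r (sX _ m.1), (UB _ b).2 ⟨w, sB wB, Eq.symm m⟩]) ?_).symm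
      rw [l2, i2, i3, (l4 _).resolve_right fun ⟨_, _, m, _⟩ => m b, φ2 _ b]

omit [T2Space S] in
theorem BS.planar_germ (h : BS o p q E X) (a : EH p H) {f : S ≃ₜ S} (hf : f ∈ OPS o) (ht : H f = 1)
    {D : Set (OnePoint ℂ)} (hD : CD (E ∪ X) D) (hX : Disjoint D X) : ∃ g ∈ OPS o, H g = 1 ∧
      (∀ s, p s ∉ D → g s = s) ∧ ∀ x ∈ E ∩ D, ∀ᶠ s in comap p (𝓝 x), g s = f s := by
  classical
  let F : (S ≃ₜ S) → OnePoint ℂ → OnePoint ℂ := fun k y => if y ∈ E then y else p (k (q y))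
  have f1 : ∀ k, ∀ y ∈ E, F k y = y := fun k y u => if_pos u
  have f2 : ∀ k s, p s ∈ D → F k (p s) = p (k s) := fun k s u =>
    (if_neg (h.notE s)).trans (by rw [h.qp s (disjoint_left.1 hX u)])
  have f3 : ∀ k, H k = 1 → ∀ y ∈ interior D, ContinuousAt (F k) y := fun k u y v => by
    have n := mem_interior_iff_mem_nhds.1 v
    by_cases b : y ∈ E
    · intro W hW
      rw [f1 k y b] at hW
      rw [mem_map]
      filter_upwards [hW, n, eventually_comap.1 ((a.triv u b).eventually (preimage_mem_comap hW))]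
        with y' i j l
      by_cases c : y' ∈ E
      · rwa [mem_preimage, f1 k y' c]
      · obtain ⟨s, rfl⟩ := h.surj c; rw [mem_preimage, f2 k s j]; exact l s rfl
    · refine ((h.cont.comp k.continuous).continuousAt.comp (h.lh_q fun c => c.elim b
        (disjoint_left.1 hX (interior_subset v))).contAt).congr ?_
      exact mem_of_superset (h.clE.isOpen_compl.mem_nhds b) fun y' i => (if_neg i).symm
  have f4 : ∀ k, H k = 1 → ∀ x ∈ E ∩ D, ∀ᶠ y in 𝓝 x, (ContinuousAt (F k) y ∧ F k⁻¹ (F k y) = y) ∧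
      y ∈ interior D ∧ F k y ∈ interior D := fun k u x v => by
    have n := isOpen_interior.mem_nhds (hD.2 x (Or.inl v.1) v.2)
    filter_upwards [n, f3 k u x (mem_of_mem_nhds n) (by rwa [f1 k x v.1])] with y i j
    refine ⟨⟨f3 k u y i, ?_⟩, i, j⟩
    by_cases c : y ∈ E
    · rw [f1 k y c, f1 _ y c]
    · obtain ⟨s, rfl⟩ := h.surj c
      rw [mem_preimage, f2 k s (interior_subset i)] at j
      rw [f2 k s (interior_subset i), f2 _ _ (interior_subset j)]; simp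
  have f5 : ∀ y ∉ E, y ∈ interior D → F f y ∈ interior D → Sg oS oS (F f) y 1 := fun y u i j => by
    obtain ⟨s, rfl⟩ := h.surj u
    rw [f2 f s (interior_subset i)] at j
    exact h.sg_down (disjoint_left.1 hX (interior_subset i)) (disjoint_left.1 hX (interior_subset j))
      (hf s) (mem_of_superset (h.cont.continuousAt (mem_interior_iff_mem_nhds.1 i))
        fun t m => (f2 f t m).symm)
  have f6 : ∀ x ∈ E ∩ D, Sg oS oS (F f) x 1 := fun x v => by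
    obtain ⟨d, u⟩ := (lh_of_local ((f4 f ht x v).mono fun _ => And.left) (by
      rw [f1 f x v.1]; exact (f4 f⁻¹ (by simp [ht]) x v).mono fun _ => And.left)).exists_sg oS oS
    obtain ⟨y, i, j⟩ := h.te.nd _ isOpen_interior ⟨x, mem_interior_iff_mem_nhds.2
      (u.eventually.and (f4 f ht x v))⟩
    have i := interior_subset i
    exact i.1.unique (f5 y (fun c => j (Or.inl c)) i.2.2.1 i.2.2.2) ▸ u
  obtain ⟨𝒬, a1, a2, a3, a4⟩ := h.te.discs (h.clE.inter hD.1.isCompact.isClosed)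
    (inter_subset_left.trans subset_union_left) (O := fun _ : Unit => interior {y | Sg oS oS (F f) y 1 ∧
      (ContinuousAt (F f) y ∧ F f⁻¹ (F f y) = y) ∧ y ∈ interior D ∧ F f y ∈ interior D})
    (fun _ => isOpen_interior) (fun x v => mem_iUnion.2 ⟨(), mem_interior_iff_mem_nhds.2
      ((f6 x v).eventually.and (f4 f ht x v))⟩) one_pos
  have a5 := fun Q u y (v : y ∈ Q) => let ⟨_, c⟩ := (a2 Q u).2.2.1; interior_subset (c v)
  have a6 : ∀ Q ∈ 𝒬, ∀ Q' ∈ 𝒬, ∀ y ∈ Q, ∀ y' ∈ Q', F f y = F f y' → y = y' :=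
    fun Q u Q' u' y v y' v' e => by rw [← (a5 Q u y v).2.1.2, e, (a5 Q' u' y' v').2.1.2]
  obtain ⟨k, k1, k2⟩ := multi_disc (o := oS) isOpen_interior hD.1.preconn_interior a1
    (D := fun Q => Q) (f := fun _ => F f) (fun Q u => (a2 Q u).1.1) (fun Q u y v => (a5 Q u y v).1)
    (fun Q u y v y' v' => a6 Q u Q u y v y' v') a3 (fun Q u Q' u' n => disjoint_left.2 (by
      rintro _ ⟨y, v, rfl⟩ ⟨y', v', e⟩
      exact disjoint_left.1 (a3 u u' n) v (a6 Q' u' Q u y' v' y v e ▸ v')))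
    (fun Q u y v => (a5 Q u y v).2.2.1) fun Q u y v => (a5 Q u y v).2.2.2
  have k3 : ∀ y ∉ D, k y = y := fun y u => AA_fix k1 fun c => u (interior_subset c)
  have k4 : k ∈ Fix E := fun y u => by
    by_cases c : y ∈ D
    · obtain ⟨Q, i, j⟩ := a4 y ⟨u, c⟩; rw [k2 Q i y (interior_subset j), f1 f y u]
    · exact k3 y c
  obtain ⟨g, l⟩ := h.lift_nb (Fix_le_Stab k4) (AA_le_Nb (fun x u c =>
    disjoint_left.1 hX (interior_subset c) u) k1)
  have l' : ∀ s, p s ∉ D → g s = s := fun s u => h.lf_fix l (k3 _ u)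
  obtain ⟨y, -, u⟩ := hD.1.exists_notMem isOpen_univ (subset_univ _)
  refine ⟨g, h.ops hD.1.isCompact.isClosed h.te.dense u l', Homeomorph.ext fun x => Subtype.ext
    ((a.of_lift h l.1 x).trans (k4 x x.2)), l', fun x v => ?_⟩
  obtain ⟨Q, i, j⟩ := a4 x v
  filter_upwards [preimage_mem_comap (mem_interior_iff_mem_nhds.1 j)] with s m
  have b := (a5 Q i _ m).2.2
  rw [f2 f s (interior_subset b.1)] at b
  exact (h.inj (disjoint_left.1 hX (interior_subset b.2))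
    (by rw [l.1, k2 Q i _ m, f2 f s (interior_subset b.1)])).symm

end Pool.Agent.Lib.MP_069d55_gt.K
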