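import Pool.Agent.Lib.MP_069d55_gt.GLift

/-! Point pushing modulo homeomorphisms that fix a connected neighbourhood of the marked points. -/

open Set Topology Filter Metric
open scoped unitInterval

namespace Pool.Agent.Lib.MP_069d55_gt.K

section gen
variable {Y M T : Type*} [TopologicalSpace Y] [TopologicalSpace M] [TopologicalSpace T] {a : Y → M}

theorem ext_cont_gen [T2Space M] (he : IsOpenEmbedding a) {F : T → Y → Y}
    (hF : Continuous fun p : T × Y => F p.1 p.2) {C : Set Y} (hC : IsCompact C)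
    (hs : ∀ t, ∀ z ∉ C, F t z = z) :
    Continuous fun p : T × M => Function.extend a (a ∘ F p.1) id p.2 := by
  rw [continuous_iff_continuousAt]
  rintro ⟨t, x⟩
  by_cases hx : x ∈ range a
  · obtain ⟨z, rfl⟩ := hx
    have h := (IsOpenEmbedding.id (X := T)).prodMap he
    rw [show (t, a z) = Prod.map id a (t, z) from rfl, ← h.continuousAt_iff,
      show (fun p : T × M => Function.extend a (a ∘ F p.1) id p.2) ∘ Prod.map id a =
        fun p : T × Y => a (F p.1 p.2) by ext p; simp [he.injective.extend_apply]]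
    exact (he.continuous.comp hF).continuousAt
  · refine continuousAt_snd.congr ?_
    filter_upwards [continuousAt_snd.preimage_mem_nhds ((hC.image he.continuous
      ).isClosed.isOpen_compl.mem_nhds fun h => hx (image_subset_range _ _ h))] with p hp
    by_cases hp' : p.2 ∈ range a
    · obtain ⟨z, hz⟩ := hp'
      rw [← hz, he.injective.extend_apply, Function.comp_apply, hs _ z]
      exact fun h => hp ⟨z, h, hz⟩
    · rw [Function.extend_apply' _ _ _ hp']; rfl

omit [TopologicalSpace Y] [TopologicalSpace M] in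
theorem ext_comp (he : Function.Injective a) {k k' : Y → Y} (h : ∀ y, k' (k y) = y) (x : M) :
    Function.extend a (a ∘ k') id (Function.extend a (a ∘ k) id x) = x := by
  by_cases hx : x ∈ range a
  · obtain ⟨z, rfl⟩ := hx; simp [he.extend_apply, h]
  · rw [Function.extend_apply' _ _ _ hx, id, Function.extend_apply' _ _ _ hx, id]

omit [TopologicalSpace Y] [TopologicalSpace M] in
theorem ext_fix (he : Function.Injective a) {k : Y → Y} {C : Set Y} (h : ∀ z ∉ C, k z = z) {x : M}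
    (hx : x ∉ a '' C) : Function.extend a (a ∘ k) id x = x := by
  by_cases hx' : x ∈ range a
  · obtain ⟨z, rfl⟩ := hx'
    rw [he.extend_apply, Function.comp_apply, h z fun c => hx ⟨z, c, rfl⟩]
  · exact Function.extend_apply' _ _ _ hx'

theorem exists_lift_gen [T2Space M] (he : IsOpenEmbedding a) {F G : Y → Y} (hF : Continuous F)
    (hG : Continuous G) (h1 : ∀ y, G (F y) = y) (h2 : ∀ y, F (G y) = y) {C : Set Y}
    (hC : IsCompact C) (hs : ∀ z ∉ C, F z = z) :
    ∃ K : M ≃ₜ M, (∀ y, K (a y) = a (F y)) ∧ ∀ x ∉ a '' C, K x = x :=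
  ⟨⟨⟨_, _, ext_comp he.injective h1, ext_comp he.injective h2⟩,
    (ext_cont_gen (T := Unit) he (F := fun _ => F) (hF.comp continuous_snd) hC fun _ => hs).comp
      (Continuous.prodMk_right ()),
    (ext_cont_gen (T := Unit) he (F := fun _ => G) (hG.comp continuous_snd) hC fun _ z hz => by
      rw [← hs z hz, h1, hs z hz]).comp (Continuous.prodMk_right ())⟩,
    fun _ => he.injective.extend_apply _ _ _, fun _ => ext_fix he.injective hs⟩

theorem exists_lift_cpt [T2Space M] [CompactSpace M] (he : IsOpenEmbedding a) {F : T → Y → Y}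
    (hF : Continuous fun p : T × Y => F p.1 p.2) (hb : ∀ t, Function.Bijective (F t)) {C : Set Y}
    (hC : IsCompact C) (hs : ∀ t, ∀ z ∉ C, F t z = z) : ∃ K : T → M ≃ₜ M, Continuous K ∧
      (∀ t y, K t (a y) = a (F t y)) ∧ ∀ t, ∀ x ∉ a '' C, K t x = x :=
  have h := ext_cont_gen he hF hC hs
  ⟨fun t => (h.comp (Continuous.prodMk_right t)).homeoOfEquivCompactToT2 (f :=
    ⟨_, _, ext_comp he.injective (Equiv.ofBijective _ (hb t)).left_inv,
      ext_comp he.injective (Equiv.ofBijective _ (hb t)).right_inv⟩), continuous_hm h,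
    fun _ _ => he.injective.extend_apply _ _ _, fun t _ => ext_fix he.injective (hs t)⟩

end gen

variable {M : Type*} [MetricSpace M] [CompactSpace M]

/-- Homeomorphisms isotopic to the identity through homeomorphisms supported in `U`. -/
def AA0 (U : Set M) : Subgroup (M ≃ₜ M) where
  carrier := {γ | JoinedIn (AA U : Set (M ≃ₜ M)) 1 γ}
  one_mem' := JoinedIn.refl (one_mem _)
  mul_mem' := fun {a b} ha hb => by simpa using ha.mul hb
  inv_mem' := fun {a} ha => by simpa using ha.inv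

theorem AA0_mono {U U' : Set M} (h : U ⊆ U') : AA0 U ≤ AA0 U' := fun _ hk =>
  JoinedIn.mono hk (AA_mono h)

theorem AA0_le_Iso0 {U Z : Set M} (h : Disjoint U Z) : AA0 U ≤ Iso0 Z := fun _ hk =>
  JoinedIn.mono hk (AA_le_Fix h)

theorem exists_AA0 [Charted M] {U : Set M} (hU : IsOpen U) (hc : IsPreconnected U) {v w : M}
    (hv : v ∈ U) (hw : w ∈ U) : ∃ k ∈ AA0 U, k v = w := by
  refine hc.induction₂' (fun v w => ∃ k ∈ AA0 U, k v = w) (fun x hx => ?_)
    (fun _ _ _ _ _ _ ⟨k, a, b⟩ ⟨k', c, d⟩ => ⟨k' * k, mul_mem c a, by simp [b, d]⟩) hv hw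
  obtain ⟨N, hN, s, s1, s2⟩ := loc_move hU hx
  obtain ⟨e, he, rfl⟩ := exists_chart0 x
  obtain ⟨r, hr, hb⟩ := Metric.mem_nhds_iff.1 (he.continuous.continuousAt hN)
  have x0 := mem_of_mem_nhds hN
  have pc := ((convex_ball (0 : ℂ) r).isPathConnected ⟨0, mem_ball_self hr⟩).image'
    (f := fun z => s (e z) * (s (e 0))⁻¹) ((s1.comp he.continuous.continuousOn hb).mul
      continuousOn_const)
  refine mem_nhdsWithin_of_mem_nhds (he.image_mem_nhds.2 (ball_mem_nhds 0 hr) |> fun h =>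
    mem_of_superset h ?_)
  rintro _ ⟨z, hz, rfl⟩
  have a : s (e z) * (s (e 0))⁻¹ ∈ AA0 U := (pc.joinedIn 1 ⟨0, mem_ball_self hr, by simp⟩ _
    ⟨z, hz, rfl⟩).mono (by
      rintro _ ⟨y, hy, rfl⟩; exact mul_mem (s2 _ (hb hy)).1 (inv_mem (s2 _ x0).1))
  have b : (s (e z) * (s (e 0))⁻¹) (e 0) = e z := by
    rw [Homeomorph.mul_apply, Homeomorph.inv_apply,
      (Homeomorph.symm_apply_eq _).2 (s2 _ x0).2.symm, (s2 _ (hb hz)).2]
  exact ⟨⟨_, a, b⟩, _, inv_mem a, (Homeomorph.symm_apply_eq _).2 b.symm⟩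

theorem exists_Iso0_gather [Charted M] [PreconnectedSpace M] {Z t Ω : Set M} (hZ : Z.Finite)
    (ht : t.Finite) (hd : Disjoint t Z) (hΩ : IsOpen Ω) (hn : Ω.Nonempty) :
    ∃ j ∈ Iso0 Z, MapsTo j t Ω := by
  induction t, ht using Set.Finite.induction_on with
  | empty => exact ⟨1, one_mem _, mapsTo_empty _ _⟩
  | @insert x t hx ht ih =>
    rw [disjoint_insert_left] at hd
    obtain ⟨j, j1, j2⟩ := ih hd.2
    have hf := hZ.union (ht.image j)
    obtain ⟨w, w1, w2⟩ := (infinite_of_open hΩ hn).exists_notMem_finite hf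
    obtain ⟨k, k1, k2⟩ := exists_AA0 (isOpen_univ.sdiff hf.isClosed)
      (preconn_diff_finite isPreconnected_univ isOpen_univ hf) (v := j x) (w := w)
      ⟨trivial, fun c => c.elim (fun c => hd.1 ((Fix_le_Stab (Iso0_le_Fix j1) x).1 c))
        fun c => hx (j.injective.mem_set_image.1 c)⟩ ⟨trivial, w2⟩
    refine ⟨k * j, mul_mem (AA0_le_Iso0 (disjoint_left.2 fun _ a b => a.2 (Or.inl b)) k1) j1, ?_⟩
    rintro y (rfl | hy)
    · exact k2 ▸ w1
    · rw [Homeomorph.mul_apply, AA_fix k1.target_mem fun c => c.2 (Or.inr ⟨y, hy, rfl⟩)]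
      exact j2 hy

/-- The group generated by isotopies relative to `Z` and by the homeomorphisms that fix a
connected neighbourhood of `Z`. -/
def Lam (Z : Set M) : Subgroup (M ≃ₜ M) :=
  Subgroup.closure {g | g ∈ Iso0 Z ∨ ∃ Ω, IsOpen Ω ∧ IsPreconnected Ω ∧ Z ⊆ Ω ∧ g ∈ Fix Ω}

theorem Iso0_le_Lam {Z : Set M} : Iso0 Z ≤ Lam Z := fun _ h => Subgroup.subset_closure (Or.inl h)

omit [CompactSpace M] in
theorem Fix_conj {Ω : Set M} {g : M ≃ₜ M} (h : g ∈ Fix Ω) (k : M ≃ₜ M) :
    k * g * k⁻¹ ∈ Fix (k '' Ω) := by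
  rintro _ ⟨x, hx, rfl⟩; simp [h x hx]

theorem Lam_conj {Z : Set M} {g : M ≃ₜ M} (h : g ∈ Lam Z) (k : M ≃ₜ M) :
    k * g * k⁻¹ ∈ Lam (k '' Z) := by
  induction h using Subgroup.closure_induction with
  | mem g h => exact Subgroup.subset_closure (h.imp (Iso0_conj · k) fun ⟨Ω, a, b, c, d⟩ =>
      ⟨_, k.isOpenMap _ a, b.image _ k.continuous.continuousOn, image_mono c, Fix_conj d k⟩)
  | one => simp
  | mul a b _ _ c d => simpa [mul_assoc] using mul_mem c d
  | inv a _ c => simpa [mul_assoc] using inv_mem c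

/-- Homeomorphisms fixing `Z` and sending `u` into `U`. -/
def Tr (Z : Set M) (u : M) (U : Set M) : Set (M ≃ₜ M) := {g | g ∈ Fix Z ∧ g u ∈ U}

/-- Pushing `u` along loops in `U` is trivial. -/
def Gd (Z : Set M) (u : M) (U : Set M) : Prop :=
  ∀ x y, JoinedIn (Tr Z u U) x y → x u = y u → x⁻¹ * y ∈ Lam (insert u Z)

variable {Z U : Set M} {u : M}

theorem Gd.mono {U' : Set M} (h : Gd Z u U) (h' : U' ⊆ U) : Gd Z u U' := fun x y a =>
  h x y (a.mono fun _ b => ⟨b.1, h' b.2⟩)

theorem Gd.of_image (k : M ≃ₜ M) (h : Gd (k '' Z) (k u) (k '' U)) : Gd Z u U := fun x y a b => by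
  have := Lam_conj (h (k * x * k⁻¹) (k * y * k⁻¹) ((a.map_continuousOn (f := fun g => k * g * k⁻¹)
    (by fun_prop)).mono (by
      rintro _ ⟨g, hg, rfl⟩; exact ⟨Fix_conj hg.1 k, g u, hg.2, by simp⟩)) (by simp [b])) k⁻¹
  rw [← image_insert_eq, image_image] at this
  simpa [mul_assoc] using this

theorem Gd.of_compact (h : ∀ K, IsCompact K → K ⊆ U → Gd Z u K) : Gd Z u U := by
  rintro x y ⟨H, hH⟩
  exact h _ (isCompact_range ((continuous_hm_apply u).comp H.continuous))
    (range_subset_iff.2 fun t => (hH t).2) x y ⟨H, fun t => ⟨(hH t).1, t, rfl⟩⟩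

theorem joined_AA0 (hd : Disjoint U Z) {k g : M ≃ₜ M} (hk : k ∈ AA0 U) (hg : g ∈ Tr Z u U) :
    JoinedIn (Tr Z u U) g (k * g) := by
  simpa using (JoinedIn.map_continuousOn hk (f := fun k => k * g) (by fun_prop)).mono
    (V := Tr Z u U) (by
      rintro _ ⟨c, hc, rfl⟩; exact ⟨mul_mem (AA_le_Fix hd hc) hg.1, (AA_mem_iff hc _).2 hg.2⟩)

theorem Gd.iUnion [Charted M] {ι : Type*} {U : ι → Set M} {v : M} (ho : ∀ i, IsOpen (U i))
    (hd : ∀ i, Disjoint (U i) Z) (hv : ∀ i, v ∈ U i) (hc : ∀ i j, IsPreconnected (U i ∩ U j))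
    (h : ∀ i, Gd Z u (U i)) : Gd Z u (⋃ i, U i) := by
  rintro x y ⟨H0, hH0⟩ e
  let H := H0.extend
  have hH : ∀ t, H t ∈ Tr Z u (⋃ i, U i) := fun t => by
    obtain ⟨s, hs⟩ : H t ∈ range H0 := H0.extend_range ▸ mem_range_self t
    exact hs ▸ hH0 s
  have ex : ∀ i, ∀ w ∈ U i, ∃ k ∈ AA0 (U i), k w = v := fun i w hw =>
    exists_AA0 (ho i) (inter_self (U i) ▸ hc i i) hw (hv i)
  have two : ∀ i {g g' k k'}, JoinedIn (Tr Z u (U i)) g g' → k ∈ AA0 (U i) → k' ∈ AA0 (U i) →
      k (g u) = v → k' (g' u) = v → (k * g)⁻¹ * (k' * g') ∈ Lam (insert u Z) :=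
    fun i {g g' k k'} a b c d f => h i _ _ (((joined_AA0 (hd i) b a.source_mem).symm.trans a).trans
      (joined_AA0 (hd i) c a.target_mem)) (d.trans f.symm)
  obtain ⟨i0, hi0⟩ := mem_iUnion.1 (H0.source ▸ (hH0 0).2 : x u ∈ ⋃ i, U i)
  obtain ⟨k0, k1, k2⟩ := ex i0 _ hi0
  let P : ℝ → Prop := fun t => ∀ i, ∀ k ∈ AA0 (U i), H t u ∈ U i → k (H t u) = v →
    (k0 * x)⁻¹ * (k * H t) ∈ Lam (insert u Z)
  have all : ∀ t i, ∀ k ∈ AA0 (U i), H t u ∈ U i → k (H t u) = v →
      (k0 * x)⁻¹ * (k * H t) ∈ Lam (insert u Z) → P t := fun t i k a b c d j k' a' b' c' => by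
    obtain ⟨l, l1, l2⟩ := exists_AA0 ((ho i).inter (ho j)) (hc i j) ⟨b, b'⟩ ⟨hv i, hv j⟩
    simpa [mul_assoc] using mul_mem (mul_mem d (two i (.refl ⟨(hH t).1, b⟩) a
      (AA0_mono inter_subset_left l1) c l2)) (two j (.refl ⟨(hH t).1, b'⟩)
      (AA0_mono inter_subset_right l1) a' l2 c')
  have key := PreconnectedSpace.induction₂' (fun s t : ℝ => P s → P t) (fun s => ?_)
    ⟨fun a b c h h' => h' ∘ h⟩ 0 1 (all 0 i0 k0 k1 (by simpa [H] using hi0) (by simpa [H] using k2)
      (by simp [H]))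
  · simpa [H, mul_assoc] using key i0 k0 k1 (by simpa [H, e] using hi0) (by simpa [H, e] using k2)
  obtain ⟨i, hi⟩ := mem_iUnion.1 (hH s).2
  obtain ⟨r, hr, hb⟩ := Metric.mem_nhds_iff.1 (((continuous_hm_apply u).comp
    H0.continuous_extend).continuousAt ((ho i).mem_nhds hi))
  have h2 : ∀ t ∈ ball s r, ∀ t' ∈ ball s r, P t → P t' := fun t ht t' ht' hP => by
    obtain ⟨k, a, b⟩ := ex i _ (hb ht)
    obtain ⟨k', a', b'⟩ := ex i _ (hb ht')
    refine all t' i k' a' (hb ht') b' ?_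
    simpa [H, mul_assoc] using mul_mem (hP i k a (hb ht) b) (two i
      (((((convex_ball s r).isPathConnected ⟨s, mem_ball_self hr⟩).image'
        H0.continuous_extend.continuousOn).joinedIn _ ⟨t, ht, rfl⟩ _ ⟨t', ht', rfl⟩).mono
        (by rintro _ ⟨w, hw, rfl⟩; exact ⟨(hH w).1, hb hw⟩)) a a' b b')
  filter_upwards [ball_mem_nhds s hr] with t ht
  exact ⟨h2 s (mem_ball_self hr) t ht, h2 t ht s (mem_ball_self hr)⟩

theorem Gd.union [Charted M] {U' : Set M} (ho : IsOpen U) (ho' : IsOpen U') (hd : Disjoint U Z)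
    (hd' : Disjoint U' Z) (hc : IsPreconnected U) (hc' : IsPreconnected U')
    (hi : IsPreconnected (U ∩ U')) (hn : (U ∩ U').Nonempty) (h : Gd Z u U) (h' : Gd Z u U') :
    Gd Z u (U ∪ U') := by
  obtain ⟨v, a, b⟩ := hn
  rw [union_eq_iUnion]
  refine Gd.iUnion (v := v) (by rintro (_ | _) <;> assumption) (by rintro (_ | _) <;> assumption)
    (by rintro (_ | _) <;> assumption) ?_ (by rintro (_ | _) <;> assumption)
  rintro (_ | _) (_ | _)
  exacts [(inter_self U').symm ▸ hc', inter_comm U U' ▸ hi, hi, (inter_self U).symm ▸ hc]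

theorem Gd.annulus {a : UnitAddCircle × ℝ → M} (ha : IsOpenEmbedding a) (hd : Disjoint (range a) Z)
    (hc : ∀ s t, IsPreconnected (a '' (univ ×ˢ Icc s t))ᶜ) : Gd Z u (range a) := by
  rintro x y ⟨H, hH⟩ e
  choose w hw using fun t => (hH t).2
  have wc : Continuous w := ha.isInducing.continuous_iff.2
    (((continuous_hm_apply u).comp H.continuous).congr fun t => (hw t).symm)
  have w01 : w 1 = w 0 := ha.injective (by rw [hw, hw, H.source, H.target, e])
  obtain ⟨θ0, h0⟩ := QuotientAddGroup.mk_surjective (w 0).1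
  obtain ⟨θ, hθ, -⟩ := (AddCircle.isCoveringMap_coe (1 : ℝ)).exists_path_lifts
    ⟨fun t => (w t).1, wc.fst⟩ θ0 h0.symm
  replace hθ : ∀ t, (θ t : UnitAddCircle) = (w t).1 := congrFun hθ
  obtain ⟨R, R0, hR⟩ := (isCompact_range wc.snd).isBounded.subset_ball_lt 0 0
  replace hR : ∀ t, |(w t).2| < R := fun t => by simpa using hR ⟨t, rfl⟩
  let β : ℝ → ℝ := fun r => max 0 (min 1 ((5 * R - |r|) / (4 * R)))
  have βc : Continuous β := by fun_prop
  have β1 : ∀ r, |r| ≤ R → β r = 1 := fun r h => by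
    rw [show β r = max 0 (min 1 _) from rfl, min_eq_left ((one_le_div (by positivity)).2
      (by linarith)), max_eq_right zero_le_one]
  have β0 : ∀ r, 5 * R ≤ |r| → β r = 0 := fun r h => max_eq_left (min_le_of_right_le
    (div_nonpos_of_nonpos_of_nonneg (by linarith) (by positivity)))
  have βl : ∀ r s, |β r - β s| ≤ |r - s| / (4 * R) := fun r s => by
    refine (abs_max_sub_max_le_max _ _ _ _).trans (max_le (by simp; positivity)
      ((abs_min_sub_min_le_max _ _ _ _).trans (max_le (by simp; positivity) ?_)))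
    rw [← sub_div, abs_div, abs_of_pos (by positivity : 0 < 4 * R), sub_sub_sub_cancel_left,
      abs_sub_comm r]
    exact div_le_div_of_nonneg_right (abs_abs_sub_abs_le_abs_sub s r) (by positivity)
  have bij : ∀ d, |d| < 2 * R → Function.Bijective fun r => r + d * β r := fun d h => by
    refine ⟨fun r s (e : r + d * β r = s + d * β s) => by_contra fun ne => ?_,
      Continuous.surjective (by fun_prop) ?_ ?_⟩
    · have a : |r - s| = |d| * |β r - β s| := by
        rw [← abs_mul, abs_sub_comm r s, show s - r = d * (β r - β s) by linarith]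
      have b := βl r s
      rw [le_div_iff₀ (by positivity)] at b
      nlinarith [abs_pos.2 (sub_ne_zero.2 (show r ≠ s from ne)), abs_nonneg (β r - β s),
        abs_nonneg d]
    · exact tendsto_id.congr' ((eventually_ge_atTop (5 * R)).mono fun r h => by
        simp [β0 r (h.trans (le_abs_self r))])
    · exact tendsto_id.congr' ((eventually_le_atBot (-(5 * R))).mono fun r h => by
        simp [β0 r (by linarith [neg_le_abs r])])
  have cpt := fun s t : ℝ => (isCompact_univ (X := UnitAddCircle)).prod (isCompact_Icc (a := s) (b := t))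
  obtain ⟨K, Kc, K1, K2⟩ := exists_lift_cpt ha (T := I)
    (F := fun t z => (z.1 + (((θ 0 - θ t) * β z.2 : ℝ) : UnitAddCircle),
      z.2 + ((w 0).2 - (w t).2) * β z.2)) (by fun_prop) (fun t => by
        have := bij ((w 0).2 - (w t).2) (by linarith [abs_sub (w 0).2 (w t).2, hR 0, hR t])
        refine ⟨fun z z' e => ?_, fun z => ?_⟩
        · have b := this.1 (congrArg Prod.snd e)
          exact Prod.ext (by simpa [b] using congrArg Prod.fst e) b
        · obtain ⟨r, hr⟩ := this.2 z.2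
          exact ⟨(z.1 - (((θ 0 - θ t) * β r : ℝ) : UnitAddCircle), r),
            Prod.ext (sub_add_cancel _ _) hr⟩) (cpt (-(5 * R)) (5 * R))
    fun t z hz => by simp [β0 z.2 (le_of_not_ge fun c => hz ⟨trivial, abs_le.1 c⟩)]
  have fz : ∀ {C} {k : M ≃ₜ M}, (∀ x ∉ a '' C, k x = x) → k ∈ Fix Z := fun h x hx =>
    h x fun c => disjoint_left.1 hd (image_subset_range _ _ c) hx
  have ext : ∀ {C C'} {k k' : M ≃ₜ M}, (∀ x ∉ a '' C, k x = x) → (∀ x ∉ a '' C', k' x = x) →
      (∀ z, k (a z) = k' (a z)) → k = k' := fun h h' e => Homeomorph.ext fun x => by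
    by_cases c : x ∈ range a
    · obtain ⟨z, rfl⟩ := c; exact e z
    · rw [h x fun m => c (image_subset_range _ _ m), h' x fun m => c (image_subset_range _ _ m)]
  have K0 : K 0 = 1 := ext (C' := ∅) (K2 0) (fun _ _ => rfl) fun z => by simp [K1]
  have hx : x ∈ Fix Z := H.source ▸ (hH 0).1
  have xu : x u = a (w 0) := by rw [hw, H.source]
  have A : x⁻¹ * K 1 * y ∈ Iso0 (insert u Z) := ⟨⟨⟨fun t => x⁻¹ * K t * H t, by fun_prop⟩,
    by simp [K0], by simp⟩, fun t z hz => hz.elim (fun e => by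
      change x.symm (K t (H t z)) = z
      rw [e, ← hw, K1, β1 _ (hR t).le, x.symm_apply_eq, xu, ← hθ t]
      congr 1
      exact Prod.ext (by rw [← AddCircle.coe_add, ← hθ 0]; congr 1; simp) (by simp))
    (mul_mem (mul_mem (inv_mem hx) (fz (K2 t))) (hH t).1 z)⟩
  have hn : ((θ 0 - θ 1 : ℝ) : UnitAddCircle) = 0 := by rw [AddCircle.coe_sub, hθ, hθ, w01, sub_self]
  have tw : ∀ (μ : ℝ → ℝ) (s t : ℝ), Continuous μ → (∀ r ∉ Icc s t, μ r = 0 ∨ μ r = 1) →
      (w 0).2 ∉ Icc s t → ∃ k ∈ Lam (insert (x u) Z), (∀ z, k (a z) =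
        a (z.1 + (((θ 0 - θ 1) * μ z.2 : ℝ) : UnitAddCircle), z.2)) ∧
        ∀ x ∉ a '' univ, k x = x := fun μ s t a1 a2 a3 => by
    obtain ⟨k, b1, b2⟩ := exists_lift_gen ha
      (F := fun z => (z.1 + (((θ 0 - θ 1) * μ z.2 : ℝ) : UnitAddCircle), z.2))
      (G := fun z => (z.1 - (((θ 0 - θ 1) * μ z.2 : ℝ) : UnitAddCircle), z.2)) (by fun_prop)
      (by fun_prop) (by simp) (by simp) (cpt s t) fun z hz => by
        rcases a2 z.2 fun c => hz ⟨trivial, c⟩ with e | e <;> simp [e, hn]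
    refine ⟨k, Subgroup.subset_closure (Or.inr ⟨_, ((cpt s t).image
      ha.continuous).isClosed.isOpen_compl, hc s t, ?_, b2⟩), b1,
      fun x c => b2 x fun m => c (image_mono (subset_univ _) m)⟩
    rintro z (rfl | hz) m
    · rw [xu, ha.injective.mem_set_image] at m; exact a3 m.2
    · exact disjoint_left.1 hd (image_subset_range _ _ m) hz
  have r0 := abs_lt.1 (hR 0)
  obtain ⟨k, a1, a2, a3⟩ := tw (fun r => β (min r 0)) (-(5 * R)) (-R) (by fun_prop) (fun r hr => by
    rw [mem_Icc, not_and_or, not_le, not_le] at hr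
    exact hr.imp (fun h => β0 _ (by linarith [neg_le_abs (min r 0), min_le_left r 0])) fun h =>
      β1 _ (abs_le.2 ⟨le_min h.le (by linarith), (min_le_right _ _).trans R0.le⟩))
    fun c => by linarith [c.2]
  obtain ⟨k', b1, b2, b3⟩ := tw (fun r => β (max r 0)) R (5 * R) (by fun_prop) (fun r hr => by
    rw [mem_Icc, not_and_or, not_le, not_le] at hr
    exact hr.symm.imp (fun h => β0 _ (by linarith [le_abs_self (max r 0), le_max_left r 0])) fun h =>
      β1 _ (abs_le.2 ⟨le_max_of_le_right (by linarith), max_le h.le R0.le⟩))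
    fun c => by linarith [c.1]
  have B : K 1 = k * k' := ext (K2 1) (fun x c => by rw [Homeomorph.mul_apply, b3 x c, a3 x c])
    fun z => by
      rw [Homeomorph.mul_apply, b2, a2, K1, w01]
      congr 1
      refine Prod.ext ?_ (by simp)
      rcases le_total z.2 0 with h | h <;> simp [h, β1 0 (by simpa using R0.le), hn]
  have C := Lam_conj (inv_mem (mul_mem a1 b1)) x⁻¹
  rw [image_insert_eq, mem_Stab_iff_image.1 (Fix_le_Stab (inv_mem hx)), ← B] at C
  rw [show x⁻¹ (x u) = u from x.symm_apply_apply u] at C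
  convert mul_mem C (Iso0_le_Lam A) using 1
  group

end Pool.Agent.Lib.MP_069d55_gt.K
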