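import Pool.Agent.Lib.MP_069d55_gt.GCpt

/-! The action on the ends. -/

open Set Topology Filter Metric OnePoint Pool.Agent.Lib.MP_1e9af3_an

namespace Pool.Agent.Lib.MP_069d55_gt.K

/-- The standard character of the circle. -/
noncomputable def ec (t : UnitAddCircle) : ℂ := AddCircle.toCircle t

theorem ec_coe (s : ℝ) : ec s = ee s := by
  simp only [ec, AddCircle.toCircle_apply_mk, Circle.coe_exp, ee, tpi]; congr 1; push_cast; ring

theorem ec_cont : Continuous ec := continuous_subtype_val.comp AddCircle.continuous_toCircle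

theorem ec_ne (t : UnitAddCircle) : ec t ≠ 0 := Circle.coe_ne_zero _

theorem TC.exists_retr {M : Type*} [TopologicalSpace M] [T2Space M] {j : Tor → M} {o : Tor}
    (h : TC j o) : ∃ c : M → Tor, Continuous c ∧ ∀ t ≠ o, c (j t) = t := by
  classical
  let c : M → Tor := fun s => if h : ∃ t ≠ o, j t = s then h.choose else o
  have c1 : ∀ t ≠ o, c (j t) = t := fun t ht => by
    have : ∃ t' ≠ o, j t' = j t := ⟨t, ht, rfl⟩
    simp only [c, dif_pos this]; exact h.inj this.choose_spec.1 ht this.choose_spec.2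
  refine ⟨c, continuous_iff_continuousAt.2 fun s => ?_, c1⟩
  by_cases a : ∃ t ≠ o, j t = s
  · obtain ⟨t, ht, rfl⟩ := a
    obtain ⟨g, g0, g1, -, g3⟩ := (h.lh t ht).inv
    refine g0.contAt.congr ?_
    filter_upwards [g3, g0.contAt.eventually_ne (g1.symm ▸ ht)] with y a b
    rw [← c1 _ b, a]
  · rw [ContinuousAt, show c s = o from dif_neg a, _root_.tendsto_nhds]
    intro W W1 W2
    filter_upwards [(W1.isClosed_compl.isCompact.image_of_continuousOn
      (h.cont fun m => m W2)).isClosed.isOpen_compl.mem_nhds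
      fun ⟨t, u, v⟩ => a ⟨t, fun e => u (e ▸ W2), v⟩] with y hy
    by_cases b : ∃ t ≠ o, j t = y
    · obtain ⟨t, u, rfl⟩ := b
      rw [mem_preimage, c1 t u]; exact by_contra fun m => hy ⟨t, m, rfl⟩
    · rwa [mem_preimage, show c y = o from dif_neg b]

theorem circ_per (s : ℝ) : ((s + 1 : ℝ) : UnitAddCircle) = s := AddCircle.coe_add_period 1 s

theorem TC.not_plane {M : Type*} [TopologicalSpace M] [T2Space M] {j : Tor → M} (h : TC j oo)
    {d : ℂ → M} (hd : IsOpenEmbedding d) (hs : ∀ t ≠ oo, j t ∈ range d) : False := by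
  obtain ⟨c, c1, c2⟩ := h.exists_retr
  obtain ⟨l, l1, l2⟩ := MP_1e9af3_an.exists_lift convex_univ isOpen_univ univ_nonempty
    (g := fun z => ec (c (d z)).1) (ec_cont.comp (c1.comp hd.continuous).fst).continuousOn
    fun _ _ => ec_ne _
  have n : ∀ θ : ℝ, (((θ : UnitAddCircle), 0) : Tor) ≠ oo := fun θ => ne_oo (Or.inr rfl)
  choose γ hγ using fun θ : ℝ => hs _ (n θ)
  have γc : Continuous γ := hd.isInducing.continuous_iff.2 ((continuous_iff_continuousAt.2
    fun θ => (h.lh _ (n θ)).contAt.comp (f := fun θ : ℝ => (((θ : UnitAddCircle), 0) : Tor))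
      ((AddCircle.continuous_mk' 1).prodMk continuous_const).continuousAt).congr fun θ => (hγ θ).symm)
  have a : HasWind (fun θ : ℝ => ee (θ + 0)) 0 := ⟨l ∘ γ, (continuousOn_univ.1 l1).comp γc,
    fun θ => by rw [Function.comp_apply, l2 _ trivial, hγ, c2 _ (n θ), ec_coe]; simp,
    fun θ => by
      rw [Function.comp_apply, hd.injective (show d (γ (θ + 1)) = d (γ θ) by rw [hγ, hγ, circ_per])]
      simp⟩
  exact zero_ne_one (a.unique (hasWind_ee 0))

variable {S : Type*} [TopologicalSpace S] {o : Ori S} {p : S → OnePoint ℂ} {q : OnePoint ℂ → S}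
  {E X : Set (OnePoint ℂ)}

theorem BS.neBot (h : BS o p q E X) (x : OnePoint ℂ) : (comap p (𝓝 x)).NeBot :=
  comap_neBot fun t ht => by
    obtain ⟨y, a, b⟩ := h.te.nd _ isOpen_interior ⟨x, mem_interior_iff_mem_nhds.2 ht⟩
    exact ⟨q y, by rw [h.pq y b]; exact interior_subset a⟩

theorem BS.preconn' [PreconnectedSpace S] (h : BS o p q E X) {O : Set (OnePoint ℂ)} (hO : IsOpen O)
    (hc : IsPreconnected O) : IsPreconnected (p ⁻¹' O) :=
  h.preconn hO (h.te.ns _ subset_rfl h.cl O hO hc) fun n => h.te.nd O hO n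

theorem BS.far' (h : BS o p q E X) (f : S ≃ₜ S) {Γ : Set (OnePoint ℂ)} (hΓ : IsCompact Γ)
    (hd : Disjoint Γ E) {x : OnePoint ℂ} (hx : x ∈ E) :
    ∀ᶠ s in comap p (𝓝 x), p (f s) ∉ Γ :=
  mem_of_superset (preimage_mem_comap (h.far (f.isCompact_preimage.2 (h.prop Γ hΓ hd)) hx))
    fun s a b => a ⟨s, b, rfl⟩

theorem CD.front {M : Type*} [TopologicalSpace M] {E X D : Set M} (h : CD (E ∪ X) D) :
    IsCompact (D \ interior D) ∧ Disjoint (D \ interior D) E :=
  ⟨h.1.isCompact.diff isOpen_interior, disjoint_left.2 fun y a b => a.2 (h.2 y (Or.inl b) a.1)⟩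

variable [PreconnectedSpace S]

theorem BS.exists_lim (h : BS o p q E X) (f : S ≃ₜ S) {x : OnePoint ℂ} (hx : x ∈ E) :
    ∃ y ∈ E, Tendsto f (comap p (𝓝 x)) (comap p (𝓝 y)) := by
  have := h.neBot x
  obtain ⟨y, hy⟩ := exists_clusterPt_of_compactSpace (map (p ∘ f) (comap p (𝓝 x)))
  have hyE : y ∈ E := by
    by_contra hyE
    obtain ⟨K, hK, h1, h2⟩ := exists_compact_subset h.clE.isOpen_compl hyE
    obtain ⟨s, a, b⟩ := ((mapClusterPt_iff_frequently.1 hy _
      (mem_interior_iff_mem_nhds.1 h1)).and_eventually (h.far' f hK (disjoint_left.2 h2) hx)).exists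
    exact b a
  refine ⟨y, hyE, tendsto_comap_iff.2 (tendsto_nhds_of_unique_mapClusterPt fun y' hy' => ?_)⟩
  by_contra hyy
  obtain ⟨𝒟, -, h2, -, h3⟩ := h.te.discs h.clE subset_union_left (O := fun _ : Unit => univ)
    (fun _ => isOpen_univ) (by simp [iUnion_const]) (dist_pos.2 hyy)
  obtain ⟨D, hD, hyD⟩ := h3 y hyE
  obtain ⟨d1, d2, -⟩ := h2 D hD
  obtain ⟨T, hT, hT'⟩ := mem_comap.1 (h.far' f d1.front.1 d1.front.2 hx)
  obtain ⟨B, b1, b2, b3, b4⟩ := exists_conn_nhds hT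
  have hB := preimage_mem_comap (m := p) (b1.mem_nhds b2)
  obtain ⟨z, h4, h5⟩ := ((mapClusterPt_iff_frequently.1 hy _
    (mem_interior_iff_mem_nhds.1 hyD)).and_eventually hB).exists
  obtain ⟨z', h6, h7⟩ := ((mapClusterPt_iff_frequently.1 hy' _
    (d1.1.isCompact.isClosed.isOpen_compl.mem_nhds fun h' =>
      lt_irrefl _ (d2 _ h' _ (interior_subset hyD)))).and_eventually hB).exists
  refine h6 (interior_subset (subset_interior_of_preconn ((h.preconn' b1 b4).image (p ∘ f)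
    (h.cont.comp f.continuous).continuousOn) d1.1.isCompact.isClosed ?_ ⟨z, h5, rfl⟩ h4 ⟨z', h7, rfl⟩))
  rintro _ ⟨w, hw, rfl⟩ hwD
  exact by_contra fun hc => hT' (b3 hw) ⟨hwD, hc⟩

/-- `H` is the action on the ends. -/
def EH (p : S → OnePoint ℂ) {E : Set (OnePoint ℂ)} (H : (S ≃ₜ S) →* (E ≃ₜ E)) : Prop :=
  ∀ (f : S ≃ₜ S) (x : E), Tendsto f (comap p (𝓝 x.1)) (comap p (𝓝 (H f x).1))

omit [PreconnectedSpace S] in
theorem BS.lim_unique (h : BS o p q E X) {f : S → S} {x y y' : OnePoint ℂ}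
    (a : Tendsto f (comap p (𝓝 x)) (comap p (𝓝 y)))
    (b : Tendsto f (comap p (𝓝 x)) (comap p (𝓝 y'))) : y = y' :=
  have := h.neBot x
  tendsto_nhds_unique (tendsto_comap_iff.1 a) (tendsto_comap_iff.1 b)

omit [PreconnectedSpace S] in
theorem BS.lim_mem (h : BS o p q E X) {f : S → S} {x y : OnePoint ℂ}
    (a : Tendsto f (comap p (𝓝 x)) (comap p (𝓝 y))) {T W : Set (OnePoint ℂ)} (hT : T ∈ 𝓝 x)
    (hW : IsClosed W) (b : ∀ s, p s ∈ T → p (f s) ∈ W) : y ∈ W :=
  have := h.neBot x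
  hW.mem_of_tendsto (tendsto_comap_iff.1 a) (mem_of_superset (preimage_mem_comap hT) b)

theorem BS.exists_EH (h : BS o p q E X) : ∃ H : (S ≃ₜ S) →* (E ≃ₜ E), EH p H := by
  choose g g1 g2 using fun (f : S ≃ₜ S) (x : E) => h.exists_lim f x.2
  let G : (S ≃ₜ S) → E → E := fun f x => ⟨g f x, g1 f x⟩
  have m : ∀ f f' x, G (f * f') x = G f (G f' x) := fun f f' x =>
    Subtype.ext (h.lim_unique (g2 _ x) ((g2 f (G f' x)).comp (g2 f' x)))
  have i : ∀ x, G 1 x = x := fun x => Subtype.ext (h.lim_unique (g2 _ x) tendsto_id)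
  have c : ∀ f, Continuous (G f) := fun f => Continuous.subtype_mk
    (continuous_iff_continuousAt.2 fun x => (closed_nhds_basis _).tendsto_right_iff.2 fun W hW => by
      obtain ⟨T, a, b⟩ := mem_comap.1 (g2 f x (preimage_mem_comap hW.1))
      filter_upwards [continuous_subtype_val.continuousAt (interior_mem_nhds.2 a)] with y hy
      exact h.lim_mem (g2 f y) (mem_interior_iff_mem_nhds.1 hy) hW.2 b) _
  exact ⟨MonoidHom.mk' (fun f => ⟨⟨G f, G f⁻¹, fun x => by rw [← m, inv_mul_cancel, i],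
    fun x => by rw [← m, mul_inv_cancel, i]⟩, c f, c f⁻¹⟩) fun f f' => Homeomorph.ext (m f f'), g2⟩

variable {H : (S ≃ₜ S) →* (E ≃ₜ E)}

omit [PreconnectedSpace S] in
theorem EH.of_loc (a : EH p H) (h : BS o p q E X) {f : S ≃ₜ S} {ψ : OnePoint ℂ → OnePoint ℂ}
    {x : E} (hψ : ContinuousAt ψ x) {T : Set (OnePoint ℂ)} (hT : T ∈ 𝓝 x.1)
    (e : ∀ s, p s ∈ T → p (f s) = ψ (p s)) : (H f x).1 = ψ x :=
  h.lim_unique (a f x) (tendsto_comap_iff.2 ((hψ.tendsto.comp tendsto_comap).congr'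
    (mem_of_superset (preimage_mem_comap hT) fun s hs => (e s hs).symm)))

omit [PreconnectedSpace S] in
theorem EH.of_lift (a : EH p H) (h : BS o p q E X) {f : S ≃ₜ S} {ψ : OnePoint ℂ ≃ₜ OnePoint ℂ}
    (e : ∀ s, p (f s) = ψ (p s)) (x : E) : (H f x).1 = ψ x :=
  a.of_loc h ψ.continuous.continuousAt univ_mem fun s _ => e s

theorem BS.near (h : BS o p q E X) {ε : ℝ} (hε : 0 < ε) :
    ∀ᶠ g : S ≃ₜ S in 𝓝 1, ∀ s, dist (p (g s)) (p s) < ε := by
  obtain ⟨𝒟, h1, h2, -, h3⟩ := h.te.discs h.clE subset_union_left (O := fun _ : Unit => univ)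
    (fun _ => isOpen_univ) (by simp [iUnion_const]) (half_pos hε)
  have key : ∀ D ∈ 𝒟, ∀ᶠ g : S ≃ₜ S in 𝓝 1, ∀ s, p s ∈ D → dist (p (g s)) (p s) < ε := fun D hD => by
    obtain ⟨d1, d2, -⟩ := h2 D hD
    obtain ⟨D', e1, e2, e3⟩ := d1.1.exists_larger isOpen_thickening
      (self_subset_thickening (half_pos hε) D)
    have o' := isOpen_univ.sdiff e1.isCompact.isClosed
    obtain ⟨a, ha, haE⟩ := h.te.nd _ o' (e1.exists_notMem isOpen_univ (subset_univ _))
    have pa : q a ∈ p ⁻¹' (univ \ D') := by rwa [mem_preimage, h.pq a haE]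
    filter_upwards [ev_mapsTo (h.prop _ d1.front.1 d1.front.2) (isOpen_interior.preimage h.cont)
      (preimage_mono (sdiff_subset.trans e2)), ev_mapsTo isCompact_singleton (o'.preimage h.cont)
      (singleton_subset_iff.2 pa)] with g t1 t2 s hs
    have : p (g s) ∈ D' := by_contra fun hc => by
      have A := (g.isPreconnected_preimage.2 (h.preconn' o' (e1.preconn_diff isPreconnected_univ
        isOpen_univ (subset_univ _)))).image p h.cont.continuousOn
      exact pa.2 (interior_subset (e2 (interior_subset (subset_interior_of_preconn A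
        d1.1.isCompact.isClosed (by
          rintro _ ⟨y, hy, rfl⟩ m; exact by_contra fun h' => hy.2 (interior_subset (t1 ⟨m, h'⟩)))
        ⟨s, ⟨trivial, hc⟩, rfl⟩ hs ⟨_, t2 rfl, rfl⟩))))
    obtain ⟨w, hw, h4⟩ := mem_thickening_iff.1 (e3 this)
    linarith [dist_triangle (p (g s)) w (p s), d2 w hw _ hs]
  have kc := h.prop (⋃ D ∈ 𝒟, interior D)ᶜ
    (isOpen_biUnion fun _ _ => isOpen_interior).isClosed_compl.isCompact (disjoint_left.2 fun x a b =>
      let ⟨D, c1, c2⟩ := h3 x b; a (mem_biUnion c1 c2))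
  have : ∀ᶠ g : S ≃ₜ S in 𝓝 1, ∀ s ∈ p ⁻¹' (⋃ D ∈ 𝒟, interior D)ᶜ, dist (p (g s)) (p s) < ε := by
    have t := (ContinuousMap.tendsto_iff_forall_isCompact_tendstoUniformlyOn.1
      (((ContinuousMap.continuous_postcomp ⟨p, h.cont⟩).comp continuous_toC).tendsto
        (1 : S ≃ₜ S))) _ kc
    exact (Metric.tendstoUniformlyOn_iff.1 t ε hε).mono fun g a s b => dist_comm (p s) _ ▸ a s b
  filter_upwards [(eventually_all_finite h1).2 key, this] with g t1 t2 s
  by_cases hx : p s ∈ ⋃ D ∈ 𝒟, interior D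
  · obtain ⟨D, hD, h'⟩ := mem_iUnion₂.1 hx; exact t1 D hD s (interior_subset h')
  · exact t2 s hx

theorem EH.tendsto (a : EH p H) (h : BS o p q E X) : Tendsto H (𝓝 1) (𝓝 1) := fun A hA => by
  have := h.te.closed
  have : CompactSpace E := isCompact_iff_compactSpace.1 h.clE.isCompact
  obtain ⟨ε, hε, e⟩ := near_of_nhds hA
  rw [mem_map]
  filter_upwards [h.near (show 0 < ε / 3 by positivity)] with g hg
  refine e _ fun x => lt_of_le_of_lt (mem_closedBall.1 (h.lim_mem (a g x)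
    (ball_mem_nhds x.1 (show 0 < ε / 3 by positivity)) (isClosed_closedBall (ε := 2 * ε / 3))
    fun s hs => ?_)) (by linarith)
  rw [mem_closedBall]
  linarith [dist_triangle (p (g s)) (p s) x, hg s, mem_ball.1 hs]

omit [PreconnectedSpace S] in
theorem EH.stab (a : EH p H) (h : Std o p q E X) (f : S ≃ₜ S) :
    H f ∈ Stab {x : E | x.1 ∈ closure X} := by
  have key : ∀ (f : S ≃ₜ S) (x : E), x.1 ∈ closure X → (H f x).1 ∈ closure X := fun f x hx => by
    by_contra c
    obtain ⟨D, d1, d2, d3⟩ := exists_disc_nhds (isClosed_closure.isOpen_compl.mem_nhds c)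
    obtain ⟨T, t1, t2⟩ := mem_comap.1 (a f x (preimage_mem_comap (mem_interior_iff_mem_nhds.1 d2)))
    obtain ⟨y, y1, y2⟩ := mem_closure_iff_nhds.1 hx _ (interior_mem_nhds.2 t1)
    obtain ⟨U, u1, j, c, u2⟩ := h.hand y y2 _ (mem_interior_iff_mem_nhds.1 y1)
    have m : ∀ t ≠ oo, p (f (j t)) ∈ D := fun t ht => t2 (u1 (u2.mem_U ht))
    have n : ∀ t ≠ oo, p (f (j t)) ∉ X := fun t ht c => d3 (m t ht) (subset_closure c)
    obtain ⟨d, e1, rfl⟩ := d1
    exact TC.not_plane (j := p ∘ f ∘ j) ⟨fun t ht => ((u2.tc.lh t ht).comp (lh_homeo f _)).comp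
      (h.lh_p (n t ht)), fun t ht t' ht' e => u2.tc.inj ht ht' (f.injective (h.inj (n t ht) e))⟩ e1
      fun t ht => image_subset_range _ _ (m t ht)
  exact fun x => ⟨fun hx => by simpa using key f⁻¹ _ hx, key f x⟩

end Pool.Agent.Lib.MP_069d55_gt.K
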