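import Pool.Agent.Lib.MP_069d55_gt.GBlob

/-! Oriented collapses; lifting homeomorphisms that permute fibres of the same type. -/

open Set Topology Filter Metric

namespace Pool.Agent.Lib.MP_069d55_gt.K

section null
variable {M : Type*} [MetricSpace M] [CompactSpace M]

theorem finite_of_sep {t : Set M} {c : ℝ} (hc : 0 < c)
    (h : ∀ x ∈ t, ∀ y ∈ t, dist x y < c → x = y) : t.Finite := by
  obtain ⟨s, hs, hcov⟩ := Metric.totallyBounded_iff.1 (isCompact_univ (X := M)).totallyBounded _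
    (half_pos hc)
  refine (hs.biUnion fun y _ => Set.Subsingleton.finite (s := t ∩ ball y (c / 2))
    fun a ha b hb => h a ha.1 b hb.1 ?_).subset fun x hx => ?_
  · linarith [dist_triangle_right a b y, mem_ball.1 ha.2, mem_ball.1 hb.2]
  · obtain ⟨y, hy, h⟩ := mem_iUnion₂.1 (hcov (mem_univ x)); exact mem_biUnion hy ⟨hx, h⟩

theorem glue_null {ι : Type*} {s : Set ι} {O : ι → Set M} {k : ι → M ≃ₜ M}
    (ho : ∀ i ∈ s, IsOpen (O i)) (hd : s.PairwiseDisjoint O) (hk : ∀ i ∈ s, k i ∈ AA (O i))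
    (hn : ∀ ε > 0, {i ∈ s | ¬ Sm ε (O i)}.Finite) :
    ∃ K : M ≃ₜ M, (∀ i ∈ s, ∀ y ∈ O i, K y = k i y) ∧ ∀ y, (∀ i ∈ s, y ∉ O i) → K y = y := by
  classical
  let G : (ι → M ≃ₜ M) → M → M := fun k y => if h : ∃ i ∈ s, y ∈ O i then k h.choose y else y
  have g1 : ∀ k, ∀ i ∈ s, ∀ y ∈ O i, G k y = k i y := fun k i hi y hy => by
    have e : ∃ i ∈ s, y ∈ O i := ⟨i, hi, hy⟩
    exact (dif_pos e).trans (by rw [hd.elim_set e.choose_spec.1 hi y e.choose_spec.2 hy])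
  have g2 : ∀ k y, (∀ i ∈ s, y ∉ O i) → G k y = y := fun k y h => dif_neg fun ⟨i, a, b⟩ => h i a b
  have g3 : ∀ k : ι → M ≃ₜ M, (∀ i ∈ s, k i ∈ AA (O i)) → ∀ y, G (fun i => (k i)⁻¹) (G k y) = y :=
    fun k hk y => by
      by_cases e : ∃ i ∈ s, y ∈ O i
      · obtain ⟨i, a, b⟩ := e
        rw [g1 k i a y b, g1 (fun i => (k i)⁻¹) i a _ ((AA_mem_iff (hk i a) y).2 b)]; simp
      · push Not at e; rw [g2 k y e, g2 (fun i => (k i)⁻¹) y e]
  have gc : Continuous (G k) := continuous_iff_continuousAt.2 fun y => by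
    by_cases e : ∃ i ∈ s, y ∈ O i
    · obtain ⟨i, a, b⟩ := e
      exact (k i).continuous.continuousAt.congr
        (mem_of_superset ((ho i a).mem_nhds b) fun z hz => (g1 k i a z hz).symm)
    push Not at e
    rw [ContinuousAt, g2 k y e, Metric.tendsto_nhds]
    intro ε hε
    filter_upwards [(eventually_all_finite (hn _ (half_pos hε))).2 fun i hi =>
      AA_eventually (hk i hi.1) (e i hi.1), ball_mem_nhds y (half_pos hε)] with z a b
    rw [mem_ball] at b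
    by_cases e' : ∃ i ∈ s, z ∈ O i
    · obtain ⟨i, c, d⟩ := e'
      rw [g1 k i c z d]
      by_cases f : Sm (ε / 2) (O i)
      · linarith [dist_triangle (k i z) z y, f _ ((AA_mem_iff (hk i c) z).2 d) z d]
      · rw [a i ⟨c, f⟩]; linarith
    · push Not at e'; rw [g2 k z e']; linarith
  exact ⟨gc.homeoOfEquivCompactToT2 (f := ⟨G k, G fun i => (k i)⁻¹, g3 k hk,
    g3 _ fun i hi => inv_mem (hk i hi)⟩), g1 k, g2 k⟩

theorem exists_radii {F X : Set M} (iso : ∀ x ∈ X, ∀ᶠ y in 𝓝 x, y ∈ F → y = x) (hX : X ⊆ F) :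
    ∃ B : M → Set M, (∀ x ∈ X, IsOpen (B x) ∧ x ∈ B x ∧ ∀ y ∈ B x, y ∈ F → y = x) ∧
      X.PairwiseDisjoint B ∧ ∀ ε > 0, {x ∈ X | ¬ Sm ε (B x)}.Finite := by
  choose! r r1 r2 using fun x hx => Metric.eventually_nhds_iff_ball.1 (iso x hx)
  refine ⟨fun x => ball x (r x / 2), fun x hx => ⟨isOpen_ball, mem_ball_self (half_pos (r1 x hx)),
    fun y hy => r2 x hx y (ball_subset_ball (half_le_self (r1 x hx).le) hy)⟩,
    fun x hx y hy hne => ball_disjoint_ball ?_, fun ε hε => finite_of_sep hε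
      fun x hx y hy h => (r2 x hx.1 y ?_ (hX hy.1)).symm⟩
  · have a : r x ≤ dist y x := not_lt.1 fun c => hne (r2 x hx y c (hX hy)).symm
    have b : r y ≤ dist x y := not_lt.1 fun c => hne (r2 y hy x c (hX hx))
    linarith [dist_comm x y]
  · refine mem_ball'.2 (h.trans_le (not_lt.1 fun c => hx.2 fun a ha b hb => ?_))
    linarith [dist_triangle_right a b x, mem_ball.1 ha, mem_ball.1 hb]

end null

variable {S M : Type*} [TopologicalSpace S] {o : Ori S}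

/-- `A` and `B` have the same oriented neighbourhoods. -/
def Sim (o : Ori S) (A B : Set S) : Prop := ∃ g : OpenPartialHomeomorph S S,
  A ⊆ g.source ∧ g '' A = B ∧ ∀ s ∈ g.source, Sg o o g s 1

theorem Sim.of_homeo [Charted S] {g : S ≃ₜ S} (hg : g ∈ OPS o) (A : Set S) : Sim o A (g '' A) :=
  ⟨g.toOpenPartialHomeomorph, subset_univ _, rfl, fun s _ => hg s⟩

theorem Sim.refl (A : Set S) : Sim o A A :=
  ⟨.refl S, subset_univ _, image_id _, fun s _ => sg_id o s⟩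

theorem Sim.trans {A B C : Set S} (h : Sim o A B) (h' : Sim o B C) : Sim o A C := by
  obtain ⟨g, a, rfl, c⟩ := h
  obtain ⟨k, d, rfl, f⟩ := h'
  exact ⟨g.trans k, fun s hs => ⟨a hs, d ⟨s, hs, rfl⟩⟩, image_comp k g A,
    fun s hs => (c s hs.1).comp1 (f _ hs.2)⟩

theorem Sim.symm [Charted S] {A B : Set S} (h : Sim o A B) : Sim o B A := by
  obtain ⟨g, a, rfl, c⟩ := h
  refine ⟨g.symm, image_subset_iff.2 fun s hs => g.map_source (a hs), by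
    rw [image_image]; exact (image_congr fun s hs => g.left_inv (a hs)).trans (image_id _),
    fun s hs => ?_⟩
  have := (c _ (g.map_target hs)).inv (lh_oph g.symm (g.map_source (g.map_target hs)))
    (g.eventually_left_inverse (g.map_target hs))
  rwa [g.right_inv hs] at this

section
variable [TopologicalSpace M] {o' : Ori M} {p : S → M} {q : M → S} {E X : Set M}

/-- A collapse with constant sign. -/
structure OB (o : Ori S) (o' : Ori M) (p : S → M) (q : M → S) (E X : Set M) : Prop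
    extends Blob p q E X where
  sgn : ∃ ε, ∀ s, p s ∉ X → Sg o o' p s ε

variable [Charted S]

theorem Blob.ob (h : Blob p q E X) (hc : IsPreconnected (E ∪ X)ᶜ) (o : Ori S) (o' : Ori M) :
    OB o o' p q E X := by
  refine ⟨h, ?_⟩
  by_cases e : ∃ s, p s ∉ X
  · obtain ⟨s, hs⟩ := e
    obtain ⟨ε, hε⟩ := (h.lh_p hs).exists_sg o o'
    exact ⟨ε, fun t ht => hε.prop (hc.image q h.qc) (by
      rintro _ ⟨y, hy, rfl⟩; exact h.lh_p (by rw [h.pq y hy]; exact fun c => hy (Or.inr c)))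
      ⟨_, h.reg hs, h.qp s hs⟩ ⟨_, h.reg ht, h.qp t ht⟩⟩
  · exact ⟨1, fun s hs => absurd ⟨s, hs⟩ e⟩

variable [Charted M]

omit [Charted S] in
theorem Blob.exists_reg [Nonempty S] (h : Blob p q E X) : ∃ s, p s ∉ X := by
  obtain ⟨s⟩ := ‹Nonempty S›
  by_cases c : p s ∈ X
  · have := neBot_ne (p s)
    obtain ⟨y, a, b⟩ := ((eventually_nhdsWithin_of_eventually_nhds (h.iso _ c)).and
      (self_mem_nhdsWithin (s := {p s}ᶜ))).exists
    exact ⟨q y, by rw [h.pq y (mt a b)]; exact fun m => b (a (Or.inr m))⟩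
  · exact ⟨s, c⟩

variable {p' : S → M} {q' : M → S} {E' X' : Set M}

/-- Two collapses with the same sign. -/
structure OB2 (o : Ori S) (o' : Ori M) (p : S → M) (q : M → S) (E X : Set M) (p' : S → M)
    (q' : M → S) (E' X' : Set M) : Prop where
  l : Blob p q E X
  r : Blob p' q' E' X'
  sgn : ∃ ε, (∀ s, p s ∉ X → Sg o o' p s ε) ∧ ∀ s, p' s ∉ X' → Sg o o' p' s ε

omit [Charted S] [Charted M] in
theorem OB.two (h : OB o o' p q E X) : OB2 o o' p q E X p q E X :=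
  ⟨h.toBlob, h.toBlob, h.sgn.imp fun _ a => ⟨a, a⟩⟩

theorem OB2.sg_down (h : OB2 o o' p q E X p' q' E' X') {g : S → S} {G : M → M} {s : S} {d : ℤ}
    (hs : p s ∉ X) (hs' : p' (g s) ∉ X') (hg : Sg o o g s d)
    (e : ∀ᶠ t in 𝓝 s, p' (g t) = G (p t)) : Sg o' o' G (p s) d := by
  obtain ⟨ε, hε, hε'⟩ := h.sgn
  have a : LH G (p s) := by
    refine (((h.l.lh_q (h.l.reg hs)).comp (by rw [h.l.qp s hs]; exact hg.1)).comp (g := p')
      (by rw [Function.comp_apply, h.l.qp s hs]; exact h.r.lh_p hs')).congr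
      ((h.l.lh_p hs).of_comp ?_)
    filter_upwards [e, h.l.ev_reg hs] with t b c
    simp [h.l.qp t c, b]
  have := (hε s hs).of_comp_left a ((hg.comp (hε' _ hs')).congr e)
  rwa [mul_right_comm, (hε s hs).sq, one_mul] at this

theorem OB.sg_down (h : OB o o' p q E X) {g : S → S} {G : M → M} {s : S} {d : ℤ} (hs : p s ∉ X)
    (hs' : p (g s) ∉ X) (hg : Sg o o g s d) (e : ∀ᶠ t in 𝓝 s, p (g t) = G (p t)) :
    Sg o' o' G (p s) d := h.two.sg_down hs hs' hg e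

omit [Charted M] in
theorem OB2.sg_up (h : OB2 o o' p q E X p' q' E' X') {g : S → S} {G : M → M} {s : S} {d : ℤ}
    (hs : p s ∉ X) (hs' : p' (g s) ∉ X') (hl : LH g s) (hg : Sg o' o' G (p s) d)
    (e : ∀ᶠ t in 𝓝 s, p' (g t) = G (p t)) : Sg o o g s d := by
  obtain ⟨ε, hε, hε'⟩ := h.sgn
  have := Sg.of_comp_right hl (hε' _ hs') (((hε s hs).comp hg).congr (EventuallyEq.symm e))
  rwa [mul_left_comm, (hε s hs).sq, mul_one] at this

theorem OB2.ops_up [PreconnectedSpace S] (h : OB2 o o' p q E X p' q' E' X') {Φ : S ≃ₜ S}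
    {φ : M ≃ₜ M} (e : ∀ s, p' (Φ s) = φ (p s)) (hX : ∀ y, φ y ∈ X' ↔ y ∈ X) (hφ : φ ∈ OPS o') :
    Φ ∈ OPS o := fun s =>
  haveI : Nonempty S := ⟨s⟩
  let ⟨t, ht⟩ := h.l.exists_reg
  OPS_of_sg (h.sg_up ht (by rw [e]; exact mt (hX _).1 ht) (lh_homeo Φ t) (hφ _) (.of_forall e)) s

theorem OB.ops_up [PreconnectedSpace S] (h : OB o o' p q E X) {Φ : S ≃ₜ S} {φ : M ≃ₜ M}
    (e : ∀ s, p (Φ s) = φ (p s)) (hX : φ ∈ Stab X) (hφ : φ ∈ OPS o') : Φ ∈ OPS o :=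
  h.two.ops_up e hX hφ

theorem OB2.descend [T1Space M] (h : OB2 o o' p q E X p' q' E' X') {x x' : M} (hx : x ∈ X)
    (hx' : x' ∈ X') (hs : Sim o (p ⁻¹' {x}) (p' ⁻¹' {x'})) :
    ∃ (g : OpenPartialHomeomorph S S) (G : M → M), Sg o' o' G x 1 ∧ G x = x' ∧ Dat2 p p' G x g := by
  obtain ⟨g, a, b, c⟩ := hs
  obtain ⟨G, d, e, f⟩ := h.l.descend h.r hx hx' a b
  refine ⟨g, G, ?_, e, a, e ▸ b, (ev_fibre h.l.cont f).mono fun s hs => (hs.2 s rfl).2⟩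
  obtain ⟨n, hn⟩ := d.exists_sg o' o'
  have := neBot_ne x
  obtain ⟨y, ⟨y1, y2⟩, y3⟩ := ((eventually_nhdsWithin_of_eventually_nhds
    (hn.eventually.and f.eventually_nhds)).and (self_mem_nhdsWithin (s := {x}ᶜ))).exists
  obtain ⟨z1, z2⟩ := y2.self_of_nhds.1 y3
  obtain ⟨s, rfl⟩ : ∃ s, p s = y := ⟨_, h.l.pq y z1⟩
  have z3 := y2.self_of_nhds.2 s rfl
  rwa [y1.unique (h.sg_down (fun m => z1 (Or.inr m)) (fun m => z2 (Or.inr (z3.2 ▸ m))) (c s z3.1)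
    ((h.l.cont.continuousAt.eventually y2).mono fun t ht => (ht.2 t rfl).2))] at hn

end

variable [MetricSpace M] [CompactSpace M] [Charted S] [Charted M] [PreconnectedSpace S]
  [PreconnectedSpace M] {o' : Ori M} {p p' : S → M} {q q' : M → S} {E X E' X' : Set M}

theorem OB2.lift_col (h : OB2 o o' p q E X p' q' E' X') {φ : M ≃ₜ M} (hφ : φ ∈ OPS o')
    (hE : ∀ y, φ y ∈ E' ↔ y ∈ E) (hX : ∀ y, φ y ∈ X' ↔ y ∈ X) {X₁ : Set M}
    {g : M → OpenPartialHomeomorph S S} (hg : ∀ x ∈ X ∩ X₁, Dat2 p p' φ x (g x))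
    (hs : ∀ x ∈ X \ X₁, Sim o (p ⁻¹' {x}) (p' ⁻¹' {φ x}))
    {O : M → Set M} (hO : ∀ x ∈ X \ X₁, O x ∈ 𝓝 x) : ∃ Φ ∈ OPS o, ∃ t ∈ OPS o',
      (∀ s, p' (Φ s) = φ (t (p s))) ∧ (∀ y ∈ E ∪ X, t y = y) ∧
      (∀ y, t y = y ∨ ∃ x ∈ X \ X₁, y ∈ O x ∧ t y ∈ O x) ∧
      ∀ s, p s ∈ X ∩ X₁ → Φ s = g (p s) s := by
  classical
  obtain ⟨B, B1, B2, B3⟩ := exists_radii h.l.iso subset_union_right
  have hU : ∀ x ∈ X \ X₁, B x ∩ interior (O x) ∈ 𝓝 x := fun x hx =>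
    inter_mem ((B1 x hx.1).1.mem_nhds (B1 x hx.1).2.1) (interior_mem_nhds.2 (hO x hx))
  have key : ∀ x ∈ X \ X₁, ∃ g' : OpenPartialHomeomorph S S, ∃ k ∈ AA (B x ∩ interior (O x)),
      k x = x ∧ Sg o' o' k x 1 ∧ Dat2 p p' (φ ∘ k) x g' := fun x hx => by
    obtain ⟨g', G, a, b, c⟩ := h.descend hx.1 ((hX x).2 hx.1) (hs x hx)
    have d := a.comp1 (inv_mem hφ _)
    have e : (φ.symm ∘ G) x = x := by simp [b]
    obtain ⟨k, k1, k2⟩ := germ_loc d e (hU x hx)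
    have f := k2.self_of_nhds.trans e
    refine ⟨g', k, k1, f, d.congr (EventuallyEq.symm k2), c.1, by simpa [f, b] using c.2.1, ?_⟩
    filter_upwards [c.2.2, ev_fibre h.l.cont k2] with s u v
    simp [u, v]
  have : Nonempty (OpenPartialHomeomorph S S) := ⟨.refl S⟩
  choose! g' k k1 k2 k3 k4 using key
  obtain ⟨t, t1, t2⟩ := glue_null (fun x hx => (B1 x hx.1).1.inter isOpen_interior)
    ((B2.subset sdiff_subset).mono fun _ => inter_subset_left) k1 fun ε hε => (B3 ε hε).subset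
      fun x hx => ⟨hx.1.1, fun c => hx.2 (c.mono inter_subset_left)⟩
  have t3 : ∀ y, t y = y ∨ ∃ x ∈ X \ X₁, y ∈ B x ∩ interior (O x) ∧ t y = k x y := fun y =>
    or_iff_not_imp_right.2 fun c => t2 y fun x hx m => c ⟨x, hx, m, t1 x hx y m⟩
  have t4 : ∀ y ∈ E ∪ X, t y = y := fun y hy => (t3 y).elim id fun ⟨x, a, b, c⟩ => by
    rw [c, (B1 x a.1).2.2 y b.1 hy, k2 x a]
  have t5 : ∀ x ∈ X \ X₁, ∀ᶠ y in 𝓝 x, t y = k x y := fun x hx => mem_of_superset (hU x hx) (t1 x hx)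
  have t6 : t ∈ OPS o' := by
    rcases (X \ X₁).eq_empty_or_nonempty with e | ⟨x, hx⟩
    · exact fun y => sg_of_id (.of_forall fun z => t2 z (by simp [e]))
    · exact OPS_of_sg ((k3 x hx).congr (EventuallyEq.symm (t5 x hx)))
  have st : ∀ A ⊆ E ∪ X, ∀ A' : Set M, (∀ y, φ y ∈ A' ↔ y ∈ A) → ∀ y, (φ * t) y ∈ A' ↔ y ∈ A :=
    fun A a A' b y => (b _).trans (Fix_le_Stab (fun y hy => t4 y (a hy)) y)
  obtain ⟨Φ, a, b⟩ := h.l.lift2 h.r (st E subset_union_left _ hE) (st X subset_union_right _ hX)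
    (g := fun x => if x ∈ X₁ then g x else g' x) fun x hx => by
      by_cases c : x ∈ X₁
      · rw [if_pos c]
        obtain ⟨d, e, f⟩ := hg x ⟨hx, c⟩
        refine ⟨d, by simpa [t4 x (Or.inr hx)] using e, ?_⟩
        filter_upwards [f, ev_fibre h.l.cont ((B1 x hx).1.mem_nhds (B1 x hx).2.1)] with s u v
        rw [u, Homeomorph.mul_apply, t2 _ fun y hy m =>
          hy.2 (B2.elim_set hx hy.1 _ v m.1 ▸ c)]
      · rw [if_neg c]
        obtain ⟨d, e, f⟩ := k4 x ⟨hx, c⟩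
        refine ⟨d, by simpa [t4 x (Or.inr hx), k2 x ⟨hx, c⟩] using e, ?_⟩
        filter_upwards [f, ev_fibre h.l.cont (t5 x ⟨hx, c⟩)] with s u v
        simp [u, v]
  refine ⟨Φ, h.ops_up a (st X subset_union_right _ hX) (mul_mem hφ t6), t, t6, a, t4, fun y =>
    (t3 y).imp_right fun ⟨x, c, d, e⟩ => ⟨x, c, interior_subset d.2, interior_subset
      (e ▸ (AA_mem_iff (k1 x c) y).2 d).2⟩, fun s hs => ?_⟩
  simpa [hs.2] using (b _ hs.1).self_of_nhdsSet s rfl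

theorem OB.lift_col (h : OB o o' p q E X) {φ : M ≃ₜ M} (hφ : φ ∈ OPS o') (hE : φ ∈ Stab E)
    (hX : φ ∈ Stab X) {X₁ : Set M} {g : M → OpenPartialHomeomorph S S}
    (hg : ∀ x ∈ X ∩ X₁, Dat p φ x (g x)) (hs : ∀ x ∈ X \ X₁, Sim o (p ⁻¹' {x}) (p ⁻¹' {φ x}))
    {O : M → Set M} (hO : ∀ x ∈ X \ X₁, O x ∈ 𝓝 x) : ∃ Φ ∈ OPS o, ∃ t ∈ OPS o',
      (∀ s, p (Φ s) = φ (t (p s))) ∧ (∀ y ∈ E ∪ X, t y = y) ∧
      (∀ y, t y = y ∨ ∃ x ∈ X \ X₁, y ∈ O x ∧ t y ∈ O x) ∧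
      ∀ s, p s ∈ X ∩ X₁ → Φ s = g (p s) s := h.two.lift_col hφ hE hX hg hs hO

/-- Lifting a homeomorphism supported in an open set. -/
theorem OB.lift_AA (h : OB o o' p q E X) {φ : M ≃ₜ M} (hφ : φ ∈ OPS o') (hE : φ ∈ Stab E)
    (hX : φ ∈ Stab X) (hs : ∀ x ∈ X, Sim o (p ⁻¹' {x}) (p ⁻¹' {φ x})) {Ω : Set M} (hΩ : IsOpen Ω)
    (hA : φ ∈ AA Ω) {O : M → Set M} (hO : ∀ x ∈ X, O x ∈ 𝓝 x) : ∃ Φ ∈ OPS o, ∃ ψ ∈ OPS o',
      (∀ s, p (Φ s) = ψ (p s)) ∧ (∀ y ∈ E ∪ X, ψ y = φ y) ∧ (∀ s, p s ∉ Ω → Φ s = s) ∧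
      (∀ y ∉ Ω, ψ y = y) ∧ ∀ y, ∃ z, ψ y = φ z ∧ (z = y ∨ ∃ x ∈ X, y ∈ O x ∧ z ∈ O x) := by
  obtain ⟨Φ, a, t, b, c, d, e, f⟩ := h.lift_col hφ hE hX (X₁ := Ωᶜ)
    (fun x hx => h.dat_refl (AA_eventually hA hx.2)) (fun x hx => hs x hx.1)
    (O := fun x => O x ∩ Ω) fun x hx => inter_mem (hO x hx.1) (hΩ.mem_nhds (not_not.1 hx.2))
  have g : ∀ y ∉ Ω, φ (t y) = y := fun y hy => by
    rw [(e y).resolve_right fun ⟨_, _, m, _⟩ => hy m.2, AA_fix hA hy]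
  refine ⟨Φ, a, φ * t, mul_mem hφ b, c, fun y hy => congrArg φ (d y hy), fun s hs => ?_, g,
    fun y => ⟨t y, rfl, (e y).imp_right fun ⟨x, u, v, w⟩ => ⟨x, u.1, v.1, w.1⟩⟩⟩
  by_cases m : p s ∈ X
  exacts [f s ⟨m, hs⟩, (h.inj m ((c s).trans (g _ hs)).symm).symm]

end Pool.Agent.Lib.MP_069d55_gt.K
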