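import Pool.Agent.Lib.MP_069d55_gt.GGerm
import Pool.Agent.Lib.MP_069d55_gt.GEq
import Pool.Agent.Lib.MP_069d55_gt.CDefs

/-! Infinite genus: reduction of the negative case to the group of the ends. -/

open Set Topology Filter Metric OnePoint

namespace Pool.Agent.Lib.MP_069d55_gt.G

open K

section abstract
variable {G G' : Type} [Group G] [TopologicalSpace G] [Group G'] [TopologicalSpace G']

theorem neg_of_surj (e : G →* G') (hc : Tendsto e (𝓝 1) (𝓝 1)) (hs : Function.Surjective e)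
    (h : Neg G) : Neg G' := fun W ρ h1 h2 v => by
  have := h W (ρ.comp e) (fun v => hc (h1 v))
    (fun v w => (h2 v w).subset fun u ⟨g, hg⟩ => ⟨e g, hg⟩) v
  refine this.subset fun u ⟨g, hg⟩ => ?_
  obtain ⟨g, rfl⟩ := hs g
  exact ⟨g, hg⟩

theorem neg_of_ext (η : G →* G') (hs : Function.Surjective η)
    (ho : ∀ V : Subgroup G, (V : Set G) ∈ 𝓝 1 → (V.map η : Set G') ∈ 𝓝 1) (h : Neg G') {W : Type}
    (ρ : G →* Equiv.Perm W) (h1 : ∀ v, {g | ρ g v = v} ∈ 𝓝 (1 : G))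
    (h2 : ∀ v w, {u | ∃ g, ρ g v = v ∧ ρ g w = u}.Finite)
    (hk : ∀ w, {u | ∃ g, η g = 1 ∧ ρ g w = u}.Finite) (v : W) : {u | ∃ g, ρ g v = u}.Finite := by
  let r : Setoid W := ⟨fun a b => ∃ g, η g = 1 ∧ ρ g a = b, fun a => ⟨1, by simp⟩,
    fun ⟨g, a, b⟩ => ⟨g⁻¹, by simp [a], by simp [← b]⟩,
    fun ⟨g, a, b⟩ ⟨g', a', b'⟩ => ⟨g' * g, by simp [a, a'], by simp [b, b']⟩⟩
  have c : ∀ g a b, r a b → r (ρ g a) (ρ g b) := fun g a b ⟨k, c, d⟩ =>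
    ⟨g * k * g⁻¹, by simp [c], by simp [d]⟩
  let τ : G →* Equiv.Perm (Quotient r) := MonoidHom.mk' (fun g => Quotient.congr (ρ g)
    fun a b => ⟨c g a b, fun e => by simpa using c g⁻¹ _ _ e⟩) fun a b => Equiv.ext fun x => by
      obtain ⟨x, rfl⟩ := x.exists_rep; simp
  have t : ∀ g w, τ g ⟦w⟧ = ⟦ρ g w⟧ := fun _ _ => rfl
  let σ := η.liftOfSurjective hs ⟨τ, fun g hg => Equiv.ext fun x => by
    obtain ⟨x, rfl⟩ := x.exists_rep
    exact (Quotient.sound ⟨g, hg, rfl⟩ : (⟦x⟧ : Quotient r) = ⟦ρ g x⟧).symm⟩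
  have s : ∀ g w, σ (η g) ⟦w⟧ = ⟦ρ g w⟧ := fun g w => by
    rw [MonoidHom.liftOfRightInverse_comp_apply, t]
  have := h _ σ (fun x => by
    obtain ⟨x, rfl⟩ := x.exists_rep
    refine mem_of_superset (ho ((MulAction.stabilizer (Equiv.Perm W) x).comap ρ) (h1 x)) ?_
    rintro _ ⟨g, hg, rfl⟩
    exact (s g x).trans (congrArg _ hg)) (fun x y => by
    obtain ⟨x, rfl⟩ := x.exists_rep
    obtain ⟨y, rfl⟩ := y.exists_rep
    refine ((h2 x y).image (Quotient.mk r)).subset ?_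
    rintro _ ⟨g, hg, rfl⟩
    obtain ⟨g, rfl⟩ := hs g
    obtain ⟨k, a, b⟩ := Quotient.exact ((s g x).symm.trans hg)
    exact ⟨_, ⟨k * g, by simpa using b, rfl⟩, by rw [← s, map_mul, a, one_mul]⟩) ⟦v⟧
  refine (this.biUnion fun x _ => hk x.out).subset ?_
  rintro _ ⟨g, rfl⟩
  exact mem_biUnion (show ⟦ρ g v⟧ ∈ _ from ⟨η g, s g v⟩) (Quotient.mk_out (s := r) (ρ g v))

omit [TopologicalSpace G]

/-- All points have finitely many images under `A`. -/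
def FO {W : Type} (ρ : G →* Equiv.Perm W) (A : Set G) : Prop :=
  ∀ w, {u | ∃ g ∈ A, ρ g w = u}.Finite

variable {W : Type} {ρ : G →* Equiv.Perm W} {A B D : Set G}

theorem FO.mul (h : FO ρ A) (h' : FO ρ B) (e : ∀ g ∈ D, ∃ a ∈ A, a⁻¹ * g ∈ B) : FO ρ D :=
  fun w => ((h' w).biUnion fun u _ => h u).subset (by
    rintro _ ⟨g, hg, rfl⟩
    obtain ⟨a, ha, hb⟩ := e g hg
    exact mem_biUnion (show _ ∈ _ from ⟨_, hb, rfl⟩) ⟨a, ha, by simp⟩)

theorem FO.conj (h : FO ρ A) (k : G) (e : ∀ g ∈ D, k⁻¹ * g * k ∈ A) : FO ρ D :=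
  fun w => ((h (ρ k⁻¹ w)).image (ρ k)).subset (by
    rintro _ ⟨g, hg, rfl⟩
    exact ⟨_, ⟨_, e g hg, rfl⟩, by simp⟩)

end abstract

/-- The inclusion. -/
def CO.val {Y : Type} [TopologicalSpace Y] {A : Subgroup (Y ≃ₜ Y)} : CO A →* (Y ≃ₜ Y) := A.subtype

variable {S : Type} [TopologicalSpace S] {o : Ori S} {p : S → OnePoint ℂ} {q : OnePoint ℂ → S}
  {E X : Set (OnePoint ℂ)} [Charted S] {H : (S ≃ₜ S) →* (E ≃ₜ E)}

omit [Charted S] in
theorem exists_cd (h : BS o p q E X) {A : Set E} (hA : IsClopen A) :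
    ∃ D, CD (E ∪ X) D ∧ ∀ x : E, x.1 ∈ D ↔ x ∈ A := by
  have := h.te.compactSpace
  have := h.te.tdSpace
  have c : ∀ {A : Set E}, IsClosed A → IsClosed (Subtype.val ⁻¹' (Subtype.val '' A) : Set ↥(E ∪ X)) :=
    fun a => (h.clE.isClosedMap_subtype_val _ a).preimage continuous_subtype_val
  obtain ⟨B, b1, b2, b3⟩ := exists_clopen_between (c hA.1) (c hA.compl.1).isOpen_compl
    (by rintro y ⟨x, a, b⟩ ⟨x', a', b'⟩; exact a' (Subtype.ext (b.trans b'.symm) ▸ a))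
  obtain ⟨D, d1, -, d2, d3⟩ := h.te.exists_disc isOpen_univ isPreconnected_univ univ_nonempty b1
    fun _ _ => trivial
  exact ⟨D, ⟨d1, fun y hy c => d2 ⟨y, hy⟩ (d3 ⟨y, hy⟩ c)⟩, fun x => ⟨fun c => by_contra fun m =>
    b3 (d3 ⟨x, Or.inl x.2⟩ c) ⟨x, m, rfl⟩, fun c =>
    interior_subset (d2 ⟨x, Or.inl x.2⟩ (b2 ⟨x, c, rfl⟩))⟩⟩

omit [Charted S] in
theorem exists_cd_nhds (h : BS o p q E X) {x : OnePoint ℂ} (hx : x ∈ E) {U : Set (OnePoint ℂ)}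
    (hU : U ∈ 𝓝 x) : ∃ D, CD (E ∪ X) D ∧ x ∈ D ∧ D ⊆ U := by
  obtain ⟨𝒟, -, b, -, d⟩ := h.te.discs (E := {x}) isClosed_singleton (by simp [hx])
    (O := fun _ : Unit => interior U) (fun _ => isOpen_interior)
    (by simpa [iUnion_const, mem_interior_iff_mem_nhds] using hU) one_pos
  obtain ⟨D, d1, d2⟩ := d x rfl
  obtain ⟨a, -, ⟨_, c⟩, -⟩ := b D d1
  exact ⟨D, a, interior_subset d2, c.trans interior_subset⟩

theorem _root_.Pool.Agent.Lib.MP_069d55_gt.K.CD.clopen {D : Set (OnePoint ℂ)} (h : CD (E ∪ X) D) :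
    IsClopen (Subtype.val ⁻¹' D : Set E) :=
  ⟨h.1.isCompact.isClosed.preimage continuous_subtype_val, isOpen_iff_mem_nhds.2 fun x hx =>
    continuous_subtype_val.continuousAt (mem_interior_iff_mem_nhds.1 (h.2 _ (Or.inl x.2) hx))⟩

omit [Charted S] in
theorem AA_of_ends (h : BS o p q E X) {g : S ≃ₜ S}
    (hg : ∀ x ∈ E, ∀ᶠ s in comap p (𝓝 x), g s = s) : g ∈ AA univ := by
  refine ⟨p ⁻¹' (interior {y | ∀ s, p s = y → g s = s})ᶜ, h.prop _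
    isOpen_interior.isClosed_compl.isCompact (disjoint_left.2 fun x a b => a
      (mem_interior_iff_mem_nhds.2 (eventually_comap.1 (hg x b)))), subset_univ _,
    fun s hs => interior_subset (not_not.1 hs) s rfl⟩

variable (o p H) in
/-- Elements that act trivially on the ends and are the identity near the ends outside `T`. -/
def RT (T : Set E) : Set (CO (OPS o)) :=
  {g | H g.1 = 1 ∧ ∀ x ∉ T, ∀ᶠ s in comap p (𝓝 x.1), g.1 s = s}

omit [Charted S] in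
theorem inv_mul_ev {f g : S ≃ₜ S} {l : Filter S} (h : ∀ᶠ s in l, g s = f s) :
    ∀ᶠ s in l, (g⁻¹ * f) s = s := h.mono fun s hs => by simp [← hs]

variable [T2Space S] [ConnectedSpace S] {W : Type} {ρ : CO (OPS o) →* Equiv.Perm W}

omit [T2Space S] in
theorem real_all (h : Std o p q E X) (a : EH p H) {D : Set (OnePoint ℂ)} (hD : IsClosed D)
    (hD' : ∀ y ∈ E ∪ X, y ∈ D → y ∈ interior D) (hc : IsPreconnected (interior D)) {φ : E ≃ₜ E}
    (hφ : φ ∈ Aut (genusEnds E X)) (hm : ∀ x, (φ x).1 ∈ D ↔ x.1 ∈ D) :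
    ∃ g ∈ OPS o, (∀ s, p s ∉ D → g s = s) ∧ (∀ x : E, x.1 ∈ D → H g x = φ x) ∧
      ∀ x : E, x.1 ∉ D → H g x = x := by
  classical
  let f : OnePoint ℂ → OnePoint ℂ := fun y => if h : y ∈ E then φ ⟨y, h⟩ else y
  have f1 : ∀ x : E, f x = φ x := fun x => dif_pos x.2
  obtain ⟨Φ, a1, ψ, -, a2, a3, a4, a5⟩ := h.real_loc (A := (E ∪ X) ∩ D) (φ := f) isOpen_interior hc
    (h.cl.inter hD) (by
      convert h.cl.inter (isOpen_interior (s := D)).isClosed_compl using 1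
      exact Set.ext fun y => ⟨fun c => ⟨c.1, fun m => c.2 ⟨c.1, interior_subset m⟩⟩,
        fun c => ⟨c.1, fun m => c.2 (hD' y c.1 m.2)⟩⟩) inter_subset_left
    (fun y c => hD' y c.1 c.2) (by
      refine ContinuousOn.mono (s := E) ?_ inter_subset_right
      rw [continuousOn_iff_continuous_domRestrict]
      exact (continuous_subtype_val.comp φ.continuous).congr fun x => (f1 x).symm)
    ⟨fun y c => by
      rw [f1 ⟨y, c.2⟩]; exact ⟨⟨Or.inl (φ _).2, (hm _).2 c.1.2⟩, (φ _).2⟩, fun y c y' c' e => by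
      rw [f1 ⟨y, c.2⟩, f1 ⟨y', c'.2⟩] at e
      exact congrArg Subtype.val (φ.injective (Subtype.ext e)), fun y c => ⟨φ.symm ⟨y, c.2⟩,
      ⟨⟨Or.inl (φ.symm _).2, (hm _).1 (by simpa using c.1.2)⟩, (φ.symm _).2⟩, by simp [f1]⟩⟩
    fun y c => by rw [f1 ⟨y, c.2⟩]; exact hφ ⟨y, c.2⟩
  exact ⟨Φ, a1, fun s hs => a3 s fun c => hs (interior_subset c), fun x hx => Subtype.ext
    ((a.of_lift h.toBS a2 x).trans ((a4 x ⟨⟨Or.inl x.2, hx⟩, x.2⟩).trans (f1 x))),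
    fun x hx => Subtype.ext ((a.of_lift h.toBS a2 x).trans (a5 x ⟨Or.inl x.2, fun c => hx c.2⟩))⟩

/-- The action on the ends. -/
noncomputable def eta (h : Std o p q E X) (a : EH p H) : CO (OPS o) →* CO (Aut (genusEnds E X)) :=
  (H.comp CO.val).codRestrict _ fun g => a.stab h g.1

omit [T2Space S] in
theorem eta_surj (h : Std o p q E X) (a : EH p H) : Function.Surjective (eta h a) := fun φ =>
  let ⟨g, b, _, c, _⟩ := real_all h a isClosed_univ (by simp) (by simpa using isPreconnected_univ)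
    φ.2 fun _ => Iff.rfl
  ⟨⟨g, b⟩, Subtype.ext (Homeomorph.ext fun x => c x trivial)⟩

omit [T2Space S] in
theorem eta_cont (h : Std o p q E X) (a : EH p H) : Tendsto (eta h a) (𝓝 1) (𝓝 1) :=
  CO.inducing'.tendsto_nhds_iff.2 ((a.tendsto h.toBS).comp CO.inducing'.continuous.continuousAt)

omit [T2Space S] in
theorem eta_open (h : Std o p q E X) (a : EH p H) (V : Subgroup (CO (OPS o)))
    (hV : (V : Set (CO (OPS o))) ∈ 𝓝 1) : (V.map (eta h a) : Set (CO (Aut (genusEnds E X)))) ∈ 𝓝 1 := by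
  have : CompactSpace E := isCompact_iff_compactSpace.1 h.clE.isCompact
  obtain ⟨K, k1, k2⟩ := nhds_one_fix (CO.ev' hV)
  obtain ⟨𝒟, d1, d2, d3, d4⟩ := h.te.discs h.clE subset_union_left
    (O := fun _ : Unit => (p '' K)ᶜ) (fun _ => (k1.image h.cont).isClosed.isOpen_compl)
    (by rintro x hx; exact mem_iUnion.2 ⟨(), fun ⟨s, _, e⟩ => h.notE s (e ▸ hx)⟩) one_pos
  filter_upwards [CO.ev ((eventually_all_finite d1).2 fun D hD => ev_mapsTo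
    (d2 D hD).1.clopen.1.isCompact (d2 D hD).1.clopen.2 subset_rfl)] with φ hφ
  choose! g g1 g2 g3 g4 using fun D hD => real_all h a (d2 D hD).1.1.isCompact.isClosed (d2 D hD).1.2
    (d2 D hD).1.1.preconn_interior φ.2 fun x => ⟨fun c => by
      obtain ⟨D', e1, e2⟩ := d4 x x.2
      exact d3.elim_set e1 hD _ (hφ D' e1 (interior_subset (s := D') e2)) c ▸ interior_subset e2,
      fun c => hφ D hD c⟩
  obtain ⟨_, ⟨v, v1, rfl⟩, v2, -⟩ := glue d1 (fun D => H (g D)) (fun D => Subtype.val ⁻¹' D)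
    (fun D hD x hx => g3 D hD x hx ▸ hφ D hD hx) (fun D hD D' hD' n x hx => g4 D hD x fun c =>
      n (d3.elim_set hD hD' _ c hx)) (V.map (H.comp CO.val)) fun D hD =>
      ⟨⟨g D, g1 D hD⟩, k2 _ (fun s hs => g2 D hD s fun c =>
        (d2 D hD).2.2.1.choose_spec c ⟨s, hs, rfl⟩) _, rfl⟩
  refine ⟨v, v1, Subtype.ext (Homeomorph.ext fun x => ?_)⟩
  obtain ⟨D, e1, e2⟩ := d4 x x.2
  exact (v2 D e1 x (interior_subset (s := D) e2)).trans (g3 D e1 x (interior_subset e2))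

theorem AA_triv (h : Std o p q E X) {e : OnePoint ℂ} (he : e ∈ E) (hX : e ∈ closure X)
    (h1 : ∀ v, {g | ρ g v = v} ∈ 𝓝 1) (h2 : ∀ v w, {u | ∃ g, ρ g v = v ∧ ρ g w = u}.Finite)
    {g : CO (OPS o)} (hg : g.1 ∈ AA univ) (v : W) : ρ g v = v := by
  have c : GC o (((MulAction.stabilizer (Equiv.Perm W) v).comap ρ).map CO.val)
      (ρ.ker.map CO.val) :=
    { V_open := (CO.ev' (h1 v)).mono fun g a b => ⟨⟨g, b⟩, a b, rfl⟩
      N_le := Subgroup.map_mono fun g hg => by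
        change ρ g v = v
        rw [MonoidHom.mem_ker.1 hg]; rfl
      N_conj := by
        rintro k hk _ ⟨n, hn, rfl⟩
        exact ⟨_, ρ.normal_ker.conj_mem n hn ⟨k, hk⟩, rfl⟩
      N_lim := fun n hn hl => ⟨⟨n, hn⟩, Equiv.ext fun w => by
        obtain ⟨_, ⟨u, hu, rfl⟩, hu'⟩ := hl _ (CO.ev' ((eventually_all_finite (h2 v w)).2
          fun u _ => h1 u))
        let m : CO (OPS o) := ⟨n, hn⟩
        have : ρ (u * m * u⁻¹) (ρ u w) = ρ u w := hu' (u * m * u⁻¹).2 (ρ u w) ⟨u, hu, rfl⟩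
        simpa using this, rfl⟩ }
  obtain ⟨g', a, b⟩ := h.cpt_le c he hX hg
  exact Subtype.ext b ▸ a

section light
variable (h : Std o p q E X) (a : EH p H) {e : OnePoint ℂ} (he : e ∈ E) (hX : e ∈ closure X)
  (h1 : ∀ v, {g | ρ g v = v} ∈ 𝓝 1) (h2 : ∀ v w, {u | ∃ g, ρ g v = v ∧ ρ g w = u}.Finite)
include h he hX h1 h2

theorem light_genus [Nonempty W] : ∃ T, IsClopen T ∧ ⟨e, he⟩ ∈ T ∧ FO ρ (RT o p H T) := by
  obtain ⟨v⟩ := ‹Nonempty W›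
  obtain ⟨K, k1, k2⟩ := nhds_one_fix (CO.ev' (h1 v))
  obtain ⟨D, d1, d2, d3⟩ := exists_cd_nhds h.toBS he (h.far k1 he)
  obtain ⟨Δ, e1, e2, e3⟩ := sphere_compl d1.1 (h.cl.inter d1.1.isCompact.isClosed).isCompact
    fun y hy => d1.2 y hy.1 hy.2
  have n : ∀ y ∈ E ∪ X, y ∈ Δ → y ∉ D := fun y b c d => disjoint_left.1 e3 c ⟨b, d⟩
  refine ⟨_, d1.clopen, d2, fun w => (h2 v w).subset ?_⟩
  rintro _ ⟨g, hg, rfl⟩
  obtain ⟨k, k3, k4⟩ := h.fix_cd g.2 ⟨e1, fun y b c => e2 fun d => n y b c (interior_subset d)⟩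
    (fun x hx => hg.2 ⟨x, hx.1⟩ (n x (Or.inl hx.1) hx.2)) he hX fun c => n e (Or.inl he) c d2
  let m : CO (OPS o) := ⟨k, h.AA_le ⟨e, he⟩ k3⟩
  have : ρ (m⁻¹ * g) v = v := k2 _ (fun s hs => by
    change k.symm (g.1 s) = s
    rw [← k4 s (interior_subset (e2 fun c => d3 (interior_subset c) ⟨s, hs, rfl⟩)),
      k.symm_apply_apply]) (m⁻¹ * g).2
  exact ⟨g, by
    rw [← AA_triv h he hX h1 h2 (g := m⁻¹) (inv_mem k3) (ρ g v)]; simpa using this, rfl⟩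

omit h1 h2 in
include a in
theorem light_union {T T' : Set E} (c : IsClopen T) (c' : IsClopen T') (m : ⟨e, he⟩ ∈ T)
    (m' : ⟨e, he⟩ ∈ T') (l : FO ρ (RT o p H T)) (l' : FO ρ (RT o p H T')) :
    FO ρ (RT o p H (T ∪ T')) := l'.mul l fun g hg => by
  obtain ⟨D, d1, d2⟩ := exists_cd h.toBS (c'.diff c)
  obtain ⟨U, u1, u2⟩ := (mem_nhds_induced _ _ _).1 ((c.inter c').2.mem_nhds ⟨m, m'⟩)
  obtain ⟨k, k1, k2, k3, k4⟩ := h.germ_ext a g.2 hg.1 d1 he hX (fun c => ((d2 ⟨e, he⟩).1 c).2 m) u1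
  have k5 : ∀ x ∉ T', ∀ᶠ s in comap p (𝓝 x.1), k s = s := fun x hx =>
    k4 x x.2 (fun c => hx ((d2 x).1 c).1) fun c => hx (u2 c).2
  refine ⟨⟨k, k1⟩, ⟨k2, k5⟩, (map_mul H k⁻¹ g.1).trans (by simp [k2, hg.1]), fun x hx => ?_⟩
  by_cases b : x ∈ T'
  · exact inv_mul_ev (k3 x ⟨x.2, (d2 x).2 ⟨b, hx⟩⟩)
  · exact inv_mul_ev (((k5 x b).and (hg.2 x fun c => c.elim hx b)).mono fun s c => c.1.trans c.2.symm)

omit he hX [T2Space S] in
include a in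
theorem light_planar [Nonempty W] {x : E} (hx : x.1 ∉ closure X) : ∃ T', IsClopen T' ∧ x ∈ T' ∧
    ∀ T, FO ρ (RT o p H T) → FO ρ (RT o p H (T ∪ T')) := by
  obtain ⟨v⟩ := ‹Nonempty W›
  obtain ⟨K, k1, k2⟩ := nhds_one_fix (CO.ev' (h1 v))
  obtain ⟨D, d1, d2, d3⟩ := exists_cd_nhds h.toBS x.2 (inter_mem (h.far k1 x.2)
    (isClosed_closure.isOpen_compl.mem_nhds hx))
  refine ⟨_, d1.clopen, d2, fun T l => FO.mul (A := {g | ρ g v = v}) (h2 v) l fun g hg => ?_⟩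
  obtain ⟨k, k3, k4, k5, k6⟩ := h.planar_germ a g.2 hg.1 d1
    (disjoint_left.2 fun y b c => (d3 b).2 (subset_closure c))
  refine ⟨⟨k, k3⟩, k2 _ (fun s hs => k5 s fun c => (d3 c).1 ⟨s, hs, rfl⟩) _,
    (map_mul H k⁻¹ g.1).trans (by simp [k4, hg.1]), fun y hy => ?_⟩
  by_cases b : y.1 ∈ D
  · exact inv_mul_ev (k6 y ⟨y.2, b⟩)
  · refine inv_mul_ev (((hg.2 y fun c => c.elim hy b).and (tendsto_comap.eventually
      (d1.1.isCompact.isClosed.isOpen_compl.mem_nhds b))).mono fun s c => (k5 s c.2).trans c.1.symm)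

omit he hX h1 h2 [T2Space S] in
include a in
theorem light_conj {T : Set E} (l : FO ρ (RT o p H T)) {φ : E ≃ₜ E} (hφ : φ ∈ Aut (genusEnds E X)) :
    FO ρ (RT o p H (φ '' T)) := by
  obtain ⟨k, hk⟩ := eta_surj h a ⟨φ, hφ⟩
  obtain rfl : H k.1 = φ := congrArg Subtype.val hk
  refine l.conj k fun g hg => ⟨?_, fun x hx => ((a k.1 x).eventually (hg.2 _ fun ⟨y, b, c⟩ =>
    hx ((H k.1).injective c ▸ b))).mono fun s hs => ?_⟩
  · change H (k.1⁻¹ * g.1 * k.1) = 1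
    simp [hg.1]
  · change k.1.symm (g.1 (k.1 s)) = s
    rw [hs, Homeomorph.symm_apply_apply]

include a in
theorem light_univ [Nonempty W] (hF : ¬ HFlux (genusEnds E X)) : FO ρ (RT o p H univ) := by
  have : CompactSpace E := isCompact_iff_compactSpace.1 h.clE.isCompact
  have := (h.te.mono h.clE subset_union_left).tdSpace
  set C := genusEnds E X
  have hC : IsClosed C := isClosed_closure.preimage continuous_subtype_val
  let cl : E → Set E := fun x => ⋃ T, ⋃ (_ : IsClopen T ∧ x ∈ T ∧ FO ρ (RT o p H T)), T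
  have op : ∀ x, IsOpen (cl x) := fun x => isOpen_iUnion fun T => isOpen_iUnion fun c => c.1.2
  have mem : ∀ {x y}, y ∈ cl x ↔ ∃ T, (IsClopen T ∧ x ∈ T ∧ FO ρ (RT o p H T)) ∧ y ∈ T := by
    simp [cl]
  have self : ∀ x ∈ C, x ∈ cl x := fun x hx =>
    let ⟨T, b⟩ := light_genus h x.2 hx h1 h2; mem.2 ⟨T, b, b.2.1⟩
  have sub : ∀ {x y}, y ∈ C → x ∈ C → y ∈ cl x → cl x ⊆ cl y ∧ cl y ⊆ cl x := by
    intro x y hy hx b
    obtain ⟨T, t1, t2⟩ := mem.1 b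
    constructor <;> intro z hz <;> obtain ⟨T', t3, t4⟩ := mem.1 hz
    · exact mem.2 ⟨_, ⟨t1.1.union t3.1, Or.inl t2, light_union h a x.2 hx t1.1 t3.1 t1.2.1 t3.2.1
        t1.2.2 t3.2.2⟩, Or.inr t4⟩
    · exact mem.2 ⟨_, ⟨t1.1.union t3.1, Or.inl t1.2.1, light_union h a y.2 hy t1.1 t3.1 t2 t3.2.1
        t1.2.2 t3.2.2⟩, Or.inr t4⟩
  have im : ∀ φ ∈ Aut C, ∀ x y, y ∈ cl x → φ y ∈ cl (φ x) := fun φ hφ x y b =>
    let ⟨T, t1, t2⟩ := mem.1 b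
    mem.2 ⟨φ '' T, ⟨⟨φ.isClosedMap _ t1.1.1, φ.isOpenMap _ t1.1.2⟩, ⟨x, t1.2.1, rfl⟩,
      light_conj h a t1.2.2 hφ⟩, y, t2, rfl⟩
  let e' : E := ⟨e, he⟩
  have all : C ⊆ cl e' := by
    by_contra n
    obtain ⟨A, a1, a2, a3⟩ := exists_clopen_between (hC.sdiff (isOpen_biUnion
      fun y (_ : y ∈ C \ cl e') => op y)) (hC.sdiff (op e')).isOpen_compl fun y b c =>
      b.2 (mem_biUnion c (self y c.1))
    have eq : C ∩ A = C ∩ cl e' := Set.ext fun y => and_congr_right fun hy =>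
      ⟨fun c => by_contra fun m => a3 c ⟨hy, m⟩, fun c => a2 ⟨hy, fun m => by
        obtain ⟨z, z1, z2⟩ := mem_iUnion₂.1 m
        exact z1.2 ((sub hy hX c).2 ((sub hy z1.1 z2).1 (self z z1.1)))⟩⟩
    obtain ⟨y, y1, y2⟩ := not_subset.1 n
    obtain ⟨t, t1, t2⟩ := hC.isCompact.elim_nhds_subcover cl fun x hx => (op x).mem_nhds (self x hx)
    refine hF ⟨A, a1, eq ▸ ⟨e', hX, self _ hX⟩, ⟨y, y1, fun c => y2 (eq.subset ⟨y1, c⟩).2⟩,
      (t.finite_toSet.image fun x => C ∩ cl x).subset ?_⟩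
    rintro _ ⟨φ, hφ, rfl⟩
    have m := (hφ e').2 hX
    obtain ⟨z, z1, z2⟩ := mem_iUnion₂.1 (t2 m)
    refine ⟨z, z1, eq ▸ Set.ext fun x => ⟨fun c => ⟨φ⁻¹ x, ⟨(inv_mem hφ x).2 c.1, ?_⟩, by simp⟩, ?_⟩⟩
    · simpa using im _ (inv_mem hφ) _ _ ((sub m (t1 z z1) z2).1 c.2)
    · rintro ⟨x, b, rfl⟩
      exact ⟨(hφ x).2 b.1, (sub m (t1 z z1) z2).2 (im φ hφ _ _ b.2)⟩
  obtain ⟨T, ⟨-, -, t⟩, t'⟩ := isCompact_univ.induction_on
    (p := fun s => ∃ T, (IsClopen T ∧ e' ∈ T ∧ FO ρ (RT o p H T)) ∧ s ⊆ T)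
    (let ⟨T, b⟩ := light_genus h he hX h1 h2; ⟨T, b, empty_subset _⟩)
    (fun _ _ b ⟨T, c, d⟩ => ⟨T, c, b.trans d⟩)
    (fun _ _ ⟨T, c, d⟩ ⟨T', c', d'⟩ => ⟨_, ⟨c.1.union c'.1, Or.inl c.2.1,
      light_union h a he hX c.1 c'.1 c.2.1 c'.2.1 c.2.2 c'.2.2⟩, union_subset_union d d'⟩)
    fun x _ => by
      rw [nhdsWithin_univ]
      by_cases hx : x ∈ C
      · obtain ⟨T, t1, t2⟩ := mem.1 (all hx)
        exact ⟨T, t1.1.2.mem_nhds t2, T, t1, subset_rfl⟩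
      · obtain ⟨T, t1, t2, t3⟩ := light_genus h he hX h1 h2
        obtain ⟨T', t4, t5, t6⟩ := light_planar h a h1 h2 hx
        exact ⟨T', t4.2.mem_nhds t5, _, ⟨t1.union t4, Or.inl t2, t6 T t3⟩, subset_union_right⟩
  exact univ_subset_iff.1 t' ▸ t

end light

theorem neg_of (h : Std o p q E X) {e : OnePoint ℂ} (he : e ∈ E) (hX : e ∈ closure X)
    (hF : ¬ HFlux (genusEnds E X)) (hN : Neg (CO (Aut (genusEnds E X)))) : Neg (CO (OPS o)) :=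
  fun _ ρ h1 h2 v =>
  let ⟨_, a⟩ := h.exists_EH
  haveI : Nonempty _ := ⟨v⟩
  neg_of_ext (eta h a) (eta_surj h a) (eta_open h a) hN ρ h1 h2 (fun w =>
    (light_univ h a he hX h1 h2 hF w).subset fun _ ⟨g, b, c⟩ =>
      ⟨g, ⟨congrArg Subtype.val b, fun _ n => (n trivial).elim⟩, c⟩) v

omit [T2Space S] in
theorem neg_aut (h : Std o p q E X) (hN : Neg (CO (OPS o))) : Neg (CO (Aut (genusEnds E X))) :=
  let ⟨_, a⟩ := h.exists_EH
  neg_of_surj _ (eta_cont h a) (eta_surj h a) hN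

end Pool.Agent.Lib.MP_069d55_gt.G
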