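import Pool.Agent.Lib.MP_069d55_gt.KOP

/-! Local homeomorphisms, orientations and signs. -/

open Set Topology Filter Metric OnePoint Pool.Agent.Lib.MP_1e9af3_an

namespace Pool.Agent.Lib.MP_069d55_gt.K

section lh
variable {A B C : Type*} [TopologicalSpace A] [TopologicalSpace B] [TopologicalSpace C]
  {f f' : A → B} {g : B → C} {x : A}

/-- Local homeomorphism at a point. -/
def LH (f : A → B) (x : A) : Prop :=
  ∃ e : OpenPartialHomeomorph A B, x ∈ e.source ∧ f =ᶠ[𝓝 x] e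

theorem lh_oph (e : OpenPartialHomeomorph A B) (hx : x ∈ e.source) : LH e x :=
  ⟨e, hx, EventuallyEq.rfl⟩

theorem lh_homeo (e : A ≃ₜ B) (x : A) : LH e x := ⟨e.toOpenPartialHomeomorph, trivial, .rfl⟩

theorem lh_id (x : A) : LH id x := lh_homeo (Homeomorph.refl A) x

theorem lh_emb (h : IsOpenEmbedding f) (x : A) : LH f x :=
  haveI : Nonempty A := ⟨x⟩
  ⟨h.toOpenPartialHomeomorph f, trivial, .rfl⟩

theorem LH.congr (h : LH f x) (e : f =ᶠ[𝓝 x] f') : LH f' x :=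
  let ⟨c, h1, h2⟩ := h; ⟨c, h1, e.symm.trans h2⟩

theorem LH.contAt (h : LH f x) : ContinuousAt f x :=
  let ⟨c, h1, h2⟩ := h; (c.continuousAt h1).congr h2.symm

theorem LH.comp (hf : LH f x) (hg : LH g (f x)) : LH (g ∘ f) x := by
  have := hf.contAt
  obtain ⟨c, h1, h2⟩ := hf
  obtain ⟨d, h3, h4⟩ := hg
  refine ⟨c.trans d, ⟨h1, by rw [mem_preimage, c.symm_symm, ← h2.eq_of_nhds]; exact h3⟩, ?_⟩
  filter_upwards [h2, this.eventually h4] with y a b
  simp [b, ← a]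

theorem LH.eventually (h : LH f x) : ∀ᶠ y in 𝓝 x, LH f y := by
  obtain ⟨c, h1, h2⟩ := h
  filter_upwards [c.open_source.mem_nhds h1, h2.eventuallyEq_nhds] with y a b using ⟨c, a, b⟩

theorem LH.inv (h : LH f x) : ∃ g : B → A, LH g (f x) ∧ g (f x) = x ∧
    (∀ᶠ y in 𝓝 x, g (f y) = y) ∧ ∀ᶠ z in 𝓝 (f x), f (g z) = z := by
  obtain ⟨c, h1, h2⟩ := h
  have e := h2.eq_of_nhds
  refine ⟨c.symm, e ▸ lh_oph c.symm (c.map_source h1), by rw [e, c.left_inv h1], ?_, ?_⟩
  · filter_upwards [h2, c.eventually_left_inverse h1] with y a b using a ▸ b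
  · rw [e]
    filter_upwards [(c.tendsto_symm h1).eventually h2, c.eventually_right_inverse' h1] with z a b
    exact a.trans b

theorem LH.map_nhds (h : LH f x) : map f (𝓝 x) = 𝓝 (f x) := by
  obtain ⟨c, h1, h2⟩ := h
  rw [map_congr h2, c.map_nhds_eq h1, h2.eq_of_nhds]

theorem LH.of_comp {P : B → Prop} (h : LH f x) (h' : ∀ᶠ y in 𝓝 x, P (f y)) :
    ∀ᶠ z in 𝓝 (f x), P z := by rw [← h.map_nhds]; exact h'

theorem LH.tendsto_ne (h : LH f x) : Tendsto f (𝓝[≠] x) (𝓝[≠] (f x)) := by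
  obtain ⟨g, -, g1, g2, -⟩ := h.inv
  refine tendsto_nhdsWithin_iff.2 ⟨h.contAt.mono_left nhdsWithin_le_nhds, ?_⟩
  filter_upwards [mem_nhdsWithin_of_mem_nhds g2, self_mem_nhdsWithin] with y a b c
  exact b (by rw [mem_singleton_iff] at c ⊢; rw [← a, c, g1])

/-- A map with a local inverse. -/
theorem lh_of_inv {g : B → A} {U : Set A} {V : Set B} (hU : IsOpen U) (hV : IsOpen V)
    (hf : ContinuousOn f U) (hg : ContinuousOn g V) (h1 : MapsTo f U V) (h2 : MapsTo g V U)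
    (h3 : ∀ y ∈ U, g (f y) = y) (h4 : ∀ z ∈ V, f (g z) = z) (hx : x ∈ U) : LH f x :=
  ⟨⟨⟨⟨f, g, U, V, h1, h2, h3, h4⟩, hf, hg⟩, hU, hV⟩, hx, .rfl⟩

end lh

section ld
variable {F G : ℂ → ℂ} {p : ℂ} {d : ℤ}

theorem LH.locInj (h : LH F p) : ∃ R, LocInj F p R := by
  obtain ⟨g, -, -, g2, -⟩ := h.inv
  obtain ⟨r, hr, hb⟩ := nhds_basis_closedBall.mem_iff.1 (g2.and h.eventually)
  exact ⟨r, hr, fun z hz => (hb hz).2.contAt.continuousWithinAt, fun z hz w hw e => by
    rw [← (hb hz).1, e, (hb hw).1]⟩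

open Classical in
/-- The local degree. -/
noncomputable def ld (F : ℂ → ℂ) (p : ℂ) : ℤ := if h : ∃ d, HasDeg F p d then h.choose else 0

theorem ld_eq (h : HasDeg F p d) : ld F p = d := by
  have e : ∃ d, HasDeg F p d := ⟨d, h⟩
  rw [ld, dif_pos e]; exact e.choose_spec.unique h

theorem LH.hasDeg (h : LH F p) : HasDeg F p (ld F p) :=
  let ⟨_, hR⟩ := h.locInj; ld_eq hR.hasDeg ▸ hR.hasDeg

theorem ld_congr (h : F =ᶠ[𝓝 p] G) : ld F p = ld G p := by
  by_cases e : ∃ d, HasDeg F p d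
  · obtain ⟨d, e⟩ := e; rw [ld_eq e, ld_eq (e.congr h)]
  · rw [ld, dif_neg e, ld, dif_neg fun ⟨d, c⟩ => e ⟨d, c.congr h.symm⟩]

theorem ld_comp (hF : LH F p) (hG : LH G (F p)) : ld (G ∘ F) p = ld F p * ld G (F p) :=
  let ⟨_, a⟩ := hF.locInj
  let ⟨_, b⟩ := hG.locInj
  ld_eq (hG.hasDeg.comp hF.hasDeg a b)

theorem ld_id (p : ℂ) : ld id p = 1 := ld_eq (hasDeg_id p)

theorem ld_sq (h : LH F p) : ld F p * ld F p = 1 := by
  obtain ⟨g, g0, -, g2, -⟩ := h.inv
  have := (ld_comp h g0).symm.trans ((ld_congr (G := id) g2).trans (ld_id p))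
  rcases Int.eq_one_or_neg_one_of_mul_eq_one this with e | e <;> simp [e]

theorem ld_lc (h : LH F p) : ∀ᶠ q in 𝓝 p, ld F q = ld F p := by
  obtain ⟨R, h1, h2, h3⟩ := h.locInj
  filter_upwards [ball_mem_nhds p h1] with q hq
  exact ld_eq (hasDeg_prop isOpen_ball (convex_ball p R).isPreconnected
    (h2.mono ball_subset_closedBall) (h3.mono ball_subset_closedBall) (mem_ball_self h1) hq h.hasDeg)

theorem ld_homeo (F : ℂ ≃ₜ ℂ) (p : ℂ) : ld F p = deg F := ld_eq (hasDeg_homeo F p)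

end ld

/-- An orientation assigns a sign to every local chart. -/
structure Ori (M : Type*) [TopologicalSpace M] where
  sg : (ℂ → M) → ℂ → ℤ
  congr : ∀ {e e' u}, e =ᶠ[𝓝 u] e' → sg e u = sg e' u
  comp : ∀ {F e u}, LH F u → LH e (F u) → sg (e ∘ F) u = ld F u * sg e (F u)
  sq : ∀ {e u}, LH e u → sg e u * sg e u = 1
  lc : ∀ {e u}, LH e u → ∀ᶠ v in 𝓝 u, sg e v = sg e u

/-- The orientation of the plane. -/
noncomputable def oriC : Ori ℂ := ⟨ld, ld_congr, ld_comp, ld_sq, ld_lc⟩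

section sg
variable {M M' M'' : Type*} [TopologicalSpace M] [TopologicalSpace M'] [TopologicalSpace M'']
  {o : Ori M} {o' : Ori M'} {o'' : Ori M''} {f f' : M → M'} {g : M' → M''} {x : M} {d d' : ℤ}

/-- `f` is a local homeomorphism of sign `d` at `x`. -/
def Sg (o : Ori M) (o' : Ori M') (f : M → M') (x : M) (d : ℤ) : Prop :=
  LH f x ∧ ∀ e u, LH e u → e u = x → o'.sg (f ∘ e) u = d * o.sg e u

theorem Sg.lh (h : Sg o o' f x d) : LH f x := h.1

theorem sg_id (o : Ori M) (x : M) : Sg o o id x 1 := ⟨lh_id x, fun _ _ _ _ => by simp⟩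

theorem Sg.congr (h : Sg o o' f x d) (e : f =ᶠ[𝓝 x] f') : Sg o o' f' x d :=
  ⟨h.1.congr e, fun c u h1 h2 => by
    subst h2
    rw [← h.2 c u h1 rfl]; exact o'.congr (e.symm.comp_tendsto h1.contAt)⟩

theorem sg_of_id {k : M → M} (h : ∀ᶠ y in 𝓝 x, k y = y) : Sg o o k x 1 :=
  (sg_id o x).congr (EventuallyEq.symm h)

theorem Sg.comp (h : Sg o o' f x d) (h' : Sg o' o'' g (f x) d') : Sg o o'' (g ∘ f) x (d' * d) :=
  ⟨h.1.comp h'.1, fun c u h1 h2 => by
    rw [mul_assoc, ← h.2 c u h1 h2]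
    exact h'.2 (f ∘ c) u (h1.comp (h2 ▸ h.1)) (congrArg f h2)⟩

theorem Sg.comp1 (h : Sg o o' f x 1) (h' : Sg o' o'' g (f x) 1) : Sg o o'' (g ∘ f) x 1 :=
  h.comp h'

theorem sg_of_chart (h : LH f x) {e : ℂ → M} {u : ℂ} (h1 : LH e u) (h2 : e u = x)
    (h3 : o'.sg (f ∘ e) u = d * o.sg e u) : Sg o o' f x d := by
  refine ⟨h, fun c v c1 c2 => ?_⟩
  obtain ⟨g, g0, g1, -, g3⟩ := h1.inv
  have a : (g ∘ c) v = u := by rw [Function.comp_apply, c2, ← h2, g1]
  have b : LH (g ∘ c) v := c1.comp (by rwa [c2, ← h2])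
  have b' : c =ᶠ[𝓝 v] e ∘ (g ∘ c) :=
    (c1.contAt.eventually (by rwa [c2, ← h2])).mono fun z hz => Eq.symm hz
  rw [o.congr b', o'.congr (b'.fun_comp f), o.comp b (a ▸ h1), ← Function.comp_assoc,
    o'.comp b (a ▸ h1.comp (h2 ▸ h)), a, h3]
  ring

theorem exists_chart [Charted M] (x : M) : ∃ e : ℂ → M, ∃ u, LH e u ∧ e u = x :=
  let ⟨e, he, u, hu⟩ := Charted.chart x; ⟨e, u, lh_emb he u, hu⟩

variable [Charted M]

theorem LH.exists_sg (h : LH f x) (o : Ori M) (o' : Ori M') : ∃ d, Sg o o' f x d :=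
  let ⟨e, u, h1, h2⟩ := exists_chart x
  ⟨o'.sg (f ∘ e) u * o.sg e u, sg_of_chart h h1 h2 (by rw [mul_assoc, o.sq h1, mul_one])⟩

theorem Sg.sq (h : Sg o o' f x d) : d * d = 1 := by
  obtain ⟨e, u, h1, h2⟩ := exists_chart x
  have := o'.sq (h1.comp (h2 ▸ h.1))
  rw [h.2 e u h1 h2, mul_mul_mul_comm, o.sq h1, mul_one] at this
  exact this

theorem Sg.cases (h : Sg o o' f x d) : d = 1 ∨ d = -1 := Int.eq_one_or_neg_one_of_mul_eq_one h.sq

theorem Sg.unique (h : Sg o o' f x d) (h' : Sg o o' f x d') : d = d' := by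
  obtain ⟨e, u, h1, h2⟩ := exists_chart x
  exact mul_right_cancel₀ (left_ne_zero_of_mul_eq_one (o.sq h1))
    ((h.2 e u h1 h2).symm.trans (h'.2 e u h1 h2))

theorem Sg.eventually (h : Sg o o' f x d) : ∀ᶠ y in 𝓝 x, Sg o o' f y d := by
  obtain ⟨e, u, h1, rfl⟩ := exists_chart x
  refine h1.of_comp ?_
  filter_upwards [h1.eventually, h1.contAt.eventually h.1.eventually, o.lc h1,
    o'.lc (h1.comp h.1)] with v a b c c'
  exact sg_of_chart b a rfl (by rw [c, c', h.2 e u h1 rfl])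

theorem Sg.prop {U : Set M} (hU : IsPreconnected U) (hf : ∀ y ∈ U, LH f y) (hx : x ∈ U)
    (h : Sg o o' f x d) {y : M} (hy : y ∈ U) : Sg o o' f y d := by
  refine (hU.induction₂' (fun p q => Sg o o' f p d ↔ Sg o o' f q d) (fun x hx => ?_)
    (fun _ _ _ _ _ _ h h' => h.trans h') hx hy).1 h
  obtain ⟨c, hc⟩ := (hf x hx).exists_sg o o'
  filter_upwards [mem_nhdsWithin_of_mem_nhds hc.eventually] with y hy
  have : Sg o o' f x d ↔ Sg o o' f y d := ⟨fun h => hc.unique h ▸ hy, fun h => hy.unique h ▸ hc⟩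
  exact ⟨this, this.symm⟩

/-- Cancelling the inner map. -/
theorem Sg.of_comp_left [Charted M'] (h : Sg o o' f x d) (hg : LH g (f x))
    (h' : Sg o o'' (g ∘ f) x d') : Sg o' o'' g (f x) (d' * d) := by
  obtain ⟨c, hc⟩ := hg.exists_sg o' o''
  rw [h'.unique (h.comp hc), mul_assoc, h.sq, mul_one]; exact hc

/-- Cancelling the outer map. -/
theorem Sg.of_comp_right [Charted M'] (hf : LH f x) (h : Sg o' o'' g (f x) d)
    (h' : Sg o o'' (g ∘ f) x d') : Sg o o' f x (d * d') := by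
  obtain ⟨c, hc⟩ := hf.exists_sg o o'
  rw [h'.unique (hc.comp h), ← mul_assoc, h.sq, one_mul]; exact hc

theorem Sg.inv [Charted M'] {g : M' → M} (h : Sg o o' f x d) (hg : LH g (f x))
    (e : ∀ᶠ y in 𝓝 x, g (f y) = y) : Sg o' o g (f x) d := by
  simpa using h.of_comp_left hg (sg_of_id (o := o) e)

/-- Orientation preserving homeomorphisms. -/
def OPS (o : Ori M) : Subgroup (M ≃ₜ M) where
  carrier := {k | ∀ x, Sg o o k x 1}
  one_mem' := sg_id o
  mul_mem' := fun {_ _} ha hb x => (hb x).comp1 (ha _)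
  inv_mem' := fun {a} ha x => by
    have := (ha (a.symm x)).inv (lh_homeo a.symm _) (.of_forall a.symm_apply_apply)
    rwa [a.apply_symm_apply] at this

theorem OPS_of_sg [PreconnectedSpace M] {k : M ≃ₜ M} (h : Sg o o k x 1) : k ∈ OPS o :=
  fun _ => h.prop isPreconnected_univ (fun y _ => lh_homeo k y) trivial trivial

theorem OPS_of_id [PreconnectedSpace M] {k : M ≃ₜ M} (h : ∀ᶠ y in 𝓝 x, k y = y) : k ∈ OPS o :=
  OPS_of_sg (sg_of_id h)

theorem OPS_of_AA [PreconnectedSpace M] [T2Space M] {k : M ≃ₜ M} {Ω : Set M} (h : k ∈ AA Ω)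
    (hx : x ∉ Ω) : k ∈ OPS o := OPS_of_id (AA_eventually h hx)

/-- The sign is locally constant in families. -/
theorem Sg.family [Charted M'] {T : Type*} [TopologicalSpace T] {F : T → M ≃ₜ M'}
    (hF : Continuous fun p : T × M => F p.1 p.2) {t : T} (h : Sg o o' (F t) x d) :
    ∀ᶠ s in 𝓝 t, Sg o o' (F s) x d := by
  obtain ⟨e, he, u, rfl⟩ := Charted.chart x
  obtain ⟨c, hc, v, hv⟩ := Charted.chart (F t (e u))
  let g := (hc.toOpenPartialHomeomorph c).symm
  have gc : ContinuousOn g (range c) := by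
    simpa using (hc.toOpenPartialHomeomorph c).continuousOn_symm
  have cg : ∀ y ∈ range c, c (g y) = y := fun y hy => hc.toOpenPartialHomeomorph_right_inv _ hy
  have gl : ∀ y ∈ range c, LH g y := fun y hy => lh_oph _ (by simpa [g] using hy)
  have hH : Continuous fun p : T × ℂ => F p.1 (e p.2) :=
    hF.comp (continuous_fst.prodMk (he.continuous.comp continuous_snd))
  obtain ⟨N, hN, B, hB, hNB⟩ := mem_nhds_prod_iff.1 (hH.continuousAt (x := (t, u))
    (hc.isOpen_range.mem_nhds ⟨v, hv⟩))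
  obtain ⟨r, hr, hb⟩ := nhds_basis_closedBall.mem_iff.1 hB
  have mem : ∀ s ∈ N, ∀ z ∈ closedBall u r, F s (e z) ∈ range c := fun s hs z hz =>
    hNB (mk_mem_prod hs (hb hz))
  have li : ∀ s ∈ N, LocInj (g ∘ F s ∘ e) u r := fun s hs => ⟨hr, gc.comp
    ((F s).continuous.comp he.continuous).continuousOn (mem s hs), fun z hz w hw a =>
      he.injective ((F s).injective ((cg _ (mem s hs z hz)).symm.trans
        ((congrArg c a).trans (cg _ (mem s hs w hw)))))⟩
  have ht := mem_of_mem_nhds hN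
  have u0 := mem_closedBall_self (x := u) hr.le
  have hw := wind_eventually (H := fun s => lp (g ∘ F s ∘ e) u r) (S := N) ht
    ((gc.comp (hH.comp (continuous_fst.prodMk (show Continuous fun p : T × ℝ => u + r * ee p.2 by
      fun_prop))).continuousOn fun p hp => mem _ hp.1 _ (circ_mem hr.le le_rfl _)).sub
      (gc.comp (hH.comp (continuous_fst.prodMk continuous_const)).continuousOn
        fun p hp => mem _ hp.1 _ u0)) ((li t ht).lp_ne hr le_rfl) fun s _ => lp_per _ _ _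
  rw [nhdsWithin_eq_nhds.2 hN] at hw
  have key : ∀ s ∈ N, o'.sg (F s ∘ e) u = wind (lp (g ∘ F s ∘ e) u r) * o'.sg c (g (F s (e u))) :=
    fun s hs => by
      rw [← ld_eq (li s hs).hasDeg]
      refine Eq.trans (o'.congr ?_) (o'.comp (F := g ∘ F s ∘ e) (((lh_emb he u).comp
        (lh_homeo _ _)).comp (gl _ (mem s hs u u0))) (lh_emb hc _))
      filter_upwards [closedBall_mem_nhds u hr] with z hz using (cg _ (mem s hs z hz)).symm
  filter_upwards [hN, hw, ((gl _ (mem t ht u u0)).contAt.comp (f := fun s => F s (e u))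
    (hH.comp (Continuous.prodMk_left u)).continuousAt).eventually (o'.lc (lh_emb hc _))]
    with s hs a b
  refine sg_of_chart (lh_homeo _ _) (lh_emb he u) rfl ?_
  rw [key s hs, a, ← h.2 e u (lh_emb he u) rfl, key t ht]
  exact congrArg _ b

omit [Charted M] in
/-- Extension of an orientation over finitely many points. -/
theorem exists_ori_ext [T1Space M] (o' : Ori M') {Z : Set M} (hZ : Z.Finite) {g : M → M'}
    (hg : ∀ y ∉ Z, LH g y) : ∃ o : Ori M, ∀ y ∉ Z, Sg o o' g y 1 := by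
  classical
  let P : (ℂ → M) → ℂ → ℤ → Prop := fun e u d => ∀ᶠ v in 𝓝[≠] u, o'.sg (g ∘ e) v = d
  let s : (ℂ → M) → ℂ → ℤ := fun e u => if h : ∃ d, P e u d then h.choose else 0
  have hs : ∀ {e u d}, P e u d → s e u = d := fun {e u d} h => by
    have a : ∃ d, P e u d := ⟨d, h⟩
    obtain ⟨v, b, c⟩ := (a.choose_spec.and h).exists
    exact (dif_pos a).trans (b.symm.trans c)
  have pc : ∀ {e e' u d}, e =ᶠ[𝓝 u] e' → P e u d → P e' u d := fun {e e' u d} h h' => by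
    filter_upwards [h', mem_nhdsWithin_of_mem_nhds h.eventuallyEq_nhds] with v a b
    exact (o'.congr (EventuallyEq.fun_comp b g)).symm.trans a
  have nz : ∀ {e : ℂ → M} {u}, LH e u → ∀ᶠ v in 𝓝[≠] u, LH e v ∧ e v ∉ Z := fun {e u} h => by
    filter_upwards [mem_nhdsWithin_of_mem_nhds h.eventually, h.tendsto_ne.eventually
      self_mem_nhdsWithin, mem_nhdsWithin_of_mem_nhds (h.contAt ((hZ.subset (sdiff_subset
        (t := {e u}))).isClosed.isOpen_compl.mem_nhds fun h => h.2 rfl))] with v a b c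
    exact ⟨a, fun h => c ⟨h, b⟩⟩
  have ex : ∀ {e : ℂ → M} {u}, LH e u → P e u (s e u) := fun {e u} h => by
    obtain ⟨r, hr, hb⟩ := (nhdsWithin_hasBasis nhds_basis_ball _).mem_iff.1 (nz h)
    have hc : IsPreconnected (ball u r ∩ {u}ᶜ) := preconn_ball_diff u hr (countable_singleton u)
    have hm : ball u r ∩ {u}ᶜ ∈ 𝓝[≠] u :=
      inter_mem (mem_nhdsWithin_of_mem_nhds (ball_mem_nhds u hr)) self_mem_nhdsWithin
    obtain ⟨w, hw⟩ := Filter.nonempty_of_mem hm
    have : P e u (o'.sg (g ∘ e) w) := by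
      filter_upwards [hm] with v hv
      refine hc.induction₂' (fun p q => o'.sg (g ∘ e) p = o'.sg (g ∘ e) q) (fun z hz => ?_)
        (fun _ _ _ _ _ _ h h' => h.trans h') hv hw
      filter_upwards [mem_nhdsWithin_of_mem_nhds (o'.lc ((hb hz).1.comp (hg _ (hb hz).2)))]
        with y hy using ⟨hy.symm, hy⟩
    exact hs this ▸ this
  have reg : ∀ {e : ℂ → M} {u}, LH e u → e u ∉ Z → s e u = o'.sg (g ∘ e) u := fun h h' =>
    hs (mem_nhdsWithin_of_mem_nhds (o'.lc (h.comp (hg _ h'))))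
  refine ⟨⟨s, fun {e e' u} h => ?_, fun {F e u} h h' => hs ?_, fun {e u} h => ?_,
    fun {e u} h => ?_⟩, fun y hy => ⟨hg y hy, fun e u a b => by
      rw [one_mul]; exact (reg a (b ▸ hy)).symm⟩⟩
  · by_cases a : ∃ d, P e u d
    · obtain ⟨d, a⟩ := a; rw [hs a, hs (pc h a)]
    · have b : ¬ ∃ d, P e' u d := fun c => a (c.imp fun _ => pc h.symm)
      simp only [s, dif_neg a, dif_neg b]
  · filter_upwards [h.tendsto_ne.eventually ((ex h').and (nz h')),
      mem_nhdsWithin_of_mem_nhds (h.eventually.and (ld_lc h))] with v a b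
    rw [← Function.comp_assoc, o'.comp b.1 (a.2.1.comp (hg _ a.2.2)), a.1, b.2]
  · obtain ⟨v, a, b⟩ := ((ex h).and (nz h)).exists
    rw [← a]; exact o'.sq (b.1.comp (hg _ b.2))
  · have := (ex h).and (nz h)
    rw [eventually_nhdsWithin_iff] at this
    filter_upwards [this] with v a
    by_cases b : v = u
    · rw [b]
    · rw [reg (a b).2.1 (a b).2.2, (a b).1]

end sg

end Pool.Agent.Lib.MP_069d55_gt.K
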