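import Pool.Agent.Lib.MP_069d55_gt.GReal

/-! Patching and collapsing the standard model. -/

open Set Topology Filter Metric OnePoint

namespace Pool.Agent.Lib.MP_069d55_gt.K

section
variable {M ι : Type*}

theorem IsDisc.exists_smaller [TopologicalSpace M] [T2Space M] {D K : Set M} (h : IsDisc D)
    (hK : IsCompact K) (hs : K ⊆ interior D) : ∃ C, IsDisc C ∧ K ⊆ interior C ∧ C ⊆ interior D := by
  obtain ⟨d, hd, rfl⟩ := h
  rw [interior_image_ball hd] at hs ⊢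
  obtain ⟨r, hr, hr'⟩ := exists_pos_lt_subset_ball one_pos (hK.isClosed.preimage hd.continuous)
    (preimage_subset_iff.2 fun z hz => hd.injective.mem_set_image.1 (hs hz))
  obtain ⟨a, b⟩ := isDisc_closedBall hd 0 hr.1
  refine ⟨_, a, fun y hy => b ▸ ?_, image_mono (closedBall_subset_ball hr.2)⟩
  obtain ⟨z, -, rfl⟩ := hs hy
  exact ⟨z, hr' hy, rfl⟩

theorem CD.shrink [TopologicalSpace M] [T2Space M] {F D : Set M} (h : CD F D) (hF : IsClosed F) :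
    ∃ C, IsDisc C ∧ F ∩ D ⊆ interior C ∧ C ⊆ interior D :=
  h.1.exists_smaller (h.1.isCompact.inter_left hF) fun y hy => h.2 y hy.1 hy.2

theorem preconn_diff_discs [TopologicalSpace M] [T2Space M] {Ω : Set M} (hΩ : IsOpen Ω)
    (hc : IsPreconnected Ω) {I : Set ι} (hI : I.Finite) {D : ι → Set M} (hD : ∀ i ∈ I, IsDisc (D i))
    (hd : I.PairwiseDisjoint D) (hs : ∀ i ∈ I, D i ⊆ Ω) :
    IsOpen (Ω \ ⋃ i ∈ I, D i) ∧ IsPreconnected (Ω \ ⋃ i ∈ I, D i) := by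
  refine ⟨hΩ.sdiff (hI.isClosed_biUnion fun i hi => (hD i hi).isCompact.isClosed), ?_⟩
  induction I, hI using Set.Finite.induction_on with
  | empty => simpa using hc
  | @insert a I ha hI ih =>
    rw [biUnion_insert, union_comm, ← sdiff_sdiff]
    refine (hD a (Or.inl rfl)).preconn_diff (ih (fun i c => hD i (Or.inr c))
      (hd.subset (subset_insert _ _)) fun i c => hs i (Or.inr c))
      (hΩ.sdiff (hI.isClosed_biUnion fun i hi => (hD i (Or.inr hi)).isCompact.isClosed))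
      fun y hy => ⟨hs a (Or.inl rfl) hy, fun c => ?_⟩
    obtain ⟨i, u, v⟩ := mem_iUnion₂.1 c
    exact ha (hd.elim_set (Or.inl rfl) (Or.inr u) y hy v ▸ u)

theorem gather_fix [MetricSpace M] [Charted M] [PreconnectedSpace M] (o : Ori M) {D Ω U : Set M}
    (hD : IsDisc D) (hΩ : IsOpen Ω) (hc : IsPreconnected Ω) (hDΩ : D ⊆ Ω) (hU : IsOpen U)
    (hUc : IsPreconnected U) (hUΩ : U ⊆ Ω) (hn : U.Nonempty) {I : Set ι} (hI : I.Finite)
    {B : ι → Set M} (hB : ∀ i ∈ I, IsDisc (B i)) (hd : I.PairwiseDisjoint B)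
    (h1 : ∀ i ∈ I, B i ⊆ D) (h2 : ∀ i ∈ I, B i ⊆ U) :
    ∃ k ∈ AA Ω, (∀ i ∈ I, ∀ x ∈ B i, k x = x) ∧ MapsTo k D U := by
  obtain ⟨w, w1, w2⟩ := hD.exists_notMem hΩ hDΩ
  obtain ⟨a, a1, a2⟩ := (infinite_of_open hU hn).exists_notMem_finite (finite_singleton w)
  obtain ⟨k, k1, k2⟩ := gather_discs (hΩ.sdiff isClosed_singleton) (preconn_diff_point hc hΩ w)
    (finite_singleton ()) (D := fun _ => D) (t := fun _ => U \ {w}) (fun _ _ => hD)
    (pairwiseDisjoint_singleton _ _) (fun _ _ x hx => ⟨hDΩ hx, fun c => w2 (c ▸ hx)⟩)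
    (fun _ _ => hU.sdiff isClosed_singleton) (fun _ _ => ⟨a, a1, a2⟩)
    fun _ _ => sdiff_subset_sdiff_left hUΩ
  have kO : k⁻¹ ∈ OPS o := inv_mem (OPS_of_AA k1 fun c => c.2 rfl)
  obtain ⟨l, l1, l2⟩ := multi_disc (o := o) hU hUc hI (D := fun i => k '' B i)
    (f := fun _ => (k⁻¹ : M ≃ₜ M)) (fun i hi => (hB i hi).image k) (fun i _ x _ => kO x)
    (fun _ _ => k⁻¹.injective.injOn)
    (fun i hi j hj e => (disjoint_image_iff k.injective).2 (hd hi hj e))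
    (by simpa [image_image] using hd)
    (fun i hi => image_subset_iff.2 fun x hx => (k2 () rfl (h1 i hi hx)).1)
    (by rintro i hi _ ⟨x, hx, rfl⟩; simpa using h2 i hi hx)
  exact ⟨l * k, mul_mem (AA_mono hUΩ l1) (AA_mono sdiff_subset k1), fun i hi x hx => by
    rw [Homeomorph.mul_apply, l2 i hi _ ⟨x, hx, rfl⟩]; simp,
    fun x hx => (AA_mem_iff l1 _).2 (k2 () rfl hx).1⟩

theorem Cl.conj [TopologicalSpace M] {I : Set ι} {C O : ι → Set M} {z : ι → M} {ν : M → M}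
    (h : Cl I C O z ν) (k : M ≃ₜ M) :
    Cl I (fun i => k '' C i) (fun i => k '' O i) (k ∘ z) (k ∘ ν ∘ k.symm) := by
  have m : ∀ (A : Set M) y, y ∈ k '' A ↔ k.symm y ∈ A := fun A y => by rw [k.image_eq_preimage_symm]; rfl
  refine ⟨k.continuous.comp (h.cont.comp k.symm.continuous),
    k.surjective.comp (h.surj.comp k.symm.surjective), fun y hy => ?_, fun i hi y => ?_,
    fun i hi y => ?_, fun i hi => ?_, fun x hx y hy e => ?_⟩
  · filter_upwards [k.symm.continuous.continuousAt.eventually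
      (h.out _ fun i hi c => hy i hi ((m _ _).2 c))] with y' a
    simp [a]
  · simp [m, h.maps i hi]
  · simp [m, h.fib i hi]
  · rw [← k.image_interior]; exact ⟨_, h.mem i hi, rfl⟩
  · refine k.symm.injective (h.inj ?_ ?_ (k.injective e))
    · simpa [m] using hx
    · simpa [m] using hy

theorem Cl.pres [TopologicalSpace M] {I : Set ι} {C O : ι → Set M} {z : ι → M} {ν : M → M}
    (h : Cl I C O z ν) {T : Set M} (hT : ∀ i ∈ I, O i ⊆ T ∨ Disjoint (O i) T) (y : M) :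
    ν y ∈ T ↔ y ∈ T := by
  by_cases c : ∃ i ∈ I, y ∈ O i
  · obtain ⟨i, a, b⟩ := c
    rcases hT i a with d | d
    · exact iff_of_true (d ((h.maps i a y).2 b)) (d b)
    · exact iff_of_false (disjoint_left.1 d ((h.maps i a y).2 b)) (disjoint_left.1 d b)
  · push Not at c; rw [(h.out y c).self_of_nhds]

/-- Disjoint closed sets converging to a point. -/
theorem exists_disjoint_seq [MetricSpace M] {α : Type*} {c : α → Set M} {P : α → Prop} {e : M}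
    (h : ∀ W ∈ 𝓝 e, ∃ a, P a ∧ c a ⊆ W ∧ IsClosed (c a) ∧ e ∉ c a) {W₀ : Set M} (hW : W₀ ∈ 𝓝 e) :
    ∃ a : ℕ → α, (∀ j, P (a j) ∧ c (a j) ⊆ W₀) ∧ Pairwise (Function.onFun Disjoint (c ∘ a)) ∧
      ∀ W ∈ 𝓝 e, ∀ᶠ j in atTop, c (a j) ⊆ W := by
  choose f f1 f2 f3 f4 using h
  let w : ℕ → {W // W ∈ 𝓝 e} := fun n => n.rec ⟨W₀, hW⟩ fun n W =>
    ⟨(W.1 ∩ ball e (1 / (n + 1 : ℝ))) \ c (f W.1 W.2), inter_mem (inter_mem W.2
      (ball_mem_nhds e Nat.one_div_pos_of_nat)) ((f3 _ _).isOpen_compl.mem_nhds (f4 _ _))⟩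
  have an : Antitone fun n => (w n).1 := antitone_nat_of_succ_le fun n y hy => hy.1.1
  refine ⟨fun n => f (w n).1 (w n).2, fun j => ⟨f1 _ _, (f2 _ _).trans (an j.zero_le)⟩,
    (pairwise_disjoint_on _).2 fun i j hij =>
      disjoint_left.2 fun y a b => (an (Nat.succ_le_of_lt hij) (f2 _ _ b)).2 a, fun W hW => ?_⟩
  obtain ⟨ε, e1, e2⟩ := Metric.mem_nhds_iff.1 hW
  obtain ⟨n, hn⟩ := exists_nat_one_div_lt e1
  exact eventually_atTop.2 ⟨n + 1, fun j hj y hy =>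
    e2 (ball_subset_ball hn.le (an hj (f2 _ _ hy)).1.2)⟩

theorem acc_of_tendsto [MetricSpace M] {y : ℕ → M} {e : M} (hi : Function.Injective y)
    (ht : Tendsto y atTop (𝓝 e)) {T : Set M} (hT : T.Finite) (he : e ∉ T ∪ range y) :
    Acc (T ∪ range y) {e} := by
  refine ⟨fun ε hε => ?_, fun x hx c => he (c ▸ hx), ?_⟩
  · have := ht (ball_mem_nhds e hε)
    rw [← Nat.cofinite_eq_atTop] at this
    refine (hT.union ((mem_cofinite.1 this).image y)).subset ?_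
    rintro x ⟨a | ⟨n, rfl⟩, b⟩
    exacts [Or.inl a, Or.inr ⟨n, by simpa using b, rfl⟩]
  · rintro c rfl U hU
    have := ht hU
    rw [← Nat.cofinite_eq_atTop] at this
    exact ((infinite_of_finite_compl (mem_cofinite.1 this)).image hi.injOn).mono
      (by rintro _ ⟨n, a, rfl⟩; exact ⟨Or.inr ⟨n, rfl⟩, a⟩)

/-- Sets with finite difference containing a common convergent sequence can be matched. -/
theorem exists_match_fin [MetricSpace M] [Infinite M] {P P' : Set M} (h : (P \ P').Finite)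
    (h' : (P' \ P).Finite) {y : ℕ → M} {e : M} (hi : Function.Injective y)
    (ht : Tendsto y atTop (𝓝 e)) (h1 : ∀ j, y j ∈ P) (h2 : ∀ j, y j ∈ P') (he : e ∉ P)
    (he' : e ∉ P') : ∃ b, BijOn b P P' ∧ Null P b := by
  classical
  obtain ⟨β, b1, b2⟩ := (acc_of_tendsto hi ht h (by rintro (a | ⟨n, a⟩); exacts [he a.1, he (a ▸ h1 n)])
    ).exists_match (acc_of_tendsto hi ht h' (by
      rintro (a | ⟨n, a⟩); exacts [he' a.1, he (a ▸ h1 n)])) isCompact_singleton (singleton_nonempty e)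
  set T := P \ P' ∪ range y
  have s1 : T ⊆ P := union_subset sdiff_subset (range_subset_iff.2 h1)
  have s2 : P' \ P ∪ range y ⊆ P' := union_subset sdiff_subset (range_subset_iff.2 h2)
  obtain ⟨b, e1, e2⟩ : ∃ b : M → M, (∀ x ∈ T, b x = β x) ∧ ∀ x ∈ P \ T, b x = x :=
    ⟨T.piecewise β id, fun x => piecewise_eq_of_mem _ _ _, fun x hx => piecewise_eq_of_notMem _ _ _ hx.2⟩
  have e3 : P \ T = P' \ (P' \ P ∪ range y) := Set.ext fun x => by
    simp only [T, Set.mem_sdiff, mem_union]; tauto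
  refine ⟨b, ?_, fun ε hε => (b2 ε hε).subset fun x hx => ?_⟩
  · suffices BijOn b (T ∪ P \ T) (P' \ P ∪ range y ∪ P \ T) by
      rwa [union_sdiff_cancel s1, e3, union_sdiff_cancel s2] at this
    refine (b1.congr fun x hx => (e1 x hx).symm).union ((bijOn_id _).congr fun x hx =>
      (e2 x hx).symm) ?_
    rintro x (a | a) x' (c | c) d
    · exact b1.injOn a c (by rwa [e1 x a, e1 x' c] at d)
    · rw [e1 x a, e2 x' c] at d; exact absurd (d ▸ b1.mapsTo a) (e3.subset c).2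
    · rw [e2 x a, e1 x' c] at d; exact absurd (d ▸ b1.mapsTo c) (e3.subset a).2
    · rwa [e2 x a, e2 x' c] at d
  · by_cases c : x ∈ T
    · exact ⟨c, e1 x c ▸ hx.2⟩
    · have := hx.2; rw [e2 x ⟨hx.1, c⟩, dist_self] at this; exact (this.not_gt hε).elim

end

variable {S : Type*} [TopologicalSpace S] {o : Ori S} {p p' : S → OnePoint ℂ}
  {q q' : OnePoint ℂ → S} {E X E' X' : Set (OnePoint ℂ)} {ι : Type*}

theorem Blob.ob2 [Charted S] (h : Blob p q E X) (h' : Blob p' q' E' X')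
    (c : IsPreconnected (E ∪ X)ᶜ) (c' : IsPreconnected (E' ∪ X')ᶜ) (o : Ori S) {s : S}
    (hs : p s ∉ X) (hs' : p' s ∉ X') (e : p =ᶠ[𝓝 s] p') : OB2 o oS p q E X p' q' E' X' := by
  obtain ⟨ε, a⟩ := (h.ob c o oS).sgn
  obtain ⟨ε', a'⟩ := (h'.ob c' o oS).sgn
  exact ⟨h, h', ε, a, ((a s hs).congr e).unique (a' s hs') ▸ a'⟩

theorem TE.preconn_compl {F Z T : Set (OnePoint ℂ)} (h : TE F) (hZ : Z ⊆ F) (hc : IsClosed Z)
    (hT : T.Finite) : IsPreconnected (Z ∪ T)ᶜ := by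
  rw [compl_eq_univ_sdiff, ← sdiff_sdiff]
  exact preconn_diff_finite (h.ns Z hZ hc _ isOpen_univ isPreconnected_univ) (isOpen_univ.sdiff hc) hT

/-- A modification of `p` over `Δ` with singular points `Y`. -/
structure Pt (p : S → OnePoint ℂ) (Δ : Set (OnePoint ℂ)) (G : S → OnePoint ℂ)
    (Y : Set (OnePoint ℂ)) : Prop where
  cont : ContinuousOn G (p ⁻¹' Δ)
  bd : ∃ K, IsClosed K ∧ K ⊆ interior Δ ∧ ∀ s, p s ∈ Δ → p s ∉ K → G s = p s
  img : G '' (p ⁻¹' Δ) = Δ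
  inj : InjOn G (p ⁻¹' Δ ∩ G ⁻¹' Yᶜ)

theorem Pt.move {Δ Y : Set (OnePoint ℂ)} {G : S → OnePoint ℂ} (h : Pt p Δ G Y) {σ : S ≃ₜ S}
    {ψ : OnePoint ℂ ≃ₜ OnePoint ℂ} (e : ∀ s, p (σ s) = ψ (p s)) :
    Pt p (ψ '' Δ) (ψ ∘ G ∘ σ.symm) (ψ '' Y) := by
  have m : ∀ (A : Set (OnePoint ℂ)) s, p s ∈ ψ '' A ↔ p (σ.symm s) ∈ A := fun A s => by
    rw [← σ.apply_symm_apply s, e, ψ.injective.mem_set_image, σ.symm_apply_apply]
  obtain ⟨K, k1, k2, k3⟩ := h.bd
  refine ⟨ψ.continuous.comp_continuousOn (h.cont.comp σ.symm.continuous.continuousOn fun s =>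
    (m _ s).1), ⟨ψ '' K, ψ.isClosedMap _ k1, ψ.image_interior Δ ▸ image_mono k2, fun s a b => ?_⟩,
    Subset.antisymm ?_ ?_, fun s a t b c => σ.symm.injective (h.inj
      ⟨(m _ s).1 a.1, fun d => a.2 ⟨_, d, rfl⟩⟩ ⟨(m _ t).1 b.1, fun d => b.2 ⟨_, d, rfl⟩⟩
      (ψ.injective c))⟩
  · simp only [Function.comp_apply]
    rw [k3 _ ((m _ s).1 a) (mt (m _ s).2 b), ← e, σ.apply_symm_apply]
  · rintro _ ⟨s, a, rfl⟩; exact ⟨_, h.img.subset ⟨_, (m _ s).1 a, rfl⟩, rfl⟩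
  · rintro _ ⟨y, a, rfl⟩
    obtain ⟨s, b, rfl⟩ := h.img.superset a
    exact ⟨σ s, (m _ _).2 (by simpa using b), by simp⟩

theorem BS.patch [Charted S] [Nonempty S] (h : BS o p q E X) {J : Set ι} {Δ Y : ι → Set (OnePoint ℂ)}
    {G : ι → S → OnePoint ℂ} {e : OnePoint ℂ} (he : e ∈ E) (hc : ∀ j ∈ J, IsClosed (Δ j))
    (hE : ∀ j ∈ J, Disjoint (Δ j) E) (hd : J.PairwiseDisjoint Δ)
    (hP : ∀ j ∈ J, Pt p (Δ j) (G j) (Y j)) (hY : ∀ j ∈ J, Y j ⊆ X ∩ Δ j)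
    (hn : ∀ W ∈ 𝓝 e, {j ∈ J | ¬ Δ j ⊆ W}.Finite) :
    ∃ P Q, BS o P Q E ((X \ ⋃ j ∈ J, Δ j) ∪ ⋃ j ∈ J, Y j) ∧ (∀ j ∈ J, ∀ s, p s ∈ Δ j → P s = G j s) ∧
      (∀ s, (∀ j ∈ J, p s ∉ Δ j) → P s = p s) ∧ (∀ j ∈ J, ∀ s, P s ∈ Δ j ↔ p s ∈ Δ j) ∧
      ∀ x ∈ E, comap P (𝓝 x) = comap p (𝓝 x) := by
  classical
  let P : S → OnePoint ℂ := fun s => if c : ∃ j ∈ J, p s ∈ Δ j then G c.choose s else p s
  have p1 : ∀ j ∈ J, ∀ s, p s ∈ Δ j → P s = G j s := fun j a s b => by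
    have c : ∃ j ∈ J, p s ∈ Δ j := ⟨j, a, b⟩
    rw [show P s = G c.choose s from dif_pos c, hd.elim_set c.choose_spec.1 a _ c.choose_spec.2 b]
  have p2 : ∀ s, (∀ j ∈ J, p s ∉ Δ j) → P s = p s := fun s a => dif_neg fun ⟨j, b, c⟩ => a j b c
  have p3 : ∀ s, (P s = p s ∧ ∀ j ∈ J, p s ∉ Δ j) ∨ ∃ j ∈ J, p s ∈ Δ j ∧ P s ∈ Δ j := fun s =>
    or_iff_not_imp_right.2 fun c =>
      have : ∀ j ∈ J, p s ∉ Δ j := fun j a b => c ⟨j, a, b, (hP j a).img.subset ⟨s, b, (p1 j a s b).symm⟩⟩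
      ⟨p2 s this, this⟩
  have p4 : ∀ j ∈ J, ∀ s, P s ∈ Δ j ↔ p s ∈ Δ j := fun j a s => by
    rcases p3 s with ⟨b, -⟩ | ⟨i, b, c, d⟩
    · rw [b]
    · exact ⟨fun m => hd.elim_set b a _ d m ▸ c, fun m => hd.elim_set b a _ c m ▸ d⟩
  have fin : ∀ K, IsClosed K → e ∉ K → {j ∈ J | (Δ j ∩ K).Nonempty}.Finite := fun K a b =>
    (hn _ (a.isOpen_compl.mem_nhds b)).subset fun j ⟨c, y, d⟩ => ⟨c, fun m => m d.1 d.2⟩
  have loc : ∀ y, ∀ W ∈ 𝓝 e, y ∉ W → W ∈ 𝓝 e → IsClosed W →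
      ∀ᶠ y' in 𝓝 y, ∀ j ∈ J, y' ∈ Δ j → y ∈ Δ j := fun y W a b _ c => by
    filter_upwards [c.isOpen_compl.mem_nhds b, (eventually_all_finite (hn W a)).2 fun j hj =>
      show ∀ᶠ y' in 𝓝 y, y' ∈ Δ j → y ∈ Δ j by
        by_cases m : y ∈ Δ j
        exacts [.of_forall fun _ _ => m,
          mem_of_superset ((hc j hj.1).isOpen_compl.mem_nhds m) fun _ u v => (u v).elim]]
      with y' u v j a m using v j ⟨a, fun n => u (n m)⟩ m
  replace loc : ∀ y ≠ e, ∀ᶠ y' in 𝓝 y, ∀ j ∈ J, y' ∈ Δ j → y ∈ Δ j := fun y hy =>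
    let ⟨W, a, b, c⟩ := exists_mem_nhds_isClosed_subset (isOpen_compl_singleton.mem_nhds hy.symm)
    loc y W a (fun m => c m rfl) a b
  have pc : Continuous P := continuous_iff_continuousAt.2 fun s => by
    have l := h.cont.continuousAt.eventually (loc (p s) fun c => h.notE s (c ▸ he))
    by_cases c : ∃ j ∈ J, p s ∈ interior (Δ j)
    · obtain ⟨j, a, b⟩ := c
      have n : p ⁻¹' Δ j ∈ 𝓝 s := h.cont.continuousAt (mem_interior_iff_mem_nhds.1 b)
      exact ((hP j a).cont.continuousAt n).congr (mem_of_superset n fun t m => (p1 j a t m).symm)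
    refine h.cont.continuousAt.congr ?_
    rcases p3 s with ⟨-, b⟩ | ⟨i, b, d, -⟩
    · exact l.mono fun t m => (p2 t fun j u v => b j u (m j u v)).symm
    · obtain ⟨K, k1, k2, k3⟩ := (hP i b).bd
      filter_upwards [l, h.cont.continuousAt (k1.isOpen_compl.mem_nhds fun m => c ⟨i, b, k2 m⟩)]
        with t u v
      by_cases m : p t ∈ Δ i
      · rw [p1 i b t m, k3 t m v]
      · exact (p2 t fun j w x => m (hd.elim_set w b _ (u j w x) d ▸ x)).symm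
  set X' := (X \ ⋃ j ∈ J, Δ j) ∪ ⋃ j ∈ J, Y j
  have sX : X' ⊆ X := union_subset sdiff_subset (iUnion₂_subset fun j a y b => (hY j a b).1)
  have cl : IsClosed (E ∪ X') := by
    convert h.isClosed_diff (W := X \ X') sdiff_subset using 1
    ext y
    exact ⟨fun a => ⟨a.imp_right (@sX y), fun b => a.elim (h.disj b.1) b.2⟩,
      fun a => a.1.imp_right fun b => by_contra fun c => a.2 ⟨b, c⟩⟩
  have prop : ∀ K, IsCompact K → Disjoint K E → IsCompact (P ⁻¹' K) := fun K a b =>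
    (h.prop _ (a.union ((fin K a.isClosed (disjoint_right.1 b he)).isCompact_biUnion
      fun j c => (hc j c.1).isCompact)) (disjoint_union_left.2 ⟨b, disjoint_iUnion₂_left.2
        fun j c => hE j c.1⟩)).of_isClosed_subset (a.isClosed.preimage pc) fun s hs =>
      (p3 s).elim (fun c => Or.inl (c.1 ▸ hs)) fun ⟨j, u, v, w⟩ => Or.inr (mem_biUnion ⟨u, _, w, hs⟩ v)
  obtain ⟨Q, b⟩ := exists_blob_of_proper pc cl (fun x a => (h.iso x (sX a)).mono fun y b c =>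
    b (c.imp_right (@sX y))) (Subset.antisymm (by
      rintro _ ⟨s, rfl⟩
      exact (p3 s).elim (fun c => c.1 ▸ h.notE s) fun ⟨j, u, _, w⟩ => disjoint_left.1 (hE j u) w)
      fun y hy => by
        by_cases c : ∃ j ∈ J, y ∈ Δ j
        · obtain ⟨j, u, v⟩ := c
          obtain ⟨s, a, rfl⟩ := (hP j u).img.superset v
          exact ⟨s, p1 j u s a⟩
        · obtain ⟨s, rfl⟩ := h.surj hy
          exact ⟨s, p2 s fun j u v => c ⟨j, u, v⟩⟩) (fun x a => h.disj (sX a)) (fun s a t _ c => by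
      rcases p3 s with ⟨u, v⟩ | ⟨j, u, v, w⟩
      · have : ∀ j ∈ J, p t ∉ Δ j := fun j x y => v j x ((p4 j x s).1 (c ▸ (p4 j x t).2 y))
        exact h.inj (fun m => a (Or.inl (u ▸ ⟨m, by simpa using v⟩))) (by rw [← u, c, p2 t this])
      · have x := (p4 j u t).1 (c ▸ w)
        have y : G j s ∉ Y j := fun m => a (Or.inr (mem_biUnion u (p1 j u s v ▸ m)))
        rw [p1 j u s v, p1 j u t x] at c
        exact (hP j u).inj ⟨v, y⟩ ⟨x, fun m => y (c ▸ m)⟩ c) prop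
  have te := h.te.mono cl (union_subset_union_right E sX)
  refine ⟨P, Q, ⟨b.ob (by simpa using te.preconn_compl subset_rfl cl finite_empty) o oS, te, prop⟩,
    p1, p2, p4, fun x hx => ?_⟩
  have key : ∀ W ∈ 𝓝 x, ∀ᶠ y in 𝓝 x, y ∈ W ∧ ∀ j ∈ J, y ∈ Δ j → Δ j ⊆ W := fun W hW => by
    refine (show ∀ᶠ y in 𝓝 x, y ∈ W from hW).and ?_
    by_cases c : x = e
    · subst c
      filter_upwards [(eventually_all_finite (hn W hW)).2 fun j hj =>
        (hc j hj.1).isOpen_compl.mem_nhds (disjoint_right.1 (hE j hj.1) hx)] with y u j a m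
        using by_contra fun n => u j ⟨a, n⟩ m
    · exact (loc x c).mono fun y u j a m => (disjoint_right.1 (hE j a) hx (u j a m)).elim
  refine le_antisymm (tendsto_iff_comap.1 fun W hW => ?_) (tendsto_iff_comap.1 fun W hW => ?_)
  · exact ⟨_, key W hW, fun s a => (p3 s).elim (fun c => show p s ∈ W from c.1 ▸ a.1)
      fun ⟨j, u, v, w⟩ => a.2 j u w v⟩
  · exact ⟨_, key W hW, fun s a => (p3 s).elim (fun c => show P s ∈ W from c.1.symm ▸ a.1)
      fun ⟨j, u, v, w⟩ => a.2 j u v w⟩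

theorem BS.closure_image (h : BS o p q E X) {C : Set S} (hC : IsClosed C) :
    closure (p '' C) ⊆ p '' C ∪ E := fun y hy => by_contra fun c => by
  obtain ⟨K, k1, k2, k3⟩ := exists_compact_subset h.clE.isOpen_compl fun m => c (Or.inr m)
  have := ((h.prop K k1 (disjoint_left.2 k3)).inter_right hC).image h.cont
  obtain ⟨_, ⟨a, b⟩, s, d, rfl⟩ := mem_closure_iff_nhds.1 hy _ (inter_mem
    (mem_interior_iff_mem_nhds.1 k2) (this.isClosed.isOpen_compl.mem_nhds fun m =>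
      c (Or.inl (image_mono inter_subset_right m))))
  exact b ⟨s, ⟨a, d⟩, rfl⟩

theorem BS.collapse [Nonempty S] (h : BS o p q E X) {I : Set ι} (hI : I.Finite)
    {C O : ι → Set (OnePoint ℂ)} {z : ι → OnePoint ℂ} {ν : OnePoint ℂ → OnePoint ℂ}
    (c : Cl I C O z ν) (hC : ∀ i ∈ I, IsClosed (C i) ∧ C i ⊆ O i)
    (hO : ∀ i ∈ I, ∀ y ∈ E ∪ X, y ∈ O i → y ∈ interior (C i)) :
    ∃ q', Blob (ν ∘ p) q' (E \ ⋃ i ∈ I, C i) ((X \ ⋃ i ∈ I, C i) ∪ z '' I) ∧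
      IsPreconnected ((E \ ⋃ i ∈ I, C i) ∪ ((X \ ⋃ i ∈ I, C i) ∪ z '' I))ᶜ := by
  set U := ⋃ i ∈ I, C i
  have uc : IsClosed U := hI.isClosed_biUnion fun i a => (hC i a).1
  have zU : z '' I ⊆ interior U := by
    rintro _ ⟨i, a, rfl⟩; exact interior_mono (subset_biUnion_of_mem a) (c.mem i a)
  have fx : ∀ y ∈ E ∪ X, y ∉ U → ν y = y := fun y a b => (c.out y fun i u v =>
    b (mem_biUnion u (interior_subset (hO i u y a v)))).self_of_nhds
  have fU : ∀ y ∈ E ∪ X, y ∈ U → ∃ i ∈ I, y ∈ interior (C i) := fun y a b =>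
    let ⟨i, u, v⟩ := mem_iUnion₂.1 b; ⟨i, u, hO i u y a ((hC i u).2 v)⟩
  have c1 : IsClosed ((E ∪ X) \ U) := by
    convert h.cl.sdiff (isOpen_interior (s := U)) using 1
    exact Set.ext fun y => ⟨fun a => ⟨a.1, fun b => a.2 (interior_subset b)⟩, fun a => ⟨a.1, fun b =>
      let ⟨i, u, v⟩ := fU y a.1 b; a.2 (interior_mono (subset_biUnion_of_mem u) v)⟩⟩
  have e1 : E \ U ∪ (X \ U ∪ z '' I) = (E ∪ X) \ U ∪ z '' I := by rw [← union_assoc, union_sdiff_distrib]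
  have nU : ∀ y w, ν y = ν w → y ∉ U → y = w := fun y w a b =>
    c.inj b (fun m => b ((c.mem_iff _).1 (a ▸ (c.mem_iff _).2 m))) a
  refine (exists_blob (c.cont.comp h.cont) (e1 ▸ c1.union (hI.image z).isClosed) ?_
    (Subset.antisymm ?_ fun y hy => ?_) ?_ (fun s a t _ b => ?_) fun A hA y a b => ?_).imp
    fun _ b => ⟨b, e1 ▸ h.te.preconn_compl sdiff_subset c1 (hI.image z)⟩
  · rw [e1]
    rintro x (a | a)
    · filter_upwards [h.iso x a.1, uc.isOpen_compl.mem_nhds a.2] with y u v w using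
        w.elim (fun w => u w.1) fun w => (v (interior_subset (zU w))).elim
    · filter_upwards [iso_finite (hI.image z) x, mem_interior_iff_mem_nhds.1 (zU a)] with y u v w
        using w.elim (fun w => (w.2 v).elim) fun w => u (Or.inr w)
  · rintro _ ⟨s, rfl⟩ a
    exact h.notE s (nU _ _ (fx _ (Or.inl a.1) a.2) a.2 ▸ a.1)
  · obtain ⟨w, rfl⟩ := c.surj y
    by_cases m : w ∈ E
    · obtain ⟨i, u, v⟩ := fU w (Or.inl m) (by_contra fun n => hy ((fx w (Or.inl m) n).symm ▸ ⟨m, n⟩))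
      obtain ⟨w', a, b⟩ := h.te.nd _ isOpen_interior ⟨w, v⟩
      exact ⟨q w', by rw [Function.comp_apply, h.pq _ b, (c.fib i u _).2 (interior_subset a),
        (c.fib i u _).2 (interior_subset v)]⟩
    · obtain ⟨s, rfl⟩ := h.surj m; exact ⟨s, rfl⟩
  · rintro x (a | a) b
    exacts [h.disj a.1 b.1, b.2 (interior_subset (zU a))]
  · have n : p s ∉ U := fun m => a (Or.inr ((c.mem_iff _).2 m))
    exact h.inj (fun m => a (Or.inl (by
      rw [Function.comp_apply, fx _ (Or.inr m) n]; exact ⟨m, n⟩))) (nU _ _ b n)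
  · refine mem_of_superset (((isClosed_closure (s := p '' A)).isCompact.image c.cont
      ).isClosed.isOpen_compl.mem_nhds ?_) fun w u ⟨s, v, x⟩ => u ⟨_, subset_closure ⟨s, v, rfl⟩, x⟩
    rintro ⟨w, u, rfl⟩
    rcases h.closure_image hA u with ⟨s, v, rfl⟩ | v
    · exact b ⟨s, v, rfl⟩
    · obtain ⟨i, x, y⟩ := fU w (Or.inl v) (by_contra fun n => a ((fx w (Or.inl v) n).symm ▸ ⟨v, n⟩))
      obtain ⟨_, m, s, n, rfl⟩ := mem_closure_iff_nhds.1 u _ (mem_interior_iff_mem_nhds.1 y)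
      exact b ⟨s, n, ((c.fib i x _).2 m).trans ((c.fib i x _).2 (interior_subset y)).symm⟩

end Pool.Agent.Lib.MP_069d55_gt.K
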