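import Pool.Agent.Lib.MP_069d55_gt.GTorus

/-! The point pushing theorem on a closed surface of positive genus. -/

open Set Topology Filter Metric OnePoint

namespace Pool.Agent.Lib.MP_069d55_gt.K

theorem DX_range {M : Type*} [TopologicalSpace M] {d : ℂ → M} (hd : IsOpenEmbedding d) :
    DX (range d) := by
  have := (DX_SR le_rfl isOpen_univ convex_univ univ_nonempty isClosed_empty isClosed_empty
    (empty_disjoint _)).image hd
  rwa [show SR 0 univ ∅ ∅ = univ by ext; simp [SR], image_univ] at this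

section
variable {M : Type*} [MetricSpace M] [Charted M] [PreconnectedSpace M]

theorem gather_nb (o : Ori M) {D Ω U Z : Set M} (hD : IsDisc D) (hΩ : IsOpen Ω)
    (hc : IsPreconnected Ω) (hDΩ : D ⊆ Ω) (hU : IsOpen U) (hUc : IsPreconnected U) (hUΩ : U ⊆ Ω)
    (hn : U.Nonempty) (hZ : Z.Finite) (hZD : Z ⊆ D) (hZU : Z ⊆ U) :
    ∃ k ∈ AA Ω, k ∈ Nb Z ∧ MapsTo k D U := by
  obtain ⟨w, w1, w2⟩ := hD.exists_notMem hΩ hDΩ
  obtain ⟨a, a1, a2⟩ := (infinite_of_open hU hn).exists_notMem_finite (finite_singleton w)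
  obtain ⟨k, k1, k2⟩ := gather_discs (hΩ.sdiff isClosed_singleton) (preconn_diff_point hc hΩ w)
    (finite_singleton ()) (D := fun _ => D) (t := fun _ => U \ {w}) (fun _ _ => hD)
    (pairwiseDisjoint_singleton _ _) (fun _ _ x hx => ⟨hDΩ hx, fun c => w2 (c ▸ hx)⟩)
    (fun _ _ => hU.sdiff isClosed_singleton) (fun _ _ => ⟨a, a1, a2⟩)
    fun _ _ => sdiff_subset_sdiff_left hUΩ
  have kO : k⁻¹ ∈ OPS o := inv_mem (OPS_of_AA k1 fun c => c.2 rfl)
  obtain ⟨l, l1, l2⟩ := multi_germ (o := o) hU hUc hZ (p := k) (f := fun _ => (k⁻¹ : M ≃ₜ M))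
    (fun i _ => kO _) k.injective.injOn (fun a _ b _ e => by simpa using e)
    (fun x hx => (k2 () rfl (hZD hx)).1) fun x hx => by simpa using hZU hx
  refine ⟨l * k, mul_mem (AA_mono hUΩ l1) (AA_mono sdiff_subset k1), fun x hx => ?_,
    fun x hx => (AA_mem_iff l1 _).2 (k2 () rfl hx).1⟩
  filter_upwards [k.continuous.continuousAt.eventually (l2 x hx)] with y hy
  rw [Homeomorph.mul_apply, hy]; simp

omit [PreconnectedSpace M] in
theorem exists_disc_finite {Ω Z : Set M} (hΩ : IsOpen Ω) (hc : IsPreconnected Ω)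
    (hn : Ω.Nonempty) (hZ : Z.Finite) (hZΩ : Z ⊆ Ω) : ∃ D, IsDisc D ∧ D ⊆ Ω ∧ Z ⊆ interior D := by
  obtain ⟨x, hx⟩ := hn
  have : Nonempty M := ⟨x⟩
  obtain ⟨D, d1, d2, d3⟩ := exists_disc_nhds (hΩ.mem_nhds hx)
  obtain ⟨q, q1, q2⟩ := exists_inj_choice hZ (fun _ => interior D) fun _ _ =>
    infinite_of_open isOpen_interior ⟨x, d2⟩
  obtain ⟨k, k1, k2⟩ := germClass_true.multi hΩ hc hZ q1 (injOn_id _)
    (fun z hz => d3 (interior_subset (q2 z hz))) hZΩ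
  refine ⟨k '' D, d1.image k, ?_, fun z hz => ?_⟩
  · rintro _ ⟨y, hy, rfl⟩; exact (AA_mem_iff k1 y).2 (d3 hy)
  · rw [← k.image_interior]; exact ⟨_, q2 z hz, (k2 z hz).1⟩

end

/-- A closed surface given as a sphere with finitely many handles. -/
structure HS {M : Type*} [TopologicalSpace M] (r : M → OnePoint ℂ) (q : OnePoint ℂ → M)
    (Y : Set (OnePoint ℂ)) : Prop extends Blob r q ∅ Y where
  fin : Y.Finite
  ne : Y.Nonempty
  hand : ∀ y ∈ Y, ∃ j o, TC j o ∧ ∃ B ∈ 𝓝 y, r ⁻¹' B ⊆ j '' {o}ᶜ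

variable {M : Type*} [MetricSpace M] [CompactSpace M] [Charted M] [PreconnectedSpace M]
  {r : M → OnePoint ℂ} {q : OnePoint ℂ → M} {Y : Set (OnePoint ℂ)} {Z : Set M} {u : M}

theorem HS.gd_one (h : HS r q Y) (hZ : Z.Finite) {Ω : Set (OnePoint ℂ)} (hΩ : DX Ω)
    {y : OnePoint ℂ} (hy : y ∈ Y) (hyΩ : y ∈ Ω) (h1 : ∀ y' ∈ Y, y' ∈ Ω → y' = y) :
    Gd Z u (r ⁻¹' Ω \ Z) := by
  refine Gd.of_compact fun K hK hs => ?_
  obtain ⟨D, d1, d2, d3⟩ := hΩ.2 _ ((hK.image h.cont).insert y) (insert_subset hyΩ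
    (image_subset_iff.2 fun x hx => (hs hx).1))
  obtain ⟨j, o, j1, B, b1, b2⟩ := h.hand y hy
  obtain ⟨U, u1, u2, u3, u4⟩ := exists_conn_nhds (inter_mem b1 (hΩ.1.mem_nhds hyΩ))
  obtain ⟨k, k1, k2, k3⟩ := gather_nb oS d1 hΩ.1 hΩ.preconn d3 u1 u4
    (u3.trans inter_subset_right) ⟨y, u2⟩ (finite_singleton y)
    (singleton_subset_iff.2 (interior_subset (d2 (mem_insert _ _)))) (singleton_subset_iff.2 u2)
  obtain ⟨Φ, f1, -⟩ := h.lift_nb (φ := k) (fun _ => Iff.rfl) fun y' hy' => by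
    by_cases c : y' ∈ Ω
    · exact k2 y' (h1 y' hy' c)
    · exact AA_eventually k1 c
  refine Gd.of_image Φ ((j1.gd (hZ.image Φ)).mono ?_)
  rintro _ ⟨x, hx, rfl⟩
  refine ⟨b2 ?_, fun c => (hs hx).2 (Φ.injective.mem_set_image.1 c)⟩
  rw [mem_preimage, f1]
  exact (u3 (k3 (interior_subset (d2 (Or.inr ⟨x, hx, rfl⟩))))).1

theorem HS.gd (h : HS r q Y) (hZ : Z.Finite) (hn : Z.Nonempty) : Gd Z u Zᶜ := by
  obtain ⟨t, t1, t2⟩ := exists_inj_choice h.fin (fun _ => range fun x : ℝ => ((x : ℂ) : OnePoint ℂ))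
    fun _ _ => infinite_range_of_injective (coe_injective.comp Complex.ofReal_injective)
  obtain ⟨m, -, m2⟩ := germClass_true.multi isOpen_univ isPreconnected_univ h.fin t1 (injOn_id _)
    (mapsTo_univ _ _) (mapsTo_univ _ _)
  let e : ℂ → OnePoint ℂ := m ∘ (↑)
  have he : IsOpenEmbedding e := m.isOpenEmbedding.comp isOpenEmbedding_coe
  have ry : ∀ y ∈ Y, ∃ x : ℝ, e x = y := fun y hy =>
    let ⟨x, hx⟩ := t2 y hy; ⟨x, (congrArg m hx).trans (m2 y hy).1⟩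
  have w : m ∞ ∉ ∅ ∪ Y := by
    rintro (c | c)
    · exact c
    · obtain ⟨x, hx⟩ := ry _ c; exact coe_ne_infty _ (m.injective hx)
  wlog hw : q (m ∞) ∈ Z generalizing Z u
  · obtain ⟨z, hz⟩ := hn
    obtain ⟨k, -, k2, -⟩ := germClass_true.move isOpen_univ isPreconnected_univ (mem_univ z)
      (mem_univ (q (m ∞)))
    exact Gd.of_image k (k.image_compl Z ▸ this (hZ.image k) ⟨_, z, hz, rfl⟩ ⟨z, hz, k2⟩)
  let A : Set ℝ := {x | e x ∈ Y}
  have hA : A.Finite := h.fin.preimage (he.injective.comp Complex.ofReal_injective).injOn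
  have dx : ∀ A' ⊆ A, DX (e '' SR 0 univ A' ∅) := fun A' a => (DX_SR le_rfl isOpen_univ convex_univ
    univ_nonempty (hA.subset a).isClosed isClosed_empty (disjoint_empty _)).image he
  have nn : ∀ A' ⊆ A, (e '' SR 0 univ A' ∅ \ (∅ ∪ Y)).Nonempty := fun A' a =>
    ((infinite_of_open (dx A' a).1 ⟨_, -Complex.I, by simp [SR], rfl⟩).sdiff
      (finite_empty.union h.fin)).nonempty
  have pc : ∀ A' ⊆ A, IsPreconnected (r ⁻¹' (e '' SR 0 univ A' ∅) \ Z) := fun A' a =>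
    preconn_diff_finite (h.preconn (dx A' a).1 (preconn_diff_finite (dx A' a).preconn (dx A' a).1
      (finite_empty.union h.fin)) fun _ => nn A' a) ((dx A' a).1.preimage h.cont) hZ
  obtain ⟨y, y1, y2⟩ := nn A subset_rfl
  obtain ⟨v, v1, v2⟩ := (infinite_of_open ((dx A subset_rfl).1.preimage h.cont)
    ⟨q y, by rwa [mem_preimage, h.pq y y2]⟩).exists_notMem_finite hZ
  refine (Gd.iUnion (U := fun x : A => r ⁻¹' (e '' SR 0 univ (A \ {x.1}) ∅) \ Z) (v := v)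
    (fun x => ((dx _ sdiff_subset).1.preimage h.cont).sdiff hZ.isClosed)
    (fun x => disjoint_sdiff_left) (fun x => ⟨let ⟨z, hz, a⟩ := v1; ⟨z, ⟨trivial,
      fun c => hz.2.1 ⟨c.1.1, c.2⟩, hz.2.2⟩, a⟩, v2⟩) (fun x x' => ?_)
    fun x => h.gd_one hZ (dx _ sdiff_subset) x.2 ⟨x, by simp [SR], rfl⟩ ?_).mono fun s hs => ?_
  · convert pc (A \ {x.1} ∪ A \ {x'.1}) (union_subset sdiff_subset sdiff_subset) using 1
    rw [← sdiff_inter_distrib_right, ← preimage_inter, ← image_inter he.injective]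
    congr 3
    ext z; simp only [SR, mem_inter_iff, mem_ofPred_eq, mem_union]; tauto
  · rintro _ hy ⟨z, hz, rfl⟩
    obtain ⟨b, hb⟩ := ry _ hy
    obtain rfl := he.injective hb
    by_contra c
    exact hz.2.1 ⟨⟨hy, fun e' => c (by rw [← show b = x.1 from e'])⟩, by simp⟩
  · obtain ⟨z, hz⟩ : ∃ z, e z = r s := by
      obtain ⟨z, hz⟩ := ne_infty_iff_exists.1 (show m.symm (r s) ≠ ∞ from fun c => hs (by
        rw [m.symm_apply_eq] at c
        rwa [← h.qp s fun a => w (Or.inr (c ▸ a)), c]))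
      exact ⟨z, by simp [e, hz]⟩
    by_cases c : z.re ∈ A
    · exact mem_iUnion.2 ⟨⟨_, c⟩, ⟨z, by simp [SR], hz⟩, hs⟩
    · obtain ⟨y, hy⟩ := h.ne
      obtain ⟨b, rfl⟩ := ry y hy
      exact mem_iUnion.2 ⟨⟨b, hy⟩, ⟨z, by simp [SR, c], hz⟩, hs⟩

theorem HS.push (h : HS r q Y) (hZ : Z.Finite) (hn : Z.Nonempty) (hu : u ∉ Z) {γ : M ≃ₜ M}
    (hγ : γ ∈ Iso0 Z) (e : γ u = u) : γ ∈ Lam (insert u Z) := by
  simpa using h.gd hZ hn 1 γ (JoinedIn.mono hγ fun g hg =>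
    ⟨hg, fun c => hu ((Fix_le_Stab hg u).1 c)⟩) e.symm

omit [Charted M] [PreconnectedSpace M] in
theorem Lam_le_Fix : Lam Z ≤ Fix Z := (Subgroup.closure_le _).2 fun _ hg =>
  hg.elim (fun a => Iso0_le_Fix a) fun ⟨_, _, _, a, b⟩ x hx => b x (a hx)

omit [Charted M] [PreconnectedSpace M] in
theorem Fix_le_Lam {Ω : Set M} (h1 : IsOpen Ω) (h2 : IsPreconnected Ω) (h3 : Z ⊆ Ω) :
    Fix Ω ≤ Lam Z := fun _ hg => Subgroup.subset_closure (Or.inr ⟨Ω, h1, h2, h3, hg⟩)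

theorem HS.mem_Lam (h : HS r q Y) (o : Ori M) (hZ : Z.Finite) {g : M ≃ₜ M} (hg : g ∈ Fix Z)
    {z : M} (hz : z ∈ Z) (hgz : ∀ᶠ y in 𝓝 z, g y = y) : g ∈ Lam Z := by
  let G : Subgroup (M ≃ₜ M) := Subgroup.closure
    {c | ∃ Ω, IsOpen Ω ∧ IsPreconnected Ω ∧ Z ⊆ Ω ∧ c ∈ Fix Ω}
  have gl : G ≤ Lam Z := Subgroup.closure_mono fun _ => Or.inr
  have e : {z} ∪ Z = Z := union_eq_right.2 (singleton_subset_iff.2 hz)
  obtain ⟨γ, a, b⟩ := levels (G := G) (gl.trans Lam_le_Fix) hg (Z1 := {z}) hZ e.subset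
    (fun Z' z1 z2 p hp hp' Λ l1 l2 γ g1 g2 => by
      have hf : (insert p Z').Finite := (hZ.subset (e ▸ z2)).insert p
      refine ((Subgroup.closure_le _).2 ?_ : Lam _ ≤ Λ)
        (h.push (hZ.subset (e ▸ z2)) ⟨z, z1 rfl⟩ hp' g1 g2)
      rintro c (hc | ⟨Ω, o1, o2, o3, o4⟩)
      · exact l1 hc
      obtain ⟨j, j1, j2⟩ := exists_Iso0_gather hf (hZ.subset sdiff_subset : (Z \ insert p Z').Finite)
        disjoint_sdiff_left o1 ⟨p, o3 (mem_insert _ _)⟩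
      have : j⁻¹ * c * j⁻¹⁻¹ ∈ G := Subgroup.subset_closure ⟨_, j⁻¹.isOpenMap _ o1,
        o2.image _ j⁻¹.continuous.continuousOn, fun x hx => ⟨j x, by
          by_cases c : x ∈ insert p Z'
          · rw [Iso0_le_Fix j1 x c]; exact o3 c
          · exact j2 ⟨hx, c⟩, by simp⟩, Fix_conj o4 _⟩
      simpa [mul_assoc] using mul_mem (mul_mem (l1 j1) (l2 this)) (inv_mem (l1 j1))) (by
      obtain ⟨D, d1, -, d3⟩ := exists_disc_finite isOpen_univ isPreconnected_univ ⟨z, trivial⟩ hZ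
        (subset_univ _)
      obtain ⟨d, c1, c2, -⟩ := d1.chart isOpen_univ (subset_univ _)
      have sd : D ⊆ range d := c2 ▸ image_subset_range _ _
      have zD := interior_subset (d3 hz)
      have dx := DX_range c1
      obtain ⟨U, u1, u2, u3, u4⟩ := exists_conn_nhds (inter_mem hgz (dx.1.mem_nhds (sd zD)))
      obtain ⟨j, j1, j2, j3⟩ := gather_nb o d1 dx.1 dx.preconn sd u1 u4
        (u3.trans inter_subset_right) ⟨z, u2⟩ (finite_singleton z) (singleton_subset_iff.2 zD)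
        (singleton_subset_iff.2 u2)
      have j4 : j ∈ Iso0 {z} := dx.iso0 j1 (sd zD) fun x hx => Or.inr ⟨hx, Nb_le_Fix j2 z rfl⟩
      refine ⟨g * j⁻¹ * g⁻¹ * j, ?_, Subgroup.subset_closure ⟨interior D, isOpen_interior,
        d1.preconn_interior, d3, fun x hx => ?_⟩⟩
      · have := Iso0_conj (inv_mem j4) g
        rw [image_singleton, hg z hz] at this
        exact mul_mem this j4
      · have := (u3 (j3 (interior_subset hx))).1
        simp only [mul_inv_rev, inv_inv, Homeomorph.mul_apply, Homeomorph.inv_apply,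
          g.symm_apply_apply, show g (j x) = j x from this, j.symm_apply_apply])
  rw [e] at a
  simpa using mul_mem (Iso0_le_Lam a) (gl b)

end Pool.Agent.Lib.MP_069d55_gt.K
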