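import Pool.Agent.Lib.MP_069d55_gt.GHat

/-! Realising homeomorphisms of the ends and permutations of the handles. -/

open Set Topology Filter Metric OnePoint

namespace Pool.Agent.Lib.MP_069d55_gt.K

theorem exists_inj_nat {α : Type*} (t : ℕ → Set α) (ht : ∀ n, (t n).Infinite) :
    ∃ q : ℕ → α, Function.Injective q ∧ ∀ n, q n ∈ t n := by
  classical
  choose c c1 c2 using fun n (s : Finset α) => (ht n).exists_notMem_finset s
  let F : ℕ → Finset α := fun n => Nat.rec ∅ (fun n s => insert (c n s) s) n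
  have m : Monotone F := monotone_nat_of_le_succ fun n => Finset.subset_insert _ _
  have k : ∀ {a b}, a < b → c a (F a) ≠ c b (F b) := fun {a b} h e =>
    c2 b (F b) (e ▸ m h (Finset.mem_insert_self _ _))
  exact ⟨fun n => c n (F n), fun a b e => by_contra fun h =>
    (lt_or_gt_of_ne h).elim (fun h => k h e) fun h => k h e.symm, fun n => c1 _ _⟩

theorem exists_inj_cnt {ι α : Type*} [Infinite α] {s : Set ι} (hs : s.Countable) (t : ι → Set α)
    (ht : ∀ i ∈ s, (t i).Infinite) : ∃ q : ι → α, InjOn q s ∧ ∀ i ∈ s, q i ∈ t i := by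
  classical
  obtain ⟨f, hf⟩ := countable_iff_exists_injOn.1 hs
  obtain ⟨q, a, b⟩ := exists_inj_nat (fun n => if h : ∃ i ∈ s, f i = n then t h.choose else univ)
    fun n => by
      split_ifs with h
      exacts [ht _ h.choose_spec.1, infinite_univ]
  refine ⟨q ∘ f, a.comp_injOn hf, fun i hi => ?_⟩
  have h : ∃ j ∈ s, f j = f i := ⟨i, hi, rfl⟩
  have := b (f i)
  rwa [dif_pos h, hf h.choose_spec.1 hi h.choose_spec.2] at this

section
variable {M : Type*} [MetricSpace M]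

/-- Maps that move all but finitely many points of `X` by less than any given amount. -/
def Null (X : Set M) (β : M → M) : Prop := ∀ ε > 0, {x ∈ X | ε ≤ dist (β x) x}.Finite

/-- `X` is a discrete set accumulating exactly on `C`. -/
structure Acc (X C : Set M) : Prop where
  fin : ∀ ε > 0, {x ∈ X | ε ≤ infDist x C}.Finite
  notMem : ∀ x ∈ X, x ∉ C
  inf : ∀ c ∈ C, ∀ U ∈ 𝓝 c, (X ∩ U).Infinite

theorem Acc.exists_inj [Infinite M] {X X' C : Set M} (h : Acc X C) (h' : Acc X' C) (hC : IsCompact C)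
    (hn : C.Nonempty) : ∃ a, InjOn a X ∧ ∀ x ∈ X, a x ∈ X' ∧ dist (a x) x ≤ 2 * infDist x C := by
  have pos := fun x hx => (hC.isClosed.notMem_iff_infDist_pos hn).1 (h.notMem x hx)
  choose c c1 c2 using fun x => hC.exists_infDist_eq_dist hn x
  have cnt : X.Countable := (countable_iUnion fun n : ℕ =>
    (h.fin _ (Nat.one_div_pos_of_nat (n := n))).countable).mono fun x hx =>
      let ⟨n, e⟩ := exists_nat_one_div_lt (pos x hx); mem_iUnion.2 ⟨n, by exact ⟨hx, e.le⟩⟩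
  obtain ⟨a, a1, a2⟩ := exists_inj_cnt cnt
    (fun x => X' ∩ ball (c x) (infDist x C)) fun x hx => h'.inf _ (c1 x) _ (ball_mem_nhds _ (pos x hx))
  refine ⟨a, a1, fun x hx => ⟨(a2 x hx).1, ?_⟩⟩
  linarith [dist_triangle_right (a x) x (c x), mem_ball.1 (a2 x hx).2, c2 x]

theorem Acc.exists_match [Infinite M] {X X' C : Set M} (h : Acc X C) (h' : Acc X' C)
    (hC : IsCompact C) (hn : C.Nonempty) : ∃ β, BijOn β X X' ∧ Null X β := by
  classical
  obtain ⟨a, a1, a2⟩ := h.exists_inj h' hC hn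
  obtain ⟨b, b1, b2⟩ := h'.exists_inj h hC hn
  obtain ⟨g, g1, g2⟩ := Function.Embedding.schroeder_bernstein_of_rel
    (f := fun x : X => (⟨a x, (a2 x x.2).1⟩ : X')) (g := fun x : X' => (⟨b x, (b2 x x.2).1⟩ : X))
    (fun x y e => Subtype.ext (a1 x.2 y.2 (congrArg Subtype.val e)))
    (fun x y e => Subtype.ext (b1 x.2 y.2 (congrArg Subtype.val e)))
    (fun x y => dist y.1 x.1 ≤ 2 * infDist x.1 C ∨ dist x.1 y.1 ≤ 2 * infDist y.1 C)
    (fun x => Or.inl (a2 x x.2).2) fun x => Or.inr (b2 x x.2).2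
  let β : M → M := fun x => if h : x ∈ X then g ⟨x, h⟩ else x
  have e : ∀ x (h : x ∈ X), β x = g ⟨x, h⟩ := fun x h => dif_pos h
  have i : InjOn β X := fun x hx y hy c => congrArg Subtype.val (g1.1 (Subtype.ext
    ((e x hx).symm.trans (c.trans (e y hy)))))
  refine ⟨β, ⟨fun x hx => e x hx ▸ (g _).2, i, fun y hy => ?_⟩, fun ε hε =>
    ((h.fin _ (half_pos hε)).union (Finite.of_finite_image (s := X ∩ β ⁻¹' _)
      ((h'.fin _ (half_pos hε)).subset (image_inter_preimage _ _ _ ▸ inter_subset_right))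
      (i.mono inter_subset_left))).subset fun x ⟨hx, c⟩ => ?_⟩
  · obtain ⟨x, hx⟩ := g1.2 ⟨y, hy⟩; exact ⟨x, x.2, by rw [e x x.2, hx]⟩
  · rcases g2 ⟨x, hx⟩ with d | d <;> rw [← e x hx] at d
    · exact Or.inl ⟨hx, by linarith⟩
    · exact Or.inr ⟨hx, e x hx ▸ (g _).2, by linarith [dist_comm x (β x)]⟩

theorem Null.contOn {E X : Set M} {β : M → M} (h : Null X β) (hE : ∀ y ∈ E, β y = y)
    (hd : ∀ x ∈ X, x ∉ E) (iso : ∀ x ∈ X, ∀ᶠ y in 𝓝 x, y ∈ E ∪ X → y = x) :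
    ContinuousOn β (E ∪ X) := by
  rintro y (hy | hy)
  · rw [ContinuousWithinAt, hE y hy, Metric.tendsto_nhds]
    intro ε hε
    filter_upwards [self_mem_nhdsWithin, mem_nhdsWithin_of_mem_nhds (ball_mem_nhds y (half_pos hε)),
      mem_nhdsWithin_of_mem_nhds ((h _ (half_pos hε)).isClosed.isOpen_compl.mem_nhds
        fun c => hd y c.1 hy)] with z a b c
    rcases a with a | a
    · rw [hE z a]; linarith [mem_ball.1 b]
    · linarith [mem_ball.1 b, dist_triangle (β z) z y, not_le.1 fun m => c ⟨a, m⟩]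
  · refine continuousWithinAt_const.congr_of_eventuallyEq ?_ rfl
    filter_upwards [self_mem_nhdsWithin, eventually_nhdsWithin_of_eventually_nhds (iso y hy)]
      with z a b using congrArg β (b a)

theorem TE.mono {E F : Set M} (h : TE F) (hE : IsClosed E) (hs : E ⊆ F) : TE E :=
  ⟨hE, h.tame.mono hs, fun t a => h.td t (a.trans hs), fun Z a => h.ns Z (a.trans hs),
    fun U a b => let ⟨x, c, d⟩ := h.nd U a b; ⟨x, c, mt (@hs x) d⟩⟩

variable [CompactSpace M] [Charted M] [PreconnectedSpace M]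

theorem TE.realize_map (o : Ori M) {F Ω A : Set M} (h : TE F) (hΩ : IsOpen Ω)
    (hc : IsPreconnected Ω) (hA : IsClosed A) (hA' : IsClosed (F \ A)) (hF : A ⊆ F) (hs : A ⊆ Ω)
    {b : M → M} (hb : ContinuousOn b A) (hi : BijOn b A A) :
    ∃ k ∈ AA Ω, k ∈ OPS o ∧ (∀ x ∈ A, k x = b x) ∧ ∀ x ∈ F \ A, k x = x := by
  rcases Ω.eq_empty_or_nonempty with rfl | n
  · exact ⟨1, one_mem _, one_mem _, fun x hx => (hs hx).elim, fun _ _ => rfl⟩
  obtain ⟨w, -, w2⟩ := h.nd Ω hΩ n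
  have s : A ⊆ (Ω \ (F \ A)) \ {w} := fun x hx => ⟨⟨hs hx, fun c => c.2 hx⟩, fun c => w2 (c ▸ hF hx)⟩
  obtain ⟨k, a, b⟩ := extend_tame ((hΩ.sdiff hA').sdiff isClosed_singleton) (preconn_diff_point
    (h.ns _ sdiff_subset hA' Ω hΩ hc) (hΩ.sdiff hA') w) hA.isCompact (h.tame.mono hF) hb hi.injOn
    (hi.image_eq.symm ▸ h.tame.mono hF) s (hi.image_eq.symm ▸ s)
  exact ⟨k, AA_mono (sdiff_subset.trans sdiff_subset) a, OPS_of_AA a fun c => c.2 rfl, b,
    fun x hx => AA_fix a fun c => c.1.2 hx⟩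

omit [CompactSpace M] [Charted M] [PreconnectedSpace M] in
theorem stab_of_bijOn {A B : Set M} {k : M ≃ₜ M} (h : BijOn k A A) (h' : ∀ x ∈ B \ A, k x = x)
    (hs : A ⊆ B) : k ∈ Stab B := mem_Stab_iff_image.2 (by
  rw [← union_sdiff_cancel hs, image_union, h.image_eq, (image_congr h').trans (image_id' _)])

end

variable {S : Type*} [TopologicalSpace S] {o : Ori S} {p : S → OnePoint ℂ} {q : OnePoint ℂ → S}
  {E X : Set (OnePoint ℂ)} [Charted S] [PreconnectedSpace S]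

/-- Realising a homeomorphism of a clopen part of the singular set. -/
theorem BS.realize (h : BS o p q E X) {Ω A : Set (OnePoint ℂ)} (hΩ : IsOpen Ω)
    (hc : IsPreconnected Ω) (hA : IsClosed A) (hA' : IsClosed ((E ∪ X) \ A)) (hF : A ⊆ E ∪ X)
    (hs : A ⊆ Ω) {b : OnePoint ℂ → OnePoint ℂ} (hb : ContinuousOn b A)
    (h1 : BijOn b (A ∩ E) (A ∩ E)) (h2 : BijOn b (A ∩ X) (A ∩ X))
    (h3 : ∀ x ∈ A ∩ X, Sim o (p ⁻¹' {x}) (p ⁻¹' {b x})) :
    ∃ Φ ∈ OPS o, ∃ ψ ∈ OPS oS, (∀ s, p (Φ s) = ψ (p s)) ∧ (∀ s, p s ∉ Ω → Φ s = s) ∧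
      (∀ x ∈ A, ψ x = b x) ∧ ∀ x ∈ (E ∪ X) \ A, ψ x = x := by
  have e : A ∩ E ∪ A ∩ X = A := by rw [← inter_union_distrib_left, inter_eq_left.2 hF]
  obtain ⟨k, k1, k2, k3, k4⟩ := h.te.realize_map oS hΩ hc hA hA' hF hs hb (e ▸ h1.union h2 (by
    rintro x (a | a) y (c | c) d
    exacts [h1.injOn a c d, (h.disj (h2.mapsTo c).2 (d ▸ (h1.mapsTo a).2)).elim,
      (h.disj (h2.mapsTo a).2 (d ▸ (h1.mapsTo c).2)).elim, h2.injOn a c d]))
  obtain ⟨Φ, a, ψ, c, d, f, g, -⟩ := h.lift_AA k2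
    (stab_of_bijOn (h1.congr fun x hx => (k3 x hx.1).symm)
      (fun x hx => k4 x ⟨Or.inl hx.1, fun m => hx.2 ⟨m, hx.1⟩⟩) inter_subset_right)
    (stab_of_bijOn (h2.congr fun x hx => (k3 x hx.1).symm)
      (fun x hx => k4 x ⟨Or.inr hx.1, fun m => hx.2 ⟨m, hx.1⟩⟩) inter_subset_right)
    (fun x hx => by
      by_cases m : x ∈ A
      · rw [k3 x m]; exact h3 x ⟨m, hx⟩
      · rw [k4 x ⟨Or.inr hx, m⟩]; exact Sim.refl _) hΩ k1 (O := fun _ => univ) fun _ _ => univ_mem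
  exact ⟨Φ, a, ψ, c, d, g, fun x hx => (f x (hF hx)).trans (k3 x hx),
    fun x hx => (f x hx.1).trans (k4 x hx)⟩

omit [Charted S] [PreconnectedSpace S] in
theorem Blob.acc (h : Blob p q E X) {A : Set (OnePoint ℂ)} (hA : IsClosed A)
    (hA' : IsClosed ((E ∪ X) \ A)) (k : OnePoint ℂ ≃ₜ OnePoint ℂ)
    (hk : k '' (A ∩ E ∩ closure X) = A ∩ E ∩ closure X) (hn : (A ∩ E ∩ closure X).Nonempty) :
    Acc (k '' (A ∩ X)) (A ∩ E ∩ closure X) := by
  refine ⟨fun ε hε => ?_, ?_, fun c hc U hU => ?_⟩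
  · have cl := (hA.preimage k.symm.continuous).inter
      (isClosed_le continuous_const (continuous_infDist_pt (A ∩ E ∩ closure X)) (f := fun _ => ε))
    by_contra c
    obtain ⟨y, y1, y2⟩ := Set.Infinite.exists_accPt_of_subset_isCompact c cl.isCompact (by
      rintro _ ⟨⟨x, hx, rfl⟩, m⟩; exact ⟨by simpa using hx.1, m⟩)
    obtain ⟨y, rfl⟩ := k.surjective y
    have y3 : y ∈ derivedSet (A ∩ X) := by
      have := k.symm.continuous.image_derivedSet k.symm.injective (mem_image_of_mem _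
        (derivedSet_mono _ _ (sep_subset _ _) y2))
      simpa [image_image] using this
    have y4 : y ∈ closure X := closure_mono inter_subset_right (derivedSet_subset_closure _ y3)
    have y5 : y ∈ E := (h.cl.closure_subset (closure_mono subset_union_right y4)).resolve_right
      fun m => let ⟨z, z1, z2⟩ := accPt_iff_nhds.1 y3 _ (h.iso y m); z2 (z1.1 (Or.inr z1.2.2))
    have := infDist_zero_of_mem (hk.subset ⟨y, ⟨⟨by simpa using y1.1, y5⟩, y4⟩, rfl⟩)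
    exact (this ▸ y1.2 : ε ≤ 0).not_gt hε
  · rintro _ ⟨x, hx, rfl⟩ c
    exact h.disj hx.2 (k.injective.mem_set_image.1 (hk.symm.subset c)).1.2
  · replace hc := hk.symm.subset hc
    obtain ⟨c, hc, rfl⟩ := hc
    refine ((h.infinite_near (e := c) hc.1.2 hc.2 (inter_mem
      (k.continuous.continuousAt.preimage_mem_nhds hU)
      (hA'.isOpen_compl.mem_nhds fun m => m.2 hc.1.1))).image k.injective.injOn).mono ?_
    rintro _ ⟨x, hx, rfl⟩
    exact ⟨⟨x, ⟨by_contra fun m => hx.2.2 ⟨Or.inr hx.1, m⟩, hx.1⟩, rfl⟩, hx.2.1⟩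

theorem Std.real_loc (h : Std o p q E X) {Ω A : Set (OnePoint ℂ)} (hΩ : IsOpen Ω)
    (hc : IsPreconnected Ω) (hA : IsClosed A) (hA' : IsClosed ((E ∪ X) \ A)) (hF : A ⊆ E ∪ X)
    (hs : A ⊆ Ω) {φ : OnePoint ℂ → OnePoint ℂ} (hφ : ContinuousOn φ (A ∩ E))
    (h1 : BijOn φ (A ∩ E) (A ∩ E)) (h2 : ∀ x ∈ A ∩ E, φ x ∈ closure X ↔ x ∈ closure X) :
    ∃ Φ ∈ OPS o, ∃ ψ ∈ OPS oS, (∀ s, p (Φ s) = ψ (p s)) ∧ (∀ s, p s ∉ Ω → Φ s = s) ∧
      (∀ x ∈ A ∩ E, ψ x = φ x) ∧ ∀ x ∈ (E ∪ X) \ A, ψ x = x := by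
  classical
  obtain ⟨k, -, -, k3, k4⟩ := (h.te.mono h.clE subset_union_left).realize_map oS hΩ hc
    (hA.inter h.clE) (by
      rw [show E \ (A ∩ E) = (E ∪ X) \ A ∩ E from Set.ext fun x => by
        simp only [Set.mem_sdiff, mem_inter_iff, mem_union]; tauto]
      exact hA'.inter h.clE)
    inter_subset_right (inter_subset_left.trans hs) hφ h1
  have kE := stab_of_bijOn (h1.congr fun x hx => (k3 x hx).symm) k4 inter_subset_right
  have hk : k '' (A ∩ E ∩ closure X) = A ∩ E ∩ closure X := by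
    refine Subset.antisymm ?_ fun y hy => ?_
    · rintro _ ⟨x, hx, rfl⟩; rw [k3 x hx.1]; exact ⟨h1.mapsTo hx.1, (h2 x hx.1).2 hx.2⟩
    · obtain ⟨x, hx, rfl⟩ := h1.surjOn hy.1; exact ⟨x, ⟨hx, (h2 x hx).1 hy.2⟩, k3 x hx⟩
  obtain ⟨β, b1, b2⟩ : ∃ β, BijOn β (k '' (A ∩ X)) (A ∩ X) ∧ Null (k '' (A ∩ X)) β := by
    rcases (A ∩ E ∩ closure X).eq_empty_or_nonempty with n | n
    · refine ⟨k.symm, ⟨?_, k.symm.injective.injOn, fun x hx => ⟨_, ⟨x, hx, rfl⟩, by simp⟩⟩,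
        fun ε _ => (Finite.image k ?_).subset (sep_subset _ _)⟩
      · rintro _ ⟨x, hx, rfl⟩; simpa using hx
      · exact (h.finite_inter (hA.inter isClosed_closure).isCompact (disjoint_left.2 fun x a b =>
          n.subset ⟨⟨a.1, b⟩, a.2⟩)).subset fun x hx => ⟨hx.2, hx.1, subset_closure hx.2⟩
    · have := h.acc hA hA' 1 (image_id _) n
      exact (h.acc hA hA' k hk n).exists_match (image_id (A ∩ X) ▸ this)
        ((hA.inter h.clE).inter isClosed_closure).isCompact n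
  let b : OnePoint ℂ → OnePoint ℂ := E.piecewise id β
  have nE : ∀ y ∈ k '' (A ∩ X), y ∉ E := by
    rintro _ ⟨x, hx, rfl⟩ c; exact h.disj hx.2 ((kE x).1 c)
  have e1 : ∀ y ∈ E, b y = y := fun y hy => piecewise_eq_of_mem _ _ _ hy
  have e2 : ∀ y ∈ k '' (A ∩ X), b y = β y := fun y hy => piecewise_eq_of_notMem _ _ _ (nE y hy)
  have e3 : ∀ x ∈ A ∩ E, b (k x) = φ x := fun x hx => by rw [e1 _ ((kE x).2 hx.2), k3 x hx]
  have bc : ContinuousOn b (E ∪ k '' (A ∩ X)) := Null.contOn (fun ε hε => (b2 ε hε).subset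
    fun y hy => ⟨hy.1, e2 y hy.1 ▸ hy.2⟩) e1 nE (by
      rintro _ ⟨x, hx, rfl⟩
      refine (lh_homeo k x).of_comp ((h.iso x hx.2).mono fun y a c => congrArg k (a ?_))
      exact c.imp (kE y).1 fun c => (k.injective.mem_set_image.1 c).2)
  have b3 : BijOn (b ∘ k) (A ∩ X) (A ∩ X) :=
    (b1.congr fun y hy => (e2 y hy).symm).comp k.injective.injOn.bijOn_image
  obtain ⟨Φ, a, ψ, c, d, f, g, i⟩ := h.realize hΩ hc hA hA' hF hs (b := b ∘ k)
    (bc.comp k.continuous.continuousOn fun x hx => (hF hx).imp (kE x).2 fun m => ⟨x, ⟨hx, m⟩, rfl⟩)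
    (h1.congr fun x hx => (e3 x hx).symm) b3 fun x hx => h.sim hx.2 (b3.mapsTo hx).2
  exact ⟨Φ, a, ψ, c, d, f, fun x hx => (g x hx.1).trans (e3 x hx), i⟩

end Pool.Agent.Lib.MP_069d55_gt.K
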