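import Pool.Agent.Lib.MP_069d55_gt.GPush

/-! Surfaces given as spheres with ends removed and handles attached. -/

open Set Topology Filter Metric OnePoint Pool.Agent.Lib.MP_1e9af3_an

namespace Pool.Agent.Lib.MP_069d55_gt.K

/-- The puncture of the torus. -/
noncomputable def oo : Tor := (((1 / 2 : ℝ) : UnitAddCircle), ((1 / 2 : ℝ) : UnitAddCircle))

theorem half_ne : ((1 / 2 : ℝ) : UnitAddCircle) ≠ 0 := fun h => by
  have := circ_inj 0 (show (1 / 2 : ℝ) ∈ Ico 0 (0 + 1) by norm_num)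
    (show (0 : ℝ) ∈ Ico 0 (0 + 1) by norm_num) h
  norm_num at this

theorem neg_half : -((1 / 2 : ℝ) : UnitAddCircle) = ((1 / 2 : ℝ) : UnitAddCircle) := by
  rw [neg_eq_iff_add_eq_zero, ← AddCircle.coe_add, add_halves, AddCircle.coe_period]

theorem ne_oo {t : Tor} (h : t.1 = 0 ∨ t.2 = 0) : t ≠ oo := by
  rintro rfl; exact h.elim half_ne half_ne

theorem ld_conj : ld Complex.conjCLE.toHomeomorph 0 = -1 := ld_eq
  ((locInj_homeo _ 0 one_pos).hasDeg_of ((hasWind_ee 0).inv.congr fun θ => by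
    simp [lp, ee, tpi, ← Complex.exp_conj, ← Complex.exp_neg, map_ofNat]))

variable {S : Type*} [TopologicalSpace S] {o : Ori S} {p : S → OnePoint ℂ} {q : OnePoint ℂ → S}
  {E X : Set (OnePoint ℂ)}

/-- A handle over `U`. -/
structure Hd (p : S → OnePoint ℂ) (x : OnePoint ℂ) (U : Set (OnePoint ℂ)) (j : Tor → S)
    (c : S → Tor) : Prop where
  op : IsOpen U
  mem : x ∈ U
  tc : TC j oo
  rg : j '' {oo}ᶜ = p ⁻¹' U
  cont : Continuous c
  cj : ∀ t ≠ oo, c (j t) = t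
  out : ∀ s, p s ∉ U → c s = oo
  fib : ∀ t ≠ oo, p (j t) = x ↔ t.1 = 0 ∨ t.2 = 0

section
variable {x x' : OnePoint ℂ} {U U' : Set (OnePoint ℂ)} {j j' : Tor → S} {c c' : S → Tor}

theorem exists_Hd [T2Space S] (hp : Continuous p) (hU : IsOpen U) (hx : x ∈ U)
    (e : p ⁻¹' U ≃ₜ {t : Tor // t ≠ oo}) (he : ∀ s, p s.1 = x ↔ (e s).1.1 = 0 ∨ (e s).1.2 = 0) :
    ∃ j c, Hd p x U j c := by
  classical
  have a : IsOpenEmbedding fun t : {t : Tor // t ≠ oo} => (e.symm t).1 :=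
    (hU.preimage hp).isOpenEmbedding_subtypeVal.comp e.symm.isOpenEmbedding
  have b : IsOpenEmbedding (Subtype.val : {t : Tor // t ≠ oo} → Tor) :=
    isOpen_ne.isOpenEmbedding_subtypeVal
  let j : Tor → S := fun t => if h : t = oo then (e.symm ⟨0, ne_oo (Or.inl rfl)⟩).1
    else (e.symm ⟨t, h⟩).1
  let c : S → Tor := fun s => if h : p s ∈ U then (e ⟨s, h⟩).1 else oo
  have j1 : ∀ t : {t : Tor // t ≠ oo}, j t = (e.symm t).1 := fun t => dif_neg t.2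
  have c1 : ∀ t, c (e.symm t).1 = t := fun t => by
    simp only [c, dif_pos (show p (e.symm t).1 ∈ U from (e.symm t).2)]; simp
  have c2 : ∀ s, p s ∉ U → c s = oo := fun s h => dif_neg h
  have ex : ∀ s, p s ∈ U → ∃ t, (e.symm t).1 = s := fun s h => ⟨e ⟨s, h⟩, by simp⟩
  refine ⟨j, c, hU, hx, ⟨fun t ht => ?_, fun t ht t' ht' h => ?_⟩, ?_,
    continuous_iff_continuousAt.2 fun s => ?_, fun t ht => by rw [j1 ⟨t, ht⟩, c1], c2,
    fun t ht => by rw [j1 ⟨t, ht⟩, he]; simp⟩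
  · obtain ⟨g, g0, g1, g2, -⟩ := (lh_emb b ⟨t, ht⟩).inv
    exact (g0.comp (lh_emb a _)).congr ((lh_emb b ⟨t, ht⟩).of_comp (g2.mono fun y hy => by
      simp only [Function.comp_apply, hy, j1]))
  · exact (c1 ⟨t, ht⟩).symm.trans (by rw [← j1, h, j1 ⟨t', ht'⟩, c1])
  · ext s; constructor
    · rintro ⟨t, ht, rfl⟩; rw [j1 ⟨t, ht⟩]; exact (e.symm _).2
    · intro h; obtain ⟨t, rfl⟩ := ex s h; exact ⟨t, t.2, j1 t⟩
  · by_cases h : p s ∈ U
    · obtain ⟨t, rfl⟩ := ex s h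
      exact a.continuousAt_iff.1 (continuous_subtype_val.continuousAt.congr
        (.of_forall fun t => (c1 t).symm))
    · rw [ContinuousAt, c2 s h, _root_.tendsto_nhds]
      intro W W1 W2
      filter_upwards [((b.isInducing.isCompact_preimage' W1.isClosed_compl.isCompact
        fun t ht => ⟨⟨t, fun e => ht (e ▸ W2)⟩, rfl⟩).image a.continuous).isClosed.isOpen_compl.mem_nhds
        (fun ⟨t, _, e'⟩ => h (e' ▸ (e.symm t).2))] with y hy
      by_cases h' : p y ∈ U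
      · obtain ⟨t, rfl⟩ := ex y h'
        rw [mem_preimage, c1]; exact by_contra fun m => hy ⟨t, m, rfl⟩
      · rwa [mem_preimage, c2 y h']

theorem Hd.mem_U (h : Hd p x U j c) {t : Tor} (ht : t ≠ oo) : p (j t) ∈ U := h.rg.subset ⟨t, ht, rfl⟩

theorem Hd.jc (h : Hd p x U j c) {s : S} (hs : p s ∈ U) : c s ≠ oo ∧ j (c s) = s := by
  obtain ⟨t, ht, rfl⟩ := h.rg.symm.subset hs
  rw [h.cj t ht]; exact ⟨ht, rfl⟩

theorem Hd.preconn (h : Hd p x U j c) : IsPreconnected (p ⁻¹' U) := by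
  rw [← h.rg, compl_eq_univ_sdiff]
  exact (preconn_diff_point isPreconnected_univ isOpen_univ oo).image _ (h.tc.cont fun c => c.2 rfl)

theorem Hd.isOpen (h : Hd p x U j c) : IsOpen (p ⁻¹' U) :=
  h.rg ▸ h.tc.isOpen isOpen_compl_singleton fun c => c rfl

theorem Hd.fib' (h : Hd p x U j c) {s : S} (hs : p s = x) : (c s).1 = 0 ∨ (c s).2 = 0 :=
  let ⟨a, b⟩ := h.jc (hs ▸ h.mem : p s ∈ U); (h.fib _ a).1 (b.symm ▸ hs)

theorem Hd.oph (h : Hd p x U j c) (h' : Hd p x' U' j' c') : ∃ g : OpenPartialHomeomorph S S,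
    g.source = p ⁻¹' U ∧ g '' (p ⁻¹' {x}) = p ⁻¹' {x'} ∧ ∀ s, g s = j' (c s) := by
  have cn : ∀ {x x' U U' j j' c c'}, Hd p x U j c → Hd p x' U' j' c' →
      ContinuousOn (fun s => j' (c s)) (p ⁻¹' U) := fun h h' =>
    (h'.tc.cont (U := {oo}ᶜ) fun c => c rfl).comp h.cont.continuousOn fun s hs => (h.jc hs).1
  refine ⟨⟨⟨⟨fun s => j' (c s), fun s => j (c' s), p ⁻¹' U, p ⁻¹' U', fun s hs => h'.mem_U (h.jc hs).1,
    fun s hs => h.mem_U (h'.jc hs).1, fun s hs => by rw [h'.cj _ (h.jc hs).1, (h.jc hs).2],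
    fun s hs => by rw [h.cj _ (h'.jc hs).1, (h'.jc hs).2]⟩, cn h h', cn h' h⟩, h.isOpen, h'.isOpen⟩,
    rfl, Set.ext fun s => ⟨?_, fun hs => ⟨j (c' s), (h.fib _ (ne_oo (h'.fib' hs))).2 (h'.fib' hs), ?_⟩⟩,
    fun _ => rfl⟩
  · rintro ⟨s, hs, rfl⟩; exact (h'.fib _ (ne_oo (h.fib' hs))).2 (h.fib' hs)
  · change j' (c (j (c' s))) = s
    rw [h.cj _ (ne_oo (h'.fib' hs)), (h'.jc (hs.symm ▸ h'.mem : p s ∈ U')).2]

theorem Hd.flip (h : Hd p x U j c) :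
    Hd p x U (j ∘ Prod.map id Neg.neg) (Prod.map id Neg.neg ∘ c) := by
  have f0 : Prod.map id Neg.neg oo = oo := Prod.ext rfl neg_half
  have ff : ∀ t : Tor, Prod.map id Neg.neg (Prod.map id Neg.neg t) = t := fun t => by simp [Prod.map]
  have n : ∀ t ≠ oo, Prod.map id Neg.neg t ≠ oo := fun t ht e => ht (by rw [← ff t, e, f0])
  refine ⟨h.op, h.mem, ⟨fun t ht => ((lh_id t.1).prodMap (lh_homeo (Homeomorph.neg _) t.2)).comp
    (h.tc.lh _ (n t ht)), fun t ht t' ht' e => by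
      rw [← ff t, h.tc.inj (n t ht) (n t' ht') e, ff]⟩, ?_, (continuous_id.prodMap continuous_neg).comp
    h.cont, fun t ht => by simp only [Function.comp_apply, h.cj _ (n t ht), ff],
    fun s hs => by simp only [Function.comp_apply, h.out s hs, f0],
    fun t ht => (h.fib _ (n t ht)).trans (by simp)⟩
  rw [← h.rg]
  ext s; exact ⟨fun ⟨t, a, b⟩ => ⟨_, n t a, b⟩, fun ⟨t, a, b⟩ => ⟨_, n t a, by simpa [ff] using b⟩⟩

theorem Hd.sim [Charted S] (h : Hd p x U j c) (h' : Hd p x' U' j' c') (o : Ori S) :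
    Sim o (p ⁻¹' {x}) (p ⁻¹' {x'}) := by
  have key : ∀ {x' U' j' c'}, Hd p x' U' j' c' → ∀ d, Sg o o (fun s => j' (c s)) (j 0) d →
      ∃ g : OpenPartialHomeomorph S S, p ⁻¹' {x} ⊆ g.source ∧ g '' (p ⁻¹' {x}) = p ⁻¹' {x'} ∧
        ∀ s ∈ g.source, Sg o o g s d := fun h' d hd => by
    obtain ⟨g, a, b, e⟩ := h.oph h'
    exact ⟨g, a ▸ fun s (hs : p s = x) => (hs.symm ▸ h.mem : p s ∈ U), b, fun s hs => (hd.congr (.of_forall
      fun s => (e s).symm)).prop (a ▸ h.preconn) (fun y hy => lh_oph g hy)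
      (a ▸ h.mem_U (ne_oo (Or.inl rfl))) hs⟩
  have z : (0 : Tor) ≠ oo := ne_oo (Or.inl rfl)
  have lh : ∀ {x' U' j' c'}, Hd p x' U' j' c' → LH (fun s => j' (c s)) (j 0) := fun h' =>
    let ⟨g, a, _, e⟩ := h.oph h'
    (lh_oph g (a ▸ h.mem_U z)).congr (.of_forall e)
  obtain ⟨d, hd⟩ := (lh h').exists_sg o o
  rcases hd.cases with rfl | rfl
  · exact key h' 1 hd
  refine key h'.flip 1 ?_
  let e : ℂ → Tor := Prod.map ((↑) : ℝ → UnitAddCircle) ((↑) : ℝ → UnitAddCircle) ∘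
    Complex.equivRealProdCLM.toHomeomorph
  have e0 : e 0 = 0 := by simp [e]
  have le : LH e 0 := (lh_homeo _ _).comp ((lh_circ _).prodMap (lh_circ _))
  have lj : ∀ {x U j c}, Hd p x U j c → LH (j ∘ e) 0 := fun h => le.comp (e0 ▸ h.tc.lh _ z)
  have ev : ∀ᶠ u in 𝓝 0, c (j (e u)) = e u :=
    (le.contAt.eventually (isOpen_ne.mem_nhds (e0 ▸ z))).mono fun u hu => h.cj _ hu
  refine sg_of_chart (lh h'.flip) (lj h) (congrArg j e0) ?_
  have a := hd.2 _ 0 (lj h) (congrArg j e0)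
  replace a := (o.congr (e := j' ∘ e) (ev.mono fun u hu => congrArg j' hu.symm)).trans a
  refine (o.congr (e' := (j' ∘ e) ∘ Complex.conjCLE.toHomeomorph) (ev.mono fun u hu => by
    simp only [Function.comp_apply, hu]; simp [e, Prod.map])).trans ?_
  rw [o.comp (lh_homeo _ _) (by simpa using lj h'), ld_conj]
  simp [a]

end

/-- A collapse onto the sphere with tame singular set. -/
structure BS (o : Ori S) (p : S → OnePoint ℂ) (q : OnePoint ℂ → S) (E X : Set (OnePoint ℂ)) : Prop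
    extends OB o oS p q E X where
  te : TE (E ∪ X)
  prop : ∀ K, IsCompact K → Disjoint K E → IsCompact (p ⁻¹' K)

/-- The standard model. -/
structure Std (o : Ori S) (p : S → OnePoint ℂ) (q : OnePoint ℂ → S) (E X : Set (OnePoint ℂ)) : Prop
    extends BS o p q E X where
  hand : ∀ x ∈ X, ∀ W ∈ 𝓝 x, ∃ U ⊆ W, ∃ j c, Hd p x U j c

theorem Std.sim [Charted S] (h : Std o p q E X) {x x' : OnePoint ℂ} (hx : x ∈ X) (hx' : x' ∈ X) :
    Sim o (p ⁻¹' {x}) (p ⁻¹' {x'}) :=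
  let ⟨_, _, _, _, a⟩ := h.hand x hx univ univ_mem
  let ⟨_, _, _, _, b⟩ := h.hand x' hx' univ univ_mem
  a.sim b o

/-- A disc whose boundary misses `F`. -/
def CD {M : Type*} [TopologicalSpace M] (F D : Set M) : Prop :=
  IsDisc D ∧ ∀ y ∈ F, y ∈ D → y ∈ interior D

theorem CD.image {M : Type*} [TopologicalSpace M] {F D : Set M} (h : CD F D) {k : M ≃ₜ M}
    (hk : k ∈ Stab F) : CD F (k '' D) := ⟨h.1.image k, by
  rintro _ hy ⟨y, a, rfl⟩; rw [← k.image_interior]; exact ⟨y, h.2 y ((hk y).1 hy) a, rfl⟩⟩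

theorem TE.discs {M ι : Type*} [MetricSpace M] [CompactSpace M] {F E : Set M} (h : TE F)
    (hE : IsClosed E) (hF : E ⊆ F) {O : ι → Set M} (hO : ∀ i, IsOpen (O i)) (hc : E ⊆ ⋃ i, O i)
    {δ : ℝ} (hδ : 0 < δ) : ∃ 𝒟 : Set (Set M), 𝒟.Finite ∧ (∀ D ∈ 𝒟, CD F D ∧ Sm δ D ∧
      (∃ i, D ⊆ O i) ∧ (D ∩ E).Nonempty) ∧ 𝒟.PairwiseDisjoint id ∧
      ∀ x ∈ E, ∃ D ∈ 𝒟, x ∈ interior D := by
  obtain ⟨𝒟, a, b, c, d⟩ := h.tame.cover h.closed.isCompact (O := fun i : Option ι => i.elim Eᶜ O)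
    (by rintro (_ | i); exacts [hE.isOpen_compl, hO i]) (fun x _ => by
      by_cases e : x ∈ E
      · obtain ⟨i, hi⟩ := mem_iUnion.1 (hc e); exact mem_iUnion.2 ⟨Option.some i, hi⟩
      · exact mem_iUnion.2 ⟨none, e⟩) hδ
  refine ⟨{D ∈ 𝒟 | (D ∩ E).Nonempty}, a.subset (sep_subset _ _), fun D ⟨hD, n⟩ =>
    ⟨⟨(b D hD).1, fun y hy hyD => ?_⟩, (b D hD).2.1, ?_, n⟩, c.subset (sep_subset _ _),
    fun x hx => let ⟨D, d1, d2⟩ := d x (hF hx); ⟨D, ⟨d1, x, interior_subset d2, hx⟩, d2⟩⟩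
  · obtain ⟨D', hD', hy'⟩ := d y hy
    rwa [c.elim_set hD hD' y hyD (interior_subset hy')]
  · obtain ⟨_ | i, hi⟩ := (b D hD).2.2
    · exact absurd n.some_mem.2 (hi n.some_mem.1)
    · exact ⟨i, hi⟩

theorem Blob.finite_inter {M : Type*} [TopologicalSpace M] {p : S → M} {q : M → S} {E X : Set M}
    (h : Blob p q E X) {K : Set M} (hK : IsCompact K) (hd : Disjoint K E) : (X ∩ K).Finite := by
  by_contra c
  obtain ⟨y, y1, y2⟩ := Set.Infinite.exists_accPt_of_subset_isCompact c hK inter_subset_right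
  have y3 : y ∈ X := (h.cl.closure_subset (closure_mono (inter_subset_left.trans subset_union_right)
    (mem_closure_iff_clusterPt.2 y2.clusterPt))).resolve_left (disjoint_left.1 hd y1)
  obtain ⟨z, z1, z2⟩ := accPt_iff_nhds.1 y2 _ (h.iso y y3)
  exact z2 (z1.1 (Or.inr z1.2.1))

theorem Blob.isClosed_diff {M : Type*} [TopologicalSpace M] {p : S → M} {q : M → S} {E X : Set M}
    (h : Blob p q E X) {W : Set M} (hW : W ⊆ X) : IsClosed ((E ∪ X) \ W) := by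
  refine isOpen_compl_iff.1 (isOpen_iff_mem_nhds.2 fun y hy => ?_)
  by_cases c : y ∈ E ∪ X
  · have : y ∈ W := by_contra fun m => hy ⟨c, m⟩
    exact (h.iso y (hW this)).mono fun z hz m => m.2 (hz m.1 ▸ this)
  · exact mem_of_superset (h.cl.isOpen_compl.mem_nhds c) fun z hz m => hz m.1

theorem nhds_one_basis {A : Set (S ≃ₜ S)} (hA : A ∈ 𝓝 1) : ∃ T : Set (Set S × Set S), T.Finite ∧
    (∀ a ∈ T, IsCompact a.1 ∧ IsOpen a.2 ∧ a.1 ⊆ a.2) ∧
    ∀ g : S ≃ₜ S, (∀ a ∈ T, MapsTo g a.1 a.2) → g ∈ A := by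
  rw [nhds_induced] at hA
  obtain ⟨B, b1, b2⟩ := hA
  obtain ⟨T, t1, t2, t3⟩ := ContinuousMap.mem_nhds_iff.1 b1
  exact ⟨T, t1, fun a ha => t2 _ _ ha, fun g hg => b2 (t3 fun K U h => hg _ h)⟩

theorem nhds_one_fix {A : Set (S ≃ₜ S)} (hA : A ∈ 𝓝 1) :
    ∃ K, IsCompact K ∧ ∀ g : S ≃ₜ S, g ∈ Fix K → g ∈ A :=
  let ⟨_, t1, t2, t3⟩ := nhds_one_basis hA
  ⟨_, t1.isCompact_biUnion fun a ha => (t2 a ha).1, fun g hg => t3 g fun a ha x hx =>
    (hg x (mem_biUnion ha hx)).symm ▸ (t2 a ha).2.2 hx⟩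

theorem ev_mapsTo {K U : Set S} (hK : IsCompact K) (hU : IsOpen U) (h : K ⊆ U) :
    ∀ᶠ g : S ≃ₜ S in 𝓝 1, MapsTo g K U :=
  continuous_toC.continuousAt (ContinuousMap.eventually_mapsTo (f := ((1 : S ≃ₜ S) : C(S, S))) hK hU h)

end Pool.Agent.Lib.MP_069d55_gt.K
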