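import Pool.Agent.Lib.MP_069d55_gt.GExo

/-! Homeomorphisms that are the identity near some ends. -/

open Set Topology Filter Metric OnePoint

namespace Pool.Agent.Lib.MP_069d55_gt.K

theorem dat_of {S M : Type*} [TopologicalSpace S] [TopologicalSpace M] {u a b : S → M}
    (hu : Continuous u) {τ τ' : S ≃ₜ S} {θ θ' : M ≃ₜ M} {φ : M → M} {w : M} {V : Set S}
    (hV : IsOpen V) (h1 : ∀ s, u s = w → s ∈ V) (h2 : ∀ s ∈ V, a (τ s) = θ (u s))
    (h3 : ∀ s ∈ V, b (τ' s) = θ' (u s)) (h4 : ∀ s, a (τ s) = θ w → u s = w)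
    (h5 : ∀ s, b (τ' s) = θ' w → u s = w) (hφ : ∀ᶠ y in 𝓝 (θ w), φ y = θ' (θ.symm y)) :
    Dat2 a b φ (θ w) (τ' * τ⁻¹).toOpenPartialHomeomorph := by
  refine ⟨subset_univ _, ?_, eventually_nhdsSet_iff_forall.2 fun t ht => ?_⟩
  · rw [hφ.self_of_nhds, θ.symm_apply_apply]
    ext t
    obtain ⟨s, rfl⟩ := τ'.surjective t
    refine ⟨fun ⟨t, c, d⟩ => ?_, fun c => ⟨τ s, ?_, by simp⟩⟩
    · obtain rfl : t = τ s := by simpa [Homeomorph.symm_apply_eq] using d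
      rw [mem_preimage, h3 s (h1 s (h4 s c)), h4 s c]; rfl
    · rw [mem_preimage, h2 s (h1 s (h5 s c)), h5 s c]; rfl
  · obtain ⟨s, rfl⟩ := τ.surjective t
    refine (lh_homeo τ s).of_comp ?_
    filter_upwards [hV.mem_nhds (h1 s (h4 s ht)),
      (θ.continuous.comp hu).continuousAt.eventually (h4 s ht ▸ hφ :)] with t c d
    simp [h2 t c, h3 t c, show φ (θ (u t)) = _ from d]

variable {S : Type*} [TopologicalSpace S] {o : Ori S} {p : S → OnePoint ℂ} {q : OnePoint ℂ → S}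
  {E X : Set (OnePoint ℂ)} [T2Space S] [Charted S] [ConnectedSpace S]

omit [T2Space S] [Charted S] [ConnectedSpace S] in
theorem Ex.sing {g : S ≃ₜ S} {B B' Δ : Set (OnePoint ℂ)} {μ : OnePoint ℂ → OnePoint ℂ}
    {𝒬 : Set (Set (OnePoint ℂ))} {x : Bool → OnePoint ℂ} {Λ : OnePoint ℂ ≃ₜ OnePoint ℂ}
    {P : S → OnePoint ℂ} (h : Ex p E X g B B' μ 𝒬 Δ x Λ P) {y : OnePoint ℂ}
    (hy : y ∈ E ∪ (X \ Δ ∪ range x)) (hB : y ∈ Λ '' B') : y ∈ interior (Λ '' B) := by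
  have a : ∀ Q ∈ 𝒬, y ∈ Q → y ∈ interior (Λ '' B) := fun Q u v =>
    (h.side Q u).elim (fun c => c.2 v) fun c => (disjoint_left.1 c.2 v hB).elim
  rcases hy with b | b | ⟨_ | _, rfl⟩
  · obtain ⟨Q, u, v⟩ := h.cov y b; exact a Q u (interior_subset v)
  · obtain ⟨Q, u, v⟩ := mem_iUnion₂.1 (by_contra fun c => b.2 (h.covΔ ⟨b.1, c⟩) : y ∈ ⋃ Q ∈ 𝒬, Q)
    exact a Q u v
  exacts [(h.x0 hB).elim, h.x1]

theorem Std.swap (h : Std o p q E X) {f : S ≃ₜ S} (hf : f ∈ OPS o) {D : Set (OnePoint ℂ)}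
    (hD : CD (E ∪ X) D) (hDE : Disjoint D E) {𝒢 : Set (Set (OnePoint ℂ))} (h1 : 𝒢.Finite)
    (h2 : 𝒢.PairwiseDisjoint id) {e : OnePoint ℂ}
    (h3 : ∀ Q ∈ 𝒢, CD (E ∪ X) Q ∧ Disjoint Q D ∧ e ∉ Q ∧ ∀ s, p s ∈ Q → f s = s) (he : e ∈ E)
    (hX : e ∈ closure X) : ∃ n ∈ AA univ, (∀ Q ∈ 𝒢, ∀ s, p s ∈ Q → n s = s) ∧
      ∃ B, CD (E ∪ X) B ∧ (E ∪ X) ∩ D ⊆ B ∧ B ⊆ D ∧ ∀ s, p s ∈ B → n (f s) = s := by
  classical
  obtain ⟨C, O, z, ν, B, B', w, μ, g⟩ := hD.geo h.cl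
  obtain ⟨o1, o2⟩ := preconn_diff_discs isOpen_univ isPreconnected_univ h1
    (D := fun Q => Q) (fun Q a => (h3 Q a).1.1) h2 fun _ _ => subset_univ _
  obtain ⟨n, n1, 𝒬, Δ, x, Λ, P, ex, n2, s1, Qe, q1, q2, q3⟩ := h.ex hf g (fun x a => ⟨false, g.out
    fun b => disjoint_left.1 hDE (interior_subset b) a, (h.far' f.symm
      isOpen_interior.isClosed_compl.isCompact (hDE.mono_left ((compl_subset_comm.1 g.out).trans
        interior_subset)) a).mono fun s b =>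
      interior_subset (not_not.1 b)⟩) h1 h2 h3 he hX
    (o1.mem_nhds ⟨trivial, by simpa using fun Q a => (h3 Q a).2.2.1⟩)
  have sB : B ⊆ B' := g.s2.trans interior_subset
  have sD : B' ⊆ D := g.s3.trans interior_subset
  have fB : (E ∪ X) ∩ D ⊆ interior B := g.inn.trans (interior_subset.trans ((g.op _).2.2.trans g.s1))
  have sd : ∀ Q ∈ 𝒬, (∃ y ∈ Q, y ∉ D) → Disjoint Q B' ∧ Disjoint Q (Λ '' B') := fun Q a ⟨y, u, v⟩ =>
    (ex.side Q a).resolve_left fun c => v (sD (sB (interior_subset (c.1 u))))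
  have qe := sd Qe q1 ⟨e, interior_subset q2, disjoint_right.1 hDE he⟩
  obtain ⟨σ, -, ψ, m2, m3, m4, m5, m6, m7, -, m9⟩ := h.move_blob o1 o2 (Δ := B')
    ⟨g.dB', fun y a b => interior_mono sB (fB ⟨a, sD b⟩)⟩ (hDE.mono_left sD)
    (fun y a => ⟨trivial, by simpa using fun Q u v => disjoint_left.1 (h3 Q u).2.1 v (sD a)⟩)
    isOpen_interior (ex.cd Qe q1).1.preconn_interior (interior_subset.trans q3) he hX q2
  obtain ⟨P', Q', bP, b1, b2, b3, -⟩ := h.patch (J := {()}) (Δ := fun _ => Δ) (Y := fun _ => range x)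
    (G := fun _ => P) he (fun _ _ => ex.cdΔ.1.isCompact.isClosed) (fun _ _ => disjoint_left.2
      fun y a b => let ⟨Q, u, v⟩ := ex.cov y b; disjoint_left.1 (ex.djΔ Q u) a (interior_subset v))
    (pairwiseDisjoint_singleton _ _) (fun _ _ => ex.pt) (fun _ _ => range_subset_iff.2 ex.xin)
    fun _ _ => toFinite _
  obtain rfl : P' = P := funext fun s => by
    by_cases a : p s ∈ Δ
    exacts [b1 () rfl s a, (b2 s fun _ _ => a).trans (ex.off s a).symm]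
  simp only [biUnion_singleton] at bP
  let θ : Bool → OnePoint ℂ ≃ₜ OnePoint ℂ := fun k => cond k Λ ψ
  let τ : Bool → S ≃ₜ S := fun k => cond k (n * f) σ
  have θO : ∀ k, θ k ∈ OPS oS := by rintro (_ | _); exacts [m7, ex.ops]
  have nΔ : ∀ y ∈ ψ '' B', y ∉ Δ := fun y a =>
    disjoint_right.1 (ex.djΔ Qe q1) (interior_subset (m6 a))
  have dj : (univ : Set Bool).PairwiseDisjoint fun k => θ k '' interior B' := by
    have : Disjoint (ψ '' interior B') (Λ '' interior B') := qe.2.mono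
      ((image_mono interior_subset).trans (m6.trans interior_subset)) (image_mono interior_subset)
    rintro (_ | _) - (_ | _) - a
    exacts [(a rfl).elim, this, this.symm, (a rfl).elim]
  obtain ⟨ν₂, c, c'⟩ := exists_Cl_of finite_univ (C := fun k => θ k '' B)
    (z := fun k => θ k w) (fun k _ => image_mono g.s2) (fun k _ => g.cl'.conj (θ k)) dj
  have hO : ∀ k ∈ univ, ∀ y ∈ E ∪ (X \ Δ ∪ range x), y ∈ θ k '' interior B' →
      y ∈ interior (θ k '' B) := by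
    rintro (_ | _) - y a b
    · obtain ⟨y, u, rfl⟩ := b
      exact ψ.image_interior B ▸ ⟨y, fB ⟨(m5 y).1 (a.imp_right fun a => a.elim (·.1)
        fun ⟨k, a⟩ => a ▸ (ex.xin k).1), sD (interior_subset u)⟩, rfl⟩
    · exact ex.sing a (image_mono interior_subset b)
  obtain ⟨q₂, b2', -⟩ := bP.collapse finite_univ c (fun k _ =>
    ⟨(g.dB.image _).isCompact.isClosed, image_mono g.s2⟩) hO
  set U := ⋃ k ∈ (univ : Set Bool), θ k '' B
  have t1 : ∀ k s, P' (τ k s) ∈ θ k '' B ↔ p s ∈ B := by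
    rintro (_ | _) s
    · refine Iff.trans ?_ (ψ.injective.mem_set_image (s := B))
      rw [← m2]
      exact ⟨fun a => ex.off _ (mt (b3 () rfl _).2 (nΔ _ (image_mono sB a))) ▸ a,
        fun a => (ex.off _ (nΔ _ (image_mono sB a))).symm ▸ a⟩
    · exact ex.mem s
  have t2 : ∀ k s, p s ∈ interior B' → ν₂ (P' (τ k s)) = θ k (μ (p s)) := fun k s a => by
    have : μ ((θ k).symm (P' (τ k s))) = μ (p s) := by
      cases k
      · show μ (ψ.symm (P' (σ s))) = _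
        rw [ex.off _ (nΔ _ (m2 s ▸ ⟨_, interior_subset a, rfl⟩)), m2, ψ.symm_apply_apply]
      · exact ex.col s (interior_subset a)
    rw [c' k trivial _ ⟨_, (g.cl'.maps () rfl _).1 (this ▸ (g.cl'.maps () rfl _).2 a), by simp⟩]
    exact congrArg _ this
  have wB : ∀ k, θ k w ∈ θ k '' B := fun k => interior_subset (c.mem k trivial)
  have cZ : IsClosed ((E ∪ (X \ Δ ∪ range x)) \ U) := by
    convert bP.cl.sdiff (isOpen_biUnion fun k (_ : k ∈ univ) => isOpen_interior (s := θ k '' B)) using 1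
    exact Set.ext fun y => and_congr_right fun a => not_congr ⟨fun b =>
      let ⟨k, u, v⟩ := mem_iUnion₂.1 b; mem_biUnion u (hO k u y a (image_mono g.s2 v)),
      fun b => iUnion₂_mono (fun _ _ => interior_subset) b⟩
  have nG : ∀ Q ∈ 𝒢, ∀ k, Disjoint Q (θ k '' B') := by
    rintro Q a (_ | _)
    · exact disjoint_left.2 fun y u v => (q3 (interior_subset (m6 v))).2 (mem_biUnion a u)
    · obtain ⟨y, u⟩ := (h3 Q a).1.1.interior_nonempty
      exact (sd Q (s1 a) ⟨y, interior_subset u, disjoint_left.1 (h3 Q a).2.1 (interior_subset u)⟩).2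
  have zΩ : ∀ k, θ k w ∈ (univ \ ⋃ Q ∈ 𝒢, Q) \ ((E ∪ (X \ Δ ∪ range x)) \ U) := fun k =>
    ⟨⟨trivial, by simpa using fun Q a b => disjoint_left.1 (nG Q a k) b (image_mono sB (wB k))⟩,
      fun a => a.2 (mem_biUnion trivial (wB k))⟩
  have zi : Function.Injective fun k => θ k w := fun k k' a => dj.elim_set trivial trivial _
    (image_mono g.s2 (wB k)) ((show θ k w = θ k' w from a) ▸ image_mono g.s2 (wB k'))
  obtain ⟨φ, ⟨K, k1, k2, k3⟩, f2⟩ := multi_germ (o := oS) (o1.sdiff cZ) (bP.te.ns _ sdiff_subset cZ _ o1 o2)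
    finite_univ (p := fun k => θ k w) (f := fun k => (θ (!k) * (θ k)⁻¹ : _ ≃ₜ _))
    (fun k _ => mul_mem (θO _) (inv_mem (θO k)) _) zi.injOn
    (fun k _ k' _ a => Bool.not_inj (zi (by simpa using a))) (fun k _ => zΩ k)
    fun k _ => by simpa using zΩ (!k)
  have f3 : ∀ k, φ (θ k w) = θ (!k) w := fun k => by simpa using (f2 k trivial).self_of_nhds
  have f4 : ∀ y ∈ (E ∪ (X \ Δ ∪ range x)) \ U, ∀ᶠ y' in 𝓝 y, φ y' = y' := fun y a =>
    mem_of_superset (k1.isClosed.isOpen_compl.mem_nhds fun b => (k2 b).2 a) k3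
  let G : OnePoint ℂ → OpenPartialHomeomorph S S := fun y => if y = θ true w then
    (τ false * (τ true)⁻¹).toOpenPartialHomeomorph else if y = θ false w then
    (τ true * (τ false)⁻¹).toOpenPartialHomeomorph else .refl S
  have dt : ∀ k, Dat (ν₂ ∘ P') φ (θ k w) (τ (!k) * (τ k)⁻¹).toOpenPartialHomeomorph := fun k =>
    dat_of (g.cl'.cont.comp h.cont) (isOpen_interior.preimage h.cont)
      (fun s a => g.s2 ((g.cl'.fib () rfl _).1 a)) (t2 k) (t2 _)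
      (fun s a => (g.cl'.fib () rfl _).2 ((t1 k s).1 ((c.fib k trivial _).1 a)))
      (fun s a => (g.cl'.fib () rfl _).2 ((t1 _ s).1 ((c.fib (!k) trivial _).1 a))) (f2 k trivial)
  have nz : ∀ y ∉ U, G y = .refl S := fun y a => by
    have := fun k (b : y = θ k w) => a (mem_biUnion trivial (b ▸ wB k))
    simp only [G, if_neg (this _)]
  obtain ⟨n', l1, l2⟩ := b2'.lift (φ := φ) (g := G)
    (Fix_le_Stab fun y a => (f4 y ⟨Or.inl a.1, a.2⟩).self_of_nhds)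
    (mem_Stab_iff_image.2 (by
      rw [image_union, (image_congr fun y a => (f4 y ⟨Or.inr a.1, a.2⟩).self_of_nhds).trans
        (image_id' _), image_image]
      simp only [f3, image_univ]
      rw [Bool.not_surjective.range_comp (fun k => θ k w) |>.symm]; rfl)) (by
    rintro y (a | ⟨_ | _, -, rfl⟩)
    · rw [nz y a.2]; exact b2'.dat_refl (f4 y ⟨Or.inr a.1, a.2⟩)
    · simp only [G, if_neg (zi.ne Bool.false_ne_true), if_true]; exact dt false
    · simp only [G, if_true]; exact dt true)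
  have l3 : ∀ s, ν₂ (P' s) ∉ K → n' s = s := fun s a => by
    by_cases b : (ν₂ ∘ P') s ∈ (X \ Δ ∪ range x) \ U ∪ (fun k => θ k w) '' univ
    · rcases b with b | ⟨k, -, b⟩
      · exact ((l2 _ (Or.inl b)).self_of_nhdsSet s rfl).trans (by rw [nz _ b.2]; rfl)
      · exact absurd (zi ((f3 k).symm.trans (k3 _ (by rwa [show θ k w = _ from b])))) (by simp)
    · exact (b2'.inj b ((k3 _ a).symm.trans (l1 s).symm)).symm
  refine ⟨σ⁻¹ * n' * n, mul_mem (mul_mem (inv_mem (AA_mono (subset_univ _) m9)) ⟨_, bP.prop _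
    (k1.isClosed.preimage c.cont).isCompact (disjoint_left.2 fun y a b => ?_), subset_univ _, l3⟩) n1,
    fun Q a s u => ?_, B, ⟨g.dB, fun y a b => fB ⟨a, sD (sB b)⟩⟩, fB.trans interior_subset,
    sB.trans sD, fun s a => ?_⟩
  · have : ∀ k ∈ univ, y ∉ θ k '' interior B' := by
      rintro (_ | _) - ⟨y, u, rfl⟩
      · exact disjoint_left.1 hDE (sD (interior_subset u)) ((m4 y).1 b)
      · obtain ⟨Q, v, w⟩ := ex.cov _ b
        exact disjoint_left.1 (sd Q v ⟨_, interior_subset w, disjoint_right.1 hDE b⟩).2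
          (interior_subset w) ⟨y, interior_subset u, rfl⟩
    rw [mem_preimage, (c.out y this).self_of_nhds] at a
    exact (k2 a).2 ⟨Or.inl b, fun m => let ⟨k, u, v⟩ := mem_iUnion₂.1 m; this k u (image_mono g.s2 v)⟩
  · have := l3 s (by
      rw [ex.off s (disjoint_right.1 (ex.djΔ Q (s1 a)) u), (c.out _ fun k _ v => disjoint_left.1
        (nG Q a k) u (image_mono interior_subset v)).self_of_nhds]
      exact fun v => (k2 v).1.2 (mem_biUnion a u))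
    simp only [Homeomorph.mul_apply, n2 Q (s1 a) s u, this, Homeomorph.inv_apply,
      Homeomorph.symm_apply_eq, m3 s fun v => v.2 (mem_biUnion a u)]
  · have := (l2 (θ true w) (Or.inr ⟨true, trivial, rfl⟩)).self_of_nhdsSet (τ true s)
      ((c.fib true trivial _).2 ((t1 true s).2 a))
    simpa [G, τ, Homeomorph.symm_apply_eq] using this

theorem Std.fix_disc (h : Std o p q E X) {f : S ≃ₜ S} (hf : f ∈ OPS o) {Δ : Set (OnePoint ℂ)}
    (hΔ : IsDisc Δ) {𝒢 : Set (Set (OnePoint ℂ))} (h1 : 𝒢.Finite) (h2 : 𝒢.PairwiseDisjoint id)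
    (h3 : ∀ Q ∈ 𝒢, CD (E ∪ X) Q ∧ Q ⊆ Δ ∧ ∀ s, p s ∈ Q → f s = s)
    (h4 : ∀ y ∈ E ∪ X, y ∈ Δ → ∃ Q ∈ 𝒢, y ∈ Q) :
    ∃ k ∈ AA univ, ∀ s, p s ∈ Δ → k s = f s := by
  classical
  have dc := hΔ.isCompact.isClosed
  have oc : IsOpen (⋃ Q ∈ 𝒢, interior Q) := isOpen_biUnion fun _ _ => isOpen_interior
  have h5 : ∀ y ∈ E, y ∈ Δ → y ∈ ⋃ Q ∈ 𝒢, interior Q := fun y a b =>
    let ⟨Q, u, v⟩ := h4 y (Or.inl a) b; mem_biUnion u ((h3 Q u).1.2 y (Or.inl a) v)
  obtain ⟨𝒬, a1, a2, a3, a4⟩ := h.te.discs (h.clE.sdiff oc) (sdiff_subset.trans subset_union_left)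
    (O := fun _ : Unit => interior {y | ∀ s, p s = y → p (f.symm s) ∉ Δ} \ Δ)
    (fun _ => isOpen_interior.sdiff dc) (fun y a => by
      have b : y ∉ Δ := fun c => a.2 (h5 y a.1 c)
      refine mem_iUnion.2 ⟨(), mem_interior_iff_mem_nhds.2 (eventually_comap.1 ?_), b⟩
      filter_upwards [h.far' f.symm (dc.sdiff oc).isCompact (disjoint_left.2 fun y u v =>
        u.2 (h5 y v u.1)) a.1, preimage_mem_comap (dc.isOpen_compl.mem_nhds b)] with s u v w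
      obtain ⟨Q, c, d⟩ := mem_iUnion₂.1 (by_contra fun c => u ⟨w, c⟩ : _ ∈ ⋃ Q ∈ 𝒢, interior Q)
      have := (h3 Q c).2.2 _ (interior_subset d)
      exact v (by rwa [← f.apply_symm_apply s, this])) one_pos
  replace a2 : ∀ Q ∈ 𝒬, CD (E ∪ X) Q ∧ ∀ y ∈ Q, y ∉ Δ ∧ ∀ s, p s = y → p (f.symm s) ∉ Δ :=
    fun Q a => let ⟨_, c⟩ := (a2 Q a).2.2.1
    ⟨(a2 Q a).1, fun y u => ⟨(c u).2, interior_subset (c u).1⟩⟩
  obtain ⟨C, z, ν, c, s1, s2, s3, M, _, _, _, _, oM, π, σ, Z, r, ρ, m⟩ := h.model (h1.union a1)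
    (Q := fun Q => Q) (fun Q a => a.elim (fun a => (h3 Q a).1) fun a => (a2 Q a).1)
    (h2.union a3 fun Q a Q' b _ => disjoint_left.2 fun y u v => ((a2 Q' b).2 y v).1 ((h3 Q a).2.1 u))
    fun y a => by
      by_cases b : y ∈ ⋃ Q ∈ 𝒢, interior Q
      · obtain ⟨Q, c, d⟩ := mem_iUnion₂.1 b; exact ⟨Q, Or.inl c, interior_subset d⟩
      · obtain ⟨Q, c, d⟩ := a4 y ⟨a, b⟩; exact ⟨Q, Or.inr c, interior_subset d⟩
  have νΔ := c.pres (T := Δ) fun Q a => a.imp (fun a => interior_subset.trans (h3 Q a).2.1)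
    fun a => disjoint_left.2 fun y u => ((a2 Q a).2 y (interior_subset u)).1
  obtain ⟨d1, d2, d3⟩ := m.disc hΔ (disjoint_left.2 fun y a b =>
    let ⟨Q, u, v⟩ := h4 y (Or.inr b.1) a; disjoint_left.1 (s2 Q (Or.inl u)) v b)
  have d4 : ∀ s, π s ∈ ρ '' Δ ↔ p s ∈ Δ := fun s => by
    rw [← νΔ, ← m.comm]
    exact ⟨fun ⟨y, u, v⟩ => v ▸ (d2 y u).1.symm ▸ u, fun a => ⟨_, a, d3 _ a⟩⟩
  have zq : ∀ s, π s ∈ Z → ∃ Q ∈ 𝒢 ∪ 𝒬, p s ∈ C Q := fun s a => by simpa using (m.mem s).1 a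
  have z1 : ∀ s, π s ∈ Z → p s ∈ Δ → ∀ᶠ a in 𝓝 (π s), ∀ t, π t = a → f t = t ∧ p t ∈ Δ :=
    fun s a b => by
    obtain ⟨Q, u, v⟩ := zq s a
    have w := u.resolve_right fun w => ((a2 Q w).2 _ (interior_subset (s1 Q u v))).1 b
    filter_upwards [m.br.cont.continuousAt (isOpen_interior.mem_nhds (by
      rw [m.comm]; exact (c.maps Q u _).2 (s1 Q u v)))] with a x t y
    have := interior_subset ((c.maps Q u _).1 (by rwa [← m.comm, y]))
    exact ⟨(h3 Q w).2.2 t this, (h3 Q w).2.1 this⟩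
  have z2 : ∀ s, π s ∈ Z → p s ∈ Δ → f s = s := fun s a b => ((z1 s a b).self_of_nhds s rfl).1
  have z3 : ∀ s, p s ∈ Δ → π (f s) ∈ Z → f s = s := fun s a b => by
    obtain ⟨Q, u | u, v⟩ := zq _ b
    · exact f.injective ((h3 Q u).2.2 _ (interior_subset (s1 Q (Or.inl u) v)))
    · exact (((a2 Q u).2 _ (interior_subset (s1 Q (Or.inr u) v))).2 _ rfl (by simpa using a)).elim
  let F : M → M := fun a => if a ∈ Z then a else π (f (σ a))
  have f1 : ∀ s, π s ∉ Z → F (π s) = π (f s) := fun s a => (if_neg a).trans (by rw [m.bl.qp s a])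
  have f2 : ∀ s, (π s ∈ Z → f s = s) → F (π s) = π (f s) := fun s a => by
    by_cases b : π s ∈ Z
    exacts [(if_pos b).trans (by rw [a b]), f1 s b]
  have f3 : ∀ s, p s ∈ Δ → F (π s) = π (f s) := fun s a => f2 s fun b => z2 s b a
  have f4 : ∀ s, π s ∈ Z → p s ∈ Δ → ∀ᶠ a in 𝓝 (π s), F a = a ∧ a ∈ ρ '' Δ := fun s a b =>
    (z1 s a b).mono fun a u => by
      obtain ⟨t, rfl⟩ := m.surj a
      exact ⟨by rw [f3 t (u t rfl).2, (u t rfl).1], (d4 t).2 (u t rfl).2⟩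
  have zf : (Z \ ρ '' Δ).Finite := m.fin.subset sdiff_subset
  obtain ⟨k, k1, k2⟩ := one_disc (o := oM) (f := F) zf.isClosed.isOpen_compl (by
      rw [compl_eq_univ_sdiff]; exact preconn_diff_finite isPreconnected_univ isOpen_univ zf) d1
    (fun a u => by
      obtain ⟨s, rfl⟩ := m.surj a
      by_cases b : π s ∈ Z
      · exact sg_of_id ((f4 s b ((d4 s).1 u)).mono fun _ v => v.1)
      · exact OB.sg_down ⟨m.bl, 1, m.sg⟩ b (fun v => b (z3 s ((d4 s).1 u) v ▸ v)) (hf s)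
          ((m.bl.ev_reg b).mono fun t v => (f1 t v).symm))
    (fun a u b v e => by
      obtain ⟨s, rfl⟩ := m.surj a
      obtain ⟨t, rfl⟩ := m.surj b
      rw [d4] at u v
      rw [f3 s u, f3 t v] at e
      by_cases w : π (f s) ∈ Z
      · rwa [z3 t v (e ▸ w), z3 s u w] at e
      · rw [f.injective (m.bl.inj w e)])
    (fun a u v => v.2 u) fun a u v => by
      obtain ⟨s, rfl⟩ := m.surj a
      rw [f3 s ((d4 s).1 u)] at v
      exact v.2 ((z3 s ((d4 s).1 u) v.1).symm ▸ u)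
  obtain ⟨n, n1, n2⟩ := m.lift h.toBS s3 (γ := k) fun a u => by
    by_cases v : a ∈ ρ '' Δ
    · obtain ⟨s, rfl⟩ := m.surj a
      exact (f4 s u ((d4 s).1 v)).mono fun a w => (k2 a w.2).trans w.1
    · exact AA_eventually k1 fun w => w ⟨u, v⟩
  refine ⟨n, n1, fun s a => ?_⟩
  by_cases b : π (f s) ∈ Z
  · rw [z3 s a b] at b; rw [n2.2 s b, z2 s b a]
  · exact (m.bl.inj b (by rw [n2.1, k2 _ ((d4 s).2 a), f3 s a])).symm

/-- A homeomorphism that is the identity near the ends in `Δ` is the identity over `Δ`, up to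
a compactly supported one. -/
theorem Std.fix_cd (h : Std o p q E X) {f : S ≃ₜ S} (hf : f ∈ OPS o) {Δ : Set (OnePoint ℂ)}
    (hΔ : CD (E ∪ X) Δ) (h1 : ∀ x ∈ E ∩ Δ, ∀ᶠ s in comap p (𝓝 x), f s = s) {e : OnePoint ℂ}
    (he : e ∈ E) (hX : e ∈ closure X) (heΔ : e ∉ Δ) :
    ∃ k ∈ AA univ, ∀ s, p s ∈ Δ → k s = f s := by
  obtain ⟨𝒢, a1, a2, a3, a4⟩ := h.te.discs (h.clE.inter hΔ.1.isCompact.isClosed)
    (inter_subset_left.trans subset_union_left)
    (O := fun _ : Unit => interior {y | ∀ s, p s = y → f s = s} ∩ interior Δ)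
    (fun _ => isOpen_interior.inter isOpen_interior) (fun y a => mem_iUnion.2 ⟨(),
      mem_interior_iff_mem_nhds.2 (eventually_comap.1 (h1 y a)), hΔ.2 y (Or.inl a.1) a.2⟩) one_pos
  replace a2 : ∀ Q ∈ 𝒢, CD (E ∪ X) Q ∧ Q ⊆ interior Δ ∧ ∀ s, p s ∈ Q → f s = s := fun Q a =>
    let ⟨_, c⟩ := (a2 Q a).2.2.1
    ⟨(a2 Q a).1, fun y u => (c u).2, fun s u => interior_subset (c u).1 s rfl⟩
  obtain ⟨o1, o2⟩ := preconn_diff_discs isOpen_interior hΔ.1.preconn_interior a1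
    (D := fun Q => Q) (fun Q a => (a2 Q a).1.1) a3 fun Q a => (a2 Q a).2.1
  have cv : ∀ y ∈ E, y ∈ Δ → y ∈ interior (⋃ Q ∈ 𝒢, Q) := fun y a b =>
    subset_interior_biUnion a4 ⟨a, b⟩
  have yf : (X ∩ (Δ \ interior (⋃ Q ∈ 𝒢, Q))).Finite := h.finite_inter
    (hΔ.1.isCompact.diff isOpen_interior) (disjoint_left.2 fun y a b => a.2 (cv y b a.1))
  rcases (interior Δ \ ⋃ Q ∈ 𝒢, Q).eq_empty_or_nonempty with n | n
  · exact h.fix_disc hf hΔ.1 a1 a3 (fun Q a => ⟨(a2 Q a).1, (a2 Q a).2.1.trans interior_subset,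
      (a2 Q a).2.2⟩) (fun y a b => by simpa using Set.sdiff_eq_empty.1 n (hΔ.2 y a b))
  obtain ⟨D, d1, d2, d3⟩ := exists_disc_finite o1 o2 n (Z := X ∩ (interior Δ \ ⋃ Q ∈ 𝒢, Q))
    (yf.subset fun y a => ⟨a.1, interior_subset a.2.1, fun b => a.2.2 (interior_subset b)⟩)
    inter_subset_right
  have dE : Disjoint D E := disjoint_left.2 fun y a b =>
    (d2 a).2 (interior_subset (cv y b (interior_subset (d2 a).1)))
  have dQ : ∀ Q ∈ 𝒢, Disjoint Q D := fun Q a => disjoint_left.2 fun y u v =>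
    (d2 v).2 (mem_biUnion a u)
  obtain ⟨n, n1, n2, B, b1, b2, b3, b4⟩ := h.swap hf (D := D) ⟨d1, fun y a b =>
    d3 ⟨a.resolve_left (disjoint_left.1 dE b), d2 b⟩⟩ dE a1 a3 (fun Q a => ⟨(a2 Q a).1, dQ Q a,
      fun b => heΔ (interior_subset ((a2 Q a).2.1 b)), (a2 Q a).2.2⟩) he hX
  obtain ⟨k, k1, k2⟩ := h.fix_disc (mul_mem (h.AA_le ⟨e, he⟩ n1) hf) hΔ.1 (a1.insert B)
    (a3.insert fun Q a _ => (dQ Q a).symm.mono_left b3) (by
      rintro Q (rfl | a)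
      · exact ⟨b1, fun y u => interior_subset (d2 (b3 u)).1, b4⟩
      · exact ⟨(a2 Q a).1, (a2 Q a).2.1.trans interior_subset, fun s u => by
          rw [Homeomorph.mul_apply, (a2 Q a).2.2 s u, n2 Q a s u]⟩) (fun y a b => by
      by_cases c : y ∈ ⋃ Q ∈ 𝒢, Q
      · obtain ⟨Q, u, v⟩ := mem_iUnion₂.1 c; exact ⟨Q, Or.inr u, v⟩
      · exact ⟨B, Or.inl rfl, b2 ⟨a, interior_subset (d3 ⟨a.resolve_left fun u =>
          c (interior_subset (cv y u b)), hΔ.2 y a b, c⟩)⟩⟩)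
  exact ⟨n⁻¹ * k, mul_mem (inv_mem n1) k1, fun s a => by simp [k2 s a]⟩

end Pool.Agent.Lib.MP_069d55_gt.K
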