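import Pool.Agent.Lib.MP_069d55_gt.GGood

/-! Point pushing in a handle. -/

open Set Topology Filter Metric

namespace Pool.Agent.Lib.MP_069d55_gt.K

section
variable {A B C D : Type*} [TopologicalSpace A] [TopologicalSpace B] [TopologicalSpace C]
  [TopologicalSpace D]

theorem LH.prodMap {f : A → B} {g : C → D} {x : A} {y : C} (h : LH f x) (h' : LH g y) :
    LH (Prod.map f g) (x, y) :=
  let ⟨e, a, b⟩ := h
  let ⟨e', c, d⟩ := h'
  ⟨e.prod e', ⟨a, c⟩, b.prodMap_nhds d⟩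

theorem isOpen_image_lh {f : A → B} {U : Set A} (hU : IsOpen U) (h : ∀ x ∈ U, LH f x) :
    IsOpen (f '' U) := isOpen_iff_mem_nhds.2 (by
  rintro _ ⟨x, hx, rfl⟩; exact (h x hx).map_nhds ▸ image_mem_map (hU.mem_nhds hx))

theorem charted_of_lh (h : ∀ x : A, ∃ e : ℂ → A, ∃ u, LH e u ∧ e u = x) : Charted A := ⟨fun x => by
  obtain ⟨e, u, a, rfl⟩ := h x
  obtain ⟨t, t1, t2⟩ := a.injOn
  obtain ⟨r, hr, hb⟩ := Metric.mem_nhds_iff.1 (inter_mem t1 a.eventually)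
  let ρ := OpenPartialHomeomorph.univBall (E := ℂ) u r
  have s : ρ.source = univ := OpenPartialHomeomorph.univBall_source _ _
  have m : ∀ z, ρ z ∈ ball u r := fun z =>
    OpenPartialHomeomorph.univBall_target u hr ▸ ρ.map_source (s ▸ mem_univ z)
  have c := ρ.isOpenEmbedding s
  exact ⟨e ∘ ρ, emb_of_lh (fun z w h => c.injective (t2 (hb (m z)).1 (hb (m w)).1 h))
    fun z => (lh_emb c z).comp (hb (m z)).2, 0,
    congrArg e (OpenPartialHomeomorph.univBall_apply_zero u r)⟩⟩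

end

/-- The torus. -/
abbrev Tor := UnitAddCircle × UnitAddCircle

theorem lh_circ (x : ℝ) : LH ((↑) : ℝ → UnitAddCircle) x :=
  let ⟨e, a, b⟩ := AddCircle.isLocalHomeomorph_coe (1 : ℝ) x
  ⟨e, a, .of_eq b⟩

instance : Charted Tor := charted_of_lh fun x => by
  obtain ⟨a, ha⟩ := QuotientAddGroup.mk_surjective x.1
  obtain ⟨b, hb⟩ := QuotientAddGroup.mk_surjective x.2
  exact ⟨Prod.map ((↑) : ℝ → UnitAddCircle) ((↑) : ℝ → UnitAddCircle) ∘
    Complex.equivRealProdCLM.toHomeomorph, ⟨a, b⟩,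
    (lh_homeo _ _).comp ((lh_circ a).prodMap (lh_circ b)), Prod.ext ha hb⟩

theorem circ_rep (x : UnitAddCircle) (a : ℝ) : ∃ s ∈ Ico a (a + 1), (s : UnitAddCircle) = x :=
  ⟨_, (AddCircle.equivIco 1 a x).2, (AddCircle.equivIco 1 a).symm_apply_apply x⟩

theorem circ_inj (a : ℝ) : InjOn ((↑) : ℝ → UnitAddCircle) (Ico a (a + 1)) := fun _ hx _ hy h =>
  (AddCircle.coe_eq_coe_iff_of_mem_Ico hx hy).1 h

instance : Infinite UnitAddCircle :=
  infinite_univ_iff.1 (((Ico_infinite (lt_add_one (0 : ℝ))).image (circ_inj 0)).mono (subset_univ _))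

theorem circ_compl {a b : ℝ} (h : a ≤ b) (h' : b < a + 1) :
    (((↑) : ℝ → UnitAddCircle) '' Icc a b)ᶜ = (↑) '' Ioo b (a + 1) := by
  ext x
  constructor
  · intro hx
    obtain ⟨s, hs, rfl⟩ := circ_rep x a
    exact ⟨s, ⟨lt_of_not_ge fun c => hx ⟨s, ⟨hs.1, c⟩, rfl⟩, hs.2⟩, rfl⟩
  · rintro ⟨s, hs, rfl⟩ ⟨t, ht, e⟩
    exact (ht.2.trans_lt hs.1).ne (circ_inj a ⟨ht.1, ht.2.trans_lt h'⟩ ⟨h.trans hs.1.le, hs.2⟩ e)

theorem preconn_circ (a b : ℝ) : IsPreconnected (((↑) : ℝ → UnitAddCircle) '' Ioo a b) :=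
  isPreconnected_Ioo.image _ (AddCircle.continuous_mk' 1).continuousOn

theorem circ_compl_pt (a : ℝ) :
    ({(a : UnitAddCircle)}ᶜ : Set UnitAddCircle) = (↑) '' Ioo a (a + 1) := by
  rw [← circ_compl le_rfl (lt_add_one a), Icc_self, image_singleton]

/-- A once punctured torus embedded as an open subset. -/
structure TC {M : Type*} [TopologicalSpace M] (j : Tor → M) (o : Tor) : Prop where
  lh : ∀ t ≠ o, LH j t
  inj : InjOn j {o}ᶜ

section
variable {M : Type*} [TopologicalSpace M] {j : Tor → M} {o : Tor}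

theorem TC.swap (h : TC j o) : TC (j ∘ Prod.swap) o.swap :=
  ⟨fun t ht => (lh_homeo (Homeomorph.prodComm _ _) t).comp (h.lh _ fun c => ht (c ▸ rfl)),
    fun x hx y hy e => Prod.swap_injective (h.inj (x₁ := x.swap) (fun c => hx (congrArg Prod.swap c))
      (x₂ := y.swap) (fun c => hy (congrArg Prod.swap c)) e)⟩

theorem TC.cont (h : TC j o) {U : Set Tor} (hU : o ∉ U) : ContinuousOn j U := fun t ht =>
  (h.lh t fun c => hU (c ▸ ht)).contAt.continuousWithinAt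

theorem TC.isOpen (h : TC j o) {U : Set Tor} (hU : IsOpen U) (ho : o ∉ U) : IsOpen (j '' U) :=
  isOpen_image_lh hU fun t ht => h.lh t fun c => ho (c ▸ ht)

theorem TC.compl_conn [T2Space M] [PreconnectedSpace M] (h : TC j o) {K : Set Tor}
    (hK : IsCompact K) (ho : o ∉ K) (hc : IsPreconnected Kᶜ) : IsPreconnected (j '' K)ᶜ := by
  have s : K ⊆ {o}ᶜ := fun t ht c => ho (c ▸ ht)
  rw [compl_eq_univ_sdiff]
  refine preconn_diff isPreconnected_univ (hK.image_of_continuousOn (h.cont ho)).isClosed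
    (h.isOpen isOpen_compl_singleton fun c => c rfl) (image_mono s) (subset_univ _) ?_
  rw [← h.inj.image_sdiff_subset s, sdiff_eq, inter_comm, ← sdiff_eq]
  exact (preconn_diff_point hc hK.isClosed.isOpen_compl o).image _ (h.cont fun c => c.2 rfl)

end

variable {M : Type*} [MetricSpace M] [CompactSpace M] [PreconnectedSpace M] {j : Tor → M}
  {o : Tor} {Z : Set M} {u : M}

theorem TC.gd_band (h : TC j o) {a b : ℝ} (hab : a < b) (hb : b ≤ a + 1)
    (ho : o.1 ∉ ((↑) : ℝ → UnitAddCircle) '' Ioo a b)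
    (hd : Disjoint (j '' (((↑) '' Ioo a b) ×ˢ univ)) Z) :
    Gd Z u (j '' (((↑) '' Ioo a b) ×ˢ univ)) := by
  let φ := OpenPartialHomeomorph.univBall (E := ℝ) ((a + b) / 2) ((b - a) / 2)
  have s : φ.source = univ := OpenPartialHomeomorph.univBall_source _ _
  have t : φ.target = Ioo a b := by
    rw [OpenPartialHomeomorph.univBall_target _ (by linarith), Real.ball_eq_Ioo]; congr 1 <;> ring
  have m : ∀ r, φ r ∈ Ioo a b := fun r => t ▸ φ.map_source (s ▸ mem_univ r)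
  have c := φ.isOpenEmbedding s
  have n : ∀ z : UnitAddCircle × ℝ, ((φ z.2 : UnitAddCircle), z.1) ≠ o := fun z e =>
    ho ⟨_, m z.2, congrArg Prod.fst e⟩
  let A : UnitAddCircle × ℝ → M := fun z => j (φ z.2, z.1)
  have hA : IsOpenEmbedding A := emb_of_lh (fun z w e => by
    obtain ⟨e1, e2⟩ := Prod.ext_iff.1 (h.inj (n z) (n w) e)
    exact Prod.ext e2 (c.injective (circ_inj a ⟨(m _).1.le, (m _).2.trans_le hb⟩
      ⟨(m _).1.le, (m _).2.trans_le hb⟩ e1))) fun z => ((lh_homeo (Homeomorph.prodComm _ _) z).comp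
        (((lh_emb c z.2).comp (lh_circ _)).prodMap (lh_id z.1))).comp (h.lh _ (n z))
  have im : ∀ J : Set ℝ, A '' (univ ×ˢ J) = j '' (((↑) '' (φ '' J)) ×ˢ univ) := fun J => by
    ext x; constructor
    · rintro ⟨z, hz, rfl⟩; exact ⟨_, ⟨⟨_, ⟨_, hz.2, rfl⟩, rfl⟩, trivial⟩, rfl⟩
    · rintro ⟨⟨_, θ⟩, ⟨⟨_, ⟨r, hr, rfl⟩, rfl⟩, -⟩, rfl⟩; exact ⟨(θ, r), ⟨trivial, hr⟩, rfl⟩
  have rg : range A = j '' (((↑) '' Ioo a b) ×ˢ univ) := by
    rw [← image_univ, ← univ_prod_univ, im, ← s, φ.image_source_eq_target, t]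
  rw [← rg] at hd ⊢
  refine Gd.annulus hA hd fun s t => ?_
  rcases lt_or_ge t s with st | st
  · rw [Icc_eq_empty_of_lt st, prod_empty, image_empty, compl_empty]; exact isPreconnected_univ
  have sub : φ '' Icc s t ⊆ Ioo a b := by rintro _ ⟨r, -, rfl⟩; exact m r
  have ne : (φ '' Icc s t).Nonempty := (nonempty_Icc.2 st).image _
  rw [im]
  rw [c.continuous.continuousOn.image_Icc st] at sub ne ⊢
  have le := nonempty_Icc.1 ne
  refine h.compl_conn ((isCompact_Icc.image (AddCircle.continuous_mk' 1)).prod isCompact_univ)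
    (fun c => ho (image_mono sub c.1)) ?_
  rw [prod_univ, ← preimage_compl, ← prod_univ, circ_compl le (by
    linarith [(sub (left_mem_Icc.2 le)).1, (sub (right_mem_Icc.2 le)).2])]
  exact (preconn_circ _ _).prod isPreconnected_univ

variable [Charted M]

theorem TC.gd_circle (h : TC j o) (hZ : Z.Finite) (hz : ∀ t ≠ o, j t ∈ Z → t.2 = o.2) :
    Gd Z u (j '' {o}ᶜ \ Z) := by
  obtain ⟨a, ha⟩ := QuotientAddGroup.mk_surjective o.2
  let B : Set Tor := univ ×ˢ {o.2}ᶜ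
  have Bo : IsOpen B := isOpen_univ.prod isOpen_compl_singleton
  have oB : o ∉ B := fun c => c.2 rfl
  have c2 : IsPreconnected ({o.2}ᶜ : Set UnitAddCircle) := by
    rw [← ha, circ_compl_pt]; exact preconn_circ _ _
  have dB : Disjoint (j '' B) Z := disjoint_left.2 (by
    rintro _ ⟨t, ht, rfl⟩ c; exact ht.2 (hz t (fun e => oB (e ▸ ht)) c))
  have gB : Gd Z u (j '' B) := by
    have e : j '' B = (j ∘ Prod.swap) '' (((↑) '' Ioo a (a + 1)) ×ˢ univ) := by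
      rw [image_comp, image_swap_prod, ← circ_compl_pt, ha]
    rw [e] at dB ⊢
    exact h.swap.gd_band (lt_add_one a) le_rfl (by
      rw [← circ_compl_pt, ha]; exact fun c => c rfl) dB
  have mid : ∀ U, j '' B ⊆ U → U ⊆ j '' {o}ᶜ → IsPreconnected U := fun U h1 h2 => by
    rw [show U = j '' (j ⁻¹' U ∩ {o}ᶜ) by rw [inter_comm, image_inter_preimage, inter_eq_right.2 h2]]
    refine ((isPreconnected_univ.prod c2).subset_closure (subset_inter (image_subset_iff.1 h1)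
      fun t ht (c : t = o) => oB (c ▸ ht)) ?_).image _ (h.cont fun c => c.2 rfl)
    rw [(dense_univ.prod (dense_compl_singleton o.2)).closure_eq]; exact subset_univ _
  let Bad : Set UnitAddCircle := insert o.1 (Prod.fst '' ({o}ᶜ ∩ j ⁻¹' Z))
  have hB : Bad.Finite := ((Finite.of_finite_image (hZ.subset (by
    rintro _ ⟨t, ht, rfl⟩; exact ht.2)) (h.inj.mono inter_subset_left)).image _).insert _
  have ex : ∀ s : {s : ℝ // (s : UnitAddCircle) ∉ Bad}, ∃ δ > 0, δ ≤ 1 / 2 ∧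
      ∀ r ∈ Ioo (s.1 - δ) (s.1 + δ), (r : UnitAddCircle) ∉ Bad := fun s => by
    obtain ⟨δ, d1, d2⟩ := Metric.mem_nhds_iff.1 ((AddCircle.continuous_mk' 1).continuousAt
      (hB.isClosed.isOpen_compl.mem_nhds s.2))
    exact ⟨min δ (1 / 2), by positivity, min_le_right _ _, fun r hr =>
      d2 (ball_subset_ball (min_le_left _ _) (Real.ball_eq_Ioo _ _ ▸ hr))⟩
  choose δ d1 d2 d3 using ex
  let W : {s : ℝ // (s : UnitAddCircle) ∉ Bad} → Set Tor := fun s =>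
    ((↑) '' Ioo (s.1 - δ s) (s.1 + δ s)) ×ˢ univ
  have o1 : ∀ s : {s : ℝ // (s : UnitAddCircle) ∉ Bad},
      o.1 ∉ ((↑) : ℝ → UnitAddCircle) '' Ioo (s.1 - δ s) (s.1 + δ s) :=
    fun s ⟨r, hr, e⟩ => d3 s r hr (Or.inl e)
  have Wo : ∀ s, IsOpen (j '' W s) := fun s => h.isOpen ((isOpen_image_lh isOpen_Ioo
    fun x _ => lh_circ x).prod isOpen_univ) fun c => o1 s c.1
  have dW : ∀ s, Disjoint (j '' W s) Z := fun s => disjoint_left.2 (by
    rintro _ ⟨t, ⟨⟨r, hr, e⟩, -⟩, rfl⟩ c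
    exact d3 s r hr (Or.inr ⟨t, ⟨fun e' => o1 s ⟨r, hr, e' ▸ e⟩, c⟩, e.symm⟩))
  have sW : ∀ s, j '' B ∪ j '' W s ⊆ j '' {o}ᶜ := fun s => union_subset
    (image_mono fun t ht c => oB (c ▸ ht)) (image_mono fun t ht c => o1 s (c ▸ ht.1))
  obtain ⟨b, hb⟩ := exists_ne o.2
  refine (Gd.iUnion (U := fun s => j '' B ∪ j '' W s) (v := j (0, b))
    (fun s => (h.isOpen Bo oB).union (Wo s)) (fun s => dB.union_left (dW s))
    (fun s => Or.inl ⟨(0, b), ⟨trivial, hb⟩, rfl⟩) (fun s s' => mid _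
      (subset_inter subset_union_left subset_union_left) (inter_subset_left.trans (sW s)))
    fun s => Gd.union (h.isOpen Bo oB) (Wo s) dB (dW s)
      (mid _ subset_rfl (subset_union_left.trans (sW s)))
      (((preconn_circ _ _).prod isPreconnected_univ).image _ (h.cont fun c => o1 s c.1)) ?_
      ⟨j (s.1, b), ⟨(s.1, b), ⟨trivial, hb⟩, rfl⟩, (s.1, b), ⟨⟨s.1, ⟨by linarith [d1 s], by linarith [d1 s]⟩, rfl⟩,
        trivial⟩, rfl⟩ gB
      (h.gd_band (by linarith [d1 s]) (by linarith [d2 s]) (o1 s) (dW s))).mono ?_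
  · rw [← h.inj.image_inter (fun t ht c => oB (c ▸ ht)) fun t ht c => o1 s (c ▸ ht.1), prod_inter_prod,
      univ_inter, inter_univ]
    exact ((preconn_circ _ _).prod c2).image _ (h.cont fun c => o1 s c.1)
  · rintro _ ⟨⟨t, ht, rfl⟩, hn⟩
    by_cases c : t.2 = o.2
    · obtain ⟨s, hs⟩ := QuotientAddGroup.mk_surjective t.1
      have nb : (s : UnitAddCircle) ∉ Bad := by
        rintro (e | ⟨t', ht', e⟩)
        · exact ht (Prod.ext (hs ▸ e) c)
        · exact hn (Prod.ext (e.trans hs) ((hz t' ht'.1 ht'.2).trans c.symm) ▸ ht'.2)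
      exact mem_iUnion.2 ⟨⟨s, nb⟩, Or.inr ⟨t, ⟨⟨s, ⟨by linarith [d1 ⟨s, nb⟩],
        by linarith [d1 ⟨s, nb⟩]⟩, hs⟩, trivial⟩, rfl⟩⟩
    · obtain ⟨x, hx⟩ := hB.exists_notMem
      obtain ⟨s, rfl⟩ := QuotientAddGroup.mk_surjective x
      exact mem_iUnion.2 ⟨⟨s, hx⟩, Or.inl ⟨t, ⟨trivial, c⟩, rfl⟩⟩

theorem TC.gd (h : TC j o) (hZ : Z.Finite) : Gd Z u (j '' {o}ᶜ \ Z) := by
  have To := h.isOpen isOpen_compl_singleton fun c => c rfl
  have Tc : IsPreconnected (j '' {o}ᶜ) := by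
    rw [compl_eq_univ_sdiff]
    exact (preconn_diff_point isPreconnected_univ isOpen_univ o).image _ (h.cont fun c => c.2 rfl)
  have : Nonempty M := ⟨u⟩
  have hf := hZ.inter_of_left (j '' {o}ᶜ)
  have sb : ({o.1}ᶜ ×ˢ {o.2} : Set Tor) ⊆ {o}ᶜ := fun t ht c => ht.1 (congrArg Prod.fst c)
  obtain ⟨q, q1, q2⟩ := exists_inj_choice hf (fun _ => j '' ({o.1}ᶜ ×ˢ {o.2})) fun _ _ =>
    ((finite_singleton o.1).infinite_compl.prod_left (singleton_nonempty _)).image (h.inj.mono sb)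
  obtain ⟨k, k1, k2⟩ := germClass_true.multi To Tc hf (injOn_id _) q1 (fun _ hx => hx.2)
    fun x hx => image_mono sb (q2 x hx)
  refine Gd.of_image k ?_
  rw [image_sdiff k.injective, mem_Stab_iff_image.1 (AA_mem_iff k1)]
  refine h.gd_circle (hZ.image k) ?_
  rintro t ht ⟨z, hz, e⟩
  have zT : z ∈ j '' {o}ᶜ := (AA_mem_iff k1 z).1 ⟨t, ht, e.symm⟩
  obtain ⟨t', a, b⟩ := q2 z ⟨hz, zT⟩
  rw [h.inj ht (sb a) (e.symm.trans ((k2 z ⟨hz, zT⟩).1.trans b.symm))]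
  exact a.2

end Pool.Agent.Lib.MP_069d55_gt.K
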