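import Pool.Agent.Lib.MP_069d55_gt.GNeg

/-! Circle valued functions on the standard model and their degrees along loops. -/

open Set Topology Filter Metric OnePoint Pool.Agent.Lib.MP_1e9af3_an

namespace Pool.Agent.Lib.MP_069d55_gt.G

open K

/-- The circle. -/
abbrev TT := UnitAddCircle

theorem ec_add (a b : TT) : ec (a + b) = ec a * ec b := by simp [ec, AddCircle.toCircle_add]

theorem ec_inj : Function.Injective ec := fun _ _ h =>
  AddCircle.injective_toCircle one_ne_zero (Subtype.ext h)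

theorem loop_ec (f : C(TT, TT)) : Loop fun t : ℝ => ec (f t) :=
  ⟨ec_cont.comp (f.continuous.comp (AddCircle.continuous_mk' 1)), fun _ => ec_ne _,
    fun t => by rw [circ_per]⟩

/-- The degree of a self-map of the circle. -/
noncomputable def dg : C(TT, TT) →+ ℤ :=
  AddMonoidHom.mk' (fun f => wind fun t : ℝ => ec (f t)) fun f g => by
    simp only [ContinuousMap.add_apply, ec_add]; exact wind_mul (loop_ec f) (loop_ec g)

theorem dg_id : dg (ContinuousMap.id TT) = 1 :=
  ((hasWind_ee 0).congr fun θ => by simp [ec_coe]).wind_eq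

theorem dg_lift {f : C(TT, TT)} {l : TT → ℝ} (hl : Continuous l) (h : ∀ t, (l t : TT) = f t) :
    dg f = 0 := HasWind.wind_eq ⟨fun t => l t, Complex.continuous_ofReal.comp
  (hl.comp (AddCircle.continuous_mk' 1)), fun t => by simp only [← h, ec_coe],
  fun t => by simp⟩

theorem dg_const {f : C(TT, TT)} {c : TT} (h : ∀ t, f t = c) : dg f = 0 :=
  let ⟨_, _, e⟩ := circ_rep c 0
  dg_lift continuous_const fun t => e.trans (h t).symm

theorem lift_of_dg {f : C(TT, TT)} (h : dg f = 0) :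
    ∃ l : TT → ℝ, Continuous l ∧ ∀ t, (l t : TT) = f t := by
  obtain ⟨l, l1, l2, l3⟩ : HasWind (fun t : ℝ => ec (f t)) 0 :=
    (show wind _ = 0 from h) ▸ (loop_ec f).hasWind
  have hp : Function.Periodic (fun t => (l t).re) 1 := fun t => by simp [l3]
  refine ⟨hp.lift, (QuotientAddGroup.isQuotientMap_mk _).continuous_iff.2
    (Complex.continuous_re.comp l1), fun t => ?_⟩
  obtain ⟨t, -, rfl⟩ := circ_rep t 0
  refine ec_inj ?_
  beta_reduce at l2
  have : (l t).im = 0 := by
    have := congrArg norm (l2 t)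
    rw [norm_ee, ec, Circle.norm_coe, Real.exp_eq_one_iff] at this
    simpa [Real.pi_ne_zero] using this
  rw [hp.lift_coe, ec_coe, ← l2]; congr 1; exact Complex.ext rfl (by simp [this])

theorem dg_ev {T : Type*} [TopologicalSpace T] {F : T → C(TT, TT)} (hF : Continuous F) (t : T) :
    ∀ᶠ s in 𝓝 t, dg (F s) = dg (F t) := by
  rw [← nhdsWithin_univ]
  exact wind_eventually (H := fun s (θ : ℝ) => ec (F s θ)) trivial (ec_cont.comp
    ((hF.comp continuous_fst).eval ((AddCircle.continuous_mk' 1).comp continuous_snd))).continuousOn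
    (fun _ => ec_ne _) fun s _ => (loop_ec _).per

theorem sphere_lift {u : OnePoint ℂ → TT} (hu : Continuous u) :
    ∃ L : OnePoint ℂ → ℝ, Continuous L ∧ ∀ y, (L y : TT) = u y := by
  have cov := AddCircle.isCoveringMap_coe (𝕜 := ℝ) 1
  obtain ⟨a, -, ha⟩ := circ_rep (u ∞) 0
  obtain ⟨b, -, hb⟩ := circ_rep (u (0 : ℂ)) 0
  obtain ⟨l, ⟨-, hl⟩, -⟩ := cov.existsUnique_continuousMap_lifts
    ⟨fun z : ℂ => u z, hu.comp continuous_coe⟩ 0 b hb
  obtain ⟨g, g1, -, -, g2⟩ := (lh_circ a).inv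
  rw [ha] at g1 g2
  obtain ⟨Q, q1, q2, q3, q4, -⟩ := exists_sm_nhds (hu.continuousAt (g1.eventually.and g2)) one_pos
  obtain ⟨z, z1, z2⟩ := (infinite_of_open q1 ⟨_, q2⟩).exists_notMem_finite (finite_singleton ∞)
  have e : ∀ y ∈ Q \ {∞}, ((l (fin y) - g (u y) : ℝ) : TT) = 0 := fun y hy => by
    obtain ⟨y, rfl⟩ := ne_infty_iff_exists.1 hy.2
    rw [AddCircle.coe_sub, (q3 hy.1).2, sub_eq_zero]; exact congrFun hl y
  have c := fun y hy => cov.constOn_of_comp (preconn_diff_point q4 q1 ∞)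
    (g := fun y => l (fin y) - g (u y)) (fun y hy => ((l.continuous.continuousAt.comp
      (lh_fin hy.2).contAt).sub ((q3 hy.1).1.contAt.comp hu.continuousAt)).continuousWithinAt)
    (fun y hy y' hy' => (e y hy).trans (e y' hy').symm) (a := y) hy ⟨z1, z2⟩
  refine ⟨fun y => y.elim (g (u ∞) + (l (fin z) - g (u z))) l, ?_, fun y => ?_⟩
  · refine continuous_iff_continuousAt.2 fun y => ?_
    induction y using OnePoint.rec with
    | coe y => exact isOpenEmbedding_coe.continuousAt_iff.1 l.continuous.continuousAt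
    | infty =>
      refine ((g1.contAt.comp hu.continuousAt).add_const (l (fin z) - g (u z))).congr ?_
      filter_upwards [q1.mem_nhds q2] with y hy
      induction y using OnePoint.rec with
      | infty => rfl
      | coe y => rw [← c y ⟨hy, coe_ne_infty y⟩]; simp [fin]
  · induction y using OnePoint.rec with
    | coe y => exact congrFun hl y
    | infty => simp only [elim_infty, AddCircle.coe_add, e z ⟨z1, z2⟩, (q3 q2).2, add_zero]

variable {S : Type} [TopologicalSpace S] {o : Ori S} {p : S → OnePoint ℂ} {q : OnePoint ℂ → S}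
  {E X : Set (OnePoint ℂ)}

/-- Compactly supported circle valued functions. -/
def Ac (S : Type) [TopologicalSpace S] : AddSubgroup C(S, TT) where
  carrier := {u | ∃ K, IsCompact K ∧ ∀ s ∉ K, u s = 0}
  zero_mem' := ⟨∅, isCompact_empty, fun _ _ => rfl⟩
  add_mem' := fun ⟨K, a, b⟩ ⟨K', a', b'⟩ => ⟨K ∪ K', a.union a', fun s hs => by
    simp [b s fun c => hs (Or.inl c), b' s fun c => hs (Or.inr c)]⟩
  neg_mem' := fun ⟨K, a, b⟩ => ⟨K, a, fun s hs => by simp [b s hs]⟩

theorem dg_desc (h : BS o p q E X) {u : C(S, TT)} (hu : u ∈ Ac S) (h0 : ∀ s, p s ∈ X → u s = 0)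
    (δ : C(TT, S)) : dg (u.comp δ) = 0 := by
  classical
  obtain ⟨K, k1, k2⟩ := hu
  let v : OnePoint ℂ → TT := fun y => if y ∈ E ∪ X then 0 else u (q y)
  have e : ∀ s, v (p s) = u s := fun s => by
    by_cases c : p s ∈ X
    · exact (if_pos (Or.inr c)).trans (h0 s c).symm
    · simp only [v, if_neg (h.reg c), h.qp s c]
  obtain ⟨L, l1, l2⟩ := sphere_lift (u := v) (continuous_iff_isClosed.2 fun N hN => by
    by_cases c : (0 : TT) ∈ N
    · refine closure_subset_iff_isClosed.1 fun y hy => ?_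
      by_cases m : y ∈ E
      · simpa [v, m] using c
      have : v ⁻¹' N ⊆ p '' (u ⁻¹' N) ∪ E := fun y hy => (em (y ∈ E)).symm.imp_left fun m =>
        let ⟨s, hs⟩ := h.surj m; ⟨s, by rwa [mem_preimage, ← e, hs], hs⟩
      have := closure_mono this hy
      rw [closure_union, h.clE.closure_eq] at this
      obtain ⟨s, hs, rfl⟩ := (h.closure_image (hN.preimage u.continuous)
        (this.resolve_right m)).resolve_right m
      rwa [mem_preimage, e]
    · convert ((k1.inter_right (hN.preimage u.continuous)).image h.cont).isClosed using 1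
      refine Set.ext fun y => ⟨fun hy => ?_, by rintro ⟨s, hs, rfl⟩; rw [mem_preimage, e]; exact hs.2⟩
      obtain ⟨s, rfl⟩ := h.surj fun m : y ∈ E => c (by simpa [v, m] using hy)
      rw [mem_preimage, e] at hy
      exact ⟨s, ⟨by_contra fun m => c (k2 s m ▸ hy), hy⟩, rfl⟩)
  exact dg_lift (l1.comp (h.cont.comp δ.continuous)) fun t => (l2 _).trans (e _)

/-- The two core loops and the two dual functions of a handle. -/
structure Core (p : S → OnePoint ℂ) (x : OnePoint ℂ) (U : Set (OnePoint ℂ)) (γ : Bool → C(TT, S))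
    (b : Bool → C(S, TT)) : Prop where
  fib : ∀ i t, p (γ i t) = x
  out : ∀ i s, p s ∉ U → b i s = 0
  dual : ∀ i k, dg ((b i).comp (γ k)) = if i = k then 1 else 0
  kill : ∀ u : C(S, TT), (∀ i, dg (u.comp (γ i)) = 0) → ∃ F : S → ℝ, Continuous F ∧
    (∀ s, p s ∉ U → F s = 0) ∧ ∀ s, p s = x → (F s : TT) = u s

/-- The core loops of the torus. -/
def ax (i : Bool) : C(TT, Tor) :=
  ⟨fun t => bif i then (t, 0) else (0, t), by
    cases i <;> simp only [cond_true, cond_false] <;> fun_prop⟩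

theorem ax_ne (i t) : ax i t ≠ oo := ne_oo (by cases i <;> simp [ax])

variable {x : OnePoint ℂ} {U : Set (OnePoint ℂ)} {j : Tor → S} {c : S → Tor}

/-- The core loops of a handle. -/
def lo (h : Hd p x U j c) (i : Bool) : C(TT, S) :=
  ⟨fun t => j (ax i t), (h.tc.cont (U := {oo}ᶜ) fun c => c rfl).comp_continuous (ax i).continuous
    (ax_ne i)⟩

/-- The dual functions. -/
noncomputable def du (h : Hd p x U j c) (i : Bool) : C(S, TT) :=
  ⟨fun s => (bif i then (c s).1 else (c s).2) - ↑(1 / 2 : ℝ), by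
    have := h.cont; cases i <;> simp only [cond_true, cond_false] <;> fun_prop⟩

theorem dg_sub_const (a : TT) {f : C(TT, TT)} (h : ∀ t, f t = t - a) : dg f = 1 := by
  rw [show f = ContinuousMap.id TT - ContinuousMap.const TT a from ContinuousMap.ext h, map_sub,
    dg_id, dg_const (c := a) fun _ => rfl, sub_zero]

theorem core (h : Hd p x U j c) : Core p x U (lo h) (du h) where
  fib i t := (h.fib _ (ax_ne i t)).2 (by cases i <;> simp [ax])
  out i s hs := by cases i <;> simp [du, h.out s hs, oo]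
  dual i k := by
    have e : ∀ t, c (lo h k t) = ax k t := fun t => h.cj _ (ax_ne k t)
    cases i <;> cases k
    exacts [dg_sub_const ↑(1 / 2 : ℝ) fun t => by simp [du, e, ax], dg_const (c := -↑(1 / 2 : ℝ)) fun t => by
      simp [du, e, ax], dg_const (c := -↑(1 / 2 : ℝ)) fun t => by simp [du, e, ax], dg_sub_const ↑(1 / 2 : ℝ) fun t => by simp [du, e, ax]]
  kill u hu := by
    choose l l1 l2 using fun i => lift_of_dg (hu i)
    obtain ⟨β, b1, b2, -⟩ := exists_continuous_zero_one_of_isClosed (isClosed_singleton (x := oo))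
      ((isClosed_singleton.preimage continuous_fst).union (isClosed_singleton.preimage continuous_snd))
      (disjoint_singleton_left.2 fun c => ne_oo c rfl)
    have := l1 true; have := l1 false; have := h.cont
    refine ⟨fun s => β (c s) * (l true (c s).1 + l false (c s).2 - l true 0), by fun_prop,
      fun s hs => by simp [h.out s hs, b1 rfl], fun s hs => ?_⟩
    have a := (h.jc (hs ▸ h.mem : p s ∈ U)).2
    have e : u (lo h true 0) = u (lo h false 0) := rfl
    simp only [b2 (h.fib' hs), Pi.one_apply, one_mul, AddCircle.coe_sub, AddCircle.coe_add, l2,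
      ContinuousMap.comp_apply]
    rcases h.fib' hs with z | z <;> rw [z]
    · rw [add_sub_cancel_left]
      exact congrArg u ((congrArg j (show (0, (c s).2) = c s from Prod.ext z.symm rfl)).trans a)
    · rw [e, add_sub_cancel_right]
      exact congrArg u ((congrArg j (show ((c s).1, 0) = c s from Prod.ext rfl z.symm)).trans a)

/-- A system of handles. -/
structure Sys (p : S → OnePoint ℂ) (X : Set (OnePoint ℂ)) (U : X → Set (OnePoint ℂ))
    (γ : X → Bool → C(TT, S)) (b : X → Bool → C(S, TT)) : Prop where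
  core : ∀ x : X, Core p x (U x) (γ x) (b x)
  one : ∀ x : X, ∀ y ∈ U x, y ∈ X → y = x
  cpt : ∀ x, ∃ K, IsCompact K ∧ p ⁻¹' U x ⊆ K

theorem exists_nhds_cpt (h : BS o p q E X) {x : OnePoint ℂ} (hx : x ∈ X) :
    ∃ W ∈ 𝓝 x, IsCompact (p ⁻¹' W) ∧ ∀ y ∈ W, y ∈ X → y = x :=
  let ⟨W, a, b, c⟩ := exists_mem_nhds_isClosed_subset (h.iso x hx)
  ⟨W, a, h.prop W b.isCompact (disjoint_left.2 fun _ m n => h.disj hx (c m (Or.inl n) ▸ n)),
    fun _ m n => c m (Or.inr n)⟩

theorem exists_sys (h : Std o p q E X) {B : X → Set (OnePoint ℂ)} (hB : ∀ x : X, B x ∈ 𝓝 x.1) :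
    ∃ U γ b, Sys p X U γ b ∧ ∀ x, U x ⊆ B x := by
  choose W w1 w2 w3 using fun x : X => exists_nhds_cpt h.toBS x.2
  choose U u1 j c u2 using fun x : X => h.hand x x.2 _ (inter_mem (w1 x) (hB x))
  exact ⟨U, _, _, ⟨fun x => core (u2 x), fun x y a => w3 x y (u1 x a).1,
    fun x => ⟨_, w2 x, fun s a => (u1 x a).1⟩⟩, fun x y a => (u1 x a).2⟩

section
variable {U : X → Set (OnePoint ℂ)} {γ : X → Bool → C(TT, S)} {b : X → Bool → C(S, TT)}

theorem Sys.mem (a : Sys p X U γ b) (x i) : b x i ∈ Ac S :=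
  let ⟨K, k1, k2⟩ := a.cpt x; ⟨K, k1, fun s hs => (a.core x).out i s fun c => hs (k2 c)⟩

theorem Sys.ne (a : Sys p X U γ b) {x y : X} (h : x ≠ y) {s : S} (hs : p s = y) : p s ∉ U x :=
  fun c => h (Subtype.ext ((a.one x _ c (hs ▸ y.2)).symm.trans hs))

theorem fin_supp (h : BS o p q E X) {u : C(S, TT)} (hu : u ∈ Ac S) :
    ∃ Z : Finset X, ∀ x ∉ Z, ∀ s, p s = x.1 → u s = 0 := by
  obtain ⟨K, k1, k2⟩ := hu
  have := (h.finite_inter (k1.image h.cont) (disjoint_left.2 fun _ ⟨s, _, e⟩ => e ▸ h.notE s)).preimage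
    (Subtype.val_injective (p := (· ∈ X))).injOn
  exact ⟨this.toFinset, fun x hx s hs => k2 s fun c => hx (this.mem_toFinset.2 ⟨x.2, s, c, hs⟩)⟩

theorem Sys.zero (a : Sys p X U γ b) (h : BS o p q E X) {u : C(S, TT)} (hu : u ∈ Ac S)
    (h0 : ∀ x i, dg (u.comp (γ x i)) = 0) (δ : C(TT, S)) : dg (u.comp δ) = 0 := by
  obtain ⟨Z, hZ⟩ := fin_supp h hu
  choose F f1 f2 f3 using fun x => (a.core x).kill u (h0 x)
  have c : Continuous fun s => ∑ x ∈ Z, F x s := continuous_finsetSum _ fun x _ => f1 x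
  let w : C(S, TT) := ⟨fun s => ↑(∑ x ∈ Z, F x s), (AddCircle.continuous_mk' 1).comp c⟩
  have w1 : ∀ s, w s = ↑(∑ x ∈ Z, F x s) := fun _ => rfl
  choose K k1 k2 using a.cpt
  have := dg_desc h (sub_mem hu (y := w) ⟨_, Z.isCompact_biUnion fun x _ => k1 x, fun s hs => by
    rw [w1, Finset.sum_eq_zero fun x hx => f2 x s fun c => hs (mem_biUnion hx (k2 x c))]; rfl⟩)
    (fun s hs => by
      have e : ∀ x ≠ (⟨_, hs⟩ : X), F x s = 0 := fun x hx => f2 x s (a.ne hx rfl)
      rw [ContinuousMap.sub_apply, w1, sub_eq_zero]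
      by_cases m : ⟨_, hs⟩ ∈ Z
      · rw [Finset.sum_eq_single_of_mem _ m fun x _ => e x, f3 ⟨_, hs⟩ s rfl]
      · rw [hZ _ m s rfl, Finset.sum_eq_zero fun x hx => e x fun c => m (c ▸ hx)]; rfl) δ
  rwa [ContinuousMap.sub_comp, map_sub, dg_lift (f := w.comp δ) (c.comp δ.continuous) fun _ => rfl,
    sub_zero] at this

theorem Sys.dec (a : Sys p X U γ b) (h : BS o p q E X) {u : C(S, TT)} (hu : u ∈ Ac S) {Z : Finset X}
    (hZ : ∀ x ∉ Z, ∀ i, dg (u.comp (γ x i)) = 0) (δ : C(TT, S)) :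
    dg (u.comp δ) = ∑ x ∈ Z, ∑ i, dg (u.comp (γ x i)) * dg ((b x i).comp δ) := by
  have e : ∀ δ : C(TT, S), dg ((u - ∑ x ∈ Z, ∑ i, dg (u.comp (γ x i)) • b x i).comp δ) =
      dg (u.comp δ) - ∑ x ∈ Z, ∑ i, dg (u.comp (γ x i)) * dg ((b x i).comp δ) := fun δ => by
    let P : C(S, TT) →+ ℤ := dg.comp (ContinuousMap.compAddMonoidHom' δ)
    change P _ = P _ - ∑ x ∈ Z, ∑ i, _ * P _
    simp [map_sum]
  refine sub_eq_zero.1 ((e δ).symm.trans (a.zero h (sub_mem hu (sum_mem fun x _ => sum_mem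
    fun i _ => zsmul_mem (a.mem x i) _)) (fun y k => ?_) δ))
  have z : ∀ x ≠ y, ∑ i, dg (u.comp (γ x i)) * dg ((b x i).comp (γ y k)) = 0 := fun x hx =>
    Finset.sum_eq_zero fun i _ => by
      rw [dg_const (f := (b x i).comp _) fun t => (a.core x).out i _ (a.ne hx ((a.core y).fib k t)),
        mul_zero]
  rw [e, sub_eq_zero]
  by_cases m : y ∈ Z
  · rw [Finset.sum_eq_single_of_mem _ m fun x _ => z x]; simp [(a.core y).dual]
  · rw [hZ y m, Finset.sum_eq_zero fun x hx => z x fun c => m (c ▸ hx)]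

theorem Sys.dec' (a : Sys p X U γ b) (h : BS o p q E X) {u : C(S, TT)} (hu : u ∈ Ac S) :
    ∃ Z : Finset X, ∀ δ : C(TT, S),
      dg (u.comp δ) = ∑ x ∈ Z, ∑ i, dg (u.comp (γ x i)) * dg ((b x i).comp δ) :=
  let ⟨Z, hZ⟩ := fin_supp h hu
  ⟨Z, a.dec h hu fun x hx i => dg_const fun t => hZ x hx _ ((a.core x).fib i t)⟩

end

end Pool.Agent.Lib.MP_069d55_gt.G
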