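import Pool.Agent.Lib.MP_069d55_gt.Disc

/-! The germ of an orientation preserving homeomorphism is that of a compactly supported one. -/

namespace Pool.Agent.Lib.MP_069d55_gt

open Set Filter Topology Metric Pool.Agent.Lib.MP_1e9af3_an

theorem deg_of_log (f : ℂ ≃ₜ ℂ) (p : ℂ) (U : Set ℂ) (hU : U ∈ 𝓝 p) (L : ℂ → ℂ)
    (hL : ContinuousOn L (U \ {p}))
    (h : ∀ z ∈ U \ {p}, f z - f p = Complex.exp (L z) * (z - p)) : deg f = 1 := by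
  obtain ⟨r, hr, hb⟩ := nhds_basis_closedBall.mem_iff.1 hU
  have hr0 : (r : ℂ) ≠ 0 := by exact_mod_cast hr.ne'
  have hm : ∀ θ : ℝ, p + r * ee θ ∈ U \ {p} := fun θ =>
    ⟨hb (circ_mem hr.le le_rfl θ), by simp [hr0, ee_ne]⟩
  have h0 : HasWind (fun θ : ℝ => Complex.exp (L (p + r * ee θ))) 0 :=
    ⟨fun θ => L (p + r * ee θ) / tpi, (hL.comp_continuous (by fun_prop) hm).div_const _,
      fun θ => (exp_eq_ee _).symm, fun θ => by simp [ee_add_one]⟩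
  exact (hasDeg_homeo f p).unique ((locInj_homeo f p hr).hasDeg_of
    ((h0.mul (hasWind_circle hr0)).congr fun θ => by rw [lp, h _ (hm θ)]; simp))

theorem ball_stable (f : ℂ ≃ₜ ℂ) (p : ℂ) (U : Set ℂ) (hU : U ∈ 𝓝 p) (L : ℂ → ℂ)
    (hL : ContinuousOn L (U \ {p}))
    (h : ∀ z ∈ U \ {p}, f z - f p = Complex.exp (L z) * (z - p)) (R₀ : ℝ) :
    ∃ k : ℂ ≃ₜ ℂ, (∃ R, ∀ z, R ≤ ‖z‖ → k z = z) ∧ ∀ z, ‖z‖ ≤ R₀ → k z = f z := by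
  obtain ⟨k, ⟨K, hK, -, hk⟩, e⟩ := disc_ball (deg_of_log f p U hU L hL h) R₀
  obtain ⟨R, hR⟩ := hK.isBounded.subset_ball 0
  exact ⟨k, ⟨R, fun z hz => hk z fun h => (mem_ball_zero_iff.1 (hR h)).not_ge hz⟩, e⟩

theorem germ_stable (f : ℂ ≃ₜ ℂ) (p : ℂ) (U : Set ℂ) (hU : U ∈ 𝓝 p) (L : ℂ → ℂ)
    (hL : ContinuousOn L (U \ {p}))
    (h : ∀ z ∈ U \ {p}, f z - f p = Complex.exp (L z) * (z - p)) :
    ∃ k : ℂ ≃ₜ ℂ, (∃ R, ∀ z, R ≤ ‖z‖ → k z = z) ∧ k =ᶠ[𝓝 p] f := by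
  obtain ⟨k, h1, h2⟩ := ball_stable f p U hU L hL h (‖p‖ + 1)
  refine ⟨k, h1, ?_⟩
  filter_upwards [(isOpen_lt continuous_norm continuous_const).mem_nhds (lt_add_one ‖p‖)]
    with z hz using h2 z hz.le

end Pool.Agent.Lib.MP_069d55_gt
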