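import Pool.Agent.Lib.MP_069d55_gt.Horo

/-! Group level criteria for the two questions. -/

namespace Pool.Agent.Lib.MP_069d55_gt

open Set Filter Topology Metric TopologicalSpace Pool.Agent.Lib.MP_1e9af3_an

noncomputable section

section abstract

variable {G G' : Type} [Group G] [TopologicalSpace G] [Group G'] [TopologicalSpace G']

/-- all continuous actions whose point stabilisers have finite orbits have finite orbits -/
def Neg (G : Type) [Group G] [TopologicalSpace G] : Prop :=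
  ∀ (W : Type) (ρ : G →* Equiv.Perm W), (∀ v, {g | ρ g v = v} ∈ 𝓝 (1 : G)) →
    (∀ v w, {u | ∃ g, ρ g v = v ∧ ρ g w = u}.Finite) → ∀ v, {u | ∃ g, ρ g v = u}.Finite

/-- there is an open normal subgroup of infinite index -/
def Pos (G : Type) [Group G] [TopologicalSpace G] : Prop :=
  ∃ N : Subgroup G, N.Normal ∧ (N : Set G) ∈ 𝓝 (1 : G) ∧ N.index = 0

lemma Neg.of_surj (e : G →* G') (hc : Continuous e) (hs : Function.Surjective e) (h : Neg G) :
    Neg G' := fun W ρ h1 h2 v => by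
  have := h W (ρ.comp e) (fun v => hc.continuousAt.preimage_mem_nhds (by rw [map_one]; exact h1 v))
    (fun v w => (h2 v w).subset fun u ⟨g, hg⟩ => ⟨e g, hg⟩) v
  refine this.subset fun u ⟨g, hg⟩ => ?_
  obtain ⟨g, rfl⟩ := hs g
  exact ⟨g, hg⟩

lemma Pos.of_surj (e : G →* G') (hc : Continuous e) (hs : Function.Surjective e) (h : Pos G') :
    Pos G :=
  let ⟨N, h1, h2, h3⟩ := h
  ⟨N.comap e, h1.comap e, hc.continuousAt.preimage_mem_nhds (by rw [map_one]; exact h2),
    by rw [N.index_comap_of_surjective hs, h3]⟩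

lemma finite_orbit {W : Type} (ρ : G →* Equiv.Perm W) (H : Subgroup G) [H.FiniteIndex] {v : W}
    (h : ∀ g ∈ H, ρ g v = v) : {u | ∃ g, ρ g v = u}.Finite := by
  refine (finite_range fun q : G ⧸ H => ρ q.out v).subset ?_
  rintro _ ⟨g, rfl⟩
  obtain ⟨k, hk⟩ := QuotientGroup.mk_out_eq_mul H g
  exact ⟨g, by simp only [hk, map_mul, Equiv.Perm.mul_apply, h k k.2]⟩

lemma pos_of [SeparatelyContinuousMul G] (H : Subgroup G) [H.FiniteIndex] (χ : G → ℤ)
    (hm : ∀ a ∈ H, ∀ b ∈ H, χ (a * b) = χ a + χ b) {g₀ : G} (h0 : g₀ ∈ H) (hχ : χ g₀ ≠ 0)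
    (hn : {g | g ∈ H ∧ χ g = 0} ∈ 𝓝 (1 : G)) : Pos G := by
  have h1 : χ 1 = 0 := (mem_of_mem_nhds hn).2
  have hi : ∀ a ∈ H, χ a⁻¹ = -χ a := fun a ha => by
    have := hm a ha _ (H.inv_mem ha)
    rw [mul_inv_cancel, h1] at this; omega
  set K : Subgroup G :=
    { carrier := {g | g ∈ H ∧ χ g = 0}
      one_mem' := ⟨H.one_mem, h1⟩
      mul_mem' := fun a b => ⟨H.mul_mem a.1 b.1, by rw [hm _ a.1 _ b.1, a.2, b.2, add_zero]⟩
      inv_mem' := fun a => ⟨H.inv_mem a.1, by rw [hi _ a.1, a.2, neg_zero]⟩ } with hK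
  refine ⟨K.normalCore, inferInstance, ?_, ?_⟩
  · have : ∀ᶠ g in 𝓝 (1 : G), ∀ q : G ⧸ H, q.out⁻¹ * g * q.out ∈ K := by
      refine eventually_all.2 fun q => ?_
      exact ((continuous_mul_const q.out).comp
        (continuous_const_mul q.out⁻¹)).continuousAt.preimage_mem_nhds (by simp; exact hn)
    filter_upwards [this] with g hg b
    obtain ⟨k, hk⟩ := QuotientGroup.mk_out_eq_mul H b⁻¹
    have e := hg (b⁻¹ : G)
    rw [hk] at e
    have e2 : b * g * b⁻¹ = k * ((b⁻¹ * k)⁻¹ * g * (b⁻¹ * k)) * (k : G)⁻¹ := by group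
    rw [e2]
    refine ⟨H.mul_mem (H.mul_mem k.2 e.1) (H.inv_mem k.2), ?_⟩
    rw [hm _ (H.mul_mem k.2 e.1) _ (H.inv_mem k.2), hm _ k.2 _ e.1, hi _ k.2, e.2]; omega
  · have hp : ∀ k : ℕ, χ (g₀ ^ k) = k * χ g₀ := fun k => by
      induction k with
      | zero => simpa using h1
      | succ k ih => rw [pow_succ, hm _ (H.pow_mem h0 k) _ h0, ih]; push_cast; ring
    have := (K.normalCore_le (K.normalCore.pow_index_mem g₀)).2
    rw [hp] at this
    exact_mod_cast (mul_eq_zero.1 this).resolve_right hχ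

lemma Q2.q1 (h : Q2 G) : Q1 G := let ⟨V, K, ρ, h, _⟩ := h; ⟨V, K, ρ, h⟩

lemma Neg.not_q1 (h : Neg G) : ¬ Q1 G := by
  rintro ⟨V, K, ρ, A⟩
  have adj : ∀ g {u w}, (skel K).Adj u w → (skel K).Adj (ρ g u) (ρ g w) :=
    fun g u w ⟨hne, s, hs, hu, hw⟩ => ⟨(ρ g).injective.ne hne, _, A.simpl g s hs,
      Finset.mem_map_of_mem _ hu, Finset.mem_map_of_mem _ hw⟩
  have dle : ∀ g u w, (skel K).dist (ρ g u) (ρ g w) ≤ (skel K).dist u w := fun g u w => by
    obtain ⟨p, hp⟩ := A.conn.exists_walk_length_eq_dist u w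
    have := SimpleGraph.dist_le (p.map (⟨ρ g, adj g⟩ : skel K →g skel K))
    rwa [SimpleGraph.Walk.length_map, hp] at this
  have nb : ∀ v, {u | (skel K).Adj v u}.Finite := fun v =>
    ((A.locFin v).biUnion fun s _ => s.finite_toSet).subset fun u ⟨_, s, hs, hv, hu⟩ =>
      mem_biUnion (show s ∈ {s ∈ K.faces | v ∈ s} from ⟨hs, hv⟩) hu
  have wk : ∀ (k : ℕ) v, {u | ∃ p : (skel K).Walk v u, p.length ≤ k}.Finite := fun k => by
    induction k with
    | zero => exact fun v => (finite_singleton v).subset fun u ⟨p, hp⟩ =>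
        (p.eq_of_length_eq_zero (by omega)).symm
    | succ k ih =>
      refine fun v => (((nb v).biUnion fun w _ => ih w).insert v).subset fun u ⟨p, hp⟩ => ?_
      cases p with
      | nil => exact Or.inl rfl
      | cons ha q => exact Or.inr (mem_biUnion ha ⟨q, by simpa using hp⟩)
  have bl : ∀ (k : ℕ) v, {u | (skel K).dist v u ≤ k}.Finite := fun k v =>
    (wk k v).subset fun u hu =>
      let ⟨p, hp⟩ := A.conn.exists_walk_length_eq_dist v u
      ⟨p, hp.le.trans hu⟩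
  obtain ⟨v⟩ := A.conn.nonempty
  have := h V ρ (fun v => (A.cont v).mem_nhds (by simp)) (fun v w =>
    (bl ((skel K).dist v w) v).subset fun u ⟨g, h1, h2⟩ => by
      have := dle g v w
      rwa [h1, h2] at this) v
  obtain ⟨B, hB⟩ := (this.image fun u => (skel K).dist v u).bddAbove
  obtain ⟨g, hg⟩ := A.unbdd v B
  exact hg.not_ge (hB ⟨_, ⟨g, rfl⟩, rfl⟩)

end abstract

variable {S T : Opens ℂ}

/-- underlying continuous map -/
def toC (g : HomeoP S) : C((S : Set ℂ), (S : Set ℂ)) := (g.1 : C((S : Set ℂ), (S : Set ℂ)))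

lemma inducing_toC : IsInducing (toC (S := S)) := ⟨rfl⟩

instance : SeparatelyContinuousMul (HomeoP S) where
  continuous_const_mul {a} := inducing_toC.continuous_iff.2
    ((ContinuousMap.continuous_postcomp (toC a)).comp inducing_toC.continuous)
  continuous_mul_const {a} := inducing_toC.continuous_iff.2
    ((ContinuousMap.continuous_precomp (toC a)).comp inducing_toC.continuous)

instance : SecondCountableTopology (HomeoP S) :=
  haveI := S.2.locallyCompactSpace
  inducing_toC.secondCountableTopology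

lemma basis_one : (𝓝 (1 : HomeoP S)).HasBasis
    (fun p : Set (S : Set ℂ) × ℝ => IsCompact p.1 ∧ 0 < p.2)
    fun p => {g | ∀ z ∈ p.1, dist (g.1 z) z < p.2} := by
  rw [inducing_toC.nhds_eq_comap]
  exact (nhds_basis_uniformity uniformity_basis_dist.compactConvergenceUniformity).comap _

lemma nb_mem {K : Set ℂ} (hK : IsCompact K) (hS : K ⊆ S) {ε : ℝ} (hε : 0 < ε) :
    ∀ᶠ g in 𝓝 (1 : HomeoP S), ∀ z : (S : Set ℂ), (z : ℂ) ∈ K → dist (g.1 z) z < ε :=
  basis_one.mem_of_mem (i := (Subtype.val ⁻¹' K, ε))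
    ⟨IsInducing.subtypeVal.isCompact_preimage_iff (by simpa using hS) |>.2 hK, hε⟩

lemma nb_of_mem {A : Set (HomeoP S)} (hA : A ∈ 𝓝 (1 : HomeoP S)) :
    ∃ K : Set ℂ, IsCompact K ∧ K ⊆ S ∧ ∃ ε > 0, ∀ g : HomeoP S,
      (∀ z : (S : Set ℂ), (z : ℂ) ∈ K → dist (g.1 z) z < ε) → g ∈ A := by
  obtain ⟨⟨K, ε⟩, ⟨hK, hε⟩, h⟩ := basis_one.mem_iff.1 hA
  exact ⟨Subtype.val '' K, hK.image continuous_subtype_val, by rintro _ ⟨z, -, rfl⟩; exact z.2,
    ε, hε, fun g hg => h fun z hz => hg z (mem_image_of_mem _ hz)⟩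

lemma HomeoP.op (g : HomeoP S) : OP g.1 := (orPres_iff S.2).1 g.2

lemma isoId_le {N : Subgroup (HomeoP S)} (hN : (N : Set (HomeoP S)) ∈ 𝓝 (1 : HomeoP S)) :
    isoId S ≤ N := by
  rintro f ⟨H, hc, h0, h1⟩
  have hop : ∀ t, OrPres (H t) := fun t => (orPres_iff S.2).2 fun p hp => by
    obtain ⟨r, hr, hb⟩ := nhds_basis_closedBall.mem_iff.1 (S.2.mem_nhds hp)
    have e : ∀ t, lp (fn (H t)) p r = fun θ : ℝ =>
        (H t ⟨_, hb (circ_mem hr.le le_rfl θ)⟩ : ℂ) - H t ⟨p, hp⟩ := fun t => by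
      ext θ; rw [lp, fn_mem _ hp, fn_mem _ (hb (circ_mem hr.le le_rfl θ))]
    have hw := wind_homotopy (H := fun t => lp (fn (H t)) p r) (S := univ) isPreconnected_univ
      (Continuous.continuousOn (by
        simp only [e]
        refine (continuous_subtype_val.comp (hc.comp (continuous_fst.prodMk ?_))).sub
          (continuous_subtype_val.comp (hc.comp (continuous_fst.prodMk continuous_const)))
        exact Continuous.subtype_mk (by fun_prop) _))
      (fun t _ => (fn_locInj _ hr hb).lp_ne hr le_rfl) (fun t _ => lp_per _ _ _)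
      (mem_univ t) (mem_univ 0)
    have h2 := (fn_locInj (H 0) hr hb).hasDeg
    rw [← hw] at h2
    have h3 : HasDeg (fn (H 0)) p 1 := h0 ▸ OP.refl S.2 p hp
    rw [← h2.unique h3]
    exact (fn_locInj _ hr hb).hasDeg
  set γ : unitInterval → HomeoP S := fun t => ⟨H t, hop t⟩ with hγ
  have γc : Continuous γ := inducing_toC.continuous_iff.2
    (ContinuousMap.continuous_of_continuous_uncurry _ hc)
  have ho := N.isOpen_of_mem_nhds hN
  have := (IsClopen.preimage ⟨N.isClosed_of_isOpen ho, ho⟩ γc).eq_univ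
    ⟨0, by rw [mem_preimage, show γ 0 = 1 from Subtype.ext h0]; exact N.one_mem⟩
  have h2 : γ 1 ∈ N := (this ▸ mem_univ 1 : 1 ∈ γ ⁻¹' N)
  rwa [show γ 1 = f from Subtype.ext h1] at h2

theorem Neg.mcg (h : Neg (HomeoP S)) : ¬ Q1 (MCG S) :=
  (h.of_surj (QuotientGroup.mk' _) QuotientGroup.continuous_mk (QuotientGroup.mk'_surjective _)).not_q1

theorem Pos.mcg (h : Pos (HomeoP S)) : Q2 (MCG S) := by
  obtain ⟨N, h1, h2, h3⟩ := h
  have ho := N.isOpen_of_mem_nhds h2
  have := Subgroup.index_eq_zero_iff_infinite.1 h3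
  have : Countable (HomeoP S ⧸ N) := by
    refine Pairwise.countable_of_isOpen_disjoint (α := HomeoP S)
      (s := fun q => {g : HomeoP S | (g : HomeoP S ⧸ N) = q})
      (fun a b hab => disjoint_left.2 fun g h h' => hab (h.symm.trans h')) (fun q => ?_)
      fun q => ⟨q.out, q.out_eq⟩
    convert ho.preimage (continuous_const_mul q.out⁻¹) using 1
    ext g
    rw [mem_preimage, SetLike.mem_coe, ← QuotientGroup.eq, QuotientGroup.out_eq']
    exact eq_comm
  refine q2_of_quot (QuotientGroup.lift (isoId S) (QuotientGroup.mk' N) fun g hg =>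
    (QuotientGroup.eq_one_iff g).2 (isoId_le h2 hg)) (fun q => ⟨(q.out : HomeoP S), q.out_eq⟩) ?_
  rw [← (QuotientGroup.isQuotientMap_mk _).isOpen_preimage]
  convert ho using 1
  ext g
  exact QuotientGroup.eq_one_iff g

lemma exists_conj (h : (S : Set ℂ) ≃ₜ (T : Set ℂ)) (hh : OP h) :
    ∃ e : HomeoP S →* HomeoP T, Continuous e ∧ Function.Surjective e := by
  refine ⟨MonoidHom.mk' (fun g => ⟨h.symm.trans (g.1.trans h), (orPres_iff T.2).2
    ((hh.symm S.2 T.2).trans T.2 S.2 (g.op.trans S.2 S.2 hh))⟩) fun a b => ?_, ?_, fun g => ?_⟩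
  · refine Subtype.ext (Homeomorph.ext fun z => ?_)
    change h (a.1 (b.1 (h.symm z))) = h (a.1 (h.symm (h (b.1 (h.symm z)))))
    simp
  · exact inducing_toC.continuous_iff.2 ((ContinuousMap.continuous_precomp
      (h.symm : C((T : Set ℂ), (S : Set ℂ)))).comp ((ContinuousMap.continuous_postcomp
      (h : C((S : Set ℂ), (T : Set ℂ)))).comp (inducing_toC (S := S)).continuous))
  · refine ⟨⟨h.trans (g.1.trans h.symm), (orPres_iff S.2).2
      (hh.trans S.2 T.2 (g.op.trans T.2 T.2 (hh.symm S.2 T.2)))⟩,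
      Subtype.ext (Homeomorph.ext fun z => ?_)⟩
    change h (h.symm (g.1 (h (h.symm z)))) = g.1 z
    simp

end

end Pool.Agent.Lib.MP_069d55_gt
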