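import Pool.Agent.Lib.MP_069d55_gt.Defs

/-! The combinatorial horoball over a countable group. -/

namespace Pool.Agent.Lib.MP_069d55_gt

open Set

noncomputable section

lemma exists_norm (Q : Type) [Group Q] [Countable Q] : ∃ N : Q → ℕ, N 1 = 0 ∧
    (∀ g, N g⁻¹ = N g) ∧ (∀ g h, N (g * h) ≤ N g + N h) ∧ ∀ k, {g | N g ≤ k}.Finite := by
  obtain ⟨e, he⟩ := exists_surjective_nat Q
  set ev : List (ℕ × Bool) → Q := fun w => (w.map fun x => if x.2 then e x.1 else (e x.1)⁻¹).prod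
    with hev
  set wt : List (ℕ × Bool) → ℕ := fun w => (w.map fun x => x.1 + 1).sum with hwt
  have hne : ∀ g, {k | ∃ w, ev w = g ∧ wt w = k}.Nonempty := fun g => by
    obtain ⟨i, rfl⟩ := he g
    exact ⟨_, [(i, true)], by simp [hev], rfl⟩
  have hinv : ∀ w, ∃ w', ev w' = (ev w)⁻¹ ∧ wt w' = wt w := fun w => by
    induction w with
    | nil => exact ⟨[], by simp [hev], rfl⟩
    | cons x w ih =>
      obtain ⟨w', h1, h2⟩ := ih
      refine ⟨w' ++ [(x.1, !x.2)], ?_, ?_⟩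
      · simp only [hev] at h1 ⊢
        rcases x with ⟨i, _ | _⟩ <;> simp [h1]
      · simp only [hwt] at h2 ⊢
        simp [h2, add_comm]
  have hle : ∀ g, sInf {k | ∃ w, ev w = g⁻¹ ∧ wt w = k} ≤ sInf {k | ∃ w, ev w = g ∧ wt w = k} :=
    fun g => by
      obtain ⟨w, h1, h2⟩ := Nat.sInf_mem (hne g)
      obtain ⟨w', h3, h4⟩ := hinv w
      exact Nat.sInf_le ⟨w', by rw [h3, h1], h4.trans h2⟩
  have hfin : ∀ k, {w | wt w ≤ k}.Finite := fun k => by
    induction k with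
    | zero =>
      refine (finite_singleton []).subset fun w hw => ?_
      rcases w with _ | ⟨x, w⟩
      · rfl
      · simp [hwt] at hw
    | succ k ih =>
      refine ((finite_singleton []).union (((finite_le_nat k).prod
        (finite_univ (α := Bool))).image2 List.cons ih)).subset fun w hw => ?_
      rcases w with _ | ⟨x, w⟩
      · exact Or.inl rfl
      · simp only [hwt, mem_ofPred_eq, List.map_cons, List.sum_cons] at hw
        exact Or.inr ⟨x, ⟨show x.1 ≤ k by omega, trivial⟩, w,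
          by simp only [hwt, mem_ofPred_eq]; omega, rfl⟩
  refine ⟨fun g => sInf {k | ∃ w, ev w = g ∧ wt w = k}, Nat.eq_zero_of_le_zero
    (Nat.sInf_le ⟨[], by simp [hev], rfl⟩), fun g => le_antisymm (hle g)
      (by simpa using hle g⁻¹), fun g h => ?_, fun k => ((hfin k).image ev).subset fun g hg => ?_⟩
  · obtain ⟨w, h1, h2⟩ := Nat.sInf_mem (hne g)
    obtain ⟨w', h3, h4⟩ := Nat.sInf_mem (hne h)
    refine Nat.sInf_le ⟨w ++ w', ?_, ?_⟩
    · rw [← h1, ← h3]; simp [hev]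
    · simp only [← h2, ← h4]; simp [hwt]; omega
  · obtain ⟨w, h1, h2⟩ := Nat.sInf_mem (hne g)
    exact ⟨w, h2.trans_le hg, h1⟩

section
variable {Q : Type} [Group Q] (N : Q → ℕ)

def hrel (x y : Q × ℕ) : Prop :=
  (x.2 = y.2 ∧ N (x.1⁻¹ * y.1) ≤ 2 ^ x.2) ∨ (x.1 = y.1 ∧ (x.2 + 1 = y.2 ∨ y.2 + 1 = x.2))

def horo : AbstractSimplicialComplex (Q × ℕ) where
  faces := {s | s.Nonempty ∧ ∀ x ∈ s, ∀ y ∈ s, x ≠ y → hrel N x y}
  isRelLowerSet_faces := fun _ hs => ⟨hs.1, fun _ hts ht =>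
    ⟨ht, fun x hx y hy => hs.2 x (hts hx) y (hts hy)⟩⟩
  singleton_mem v := ⟨Finset.singleton_nonempty v, by simp⟩

/-- left translation -/
def hact : Q →* Equiv.Perm (Q × ℕ) where
  toFun g := (Equiv.mulLeft g).prodCongr (Equiv.refl ℕ)
  map_one' := by ext x <;> simp
  map_mul' g h := by ext x <;> simp [mul_assoc]

variable {N}

lemma hact_apply (g : Q) (x : Q × ℕ) : hact g x = (g * x.1, x.2) := rfl

lemma hrel_symm (h2 : ∀ g, N g⁻¹ = N g) {x y : Q × ℕ} (h : hrel N x y) : hrel N y x := by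
  rcases h with ⟨a, b⟩ | ⟨a, b⟩
  · exact Or.inl ⟨a.symm, by rw [← h2, ← a]; simpa using b⟩
  · exact Or.inr ⟨a.symm, b.symm⟩

lemma horo_adj (h2 : ∀ g, N g⁻¹ = N g) {x y : Q × ℕ} :
    (skel (horo N)).Adj x y ↔ x ≠ y ∧ hrel N x y := by
  classical
  refine and_congr_right fun hne => ⟨fun ⟨s, hs, hx, hy⟩ => hs.2 x hx y hy hne, fun h =>
    ⟨{x, y}, ⟨by simp, fun a ha b hb hab => ?_⟩, by simp, by simp⟩⟩
  simp only [Finset.mem_insert, Finset.mem_singleton] at ha hb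
  rcases ha with rfl | rfl <;> rcases hb with rfl | rfl
  exacts [absurd rfl hab, h, hrel_symm h2 h, absurd rfl hab]

lemma horo_up (h2 : ∀ g, N g⁻¹ = N g) (q : Q) (m k : ℕ) :
    ∃ p : (skel (horo N)).Walk (q, m) (q, m + k), p.length = k := by
  induction k with
  | zero => exact ⟨.nil, rfl⟩
  | succ k ih =>
    obtain ⟨p, hp⟩ := ih
    exact ⟨p.concat ((horo_adj h2).2 ⟨by simp, Or.inr ⟨rfl, Or.inl rfl⟩⟩), by simp [hp]⟩

/-- the height at which two vertices become close -/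
def hh (N : Q → ℕ) (x y : Q × ℕ) : ℕ := max (max x.2 y.2) (Nat.clog 2 (N (x.1⁻¹ * y.1)))

lemma horo_walk (h2 : ∀ g, N g⁻¹ = N g) (x y : Q × ℕ) :
    ∃ p : (skel (horo N)).Walk x y, p.length + x.2 + y.2 ≤ 2 * hh N x y + 1 := by
  obtain ⟨q, m⟩ := x
  obtain ⟨q', n⟩ := y
  have a1 : m ≤ hh N (q, m) (q', n) := le_max_of_le_left (le_max_left _ _)
  have a2 : n ≤ hh N (q, m) (q', n) := le_max_of_le_left (le_max_right _ _)
  have a3 : N (q⁻¹ * q') ≤ 2 ^ hh N (q, m) (q', n) :=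
    (Nat.clog_le_iff_le_pow one_lt_two).1 (le_max_right _ _)
  generalize hh N (q, m) (q', n) = h at *
  obtain ⟨k, rfl⟩ := Nat.exists_eq_add_of_le a1
  obtain ⟨l, hl⟩ := Nat.exists_eq_add_of_le a2
  obtain ⟨p, hp⟩ := horo_up h2 q m k
  obtain ⟨p', hp'⟩ := horo_up h2 q' n l
  by_cases e : q = q'
  · subst e
    exact ⟨p.append (p'.reverse.copy (by rw [hl]) rfl), by simp [hp, hp']; omega⟩
  · exact ⟨p.append (.cons (v := (q', m + k)) ((horo_adj h2).2 ⟨by simp [e], Or.inl ⟨rfl, a3⟩⟩)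
      (p'.reverse.copy (show (q', n + l) = (q', m + k) by rw [hl]) rfl)), by simp [hp, hp']; omega⟩

lemma horo_lower (h1 : N 1 = 0) (h2 : ∀ g, N g⁻¹ = N g) (h3 : ∀ g h, N (g * h) ≤ N g + N h)
    {x y : Q × ℕ} (p : (skel (horo N)).Walk x y) :
    N (x.1⁻¹ * y.1) ^ 2 ≤ 9 * 2 ^ (p.length + x.2 + y.2) ∧ x.2 ≤ p.length + y.2 ∧
      y.2 ≤ p.length + x.2 := by
  induction p with
  | nil => simp [h1]
  | @cons x z y hadj p ih =>
    obtain ⟨i1, i2, i3⟩ := ih
    rw [SimpleGraph.Walk.length_cons]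
    rcases ((horo_adj h2).1 hadj).2 with ⟨a, b⟩ | ⟨a, b⟩
    · refine ⟨?_, by omega, by omega⟩
      have t := h3 (x.1⁻¹ * z.1) (z.1⁻¹ * y.1)
      rw [show x.1⁻¹ * z.1 * (z.1⁻¹ * y.1) = x.1⁻¹ * y.1 by group] at t
      have u : (2 ^ x.2) ^ 2 ≤ 2 ^ (p.length + z.2 + y.2) := by
        rw [← pow_mul]; exact Nat.pow_le_pow_right two_pos (by omega)
      rw [show p.length + 1 + x.2 + y.2 = p.length + z.2 + y.2 + 1 by omega, pow_succ 2]
      generalize 2 ^ (p.length + z.2 + y.2) = U at *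
      have t2 := Nat.pow_le_pow_left (t.trans (Nat.add_le_add_right b _)) 2
      zify at *
      nlinarith [sq_nonneg ((N (z.1⁻¹ * y.1) : ℤ) - 3 * 2 ^ x.2)]
    · refine ⟨?_, by omega, by omega⟩
      rw [a]
      exact i1.trans (Nat.mul_le_mul_left _ (Nat.pow_le_pow_right two_pos (by omega)))

lemma horo_dist (h1 : N 1 = 0) (h2 : ∀ g, N g⁻¹ = N g) (h3 : ∀ g h, N (g * h) ≤ N g + N h)
    (x y : Q × ℕ) : (skel (horo N)).dist x y + x.2 + y.2 ≤ 2 * hh N x y + 1 ∧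
      2 * hh N x y ≤ (skel (horo N)).dist x y + x.2 + y.2 + 5 := by
  obtain ⟨p, hp⟩ := horo_walk h2 x y
  refine ⟨le_trans (by have := SimpleGraph.dist_le p; omega) hp, ?_⟩
  obtain ⟨w, hw⟩ := p.reachable.exists_walk_length_eq_dist
  obtain ⟨i1, i2, i3⟩ := horo_lower h1 h2 h3 w
  rw [hw] at i1 i2 i3
  set e := (skel (horo N)).dist x y + x.2 + y.2 with he
  have : Nat.clog 2 (N (x.1⁻¹ * y.1)) ≤ (e + 5) / 2 := by
    rw [Nat.clog_le_iff_le_pow one_lt_two, ← Nat.pow_le_pow_iff_left two_ne_zero, ← pow_mul]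
    refine i1.trans (le_trans ?_ (Nat.pow_le_pow_right two_pos (show e + 4 ≤ _ by omega)))
    rw [pow_add 2 e 4]; omega
  unfold hh; omega

lemma hh_tri (h3 : ∀ g h, N (g * h) ≤ N g + N h) (x y z : Q × ℕ) :
    hh N x y ≤ max (hh N x z) (hh N z y) + 1 := by
  have t := h3 (x.1⁻¹ * z.1) (z.1⁻¹ * y.1)
  rw [show x.1⁻¹ * z.1 * (z.1⁻¹ * y.1) = x.1⁻¹ * y.1 by group] at t
  have a : N (x.1⁻¹ * z.1) ≤ 2 ^ max (hh N x z) (hh N z y) :=
    (Nat.clog_le_iff_le_pow one_lt_two).1 (le_max_of_le_left (le_max_right _ _))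
  have b : N (z.1⁻¹ * y.1) ≤ 2 ^ max (hh N x z) (hh N z y) :=
    (Nat.clog_le_iff_le_pow one_lt_two).1 (le_max_of_le_right (le_max_right _ _))
  have : Nat.clog 2 (N (x.1⁻¹ * y.1)) ≤ max (hh N x z) (hh N z y) + 1 := by
    rw [Nat.clog_le_iff_le_pow one_lt_two, pow_succ]; omega
  unfold hh at *; omega

lemma hh_symm (h2 : ∀ g, N g⁻¹ = N g) (x y : Q × ℕ) : hh N x y = hh N y x := by
  unfold hh; rw [max_comm x.2, ← h2]; simp

end

theorem q2_of_quot {G Q : Type} [Group G] [TopologicalSpace G] [Group Q] [Countable Q] [Infinite Q]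
    (π : G →* Q) (hs : Function.Surjective π) (ho : IsOpen {g | π g = 1}) : Q2 G := by
  classical
  obtain ⟨N, h1, h2, h3, h4⟩ := exists_norm Q
  refine ⟨Q × ℕ, horo N, hact.comp π, ⟨?_, fun v => ?_, fun g s hs => ?_, fun v => ?_,
    fun v B => ?_⟩, 16, fun x y z w => ?_⟩
  · exact (SimpleGraph.connected_iff _).2 ⟨fun x y => (horo_walk h2 x y).choose.reachable,
      inferInstance⟩
  · have hf : {y | y = v ∨ hrel N v y}.Finite := by
      refine (((h4 (2 ^ v.2)).image (v.1 * ·)).prod (finite_le_nat (v.2 + 1))).subset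
        fun y hy => ?_
      rcases hy with rfl | ⟨a, b⟩ | ⟨a, b⟩
      · exact ⟨⟨1, by simp [h1], by simp⟩, by simp⟩
      · exact ⟨⟨_, b, by simp⟩, show y.2 ≤ _ by omega⟩
      · exact ⟨⟨1, by simp [h1], by simp [a]⟩, show y.2 ≤ _ by omega⟩
    refine (hf.toFinset.powerset.finite_toSet).subset fun s hs => ?_
    simp only [Finset.coe_powerset, Finite.coe_toFinset, mem_preimage, mem_powerset_iff]
    intro y hy
    by_cases e : v = y
    exacts [Or.inl e.symm, Or.inr (hs.1.2 v hs.2 y hy e)]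
  · refine ⟨hs.1.map, fun x hx y hy hxy => ?_⟩
    obtain ⟨a, ha, rfl⟩ := Finset.mem_map.1 hx
    obtain ⟨b, hb, rfl⟩ := Finset.mem_map.1 hy
    have := hs.2 a ha b hb fun e => hxy (e ▸ rfl)
    simpa [hrel, hact_apply, mul_assoc] using this
  · convert ho using 2 with g
    simp [hact_apply, Prod.ext_iff]
  · obtain ⟨g, hg⟩ := (h4 (2 ^ (B + v.2 + 5))).infinite_compl.nonempty
    obtain ⟨g', hg'⟩ := hs (v.1 * g * v.1⁻¹)
    refine ⟨g', ?_⟩
    have e : (hact.comp π) g' v = (v.1 * g, v.2) := by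
      rw [MonoidHom.comp_apply, hact_apply, hg']; simp
    have a := (horo_dist h1 h2 h3 v (v.1 * g, v.2)).2
    have b : B + v.2 + 5 < hh N v (v.1 * g, v.2) := by
      refine lt_max_of_lt_right (not_le.1 fun h => hg ?_)
      simpa using (Nat.clog_le_iff_le_pow one_lt_two).1 h
    rw [e]; simp only at a; omega
  · have d := horo_dist h1 h2 h3
    have a1 := (d x y).1
    have a2 := (d z w).1
    have a3 := (d x z).2
    have a4 := (d y w).2
    have a5 := (d x w).2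
    have a6 := (d y z).2
    have t1 := hh_tri h3 x y z
    have t2 := hh_tri h3 x y w
    have t3 := hh_tri h3 z w x
    have t4 := hh_tri h3 z w y
    rw [hh_symm h2 z y] at t1 t4
    rw [hh_symm h2 w y] at t2
    rw [hh_symm h2 z x] at t3
    omega

end

end Pool.Agent.Lib.MP_069d55_gt
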