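import Pool.Agent.Lib.MP_069d55_gt.EndDefs

/-! Supports, the group topology, lifting through charts, Lipschitz perturbations. -/

open Set Topology Filter Metric

namespace Pool.Agent.Lib.MP_069d55_gt.K

/-- The compact-open topology on the homeomorphisms of a space. -/
scoped instance homeoTop (X : Type*) [TopologicalSpace X] : TopologicalSpace (X ≃ₜ X) :=
  TopologicalSpace.induced (fun f => (f : C(X, X))) inferInstance

section supp
variable {M : Type*} [TopologicalSpace M]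

/-- Homeomorphisms with compact support inside `Ω`. -/
def AA (Ω : Set M) : Subgroup (M ≃ₜ M) where
  carrier := {k | ∃ K, IsCompact K ∧ K ⊆ Ω ∧ ∀ x ∉ K, k x = x}
  one_mem' := ⟨∅, isCompact_empty, empty_subset _, fun _ _ => rfl⟩
  mul_mem' := by
    rintro a b ⟨K, hK, hKΩ, ha⟩ ⟨K', hK', hKΩ', hb⟩
    refine ⟨K ∪ K', hK.union hK', union_subset hKΩ hKΩ', fun x hx => ?_⟩
    rw [mem_union, not_or] at hx
    rw [Homeomorph.mul_apply, hb x hx.2, ha x hx.1]
  inv_mem' := by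
    rintro a ⟨K, hK, hKΩ, ha⟩
    exact ⟨K, hK, hKΩ, fun x hx => by
      rw [Homeomorph.inv_apply, Homeomorph.symm_apply_eq, ha x hx]⟩

/-- Pointwise stabiliser. -/
def Fix (Z : Set M) : Subgroup (M ≃ₜ M) where
  carrier := {k | ∀ x ∈ Z, k x = x}
  one_mem' := fun _ _ => rfl
  mul_mem' := fun {a b} ha hb x hx => by rw [Homeomorph.mul_apply, hb x hx, ha x hx]
  inv_mem' := fun {a} ha x hx => by rw [Homeomorph.inv_apply, Homeomorph.symm_apply_eq, ha x hx]

/-- Setwise stabiliser. -/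
def Stab (E : Set M) : Subgroup (M ≃ₜ M) where
  carrier := {k | ∀ x, k x ∈ E ↔ x ∈ E}
  one_mem' := fun _ => Iff.rfl
  mul_mem' := fun {a b} ha hb x => by rw [Homeomorph.mul_apply, ha, hb]
  inv_mem' := fun {a} ha x => by rw [← ha, Homeomorph.inv_apply, a.apply_symm_apply]

theorem mem_Fix {Z : Set M} {k : M ≃ₜ M} : k ∈ Fix Z ↔ ∀ x ∈ Z, k x = x := Iff.rfl
theorem mem_Stab {E : Set M} {k : M ≃ₜ M} : k ∈ Stab E ↔ ∀ x, k x ∈ E ↔ x ∈ E := Iff.rfl
theorem mem_AA {Ω : Set M} {k : M ≃ₜ M} :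
    k ∈ AA Ω ↔ ∃ K, IsCompact K ∧ K ⊆ Ω ∧ ∀ x ∉ K, k x = x := Iff.rfl

theorem mem_Stab_iff_image {E : Set M} {k : M ≃ₜ M} : k ∈ Stab E ↔ k '' E = E := by
  constructor
  · intro h
    ext x
    constructor
    · rintro ⟨y, hy, rfl⟩; exact (h y).2 hy
    · intro hx; exact ⟨k.symm x, (h _).1 (by simpa using hx), by simp⟩
  · intro h x
    conv_lhs => rw [← h]
    exact k.injective.mem_set_image

theorem AA_mono {Ω Ω' : Set M} (h : Ω ⊆ Ω') : AA Ω ≤ AA Ω' :=
  fun _ ⟨K, hK, hKΩ, ha⟩ => ⟨K, hK, hKΩ.trans h, ha⟩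

theorem AA_fix {Ω : Set M} {k : M ≃ₜ M} (hk : k ∈ AA Ω) {x : M} (hx : x ∉ Ω) : k x = x := by
  obtain ⟨K, -, hKΩ, ha⟩ := hk
  exact ha x fun h => hx (hKΩ h)

theorem fix_mem_iff {Ω : Set M} {k : M ≃ₜ M} (hk : ∀ x ∉ Ω, k x = x) (x : M) :
    k x ∈ Ω ↔ x ∈ Ω := by
  constructor
  · intro h; by_contra hx; rw [hk x hx] at h; exact hx h
  · intro h; by_contra hx
    have := k.injective (hk _ hx)
    rw [this] at hx; exact hx h

theorem AA_mem_iff {Ω : Set M} {k : M ≃ₜ M} (hk : k ∈ AA Ω) (x : M) : k x ∈ Ω ↔ x ∈ Ω :=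
  fix_mem_iff (fun _ h => AA_fix hk h) x

theorem AA_le_Fix {Ω Z : Set M} (h : Disjoint Ω Z) : AA Ω ≤ Fix Z :=
  fun _ hk _ hx => AA_fix hk (Set.disjoint_right.1 h hx)

theorem AA_conj {Ω : Set M} {k : M ≃ₜ M} (hk : k ∈ AA Ω) (g : M ≃ₜ M) :
    g * k * g⁻¹ ∈ AA (g '' Ω) := by
  obtain ⟨K, hK, hKΩ, ha⟩ := hk
  refine ⟨g '' K, hK.image g.continuous, image_mono hKΩ, fun x hx => ?_⟩
  have : g.symm x ∉ K := fun h => hx ⟨_, h, by simp⟩
  simp [ha _ this]

theorem AA_eventually [T2Space M] {Ω : Set M} {k : M ≃ₜ M} (hk : k ∈ AA Ω) {x : M}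
    (hx : x ∉ Ω) : ∀ᶠ y in 𝓝 x, k y = y := by
  obtain ⟨K, hK, hKΩ, ha⟩ := hk
  filter_upwards [hK.isClosed.isOpen_compl.mem_nhds fun h => hx (hKΩ h)] with y hy using ha y hy

theorem continuous_toC : Continuous (fun f : M ≃ₜ M => (f : C(M, M))) := continuous_induced_dom

theorem continuous_hm {T : Type*} [TopologicalSpace T] {F : T → M ≃ₜ M}
    (h : Continuous fun p : T × M => F p.1 p.2) : Continuous F :=
  continuous_induced_rng.2 (ContinuousMap.continuous_of_continuous_uncurry _ h)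

theorem continuous_hm_eval [LocallyCompactSpace M] :
    Continuous fun p : (M ≃ₜ M) × M => p.1 p.2 :=
  (continuous_eval (F := C(M, M))).comp (continuous_toC.prodMap continuous_id)

theorem continuous_hm_apply (x : M) : Continuous fun f : M ≃ₜ M => f x :=
  (continuous_eval_const (F := C(M, M)) x).comp continuous_toC

instance [CompactSpace M] [T2Space M] : IsTopologicalGroup (M ≃ₜ M) where
  continuous_mul := continuous_hm (continuous_hm_eval.comp
    ((continuous_fst.comp continuous_fst).prodMk (continuous_hm_eval.comp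
      ((continuous_snd.comp continuous_fst).prodMk continuous_snd))))
  continuous_inv := by
    refine continuous_induced_rng.2 (ContinuousMap.continuous_compactOpen.2 fun K hK U hU => ?_)
    have : {f : M ≃ₜ M | MapsTo (((fun f : M ≃ₜ M => (f : C(M, M))) ∘ fun a => a⁻¹) f) K U} =
        (fun f : M ≃ₜ M => (f : C(M, M))) ⁻¹' {f | MapsTo f Uᶜ Kᶜ} := by
      ext f
      constructor
      · intro h x hx hK; exact hx (by simpa using h hK)
      · intro h x hx; by_contra hc; exact h hc (by simpa using hx)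
    rw [this]
    exact (ContinuousMap.isOpen_setOfPred_mapsTo hU.isClosed_compl.isCompact
      hK.isClosed.isOpen_compl).preimage continuous_toC

end supp

section lift
variable {M : Type*} [TopologicalSpace M] {e : ℂ → M}

/-- `K` is `k` read in the chart `e`, extended by the identity. -/
def IsLift (e : ℂ → M) (k : ℂ ≃ₜ ℂ) (K : M ≃ₜ M) : Prop :=
  (∀ z, K (e z) = e (k z)) ∧ ∀ x ∉ range e, K x = x

theorem IsLift.one : IsLift e 1 1 := ⟨fun _ => rfl, fun _ _ => rfl⟩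

theorem IsLift.mul {k k' : ℂ ≃ₜ ℂ} {K K' : M ≃ₜ M} (h : IsLift e k K) (h' : IsLift e k' K') :
    IsLift e (k * k') (K * K') :=
  ⟨fun z => by simp [h.1, h'.1], fun x hx => by simp [h.2 x hx, h'.2 x hx]⟩

theorem IsLift.inv {k : ℂ ≃ₜ ℂ} {K : M ≃ₜ M} (h : IsLift e k K) : IsLift e k⁻¹ K⁻¹ :=
  ⟨fun z => by rw [Homeomorph.inv_apply, Homeomorph.symm_apply_eq, h.1]; simp,
    fun x hx => by rw [Homeomorph.inv_apply, Homeomorph.symm_apply_eq, h.2 x hx]⟩

theorem IsLift.unique {k : ℂ ≃ₜ ℂ} {K K' : M ≃ₜ M} (h : IsLift e k K) (h' : IsLift e k K') :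
    K = K' := by
  ext x
  by_cases hx : x ∈ range e
  · obtain ⟨z, rfl⟩ := hx; rw [h.1, h'.1]
  · rw [h.2 x hx, h'.2 x hx]

theorem IsLift.mem_AA (he : IsOpenEmbedding e) {k : ℂ ≃ₜ ℂ} {K : M ≃ₜ M} (h : IsLift e k K)
    {Ω : Set ℂ} (hk : k ∈ AA Ω) : K ∈ AA (e '' Ω) := by
  obtain ⟨C, hC, hCΩ, hk⟩ := hk
  refine ⟨e '' C, hC.image he.continuous, image_mono hCΩ, fun x hx => ?_⟩
  by_cases hx' : x ∈ range e
  · obtain ⟨z, rfl⟩ := hx'
    rw [h.1, hk z fun hz => hx (mem_image_of_mem _ hz)]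
  · exact h.2 x hx'

theorem ext_contAt_range {T : Type*} [TopologicalSpace T] (he : IsOpenEmbedding e)
    {F : T → ℂ → ℂ} (hF : Continuous fun p : T × ℂ => F p.1 p.2) (t : T) (z : ℂ) :
    ContinuousAt (fun p : T × M => Function.extend e (e ∘ F p.1) id p.2) (t, e z) := by
  have h := (IsOpenEmbedding.id (X := T)).prodMap he
  have : (t, e z) = Prod.map id e (t, z) := rfl
  rw [this, ← h.continuousAt_iff]
  have : (fun p : T × M => Function.extend e (e ∘ F p.1) id p.2) ∘ Prod.map id e =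
      fun p : T × ℂ => e (F p.1 p.2) := by
    ext p; simp [he.injective.extend_apply]
  rw [this]
  exact (he.continuous.comp hF).continuousAt

theorem ext_cont_of_supp [T2Space M] {T : Type*} [TopologicalSpace T] (he : IsOpenEmbedding e)
    {F : T → ℂ → ℂ} (hF : Continuous fun p : T × ℂ => F p.1 p.2) {C : Set ℂ} (hC : IsCompact C)
    (hs : ∀ t, ∀ z ∉ C, F t z = z) :
    Continuous fun p : T × M => Function.extend e (e ∘ F p.1) id p.2 := by
  rw [continuous_iff_continuousAt]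
  rintro ⟨t, x⟩
  by_cases hx : x ∈ range e
  · obtain ⟨z, rfl⟩ := hx; exact ext_contAt_range he hF t z
  · have hx' : x ∈ (e '' C)ᶜ := fun h => hx (image_subset_range _ _ h)
    refine continuousAt_snd.congr ?_
    filter_upwards [continuousAt_snd.preimage_mem_nhds
      ((hC.image he.continuous).isClosed.isOpen_compl.mem_nhds hx')] with p hp
    by_cases hp' : p.2 ∈ range e
    · obtain ⟨z, hz⟩ := hp'
      rw [← hz, he.injective.extend_apply, Function.comp_apply, hs _ z]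
      exact fun h => hp ⟨z, h, hz⟩
    · rw [Function.extend_apply' _ _ _ hp']; rfl

theorem ext_cont_of_point [CompactSpace M] [T2Space M] {T : Type*} [TopologicalSpace T]
    (he : IsOpenEmbedding e) {y : M} (hy : range e = {y}ᶜ)
    {F G : T → ℂ → ℂ} (hF : Continuous fun p : T × ℂ => F p.1 p.2)
    (hG : Continuous fun p : T × ℂ => G p.1 p.2) (hGF : ∀ t z, G t (F t z) = z) :
    Continuous fun p : T × M => Function.extend e (e ∘ F p.1) id p.2 := by
  rw [continuous_iff_continuousAt]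
  rintro ⟨t, x⟩
  by_cases hx : x ∈ range e
  · obtain ⟨z, rfl⟩ := hx; exact ext_contAt_range he hF t z
  have hxy : x = y := by rw [hy] at hx; simpa using hx
  subst hxy
  rw [ContinuousAt, Function.extend_apply' _ _ _ hx, _root_.tendsto_nhds]
  intro U hU hxU
  have hC : IsCompact (e ⁻¹' Uᶜ) := by
    refine he.isInducing.isCompact_preimage' hU.isClosed_compl.isCompact ?_
    rw [hy]; intro w hw h; rw [mem_singleton_iff] at h; exact hw (h ▸ hxU)
  obtain ⟨R, hR⟩ := (hC.image (hG.comp (Continuous.prodMk_right t))).isBounded.subset_ball 0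
  have h1 : ∀ᶠ s in 𝓝 t, ∀ w ∈ e ⁻¹' Uᶜ, G s w ∈ ball 0 R :=
    hC.eventually_forall_of_forall_eventually fun w hw =>
      hG.continuousAt.preimage_mem_nhds (isOpen_ball.mem_nhds (hR ⟨w, hw, rfl⟩))
  have h2 : U ∩ (e '' closedBall 0 R)ᶜ ∈ 𝓝 x := by
    refine inter_mem (hU.mem_nhds hxU) (((isCompact_closedBall _ _).image
      he.continuous).isClosed.isOpen_compl.mem_nhds fun h => hx (image_subset_range _ _ h))
  filter_upwards [prod_mem_nhds h1 h2] with p hp
  by_cases hp' : p.2 ∈ range e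
  · obtain ⟨z, hz⟩ := hp'
    rw [mem_preimage, ← hz, he.injective.extend_apply, Function.comp_apply]
    by_contra hc
    have := hp.1 _ hc
    rw [hGF] at this
    exact hp.2.2 ⟨z, ball_subset_closedBall this, hz⟩
  · rw [mem_preimage, Function.extend_apply' _ _ _ hp']; exact hp.2.1

omit [TopologicalSpace M] in
theorem ext_left_inv (he : Function.Injective e) (k : ℂ ≃ₜ ℂ) (x : M) :
    Function.extend e (e ∘ k.symm) id (Function.extend e (e ∘ k) id x) = x := by
  by_cases hx : x ∈ range e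
  · obtain ⟨z, rfl⟩ := hx; simp [he.extend_apply]
  · rw [Function.extend_apply' _ _ _ hx, id, Function.extend_apply' _ _ _ hx, id]

theorem exists_lift_family {T : Type*} [TopologicalSpace T] (he : IsOpenEmbedding e)
    (k : T → ℂ ≃ₜ ℂ) (h1 : Continuous fun p : T × M => Function.extend e (e ∘ k p.1) id p.2)
    (h2 : ∀ t, Continuous (Function.extend e (e ∘ (k t).symm) id)) :
    ∃ K : T → M ≃ₜ M, Continuous K ∧ ∀ t, IsLift e (k t) (K t) :=
  ⟨fun t => ⟨⟨Function.extend e (e ∘ k t) id, Function.extend e (e ∘ (k t).symm) id,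
      ext_left_inv he.injective _, ext_left_inv he.injective (k t).symm⟩,
      h1.comp (Continuous.prodMk_right t), h2 t⟩, continuous_hm h1,
    fun _ => ⟨fun _ => he.injective.extend_apply _ _ _, fun _ hx => Function.extend_apply' _ _ _ hx⟩⟩

theorem exists_lift_supp [T2Space M] {T : Type*} [TopologicalSpace T] (he : IsOpenEmbedding e)
    (k : T → ℂ ≃ₜ ℂ) (hk : Continuous fun p : T × ℂ => k p.1 p.2) {C : Set ℂ}
    (hC : IsCompact C) (hs : ∀ t, ∀ z ∉ C, k t z = z) :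
    ∃ K : T → M ≃ₜ M, Continuous K ∧ ∀ t, IsLift e (k t) (K t) := by
  refine exists_lift_family he k (ext_cont_of_supp he hk hC hs) fun t => ?_
  exact (ext_cont_of_supp (T := Unit) (F := fun _ => (k t).symm) he
    ((k t).symm.continuous.comp continuous_snd) hC fun _ z hz => by
      rw [Homeomorph.symm_apply_eq, hs t z hz]).comp (Continuous.prodMk_right ())

theorem exists_lift_point [CompactSpace M] [T2Space M] {T : Type*} [TopologicalSpace T]
    (he : IsOpenEmbedding e) {y : M} (hy : range e = {y}ᶜ)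
    (k : T → ℂ ≃ₜ ℂ) (hk : Continuous fun p : T × ℂ => k p.1 p.2)
    (hk' : Continuous fun p : T × ℂ => (k p.1).symm p.2) :
    ∃ K : T → M ≃ₜ M, Continuous K ∧ ∀ t, IsLift e (k t) (K t) := by
  refine exists_lift_family he k (ext_cont_of_point (F := fun t => k t)
    (G := fun t => (k t).symm) he hy hk hk' fun t z => by simp) fun t => ?_
  exact (ext_cont_of_point (T := Unit) (F := fun _ => (k t).symm) (G := fun _ => k t) he hy
    ((k t).symm.continuous.comp continuous_snd) ((k t).continuous.comp continuous_snd)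
    fun _ z => by simp).comp (Continuous.prodMk_right ())

theorem exists_lift [T2Space M] (he : IsOpenEmbedding e) {k : ℂ ≃ₜ ℂ} {Ω : Set ℂ}
    (hk : k ∈ AA Ω) : ∃ K : M ≃ₜ M, IsLift e k K ∧ K ∈ AA (e '' Ω) := by
  obtain ⟨C, hC, hCΩ, hs⟩ := hk
  obtain ⟨K, -, hK⟩ := exists_lift_supp (T := Unit) he (fun _ => k)
    (k.continuous.comp continuous_snd) hC fun _ => hs
  exact ⟨K (), hK (), (hK ()).mem_AA he ⟨C, hC, hCΩ, hs⟩⟩

end lift

section bump

theorem exists_homeo_of_lip {φ : ℂ → ℂ} {c : NNReal} (hφ : LipschitzWith c φ) (hc : c < 1) :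
    ∃ k : ℂ ≃ₜ ℂ, ∀ z, k z = z + φ z := by
  have h : ApproximatesLinearOn (fun z => z + φ z)
      ((ContinuousLinearEquiv.refl ℝ ℂ : ℂ ≃L[ℝ] ℂ) : ℂ →L[ℝ] ℂ) univ c := by
    rw [ApproximatesLinearOn.approximatesLinearOn_iff_lipschitzOnWith]
    convert hφ.lipschitzOnWith using 1
    ext z; simp
  refine ⟨h.toHomeomorph _ (Or.inr ?_), fun z => rfl⟩
  have : ‖((ContinuousLinearEquiv.refl ℝ ℂ).symm : ℂ →L[ℝ] ℂ)‖₊ = 1 := by
    simp
  rw [this]; simpa using hc

/-- A Lipschitz cut-off function. -/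
theorem exists_bump {C Ω : Set ℂ} (hC : IsCompact C) (hΩ : IsOpen Ω) (h : C ⊆ Ω) :
    ∃ β : ℂ → ℝ, ContDiff ℝ 1 β ∧ (∀ᶠ z in 𝓝ˢ C, β z = 1) ∧
      ∃ K, IsCompact K ∧ K ⊆ Ω ∧ ∀ z ∉ K, β z = 0 := by
  obtain ⟨K, hK, hCK, hKΩ⟩ := exists_compact_between hC hΩ h
  obtain ⟨f, hf0, hf1, -⟩ := exists_contMDiffMap_zero_one_nhds_of_isClosed (n := 1)
    (modelWithCornersSelf ℝ ℂ) (s := (interior K)ᶜ) (t := C) isOpen_interior.isClosed_compl
    hC.isClosed (disjoint_compl_left_iff_subset.2 hCK)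
  refine ⟨f, f.contMDiff.contDiff, hf1, K, hK, hKΩ, fun z hz => ?_⟩
  exact hf0.self_of_nhdsSet z fun h => hz (interior_subset h)

theorem exists_perturb {ψ : ℂ → ℂ} (hψ : ContDiff ℝ 1 ψ) {K : Set ℂ} (hK : IsCompact K)
    (h0 : ∀ z ∉ K, ψ z = 0) : ∃ r > 0, ∀ v : ℂ, ‖v‖ < r →
      ∃ k : ℂ ≃ₜ ℂ, ∀ z, k z = z + v * ψ z := by
  obtain ⟨c, hc⟩ := ContDiff.lipschitzWith_of_hasCompactSupport
    (HasCompactSupport.intro hK h0) hψ (by simp)
  refine ⟨1 / (c + 1), by positivity, fun v hv => ?_⟩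
  refine exists_homeo_of_lip (c := ‖v‖₊ * c) ?_ ?_
  · refine LipschitzWith.of_dist_le_mul fun a b => ?_
    rw [dist_eq_norm, ← mul_sub, norm_mul, ← dist_eq_norm]
    push_cast
    rw [mul_assoc]
    exact mul_le_mul_of_nonneg_left (hc.dist_le_mul a b) (norm_nonneg _)
  · rw [← NNReal.coe_lt_coe]
    push_cast
    rw [lt_div_iff₀ (by positivity)] at hv
    nlinarith [norm_nonneg v]

end bump

end Pool.Agent.Lib.MP_069d55_gt.K
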