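import Pool.Agent.Lib.MP_069d55_gt.KEnds

/-! Without flux, the pointwise stabiliser of the finite orbits is generated by homeomorphisms
with dead support and homeomorphisms preserving a fine partition. -/

open Set Topology Filter

namespace Pool.Agent.Lib.MP_069d55_gt.K

variable {X : Type*} [TopologicalSpace X]

theorem clopen_eventually_iff {A : Set X} (hA : IsClopen A) (x : X) :
    ∀ᶠ y in 𝓝 x, (y ∈ A ↔ x ∈ A) := by
  by_cases hx : x ∈ A
  · filter_upwards [hA.2.mem_nhds hx] with y hy using iff_of_true hy hx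
  · filter_upwards [hA.compl.2.mem_nhds hx] with y hy using iff_of_false hy hx

theorem locConst_piecewise {B : Set X} [DecidablePred (· ∈ B)] (hB : IsClopen B) {l m : X → X}
    (hl : IsLocallyConstant l) (hm : IsLocallyConstant m) :
    IsLocallyConstant (B.piecewise l m) := by
  rw [IsLocallyConstant.iff_eventually_eq] at *
  intro x
  filter_upwards [clopen_eventually_iff hB x, hl x, hm x] with y h1 h2 h3
  by_cases hx : x ∈ B
  · rw [piecewise_eq_of_mem _ _ _ hx, piecewise_eq_of_mem _ _ _ (h1.2 hx), h2]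
  · rw [piecewise_eq_of_notMem _ _ _ hx, piecewise_eq_of_notMem _ _ _ (mt h1.1 hx), h3]

/-- Labellings that differ by an element of `U`. -/
def Eqv (U : Subgroup (X ≃ₜ X)) (l m : X → X) : Prop := ∃ u ∈ U, ∀ x, m (u x) = l x

theorem Eqv.refl (U : Subgroup (X ≃ₜ X)) (l : X → X) : Eqv U l l := ⟨1, one_mem _, fun _ => rfl⟩

theorem Eqv.trans {U : Subgroup (X ≃ₜ X)} {l m n : X → X} (h : Eqv U l m) (h' : Eqv U m n) :
    Eqv U l n :=
  let ⟨u, h1, h2⟩ := h
  let ⟨v, h3, h4⟩ := h'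
  ⟨v * u, mul_mem h3 h1, fun x => (h4 _).trans (h2 x)⟩

variable [CompactSpace X] [T2Space X] [TotallyDisconnectedSpace X]

theorem exists_labelling (C : X → Set X) (hC : ∀ x, C x ∈ 𝓝 x) :
    ∃ l : X → X, IsLocallyConstant l ∧ (∀ x, l (l x) = l x) ∧ ∀ x, x ∈ C (l x) := by
  classical
  choose V h1 h2 h3 using fun x => exists_clopen_nhds (hC x)
  obtain ⟨s, -, hs⟩ := isCompact_univ.elim_nhds_subcover V fun x _ => (h1 x).2.mem_nhds (h2 x)
  choose B b1 b2 b3 using fun x => exists_clopen_nhds (inter_mem ((h1 x).2.mem_nhds (h2 x))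
    ((s.finite_toSet.subset (sdiff_subset (t := {x}))).isClosed.isOpen_compl.mem_nhds
      fun h => h.2 rfl))
  let S : X → Set X := fun x =>
    {z | z ∈ s ∧ x ∈ V z ∧ ((∃ y ∈ s, x ∈ B y) → x ∈ B z)}
  have hS : ∀ x, (S x).Nonempty := fun x => by
    by_cases h : ∃ y ∈ s, x ∈ B y
    · obtain ⟨y, hy, h⟩ := h
      exact ⟨y, hy, (b3 y h).1, fun _ => h⟩
    · obtain ⟨y, hy, h'⟩ := mem_iUnion₂.1 (hs (mem_univ x))
      exact ⟨y, hy, h', fun h' => (h h').elim⟩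
  have hl := fun x => (hS x).some_mem
  refine ⟨fun x => (hS x).some, (IsLocallyConstant.iff_eventually_eq _).2 fun x => ?_,
    fun x => ?_, fun x => h3 _ (hl x).2.1⟩
  · filter_upwards [(eventually_all_finite s.finite_toSet).2 fun z _ =>
      (clopen_eventually_iff (h1 z) x).and (clopen_eventually_iff (b1 z) x)] with y hy
    have : S y = S x := Set.ext fun z => and_congr_right fun hz => and_congr (hy z hz).1
      (imp_congr (exists_congr fun w => and_congr_right fun hw => (hy w hw).2) (hy z hz).2)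
    simp only [this]
  · by_contra h
    exact (b3 _ ((hl _).2.2 ⟨_, (hl x).1, b2 _⟩)).2 ⟨(hl x).1, Ne.symm h⟩

theorem exists_swap_point (hs : Stable X) {U : Subgroup (X ≃ₜ X)}
    (hU : ∀ W, Dead W → ∀ φ : X ≃ₜ X, (∀ x ∉ W, φ x = x) → φ ∈ U) {x x' : X} (hx : x' ∈ orb x)
    (hne : x ≠ x') (hi : (orb x).Infinite) {Φ : Set X} (hΦ : Φ.Finite) (h1 : x ∉ Φ)
    (h2 : x' ∉ Φ) : ∃ u ∈ U, u x = x' ∧ ∀ y ∈ Φ, u y = y := by
  obtain ⟨w, hw, hw'⟩ := exists_derived_notMem hi (toFinite {x, x'}) (by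
    rintro _ (rfl | rfl); exacts [hi, orb_eq hx ▸ hi])
  rw [mem_insert_iff, mem_singleton_iff, not_or] at hw'
  obtain ⟨φ, rfl⟩ := hx
  obtain ⟨A, hA⟩ := hs.stN x
  obtain ⟨O, O', hO, hO', hxO, hxO', hd⟩ := t2_separation hne
  have hc := (hΦ.insert w).isClosed.isOpen_compl
  obtain ⟨T, t1, t2, t3⟩ := exists_clopen_nhds (inter_mem (inter_mem (hA.1.2.mem_nhds hA.2.1)
    ((hO.inter hc).mem_nhds ⟨hxO, fun h => h.elim (Ne.symm hw'.1) h1⟩))
    (φ.continuous.continuousAt ((hO'.inter hc).mem_nhds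
      ⟨hxO', fun h => h.elim (Ne.symm hw'.2) h2⟩)))
  have hT' : IsClopen (φ '' T) := ⟨φ.isClosedMap _ t1.1, φ.isOpenMap _ t1.2⟩
  have hdT : Disjoint T (φ '' T) := hd.mono (fun y hy => (t3 hy).1.2.1)
    (by rintro _ ⟨y, hy, rfl⟩; exact (t3 hy).2.1)
  have hn : ∀ y ∈ insert w Φ, y ∉ T ∪ φ '' T := by
    rintro y hy (h | ⟨y, h, rfl⟩)
    exacts [(t3 h).1.2.2 hy, (t3 h).2.2 hy]
  obtain ⟨u, u1, u2⟩ := exists_swap t1 hT' hdT φ.continuous.continuousOn
    φ.injective.injOn.bijOn_image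
  have ha : Abs T w := (hA.abs_of_derived hw).mono hA.1 t1 fun y hy => (t3 hy).1.1
  exact ⟨u, hU _ ⟨t1.union hT', w, hn w (mem_insert _ _), ha.union
    (ha.of_cp ((Cp.image T φ).symm t1.1)) t1.2 hT'.2 hdT⟩ u u2, u1 x t2,
    fun y hy => u2 y (hn y (mem_insert_of_mem _ hy))⟩

theorem exists_fix_points (hs : Stable X) {U : Subgroup (X ≃ₜ X)}
    (hU : ∀ W, Dead W → ∀ φ : X ≃ₜ X, (∀ x ∉ W, φ x = x) → φ ∈ U) {φ : X ≃ₜ X}
    (hφ : ∀ y ∈ finOrb X, φ y = y) {t : Set X} (ht : t.Finite) :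
    ∃ u ∈ U, ∀ y ∈ finOrb X ∪ t, u (φ y) = y := by
  induction t, ht using Set.Finite.induction_on with
  | empty => exact ⟨1, one_mem _, by simpa using hφ⟩
  | @insert a t _ ht ih =>
    obtain ⟨u, hu, h⟩ := ih
    by_cases ha : u (φ a) = a
    · refine ⟨u, hu, ?_⟩
      rintro y (hy | rfl | hy)
      exacts [h y (Or.inl hy), ha, h y (Or.inr hy)]
    have h1 : a ∉ finOrb X ∪ t := fun h' => ha (h a h')
    have h2 : a ∈ orb (u (φ a)) := ⟨(u * φ)⁻¹, by simp⟩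
    obtain ⟨v, hv, h3, h4⟩ := exists_swap_point hs hU h2 ha
      (by rw [← orb_eq h2]; exact fun h => h1 (Or.inl h)) (hs.finite_finOrb.union ht)
      (fun h' => ha ((u * φ).injective (h _ h'))) h1
    refine ⟨v * u, mul_mem hv hu, ?_⟩
    rintro y (hy | rfl | hy)
    exacts [(congrArg v (h y (Or.inl hy))).trans (h4 y (Or.inl hy)), h3,
      (congrArg v (h y (Or.inr hy))).trans (h4 y (Or.inr hy))]

variable [FirstCountableTopology X]

theorem eqv_transfer (hs : Stable X) {U : Subgroup (X ≃ₜ X)}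
    (hU : ∀ W, Dead W → ∀ φ : X ≃ₜ X, (∀ x ∉ W, φ x = x) → φ ∈ U) {l : X → X}
    (hl : IsLocallyConstant l) {T : Set X} [DecidablePred (· ∈ T)] (hT : IsClopen T) {z z' w : X}
    (hz : z' ∈ orb z) (hw : w ∈ derivedSet (orb z)) (h1 : z ∉ T) (h2 : z' ∉ T) (h3 : w ∉ T)
    (h4 : w ≠ z) (h5 : w ≠ z') (hne : z ≠ z') (ha : Abs T z) (ha' : Abs T z')
    (hlT : ∀ y ∈ T, l y = l z) : Eqv U l (T.piecewise (fun _ => l z') l) := by
  obtain ⟨A, hA⟩ := hs.stN z
  obtain ⟨A', hA'⟩ := hs.stN z'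
  obtain ⟨O, O', hO, hO', hxO, hxO', hd⟩ := t2_separation hne
  have hc := hT.compl.2.sdiff (isClosed_singleton (x := w))
  obtain ⟨R, r1, r2, r3⟩ := exists_clopen_nhds (inter_mem (inter_mem (hA.1.2.mem_nhds hA.2.1)
    ((hO.inter hc).mem_nhds ⟨hxO, h1, h4.symm⟩)) (hl.eventually_eq z))
  obtain ⟨R', s1, s2, s3⟩ := exists_clopen_nhds (inter_mem (inter_mem (hA'.1.2.mem_nhds hA'.2.1)
    ((hO'.inter hc).mem_nhds ⟨hxO', h2, h5.symm⟩)) (hl.eventually_eq z'))
  have d1 : Disjoint R T := Set.disjoint_left.2 fun y hy => (r3 hy).1.2.2.1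
  have d2 : Disjoint R' T := Set.disjoint_left.2 fun y hy => (s3 hy).1.2.2.1
  have d3 : Disjoint R R' := hd.mono (fun y hy => (r3 hy).1.2.1) fun y hy => (s3 hy).1.2.1
  obtain ⟨u, u1, u2, u3, -⟩ := exists_transfer r1 s1 hT r2 s2 d1 d2 d3 ha ha'
  have a1 : Abs R w := (hA.abs_of_derived hw).mono hA.1 r1 fun y hy => (r3 hy).1.1
  have a2 : Abs R' w := (hA'.abs_of_derived (orb_eq hz ▸ hw)).mono hA'.1 s1
    fun y hy => (s3 hy).1.1
  refine ⟨u, hU _ ⟨(r1.union hT).union s1, w, ?_, (a1.union (ha.trans r1 r2 a1) r1.2 hT.2 d1).union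
    a2 (r1.union hT).2 s1.2 (disjoint_union_left.2 ⟨d3, d2.symm⟩)⟩ u u1, fun x => ?_⟩
  · rintro ((h | h) | h)
    exacts [(r3 h).1.2.2.2 rfl, h3 h, (s3 h).1.2.2.2 rfl]
  by_cases hx : x ∈ R ∪ T
  · have := u2.mapsTo hx
    rw [piecewise_eq_of_notMem _ _ _ (Set.disjoint_left.1 d1 this), (r3 this).2]
    exact (hx.elim (fun h => (r3 h).2) (hlT x)).symm
  by_cases hx' : x ∈ R'
  · rw [(s3 hx').2]
    rcases u3.mapsTo hx' with h | h
    · rw [piecewise_eq_of_notMem _ _ _ (Set.disjoint_left.1 d2 h), (s3 h).2]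
    · rw [piecewise_eq_of_mem _ _ _ h]
  · rw [u1 x fun h => h.elim hx hx', piecewise_eq_of_notMem _ _ _ fun h => hx (Or.inr h)]

open Classical in
theorem eqv_local (hs : Stable X) (hF : ¬ Flux X) {U : Subgroup (X ≃ₜ X)}
    (hU : ∀ W, Dead W → ∀ φ : X ≃ₜ X, (∀ x ∉ W, φ x = x) → φ ∈ U) {l0 l1 : X → X}
    (h0 : IsLocallyConstant l0) (h1 : IsLocallyConstant l1) {x : X} (hx : l0 x ≠ l1 x)
    (e0 : l0 (l0 x) = l0 x) (e0' : l1 (l0 x) = l0 x) (e1 : l0 (l1 x) = l1 x)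
    (e1' : l1 (l1 x) = l1 x) (d0 : l0 x ∈ derivedSet (orb x)) (d1 : l1 x ∈ derivedSet (orb x)) :
    ∃ N ∈ 𝓝 x, ∀ T ⊆ N, IsClopen T → ∀ l, IsLocallyConstant l → (∀ y, l0 y = l1 y → l y = l0 y) →
      (∀ y ∈ T, l y = l1 x) → Eqv U l (T.piecewise (fun _ => l0 x) l) := by
  have hi := infinite_of_mem_derived d0
  obtain ⟨A, hA⟩ := hs.stN x
  have hab : ∀ T ⊆ A, IsClopen T → ∀ z ∈ derivedSet (orb x), Abs T z := fun T h h' z hz =>
    (hA.abs_of_derived hz).mono hA.1 h' h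
  by_cases hd : Disjoint (orb x) (derivedSet (orb x))
  · refine ⟨A ∩ (derivedSet (orb x))ᶜ, inter_mem (hA.1.2.mem_nhds hA.2.1)
      ((isClosed_derivedSet _).isOpen_compl.mem_nhds (Set.disjoint_left.1 hd (mem_orb_self x))),
      fun T hT hTc l hl e hlT => ?_⟩
    have nT : ∀ z ∈ derivedSet (orb x), z ∉ T := fun z hz h => (hT h).2 hz
    let S := {c | Eqv U l (T.piecewise (fun _ => c) l)}
    have hS : l1 x ∈ S := by
      have : T.piecewise (fun _ => l1 x) l = l := by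
        ext y; by_cases hy : y ∈ T <;> simp [hy, hlT y]
      change Eqv U l _
      rw [this]; exact Eqv.refl U l
    by_contra hc
    refine hF ⟨x, hi, hd, l ⁻¹' S, ⟨⟨hl Sᶜ⟩, hl S⟩, ⟨l1 x, d1, ?_⟩, ⟨l0 x, d0, ?_⟩, ?_⟩
    · rwa [mem_preimage, e _ (e1.trans e1'.symm), e1]
    · rwa [mem_preimage, e _ (e0.trans e0'.symm), e0]
    rintro z hz ⟨⟨a, ha, ha1, ha2⟩, ⟨b, hb, hb1, hb2⟩⟩
    rw [← orb_eq ha] at hz hb
    obtain ⟨w, hw, hw'⟩ := exists_derived_notMem hz (toFinite {a, b}) (by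
      rintro _ (rfl | rfl); exacts [hz, orb_eq hb ▸ hz])
    rw [mem_insert_iff, mem_singleton_iff, not_or] at hw'
    have := eqv_transfer hs hU (locConst_piecewise hTc (IsLocallyConstant.const (l a)) hl) hTc hb hw
      (nT a ha1) (nT b hb1) (nT w ((isClosed_derivedSet _).closure_subset_iff.2
        (orb_subset_derived ha1) (derivedSet_subset_closure _ hw))) hw'.1 hw'.2
      (fun h => hb2 (h ▸ ha2)) (hab T (hT.trans inter_subset_left) hTc a ha1)
      (hab T (hT.trans inter_subset_left) hTc b hb1) fun y hy => by simp [hy, nT a ha1]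
    refine hb2 (Eqv.trans ha2 ?_)
    convert this using 1
    all_goals funext y; by_cases hy : y ∈ T <;> simp [hy, nT b hb1]
  · obtain ⟨z, ⟨⟨z0, z1⟩, hz⟩, -⟩ := accPt_iff_nhds.1 d1 _
      (inter_mem (h0.eventually_eq (l1 x)) (h1.eventually_eq (l1 x)))
    obtain ⟨z', ⟨⟨z0', z1'⟩, hz'⟩, -⟩ := accPt_iff_nhds.1 d0 _
      (inter_mem (h0.eventually_eq (l0 x)) (h1.eventually_eq (l0 x)))
    rw [mem_ofPred, e1] at z0
    rw [mem_ofPred, e1'] at z1
    rw [mem_ofPred, e0] at z0'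
    rw [mem_ofPred, e0'] at z1'
    obtain ⟨v, hv, hv'⟩ := Set.not_disjoint_iff.1 hd
    have hsub : orb x ⊆ derivedSet (orb x) := (orb_eq hv).symm.subset.trans (orb_subset_derived hv')
    obtain ⟨w, hw, hw'⟩ := exists_derived_notMem hi (toFinite {z, z', x}) (by
      rintro _ (rfl | rfl | rfl); exacts [orb_eq hz ▸ hi, orb_eq hz' ▸ hi, hi])
    simp only [mem_insert_iff, mem_singleton_iff, not_or] at hw'
    refine ⟨A ∩ {w}ᶜ ∩ ({y | l0 y = l0 x} ∩ {y | l1 y = l1 x}), inter_mem (inter_mem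
      (hA.1.2.mem_nhds hA.2.1) (isOpen_compl_singleton.mem_nhds (Ne.symm hw'.2.2)))
      (inter_mem (h0.eventually_eq x) (h1.eventually_eq x)), fun T hT hTc l hl e hlT => ?_⟩
    have := eqv_transfer hs hU hl hTc (orb_eq hz ▸ hz') (orb_eq hz ▸ hw)
      (fun h => hx ((hT h).2.1.symm.trans z0)) (fun h => hx (z1'.symm.trans (hT h).2.2))
      (fun h => (hT h).1.2 rfl) hw'.1 hw'.2.1 (fun h => hx (z0'.symm.trans (h ▸ z0)))
      (hab T (fun y hy => (hT hy).1.1) hTc z (hsub hz))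
      (hab T (fun y hy => (hT hy).1.1) hTc z' (hsub hz'))
      fun y hy => by rw [hlT y hy, e z (z0.trans z1.symm), z0]
    rwa [e z' (z0'.trans z1'.symm), z0'] at this

theorem step_one (hs : Stable X) (hF : ¬ Flux X) {U : Subgroup (X ≃ₜ X)}
    (hU : ∀ W, Dead W → ∀ φ : X ≃ₜ X, (∀ x ∉ W, φ x = x) → φ ∈ U) {O : X → Set X}
    (hO : ∀ x, O x ∈ 𝓝 x) (hU' : ∀ l : X → X, IsLocallyConstant l → (∀ x, x ∈ O (l x)) →
      ∀ φ : X ≃ₜ X, (∀ x, l (φ x) = l x) → φ ∈ U) {φ : X ≃ₜ X} (hφ : ∀ y ∈ finOrb X, φ y = y) :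
    φ ∈ U := by
  classical
  choose A hA using hs.stN
  obtain ⟨l0, h0, e0, hm⟩ := exists_labelling (fun x => A x ∩ O x) fun x =>
    inter_mem ((hA x).1.2.mem_nhds (hA x).2.1) (hO x)
  obtain ⟨u, hu, hu'⟩ := exists_fix_points hs hU hφ h0.range_finite
  suffices u * φ ∈ U by simpa using mul_mem (inv_mem hu) this
  set ψ := u * φ
  have hψ : ∀ x, ψ.symm (l0 x) = l0 x := fun x => by
    rw [Homeomorph.symm_apply_eq]; exact (hu' _ (Or.inr ⟨x, rfl⟩)).symm
  let l1 : X → X := fun x => l0 (ψ.symm x)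
  have h1 : IsLocallyConstant l1 := h0.comp_continuous ψ.symm.continuous
  have e1 : ∀ x, l1 (l0 x) = l0 x := fun x => by simp only [l1, hψ, e0]
  have hd : ∀ x, x ≠ l0 x → l0 x ∈ derivedSet (orb x) := fun x hx =>
    (hA _).mem_derived (hm x).1 hx
  have key : ∀ x, l0 x ≠ l1 x → ∃ N, IsClopen N ∧ x ∈ N ∧ (∀ y ∈ N, l0 y = l0 x ∧ l1 y = l1 x) ∧
      ∀ T ⊆ N, IsClopen T → ∀ l, IsLocallyConstant l → (∀ y, l0 y = l1 y → l y = l0 y) →
      (∀ y ∈ T, l y = l1 x) → Eqv U l (T.piecewise (fun _ => l0 x) l) := fun x hx => by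
    obtain ⟨N, hN, h⟩ := eqv_local hs hF hU h0 h1 hx (e0 x) (e1 x) (e0 _) (e1 _)
      (hd x fun h => hx (by rw [h, e0, e1])) (by
        rw [← orb_eq (x := x) (y := ψ.symm x) ⟨ψ.symm, rfl⟩]
        refine hd _ fun h => hx ?_
        have : x = l0 (ψ.symm x) := ψ.symm.injective (by rw [hψ, ← h])
        rw [this, e0, e1])
    obtain ⟨N', n1, n2, n3⟩ := exists_clopen_nhds
      (inter_mem hN (inter_mem (h0.eventually_eq x) (h1.eventually_eq x)))
    exact ⟨N', n1, n2, fun y hy => (n3 hy).2, fun T hT => h T fun y hy => (n3 (hT hy)).1⟩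
  choose! N n1 n2 n3 n4 using key
  have hD : IsClosed {x | l0 x ≠ l1 x} := ⟨by
    simpa [compl_ofPred] using (h0.prodMk h1) {p | p.1 = p.2}⟩
  obtain ⟨t, ht, ht'⟩ := hD.isCompact.elim_nhds_subcover N fun x hx => (n1 x hx).2.mem_nhds (n2 x hx)
  have main : ∀ s : Finset X, (∀ x ∈ s, l0 x ≠ l1 x) →
      Eqv U l1 ((⋃ x ∈ s, N x).piecewise l0 l1) := by
    intro s
    induction s using Finset.induction_on with
    | empty => intro _; convert Eqv.refl U l1; funext y; exact piecewise_eq_of_notMem _ _ _ (by simp)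
    | @insert a s _ ih =>
      intro h
      have ha := h a (Finset.mem_insert_self _ _)
      have hB : IsClopen (⋃ x ∈ s, N x) := s.finite_toSet.isClopen_biUnion fun x hx =>
        n1 x (h x (Finset.mem_insert_of_mem hx))
      refine (ih fun x hx => h x (Finset.mem_insert_of_mem hx)).trans ?_
      convert n4 a ha (N a \ ⋃ x ∈ s, N x) sdiff_subset ((n1 a ha).diff hB) _
        (locConst_piecewise hB h0 h1) (fun y hy => ?_) fun y hy => ?_ using 1
      · ext y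
        rw [Finset.set_biUnion_insert]
        by_cases h1 : y ∈ ⋃ x ∈ s, N x
        · simp only [piecewise, mem_union, Set.mem_sdiff, h1]; simp
        by_cases h2 : y ∈ N a
        · simp only [piecewise, mem_union, Set.mem_sdiff, h1, h2]; simp [(n3 a ha y h2).1]
        · simp only [piecewise, mem_union, Set.mem_sdiff, h1, h2]; simp
      · by_cases h1 : y ∈ ⋃ x ∈ s, N x
        · rw [piecewise_eq_of_mem _ _ _ h1]
        · rw [piecewise_eq_of_notMem _ _ _ h1, hy]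
      · rw [piecewise_eq_of_notMem _ _ _ hy.2, (n3 a ha y hy.1).2]
  obtain ⟨v, hv, hv'⟩ := main t ht
  have : v * ψ ∈ U := hU' l0 h0 (fun x => (hm x).2) _ fun x => by
    have := hv' (ψ x)
    by_cases h : v (ψ x) ∈ ⋃ x ∈ t, N x
    · rw [piecewise_eq_of_mem _ _ _ h] at this; simpa [l1] using this
    · rw [piecewise_eq_of_notMem _ _ _ h, ← not_not.1 fun h' => h (ht' h')] at this
      simpa [l1] using this
  simpa using mul_mem (inv_mem hv) this

end Pool.Agent.Lib.MP_069d55_gt.K
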