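import Pool.Agent.Lib.MP_069d55_gt.KIso
import Pool.Agent.Lib.MP_069d55_gt.KStep1

/-! The abstract setting of the negative part: dead discs and the action on the ends. -/

open Set Topology Filter Metric

namespace Pool.Agent.Lib.MP_069d55_gt.K

variable {M : Type*} [MetricSpace M]

/-- Tame sets of ends. -/
structure TE (E : Set M) : Prop where
  closed : IsClosed E
  tame : Tame E
  td : IsTotallyDisconnected E
  ns : ∀ Z ⊆ E, IsClosed Z → ∀ Ω, IsOpen Ω → IsPreconnected Ω → IsPreconnected (Ω \ Z)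
  nd : ∀ U, IsOpen U → U.Nonempty → ∃ x ∈ U, x ∉ E

/-- `V` is a vertex stabiliser and `N` the kernel of an action on a locally finite graph. -/
structure Ctx (E : Set M) (V N : Subgroup (M ≃ₜ M)) : Prop extends TE E where
  V_le : V ≤ Stab E
  V_open : ∃ ε > 0, ∀ g ∈ Stab E, (∀ x, dist (g x) x < ε) → g ∈ V
  N_le : N ≤ V
  N_conj : ∀ g ∈ Stab E, (∃ x, ∀ᶠ y in 𝓝 x, g y = y) → ∀ n ∈ N, g * n * g⁻¹ ∈ N
  N_lim : ∀ h ∈ V, (∀ ε > 0, ∃ v ∈ V, ∀ x, dist ((v * h * v⁻¹) x) x < ε) → h ∈ N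

theorem mem_Stab_of_lift {E : Set M} {g : M ≃ₜ M} {φ : E ≃ₜ E} (h : ∀ x : E, g x = φ x) :
    g ∈ Stab E := fun x => ⟨fun hx => by
      have : (φ.symm ⟨_, hx⟩ : M) = x := g.injective ((h (φ.symm ⟨_, hx⟩)).trans (by simp))
      exact this ▸ (φ.symm ⟨_, hx⟩).2, fun hx => (h ⟨x, hx⟩).symm ▸ (φ ⟨x, hx⟩).2⟩

theorem near_of_sm {Q : Set M} {ε : ℝ} (hε : 0 < ε) (hQ : Sm ε Q) {g : M ≃ₜ M}
    (h : ∀ x ∉ Q, g x = x) (x : M) : dist (g x) x < ε := by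
  by_cases hx : x ∈ Q
  · exact hQ _ ((fix_mem_iff h x).2 hx) _ hx
  · simpa [h x hx]

theorem exists_sm_nhds [Charted M] {x : M} {U : Set M} (hU : U ∈ 𝓝 x) {ε : ℝ} (hε : 0 < ε) :
    ∃ Q, IsOpen Q ∧ x ∈ Q ∧ Q ⊆ U ∧ IsPreconnected Q ∧ Sm ε Q := by
  obtain ⟨Q, h1, h2, h3, h4⟩ := exists_conn_nhds (inter_mem hU (ball_mem_nhds x (half_pos hε)))
  exact ⟨Q, h1, h2, h3.trans inter_subset_left, h4, fun a ha b hb => by
    linarith [dist_triangle_right a b x, mem_ball.1 (h3 ha).2, mem_ball.1 (h3 hb).2]⟩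

variable [CompactSpace M] {E : Set M}

theorem TE.compactSpace (h : TE E) : CompactSpace E := isCompact_iff_compactSpace.1 h.closed.isCompact

omit [CompactSpace M] in
theorem TE.tdSpace (h : TE E) : TotallyDisconnectedSpace E :=
  totallyDisconnectedSpace_subtype_iff.2 h.td

theorem TE.isCompact_val (h : TE E) {W : Set E} (hW : IsClosed W) :
    IsCompact (Subtype.val '' W) :=
  (h.closed.isClosedMap_subtype_val _ hW).isCompact

theorem TE.region (h : TE E) {Ω : Set M} (hΩ : IsOpen Ω) (hc : IsPreconnected Ω) {W : Set E}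
    (hW : IsOpen W) : IsOpen (Ω \ Subtype.val '' Wᶜ) ∧ IsPreconnected (Ω \ Subtype.val '' Wᶜ) :=
  have := (h.isCompact_val hW.isClosed_compl).isClosed
  ⟨hΩ.sdiff this, h.ns _ (Subtype.coe_image_subset _ _) this _ hΩ hc⟩

variable [Charted M]

theorem TE.realize (h : TE E) {Ω : Set M} (hΩ : IsOpen Ω) (hc : IsPreconnected Ω) {A : Set E}
    (hA : IsClosed A) {f : E → E} (hf : ContinuousOn f A) (hi : InjOn f A) (a b : M ≃ₜ M)
    (ha : ∀ x ∈ A, a x ∈ Ω) (hb : ∀ x ∈ A, b (f x) ∈ Ω) :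
    ∃ k ∈ AA Ω, ∀ x ∈ A, k (a x) = b (f x) := by
  have hj : IsEmbedding (a ∘ (Subtype.val : E → M)) := a.isEmbedding.comp IsEmbedding.subtypeVal
  let F := Function.extend (a ∘ (Subtype.val : E → M)) (fun x => b (f x)) id
  have hF : ∀ x : E, F (a x) = b (f x) := fun x => hj.injective.extend_apply _ _ x
  obtain ⟨k, hk, hk'⟩ := extend_tame (C := (a ∘ (Subtype.val : E → M)) '' A) (f := F) hΩ hc
    (by rw [image_comp]; exact (h.isCompact_val hA).image a.continuous)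
    ((h.tame.image a).mono (by rintro _ ⟨x, -, rfl⟩; exact ⟨x, x.2, rfl⟩))
    (hj.isInducing.continuousOn_image_iff.2 (((b.continuous.comp
      continuous_subtype_val).comp_continuousOn hf).congr fun x _ => hF x))
    (by
      rintro _ ⟨x, hx, rfl⟩ _ ⟨y, hy, rfl⟩ hxy
      simp only [Function.comp_apply, hF] at hxy
      rw [hi hx hy (Subtype.ext (b.injective hxy))])
    ((h.tame.image b).mono (by
      rintro _ ⟨_, ⟨x, -, rfl⟩, rfl⟩; exact ⟨f x, (f x).2, (hF x).symm⟩))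
    (by rintro _ ⟨x, hx, rfl⟩; exact ha x hx)
    (by rintro _ ⟨_, ⟨x, hx, rfl⟩, rfl⟩; exact (hF x).symm ▸ hb x hx)
  exact ⟨k, hk, fun x hx => (hk' _ ⟨x, hx, rfl⟩).trans (hF x)⟩

theorem TE.realize_homeo (h : TE E) {Ω : Set M} (hΩ : IsOpen Ω) (hc : IsPreconnected Ω)
    {W : Set E} (hW : IsClopen W) (hWΩ : ∀ x ∈ W, (x : M) ∈ Ω) {φ : E ≃ₜ E}
    (hφ : ∀ x, φ x ∈ W ↔ x ∈ W) : ∃ k ∈ AA Ω, k ∈ Stab E ∧ (∀ x ∈ W, k x = φ x) ∧
      ∀ x : E, x ∉ W → k x = x := by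
  have := h.compactSpace
  obtain ⟨h1, h2⟩ := h.region hΩ hc hW.2
  have : ∀ x ∈ W, (x : M) ∈ Ω \ Subtype.val '' Wᶜ := fun x hx =>
    ⟨hWΩ x hx, fun h => Subtype.val_injective.mem_set_image.1 h hx⟩
  obtain ⟨k, hk, hk'⟩ := h.realize h1 h2 hW.1 φ.continuous.continuousOn φ.injective.injOn 1 1
    this fun x hx => this _ ((hφ x).2 hx)
  have h3 : ∀ x : E, x ∉ W → k x = x := fun x hx => AA_fix hk fun h => h.2 ⟨x, hx, rfl⟩
  obtain ⟨u, u1, u2⟩ := exists_homeo_on hW φ.continuous.continuousOn ⟨fun x hx => (hφ x).2 hx,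
    φ.injective.injOn, fun x hx => ⟨φ.symm x, (hφ _).1 (by simpa using hx), by simp⟩⟩
  refine ⟨k, AA_mono sdiff_subset hk, mem_Stab_of_lift (φ := u) fun x => ?_, hk', h3⟩
  by_cases hx : x ∈ W
  · rw [u1 x hx]; exact hk' x hx
  · rw [u2 x hx, h3 x hx]

/-- `W` is the content of `D`. -/
def Cont (D : Set M) (W : Set E) : Prop :=
  (∀ x ∈ W, (x : M) ∈ interior D) ∧ ∀ x : E, (x : M) ∈ D → x ∈ W

theorem TE.exists_disc (h : TE E) {Ω : Set M} (hΩ : IsOpen Ω) (hc : IsPreconnected Ω)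
    (hne : Ω.Nonempty) {W : Set E} (hW : IsClopen W) (hWΩ : ∀ x ∈ W, (x : M) ∈ Ω) :
    ∃ D, IsDisc D ∧ D ⊆ Ω ∧ Cont D W := by
  obtain ⟨h1, h2⟩ := h.region hΩ hc hW.2
  obtain ⟨a, ha, ha'⟩ := h.nd Ω hΩ hne
  obtain ⟨D, d1, d2, d3⟩ := exists_disc_nhds (h1.mem_nhds ⟨ha, fun h =>
    ha' (Subtype.coe_image_subset _ _ h)⟩)
  obtain ⟨k, hk, hk'⟩ := gather_one h1 h2 (h.isCompact_val hW.1)
    (h.tame.mono (Subtype.coe_image_subset _ _)) (by
      rintro _ ⟨x, hx, rfl⟩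
      exact ⟨hWΩ x hx, fun h => Subtype.val_injective.mem_set_image.1 h hx⟩)
    isOpen_interior ⟨a, d2⟩ (interior_subset.trans d3)
  have : k.symm '' D ⊆ Ω \ Subtype.val '' Wᶜ := by
    rintro _ ⟨x, hx, rfl⟩; exact (AA_mem_iff (inv_mem hk) x).2 (d3 hx)
  refine ⟨k.symm '' D, d1.image _, this.trans sdiff_subset, fun x hx => ?_, fun x hx => ?_⟩
  · rw [← k.symm.image_interior]
    exact ⟨k x, hk' (mem_image_of_mem _ hx), by simp⟩
  · by_contra hx'; exact (this hx).2 ⟨x, hx', rfl⟩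

theorem TE.move_disc (h : TE E) {Ω D Q : Set M} (hΩ : IsOpen Ω) (hc : IsPreconnected Ω)
    (hD : IsDisc D) (hDΩ : D ⊆ Ω) {W W' : Set E} (hW : IsClopen W) (hW' : IsClopen W')
    (hDW : Cont D W) (hd : Disjoint W W') (hcp : Cp W W') (hQ : IsOpen Q) (hQc : IsPreconnected Q)
    (hQn : Q.Nonempty) (hQΩ : Q ⊆ Ω) (hWQ : ∀ x ∈ W', (x : M) ∈ Q) :
    ∃ g ∈ AA Ω, g ∈ Stab E ∧ g '' D ⊆ Q ∧ Cont (g '' D) W' := by
  have := h.compactSpace
  have := h.tdSpace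
  obtain ⟨f, hf, hf'⟩ := hcp
  obtain ⟨φ, φ1, φ2⟩ := exists_swap hW hW' hd hf hf'
  obtain ⟨D', d1, d2, d3⟩ := h.exists_disc hQ hQc hQn hW' hWQ
  obtain ⟨k1, hk1, hk1'⟩ := gather_discs hΩ hc (finite_singleton ()) (D := fun _ => D)
    (t := fun _ => interior D') (fun _ _ => hD) (pairwiseDisjoint_singleton _ _) (fun _ _ => hDΩ)
    (fun _ _ => isOpen_interior) (fun _ _ => d1.interior_nonempty)
    fun _ _ => interior_subset.trans (d2.trans hQΩ)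
  replace hk1' := hk1' () rfl
  obtain ⟨k2, hk2, hk2'⟩ := gather_one isOpen_interior d1.preconn_interior (h.isCompact_val hW'.1)
    (h.tame.mono (Subtype.coe_image_subset _ _)) (by rintro _ ⟨x, hx, rfl⟩; exact d3.1 x hx)
    (k1.isOpenMap _ isOpen_interior) (hD.interior_nonempty.image _)
    (by rintro _ ⟨x, hx, rfl⟩; exact hk1' (interior_subset hx))
  set κ := k2⁻¹ * k1 with hκ
  obtain ⟨K, hK, hKΩ, hκK⟩ : κ ∈ AA Ω :=
    mul_mem (inv_mem (AA_mono (interior_subset.trans (d2.trans hQΩ)) hk2)) hk1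
  have hΔ := hD.image κ
  have hΔ1 : κ '' D ⊆ D' := by
    rintro _ ⟨x, hx, rfl⟩; exact interior_subset ((AA_mem_iff (inv_mem hk2) _).2 (hk1' hx))
  have hΔ2 : Cont (κ '' D) W' := ⟨fun x hx => by
    obtain ⟨y, hy, hy'⟩ := hk2' (mem_image_of_mem _ hx)
    rw [← κ.image_interior]
    exact ⟨y, hy, by simp [hκ, hy']⟩, fun x hx => d3.2 x (hΔ1 hx)⟩
  have φW : ∀ x, φ x ∈ W' ↔ x ∈ W := fun x => ⟨fun hx => by
    obtain ⟨y, hy, hy'⟩ := hf'.surjOn hx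
    rwa [← φ.injective ((φ1 y hy).trans hy')], fun hx => φ1 x hx ▸ hf'.mapsTo hx⟩
  obtain ⟨ki, hki, hki'⟩ := h.realize isOpen_interior hΔ.preconn_interior hW.1
    φ.continuous.continuousOn φ.injective.injOn κ 1 (fun x hx => by
      rw [← κ.image_interior]; exact mem_image_of_mem _ (hDW.1 x hx))
    fun x hx => hΔ2.1 _ ((φW x).2 hx)
  obtain ⟨E1, e1, e2, e3⟩ := exists_clopen_between (K := Subtype.val ⁻¹' K ∪ (W ∪ W'))
    (U := (Subtype.val : E → M) ⁻¹' Ω) ((hK.isClosed.preimage continuous_subtype_val).union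
    (hW.union hW').1) (hΩ.preimage continuous_subtype_val) (union_subset (preimage_mono hKΩ)
    (union_subset (fun x hx => hDΩ (interior_subset (hDW.1 x hx))) fun x hx => hQΩ (hWQ x hx)))
  have hΔΩ := hΔ1.trans (d2.trans hQΩ)
  obtain ⟨o1, o2⟩ := h.region (hΩ.sdiff hΔ.isCompact.isClosed) (hΔ.preconn_diff hc hΩ hΔΩ) e1.2
  have φE : ∀ x ∉ E1, φ x = x := fun x hx => φ2 x fun h => hx (e2 (Or.inr h))
  have κE : ∀ x ∉ E1, κ x = x := fun x hx => hκK x fun h => hx (e2 (Or.inl h))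
  obtain ⟨ko, hko, hko'⟩ := h.realize o1 o2 (e1.diff hW).1 φ.continuous.continuousOn
    φ.injective.injOn κ 1 (fun x hx => ⟨⟨(AA_mem_iff ⟨K, hK, hKΩ, hκK⟩ _).2 (e3 hx.1), fun h =>
      hx.2 (hDW.2 x (κ.injective.mem_set_image.1 h))⟩, by
        rintro ⟨y, hy, hy'⟩
        exact hy (Subtype.ext (κ.injective ((κE y hy).trans hy')) ▸ hx.1)⟩)
    fun x hx => have := (fix_mem_iff φE x).2 hx.1
      ⟨⟨e3 this, fun h => hx.2 ((φW x).1 (hΔ2.2 _ h))⟩,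
        fun h => Subtype.val_injective.mem_set_image.1 h this⟩
  have hiΔ : ∀ x ∉ κ '' D, ki x = x := fun x hx => AA_fix hki fun h => hx (interior_subset h)
  have hoΔ : ∀ x ∈ κ '' D, ko x = x := fun x hx => AA_fix hko fun h => h.1.2 hx
  have him : (ko * ki * κ : M ≃ₜ M) '' D = κ '' D := by
    ext x
    obtain ⟨x, rfl⟩ := (ko * ki * κ).surjective x
    rw [(ko * ki * κ).injective.mem_set_image, ← κ.injective.mem_set_image,
      ← fix_mem_iff hiΔ, ← not_iff_not, ← mem_compl_iff, ← fix_mem_iff (Ω := (κ '' D)ᶜ) (k := ko)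
      fun y hy => hoΔ y (not_not.1 hy)]
    rfl
  refine ⟨ko * ki * κ, mul_mem (mul_mem (AA_mono (sdiff_subset.trans sdiff_subset) hko)
    (AA_mono (interior_subset.trans hΔΩ) hki)) ⟨K, hK, hKΩ, hκK⟩,
    mem_Stab_of_lift (φ := φ) fun x => ?_, him ▸ hΔ1.trans d2, him ▸ hΔ2⟩
  simp only [Homeomorph.mul_apply]
  by_cases hx : x ∈ W
  · rw [hki' x hx]; exact hoΔ _ (interior_subset (hΔ2.1 _ ((φW x).2 hx)))
  rw [hiΔ _ fun h => hx (hDW.2 x (κ.injective.mem_set_image.1 h))]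
  by_cases hx' : x ∈ E1
  · exact hko' x ⟨hx', hx⟩
  · rw [κE x hx', φE x hx']; exact AA_fix hko fun h => h.2 ⟨x, hx', rfl⟩

variable [PreconnectedSpace M] {V N : Subgroup (M ≃ₜ M)}

theorem Ctx.dead_disc (h : Ctx E V N) {D : Set M} (hD : IsDisc D) {W : Set E} (hW : Dead W)
    (hDW : Cont D W) {k : M ≃ₜ M} (hk : k ∈ Stab E) (hkD : ∀ x ∉ D, k x = x) : k ∈ N := by
  have := h.compactSpace
  obtain ⟨ε, hε, hV⟩ := h.V_open
  obtain ⟨hW, w, hw, hab⟩ := hW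
  have hwD : (w : M) ∉ D := fun h => hw (hDW.2 w h)
  have hDo := hD.isCompact.isClosed.isOpen_compl
  obtain ⟨a, ha, ha'⟩ := (infinite_of_open hDo ⟨_, hwD⟩).exists_notMem_finite 
    (finite_singleton (w : M))
  obtain ⟨Q, q1, q2, q3, q4, q5⟩ := exists_sm_nhds
    ((hDo.sdiff isClosed_singleton).mem_nhds (⟨hwD, Ne.symm ha'⟩ : (w : M) ∈ Dᶜ \ {a})) hε
  obtain ⟨W', w1, w2, w3, w4⟩ := hab _ (continuous_subtype_val.continuousAt (q1.mem_nhds q2))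
  obtain ⟨g, g1, g2, g3, g4⟩ := h.move_disc (isOpen_univ.sdiff isClosed_singleton)
    (preconn_diff_point isPreconnected_univ isOpen_univ a) hD
    (fun x hx => ⟨trivial, fun h => ha (h ▸ hx)⟩) hW w3 hDW
    (Set.disjoint_left.2 fun x hx hx' => (q3 (w1 hx')).1 (interior_subset (hDW.1 x hx))) w4 q1 q4
    ⟨_, q2⟩ (fun x hx => ⟨trivial, (q3 hx).2⟩) w1
  have conj : ∀ {D : Set M} {k : M ≃ₜ M}, (∀ x ∉ D, k x = x) → ∀ g : M ≃ₜ M,
      ∀ x ∉ g '' D, (g * k * g⁻¹) x = x := fun {D k} h g x hx => by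
    have : g.symm x ∉ D := fun h => hx ⟨_, h, by simp⟩
    simp [h _ this]
  have hs := mul_mem (mul_mem g2 hk) (inv_mem g2)
  have : g * k * g⁻¹ ∈ N := h.N_lim _ (hV _ hs (near_of_sm hε q5 fun x hx =>
      conj hkD g x fun h => hx (g3 h))) fun η hη => by
    have hD' := hD.image g
    obtain ⟨Q', r1, r2, r3, r4, r5⟩ := exists_sm_nhds ((q1.sdiff hD'.isCompact.isClosed).mem_nhds
      ⟨q2, fun h => w2 (g4.2 w h)⟩) hη
    obtain ⟨W'', u1, -, u3, u4⟩ := hab _ (continuous_subtype_val.continuousAt (r1.mem_nhds r2))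
    obtain ⟨v, v1, v2, v3, -⟩ := h.move_disc q1 q4 hD' g3 w3 u3 g4
      (Set.disjoint_left.2 fun x hx hx' => (r3 (u1 hx')).2 (interior_subset (g4.1 x hx)))
      ((w4.symm hW.1).trans u4) r1 r4 ⟨_, r2⟩ (r3.trans sdiff_subset) u1
    exact ⟨v, hV v v2 (near_of_sm hε q5 fun x hx => AA_fix v1 hx), near_of_sm hη r5
      fun x hx => conj (conj hkD g) v x fun h => hx (v3 h)⟩
  simpa [mul_assoc] using h.N_conj g⁻¹ (inv_mem g2)
    ⟨a, AA_eventually (inv_mem g1) fun h => h.2 rfl⟩ _ this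

theorem Ctx.dead_region (h : Ctx E V N) {Ω : Set M} (hΩ : DX Ω) {W : Set E} (hW : Dead W)
    (hΩW : ∀ x : E, (x : M) ∈ Ω ↔ x ∈ W) {k : M ≃ₜ M} (hk : k ∈ Stab E) (hkΩ : k ∈ AA Ω) :
    k ∈ N := by
  obtain ⟨K, hK, hKΩ, hk'⟩ := hkΩ
  obtain ⟨D, d1, d2, d3⟩ := hΩ.2 _ (hK.union (h.isCompact_val hW.1.1))
    (union_subset hKΩ (by rintro _ ⟨x, hx, rfl⟩; exact (hΩW x).2 hx))
  exact h.dead_disc d1 hW ⟨fun x hx => d2 (Or.inr ⟨x, hx, rfl⟩), fun x hx => (hΩW x).1 (d3 hx)⟩ hk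
    fun x hx => hk' x fun h => hx (interior_subset (d2 (Or.inl h)))

/-- Step one: every homeomorphism of the ends fixing the finite orbits is induced by `V`. -/
theorem Ctx.ends (h : Ctx E V N) (hs : Stable E) (hF : ¬ Flux E) {φ : E ≃ₜ E}
    (hφ : ∀ y ∈ finOrb E, φ y = y) : ∃ v ∈ V, ∀ x : E, v x = φ x := by
  have := h.compactSpace
  have := h.tdSpace
  obtain ⟨ε, hε, hV⟩ := h.V_open
  let U : Subgroup (E ≃ₜ E) :=
    { carrier := {φ | ∃ v ∈ V, ∀ x : E, v x = φ x}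
      one_mem' := ⟨1, one_mem _, fun _ => rfl⟩
      mul_mem' := fun ⟨v, h1, h2⟩ ⟨w, h3, h4⟩ => ⟨v * w, mul_mem h1 h3, fun x => by simp [h2, h4]⟩
      inv_mem' := fun ⟨v, h1, h2⟩ => ⟨v⁻¹, inv_mem h1, fun x => by
        rw [Homeomorph.inv_apply, Homeomorph.symm_apply_eq, h2]; simp⟩ }
  choose Q q1 q2 q3 q4 q5 using fun x : E => exists_sm_nhds (univ_mem (f := 𝓝 (x : M))) hε
  refine step_one hs hF (U := U) (fun W hW φ hφ => ?_) (O := fun x => Subtype.val ⁻¹' Q x)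
    (fun x => continuous_subtype_val.continuousAt ((q1 x).mem_nhds (q2 x)))
    (fun l hl hl' φ hφ => ?_) hφ
  · obtain ⟨D, d1, -, d2⟩ := h.exists_disc isOpen_univ isPreconnected_univ
      ⟨hW.2.choose, trivial⟩ hW.1 fun _ _ => trivial
    obtain ⟨k, k1, k2, k3, k4⟩ := h.realize_homeo isOpen_interior d1.preconn_interior hW.1 d2.1
      (fix_mem_iff hφ)
    refine ⟨k, h.N_le (h.dead_disc d1 hW d2 k2 fun x hx => AA_fix k1 fun h =>
      hx (interior_subset h)), fun x => ?_⟩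
    by_cases hx : x ∈ W
    · exact k3 x hx
    · rw [hφ x hx, k4 x hx]
  · choose k k1 k2 k3 k4 using fun z => h.realize_homeo (q1 z) (q4 z) (hl.isClopen_fiber z)
      (fun x hx => hx ▸ hl' x) (φ := φ) fun x => by simp [hφ]
    obtain ⟨K, hK, hK', -⟩ := glue hl.range_finite k (fun z => Subtype.val '' {x | l x = z})
      (fun z _ => by rintro _ ⟨x, hx, rfl⟩; exact ⟨φ x, (hφ x).trans hx, (k3 z x hx).symm⟩)
      (fun z _ z' _ hne => by
        rintro _ ⟨x, hx, rfl⟩; exact k4 z x fun h => hne (h.symm.trans hx)) V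
      fun z _ => hV _ (k2 z) (near_of_sm hε (q5 z) fun x hx => AA_fix (k1 z) hx)
    exact ⟨K, hK, fun x => (hK' _ ⟨x, rfl⟩ _ ⟨x, rfl, rfl⟩).trans (k3 _ x rfl)⟩

end Pool.Agent.Lib.MP_069d55_gt.K
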