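import Pool.Agent.Lib.MP_069d55_gt.KMove

/-! Discs, shrinking, gathering, affine moves, Alexander trick. -/

open Set Topology Filter Metric

namespace Pool.Agent.Lib.MP_069d55_gt.K

theorem shrink_plane {C Ω : Set ℂ} (hC : IsCompact C) (hΩ : IsOpen Ω) (h : C ⊆ Ω) {p : ℂ}
    (hp : StarConvex ℝ p C) {l : ℝ} (h0 : 0 < l) (h1 : l ≤ 1) :
    ∃ k ∈ AA Ω, ∀ z ∈ C, k z = p + l * (z - p) := by
  obtain ⟨β, hβ, hβ1, K, hK, hKΩ, hβ0⟩ := exists_bump hC hΩ h
  obtain ⟨r, hr, hk⟩ := exists_perturb (ψ := fun z => (β z : ℂ) * (z - p))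
    ((Complex.ofRealCLM.contDiff.comp hβ).mul (contDiff_id.sub contDiff_const)) hK
    fun z hz => by simp [hβ0 z hz]
  set a : ℝ := max (1 - r / 2) (1 / 2) with ha
  have ha0 : 0 < a := lt_max_of_lt_right (by norm_num)
  have ha1 : a < 1 := max_lt (by linarith) (by norm_num)
  have base : ∀ l : ℝ, a ≤ l → l ≤ 1 → ∃ k ∈ AA Ω, ∀ z ∈ C, k z = p + l * (z - p) := by
    intro l h0 h1
    obtain ⟨k, hk⟩ := hk ((l - 1 : ℝ) : ℂ) (by
      rw [Complex.norm_real, Real.norm_eq_abs, abs_of_nonpos (by linarith)]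
      linarith [le_max_left (1 - r / 2) (1 / 2)])
    refine ⟨k, ⟨K, hK, hKΩ, fun z hz => by simp [hk, hβ0 z hz]⟩, fun z hz => ?_⟩
    rw [hk, hβ1.self_of_nhdsSet z hz]; push_cast; ring
  have step : ∀ n : ℕ, ∀ l : ℝ, a ^ n ≤ l → l ≤ 1 →
      ∃ k ∈ AA Ω, ∀ z ∈ C, k z = p + l * (z - p) := by
    intro n
    induction n with
    | zero => intro l h0 h1; exact base l (by simp at h0; linarith) h1
    | succ n ih =>
      intro l h0 h1
      by_cases hl : a ≤ l
      · exact base l hl h1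
      obtain ⟨k, hk, hk'⟩ := ih (l / a) (by rwa [le_div_iff₀ ha0, ← pow_succ])
        (by rw [div_le_one ha0]; linarith)
      obtain ⟨k', hk1, hk1'⟩ := base a le_rfl ha1.le
      refine ⟨k * k', mul_mem hk hk1, fun z hz => ?_⟩
      have : p + a * (z - p) ∈ C := by
        simpa using hp.add_smul_sub_mem hz ha0.le ha1.le
      rw [Homeomorph.mul_apply, hk1' z hz, hk' _ this]
      have : (a : ℂ) ≠ 0 := by exact_mod_cast ha0.ne'
      push_cast; field_simp; ring
  obtain ⟨n, hn⟩ := exists_pow_lt_of_lt_one h0 ha1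
  exact step n l hn.le h1

section
variable {M : Type*} [TopologicalSpace M]

theorem glue {ι : Type*} {s : Set ι} (hs : s.Finite) (k : ι → M ≃ₜ M) (D : ι → Set M)
    (h1 : ∀ i ∈ s, MapsTo (k i) (D i) (D i))
    (h2 : ∀ i ∈ s, ∀ j ∈ s, i ≠ j → ∀ x ∈ D j, k i x = x) (Γ : Subgroup (M ≃ₜ M))
    (hΓ : ∀ i ∈ s, k i ∈ Γ) :
    ∃ K ∈ Γ, (∀ i ∈ s, ∀ x ∈ D i, K x = k i x) ∧ ∀ x, (∀ i ∈ s, k i x = x) → K x = x := by
  induction s, hs using Set.Finite.induction_on with
  | empty => exact ⟨1, one_mem _, by simp, fun _ _ => rfl⟩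
  | @insert a s ha hs ih =>
    obtain ⟨K, hK, hK1, hK2⟩ := ih (fun i hi => h1 i (mem_insert_of_mem _ hi))
      (fun i hi j hj => h2 i (mem_insert_of_mem _ hi) j (mem_insert_of_mem _ hj))
      fun i hi => hΓ i (mem_insert_of_mem _ hi)
    have hne : ∀ i ∈ s, a ≠ i := fun i hi h => ha (h ▸ hi)
    refine ⟨k a * K, mul_mem (hΓ a (mem_insert _ _)) hK, ?_, fun x hx => ?_⟩
    · rintro i (rfl | hi) x hx
      · rw [Homeomorph.mul_apply, hK2 x fun j hj =>
          h2 j (mem_insert_of_mem _ hj) i (mem_insert _ _) (hne j hj).symm x hx]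
      · rw [Homeomorph.mul_apply, hK1 i hi x hx]
        exact h2 a (mem_insert _ _) i (mem_insert_of_mem _ hi) (hne i hi) _
          (h1 i (mem_insert_of_mem _ hi) hx)
    · rw [Homeomorph.mul_apply, hK2 x fun j hj => hx j (mem_insert_of_mem _ hj),
        hx a (mem_insert _ _)]

theorem exists_inj_choice {ι α : Type*} {s : Set ι} (hs : s.Finite) (t : ι → Set α)
    [Nonempty α] (ht : ∀ i ∈ s, (t i).Infinite) : ∃ q : ι → α, InjOn q s ∧ ∀ i ∈ s, q i ∈ t i := by
  classical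
  induction s, hs using Set.Finite.induction_on with
  | empty => exact ⟨fun _ => Classical.arbitrary α, by simp, by simp⟩
  | @insert a s ha hs ih =>
    obtain ⟨q, hq, hq'⟩ := ih fun i hi => ht i (mem_insert_of_mem _ hi)
    obtain ⟨x, hx, hx'⟩ := (ht a (mem_insert _ _)).exists_notMem_finite (hs.image q)
    have he : ∀ i ∈ s, Function.update q a x i = q i := fun i hi =>
      Function.update_of_ne (fun h : i = a => ha (h ▸ hi)) _ _
    refine ⟨Function.update q a x, (injOn_insert ha).2 ⟨hq.congr fun i hi => (he i hi).symm, ?_⟩,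
      ?_⟩
    · rw [Function.update_self, image_congr he]; exact hx'
    · rintro i (rfl | hi)
      · rwa [Function.update_self]
      · rw [he i hi]; exact hq' i hi

/-- A closed disc with a plane chart around it. -/
def IsDisc (D : Set M) : Prop := ∃ d : ℂ → M, IsOpenEmbedding d ∧ D = d '' closedBall 0 1

theorem interior_image_ball {d : ℂ → M} (hd : IsOpenEmbedding d) :
    interior (d '' closedBall 0 1) = d '' ball 0 1 := by
  refine Subset.antisymm (fun x hx => ?_) (interior_maximal (image_mono ball_subset_closedBall)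
    (hd.isOpenMap _ isOpen_ball))
  obtain ⟨z, -, rfl⟩ := interior_subset hx
  refine mem_image_of_mem _ ?_
  rw [← interior_closedBall _ one_ne_zero, ← hd.injective.preimage_image (closedBall 0 1)]
  exact preimage_interior_subset_interior_preimage hd.continuous hx

namespace IsDisc
variable {D : Set M}

theorem isCompact (h : IsDisc D) : IsCompact D := by
  obtain ⟨d, hd, rfl⟩ := h; exact (isCompact_closedBall _ _).image hd.continuous

theorem image (h : IsDisc D) (k : M ≃ₜ M) : IsDisc (k '' D) := by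
  obtain ⟨d, hd, rfl⟩ := h
  exact ⟨k ∘ d, k.isOpenEmbedding.comp hd, by rw [image_comp]⟩

theorem preconn_interior (h : IsDisc D) : IsPreconnected (interior D) := by
  obtain ⟨d, hd, rfl⟩ := h
  rw [interior_image_ball hd]
  exact (convex_ball _ _).isPreconnected.image _ hd.continuous.continuousOn

theorem preconn (h : IsDisc D) : IsPreconnected D := by
  obtain ⟨d, hd, rfl⟩ := h
  exact (convex_closedBall _ _).isPreconnected.image _ hd.continuous.continuousOn

theorem interior_nonempty (h : IsDisc D) : (interior D).Nonempty := by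
  obtain ⟨d, hd, rfl⟩ := h
  rw [interior_image_ball hd]
  exact ⟨_, mem_image_of_mem _ (mem_ball_self one_pos)⟩

theorem preconn_diff [T2Space M] (h : IsDisc D) {Ω : Set M} (hΩ : IsPreconnected Ω)
    (hΩo : IsOpen Ω) (hD : D ⊆ Ω) : IsPreconnected (Ω \ D) := by
  obtain ⟨d, hd, rfl⟩ := h
  exact preconn_diff_ball hd hΩ hΩo zero_le_one hD

theorem shrink [T2Space M] (h : IsDisc D) : ∃ c ∈ D, ∀ U ∈ 𝓝 c, ∀ Ω, IsOpen Ω → D ⊆ Ω →
    ∃ k ∈ AA Ω, MapsTo k D (D ∩ U) := by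
  obtain ⟨d, hd, rfl⟩ := h
  refine ⟨d 0, mem_image_of_mem _ (mem_closedBall_self zero_le_one), fun U hU Ω hΩ hD => ?_⟩
  obtain ⟨r, hr, hrU⟩ := Metric.nhds_basis_closedBall.mem_iff.1 (hd.continuous.continuousAt hU)
  obtain ⟨k, hk, hk'⟩ := shrink_plane (isCompact_closedBall 0 1) (hΩ.preimage hd.continuous)
    (image_subset_iff.1 hD) ((convex_closedBall (0 : ℂ) 1).starConvex
      (mem_closedBall_self zero_le_one)) (lt_min hr one_pos) (min_le_right _ _)
  obtain ⟨K, hK, hK'⟩ := exists_lift hd hk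
  refine ⟨K, AA_mono (image_preimage_subset _ _) hK', ?_⟩
  rintro _ ⟨z, hz, rfl⟩
  have : ‖k z‖ ≤ min r 1 := by
    rw [hk' z hz]
    have : ‖z‖ ≤ 1 := by simpa using hz
    have h0 : 0 ≤ min r 1 := (lt_min hr one_pos).le
    simpa [abs_of_nonneg h0] using mul_le_of_le_one_right h0 this
  rw [hK.1]
  exact ⟨mem_image_of_mem _ (by simpa using this.trans (min_le_right _ _)),
    hrU (by simpa using this.trans (min_le_left _ _))⟩

end IsDisc

theorem isDisc_of_convex {e : ℂ → M} (he : IsOpenEmbedding e) {s : Set ℂ} (hs : Convex ℝ s)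
    (ho : IsOpen s) (hne : s.Nonempty) (hb : Bornology.IsBounded s) :
    IsDisc (e '' closure s) ∧ interior (e '' closure s) = e '' s := by
  obtain ⟨h, h1, h2, -⟩ := exists_homeomorph_image_interior_closure_frontier_eq_unitBall hs
    (by rwa [ho.interior_eq]) hb
  rw [ho.interior_eq] at h1
  have hd := he.comp h.symm.isOpenEmbedding
  have e1 : e '' closure s = (e ∘ h.symm) '' closedBall 0 1 := by
    rw [← h2, ← image_comp]; simp
  refine ⟨⟨_, hd, e1⟩, ?_⟩
  rw [e1, interior_image_ball hd, ← h1, ← image_comp]; simp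

theorem isDisc_closedBall {e : ℂ → M} (he : IsOpenEmbedding e) (c : ℂ) {r : ℝ} (hr : 0 < r) :
    IsDisc (e '' closedBall c r) ∧ interior (e '' closedBall c r) = e '' ball c r := by
  rw [← closure_ball c hr.ne']
  exact isDisc_of_convex he (convex_ball _ _) isOpen_ball ⟨c, mem_ball_self hr⟩ isBounded_ball

theorem exists_disc_nhds [Charted M] {x : M} {U : Set M} (hU : U ∈ 𝓝 x) :
    ∃ D, IsDisc D ∧ x ∈ interior D ∧ D ⊆ U := by
  obtain ⟨e, he, p, rfl⟩ := Charted.chart x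
  obtain ⟨r, hr, hs⟩ := Metric.nhds_basis_closedBall.mem_iff.1 (he.continuous.continuousAt hU)
  obtain ⟨h1, h2⟩ := isDisc_closedBall he p hr
  exact ⟨_, h1, h2 ▸ mem_image_of_mem _ (mem_ball_self hr), image_subset_iff.2 hs⟩

theorem isOpen_diff_others {ι : Type*} {s : Set ι} (hs : s.Finite) {D : ι → Set M}
    (hD : ∀ i ∈ s, IsClosed (D i)) {Ω : Set M} (hΩ : IsOpen Ω) (i : ι) :
    IsOpen (Ω \ ⋃ j ∈ s \ {i}, D j) :=
  hΩ.sdiff ((hs.subset sdiff_subset).isClosed_biUnion fun j hj => hD j hj.1)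

omit [TopologicalSpace M] in
theorem subset_diff_others {ι : Type*} {s : Set ι} {D : ι → Set M} (hd : s.PairwiseDisjoint D)
    {Ω : Set M} {i : ι} (hi : i ∈ s) (h : D i ⊆ Ω) : D i ⊆ Ω \ ⋃ j ∈ s \ {i}, D j := by
  intro x hx
  refine ⟨h hx, fun hx' => ?_⟩
  obtain ⟨j, hj, hxj⟩ := mem_iUnion₂.1 hx'
  exact Set.disjoint_left.1 (hd hj.1 hi hj.2) hxj hx

/-- Finitely many disjoint discs can be moved into given open targets. -/
theorem gather_discs [T2Space M] [Charted M] {Ω : Set M} (hΩ : IsOpen Ω) (hc : IsPreconnected Ω)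
    {ι : Type*} {s : Set ι} (hs : s.Finite) {D t : ι → Set M} (hD : ∀ i ∈ s, IsDisc (D i))
    (hd : s.PairwiseDisjoint D) (hDΩ : ∀ i ∈ s, D i ⊆ Ω) (ht : ∀ i ∈ s, IsOpen (t i))
    (htn : ∀ i ∈ s, (t i).Nonempty) (htΩ : ∀ i ∈ s, t i ⊆ Ω) :
    ∃ k ∈ AA Ω, ∀ i ∈ s, MapsTo k (D i) (t i) := by
  rcases s.eq_empty_or_nonempty with rfl | ⟨i0, hi0⟩
  · exact ⟨1, one_mem _, by simp⟩
  have : Nonempty M := ⟨(htn i0 hi0).some⟩
  obtain ⟨q, hq, hqt⟩ := exists_inj_choice hs t fun i hi => infinite_of_open (ht i hi) (htn i hi)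
  choose! c hc1 hc2 using fun i hi => (hD i hi).shrink
  obtain ⟨m, hm, hm'⟩ := germClass_true.multi hΩ hc hs (p := c) (q := q)
    (fun i hi j hj h => by
      by_contra hne
      exact Set.disjoint_left.1 (hd hi hj hne) (hc1 i hi) (h ▸ hc1 j hj)) hq
    (fun i hi => hDΩ i hi (hc1 i hi)) fun i hi => htΩ i hi (hqt i hi)
  choose! k hk hk' using fun i hi => hc2 i hi (m ⁻¹' t i) (m.continuous.continuousAt
    ((ht i hi).mem_nhds (by rw [(hm' i hi).1]; exact hqt i hi))) _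
    (isOpen_diff_others hs (fun i hi => (hD i hi).isCompact.isClosed) hΩ i)
    (subset_diff_others hd hi (hDΩ i hi))
  obtain ⟨K, hK, hK', -⟩ := glue hs k D (fun i hi x hx => (hk' i hi hx).1)
    (fun i hi j hj hij x hx => AA_fix (hk i hi) fun h => h.2 (mem_iUnion₂.2 ⟨j, ⟨hj, hij.symm⟩, hx⟩))
    (AA Ω) fun i hi => AA_mono sdiff_subset (hk i hi)
  refine ⟨m * K, mul_mem hm hK, fun i hi x hx => ?_⟩
  rw [Homeomorph.mul_apply, hK' i hi x hx]
  exact (hk' i hi hx).2

end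

/-- Star-shaped compact sets can be moved by real affine maps. -/
theorem move_affine {Ω : Set ℂ} (hΩ : IsOpen Ω) (hc : IsPreconnected Ω)
    {ι : Type*} {s : Set ι} (hs : s.Finite) {C : ι → Set ℂ} {p q : ι → ℂ}
    (hC : ∀ i ∈ s, IsCompact (C i)) (hp : ∀ i ∈ s, p i ∈ C i)
    (hst : ∀ i ∈ s, StarConvex ℝ (p i) (C i))
    (hd : s.PairwiseDisjoint C) (hCΩ : ∀ i ∈ s, C i ⊆ Ω) (hq : InjOn q s) (hqΩ : MapsTo q s Ω) :
    ∀ᶠ l : ℝ in 𝓝[>] 0, ∃ k ∈ AA Ω, ∀ i ∈ s, ∀ z ∈ C i, k z = q i + l * (z - p i) := by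
  obtain ⟨m, hm, hm'⟩ := germClass_transl.multi hΩ hc hs (p := p) (q := q)
    (fun i hi j hj h => by
      by_contra hne
      exact Set.disjoint_left.1 (hd hi hj hne) (hp i hi) (h ▸ hp j hj)) hq
    (fun i hi => hCΩ i hi (hp i hi)) hqΩ
  have h1 : ∀ i ∈ s, ∀ᶠ l : ℝ in 𝓝 0, ∀ z ∈ C i,
      m (p i + l * (z - p i)) = p i + l * (z - p i) + (m (p i) - p i) := fun i hi =>
    (hC i hi).eventually_forall_of_forall_eventually fun z _ => by
      have : Tendsto (fun w : ℝ × ℂ => p i + w.1 * (w.2 - p i)) (𝓝 (0, z)) (𝓝 (p i)) :=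
        Continuous.tendsto' (by fun_prop) _ _ (by simp)
      exact this.eventually (hm' i hi).2
  filter_upwards [((eventually_all_finite hs).2 h1).filter_mono nhdsWithin_le_nhds,
    Ioo_mem_nhdsGT one_pos] with l hl hl'
  choose! k hk hk' using fun i hi => shrink_plane (hC i hi)
    (isOpen_diff_others hs (fun i hi => (hC i hi).isClosed) hΩ i)
    (subset_diff_others hd hi (hCΩ i hi)) (hst i hi) hl'.1 hl'.2.le
  obtain ⟨K, hK, hK', -⟩ := glue hs k C (fun i hi x hx => by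
      rw [hk' i hi x hx]; simpa using (hst i hi).add_smul_sub_mem hx hl'.1.le hl'.2.le)
    (fun i hi j hj hij x hx => AA_fix (hk i hi) fun h => h.2 (mem_iUnion₂.2 ⟨j, ⟨hj, hij.symm⟩, hx⟩))
    (AA Ω) fun i hi => AA_mono sdiff_subset (hk i hi)
  refine ⟨m * K, mul_mem hm hK, fun i hi x hx => ?_⟩
  rw [Homeomorph.mul_apply, hK' i hi x hx, hk' i hi x hx, hl i hi x hx, (hm' i hi).1]
  ring

end Pool.Agent.Lib.MP_069d55_gt.K
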