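import Pool.Agent.Lib.MP_069d55_gt.EndDefs

/-! Clopen copies, absorption and transfer in a profinite space. -/

open Set Topology Filter

namespace Pool.Agent.Lib.MP_069d55_gt.K

variable {X : Type*} [TopologicalSpace X]

/-- `B` is a copy of `A`. -/
def Cp (A B : Set X) : Prop := ∃ f : X → X, ContinuousOn f A ∧ BijOn f A B

/-- `T` has clopen copies in every punctured neighbourhood of `z`. -/
def Abs (T : Set X) (z : X) : Prop :=
  ∀ U ∈ 𝓝 z, ∃ T' ⊆ U, z ∉ T' ∧ IsClopen T' ∧ Cp T T'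

/-- `U` is a stable neighbourhood of `x`. -/
def StN (U : Set X) (x : X) : Prop :=
  IsClopen U ∧ x ∈ U ∧ ∀ W ∈ 𝓝 x, ∃ U' ⊆ W, IsClopen U' ∧ Cp U U'

/-- Clopen sets with copies converging to a point outside. -/
def Dead (W : Set X) : Prop := IsClopen W ∧ ∃ w ∉ W, Abs W w

theorem Cp.trans {A B C : Set X} (h : Cp A B) (h' : Cp B C) : Cp A C :=
  let ⟨f, hf, hf'⟩ := h
  let ⟨g, hg, hg'⟩ := h'
  ⟨g ∘ f, hg.comp hf hf'.mapsTo, hg'.comp hf'⟩

theorem Cp.image (A : Set X) (φ : X ≃ₜ X) : Cp A (φ '' A) :=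
  ⟨φ, φ.continuous.continuousOn, φ.injective.injOn.bijOn_image⟩

theorem Stable.stN (h : Stable X) (x : X) : ∃ U, StN U x := by
  classical
  obtain ⟨U, h1, h2, h3⟩ := h x
  refine ⟨U, h1, h2, fun W hW => ?_⟩
  obtain ⟨U', h4, h5, ⟨φ⟩⟩ := h3 W hW
  refine ⟨U', h4, h5, fun y => if h : y ∈ U then φ ⟨y, h⟩ else y, ?_, fun y hy => ?_,
    fun y hy z hz h => ?_, fun y hy => ⟨φ.symm ⟨y, hy⟩, (φ.symm ⟨y, hy⟩).2, ?_⟩⟩
  · rw [continuousOn_iff_continuous_domRestrict]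
    exact (continuous_subtype_val.comp φ.continuous).congr fun y => by simp [y.2]
  · simp [hy]
  · simp only [hy, hz, dite_true] at h
    simpa using φ.injective (Subtype.ext h)
  · simp

theorem mem_orb_self (x : X) : x ∈ orb x := ⟨1, rfl⟩

theorem orb_eq {x y : X} (h : y ∈ orb x) : orb y = orb x := by
  obtain ⟨φ, rfl⟩ := h
  ext z
  exact ⟨fun ⟨ψ, h⟩ => ⟨ψ * φ, h⟩, fun ⟨ψ, h⟩ => ⟨ψ * φ⁻¹, by simpa using h⟩⟩

theorem apply_mem_orb {x y : X} (φ : X ≃ₜ X) : φ y ∈ orb x ↔ y ∈ orb x :=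
  ⟨fun ⟨ψ, h⟩ => ⟨φ⁻¹ * ψ, by simp [h]⟩, fun ⟨ψ, h⟩ => ⟨φ * ψ, by simp [h]⟩⟩

theorem orb_subset_derived {x y : X} (h : y ∈ derivedSet (orb x)) : orb y ⊆ derivedSet (orb x) := by
  rintro _ ⟨φ, rfl⟩
  exact derivedSet_mono _ _ (by rintro _ ⟨z, hz, rfl⟩; exact (apply_mem_orb φ).2 hz)
    (φ.continuous.image_derivedSet φ.injective (mem_image_of_mem _ h))

theorem apply_mem_derived {x y : X} (φ : X ≃ₜ X) :
    φ y ∈ derivedSet (orb x) ↔ y ∈ derivedSet (orb x) :=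
  ⟨fun h => orb_subset_derived h ⟨φ⁻¹, by simp⟩, fun h => orb_subset_derived h ⟨φ, rfl⟩⟩

variable [CompactSpace X]

theorem exists_derived_notMem {x : X} (hx : (orb x).Infinite) {s : Set X} (hs : s.Finite)
    (h : ∀ y ∈ s, (orb y).Infinite) : ∃ w ∈ derivedSet (orb x), w ∉ s := by
  by_contra! hc
  obtain ⟨w, hw⟩ := hx.exists_accPt_principal
  exact h w (hc w hw) (hs.subset ((orb_subset_derived hw).trans hc))

variable [T2Space X]

theorem exists_inv_on {f : X → X} {A B : Set X} (hA : IsClosed A) (hf : ContinuousOn f A)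
    (hf' : BijOn f A B) : ∃ g : X → X, ContinuousOn g B ∧ BijOn g B A ∧ (∀ x ∈ A, g (f x) = x) ∧
      ∀ y ∈ B, f (g y) = y := by
  rcases isEmpty_or_nonempty X with h | h
  · exact ⟨id, continuousOn_id, by simp [Subsingleton.elim B A, bijOn_id], by simp, by simp⟩
  have hi := hf'.invOn_invFunOn
  refine ⟨Function.invFunOn f A, continuousOn_iff_isClosed.2 fun t ht => ⟨f '' (A ∩ t),
    ((hA.inter ht).isCompact.image_of_continuousOn (hf.mono inter_subset_left)).isClosed, ?_⟩,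
    (hf'.symm hi.symm), fun x hx => hi.1 hx, fun y hy => hi.2 hy⟩
  ext y
  constructor
  · rintro ⟨h1, h2⟩
    exact ⟨⟨_, ⟨hf'.surjOn.mapsTo_invFunOn h2, h1⟩, hi.2 h2⟩, h2⟩
  · rintro ⟨⟨x, hx, rfl⟩, h2⟩
    exact ⟨by rw [mem_preimage, hi.1 hx.1]; exact hx.2, h2⟩

theorem Cp.symm {A B : Set X} (h : Cp A B) (hA : IsClosed A) : Cp B A :=
  let ⟨_, hf, hf'⟩ := h
  let ⟨g, hg, hg', _⟩ := exists_inv_on hA hf hf'
  ⟨g, hg, hg'⟩

theorem isClopen_image_on {f : X → X} {A B T : Set X} (hA : IsClopen A) (hB : IsClopen B)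
    (hf : ContinuousOn f A) (hf' : BijOn f A B) (hT : IsClopen T) (hTA : T ⊆ A) :
    IsClopen (f '' T) := by
  refine ⟨(hT.1.isCompact.image_of_continuousOn (hf.mono hTA)).isClosed, ?_⟩
  have : f '' T = B \ f '' (A \ T) := by
    rw [← hf'.image_eq, ← hf'.injOn.image_sdiff_subset sdiff_subset, Set.sdiff_sdiff_cancel_left hTA]
  rw [this]
  exact hB.2.sdiff ((hA.diff hT).1.isCompact.image_of_continuousOn
    (hf.mono sdiff_subset)).isClosed

omit [CompactSpace X] [T2Space X] in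
theorem continuousOn_union_clopen {f : X → X} {A B : Set X} (hA : IsOpen A) (hB : IsOpen B)
    (h : ContinuousOn f A) (h' : ContinuousOn f B) : ContinuousOn f (A ∪ B) := by
  rintro x (hx | hx)
  exacts [(h.continuousAt (hA.mem_nhds hx)).continuousWithinAt,
    (h'.continuousAt (hB.mem_nhds hx)).continuousWithinAt]

omit [CompactSpace X] [T2Space X] in
theorem exists_glue_on {f f' : X → X} {A B A' B' : Set X} (hA : IsOpen A) (hA' : IsOpen A')
    (hd : Disjoint A A') (hd' : Disjoint B B') (hf : ContinuousOn f A) (h : BijOn f A B)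
    (hf' : ContinuousOn f' A') (h' : BijOn f' A' B') : ∃ g : X → X, ContinuousOn g (A ∪ A') ∧
      BijOn g (A ∪ A') (B ∪ B') ∧ (∀ x ∈ A, g x = f x) ∧ ∀ x ∈ A', g x = f' x := by
  classical
  have e1 : EqOn f (A.piecewise f f') A := fun x hx => (piecewise_eq_of_mem _ _ _ hx).symm
  have e2 : EqOn f' (A.piecewise f f') A' := fun x hx =>
    (piecewise_eq_of_notMem _ _ _ (Set.disjoint_right.1 hd hx)).symm
  refine ⟨A.piecewise f f', continuousOn_union_clopen hA hA' (hf.congr e1.symm) (hf'.congr e2.symm),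
    (h.congr e1).union (h'.congr e2) ((injOn_union hd).2 ⟨(h.congr e1).injOn, (h'.congr e2).injOn,
      fun x hx y hy he => Set.disjoint_left.1 hd' ((h.congr e1).mapsTo hx)
        (he ▸ (h'.congr e2).mapsTo hy)⟩), fun x hx => (e1 hx).symm, fun x hx => (e2 hx).symm⟩

omit [CompactSpace X] [T2Space X] in
theorem Cp.union {A B A' B' : Set X} (h : Cp A B) (h' : Cp A' B') (hA : IsOpen A) (hA' : IsOpen A')
    (hd : Disjoint A A') (hd' : Disjoint B B') : Cp (A ∪ A') (B ∪ B') :=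
  let ⟨_, h1, h2⟩ := h
  let ⟨_, h3, h4⟩ := h'
  let ⟨g, h5, h6, _⟩ := exists_glue_on hA hA' hd hd' h1 h2 h3 h4
  ⟨g, h5, h6⟩

theorem exists_homeo_on {f : X → X} {W : Set X} (hW : IsClopen W) (hf : ContinuousOn f W)
    (h : BijOn f W W) : ∃ u : X ≃ₜ X, (∀ x ∈ W, u x = f x) ∧ ∀ x ∉ W, u x = x := by
  obtain ⟨g, h1, h2, h3, h4⟩ := exists_glue_on hW.2 hW.compl.2 disjoint_compl_right
    disjoint_compl_right hf h continuousOn_id (bijOn_id _)
  rw [union_compl_self] at h1 h2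
  exact ⟨Continuous.homeoOfEquivCompactToT2 (f := Equiv.ofBijective g (bijOn_univ.1 h2))
    (continuousOn_univ.1 h1), h3, h4⟩

theorem exists_swap {f : X → X} {T T' : Set X} (hT : IsClopen T) (hT' : IsClopen T')
    (hd : Disjoint T T') (hf : ContinuousOn f T) (h : BijOn f T T') :
    ∃ u : X ≃ₜ X, (∀ x ∈ T, u x = f x) ∧ ∀ x ∉ T ∪ T', u x = x := by
  obtain ⟨g, h1, h2, -⟩ := exists_inv_on hT.1 hf h
  obtain ⟨k, h3, h4, h5, -⟩ := exists_glue_on hT.2 hT'.2 hd hd.symm hf h h1 h2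
  obtain ⟨u, h6, h7⟩ := exists_homeo_on (hT.union hT') h3 (by rwa [union_comm T'] at h4)
  exact ⟨u, fun x hx => (h6 x (Or.inl hx)).trans (h5 x hx), h7⟩

theorem Cp.sub {A B T : Set X} (h : Cp A B) (hA : IsClopen A) (hB : IsClopen B) (hT : IsClopen T)
    (hTA : T ⊆ A) : ∃ T' ⊆ B, IsClopen T' ∧ Cp T T' :=
  let ⟨f, h1, h2⟩ := h
  ⟨f '' T, (image_mono hTA).trans h2.image_eq.subset, isClopen_image_on hA hB h1 h2 hT hTA,
    f, h1.mono hTA, (h2.injOn.mono hTA).bijOn_image⟩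

theorem Abs.mono {A T : Set X} {z : X} (h : Abs A z) (hA : IsClopen A) (hT : IsClopen T)
    (hTA : T ⊆ A) : Abs T z := fun U hU => by
  obtain ⟨B, h1, h2, h3, h4⟩ := h U hU
  obtain ⟨T', h5, h6, h7⟩ := h4.sub hA h3 hT hTA
  exact ⟨T', h5.trans h1, fun h => h2 (h5 h), h6, h7⟩

omit [CompactSpace X] [T2Space X] in
theorem Abs.union {A B : Set X} {z : X} (h : Abs A z) (h' : Abs B z) (hA : IsOpen A)
    (hB : IsOpen B) (hd : Disjoint A B) : Abs (A ∪ B) z := fun U hU => by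
  obtain ⟨A', h1, h2, h3, h4⟩ := h U hU
  obtain ⟨B', h5, h6, h7, h8⟩ := h' (U ∩ A'ᶜ) (inter_mem hU (h3.compl.2.mem_nhds h2))
  exact ⟨A' ∪ B', union_subset h1 (h5.trans inter_subset_left), fun h => h.elim h2 h6,
    h3.union h7, h4.union h8 hA hB hd (Set.disjoint_right.2 fun x hx => (h5 hx).2)⟩

omit [CompactSpace X] [T2Space X] in
theorem Abs.of_cp {A B : Set X} {z : X} (h : Abs B z) (h' : Cp A B) : Abs A z := fun U hU =>
  let ⟨T, h1, h2, h3, h4⟩ := h U hU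
  ⟨T, h1, h2, h3, h'.trans h4⟩

theorem Abs.trans {T R : Set X} {z w : X} (h : Abs T z) (hR : IsClopen R) (hz : z ∈ R)
    (h' : Abs R w) : Abs T w :=
  let ⟨_, h1, _, h3, h4⟩ := h R (hR.2.mem_nhds hz)
  (h'.mono hR h3 h1).of_cp h4

theorem StN.abs {U T : Set X} {x : X} (h : StN U x) (hT : IsClopen T) (hTU : T ⊆ U)
    (hx : x ∉ T) : Abs T x := fun W hW => by
  obtain ⟨U', h1, h2, f, h3, h4⟩ := h.2.2 W hW
  by_cases hxf : x ∈ f '' T
  · obtain ⟨U₂, h5, h6, h7⟩ := h.2.2 (U \ T) ((h.1.diff hT).2.mem_nhds ⟨h.2.1, hx⟩)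
    obtain ⟨T₂, h8, h9, h10⟩ := h7.sub h.1 h6 hT hTU
    have h11 : T₂ ⊆ U := h8.trans (h5.trans sdiff_subset)
    refine ⟨f '' T₂, ((image_mono h11).trans h4.image_eq.subset).trans h1, ?_,
      isClopen_image_on h.1 h2 h3 h4 h9 h11, h10.trans ⟨f, h3.mono h11,
        (h4.injOn.mono h11).bijOn_image⟩⟩
    obtain ⟨t, ht, rfl⟩ := hxf
    rintro ⟨s, hs, hst⟩
    exact (h5 (h8 hs)).2 (h4.injOn (h11 hs) (hTU ht) hst ▸ ht)
  · exact ⟨f '' T, ((image_mono hTU).trans h4.image_eq.subset).trans h1, hxf,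
      isClopen_image_on h.1 h2 h3 h4 hT hTU, f, h3.mono hTU, (h4.injOn.mono hTU).bijOn_image⟩

omit [CompactSpace X] in
theorem StN.abs_of_derived {U : Set X} {x w : X} (h : StN U x) (hw : w ∈ derivedSet (orb x)) :
    Abs U w := fun O hO => by
  obtain ⟨_, ⟨h1, φ, rfl⟩, h2⟩ := accPt_iff_nhds.1 hw _ (interior_mem_nhds.2 hO)
  obtain ⟨U', h3, h4, h5⟩ := h.2.2 (φ ⁻¹' (interior O \ {w})) (φ.continuous.continuousAt
    ((isOpen_interior.sdiff isClosed_singleton).mem_nhds ⟨h1, h2⟩))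
  refine ⟨φ '' U', ?_, ?_, ⟨φ.isClosedMap _ h4.1, φ.isOpenMap _ h4.2⟩, h5.trans (Cp.image _ _)⟩
  · rintro _ ⟨y, hy, rfl⟩; exact interior_subset (h3 hy).1
  · rintro ⟨y, hy, h⟩; exact (h3 hy).2 h

theorem Abs.mem_derived {T : Set X} {x z : X} (h : Abs T z) (hT : IsClopen T) (hx : x ∈ T)
    (hz : z ∉ T) : z ∈ derivedSet (orb x) := accPt_iff_nhds.2 fun U hU => by
  obtain ⟨T', h1, h2, h3, f, h4, h5⟩ := h (U ∩ Tᶜ) (inter_mem hU (hT.compl.2.mem_nhds hz))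
  obtain ⟨u, hu, -⟩ := exists_swap hT h3 (Set.disjoint_right.2 fun y hy => (h1 hy).2) h4 h5
  exact ⟨f x, ⟨(h1 (h5.mapsTo hx)).1, u, hu x hx⟩, fun h => h2 (h ▸ h5.mapsTo hx)⟩

variable [TotallyDisconnectedSpace X]

theorem exists_clopen_nhds {x : X} {U : Set X} (hU : U ∈ 𝓝 x) :
    ∃ V, IsClopen V ∧ x ∈ V ∧ V ⊆ U :=
  let ⟨V, h1, h2⟩ := (nhds_basis_clopen x).mem_iff.1 hU
  ⟨V, h1.2, h1.1, h2⟩

theorem exists_clopen_between {K U : Set X} (hK : IsClosed K) (hU : IsOpen U) (h : K ⊆ U) :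
    ∃ V, IsClopen V ∧ K ⊆ V ∧ V ⊆ U := by
  choose! V h1 h2 h3 using fun x (hx : x ∈ K) => exists_clopen_nhds (hU.mem_nhds (h hx))
  obtain ⟨t, ht, ht'⟩ := hK.isCompact.elim_nhds_subcover V fun x hx =>
    (h1 x hx).2.mem_nhds (h2 x hx)
  exact ⟨_, t.finite_toSet.isClopen_biUnion fun x hx => h1 x (ht x hx), ht',
    iUnion₂_subset fun x hx => h3 x (ht x hx)⟩

theorem StN.mem_derived {U : Set X} {x y : X} (h : StN U x) (hy : y ∈ U) (hne : y ≠ x) :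
    x ∈ derivedSet (orb y) := by
  obtain ⟨T, h1, h2, h3⟩ := exists_clopen_nhds
    ((h.1.2.sdiff isClosed_singleton).mem_nhds (⟨hy, hne⟩ : y ∈ U \ {x}))
  exact (h.abs h1 (h3.trans sdiff_subset) fun h => (h3 h).2 rfl).mem_derived h1 h2
    fun h => (h3 h).2 rfl

omit [CompactSpace X] [TotallyDisconnectedSpace X] in
theorem infinite_of_mem_derived {A : Set X} {x : X} (h : x ∈ derivedSet A) : A.Infinite := by
  intro hA
  obtain ⟨y, h1, h2⟩ := accPt_iff_nhds.1 h _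
    ((hA.subset (sdiff_subset (t := {x}))).isClosed.isOpen_compl.mem_nhds fun h => h.2 rfl)
  exact h1.1 ⟨h1.2, h2⟩

theorem Stable.finite_finOrb (h : Stable X) : (finOrb X).Finite := by
  by_contra hc
  obtain ⟨x, hx⟩ := Set.Infinite.exists_accPt_principal hc
  obtain ⟨U, hU⟩ := h.stN x
  obtain ⟨y, h1, h2⟩ := accPt_iff_nhds.1 hx U (hU.1.2.mem_nhds hU.2.1)
  exact infinite_of_mem_derived (hU.mem_derived h1.1 h2) h1.2

variable [FirstCountableTopology X]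

theorem exists_absorb {R T : Set X} {z : X} (hR : IsClopen R) (hT : IsClopen T) (hz : z ∈ R)
    (hd : Disjoint R T) (h : Abs T z) :
    ∃ f : X → X, ContinuousOn f (R ∪ T) ∧ BijOn f (R ∪ T) R ∧ f z = z := by
  classical
  obtain ⟨B, hB⟩ := (𝓝 z).exists_antitone_basis
  let P : Set X × Set X → Prop := fun p => IsClopen p.1 ∧ z ∈ p.1 ∧ IsClopen p.2 ∧ Cp T p.2 ∧
    Disjoint p.1 p.2
  have step : ∀ (n : ℕ) p, P p → ∃ q, P q ∧ q.1 ⊆ p.1 ∧ q.2 ⊆ p.1 ∧ q.1 ⊆ B n := fun n p hp => by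
    obtain ⟨T', h1, h2, h3, h4⟩ := h p.1 (hp.1.2.mem_nhds hp.2.1)
    obtain ⟨V, h5, h6, h7⟩ := exists_clopen_nhds (inter_mem (inter_mem
      (hp.1.2.mem_nhds hp.2.1) (h3.compl.2.mem_nhds h2)) (hB.mem n))
    exact ⟨(V, T'), ⟨h5, h6, h3, h4, Set.disjoint_left.2 fun x hx => (h7 hx).1.2⟩,
      fun x hx => (h7 hx).1.1, h1, fun x hx => (h7 hx).2⟩
  choose! F hF using step
  let s : ℕ → Set X × Set X := fun n => Nat.rec (R, T) F n
  have hs : ∀ n, P (s n) := fun n => by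
    induction n with
    | zero => exact ⟨hR, hz, hT, ⟨id, continuousOn_id, bijOn_id _⟩, hd⟩
    | succ n ih => exact (hF n _ ih).1
  have hs' : ∀ n, (s (n + 1)).1 ⊆ (s n).1 ∧ (s (n + 1)).2 ⊆ (s n).1 ∧ (s (n + 1)).1 ⊆ B n :=
    fun n => (hF n _ (hs n)).2
  have anti : Antitone fun n => (s n).1 := antitone_nat_of_succ_le fun n => (hs' n).1
  have sub : ∀ {m n}, m < n → (s n).2 ⊆ (s m).1 := fun {m n} h => by
    obtain ⟨n, rfl⟩ := Nat.exists_eq_succ_of_ne_zero (Nat.ne_zero_of_lt h)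
    exact (hs' n).2.1.trans (anti (Nat.lt_succ_iff.1 h))
  have lt : ∀ {m n x}, x ∈ (s m).1 → x ∈ (s n).2 → m < n := fun {m n x} h1 h2 => by
    by_contra! h
    exact Set.disjoint_left.1 (hs n).2.2.2.2 (anti h h1) h2
  have uniq : ∀ {m n x}, x ∈ (s m).2 → x ∈ (s n).2 → m = n := fun {m n x} h1 h2 => by
    rcases lt_trichotomy m n with h | h | h
    exacts [(Set.disjoint_left.1 (hs m).2.2.2.2 (sub h h2) h1).elim, h,
      (Set.disjoint_left.1 (hs n).2.2.2.2 (sub h h1) h2).elim]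
  choose g hg hg' using fun n => ((hs n).2.2.2.1.symm hT.1).trans (hs (n + 1)).2.2.2.1
  let f : X → X := fun x => if h : ∃ n, x ∈ (s n).2 then g h.choose x else x
  have f1 : ∀ {n x}, x ∈ (s n).2 → f x = g n x := fun {n x} h => by
    have : ∃ n, x ∈ (s n).2 := ⟨n, h⟩
    simp only [f, dif_pos this, uniq this.choose_spec h]
  have f2 : ∀ {x}, (¬ ∃ n, x ∈ (s n).2) → f x = x := fun h => dif_neg h
  have f3 : ∀ n, MapsTo f (s n).1 (s n).1 := fun n x hx => by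
    by_cases h : ∃ n, x ∈ (s n).2
    · obtain ⟨m, hm⟩ := h
      rw [f1 hm]; exact sub ((lt hx hm).trans m.lt_succ_self) ((hg' m).mapsTo hm)
    · rwa [f2 h]
  have fz : f z = z := f2 fun ⟨n, hn⟩ => lt_irrefl _ (lt (hs n).2.1 hn)
  refine ⟨f, fun x _ => ContinuousAt.continuousWithinAt ?_, ⟨?_, ?_, ?_⟩, fz⟩
  · by_cases h : ∃ n, x ∈ (s n).2
    · obtain ⟨n, hn⟩ := h
      have := (hs n).2.2.1.2.mem_nhds hn
      exact ((hg n).continuousAt this).congr (by filter_upwards [this] with y hy using (f1 hy).symm)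
    by_cases hx : x = z
    · subst hx
      rw [ContinuousAt, fz, hB.1.tendsto_right_iff]
      intro n _
      filter_upwards [(hs (n + 1)).1.2.mem_nhds (hs (n + 1)).2.1] with y hy
      exact (hs' n).2.2 (f3 (n + 1) hy)
    obtain ⟨n, -, hn⟩ := hB.1.mem_iff.1 (isOpen_compl_singleton.mem_nhds (Ne.symm hx))
    refine continuousAt_id.congr ?_
    filter_upwards [(hs (n + 1)).1.compl.2.mem_nhds fun h => hn ((hs' n).2.2 h) rfl,
      ((finite_le_nat (n + 1)).isClosed_biUnion fun m _ => (hs m).2.2.1.1).isOpen_compl.mem_nhds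
        fun h' => h (by obtain ⟨m, -, hm⟩ := mem_iUnion₂.1 h'; exact ⟨m, hm⟩)] with y h1 h2
    refine (f2 fun ⟨m, hm⟩ => ?_).symm
    by_cases hmn : m ≤ n + 1
    exacts [h2 (mem_iUnion₂.2 ⟨m, hmn, hm⟩), h1 (sub (not_le.1 hmn) hm)]
  · rintro x (hx | hx)
    · exact f3 0 hx
    · rw [f1 (n := 0) hx]; exact (hs' 0).2.1 ((hg' 0).mapsTo hx)
  · intro x _ y _ hxy
    by_cases hx : ∃ n, x ∈ (s n).2 <;> by_cases hy : ∃ n, y ∈ (s n).2
    · obtain ⟨n, hn⟩ := hx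
      obtain ⟨m, hm⟩ := hy
      rw [f1 hn, f1 hm] at hxy
      obtain rfl := Nat.succ_injective (uniq ((hg' n).mapsTo hn) (hxy ▸ (hg' m).mapsTo hm))
      exact (hg' n).injOn hn hm hxy
    · obtain ⟨n, hn⟩ := hx
      rw [f1 hn, f2 hy] at hxy
      exact (hy ⟨n + 1, hxy ▸ (hg' n).mapsTo hn⟩).elim
    · obtain ⟨n, hn⟩ := hy
      rw [f1 hn, f2 hx] at hxy
      exact (hx ⟨n + 1, hxy ▸ (hg' n).mapsTo hn⟩).elim
    · rwa [f2 hx, f2 hy] at hxy
  · intro y hy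
    by_cases h : ∃ n, y ∈ (s n).2
    · obtain ⟨n, hn⟩ := h
      obtain ⟨n, rfl⟩ := Nat.exists_eq_succ_of_ne_zero (Nat.ne_zero_of_lt (lt (m := 0) hy hn))
      obtain ⟨x, hx, rfl⟩ := (hg' n).surjOn hn
      refine ⟨x, ?_, f1 hx⟩
      rcases n.eq_zero_or_pos with rfl | h
      exacts [Or.inr hx, Or.inl (sub h hx)]
    · exact ⟨y, Or.inl hy, f2 h⟩

theorem exists_transfer {R R' T : Set X} {z z' : X} (hR : IsClopen R) (hR' : IsClopen R')
    (hT : IsClopen T) (hz : z ∈ R) (hz' : z' ∈ R') (hd : Disjoint R T) (hd' : Disjoint R' T)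
    (hd'' : Disjoint R R') (h : Abs T z) (h' : Abs T z') :
    ∃ u : X ≃ₜ X, (∀ x ∉ R ∪ T ∪ R', u x = x) ∧ BijOn u (R ∪ T) R ∧ BijOn u R' (R' ∪ T) ∧
      u z = z ∧ u z' = z' := by
  obtain ⟨f, h1, h2, h3⟩ := exists_absorb hR hT hz hd h
  obtain ⟨f', h4, h5, h6⟩ := exists_absorb hR' hT hz' hd' h'
  obtain ⟨g, h7, h8, h9, -⟩ := exists_inv_on (hR'.union hT).1 h4 h5
  obtain ⟨k, k1, k2, k3, k4⟩ := exists_glue_on (hR.union hT).2 hR'.2
    (disjoint_union_left.2 ⟨hd'', hd'.symm⟩) (disjoint_union_right.2 ⟨hd'', hd⟩) h1 h2 h7 h8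
  obtain ⟨u, u1, u2⟩ := exists_homeo_on ((hR.union hT).union hR') k1
    (by rwa [union_comm R', ← union_assoc] at k2)
  have e1 : EqOn f u (R ∪ T) := fun x hx => ((u1 x (Or.inl hx)).trans (k3 x hx)).symm
  have e2 : EqOn g u R' := fun x hx => ((u1 x (Or.inr hx)).trans (k4 x hx)).symm
  exact ⟨u, u2, h2.congr e1, h8.congr e2, (e1 (Or.inl hz)).symm.trans h3,
    (e2 hz').symm.trans (by simpa [h6] using h9 z' (Or.inl hz'))⟩

end Pool.Agent.Lib.MP_069d55_gt.K
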