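import Pool.Agent.Lib.MP_069d55_gt.KDisc

/-! Tame compact sets; extension of homeomorphisms between them. -/

open Set Topology Filter Metric

namespace Pool.Agent.Lib.MP_069d55_gt.K

variable {M : Type*} [MetricSpace M]

/-- Small sets. -/
def Sm (δ : ℝ) (D : Set M) : Prop := ∀ x ∈ D, ∀ y ∈ D, dist x y < δ

theorem Sm.mono {δ : ℝ} {D D' : Set M} (h : Sm δ D) (h' : D' ⊆ D) : Sm δ D' :=
  fun x hx y hy => h x (h' hx) y (h' hy)

theorem Sm.le {δ δ' : ℝ} {D : Set M} (h : Sm δ D) (h' : δ ≤ δ') : Sm δ' D :=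
  fun x hx y hy => (h x hx y hy).trans_le h'

/-- Sets that can be covered by finitely many disjoint small discs. -/
def Tame (C : Set M) : Prop := ∀ δ > 0, ∃ 𝒟 : Set (Set M), 𝒟.Finite ∧
  (∀ D ∈ 𝒟, IsDisc D ∧ Sm δ D) ∧ 𝒟.PairwiseDisjoint id ∧ ∀ x ∈ C, ∃ D ∈ 𝒟, x ∈ interior D

theorem Tame.mono {C C' : Set M} (h : Tame C) (h' : C' ⊆ C) : Tame C' := fun δ hδ =>
  let ⟨𝒟, h1, h2, h3, h4⟩ := h δ hδ
  ⟨𝒟, h1, h2, h3, fun x hx => h4 x (h' hx)⟩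

theorem Tame.image [CompactSpace M] {C : Set M} (h : Tame C) (k : M ≃ₜ M) : Tame (k '' C) := by
  intro δ hδ
  obtain ⟨η, hη, hk⟩ := Metric.uniformContinuous_iff.1
    (CompactSpace.uniformContinuous_of_continuous k.continuous) δ hδ
  obtain ⟨𝒟, h1, h2, h3, h4⟩ := h η hη
  refine ⟨(k '' ·) '' 𝒟, h1.image _, ?_, ?_, ?_⟩
  · rintro _ ⟨D, hD, rfl⟩
    refine ⟨(h2 D hD).1.image k, ?_⟩
    rintro _ ⟨x, hx, rfl⟩ _ ⟨y, hy, rfl⟩
    exact hk ((h2 D hD).2 x hx y hy)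
  · rintro _ ⟨D, hD, rfl⟩ _ ⟨D', hD', rfl⟩ hne
    exact (disjoint_image_iff k.injective).2 (h3 hD hD' fun h => hne (by rw [h]))
  · rintro _ ⟨x, hx, rfl⟩
    obtain ⟨D, hD, hx⟩ := h4 x hx
    exact ⟨_, mem_image_of_mem _ hD, by rw [← k.image_interior]; exact mem_image_of_mem _ hx⟩

theorem Tame.cover {C : Set M} (h : Tame C) (hC : IsCompact C) {ι : Type*} {O : ι → Set M}
    (hO : ∀ i, IsOpen (O i)) (hCO : C ⊆ ⋃ i, O i) {δ : ℝ} (hδ : 0 < δ) :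
    ∃ 𝒟 : Set (Set M), 𝒟.Finite ∧ (∀ D ∈ 𝒟, IsDisc D ∧ Sm δ D ∧ ∃ i, D ⊆ O i) ∧
      𝒟.PairwiseDisjoint id ∧ ∀ x ∈ C, ∃ D ∈ 𝒟, x ∈ interior D := by
  obtain ⟨η, hη, hL⟩ := lebesgue_number_lemma_of_metric hC hO hCO
  obtain ⟨𝒟, h1, h2, h3, h4⟩ := h (min δ η) (lt_min hδ hη)
  refine ⟨{D ∈ 𝒟 | (D ∩ C).Nonempty}, h1.subset (sep_subset _ _), ?_,
    h3.subset (sep_subset _ _), fun x hx => ?_⟩
  · rintro D ⟨hD, x, hxD, hxC⟩
    obtain ⟨i, hi⟩ := hL x hxC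
    exact ⟨(h2 D hD).1, (h2 D hD).2.le (min_le_left _ _), i, fun y hy =>
      hi (((h2 D hD).2 y hy x hxD).trans_le (min_le_right _ _))⟩
  · obtain ⟨D, hD, hxD⟩ := h4 x hx
    exact ⟨D, ⟨hD, x, interior_subset hxD, hx⟩, hxD⟩

theorem Tame.cover' {C : Set M} (h : Tame C) (hC : IsCompact C) {O : Set M}
    (hO : IsOpen O) (hCO : C ⊆ O) {δ : ℝ} (hδ : 0 < δ) :
    ∃ 𝒟 : Set (Set M), 𝒟.Finite ∧ (∀ D ∈ 𝒟, IsDisc D ∧ Sm δ D ∧ D ⊆ O) ∧
      𝒟.PairwiseDisjoint id ∧ ∀ x ∈ C, ∃ D ∈ 𝒟, x ∈ interior D := by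
  simpa using h.cover hC (O := fun _ : Unit => O) (fun _ => hO) (by simpa [iUnion_const]) hδ

theorem exists_disjoint_opens {ι : Type*} {s : Set ι} (hs : s.Finite) {C : ι → Set M}
    (hC : ∀ i ∈ s, IsClosed (C i)) (hd : s.PairwiseDisjoint C) :
    ∃ O : ι → Set M, (∀ i, IsOpen (O i) ∧ C i ⊆ O i) ∧ s.PairwiseDisjoint O := by
  obtain ⟨t, ht, ht'⟩ := Set.PairwiseDisjoint.exists_mem_filter (l := fun i => 𝓝ˢ (C i))
    (fun i hi j hj hij => disjoint_nhdsSet_nhdsSet (hC i hi) (hC j hj) (hd hi hj hij)) hs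
  exact ⟨fun i => interior (t i), fun i => ⟨isOpen_interior, subset_interior_iff_mem_nhdsSet.2
    (ht i)⟩, ht'.mono fun _ => interior_subset⟩

variable [Charted M]

theorem gather_tame {Ω : Set M} (hΩ : IsOpen Ω) (hc : IsPreconnected Ω)
    {ι : Type*} {s : Set ι} (hs : s.Finite) {C t : ι → Set M} (hC : ∀ i ∈ s, IsCompact (C i))
    (hT : ∀ i ∈ s, Tame (C i)) (hd : s.PairwiseDisjoint C) (hCΩ : ∀ i ∈ s, C i ⊆ Ω)
    (ht : ∀ i ∈ s, IsOpen (t i)) (htn : ∀ i ∈ s, (t i).Nonempty) (htΩ : ∀ i ∈ s, t i ⊆ Ω) :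
    ∃ k ∈ AA Ω, ∀ i ∈ s, MapsTo k (C i) (t i) := by
  obtain ⟨O, hO, hO'⟩ := exists_disjoint_opens hs (fun i hi => (hC i hi).isClosed) hd
  choose! 𝒟 h1 h2 h3 h4 using fun i hi => (hT i hi).cover' (hC i hi) (hΩ.inter (hO i).1)
    (subset_inter (hCΩ i hi) (hO i).2) one_pos
  obtain ⟨k, hk, hk'⟩ := gather_discs hΩ hc (s := {p : ι × Set M | p.1 ∈ s ∧ p.2 ∈ 𝒟 p.1})
    (D := Prod.snd) (t := fun p => t p.1)
    ((hs.biUnion fun i hi => (h1 i hi).image (Prod.mk i)).subset fun p hp =>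
      mem_iUnion₂.2 ⟨p.1, hp.1, p.2, hp.2, rfl⟩)
    (fun p hp => (h2 _ hp.1 _ hp.2).1) (by
      rintro ⟨i, D⟩ ⟨hi, hD⟩ ⟨j, D'⟩ ⟨hj, hD'⟩ hne
      by_cases hij : i = j
      · subst hij; exact h3 i hi hD hD' fun h => hne (Prod.ext rfl h)
      · exact (hO' hi hj hij).mono ((h2 i hi D hD).2.2.trans inter_subset_right)
          ((h2 j hj D' hD').2.2.trans inter_subset_right))
    (fun p hp => (h2 _ hp.1 _ hp.2).2.2.trans inter_subset_left) (fun p hp => ht _ hp.1)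
    (fun p hp => htn _ hp.1) fun p hp => htΩ _ hp.1
  refine ⟨k, hk, fun i hi x hx => ?_⟩
  obtain ⟨D, hD, hxD⟩ := h4 i hi x hx
  exact hk' (i, D) ⟨hi, hD⟩ (interior_subset hxD)

theorem gather_one {Ω C t : Set M} (hΩ : IsOpen Ω) (hc : IsPreconnected Ω) (hC : IsCompact C)
    (hT : Tame C) (hCΩ : C ⊆ Ω) (ht : IsOpen t) (htn : t.Nonempty) (htΩ : t ⊆ Ω) :
    ∃ k ∈ AA Ω, MapsTo k C t := by
  simpa using gather_tame hΩ hc (finite_singleton ()) (C := fun _ => C) (t := fun _ => t)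
    (fun _ _ => hC) (fun _ _ => hT) (pairwiseDisjoint_singleton _ _) (fun _ _ => hCΩ)
    (fun _ _ => ht) (fun _ _ => htn) fun _ _ => htΩ

omit [Charted M] in
theorem glue_open {ι : Type*} {s : Set ι} (hs : s.Finite) {k : ι → M ≃ₜ M} {Q : ι → Set M}
    (hd : s.PairwiseDisjoint Q) (hk : ∀ i ∈ s, k i ∈ AA (Q i)) :
    ∃ K ∈ AA (⋃ i ∈ s, Q i), (∀ i ∈ s, ∀ x ∈ Q i, K x = k i x) ∧
      ∀ i ∈ s, ∀ x, K x ∈ Q i ↔ x ∈ Q i := by
  obtain ⟨K, hK, h1, -⟩ := glue hs k Q (fun i hi x hx => (AA_mem_iff (hk i hi) x).2 hx)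
    (fun i hi j hj hij x hx => AA_fix (hk i hi) (Set.disjoint_right.1 (hd hi hj hij) hx))
    (AA (⋃ i ∈ s, Q i)) fun i hi => AA_mono (subset_biUnion_of_mem (u := Q) hi) (hk i hi)
  have h2 : ∀ i ∈ s, ∀ x ∈ Q i, K x ∈ Q i := fun i hi x hx => by
    rw [h1 i hi x hx]; exact (AA_mem_iff (hk i hi) x).2 hx
  refine ⟨K, hK, h1, fun i hi x => ⟨fun h => ?_, h2 i hi x⟩⟩
  obtain ⟨j, hj, hx⟩ := mem_iUnion₂.1 ((AA_mem_iff hK x).1 (mem_iUnion₂.2 ⟨i, hi, h⟩))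
  by_cases hij : i = j
  · rwa [hij]
  · exact (Set.disjoint_left.1 (hd hi hj hij) h (h2 j hj x hx)).elim

/-- The data of one stage of the extension. -/
structure Stage (C : Set M) (f : M → M) (δ : ℝ) (g : M ≃ₜ M) (𝒟 : Set (Set M)) : Prop where
  fin : 𝒟.Finite
  disc : ∀ D ∈ 𝒟, IsDisc D
  sm : ∀ D ∈ 𝒟, Sm δ D
  sm' : ∀ D ∈ 𝒟, Sm δ (g '' D)
  disj : 𝒟.PairwiseDisjoint id
  cov : ∀ x ∈ C, ∃ D ∈ 𝒟, x ∈ interior D
  map : ∀ D ∈ 𝒟, ∀ x ∈ C ∩ D, f x ∈ g '' interior D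

theorem ext_step_one {Ω C : Set M} {f : M → M} (g : M ≃ₜ M) (hΩ : IsOpen Ω)
    (hc : IsPreconnected Ω) (hC : IsCompact C) (hT : Tame C) (hf : ContinuousOn f C)
    (hi : InjOn f C) (hT' : Tame (f '' C)) (hCΩ : C ⊆ Ω) (hfΩ : f '' C ⊆ g '' Ω)
    {δ : ℝ} (hδ : 0 < δ) :
    ∃ k ∈ AA (g '' Ω), ∃ 𝒟, Stage C f δ (k * g) 𝒟 ∧ ∀ D ∈ 𝒟, D ⊆ Ω := by
  have hgΩ : IsOpen (g '' Ω) := g.isOpenMap _ hΩ
  obtain ⟨𝒟', a1, a2, a3, a4⟩ := hT'.cover' (hC.image_of_continuousOn hf) hgΩ hfΩ hδ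
  choose O hO hO' using fun D : 𝒟' => _root_.continuousOn_iff'.1 hf (interior D) isOpen_interior
  obtain ⟨𝒟, b1, b2, b3, b4⟩ := hT.cover hC (O := fun D => O D ∩ Ω) (fun D => (hO D).inter hΩ)
    (fun x hx => by
      obtain ⟨D, hD, h⟩ := a4 _ (mem_image_of_mem f hx)
      exact mem_iUnion.2 ⟨⟨D, hD⟩, ((hO' ⟨D, hD⟩).subset ⟨h, hx⟩).1, hCΩ hx⟩) hδ
  have : ∀ D ∈ 𝒟, ∃ D' ∈ 𝒟', D ⊆ Ω ∧ ∀ x ∈ C ∩ D, f x ∈ interior D' := fun D hD => by
    obtain ⟨-, -, D', h⟩ := b2 D hD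
    exact ⟨D', D'.2, h.trans inter_subset_right, fun x hx =>
      ((hO' D').symm.subset ⟨(h hx.2).1, hx.1⟩).1⟩
  choose! l l1 l2 l3 using this
  obtain ⟨k1, hk1, hk1'⟩ := gather_discs hgΩ (hc.image _ g.continuous.continuousOn) b1
    (D := fun D => g '' D) (t := fun D => interior (l D)) (fun D hD => (b2 D hD).1.image g)
    (fun D hD D' hD' h => (disjoint_image_iff g.injective).2 (b3 hD hD' h))
    (fun D hD => image_mono (l2 D hD)) (fun _ _ => isOpen_interior)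
    (fun D hD => (a2 _ (l1 D hD)).1.interior_nonempty)
    fun D hD => interior_subset.trans (a2 _ (l1 D hD)).2.2
  have hcD : ∀ D ∈ 𝒟, IsCompact (C ∩ D) := fun D hD => hC.inter (b2 D hD).1.isCompact
  choose! k2 hk2 hk2' using fun D' (hD' : D' ∈ 𝒟') => gather_tame isOpen_interior
    (a2 _ hD').1.preconn_interior (s := {D ∈ 𝒟 | l D = D'}) (b1.subset (sep_subset _ _))
    (C := fun D => f '' (C ∩ D)) (t := fun D => (k1 * g) '' interior D)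
    (fun D hD => (hcD D hD.1).image_of_continuousOn (hf.mono inter_subset_left))
    (fun D _ => hT'.mono (image_mono inter_subset_left))
    (fun D hD D₂ hD₂ h => Set.disjoint_left.2 (by
      rintro _ ⟨x, hx, rfl⟩ ⟨y, hy, hxy⟩
      exact Set.disjoint_left.1 (b3 hD.1 hD₂.1 h) hx.2 (hi hy.1 hx.1 hxy ▸ hy.2)))
    (fun D hD => by rintro _ ⟨x, hx, rfl⟩; exact hD.2 ▸ l3 D hD.1 x hx)
    (fun D _ => (k1 * g).isOpenMap _ isOpen_interior)
    (fun D hD => (b2 D hD.1).1.interior_nonempty.image _)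
    (fun D hD => by
      rintro _ ⟨x, hx, rfl⟩
      exact hD.2 ▸ hk1' D hD.1 (mem_image_of_mem _ (interior_subset hx)))
  obtain ⟨K, hK, hK1, hK2⟩ := glue_open a1 (a3.mono fun _ => interior_subset) hk2
  refine ⟨K⁻¹ * k1, mul_mem (inv_mem (AA_mono (iUnion₂_subset fun D hD =>
    interior_subset.trans (a2 D hD).2.2) hK)) hk1, 𝒟, ⟨b1, fun D hD => (b2 D hD).1,
    fun D hD => (b2 D hD).2.1, fun D hD => (a2 _ (l1 D hD)).2.1.mono ?_, b3, b4, ?_⟩, l2⟩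
  · rintro _ ⟨x, hx, rfl⟩
    refine interior_subset ((hK2 _ (l1 D hD) _).1 ?_)
    simpa using hk1' D hD (mem_image_of_mem _ hx)
  · intro D hD x hx
    obtain ⟨y, hy, hy'⟩ := hk2' _ (l1 D hD) D ⟨hD, rfl⟩ (mem_image_of_mem _ hx)
    refine ⟨y, hy, ?_⟩
    rw [← hK1 _ (l1 D hD) _ (l3 D hD x hx)] at hy'
    rw [mul_assoc, Homeomorph.mul_apply, hy']; simp

theorem ext_step {C : Set M} {f : M → M} (hC : IsCompact C) (hT : Tame C)
    (hf : ContinuousOn f C) (hi : InjOn f C) (hT' : Tame (f '' C)) {δ δ' : ℝ} (hδ : 0 < δ')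
    {g : M ≃ₜ M} {𝒟 : Set (Set M)} (h : Stage C f δ g 𝒟) :
    ∃ g' 𝒟', Stage C f δ' g' 𝒟' ∧ ⋃₀ 𝒟' ⊆ ⋃₀ 𝒟 ∧ (∀ x ∉ ⋃₀ 𝒟, g' x = g x) ∧
      (∀ x, dist (g x) (g' x) ≤ max δ 0) ∧ ∀ x, dist (g.symm x) (g'.symm x) ≤ max δ 0 := by
  choose! k hk 𝒟' hS hsub using fun D (hD : D ∈ 𝒟) => ext_step_one (C := C ∩ D) (f := f) g
    isOpen_interior (h.disc D hD).preconn_interior (hC.inter (h.disc D hD).isCompact)
    (hT.mono inter_subset_left) (hf.mono inter_subset_left) (hi.mono inter_subset_left)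
    (hT'.mono (image_mono inter_subset_left)) (fun x hx => by
      obtain ⟨D', hD', hx'⟩ := h.cov x hx.1
      rwa [h.disj.elim hD hD' (Set.not_disjoint_iff.2 ⟨x, hx.2, interior_subset hx'⟩)])
    (by rintro _ ⟨x, hx, rfl⟩; exact h.map D hD x hx) hδ
  have hdi : 𝒟.PairwiseDisjoint interior := h.disj.mono fun _ => interior_subset
  obtain ⟨K, hK, hK1, hK2⟩ := glue_open h.fin (Q := fun D => g '' interior D)
    (fun D hD D' hD' hne => (disjoint_image_iff g.injective).2 (hdi hD hD' hne)) hk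
  have e1 : ∀ D ∈ 𝒟, ∀ s ⊆ interior D, (K * g) '' s = (k D * g) '' s := fun D hD s hs =>
    image_congr fun x hx => hK1 D hD _ (mem_image_of_mem _ (hs hx))
  have e2 : ∀ x, (∀ D ∈ 𝒟, x ∉ interior D) → K (g x) = g x := fun x hx => AA_fix hK fun h => by
    obtain ⟨D, hD, h⟩ := mem_iUnion₂.1 h
    exact hx D hD (g.injective.mem_set_image.1 h)
  refine ⟨K * g, ⋃ D ∈ 𝒟, 𝒟' D, ⟨h.fin.biUnion fun D hD => (hS D hD).fin, ?_, ?_, ?_, ?_, ?_, ?_⟩,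
    ?_, fun x hx => e2 x fun D hD h => hx ⟨D, hD, interior_subset h⟩, fun x => ?_, fun y => ?_⟩
  · simp only [mem_iUnion]; rintro D' ⟨D, hD, hD'⟩; exact (hS D hD).disc D' hD'
  · simp only [mem_iUnion]; rintro D' ⟨D, hD, hD'⟩; exact (hS D hD).sm D' hD'
  · simp only [mem_iUnion]; rintro D' ⟨D, hD, hD'⟩
    rw [e1 D hD _ (hsub D hD D' hD')]; exact (hS D hD).sm' D' hD'
  · intro A hA B hB hne
    obtain ⟨D, hD, hA⟩ := mem_iUnion₂.1 hA
    obtain ⟨D', hD', hB⟩ := mem_iUnion₂.1 hB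
    by_cases hDD : D = D'
    · subst hDD; exact (hS D hD).disj hA hB hne
    · exact (hdi hD hD' hDD).mono (hsub D hD A hA) (hsub D' hD' B hB)
  · intro x hx
    obtain ⟨D, hD, hxD⟩ := h.cov x hx
    obtain ⟨D', hD', hx'⟩ := (hS D hD).cov x ⟨hx, interior_subset hxD⟩
    exact ⟨D', mem_iUnion₂.2 ⟨D, hD, hD'⟩, hx'⟩
  · simp only [mem_iUnion]; rintro D' ⟨D, hD, hD'⟩ x hx
    rw [e1 D hD _ (interior_subset.trans (hsub D hD D' hD'))]
    exact (hS D hD).map D' hD' x ⟨⟨hx.1, interior_subset (hsub D hD D' hD' hx.2)⟩, hx.2⟩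
  · rintro x ⟨D', hD', hx⟩
    obtain ⟨D, hD, hD'⟩ := mem_iUnion₂.1 hD'
    exact ⟨D, hD, interior_subset (hsub D hD D' hD' hx)⟩
  · by_cases hx : ∃ D ∈ 𝒟, x ∈ interior D
    · obtain ⟨D, hD, hx⟩ := hx
      have := mem_image_of_mem g hx
      exact ((h.sm' D hD) _ (image_mono interior_subset this) _
        (image_mono interior_subset ((hK2 D hD _).2 this))).le.trans (le_max_left _ _)
    · push Not at hx
      simp [e2 x hx]
  · obtain ⟨x, rfl⟩ := (K * g).surjective y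
    rw [Homeomorph.symm_apply_apply]
    by_cases hx : ∃ D ∈ 𝒟, x ∈ interior D
    · obtain ⟨D, hD, hx⟩ := hx
      obtain ⟨w, hw, hw'⟩ := (hK2 D hD _).2 (mem_image_of_mem g hx)
      rw [Homeomorph.mul_apply, ← hw', g.symm_apply_apply]
      exact (h.sm D hD _ (interior_subset hw) _ (interior_subset hx)).le.trans (le_max_left _ _)
    · push Not at hx
      simp [e2 x hx]

/-- A homeomorphism between tame compact sets in a connected open set extends with compact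
support. -/
theorem extend_tame [CompactSpace M] {Ω C : Set M} {f : M → M} (hΩ : IsOpen Ω)
    (hc : IsPreconnected Ω) (hC : IsCompact C) (hT : Tame C) (hf : ContinuousOn f C)
    (hi : InjOn f C) (hT' : Tame (f '' C)) (hCΩ : C ⊆ Ω) (hfΩ : f '' C ⊆ Ω) :
    ∃ k ∈ AA Ω, ∀ x ∈ C, k x = f x := by
  obtain ⟨k0, ⟨K0, hK0, hK0Ω, hk0⟩, 𝒟0, hS0, hsub0⟩ := ext_step_one 1 hΩ hc hC hT hf hi hT' hCΩ
    (by simpa using hfΩ) (δ := (1 / 2) ^ 0) (by positivity)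
  let P : ℕ → (M ≃ₜ M) × Set (Set M) → Prop := fun n p => Stage C f ((1 / 2) ^ n) p.1 p.2
  choose! F1 F2 hF using fun (n : ℕ) (p : (M ≃ₜ M) × Set (Set M)) (hp : P n p) =>
    ext_step hC hT hf hi hT' (δ' := (1 / 2) ^ (n + 1)) (by positivity) hp
  let s : ℕ → (M ≃ₜ M) × Set (Set M) := fun n =>
    Nat.rec (k0 * 1, 𝒟0) (fun n p => (F1 n p, F2 n p)) n
  have hs : ∀ n, P n (s n) := fun n => by
    induction n with
    | zero => exact hS0
    | succ n ih => exact (hF n _ ih).1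
  have hs' := fun n => (hF n _ (hs n)).2
  have hsub : ∀ n, ⋃₀ (s n).2 ⊆ ⋃₀ 𝒟0 := fun n => by
    induction n with
    | zero => exact Subset.rfl
    | succ n ih => exact (hs' n).1.trans ih
  have hm : ∀ n : ℕ, max ((1 / 2 : ℝ) ^ n) 0 = 1 * (1 / 2) ^ n := fun n => by
    rw [one_mul, max_eq_left (by positivity)]
  obtain ⟨G, hG⟩ := cauchySeq_tendsto_of_complete (u := fun n => ((s n).1 : C(M, M)))
    (cauchySeq_of_le_geometric (1 / 2) 1 (by norm_num) fun n =>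
      (ContinuousMap.dist_le (by positivity)).2 fun x => hm n ▸ (hs' n).2.2.1 x)
  obtain ⟨G', hG'⟩ := cauchySeq_tendsto_of_complete (u := fun n => ((s n).1.symm : C(M, M)))
    (cauchySeq_of_le_geometric (1 / 2) 1 (by norm_num) fun n =>
      (ContinuousMap.dist_le (by positivity)).2 fun x => hm n ▸ (hs' n).2.2.2 x)
  have inv : ∀ {A B : C(M, M)} {a b : ℕ → C(M, M)}, Tendsto a atTop (𝓝 A) →
      Tendsto b atTop (𝓝 B) → (∀ n x, a n (b n x) = x) → ∀ x, A (B x) = x := by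
    intro A B a b ha hb hab x
    have := (continuous_eval.tendsto (A, B x)).comp
      (ha.prodMk_nhds (((continuous_eval_const x).tendsto B).comp hb))
    exact tendsto_nhds_unique this (tendsto_const_nhds.congr fun n => (hab n x).symm)
  have hGx : ∀ x, Tendsto (fun n => (s n).1 x) atTop (𝓝 (G x)) := fun x =>
    ((continuous_eval_const x).tendsto G).comp hG
  refine ⟨⟨⟨G, G', inv hG' hG fun n x => by simp, inv hG hG' fun n x => by simp⟩,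
    G.continuous, G'.continuous⟩, ⟨K0 ∪ ⋃₀ 𝒟0, hK0.union (hS0.fin.isCompact_sUnion fun D hD =>
      (hS0.disc D hD).isCompact), union_subset (by simpa using hK0Ω) (sUnion_subset hsub0),
      fun x hx => ?_⟩, fun x hx => ?_⟩
  · rw [mem_union, not_or] at hx
    refine tendsto_nhds_unique (hGx x) (tendsto_const_nhds.congr fun n => ?_)
    induction n with
    | zero => exact (hk0 x hx.1).symm
    | succ n ih => exact ih.trans ((hs' n).2.1 x fun h => hx.2 (hsub n h)).symm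
  · refine tendsto_nhds_unique (hGx x) (tendsto_iff_dist_tendsto_zero.2 (squeeze_zero
      (fun _ => dist_nonneg) (fun n => ?_)
      (tendsto_pow_atTop_nhds_zero_of_lt_one (r := 1 / 2) (by norm_num) (by norm_num))))
    obtain ⟨D, hD, hxD⟩ := (hs n).cov x hx
    exact ((hs n).sm' D hD _ (mem_image_of_mem _ (interior_subset hxD)) _
      (image_mono interior_subset ((hs n).map D hD x ⟨hx, interior_subset hxD⟩))).le

end Pool.Agent.Lib.MP_069d55_gt.K
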