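import Pool.Agent.Lib.MP_069d55_gt.KPush

/-! Pushing a piece of ends that is absorbed at the point at infinity only. -/

open Set Topology Filter Metric

namespace Pool.Agent.Lib.MP_069d55_gt.K

theorem mem_SB {H c a b : ℝ} {A B : Set ℝ} {u : ℂ} : u ∈ SB H c (Ioo a b) A B ↔
    a < u.re ∧ u.re < b ∧ -H < u.im ∧ u.im < H ∧ (u.re ∈ A → u.im < -c) ∧ (u.re ∈ B → c < u.im) := by
  simp only [SB, SR, mem_inter_iff, mem_ofPred, mem_Ioo, abs_lt, not_and, not_le]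
  tauto

variable {M : Type*} [MetricSpace M] [CompactSpace M] [Charted M] {E : Set M}
  {y : M} {e : ℂ → M} {s : Set M} {D : M → Set M} {n : M → ℤ} {N : ℤ}
  {V 𝒩 : Subgroup (M ≃ₜ M)} [PreconnectedSpace M]

theorem Grid.far_core (G : Grid y e s D n N) (F : Fam E s D) (h : Ctx E V 𝒩)
    (hc : ∀ x ∈ E, ∃ i ∈ s, x ∈ D i) {p : M} (hp : p ∈ s \ {y}) {I : Set M} (hI : I ⊆ s \ {y})
    (hpI : ∀ i ∈ I, n p < n i)
    (hd : ∀ T : Set E, IsClopen T → (∀ x ∈ T, (x : M) ≠ y ∧ ∀ i ∈ I, (x : M) ∉ D i) → Dead T)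
    {L L2 : ℝ} (hL : 3 * (N : ℝ) + 3 ≤ L) (hL2 : L < L2)
    (hV : ∀ k ∈ Stab E, k ∈ AA (e '' {u | L < |u.re| ∨ L < |u.im|}) → k ∈ V) {W' : Set E}
    (hW' : IsClopen W') (hcp : Cp (Subtype.val ⁻¹' D p) W')
    (hW'' : ∀ x ∈ W', (x : M) ∈ e '' SB L2 0 (Ioo (-L2) (-L)) ∅ ∅) {c c' : M ≃ₜ M}
    (c1 : c ∈ AA (e '' Bx n (3 * N + 3) (-(3 * N + 3)) (3 * N + 3) ∅ ((s \ {y}) \ {p})))
    (c2 : c' ∈ AA (e '' Bx n (3 * N + 3) (-(3 * N + 3)) (3 * N + 3) ((s \ {y}) \ {p}) ∅))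
    (c4 : ∀ x ∈ D p, c' x = c x ∧ c x ∈ e '' Metric.ball (3 * N + 3 / 2 : ℝ) (1 / 2)) :
    c⁻¹ * c' ∈ V := by
  have := h.compactSpace
  have g1 := G.one_lt
  have inj := G.lc.emb.injective
  have bd : ∀ i ∈ s \ {y}, (0 : ℝ) ≤ n i ∧ (n i : ℝ) ≤ N := fun i hi => by
    exact_mod_cast G.bd i hi
  have hpI' : ∀ i ∈ I, 3 * (n p : ℝ) + 2 ≤ 3 * n i - 1 := fun i hi => by
    exact_mod_cast (by have := hpI i hi; omega : 3 * n p + 2 ≤ 3 * n i - 1)
  have hW := F.clopen hp.1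
  set W : Set E := Subtype.val ⁻¹' D p
  have hfI := (G.fin.subset sdiff_subset).subset hI
  obtain ⟨f, hf, hf'⟩ := hcp
  obtain ⟨p0, pN⟩ := bd p hp
  have hWW : Disjoint W W' := Set.disjoint_left.2 fun x hx hx' => by
    obtain ⟨u, hu, hux⟩ := G.ball p hp hx
    have := hW'' x hx'
    rw [← hux, inj.mem_set_image, mem_SB] at this
    linarith [(box_of_dist_lt hu).1, this.2.1]
  obtain ⟨τ, t1, t2⟩ := exists_swap hW hW' hWW hf hf'
  have t3 : ∀ x ∈ W, τ x ∈ W' := fun x hx => t1 x hx ▸ hf'.mapsTo hx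
  have t4 : ∀ x ∈ W', τ x ∈ W := fun x hx => ((fix_mem_iff t2 x).2 (Or.inr hx)).resolve_right
    fun h => by
      obtain ⟨t, ht, ht'⟩ := hf'.surjOn h
      exact Set.disjoint_left.1 hWW ht (τ.injective ((t1 t ht).trans ht') ▸ hx)
  have f1 := (DX_SB (H := L2) (c := L) (J := Ioo (-L2) L2) (by linarith) hL2 isOpen_Ioo
    (convex_Ioo _ _) (nonempty_Ioo.2 (by linarith)) isClosed_empty (isClosed_Icc (a := -L) (b := L))
    (by simp)).image G.lc.emb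
  have f2 := (DX_SB (H := L2) (c := L) (J := Ioo (-L2) L2) (by linarith) hL2 isOpen_Ioo
    (convex_Ioo _ _) (nonempty_Ioo.2 (by linarith)) (isClosed_Icc (a := -L) (b := L)) isClosed_empty
    (by simp)).image G.lc.emb
  have f3 := (DX_SB (H := L2) (c := 0) (J := Ioo L L2) le_rfl (by linarith) isOpen_Ioo
    (convex_Ioo _ _) (nonempty_Ioo.2 hL2) isClosed_empty isClosed_empty (by simp)).image G.lc.emb
  have i1 : ∀ {a b : ℝ}, (b ≤ -L ∨ L ≤ a) → -L2 ≤ a → b ≤ L2 → e '' SB L2 0 (Ioo a b) ∅ ∅ ⊆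
      e '' SB L2 L (Ioo (-L2) L2) ∅ (Icc (-L) L) ∩ e '' SB L2 L (Ioo (-L2) L2) (Icc (-L) L) ∅ :=
    fun {a b} h h1 h2 => by
      rintro _ ⟨u, hu, rfl⟩
      obtain ⟨a1, a2, a3, a4, -⟩ := mem_SB.1 hu
      have : u.re ∉ Icc (-L) L := fun h' => by rcases h with h | h <;> linarith [h'.1, h'.2]
      constructor <;> refine mem_image_of_mem _ (mem_SB.2 ⟨by linarith, by linarith, a3, a4, ?_⟩) <;>
        simp [this]
  have nE : ∀ {W : Set E} {x : M}, x ∉ E → x ∉ Subtype.val '' W := fun h h' =>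
    h (Subtype.coe_image_subset _ _ h')
  have nW : ∀ {W : Set E} {x : E}, x ∈ W → (x : M) ∉ Subtype.val '' Wᶜ := fun h h' =>
    Subtype.val_injective.mem_set_image.1 h' h
  obtain ⟨o1, o2⟩ := h.region f1.1 f1.preconn hW'.2
  obtain ⟨o3, o4⟩ := h.region f2.1 f2.preconn hW'.2
  obtain ⟨k, k1, k2⟩ := gather_one o1 o2 (h.isCompact_val hW'.1)
    (h.tame.mono (Subtype.coe_image_subset _ _)) (by
      rintro _ ⟨x, hx, rfl⟩; exact ⟨(i1 (Or.inl le_rfl) le_rfl (by linarith) (hW'' x hx)).1, nW hx⟩)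
    (f3.1.sdiff h.closed) (h.nd _ f3.1 ⟨_, mem_image_of_mem e (x := (((L + L2) / 2 : ℝ) : ℂ))
      (mem_SB.2 (by simp; refine ⟨?_, ?_, ?_⟩ <;> linarith))⟩)
    fun x hx => ⟨(i1 (Or.inr le_rfl) (by linarith) le_rfl hx.1).1, nE hx.2⟩
  replace k2 : ∀ x ∈ W', k x ∈ e '' SB L2 0 (Ioo L L2) ∅ ∅ \ E := fun x hx =>
    k2 (mem_image_of_mem _ hx)
  obtain ⟨k', k3, k4⟩ := h.realize o3 o4 hW'.1 continuousOn_id (injOn_id _) 1 k
    (fun x hx => ⟨(i1 (Or.inl le_rfl) le_rfl (by linarith) (hW'' x hx)).2, nW hx⟩)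
    fun x hx => ⟨(i1 (Or.inr le_rfl) (by linarith) le_rfl (k2 x hx).1).2, nE (k2 x hx).2⟩
  have r1 := (DX_Bx (n := n) (H := L2) (α := -L2) (β := 3 * n p + 2) (by linarith) (by linarith)
    finite_empty finite_empty (by simp)).image G.lc.emb
  have r2 := (DX_Bx (n := n) (H := L2) (α := 3 * N + 1) (β := L2) (by linarith) (by linarith)
    finite_empty finite_empty (by simp)).image G.lc.emb
  have i2 : e '' SB L2 0 (Ioo L L2) ∅ ∅ ⊆ e '' Bx n L2 (3 * N + 1) L2 ∅ ∅ :=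
    image_mono fun u hu => by
      obtain ⟨a1, a2, a3, a4, -⟩ := mem_SB.1 hu
      exact mem_Bx.2 ⟨by linarith, a2, a3, a4, by simp⟩
  have i3 : ∀ x ∈ W, c x ∈ e '' Bx n L2 (3 * N + 1) L2 ∅ ∅ \ E := fun x hx =>
    ⟨image_mono (ball_subset_Bx (by linarith) le_rfl (by linarith)) (c4 x hx).2, fun h => by
      obtain ⟨i, hi, h⟩ := hc _ h
      exact G.avoid_all (α := 3 * N + 1) (β := 3 * N + 3) (A := ∅) (B := ∅) (by linarith) le_rfl hi
        (fun h => Or.inr (Or.inl (by linarith [(bd i ⟨hi, h⟩).2]))) h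
        (image_mono (ball_subset_Bx g1 le_rfl (by linarith)) (c4 x hx).2)⟩
  obtain ⟨b, b1, b2⟩ := h.realize (r2.1.sdiff h.closed) (h.ns E Subset.rfl h.closed _ r2.1
    r2.preconn) hW.1 τ.continuous.continuousOn τ.injective.injOn c k i3
    fun x hx => ⟨i2 (k2 _ (t3 x hx)).1, (k2 _ (t3 x hx)).2⟩
  obtain ⟨o5, o6⟩ := h.region r1.1 r1.preconn (hW.union hW').2
  obtain ⟨b', b3, b4⟩ := h.realize o5 o6 hW'.1 τ.continuous.continuousOn τ.injective.injOn 1 1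
    (fun x hx => ⟨image_mono (fun u hu => by
      obtain ⟨a1, a2, a3, a4, -⟩ := mem_SB.1 hu
      exact mem_Bx.2 ⟨a1, by linarith, a3, a4, by simp⟩) (hW'' x hx), nW (Or.inr hx)⟩)
    fun x hx => ⟨G.contain hp (by linarith) (by linarith) (by linarith) (by simp) (by simp)
      (t4 x hx), nW (Or.inl (t4 x hx))⟩
  have st : ∀ a a' : M ≃ₜ M, (∀ x ∈ W, a x = c x) → (∀ x : E, x ∉ W → a x = x) →
      (∀ x ∈ W', a' x = k x) → (∀ x : E, x ∉ W' → a' x = x) → a'⁻¹ * (b' * b * a) ∈ Stab E :=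
    fun a a' a1 a2 a3 a4 => mem_Stab_of_lift (φ := τ) fun x => by
      simp only [Homeomorph.mul_apply, Homeomorph.inv_apply, Homeomorph.symm_apply_eq]
      by_cases hx : x ∈ W
      · rw [a1 x hx, b2 x hx, a3 _ (t3 x hx)]
        refine AA_fix b3 fun h => ?_
        obtain ⟨u, hu, hu'⟩ := (k2 _ (t3 x hx)).1
        rw [← hu', Set.mem_sdiff, inj.mem_set_image] at h
        linarith [(mem_Bx.1 h.1).2.1, (mem_SB.1 hu).1]
      rw [a2 x hx, AA_fix b1 fun h => h.2 x.2]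
      by_cases hx' : x ∈ W'
      · rw [a4 _ (Set.disjoint_left.1 hWW (t4 x hx'))]; exact b4 x hx'
      · rw [t2 x fun h => h.elim hx hx', a4 x hx']
        exact AA_fix b3 fun h => h.2 ⟨x, fun h => h.elim hx hx', rfl⟩
  have cfix : ∀ x : E, x ∉ W → c x = x ∧ c' x = x := fun x hx => by
    obtain ⟨i, hi, hxi⟩ := hc x x.2
    have : i ≠ p := fun h => hx (show (x : M) ∈ D p from h ▸ hxi)
    exact ⟨AA_fix c1 (G.avoid_all le_rfl le_rfl hi (fun h => by simp [hi, h, this]) hxi),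
      AA_fix c2 (G.avoid_all le_rfl le_rfl hi (fun h => by simp [hi, h, this]) hxi)⟩
  have kfix : ∀ x : E, x ∉ W' → k x = x ∧ k' x = x := fun x hx =>
    ⟨AA_fix k1 fun h => h.2 ⟨x, hx, rfl⟩, AA_fix k3 fun h => h.2 ⟨x, hx, rfl⟩⟩
  have dead : ∀ {A B : Set M}, A ∪ B = I → Disjoint A B → ∀ {a a' : M ≃ₜ M},
      a ∈ AA (e '' Bx n L2 (-L2) L2 A B) → a' ∈ AA (e '' Bx n L2 (-L2) L2 A B) →
      a'⁻¹ * (b' * b * a) ∈ Stab E → a'⁻¹ * (b' * b * a) ∈ V := fun {A B} hAB hAB' a a' a1 a2 a3 => by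
    have hA : A ⊆ I := hAB ▸ subset_union_left
    have hB : B ⊆ I := hAB ▸ subset_union_right
    refine h.N_le (h.dead_DX ((DX_Bx (by linarith) (by linarith) (hfI.subset hA) (hfI.subset hB)
      fun i hi j hj hn => Set.disjoint_left.1 hAB' hi (G.inj (hI (hA hi)) (hI (hB hj)) hn ▸ hj)).image
      G.lc.emb) (fun T hT hT' => hd T hT fun x hx => ⟨?_, fun i hi h =>
        G.avoid (hI hi) (Or.inl (hAB ▸ hi)) h (hT' x hx)⟩) a3 (mul_mem (inv_mem a2)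
      (mul_mem (mul_mem (AA_mono (sdiff_subset.trans (image_mono (Bx_mono le_rfl le_rfl (by linarith)
        (fun i hi => Or.inr (Or.inr (hpI' i (hA hi)))) fun i hi => Or.inr (Or.inr (hpI' i (hB hi))))))
        b3) (AA_mono (sdiff_subset.trans (image_mono (Bx_mono le_rfl (by linarith) le_rfl
        (fun i hi => Or.inr (Or.inl (by linarith [(bd i (hI (hA hi))).2])))
        fun i hi => Or.inr (Or.inl (by linarith [(bd i (hI (hB hi))).2]))))) b1)) a1)))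
    obtain ⟨u, -, hu⟩ := hT' x hx
    exact hu ▸ G.lc.ne u
  have hIS : ∀ i ∈ I, i ∈ (s \ {y}) \ {p} := fun i hi =>
    ⟨hI hi, fun h : i = p => lt_irrefl _ (h ▸ hpI i hi)⟩
  have d1 := dead (empty_union I) (by simp) (AA_mono (image_mono (Bx_mono (by linarith)
    (by linarith) (by linarith) (by simp) fun i hi => Or.inl (hIS i hi))) c1)
    (AA_mono (sdiff_subset.trans (image_mono fun u hu => by
      obtain ⟨a1, a2, a3, a4, -, a6⟩ := mem_SB.1 hu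
      exact mem_Bx.2 ⟨a1, a2, a3, a4, by simp, fun i hi h h' => by
        linarith [a6 ⟨by linarith [bd i (hI hi)], by linarith [bd i (hI hi)]⟩]⟩)) k1)
    (st c k (fun _ _ => rfl) (fun x hx => (cfix x hx).1) (fun _ _ => rfl) fun x hx => (kfix x hx).1)
  have d2 := dead (union_empty I) (by simp) (AA_mono (image_mono (Bx_mono (by linarith)
    (by linarith) (by linarith) (fun i hi => Or.inl (hIS i hi)) (by simp))) c2)
    (AA_mono (sdiff_subset.trans (image_mono fun u hu => by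
      obtain ⟨a1, a2, a3, a4, a5, -⟩ := mem_SB.1 hu
      exact mem_Bx.2 ⟨a1, a2, a3, a4, fun i hi h h' => by
        linarith [a5 ⟨by linarith [bd i (hI hi)], by linarith [bd i (hI hi)]⟩], by simp⟩)) k3)
    (st c' k' (fun x hx => (c4 x hx).1) (fun x hx => (cfix x hx).2) k4 fun x hx => (kfix x hx).2)
  have d3 : k⁻¹ * k' ∈ V := hV _ (mem_Stab_of_lift (φ := 1) fun x => by
      rw [Homeomorph.mul_apply, Homeomorph.inv_apply, Homeomorph.symm_apply_eq]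
      by_cases hx : x ∈ W'
      · exact k4 x hx
      · exact (kfix x hx).2.trans (kfix x hx).1.symm)
    (mul_mem (inv_mem (AA_mono (sdiff_subset.trans (image_mono fun u hu => by
      obtain ⟨-, -, -, -, -, a6⟩ := mem_SB.1 hu
      by_contra hc
      simp only [mem_ofPred, not_or, not_lt, abs_le] at hc
      linarith [a6 hc.1, hc.2.2])) k1)) (AA_mono (sdiff_subset.trans (image_mono fun u hu => by
      obtain ⟨-, -, -, -, a5, -⟩ := mem_SB.1 hu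
      by_contra hc
      simp only [mem_ofPred, not_or, not_lt, abs_le] at hc
      linarith [a5 hc.1, hc.2.1])) k3))
  convert mul_mem (mul_mem (inv_mem d1) d3) d2 using 1
  group

omit [Charted M] [PreconnectedSpace M] in
theorem LC.exists_far (he : LC y e) {U : Set M} (hU : U ∈ 𝓝 y) :
    ∃ L, ∀ u, L < ‖u‖ → e u ∈ U := by
  obtain ⟨L, hL⟩ := (he.emb.isInducing.isCompact_preimage' (K := (interior U)ᶜ)
    isOpen_interior.isClosed_compl.isCompact (he.range_eq ▸ compl_subset_compl.2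
      (singleton_subset_iff.2 (mem_interior_iff_mem_nhds.2 hU)))).isBounded.exists_norm_le
  exact ⟨L, fun u hu => interior_subset (not_not.1 fun h => hu.not_ge (hL u h))⟩

theorem Grid.push_private (G : Grid y e s D n N) (F : Fam E s D) (h : Ctx E V 𝒩)
    (hc : ∀ x ∈ E, ∃ i ∈ s, x ∈ D i) {δ : ℝ} (C : Cov E s (fun i => interior (D i)) id δ)
    (hV : ∀ g ∈ Stab E, (∀ x, dist (g x) x < 2 * δ) → g ∈ V) (hy : y ∈ s) {P : Set M}
    (hP : P ⊆ s \ {y}) {p0 : ℤ} (h1 : ∀ i ∈ P, n i < p0) (h2 : ∀ i ∈ (s \ {y}) \ P, p0 ≤ n i)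
    (h3 : p0 ≤ N + 1) (hd : ∀ T : Set E, IsClopen T →
      (∀ x ∈ T, (x : M) ≠ y ∧ ∀ i ∈ (s \ {y}) \ P, (x : M) ∉ D i) → Dead T)
    {Z : Set M} (hZ : Z ⊆ s) (hyZ : y ∈ Z) (hZI : (Z ∩ ((s \ {y}) \ P)).Subsingleton) {p : M}
    (hp : p ∈ P) (hpZ : p ∉ Z) (ha : Abs (Subtype.val ⁻¹' D p) (⟨y, F.sub hy⟩ : E))
    {Λ : Subgroup (M ≃ₜ M)} (hΛ : Iso0 (insert p Z) ≤ Λ) (hΛ' : C.GV h hV ≤ Λ) {γ : M ≃ₜ M}
    (hγ : γ ∈ Iso0 Z) (hγp : γ p = p) : γ ∈ Λ := by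
  have g1 := G.one_lt
  obtain ⟨L0, hL0⟩ := G.lc.exists_far (isOpen_interior.mem_nhds (C.memQ y hy))
  set L := max L0 (6 * N + 6) with hL
  have l1 : L0 ≤ L := le_max_left _ _
  have l2 : 6 * (N : ℝ) + 6 ≤ L := le_max_right _ _
  have hB := (isDisc_closedBall G.lc.emb 0 (r := 2 * L) (by linarith)).1
  obtain ⟨W', w1, w2, w3, w4⟩ := ha _ (continuous_subtype_val.continuousAt
    (hB.isCompact.isClosed.isOpen_compl.mem_nhds fun ⟨u, _, h⟩ => G.lc.ne u h))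
  obtain ⟨L1, hL1⟩ := (G.lc.emb.isInducing.isCompact_preimage' (h.isCompact_val w3.1) (by
    rintro _ ⟨x, hx, rfl⟩
    exact G.lc.range_eq ▸ fun h => w2 ((Subtype.ext h : x = ⟨y, F.sub hy⟩) ▸ hx))).isBounded.exists_norm_le
  set L2 := max L1 L + 1 with hL2
  have l3 : L1 < L2 := by linarith [le_max_left L1 L]
  have l4 : L < L2 := by linarith [le_max_right L1 L]
  let far := SB L2 L (Ioo (-L2) L2) ∅ (Icc (-L) L) ∪ SB L2 L (Ioo (-L2) L2) (Icc (-L) L) ∅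
  have f1 := DX_SB (H := L2) (c := L) (J := Ioo (-L2) L2) (by linarith) l4 isOpen_Ioo
    (convex_Ioo _ _) (nonempty_Ioo.2 (by linarith)) isClosed_empty (isClosed_Icc (a := -L) (b := L))
    (by simp)
  have f2 := DX_SB (H := L2) (c := L) (J := Ioo (-L2) L2) (by linarith) l4 isOpen_Ioo
    (convex_Ioo _ _) (nonempty_Ioo.2 (by linarith)) (isClosed_Icc (a := -L) (b := L)) isClosed_empty
    (by simp)
  have f3 := DX_SB (H := L2) (c := 0) (J := Ioo (-L2) (-L)) le_rfl (by linarith) isOpen_Ioo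
    (convex_Ioo _ _) (nonempty_Ioo.2 (by linarith)) isClosed_empty isClosed_empty (by simp)
  have f4 : SB L2 0 (Ioo (-L2) (-L)) ∅ ∅ ⊆
      SB L2 L (Ioo (-L2) L2) ∅ (Icc (-L) L) ∩ SB L2 L (Ioo (-L2) L2) (Icc (-L) L) ∅ := fun u hu => by
    obtain ⟨a1, a2, a3, a4, -⟩ := mem_SB.1 hu
    have : u.re ∉ Icc (-L) L := fun h' => by linarith [h'.1]
    constructor <;> refine mem_SB.2 ⟨a1, by linarith, a3, a4, ?_⟩ <;> simp [this]
  have f5 : (SB L2 0 (Ioo (-L2) (-L)) ∅ ∅).Nonempty := ⟨((-(L + L2) / 2 : ℝ) : ℂ),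
    mem_SB.2 (by simp; refine ⟨?_, ?_, ?_⟩ <;> linarith)⟩
  have f6 : ∀ u ∈ far, L < |u.re| ∨ L < |u.im| := fun u hu => by
    by_contra hc
    simp only [not_or, not_lt, abs_le] at hc
    rcases hu with hu | hu
    exacts [by linarith [(mem_SB.1 hu).2.2.2.2.2 hc.1, hc.2.2],
      by linarith [(mem_SB.1 hu).2.2.2.2.1 hc.1, hc.2.1]]
  have f7 : ∀ u : ℂ, L < |u.re| ∨ L < |u.im| → L < ‖u‖ := fun u hu =>
    hu.elim (·.trans_le (Complex.abs_re_le_norm u)) (·.trans_le (Complex.abs_im_le_norm u))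
  obtain ⟨o1, o2⟩ := h.region (G.lc.emb.isOpenMap far (f1.1.union f2.1))
    ((IsPreconnected.union' (f5.mono f4) f1.preconn f2.preconn).image _
      G.lc.emb.continuous.continuousOn) w3.2
  obtain ⟨x0, hx0, hx0'⟩ := h.nd _ (G.lc.emb.isOpenMap _ f3.1) (f5.image e)
  obtain ⟨k, k1, k2⟩ := gather_one o1 o2 (h.isCompact_val w3.1)
    (h.tame.mono (Subtype.coe_image_subset _ _)) (by
      rintro _ ⟨x, hx, rfl⟩
      refine ⟨?_, fun h => Subtype.val_injective.mem_set_image.1 h hx⟩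
      obtain ⟨u, hu⟩ : (x : M) ∈ range e := G.lc.range_eq ▸ fun h => w2 ((Subtype.ext h : x = ⟨y, F.sub hy⟩) ▸ hx)
      have a1 := hL1 u (by rw [mem_preimage, hu]; exact mem_image_of_mem _ hx)
      have a2 : 2 * L < ‖u‖ := not_le.1 fun h => w1 hx ⟨u, by simpa using h, hu⟩
      have a3 := abs_le.1 ((Complex.abs_re_le_norm u).trans a1)
      have a4 := abs_le.1 ((Complex.abs_im_le_norm u).trans a1)
      have a5 := Complex.norm_le_abs_re_add_abs_im u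
      refine ⟨u, ?_, hu⟩
      rcases le_total u.im 0 with h0 | h0
      · refine Or.inr (mem_SB.2 ⟨by linarith, by linarith, by linarith, by linarith, fun h => ?_,
          by simp⟩)
        linarith [abs_le.2 h, abs_of_nonpos h0]
      · refine Or.inl (mem_SB.2 ⟨by linarith, by linarith, by linarith, by linarith, by simp,
          fun h => ?_⟩)
        linarith [abs_le.2 h, abs_of_nonneg h0])
    (o1.inter (G.lc.emb.isOpenMap _ f3.1)) ⟨x0, ⟨image_mono (fun u hu => Or.inl (f4 hu).1) hx0,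
      fun h => hx0' (Subtype.coe_image_subset _ _ h)⟩, hx0⟩ inter_subset_left
  have k3 := inv_mem (AA_mono sdiff_subset k1)
  have ke : ∀ u, ‖u‖ ≤ L → k.symm (e u) = e u := fun u hu => AA_fix k3 fun h =>
    (f7 u (f6 u (G.lc.emb.injective.mem_set_image.1 h))).not_ge hu
  have sm : ∀ i ∈ s \ {y}, ∀ u ∈ Metric.ball ((3 * n i : ℝ) : ℂ) 1, ‖u‖ ≤ L := fun i hi u hu => by
    obtain ⟨a1, a2, a3, a4⟩ := box_of_dist_lt hu
    have b1 : (0 : ℝ) ≤ n i ∧ (n i : ℝ) ≤ N := by exact_mod_cast G.bd i hi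
    have : |u.re| ≤ 3 * N + 1 := abs_le.2 ⟨by linarith, by linarith⟩
    have : |u.im| ≤ 1 := abs_le.2 ⟨by linarith, by linarith⟩
    linarith [Complex.norm_le_abs_re_add_abs_im u]
  have G2 : Grid y (k.symm ∘ e) s D n N := ⟨G.lc.comp (AA_fix k3 fun ⟨u, _, h⟩ => G.lc.ne u h),
    G.fin, G.pos, G.inj, G.bd, fun i hi => by
      rw [Function.comp_apply, ke _ (sm i hi _ (mem_ball_self one_pos)), G.ctr i hi],
    fun i hi => (G.ball i hi).trans (image_congr fun u hu => (ke u (sm i hi u hu)).symm).subset,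
    fun u hu => by
      by_contra hc
      rw [Function.comp_apply, ke u (by linarith)] at hu
      exact hc (G.far u hu)⟩
  have hps := hP hp
  have np : (0 : ℝ) ≤ n p ∧ (n p : ℝ) ≤ N := by exact_mod_cast G.bd p hps
  refine G2.push hZ hyZ ⟨hps.1, hpZ⟩ hΛ (fun m m1 m2 => ?_) hγ hγp
  by_cases hm : ∃ i ∈ Z ∩ ((s \ {y}) \ P), n i ≤ m
  · obtain ⟨i0, hi0, hi0'⟩ := hm
    obtain ⟨c, c1, c', c2, c3, c4⟩ := G2.routes (α := -(3 * N + 3)) (β := 3 * N + 3) (m := N)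
      (S := (s \ {y}) \ {p}) hps sdiff_subset (fun h => h.2 rfl) (by linarith) (by linarith)
      (by linarith) (by linarith)
    have hf := G2.fix_all (S := (s \ {y}) \ {p}) le_rfl le_rfl (fun i hi h => Or.inl ⟨hi, h⟩) c1 c2 fun x hx => (c4 x hx).1
    refine ⟨N, fun i hi => iff_of_true ?_ (G.bd i ⟨hZ hi.1, hi.2⟩).2, _, _, _, (s \ {y}) \ {p}, fun i hi =>
      Or.inl ⟨⟨hZ hi.1, hi.2⟩, fun h : i = p => hpZ (h ▸ hi.1)⟩, c, c1, c', c2, c3,
      (c4 p (F.mem p hps.1)).1, hΛ' ((F.mem_GV_iff hc C h hV hf).2 (G2.far_core F h hc hps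
        sdiff_subset (fun i hi => (h1 p hp).trans_le (h2 i hi)) hd (L := L) (by linarith) l4
        (fun a a1 a2 => hV a a1 fun x => ?_) w3 w4 (fun x hx => ?_) c1 c2 c4))⟩
    · by_cases hiP : i ∈ P
      · linarith [h1 i hiP, h2 i0 hi0.2]
      · rwa [hZI (show i ∈ Z ∩ ((s \ {y}) \ P) from ⟨hi.1, ⟨hZ hi.1, hi.2⟩, hiP⟩) hi0]
    · refine (near_of_sm C.pos (C.sm y hy) (fun x hx => AA_fix a2 fun hx' => ?_) x).trans (by linarith [C.pos])
      obtain ⟨u, hu, rfl⟩ := hx'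
      by_cases hu' : e u ∈ e '' far
      · obtain ⟨v, hv, hv'⟩ := (AA_mem_iff k3 _).2 hu'
        exact hx (hv' ▸ hL0 v (l1.trans_lt (f7 v (f6 v hv))) :)
      · exact hx ((AA_fix k3 hu').symm ▸ hL0 u (l1.trans_lt (f7 u hu)) :)
    · obtain ⟨u, hu, hu'⟩ := (k2 (mem_image_of_mem _ hx)).2
      exact ⟨u, hu, by simp [hu']⟩
  · push Not at hm
    have a1 : ((min m (p0 - 1) : ℤ) : ℝ) ≤ p0 - 1 := by exact_mod_cast min_le_right _ _
    have a2 : (-1 : ℝ) ≤ (min m (p0 - 1) : ℤ) := by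
      exact_mod_cast (by have := h1 p hp; have := (G.bd p hps).1; omega : -1 ≤ min m (p0 - 1))
    have a3 : (n p : ℝ) + 1 ≤ p0 := by exact_mod_cast h1 p hp
    have a4 : (p0 : ℝ) ≤ N + 1 := by exact_mod_cast h3
    have a5 : ∀ i ∈ s \ {y}, i ∉ P → 3 * (p0 : ℝ) - 1 ≤ 3 * n i - 1 := fun i hi h => by
      have : (p0 : ℝ) ≤ n i := by exact_mod_cast h2 i ⟨hi, h⟩
      linarith
    obtain ⟨c, c1, c', c2, c3, c4⟩ := G2.routes (α := -(3 * N + 3)) (β := 3 * p0 - 1)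
      (m := min m (p0 - 1)) (S := P \ {p}) hps (sdiff_subset.trans hP) (fun h => h.2 rfl)
      (by linarith) (by linarith) (by linarith) (by linarith)
    have a6 : ∀ i ∈ s \ {y}, i ≠ p → i ∈ P \ {p} ∨ 3 * (n i : ℝ) + 1 ≤ -(3 * N + 3) ∨
        3 * (p0 : ℝ) - 1 ≤ 3 * n i - 1 := fun i hi h =>
      (em (i ∈ P)).imp (fun h' => ⟨h', h⟩) fun h' => Or.inr (a5 i hi h')
    have hf := G2.fix_all le_rfl (by linarith) a6 c1 c2 fun x hx => (c4 x hx).1
    refine ⟨min m (p0 - 1), fun i hi => ?_, _, _, _, _, fun i hi => a6 i ⟨hZ hi.1, hi.2⟩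
      fun h => hpZ (h ▸ hi.1), c, c1, c', c2, c3, (c4 p (F.mem p hps.1)).1,
      hΛ' ((F.mem_GV_iff hc C h hV hf).2 (h.N_le (G2.dead h hc (α := -(3 * N + 3))
        (β := 3 * p0 - 1) (A := ∅) (B := ∅) (P := P) le_rfl (by linarith) (by linarith) (by simp)
        (by simp) (by simp) (fun i hi => (em _).imp_right fun h => Or.inr (Or.inr (a5 i hi h)))
        (fun T hT hT' => hd T hT fun x hx => ?_) (stab_of_fix_all hc hf)
        (mul_mem (inv_mem (AA_mono (image_mono (Bx_mono le_rfl le_rfl le_rfl (by simp)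
          (by simp))) c1)) (AA_mono (image_mono (Bx_mono le_rfl le_rfl le_rfl (by simp)
          (by simp))) c2)))))⟩
    · by_cases hiP : i ∈ P
      · have := h1 i hiP; omega
      · have := hm i ⟨hi.1, ⟨hZ hi.1, hi.2⟩, hiP⟩; omega
    · obtain ⟨i, hi, hxi⟩ := hT' x hx
      obtain ⟨u, -, hu⟩ := G.ball i hi.2 hxi
      exact ⟨hu ▸ G.lc.ne u, fun j hj => Set.disjoint_left.1
        (F.disj hi.2.1 hj.1.1 fun h => hj.2 (h ▸ hi.1)) hxi⟩

end Pool.Agent.Lib.MP_069d55_gt.K
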