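import Pool.Agent.Lib.MP_069d55_gt.KCtx

/-! The open subgroup of the stabiliser of finitely many centres attached to `V`. -/

open Set Topology Filter Metric

namespace Pool.Agent.Lib.MP_069d55_gt.K

variable {M : Type*} [MetricSpace M] {ι : Type*}

/-- A cover of `E` by finitely many small disjoint connected open sets with centres. -/
structure Cov (E : Set M) (s : Set ι) (Q : ι → Set M) (z : ι → M) (δ : ℝ) : Prop where
  pos : 0 < δ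
  fin : s.Finite
  op : ∀ i ∈ s, IsOpen (Q i)
  conn : ∀ i ∈ s, IsPreconnected (Q i)
  disj : s.PairwiseDisjoint Q
  cov : ∀ x ∈ E, ∃ i ∈ s, x ∈ Q i
  memE : ∀ i ∈ s, z i ∈ E
  memQ : ∀ i ∈ s, z i ∈ Q i
  sm : ∀ i ∈ s, Sm δ (Q i)

/-- Homeomorphisms supported in the sets of the cover. -/
def SS (s : Set ι) (Q : ι → Set M) : Subgroup (M ≃ₜ M) where
  carrier := {k | (∀ x ∉ ⋃ i ∈ s, Q i, k x = x) ∧ ∀ i ∈ s, ∀ x, k x ∈ Q i ↔ x ∈ Q i}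
  one_mem' := ⟨fun _ _ => rfl, fun _ _ _ => Iff.rfl⟩
  mul_mem' := fun {a b} ha hb => ⟨fun x hx => by rw [Homeomorph.mul_apply, hb.1 x hx, ha.1 x hx],
    fun i hi x => by rw [Homeomorph.mul_apply, ha.2 i hi, hb.2 i hi]⟩
  inv_mem' := fun {a} ha => ⟨fun x hx => by
    rw [Homeomorph.inv_apply, Homeomorph.symm_apply_eq, ha.1 x hx],
    fun i hi x => by rw [← ha.2 i hi]; simp⟩

/-- The component of the centre in the part of `Q i` mapped into `Q i`. -/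
def Om (Q : ι → Set M) (z : ι → M) (γ : M ≃ₜ M) (i : ι) : Set M :=
  connectedComponentIn (Q i ∩ γ ⁻¹' Q i) (z i)

variable {E : Set M} {s : Set ι} {Q : ι → Set M} {z : ι → M} {δ : ℝ} {V N : Subgroup (M ≃ₜ M)}

theorem Om_subset (γ : M ≃ₜ M) (i : ι) : Om Q z γ i ⊆ Q i ∩ γ ⁻¹' Q i :=
  connectedComponentIn_subset _ _

theorem subset_Om {γ : M ≃ₜ M} {i : ι} {D : Set M} (h : IsPreconnected D) (hz : z i ∈ D)
    (h' : ∀ x ∈ D, x ∈ Q i ∧ γ x ∈ Q i) : D ⊆ Om Q z γ i := h.subset_connectedComponentIn hz h'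

theorem Cov.near (_c : Cov E s Q z δ) {k : M ≃ₜ M} (hk : k ∈ SS s Q) (g : M ≃ₜ M) {η : ℝ}
    (hη : 0 < η) (hg : ∀ i ∈ s, Sm η (g '' Q i)) (x : M) : dist ((g * k * g⁻¹) x) x < η := by
  obtain ⟨x, rfl⟩ := g.surjective x
  by_cases hx : x ∈ ⋃ i ∈ s, Q i
  · obtain ⟨i, hi, hx⟩ := mem_iUnion₂.1 hx
    simpa using hg i hi _ (mem_image_of_mem _ ((hk.2 i hi x).2 hx)) _ (mem_image_of_mem _ hx)
  · simpa [hk.1 x hx]

theorem Cov.near' (c : Cov E s Q z δ) {k : M ≃ₜ M} (hk : k ∈ SS s Q) (x : M) :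
    dist (k x) x < δ := by
  simpa using c.near hk 1 c.pos (by simpa using c.sm) x

theorem Cov.clopen (c : Cov E s Q z δ) {i : ι} (hi : i ∈ s) :
    IsClopen ((Subtype.val : E → M) ⁻¹' Q i) := by
  refine ⟨⟨?_⟩, (c.op i hi).preimage continuous_subtype_val⟩
  convert (isOpen_biUnion fun j (hj : j ∈ s \ {i}) => c.op j hj.1).preimage
    (continuous_subtype_val (p := (· ∈ E)))
  ext x
  simp only [mem_compl_iff, mem_preimage, mem_iUnion₂, exists_prop]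
  constructor
  · intro h
    obtain ⟨j, hj, hx⟩ := c.cov x x.2
    exact ⟨j, ⟨hj, fun h' => h (h' ▸ hx)⟩, hx⟩
  · rintro ⟨j, hj, hx⟩ h
    exact Set.disjoint_left.1 (c.disj hj.1 hi hj.2) hx h

theorem Cov.mem_SS (c : Cov E s Q z δ) {Ω : ι → Set M} (hΩ : ∀ i ∈ s, Ω i ⊆ Q i) {k : M ≃ₜ M}
    (h1 : ∀ x ∉ ⋃ i ∈ s, Ω i, k x = x) (h2 : ∀ i ∈ s, ∀ x, k x ∈ Ω i ↔ x ∈ Ω i) : k ∈ SS s Q := by
  refine ⟨fun x hx => h1 x fun h => hx (iUnion₂_mono hΩ h), fun i hi x => ?_⟩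
  by_cases hx : x ∈ ⋃ i ∈ s, Ω i
  · obtain ⟨j, hj, hx⟩ := mem_iUnion₂.1 hx
    by_cases hij : i = j
    · subst hij; exact iff_of_true (hΩ i hi ((h2 i hi x).2 hx)) (hΩ i hi hx)
    · exact iff_of_false (Set.disjoint_right.1 (c.disj hi hj hij) (hΩ j hj ((h2 j hj x).2 hx)))
        (Set.disjoint_right.1 (c.disj hi hj hij) (hΩ j hj hx))
  · rw [h1 x hx]

variable [CompactSpace M] [Charted M]

theorem Cov.realize (c : Cov E s Q z δ) (h : TE E) {Ω : ι → Set M} (ho : ∀ i ∈ s, IsOpen (Ω i))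
    (hc : ∀ i ∈ s, IsPreconnected (Ω i)) (hΩ : ∀ i ∈ s, Ω i ⊆ Q i) (a b : M ≃ₜ M)
    (ha : ∀ i ∈ s, ∀ x ∈ E ∩ Q i, a x ∈ Ω i) (hb : ∀ i ∈ s, ∀ x ∈ E ∩ Q i, b x ∈ Ω i) :
    ∃ k : M ≃ₜ M, (∀ x ∉ ⋃ i ∈ s, Ω i, k x = x) ∧ (∀ i ∈ s, ∀ x, k x ∈ Ω i ↔ x ∈ Ω i) ∧
      ∀ x ∈ E, k (a x) = b x := by
  choose! k hk hk' using fun i hi => h.realize (ho i hi) (hc i hi) (c.clopen hi).1 continuousOn_id
    (injOn_id _) a b (fun x hx => ha i hi x ⟨x.2, hx⟩) fun x hx => hb i hi x ⟨x.2, hx⟩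
  obtain ⟨K, h1, h2, h3⟩ := glue_open c.fin (c.disj.mono_on hΩ) hk
  refine ⟨K, fun x hx => AA_fix h1 hx, h3, fun x hx => ?_⟩
  obtain ⟨i, hi, hxi⟩ := c.cov x hx
  rw [h2 i hi _ (ha i hi x ⟨hx, hxi⟩)]
  exact hk' i hi ⟨x, hx⟩ hxi

theorem Cov.exists_tau (c : Cov E s Q z δ) (h : TE E) {a : M ≃ₜ M}
    (ha : ∀ i ∈ s, ∀ x ∈ E ∩ Q i, a x ∈ Q i) : ∃ t ∈ SS s Q, t * a ∈ Stab E :=
  let ⟨k, h1, h2, h3⟩ := c.realize h c.op c.conn (fun _ _ => Subset.rfl) a 1 ha fun _ _ _ hx => hx.2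
  ⟨k, ⟨h1, h2⟩, mem_Stab_of_lift (φ := 1) fun x => h3 x x.2⟩

theorem Cov.exists_sigma (c : Cov E s Q z δ) (h : TE E) {U : ι → Set M}
    (hU : ∀ i ∈ s, U i ∈ 𝓝 (z i)) : ∃ t ∈ SS s Q, ∀ i ∈ s, ∀ x ∈ E ∩ Q i, t x ∈ U i := by
  choose! k hk hk' using fun i hi => gather_one (c.op i hi) (c.conn i hi)
    (h.isCompact_val (c.clopen hi).1) (h.tame.mono (Subtype.coe_image_subset _ _))
    (image_preimage_subset _ _) (isOpen_interior.inter (c.op i hi))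
    ⟨z i, mem_interior_iff_mem_nhds.2 (hU i hi), c.memQ i hi⟩ inter_subset_right
  obtain ⟨K, h1, h2, h3⟩ := glue_open c.fin c.disj hk
  exact ⟨K, ⟨fun x hx => AA_fix h1 hx, h3⟩, fun i hi x hx => by
    rw [h2 i hi x hx.2]; exact interior_subset (hk' i hi ⟨⟨x, hx.1⟩, hx.2, rfl⟩).1⟩

omit [CompactSpace M] in
theorem Cov.isOpen_Om (c : Cov E s Q z δ) (γ : M ≃ₜ M) {i : ι} (hi : i ∈ s) :
    IsOpen (Om Q z γ i) := ((c.op i hi).inter ((c.op i hi).preimage γ.continuous)).connectedComponentIn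

theorem Cov.indep (c : Cov E s Q z δ) (h : Ctx E V N)
    (hV : ∀ g ∈ Stab E, (∀ x, dist (g x) x < 2 * δ) → g ∈ V) {γ a a' t t' : M ≃ₜ M}
    (ha : a ∈ SS s Q) (ha' : a' ∈ SS s Q) (ht : t ∈ SS s Q) (ht' : t' ∈ SS s Q)
    (h1 : ∀ i ∈ s, ∀ x ∈ E ∩ Q i, a x ∈ Om Q z γ i) (h2 : ∀ i ∈ s, ∀ x ∈ E ∩ Q i, a' x ∈ Om Q z γ i)
    (h3 : t * γ * a ∈ V) (h4 : t' * γ * a' ∈ Stab E) : t' * γ * a' ∈ V := by
  have hS : ∀ k ∈ SS s Q, k ∈ Stab E → k ∈ V := fun k h h' =>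
    hV k h' fun x => by linarith [c.near' h x, c.pos]
  obtain ⟨r, r1, r2, r3⟩ := c.realize h.toTE (fun i hi => c.isOpen_Om γ hi)
    (fun _ _ => isPreconnected_connectedComponentIn)
    (fun i _ => (Om_subset γ i).trans inter_subset_left) a a' h1 h2
  have r4 : r ∈ SS s Q := c.mem_SS (fun i _ => (Om_subset γ i).trans inter_subset_left) r1 r2
  have r5 : γ * r * γ⁻¹ ∈ SS s Q := c.mem_SS (Ω := fun i => γ '' Om Q z γ i)
    (fun i _ => image_subset_iff.2 ((Om_subset γ i).trans inter_subset_right))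
    (fun x hx => by
      obtain ⟨x, rfl⟩ := γ.surjective x
      have : x ∉ ⋃ i ∈ s, Om Q z γ i := fun h => by
        obtain ⟨i, hi, h⟩ := mem_iUnion₂.1 h
        exact hx (mem_iUnion₂.2 ⟨i, hi, mem_image_of_mem _ h⟩)
      simp [r1 x this])
    fun i hi x => by
      obtain ⟨x, rfl⟩ := γ.surjective x
      simp [γ.injective.mem_set_image, r2 i hi]
  have h5 : a⁻¹ * r⁻¹ * a' ∈ V := hS _ (mul_mem (mul_mem (inv_mem ha) (inv_mem r4)) ha')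
    (mem_Stab_of_lift (φ := 1) fun x => by simp [← r3 x x.2])
  have h6 : t' * (γ * r * γ⁻¹) * t⁻¹ ∈ V := hS _ (mul_mem (mul_mem ht' r5) (inv_mem ht)) (by
    convert mul_mem (mul_mem h4 (inv_mem (h.V_le h5))) (inv_mem (h.V_le h3)) using 1
    group)
  convert mul_mem (mul_mem h6 h3) h5 using 1
  group

/-- The subgroup of homeomorphisms fixing the centres whose reduction lies in `V`. -/
def Cov.GV (c : Cov E s Q z δ) (h : Ctx E V N)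
    (hV : ∀ g ∈ Stab E, (∀ x, dist (g x) x < 2 * δ) → g ∈ V) : Subgroup (M ≃ₜ M) where
  carrier := {γ | γ ∈ Fix (z '' s) ∧ ∃ a ∈ SS s Q, ∃ t ∈ SS s Q,
    (∀ i ∈ s, ∀ x ∈ E ∩ Q i, a x ∈ Om Q z γ i) ∧ t * γ * a ∈ V}
  one_mem' := ⟨one_mem _, 1, one_mem _, 1, one_mem _, fun i hi x hx =>
    subset_Om (c.conn i hi) (c.memQ i hi) (fun _ h => ⟨h, h⟩) hx.2, by simp⟩
  mul_mem' := by
    rintro γ γ' ⟨h1, a1, ha1, t1, ht1, h2, h3⟩ ⟨h4, a2, ha2, t2, ht2, h5, h6⟩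
    have hz : ∀ i ∈ s, γ (z i) = z i := fun i hi => h1 _ (mem_image_of_mem _ hi)
    have hz' : ∀ i ∈ s, γ' (z i) = z i := fun i hi => h4 _ (mem_image_of_mem _ hi)
    choose! U u1 u2 u3 u4 using fun i hi => exists_conn_nhds (inter_mem
      ((c.op i hi).mem_nhds (c.memQ i hi)) (γ'.continuous.continuousAt ((c.isOpen_Om γ hi).mem_nhds
        (by rw [hz' i hi]; exact mem_connectedComponentIn ⟨c.memQ i hi, by
          rw [mem_preimage, hz i hi]; exact c.memQ i hi⟩))))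
    obtain ⟨a, ha, ha'⟩ := c.exists_sigma h.toTE fun i hi => (u1 i hi).mem_nhds (u2 i hi)
    obtain ⟨t, ht, ht'⟩ := c.exists_tau h.toTE (a := γ' * a) fun i hi x hx =>
      (Om_subset γ i (u3 i hi (ha' i hi x hx)).2).1
    have h7 : t * γ' * a ∈ V := c.indep h hV ha2 ha ht2 ht h5 (fun i hi x hx =>
      subset_Om (u4 i hi) (u2 i hi) (fun y hy => ⟨(u3 i hi hy).1,
        (Om_subset γ i (u3 i hi hy).2).1⟩) (ha' i hi x hx)) h6 (by rwa [mul_assoc])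
    have h8 : ∀ i ∈ s, ∀ x ∈ E ∩ Q i, t⁻¹ x ∈ Om Q z γ i := fun i hi x hx => by
      obtain ⟨y, rfl⟩ := (t * (γ' * a)).surjective x
      have hy := (ht' y).1 hx.1
      obtain ⟨j, hj, hyj⟩ := c.cov y hy
      have := (u3 j hj (ha' j hj y ⟨hy, hyj⟩)).2
      obtain rfl : i = j := c.disj.elim hi hj (Set.not_disjoint_iff.2
        ⟨_, hx.2, (ht.2 j hj _).2 (Om_subset γ j this).1⟩)
      simpa using this
    obtain ⟨t', ht1', ht2'⟩ := c.exists_tau h.toTE (a := γ * t⁻¹) fun i hi x hx =>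
      (Om_subset γ i (h8 i hi x hx)).2
    have h9 := c.indep h hV ha1 (inv_mem ht) ht1 ht1' h2 h8 h3 (by rwa [mul_assoc])
    refine ⟨mul_mem h1 h4, a, ha, t', ht1', fun i hi x hx =>
      subset_Om (u4 i hi) (u2 i hi) (fun y hy => ⟨(u3 i hi hy).1,
        (Om_subset γ i (u3 i hi hy).2).2⟩) (ha' i hi x hx), ?_⟩
    convert mul_mem h9 h7 using 1
    group
  inv_mem' := by
    rintro γ ⟨h1, a, ha, t, ht, h2, h3⟩
    refine ⟨inv_mem h1, t⁻¹, inv_mem ht, a⁻¹, inv_mem ha, fun i hi x hx => ?_, by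
      simpa [mul_assoc] using inv_mem h3⟩
    obtain ⟨y, rfl⟩ := (t * γ * a).surjective x
    have hy := (h.V_le h3 y).1 hx.1
    obtain ⟨j, hj, hyj⟩ := c.cov y hy
    have := h2 j hj y ⟨hy, hyj⟩
    obtain rfl : i = j := c.disj.elim hi hj (Set.not_disjoint_iff.2
      ⟨_, hx.2, (ht.2 j hj _).2 (Om_subset γ j this).2⟩)
    have hz : γ (z i) = z i := h1 _ (mem_image_of_mem _ hi)
    refine (isPreconnected_connectedComponentIn.image γ γ.continuous.continuousOn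
      ).subset_connectedComponentIn ⟨z i, mem_connectedComponentIn (F := Q i ∩ γ ⁻¹' Q i)
        ⟨c.memQ i hi, by rw [mem_preimage, hz]; exact c.memQ i hi⟩, hz⟩ ?_ ⟨a y, this, by simp⟩
    rintro _ ⟨w, hw, rfl⟩
    exact ⟨(Om_subset γ i hw).2, by simpa using (Om_subset γ i hw).1⟩

variable (c : Cov E s Q z δ) (h : Ctx E V N)
  (hV : ∀ g ∈ Stab E, (∀ x, dist (g x) x < 2 * δ) → g ∈ V)

theorem Cov.GV_le_Fix : c.GV h hV ≤ Fix (z '' s) := fun _ h => h.1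

theorem Cov.mem_GV_iff {A : M ≃ₜ M} (h1 : A ∈ Stab E) (h2 : A ∈ Fix (z '' s))
    (h3 : ∀ i ∈ s, ∃ D, IsPreconnected D ∧ E ∩ Q i ⊆ D ∧ D ⊆ Q i ∧ MapsTo A D (Q i)) :
    A ∈ c.GV h hV ↔ A ∈ V := by
  have : ∀ i ∈ s, ∀ x ∈ E ∩ Q i, (1 : M ≃ₜ M) x ∈ Om Q z A i := fun i hi x hx =>
    let ⟨_, d1, d2, d3, d4⟩ := h3 i hi
    subset_Om d1 (d2 ⟨c.memE i hi, c.memQ i hi⟩)
      (fun _ hy => ⟨d3 hy, d4 hy⟩) (d2 hx)
  exact ⟨fun ⟨_, a, ha, t, ht, h4, h5⟩ => by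
    simpa using c.indep h hV ha (one_mem _) ht (one_mem _) h4 this h5 (by simpa),
    fun h4 => ⟨h2, 1, one_mem _, 1, one_mem _, this, by simpa⟩⟩

theorem Cov.Iso0_le_GV : Iso0 (z '' s) ≤ c.GV h hV := by
  choose! D d1 d2 d3 using fun i hi => h.toTE.exists_disc (c.op i hi) (c.conn i hi)
    ⟨_, c.memQ i hi⟩ (c.clopen hi) fun _ hx => hx
  have : ∀ᶠ η in 𝓝[>] (0 : ℝ), ∀ i ∈ s, thickening η (D i) ⊆ Q i :=
    (eventually_all_finite c.fin).2 fun i hi => by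
      obtain ⟨η, hη, h⟩ := (d1 i hi).isCompact.exists_thickening_subset_open (c.op i hi) (d2 i hi)
      filter_upwards [Ioo_mem_nhdsGT hη] with η' h' using (thickening_mono h'.2.le _).trans h
  obtain ⟨η, h1, h2⟩ := (this.and (Ioo_mem_nhdsGT c.pos)).exists
  refine Iso0_le_of_open h2.1 fun γ hγ hn => ?_
  have h3 : ∀ i ∈ s, MapsTo γ (D i) (Q i) := fun i hi x hx =>
    h1 i hi (mem_thickening_iff.2 ⟨x, hx, hn x⟩)
  have h4 : ∀ i ∈ s, E ∩ Q i ⊆ D i := fun i hi x hx => interior_subset ((d3 i hi).1 ⟨x, hx.1⟩ hx.2)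
  obtain ⟨t, ht, ht'⟩ := c.exists_tau h.toTE (a := γ) fun i hi x hx => h3 i hi (h4 i hi hx)
  refine ⟨hγ, 1, one_mem _, t, ht, fun i hi x hx => subset_Om (d1 i hi).preconn
    (h4 i hi ⟨c.memE i hi, c.memQ i hi⟩) (fun _ hy => ⟨d2 i hi hy, h3 i hi hy⟩) (h4 i hi hx),
    hV _ ht' fun x => ?_⟩
  linarith [dist_triangle (t (γ x)) (γ x) x, c.near' ht (γ x), hn x, h2.2,
    show dist ((t * γ * 1) x) x = dist (t (γ x)) x from rfl]

theorem Cov.mem_V_of_GV {g : M ≃ₜ M} (h1 : g ∈ Stab E) (h2 : ∀ i ∈ s, Sm δ (g '' Q i))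
    (h3 : g ∈ c.GV h hV) : g ∈ V := by
  obtain ⟨-, a, ha, t, ht, -, h4⟩ := h3
  have : t * (g * a * g⁻¹) ∈ V := hV _ (by
    convert mul_mem (h.V_le h4) (inv_mem h1) using 1; group) fun x => by
    linarith [dist_triangle (t ((g * a * g⁻¹) x)) ((g * a * g⁻¹) x) x,
      c.near' ht ((g * a * g⁻¹) x), c.near ha g c.pos h2 x,
      show dist ((t * (g * a * g⁻¹)) x) x = dist (t ((g * a * g⁻¹) x)) x from rfl]
  convert mul_mem (inv_mem this) h4 using 1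
  group

end Pool.Agent.Lib.MP_069d55_gt.K
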