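import Pool.Agent.Lib.MP_069d55_gt.KLine

/-! Families of discs arranged along the real axis of a chart. -/

open Set Topology Filter Metric

namespace Pool.Agent.Lib.MP_069d55_gt.K

variable {M : Type*}

/-- The shadows of the discs with index in `A`. -/
def seg (n : M → ℤ) (A : Set M) : Set ℝ := ⋃ i ∈ A, Icc (3 * (n i : ℝ) - 1) (3 * n i + 1)

/-- A box with slits over the discs in `A` and under the discs in `B`. -/
def Bx (n : M → ℤ) (H α β : ℝ) (A B : Set M) : Set ℂ := SB H 1 (Ioo α β) (seg n A) (seg n B)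

theorem mem_seg {n : M → ℤ} {A : Set M} {r : ℝ} :
    r ∈ seg n A ↔ ∃ i ∈ A, 3 * (n i : ℝ) - 1 ≤ r ∧ r ≤ 3 * n i + 1 := by
  simp only [seg, mem_iUnion₂, mem_Icc, exists_prop]

theorem mem_Bx {n : M → ℤ} {H α β : ℝ} {A B : Set M} {u : ℂ} : u ∈ Bx n H α β A B ↔
    α < u.re ∧ u.re < β ∧ -H < u.im ∧ u.im < H ∧
    (∀ i ∈ A, 3 * (n i : ℝ) - 1 ≤ u.re → u.re ≤ 3 * n i + 1 → u.im < -1) ∧
    (∀ i ∈ B, 3 * (n i : ℝ) - 1 ≤ u.re → u.re ≤ 3 * n i + 1 → 1 < u.im) := by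
  simp only [Bx, SB, SR, mem_inter_iff, mem_ofPred, mem_Ioo, mem_seg, abs_lt, not_and, not_le,
    forall_exists_index, and_imp]
  tauto

theorem DX_Bx {n : M → ℤ} {H α β : ℝ} {A B : Set M} (hH : 1 < H) (h : α < β) (hA : A.Finite)
    (hB : B.Finite) (hn : ∀ i ∈ A, ∀ j ∈ B, n i ≠ n j) : DX (Bx n H α β A B) :=
  DX_SB zero_le_one hH isOpen_Ioo (convex_Ioo _ _) (nonempty_Ioo.2 h)
    (hA.isClosed_biUnion fun _ _ => isClosed_Icc) (hB.isClosed_biUnion fun _ _ => isClosed_Icc)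
    (Set.disjoint_left.2 fun r h1 h2 => by
      obtain ⟨i, hi, h1⟩ := mem_seg.1 h1
      obtain ⟨j, hj, h2⟩ := mem_seg.1 h2
      have h3 : 3 * n i - 1 ≤ 3 * n j + 1 := by exact_mod_cast h1.1.trans h2.2
      have h4 : 3 * n j - 1 ≤ 3 * n i + 1 := by exact_mod_cast h2.1.trans h1.2
      exact hn i hi j hj (by omega))

theorem Bx_mono {n : M → ℤ} {H α β H' α' β' : ℝ} {A B A' B' : Set M} (hH : H ≤ H') (h1 : α' ≤ α)
    (h2 : β ≤ β') (hA : ∀ i ∈ A', i ∈ A ∨ 3 * (n i : ℝ) + 1 ≤ α ∨ β ≤ 3 * n i - 1)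
    (hB : ∀ i ∈ B', i ∈ B ∨ 3 * (n i : ℝ) + 1 ≤ α ∨ β ≤ 3 * n i - 1) :
    Bx n H α β A B ⊆ Bx n H' α' β' A' B' := fun u hu => by
  rw [mem_Bx] at *
  obtain ⟨a1, a2, a3, a4, a5, a6⟩ := hu
  refine ⟨by linarith, by linarith, by linarith, by linarith, fun i hi h h' => ?_,
    fun i hi h h' => ?_⟩
  · rcases hA i hi with h0 | h0 | h0
    exacts [a5 i h0 h h', by linarith, by linarith]
  · rcases hB i hi with h0 | h0 | h0
    exacts [a6 i h0 h h', by linarith, by linarith]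

theorem box_of_dist {u : ℂ} {t r : ℝ} (h : dist u t ≤ r) :
    t - r ≤ u.re ∧ u.re ≤ t + r ∧ -r ≤ u.im ∧ u.im ≤ r := by
  rw [dist_eq_norm] at h
  have h1 := abs_le.1 ((Complex.abs_re_le_norm _).trans h)
  have h2 := abs_le.1 ((Complex.abs_im_le_norm _).trans h)
  simp only [Complex.sub_re, Complex.ofReal_re, Complex.sub_im, Complex.ofReal_im, sub_zero] at h1 h2
  exact ⟨by linarith, by linarith, h2⟩

theorem box_of_dist_lt {u : ℂ} {t r : ℝ} (h : dist u t < r) :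
    t - r < u.re ∧ u.re < t + r ∧ -r < u.im ∧ u.im < r := by
  obtain ⟨h1, h2, h3, h4⟩ := box_of_dist (le_refl (dist u t))
  exact ⟨by linarith, by linarith, by linarith, by linarith⟩

theorem closedBall_subset_Bx {n : M → ℤ} {H α β : ℝ} {A B : Set M} {m : ℤ} (hH : 1 < H)
    (h1 : α < 3 * m - 1) (h2 : 3 * (m : ℝ) + 1 < β) (h : ∀ i ∈ A ∪ B, n i ≠ m) :
    closedBall ((3 * m : ℝ) : ℂ) 1 ⊆ Bx n H α β A B := fun u hu => by
  obtain ⟨a1, a2, a3, a4⟩ := box_of_dist hu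
  have : ∀ i ∈ A ∪ B, 3 * (n i : ℝ) - 1 ≤ u.re → u.re ≤ 3 * n i + 1 → False := fun i hi h3 h4 => by
    have h5 : 3 * n i - 1 ≤ 3 * m + 1 := by exact_mod_cast h3.trans a2
    have h6 : 3 * m - 1 ≤ 3 * n i + 1 := by exact_mod_cast a1.trans h4
    exact h i hi (by omega)
  exact mem_Bx.2 ⟨by linarith, by linarith, by linarith, by linarith,
    fun i hi h h' => (this i (Or.inl hi) h h').elim, fun i hi h h' => (this i (Or.inr hi) h h').elim⟩

theorem ball_subset_Bx {n : M → ℤ} {H α β : ℝ} {A B : Set M} {m : ℤ} (hH : 1 < H)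
    (h1 : α ≤ 3 * m + 1) (h2 : 3 * (m : ℝ) + 2 ≤ β) :
    ball ((3 * m + 3 / 2 : ℝ) : ℂ) (1 / 2) ⊆ Bx n H α β A B := fun u hu => by
  obtain ⟨a1, a2, a3, a4⟩ := box_of_dist_lt hu
  have : ∀ i, 3 * (n i : ℝ) - 1 ≤ u.re → u.re ≤ 3 * n i + 1 → False := fun i h3 h4 => by
    have h5 : 3 * n i - 1 < 3 * m + 2 := by exact_mod_cast (by linarith : 3 * (n i : ℝ) - 1 < 3 * m + 2)
    have h6 : 3 * m + 1 < 3 * n i + 1 := by exact_mod_cast (by linarith : 3 * (m : ℝ) + 1 < 3 * n i + 1)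
    omega
  exact mem_Bx.2 ⟨by linarith, by linarith, by linarith, by linarith,
    fun i _ h h' => (this i h h').elim, fun i _ h h' => (this i h h').elim⟩

variable [MetricSpace M]

/-- The discs `D i` sit in the unit balls around the points `3 * n i` of the chart `e`. -/
structure Grid (y : M) (e : ℂ → M) (s : Set M) (D : M → Set M) (n : M → ℤ) (N : ℤ) : Prop where
  lc : LC y e
  fin : s.Finite
  pos : 0 ≤ N
  inj : InjOn n (s \ {y})
  bd : ∀ i ∈ s \ {y}, 0 ≤ n i ∧ n i ≤ N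
  ctr : ∀ i ∈ s \ {y}, e (3 * n i : ℝ) = i
  ball : ∀ i ∈ s \ {y}, D i ⊆ e '' ball (3 * n i : ℝ) 1
  far : ∀ u, e u ∈ D y → 6 * (N : ℝ) + 6 < ‖u‖

variable {y : M} {e : ℂ → M} {s : Set M} {D : M → Set M} {n : M → ℤ} {N : ℤ}

theorem Grid.one_lt (G : Grid y e s D n N) : (1 : ℝ) < 3 * N + 3 := by
  have : (0 : ℝ) ≤ N := by exact_mod_cast G.pos
  linarith

theorem Grid.avoid (G : Grid y e s D n N) {H α β : ℝ} {A B : Set M} {i : M} (hi : i ∈ s \ {y})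
    (h : i ∈ A ∪ B ∨ 3 * (n i : ℝ) + 1 ≤ α ∨ β ≤ 3 * n i - 1) {x : M} (hx : x ∈ D i) :
    x ∉ e '' Bx n H α β A B := by
  obtain ⟨u, hu, rfl⟩ := G.ball i hi hx
  obtain ⟨a1, a2, a3, a4⟩ := box_of_dist_lt hu
  rw [G.lc.emb.injective.mem_set_image, mem_Bx]
  rintro ⟨b1, b2, -, -, b5, b6⟩
  rcases h with (h | h) | h | h
  exacts [by linarith [b5 i h a1.le a2.le], by linarith [b6 i h a1.le a2.le], by linarith,
    by linarith]

theorem Grid.avoid_y (G : Grid y e s D n N) {α β : ℝ} {A B : Set M} (h1 : -(3 * N + 3) ≤ α)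
    (h2 : β ≤ 3 * N + 3) {x : M} (hx : x ∈ D y) : x ∉ e '' Bx n (3 * N + 3) α β A B := by
  rintro ⟨u, hu, rfl⟩
  obtain ⟨b1, b2, b3, b4, -⟩ := mem_Bx.1 hu
  have := Complex.norm_le_abs_re_add_abs_im u
  have := G.far u hx
  have : |u.re| < 3 * N + 3 := abs_lt.2 ⟨by linarith, by linarith⟩
  have : |u.im| < 3 * N + 3 := abs_lt.2 ⟨b3, b4⟩
  linarith

theorem Grid.avoid_all (G : Grid y e s D n N) {α β : ℝ} {A B : Set M} (h1 : -(3 * N + 3) ≤ α)
    (h2 : β ≤ 3 * N + 3) {i : M} (hi : i ∈ s)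
    (h : i ≠ y → i ∈ A ∪ B ∨ 3 * (n i : ℝ) + 1 ≤ α ∨ β ≤ 3 * n i - 1) {x : M} (hx : x ∈ D i) :
    x ∉ e '' Bx n (3 * N + 3) α β A B := by
  by_cases hy : i = y
  · exact G.avoid_y h1 h2 (hy ▸ hx)
  · exact G.avoid ⟨hi, hy⟩ (h hy) hx

theorem Grid.contain (G : Grid y e s D n N) {H α β : ℝ} {A B : Set M} {i : M} (hi : i ∈ s \ {y})
    (hH : 1 < H) (h1 : α < 3 * n i - 1) (h2 : 3 * (n i : ℝ) + 1 < β) (hA : A ∪ B ⊆ s \ {y})
    (h : i ∉ A ∪ B) : D i ⊆ e '' Bx n H α β A B :=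
  (G.ball i hi).trans (image_mono (ball_subset_closedBall.trans (closedBall_subset_Bx hH h1 h2
    fun _ hj hn => h (G.inj (hA hj) hi hn ▸ hj))))

theorem Grid.routes (G : Grid y e s D n N) {α β : ℝ} {S : Set M} {h : M} (hh : h ∈ s \ {y})
    (hS : S ⊆ s \ {y}) (hS' : h ∉ S) {m : ℤ} (h1 : α < 3 * n h - 1) (h2 : 3 * (n h : ℝ) + 1 < β)
    (h3 : α ≤ 3 * m + 1) (h4 : 3 * (m : ℝ) + 2 ≤ β) :
    ∃ c ∈ AA (e '' Bx n (3 * N + 3) α β ∅ S), ∃ c' ∈ AA (e '' Bx n (3 * N + 3) α β S ∅),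
      c h = e (3 * m + 3 / 2 : ℝ) ∧
      ∀ x ∈ D h, c' x = c x ∧ c x ∈ e '' Metric.ball (3 * m + 3 / 2 : ℝ) (1 / 2) := by
  have hf := (G.fin.subset sdiff_subset).subset hS
  have hn : ∀ j ∈ S, n j ≠ n h := fun j hj hn => hS' (G.inj (hS hj) hh hn ▸ hj)
  obtain ⟨c, c1, c', c2, c3, c4⟩ := exists_routes G.lc.emb
    (DX_Bx (n := n) G.one_lt (by linarith : α < β) finite_empty hf (by simp))
    (DX_Bx (n := n) G.one_lt (by linarith : α < β) hf finite_empty (by simp))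
    (closedBall_subset_Bx G.one_lt h1 h2 (by simpa using hn))
    (closedBall_subset_Bx G.one_lt h1 h2 (by simpa using hn))
    (ball_subset_Bx G.one_lt h3 h4 (mem_ball_self one_half_pos))
    (ball_subset_Bx G.one_lt h3 h4 (mem_ball_self one_half_pos))
  exact ⟨c, c1, c', c2, by rwa [G.ctr h hh] at c3, fun x hx =>
    c4 x (image_mono ball_subset_closedBall (G.ball h hh hx))⟩

variable [CompactSpace M] [Charted M]

theorem Grid.push (G : Grid y e s D n N) {Z : Set M} (hZ : Z ⊆ s) (hy : y ∈ Z) {h : M}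
    (hh : h ∈ s \ Z) {Λ : Subgroup (M ≃ₜ M)} (hΛ : Iso0 (insert h Z) ≤ Λ)
    (htr : ∀ m : ℤ, -1 ≤ m → m ≤ N → ∃ m' : ℤ, (∀ i ∈ Z \ {y}, n i ≤ m ↔ n i ≤ m') ∧
      ∃ α β H : ℝ, ∃ S, (∀ i ∈ Z \ {y}, i ∈ S ∨ 3 * (n i : ℝ) + 1 ≤ α ∨ β ≤ 3 * n i - 1) ∧
      ∃ c ∈ AA (e '' Bx n H α β ∅ S), ∃ c' ∈ AA (e '' Bx n H α β S ∅),
        c h = e (3 * m' + 3 / 2 : ℝ) ∧ c' h = c h ∧ c⁻¹ * c' ∈ Λ)
    {γ : M ≃ₜ M} (hγ : γ ∈ Iso0 Z) (hγh : γ h = h) : γ ∈ Λ := by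
  have hs : Z \ {y} ⊆ s \ {y} := sdiff_subset_sdiff_left hZ
  have hh' : h ∈ s \ {y} := ⟨hh.1, fun h' => hh.2 (h' ▸ hy)⟩
  have e1 : insert y ((fun r : ℝ => e r) '' ((fun i => 3 * (n i : ℝ)) '' (Z \ {y}))) = Z := by
    rw [image_image, image_congr fun i hi => G.ctr i (hs hi), image_id', insert_sdiff_singleton,
      insert_eq_of_mem hy]
  refine push_line G.lc ((G.fin.subset (hs.trans sdiff_subset)).image fun i => 3 * (n i : ℝ))
    (h0 := 3 * n h) ?_ (by rwa [e1, G.ctr h hh']) (fun q' hq' => ?_) (by rwa [e1])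
    (by rwa [G.ctr h hh'])
  · rintro ⟨i, hi, h'⟩
    have : n i = n h := by
      have : (n i : ℝ) = n h := by simpa using h'
      exact_mod_cast this
    exact hh.2 (G.inj (hs hi) hh' this ▸ hi.1)
  obtain ⟨m', h1, α, β, H, S, h2, c, c1, c', c2, c3, c4, c5⟩ :=
    htr (max (-1) (min N ⌊q' / 3⌋)) (le_max_left _ _) (max_le (by linarith [G.pos]) (min_le_left _ _))
  refine ⟨3 * m' + 3 / 2, ?_, ?_, c, c', AA_mono (image_mono fun u hu => ?_) c1,
    AA_mono (image_mono fun u hu => ?_) c2, by rw [G.ctr h hh', c3], by rw [G.ctr h hh', c4, c3], c5⟩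
  · rintro ⟨i, -, h'⟩
    have : 6 * n i = 6 * m' + 3 := by exact_mod_cast (by linarith : 6 * (n i : ℝ) = 6 * m' + 3)
    omega
  · rintro _ ⟨i, hi, rfl⟩
    obtain ⟨b1, b2⟩ := G.bd i (hs hi)
    have h3 : 3 * (n i : ℝ) < 3 * m' + 3 / 2 ↔ n i ≤ m' := by
      rw [show 3 * (n i : ℝ) < 3 * m' + 3 / 2 ↔ ((6 * n i : ℤ) : ℝ) < (6 * m' + 3 : ℤ) by
        push_cast; constructor <;> intro <;> linarith, Int.cast_lt]
      omega
    have h4 : 3 * (n i : ℝ) < q' ↔ n i ≤ ⌊q' / 3⌋ := by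
      rw [Int.le_floor, le_div_iff₀ three_pos, mul_comm]
      exact ⟨le_of_lt, fun h => lt_of_le_of_ne h fun h' => hq' ⟨i, hi, (mul_comm _ _).trans h'⟩⟩
    rw [h3, h4, ← h1 i hi]
    omega
  · obtain ⟨b1, b2, -, -, -, b6⟩ := mem_Bx.1 hu
    refine ⟨trivial, by simp, ?_⟩
    rintro ⟨⟨i, hi, h'⟩, h''⟩
    dsimp only at h'
    rcases h2 i hi with h0 | h0 | h0
    exacts [by linarith [b6 i h0 (by linarith) (by linarith)], by linarith, by linarith]
  · obtain ⟨b1, b2, -, -, b5, -⟩ := mem_Bx.1 hu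
    refine ⟨trivial, ?_, by simp⟩
    rintro ⟨⟨i, hi, h'⟩, h''⟩
    dsimp only at h'
    rcases h2 i hi with h0 | h0 | h0
    exacts [by linarith [b5 i h0 (by linarith) (by linarith)], by linarith, by linarith]

omit [CompactSpace M] in
theorem Fam.exists_grid [PreconnectedSpace M] {E : Set M} (h : Fam E s D) (hy : y ∈ s)
    (he : LC y e) (hN : 0 ≤ N) (hn : InjOn n (s \ {y})) (hb : ∀ i ∈ s \ {y}, 0 ≤ n i ∧ n i ≤ N) :
    ∃ e', Grid y e' s D n N := by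
  classical
  have hN' : (0 : ℝ) ≤ N := by exact_mod_cast hN
  have hB := (isDisc_closedBall he.emb 0 (r := 6 * N + 6) (by positivity)).1
  have hin : ∀ i ∈ s \ {y}, Metric.ball ((3 * n i : ℝ) : ℂ) 1 ⊆ closedBall 0 (6 * N + 6) :=
    fun i hi => ball_subset_closedBall.trans (closedBall_subset_closedBall' (by
      obtain ⟨h1, h2⟩ := hb i hi
      have h1 : (0 : ℝ) ≤ n i := by exact_mod_cast h1
      have h2 : (n i : ℝ) ≤ N := by exact_mod_cast h2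
      rw [dist_zero_right, Complex.norm_real, Real.norm_eq_abs, abs_of_nonneg (by positivity)]
      linarith))
  obtain ⟨k, hk⟩ := gather_pointed h.fin
    (T := fun i => if i = y then univ \ e '' closedBall 0 (6 * N + 6) else e '' Metric.ball (3 * n i : ℝ) 1)
    (p := fun i => if i = y then y else e (3 * n i : ℝ)) h.disc h.disj h.mem
    (fun i _ => by
      split_ifs
      exacts [isOpen_univ.sdiff hB.isCompact.isClosed, he.emb.isOpenMap _ isOpen_ball])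
    (fun i _ => by
      split_ifs
      exacts [hB.preconn_diff isPreconnected_univ isOpen_univ (subset_univ _),
        (convex_ball _ _).isPreconnected.image _ he.emb.continuous.continuousOn])
    (fun i hi j hj hne => by
      simp only [Function.onFun]
      split_ifs with h1 h2 h2
      · exact (hne (h1.trans h2.symm)).elim
      · exact disjoint_sdiff_left.mono_right (image_mono (hin j ⟨hj, h2⟩))
      · exact disjoint_sdiff_right.mono_left (image_mono (hin i ⟨hi, h1⟩))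
      · refine (disjoint_image_iff he.emb.injective).2 (ball_disjoint_ball ?_)
        have h3 : n i ≠ n j := fun h => hne (hn ⟨hi, h1⟩ ⟨hj, h2⟩ h)
        have h4 : (1 : ℝ) ≤ |(n i : ℝ) - n j| := by exact_mod_cast Int.one_le_abs (sub_ne_zero.2 h3)
        rw [Complex.dist_of_im_eq (by simp), Real.dist_eq]
        simp only [Complex.ofReal_re, ← mul_sub, abs_mul, Nat.abs_ofNat]
        linarith)
    fun i _ => by
      split_ifs
      exacts [⟨trivial, fun ⟨u, _, h⟩ => he.ne u h⟩, mem_image_of_mem _ (mem_ball_self one_pos)]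
  have hky : k y = y := by simpa using (hk y hy).2
  refine ⟨k.symm ∘ e, he.comp (by rw [Homeomorph.symm_apply_eq, hky]), h.fin, hN, hn, hb,
    fun i hi => ?_, fun i hi x hx => ?_, fun u hu => ?_⟩
  · rw [Function.comp_apply, Homeomorph.symm_apply_eq, (hk i hi.1).2, if_neg (show i ≠ y from hi.2)]
  · have := (hk i hi.1).1 hx
    rw [if_neg (show i ≠ y from hi.2)] at this
    obtain ⟨u, hu, h⟩ := this
    exact ⟨u, hu, by simp [h]⟩
  · have := (hk y hy).1 hu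
    rw [if_pos rfl] at this
    exact not_le.1 fun h => this.2 ⟨u, by simpa using h, by simp⟩

end Pool.Agent.Lib.MP_069d55_gt.K
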