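import Pool.Agent.Lib.MP_069d55_gt.KTame

/-! Extension of homeomorphisms to a tame set of ends, and continuity of the extension. -/

open Set Topology Filter Metric

namespace Pool.Agent.Lib.MP_069d55_gt.K

variable {M : Type*} [MetricSpace M] [CompactSpace M] [Charted M] {E : Set M}
  {S : Type*} [TopologicalSpace S] {ι : S → M}

omit [CompactSpace M] [Charted M] in
theorem TE.dense (h : TE E) : Dense Eᶜ :=
  dense_iff_inter_open.2 fun U hU hne => let ⟨x, h1, h2⟩ := h.nd U hU hne; ⟨x, h1, h2⟩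

omit [CompactSpace M] [Charted M] in
theorem TE.small_discs (h : TE E) {δ : ℝ} (hδ : 0 < δ) : ∃ 𝒟 : Set (Set M), 𝒟.Finite ∧
    (∀ D ∈ 𝒟, IsDisc D ∧ Sm δ D ∧ ∀ y ∈ E, y ∈ D → y ∈ interior D) ∧
    ∀ x ∈ E, ∃ D ∈ 𝒟, x ∈ interior D := by
  obtain ⟨𝒟, h1, h2, h3, h4⟩ := h.tame δ hδ
  refine ⟨𝒟, h1, fun D hD => ⟨(h2 D hD).1, (h2 D hD).2, fun y hy hyD => ?_⟩, h4⟩
  obtain ⟨D', hD', hy'⟩ := h4 y hy
  rwa [h3.elim_set hD hD' y hyD (interior_subset hy')]

theorem TE.exists_ext (h : TE E) (hι : IsOpenEmbedding ι) (hr : range ι = Eᶜ) (f : S ≃ₜ S) :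
    ∃ g : M → M, Continuous g ∧ ∀ z, g (ι z) = ι (f z) := by
  set u : M → M := Function.extend ι (ι ∘ f) id with hu
  have ue : ∀ z, u (ι z) = ι (f z) := fun z => hι.injective.extend_apply _ _ z
  have ex : ∀ y ∉ E, ∃ z, ι z = y := fun y hy => (hr ▸ hy : y ∈ range ι)
  have nE : ∀ z, ι z ∉ E := fun z => (hr ▸ mem_range_self z : ι z ∈ Eᶜ)
  have uc : ContinuousOn u Eᶜ := fun y hy => by
    obtain ⟨z, rfl⟩ := ex y hy
    refine (hι.continuousAt_iff.1 ?_).continuousWithinAt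
    rw [show u ∘ ι = ι ∘ f from funext ue]
    exact (hι.continuous.comp f.continuous).continuousAt
  have hlim : ∀ x, ∃ y, Tendsto u (𝓝[Eᶜ] x) (𝓝 y) := by
    intro x
    by_cases hx : x ∈ E
    swap
    · exact ⟨_, uc x hx⟩
    have hne : (𝓝[Eᶜ] x).NeBot := mem_closure_iff_nhdsWithin_neBot.1 (h.dense x)
    have hfr : ∀ {y : M} {V T : Set M}, MapClusterPt y (𝓝[Eᶜ] x) u → V ∈ 𝓝 y → T ∈ 𝓝 x →
        ∃ z, ι z ∈ T ∧ ι (f z) ∈ V := fun {y V T} hy hV hT => by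
      obtain ⟨w, hw, h3, h4⟩ := ((mapClusterPt_iff_frequently.1 hy _ hV).and_eventually
        (Eventually.and (p := fun w => w ∈ T) (mem_nhdsWithin_of_mem_nhds hT)
          self_mem_nhdsWithin)).exists
      obtain ⟨z, rfl⟩ := ex w h4
      exact ⟨z, h3, ue z ▸ hw⟩
    have far : ∀ {Γ : Set M}, IsCompact Γ → (∀ y ∈ Γ, y ∉ E) →
        ∃ T ∈ 𝓝 x, ∀ z, ι z ∈ T → ι (f z) ∉ Γ := fun {Γ} hΓ hΓE =>
      ⟨(ι '' (f ⁻¹' (ι ⁻¹' Γ)))ᶜ, ((f.isCompact_preimage.2 (hι.isInducing.isCompact_preimage' hΓ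
        (hr ▸ hΓE))).image hι.continuous).isClosed.isOpen_compl.mem_nhds
        fun ⟨z, _, e⟩ => nE z (e ▸ hx), fun z hz h' => hz ⟨z, h', rfl⟩⟩
    obtain ⟨y, hy⟩ := exists_clusterPt_of_compactSpace (map u (𝓝[Eᶜ] x))
    refine ⟨y, tendsto_nhds_of_unique_mapClusterPt fun y' hy' => ?_⟩
    by_contra hyy
    have hyE : y ∈ E := by
      by_contra hyE
      obtain ⟨K, hK, h1, h2⟩ := exists_compact_subset h.closed.isOpen_compl hyE
      obtain ⟨T, hT, hT'⟩ := far hK h2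
      obtain ⟨z, h3, h4⟩ := hfr hy (mem_interior_iff_mem_nhds.1 h1) hT
      exact hT' z h3 h4
    obtain ⟨𝒟, -, h2, h3⟩ := h.small_discs (dist_pos.2 hyy)
    obtain ⟨D, hD, hyD⟩ := h3 y hyE
    obtain ⟨d1, d2, d3⟩ := h2 D hD
    obtain ⟨T, hT, hT'⟩ := far (d1.isCompact.diff isOpen_interior) fun y hy hE =>
      hy.2 (d3 y hE hy.1)
    obtain ⟨B, b1, b2, b3, b4⟩ := exists_conn_nhds hT
    obtain ⟨z, h4, h5⟩ := hfr hy (interior_mem_nhds.2 (mem_interior_iff_mem_nhds.1 hyD))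
      (b1.mem_nhds b2)
    obtain ⟨z', h6, h7⟩ := hfr hy' (d1.isCompact.isClosed.isOpen_compl.mem_nhds fun h' =>
      lt_irrefl _ (d2 _ h' _ (interior_subset hyD))) (b1.mem_nhds b2)
    refine h7 (interior_subset (subset_interior_of_preconn
      ((h.ns E subset_rfl h.closed B b1 b4).image u (uc.mono fun _ h => h.2))
      d1.isCompact.isClosed ?_ ⟨_, ⟨h4, nE z⟩, ue z⟩ (interior_subset h5) ⟨_, ⟨h6, nE z'⟩, ue z'⟩))
    rintro _ ⟨w, hw, rfl⟩ hwD
    obtain ⟨w, rfl⟩ := ex w hw.2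
    rw [ue] at hwD ⊢
    by_contra hc
    exact hT' w (b3 hw.1) ⟨hwD, hc⟩
  exact ⟨extendFrom Eᶜ u, continuous_extendFrom h.dense hlim, fun z => by
    rw [extendFrom_extends uc _ (nE z), ue]⟩

omit [CompactSpace M] [Charted M] [TopologicalSpace S] in
theorem TE.ext (h : TE E) (hr : range ι = Eᶜ) {g g' : M → M} (hg : Continuous g)
    (hg' : Continuous g') (e : ∀ z, g (ι z) = g' (ι z)) : g = g' :=
  hg.ext_on h.dense hg' fun y hy => by obtain ⟨z, rfl⟩ := (hr ▸ hy : y ∈ range ι); exact e z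

theorem TE.exists_hat (h : TE E) (hι : IsOpenEmbedding ι) (hr : range ι = Eᶜ) :
    ∃ hat : (S ≃ₜ S) →* (M ≃ₜ M), ∀ f z, hat f (ι z) = ι (f z) := by
  have : ∀ f : S ≃ₜ S, ∃ g : M ≃ₜ M, ∀ z, g (ι z) = ι (f z) := fun f => by
    obtain ⟨g, gc, ge⟩ := h.exists_ext hι hr f
    obtain ⟨g', gc', ge'⟩ := h.exists_ext hι hr f.symm
    exact ⟨⟨⟨g, g', congrFun (h.ext hr (gc'.comp gc) continuous_id fun z => by simp [ge, ge']),
      congrFun (h.ext hr (gc.comp gc') continuous_id fun z => by simp [ge, ge'])⟩, gc, gc'⟩, ge⟩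
  choose H hH using this
  exact ⟨MonoidHom.mk' H fun f g => DFunLike.coe_injective
    (h.ext hr (H _).continuous (H f * H g).continuous fun z => by simp [hH]), hH⟩

omit [CompactSpace M] [Charted M] [TopologicalSpace S] in
theorem mem_Stab_of_hat (hr : range ι = Eᶜ) {g : M ≃ₜ M} {f : S ≃ S}
    (h : ∀ z, g (ι z) = ι (f z)) : g ∈ Stab E := fun x => by
  refine not_iff_not.1 ⟨fun hx => ?_, fun hx => ?_⟩
  · obtain ⟨z, e⟩ := (hr ▸ hx : g x ∈ range ι)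
    rw [← g.injective (a₂ := x) ((h (f.symm z)).trans (by simpa using e))]
    exact (hr ▸ mem_range_self _ : ι _ ∈ Eᶜ)
  · obtain ⟨z, rfl⟩ := (hr ▸ hx : x ∈ range ι)
    rw [h]; exact (hr ▸ mem_range_self _ : ι _ ∈ Eᶜ)

omit [CompactSpace M] [Charted M] in
theorem IsDisc.exists_larger {D U : Set M} (h : IsDisc D) (hU : IsOpen U) (hD : D ⊆ U) :
    ∃ D', IsDisc D' ∧ D ⊆ interior D' ∧ D' ⊆ U := by
  obtain ⟨d, hd, rfl⟩ := h
  obtain ⟨δ, hδ, hs⟩ := (isCompact_closedBall (0 : ℂ) 1).exists_cthickening_subset_open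
    (hU.preimage hd.continuous) (image_subset_iff.1 hD)
  rw [cthickening_closedBall hδ.le zero_le_one] at hs
  obtain ⟨h1, h2⟩ := isDisc_closedBall hd 0 (show 0 < δ + 1 by positivity)
  exact ⟨_, h1, h2 ▸ image_mono (closedBall_subset_ball (by linarith)), image_subset_iff.2 hs⟩

omit [Charted M] in
theorem TE.eventually_near [PreconnectedSpace M] (h : TE E) {T : Type*} {l : Filter T}
    {g : T → M ≃ₜ M} (hg : ∀ K, IsCompact K → (∀ x ∈ K, x ∉ E) → ∀ ε > 0,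
      ∀ᶠ t in l, ∀ x ∈ K, dist (g t x) x < ε) {ε : ℝ} (hε : 0 < ε) :
    ∀ᶠ t in l, ∀ x, dist (g t x) x < ε := by
  have hU : ∀ K U, IsCompact K → (∀ x ∈ K, x ∉ E) → IsOpen U → K ⊆ U →
      ∀ᶠ t in l, ∀ x ∈ K, g t x ∈ U := fun K U hK hKE hU hKU => by
    obtain ⟨δ, hδ, hs⟩ := hK.exists_thickening_subset_open hU hKU
    filter_upwards [hg K hK hKE δ hδ] with t ht x hx
    exact hs (mem_thickening_iff.2 ⟨x, hx, ht x hx⟩)
  obtain ⟨𝒟, h1, h2, h3⟩ := h.small_discs (half_pos hε)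
  have key : ∀ D ∈ 𝒟, ∀ᶠ t in l, ∀ x ∈ D, dist (g t x) x < ε := fun D hD => by
    obtain ⟨d1, d2, d3⟩ := h2 D hD
    obtain ⟨D', e1, e2, e3⟩ := d1.exists_larger isOpen_thickening
      (self_subset_thickening (half_pos hε) D)
    have fin : ∀ t, ∀ x ∈ D, g t x ∈ D' → dist (g t x) x < ε := fun t x hx h' => by
      obtain ⟨w, hw, h4⟩ := mem_thickening_iff.1 (e3 h')
      linarith [dist_triangle (g t x) w x, d2 w hw x hx]
    obtain ⟨a, ha, haE⟩ := h.nd _ (isOpen_univ.sdiff e1.isCompact.isClosed)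
      (e1.exists_notMem isOpen_univ (subset_univ _))
    filter_upwards [hU _ _ (d1.isCompact.diff isOpen_interior) (fun y hy hE => hy.2 (d3 y hE hy.1))
      isOpen_interior (sdiff_subset.trans e2), hU {a} D'ᶜ isCompact_singleton (by simpa using haE)
      e1.isCompact.isClosed.isOpen_compl (by simpa using ha.2)] with t t1 t2 x hx
    refine fin t x hx (by_contra fun hc => ha.2 (interior_subset (e2 (interior_subset
      (subset_interior_of_preconn (A := g t ⁻¹' (univ \ D')) ((g t).isPreconnected_preimage.2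
        (e1.preconn_diff isPreconnected_univ isOpen_univ (subset_univ _))) d1.isCompact.isClosed
        (fun y hy hD => by_contra fun h' => hy.2 (interior_subset (t1 y ⟨hD, h'⟩)))
        ⟨trivial, hc⟩ hx ⟨trivial, t2 a rfl⟩)))))
  filter_upwards [(eventually_all_finite h1).2 key, hg (⋃ D ∈ 𝒟, interior D)ᶜ
    (isOpen_biUnion fun _ _ => isOpen_interior).isClosed_compl.isCompact (fun x hx hE => by
      obtain ⟨D, hD, h'⟩ := h3 x hE; exact hx (mem_biUnion hD h')) ε hε] with t t1 t2 x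
  by_cases hx : x ∈ ⋃ D ∈ 𝒟, interior D
  · obtain ⟨D, hD, h'⟩ := mem_iUnion₂.1 hx; exact t1 D hD x (interior_subset h')
  · exact t2 x hx

end Pool.Agent.Lib.MP_069d55_gt.K
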