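import Pool.Agent.Lib.MP_069d55_gt.KExt

/-! Isotopies, the Alexander trick, slit regions and the point pushing step. -/

open Set Topology Filter Metric
open scoped unitInterval

namespace Pool.Agent.Lib.MP_069d55_gt.K

theorem exists_descend {M : Type*} [TopologicalSpace M] {e : ℂ → M} (he : IsOpenEmbedding e)
    {k : M ≃ₜ M} (h : ∀ x, k x ∈ range e ↔ x ∈ range e) :
    ∃ k' : ℂ ≃ₜ ℂ, ∀ z, k (e z) = e (k' z) := by
  have h1 : ∀ z, ∃ w, e w = k (e z) := fun z => (h _).2 ⟨z, rfl⟩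
  have h2 : ∀ z, ∃ w, e w = k.symm (e z) := fun z => (h _).1 (by simp)
  choose a ha using h1
  choose b hb using h2
  exact ⟨⟨⟨a, b, fun z => he.injective (by simp [ha, hb]), fun z => he.injective (by simp [ha, hb])⟩,
    he.isInducing.continuous_iff.2 ((k.continuous.comp he.continuous).congr fun z => (ha z).symm),
    he.isInducing.continuous_iff.2 ((k.symm.continuous.comp he.continuous).congr
      fun z => (hb z).symm)⟩, fun z => (ha z).symm⟩

/-- The complex affine map `z ↦ q + a (z - p)`. -/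
noncomputable def aff (p q a : ℂ) (ha : a ≠ 0) : ℂ ≃ₜ ℂ :=
  (Homeomorph.subRight p).trans ((Homeomorph.mulLeft₀ a ha).trans (Homeomorph.addLeft q))

@[simp] theorem aff_apply (p q a : ℂ) (ha : a ≠ 0) (z : ℂ) : aff p q a ha z = q + a * (z - p) := rfl

@[simp] theorem aff_symm_apply (p q a : ℂ) (ha : a ≠ 0) (z : ℂ) :
    (aff p q a ha).symm z = p + (z - q) / a := by
  rw [Homeomorph.symm_apply_eq, aff_apply]; field_simp; ring

theorem alexander_plane {k : ℂ ≃ₜ ℂ} (hk : ∀ z ∉ closedBall (0 : ℂ) 1, k z = z) {p : ℂ}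
    (hp : p ∈ closedBall (0 : ℂ) 1) : ∃ a : I → ℂ ≃ₜ ℂ, Continuous (fun w : I × ℂ => a w.1 w.2) ∧
      a 0 = 1 ∧ a 1 = k ∧ (∀ t, ∀ z ∉ closedBall (0 : ℂ) 1, a t z = z) ∧
      (k p = p → ∀ t, a t p = p) := by
  have hb : ∀ z, ‖k z - z‖ ≤ 2 := fun z => by
    by_cases hz : z ∈ closedBall (0 : ℂ) 1
    · have := (fix_mem_iff hk z).2 hz
      rw [mem_closedBall_zero_iff] at hz this
      linarith [norm_sub_le (k z) z]
    · simp [hk z hz]
  have : ∀ t : I, ∃ a : ℂ ≃ₜ ℂ, ∀ z, a z =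
      z + (t : ℝ) * (k (p + (z - p) / (t : ℝ)) - (p + (z - p) / (t : ℝ))) := fun t => by
    by_cases ht : ((t : ℝ) : ℂ) = 0
    · exact ⟨1, fun z => by simp [ht]⟩
    · exact ⟨aff p p _ ht * k * (aff p p _ ht)⁻¹, fun z => by simp; field_simp; ring⟩
  choose a ha using this
  refine ⟨a, ?_, by ext z; simp [ha], by ext z; simp [ha], fun t z hz => ?_, fun h t => by
    simp [ha, h]⟩
  · simp only [ha]
    refine continuous_snd.add (continuous_iff_continuousAt.2 fun w => ?_)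
    by_cases ht : ((w.1 : ℝ) : ℂ) = 0
    · rw [ContinuousAt, ht, zero_mul]
      refine squeeze_zero_norm (a := fun w : I × ℂ => ‖((w.1 : ℝ) : ℂ)‖ * 2)
        (fun w => by rw [norm_mul]; gcongr; exact hb _) ?_
      exact Continuous.tendsto' (by fun_prop) _ _ (by rw [ht]; simp)
    · have h1 : ContinuousAt (fun w : I × ℂ => p + (w.2 - p) / ((w.1 : ℝ) : ℂ)) w := by
        fun_prop (disch := exact ht)
      exact ContinuousAt.mul (by fun_prop) ((k.continuous.continuousAt.comp h1).sub h1)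
  · by_cases ht : ((t : ℝ) : ℂ) = 0
    · simp [ha, ht]
    · rw [ha, hk, sub_self, mul_zero, add_zero]
      intro h
      apply hz
      have := (convex_closedBall (0 : ℂ) 1).add_smul_sub_mem hp h t.2
      convert this using 1
      simp; field_simp; ring

variable {M : Type*} [MetricSpace M] [CompactSpace M]

/-- Homeomorphisms isotopic to the identity relative to `Z`. -/
def Iso0 (Z : Set M) : Subgroup (M ≃ₜ M) where
  carrier := {γ | JoinedIn (Fix Z : Set (M ≃ₜ M)) 1 γ}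
  one_mem' := JoinedIn.refl (one_mem _)
  mul_mem' := fun {a b} ha hb => by simpa using ha.mul hb
  inv_mem' := fun {a} ha => by simpa using ha.inv

theorem Iso0_le_Fix {Z : Set M} : Iso0 Z ≤ Fix Z := fun _ h => JoinedIn.target_mem h

theorem Iso0_anti {Z Z' : Set M} (h : Z ⊆ Z') : Iso0 Z' ≤ Iso0 Z :=
  fun _ hk => JoinedIn.mono hk fun _ hγ x hx => hγ x (h hx)

theorem Iso0_conj {Z : Set M} {γ : M ≃ₜ M} (h : γ ∈ Iso0 Z) (k : M ≃ₜ M) :
    k * γ * k⁻¹ ∈ Iso0 (k '' Z) := by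
  have := JoinedIn.map h (f := fun γ => k * γ * k⁻¹) (by fun_prop)
  simp only [mul_one, mul_inv_cancel] at this
  refine this.mono ?_
  rintro _ ⟨a, ha, rfl⟩ _ ⟨x, hx, rfl⟩
  simp [ha x hx]

theorem Iso0_of_joined {Z : Set M} {a b : M ≃ₜ M} (h : JoinedIn (Fix Z : Set (M ≃ₜ M)) a b) :
    b * a⁻¹ ∈ Iso0 Z := by
  change JoinedIn _ _ _
  simpa using h.mul (JoinedIn.refl (inv_mem h.source_mem : a⁻¹ ∈ (Fix Z : Set (M ≃ₜ M))))

theorem near_mem_nhds {ε : ℝ} (hε : 0 < ε) :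
    {γ : M ≃ₜ M | ∀ x, dist (γ x) x < ε} ∈ 𝓝 (1 : M ≃ₜ M) := by
  filter_upwards [continuous_toC.continuousAt (ball_mem_nhds _ hε)] with γ hγ
  exact (ContinuousMap.dist_lt_iff hε).1 hγ

theorem Iso0_le_of_open {Z : Set M} {Λ : Subgroup (M ≃ₜ M)} {ε : ℝ} (hε : 0 < ε)
    (h : ∀ γ ∈ Fix Z, (∀ x, dist (γ x) x < ε) → γ ∈ Λ) : Iso0 Z ≤ Λ := by
  rintro γ ⟨H, hH⟩
  have := PreconnectedSpace.induction₂' (fun s t : I => H s * (H t)⁻¹ ∈ Λ) (fun s => ?_)
    ⟨fun a b c h h' => by simpa [mul_assoc] using mul_mem h h'⟩ 1 0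
  · simpa using this
  have : Tendsto (fun t => H s * (H t)⁻¹) (𝓝 s) (𝓝 1) :=
    Continuous.tendsto' (by fun_prop) _ _ (by simp)
  filter_upwards [this (near_mem_nhds hε)] with t ht
  have := h _ (mul_mem (hH s) (inv_mem (hH t))) ht
  exact ⟨this, by simpa using inv_mem this⟩

theorem IsDisc.alexander {D : Set M} (hD : IsDisc D) {k : M ≃ₜ M} (hk : ∀ x ∉ D, k x = x)
    {p : M} (hp : p ∈ D) {Z : Set M} (hZ : ∀ x ∈ Z, x ∉ D ∨ (x = p ∧ k p = p)) : k ∈ Iso0 Z := by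
  obtain ⟨d, hd, rfl⟩ := hD
  obtain ⟨p, hp', rfl⟩ := hp
  obtain ⟨k', hk'⟩ := exists_descend hd (fix_mem_iff (Ω := range d) fun x hx => hk x fun h =>
    hx (image_subset_range _ _ h))
  obtain ⟨a, ha, a0, a1, a2, a3⟩ := alexander_plane (k := k') (fun z hz => hd.injective (by
    rw [← hk', hk _ (by rwa [hd.injective.mem_set_image])])) hp'
  obtain ⟨A, hA, hA'⟩ := exists_lift_supp hd a ha (isCompact_closedBall 0 1) a2
  refine ⟨⟨⟨A, hA⟩, (hA' 0).unique (a0 ▸ IsLift.one), (hA' 1).unique (a1 ▸ ⟨hk', fun x hx =>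
    hk x fun h => hx (image_subset_range _ _ h)⟩)⟩, fun t x hx => ?_⟩
  change A t x = x
  rcases hZ x hx with h | ⟨rfl, h⟩
  · by_cases hx' : x ∈ range d
    · obtain ⟨z, rfl⟩ := hx'
      rw [(hA' t).1, a2 t z fun hz => h (mem_image_of_mem _ hz)]
    · exact (hA' t).2 x hx'
  · rw [(hA' t).1, a3 (hd.injective (by rw [← hk', h]))]

/-- Open sets exhausted by discs. -/
def DX {M : Type*} [TopologicalSpace M] (Ω : Set M) : Prop :=
  IsOpen Ω ∧ ∀ K, IsCompact K → K ⊆ Ω → ∃ D, IsDisc D ∧ K ⊆ interior D ∧ D ⊆ Ω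

theorem DX.preconn {M : Type*} [TopologicalSpace M] {Ω : Set M} (h : DX Ω) : IsPreconnected Ω :=
  isPreconnected_of_forall_pair fun x hx y hy => by
    obtain ⟨D, h1, h2, h3⟩ := h.2 {x, y} (toFinite _).isCompact (pair_subset hx hy)
    exact ⟨D, h3, interior_subset (h2 (by simp)), interior_subset (h2 (by simp)), h1.preconn⟩

theorem DX.image {M : Type*} [TopologicalSpace M] {e : ℂ → M} (he : IsOpenEmbedding e)
    {Ω : Set ℂ} (h : DX Ω) : DX (e '' Ω) := by
  refine ⟨he.isOpenMap _ h.1, fun K hK hKΩ => ?_⟩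
  obtain ⟨_, ⟨d, hd, rfl⟩, h2, h3⟩ := h.2 (e ⁻¹' K) (he.isInducing.isCompact_preimage' hK
    (hKΩ.trans (image_subset_range _ _))) fun z hz => he.injective.mem_set_image.1 (hKΩ hz)
  refine ⟨_, ⟨e ∘ d, he.comp hd, rfl⟩, fun x hx => ?_, by rw [image_comp]; exact image_mono h3⟩
  obtain ⟨z, -, rfl⟩ := hKΩ hx
  rw [interior_image_ball hd] at h2
  rw [interior_image_ball (he.comp hd), image_comp]
  exact mem_image_of_mem _ (h2 hx)

theorem DX.iso0 {Ω : Set M} (h : DX Ω) {k : M ≃ₜ M} (hk : k ∈ AA Ω) {p : M} (hp : p ∈ Ω)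
    {Z : Set M} (hZ : ∀ x ∈ Z, x ∉ Ω ∨ (x = p ∧ k p = p)) : k ∈ Iso0 Z := by
  obtain ⟨K, hK, hKΩ, hk⟩ := hk
  obtain ⟨D, h1, h2, h3⟩ := h.2 (insert p K) (hK.insert p) (insert_subset hp hKΩ)
  exact h1.alexander (fun x hx => hk x fun h => hx (interior_subset (h2 (mem_insert_of_mem _ h))))
    (interior_subset (h2 (mem_insert _ _))) fun x hx => (hZ x hx).imp_left fun h h' => h (h3 h')

/-- A strip with upward slits over `A` and downward slits over `B`. -/
def SR (c : ℝ) (J A B : Set ℝ) : Set ℂ :=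
  {u | u.re ∈ J ∧ ¬ (u.re ∈ A ∧ -c ≤ u.im) ∧ ¬ (u.re ∈ B ∧ u.im ≤ c)}

theorem exists_convex_between {K O : Set ℂ} (hK : IsCompact K) (hO : IsOpen O) (hOc : Convex ℝ O)
    (h : K ⊆ O) : ∃ C, IsCompact C ∧ Convex ℝ C ∧ K ⊆ C ∧ C ⊆ O := by
  have : ∀ x ∈ K, ∃ t : Set ℂ, t.Finite ∧ t ⊆ O ∧ convexHull ℝ t ∈ 𝓝 x := fun x hx => by
    obtain ⟨b, h1, h2⟩ := exists_mem_interior_convexHull_affineBasis (hO.mem_nhds (h hx))
    exact ⟨range b, finite_range _, (subset_convexHull ℝ _).trans h2, mem_interior_iff_mem_nhds.1 h1⟩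
  choose! t h1 h2 h3 using this
  obtain ⟨s, hs, hs'⟩ := hK.elim_nhds_subcover _ h3
  refine ⟨convexHull ℝ (⋃ x ∈ s, t x), (s.finite_toSet.biUnion fun x hx =>
    h1 x (hs x hx)).isCompact_convexHull ℝ, convex_convexHull _ _, hs'.trans (iUnion₂_subset
    fun x hx => convexHull_mono (subset_biUnion_of_mem (u := t) hx)),
    convexHull_min (iUnion₂_subset fun x hx => h2 x (hs x hx)) hOc⟩

theorem DX_SR {c : ℝ} (hc : 0 ≤ c) {J A B : Set ℝ} (hJ : IsOpen J) (hJc : Convex ℝ J)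
    (hne : J.Nonempty) (hA : IsClosed A) (hB : IsClosed B) (hAB : Disjoint A B) :
    DX (SR c J A B) := by
  refine ⟨(hJ.preimage Complex.continuous_re).inter (IsOpen.inter
    ((hA.preimage Complex.continuous_re).inter
      (isClosed_le continuous_const Complex.continuous_im)).isOpen_compl
    ((hB.preimage Complex.continuous_re).inter
      (isClosed_le Complex.continuous_im continuous_const)).isOpen_compl), fun K hK hKΩ => ?_⟩
  obtain ⟨f, f0, f1, f2⟩ := exists_continuous_zero_one_of_isClosed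
    (s := Complex.re '' (K ∩ {u | -c ≤ u.im}) ∪ B) (t := A) (((hK.inter_right
      (isClosed_le continuous_const Complex.continuous_im)).image
      Complex.continuous_re).isClosed.union hB) hA (disjoint_union_left.2 ⟨Set.disjoint_left.2 (by
        rintro _ ⟨u, hu, rfl⟩ h; exact (hKΩ hu.1).2.1 ⟨h, hu.2⟩), hAB.symm⟩)
  obtain ⟨g, g0, g1, g2⟩ := exists_continuous_zero_one_of_isClosed
    (s := Complex.re '' (K ∩ {u | u.im ≤ c}) ∪ A) (t := B) (((hK.inter_right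
      (isClosed_le Complex.continuous_im continuous_const)).image
      Complex.continuous_re).isClosed.union hA) hB (disjoint_union_left.2 ⟨Set.disjoint_left.2 (by
        rintro _ ⟨u, hu, rfl⟩ h; exact (hKΩ hu.1).2.2 ⟨h, hu.2⟩), hAB⟩)
  obtain ⟨R, hR0, hR⟩ := hK.isBounded.exists_pos_norm_lt
  set m := R + c with hm
  let sh : ℂ ≃ₜ ℂ := ⟨⟨fun u => u + (m * (f u.re - g u.re) : ℝ) * Complex.I,
    fun u => u - (m * (f u.re - g u.re) : ℝ) * Complex.I, fun u => by simp, fun u => by simp⟩,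
    by dsimp only; fun_prop, by dsimp only; fun_prop⟩
  have shre : ∀ u, (sh u).re = u.re := fun u => by simp [sh]
  have shim : ∀ u, (sh u).im = u.im + m * (f u.re - g u.re) := fun u => by simp [sh]
  have hO : IsOpen {u : ℂ | u.re ∈ J ∧ |u.im| < R} := (hJ.preimage Complex.continuous_re).inter
    (isOpen_lt Complex.continuous_im.abs continuous_const)
  have hOc : Convex ℝ {u : ℂ | u.re ∈ J ∧ |u.im| < R} := by
    simp only [abs_lt]
    exact (hJc.linear_preimage Complex.reLm).inter ((convex_halfSpace_im_gt _).inter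
      (convex_halfSpace_im_lt _))
  obtain ⟨x0, hx0⟩ := hne
  have hK' : insert (x0 : ℂ) (sh '' K) ⊆ {u : ℂ | u.re ∈ J ∧ |u.im| < R} := by
    rintro _ (rfl | ⟨u, hu, rfl⟩)
    · simpa using ⟨hx0, hR0⟩
    refine ⟨shre u ▸ (hKΩ hu).1, ?_⟩
    have h1 := abs_lt.1 ((Complex.abs_im_le_norm u).trans_lt (hR u hu))
    have := f2 u.re; have := g2 u.re
    rw [shim, abs_lt]
    constructor
    · by_cases h : u.im ≤ c
      · rw [g0 (Or.inl ⟨u, ⟨hu, h⟩, rfl⟩)]; simp only [Pi.zero_apply, mem_Icc] at *; nlinarith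
      · simp only [mem_Icc] at *; nlinarith
    · by_cases h : -c ≤ u.im
      · rw [f0 (Or.inl ⟨u, ⟨hu, h⟩, rfl⟩)]; simp only [Pi.zero_apply, mem_Icc] at *; nlinarith
      · simp only [mem_Icc] at *; nlinarith
  have hKc : IsCompact (insert (x0 : ℂ) (sh '' K)) := (hK.image sh.continuous).insert _
  obtain ⟨C, hC, hCc, hKC, hCO⟩ := exists_convex_between hKc hO hOc hK'
  obtain ⟨δ, hδ, hsub⟩ := hC.exists_cthickening_subset_open hO hCO
  obtain ⟨h1, h2⟩ := isDisc_of_convex sh.symm.isOpenEmbedding (hCc.thickening δ) isOpen_thickening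
    ⟨x0, self_subset_thickening hδ _ (hKC (mem_insert _ _))⟩ hC.isBounded.thickening
  refine ⟨_, h1, fun u hu => h2 ▸ ⟨sh u, self_subset_thickening hδ _ (hKC
    (mem_insert_of_mem _ (mem_image_of_mem _ hu))), by simp⟩, ?_⟩
  rintro _ ⟨w, hw, rfl⟩
  obtain ⟨u, rfl⟩ := sh.surjective w
  obtain ⟨h3, h4⟩ := hsub (closure_thickening_subset_cthickening _ _ hw)
  rw [sh.symm_apply_apply]
  rw [shre] at h3
  rw [shim, abs_lt] at h4
  refine ⟨h3, fun h => ?_, fun h => ?_⟩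
  · rw [f1 h.1, g0 (Or.inr h.1)] at h4; simp at h4; linarith [h.2, h4.2]
  · rw [g1 h.1, f0 (Or.inr h.1)] at h4; simp at h4; linarith [h.2, h4.1]

/-- The point pushing step, for a cover of the complement of `Z` by two discs. -/
theorem push_step [Charted M] {Z : Set M} {h : M} {U : Bool → Set M} (hU : ∀ a, DX (U a))
    (hUZ : ∀ x, x ∉ Z ↔ ∃ a, x ∈ U a) (hh : ∀ a, h ∈ U a) {Λ : Subgroup (M ≃ₜ M)}
    (hΛ : Iso0 (insert h Z) ≤ Λ)
    (htr : ∀ p, (∀ a, p ∈ U a) → ∃ T : Bool → M ≃ₜ M, (∀ a, T a ∈ AA (U a) ∧ T a p = h) ∧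
      T true * (T false)⁻¹ ∈ Λ) {γ : M ≃ₜ M} (hγ : γ ∈ Iso0 Z) (hγh : γ h = h) : γ ∈ Λ := by
  obtain ⟨H0, hH0⟩ := hγ
  let H := H0.extend
  have hH : ∀ t, H t ∈ Fix Z := fun t => by
    obtain ⟨s, hs⟩ : H t ∈ range H0 := H0.extend_range ▸ mem_range_self t
    exact hs ▸ hH0 s
  have hZ : ∀ {a x}, x ∈ Z → x ∉ U a := fun hx h => (hUZ _).2 ⟨_, h⟩ hx
  have alex : ∀ {a T T' p}, T ∈ AA (U a) → T' ∈ AA (U a) → T p = h → T' p = h →
      T' * T⁻¹ ∈ Λ := fun {a T T' p} h1 h2 h3 h4 =>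
    hΛ ((hU a).iso0 (mul_mem h2 (inv_mem h1)) (hh a) (by
      rintro x (rfl | hx)
      · exact Or.inr ⟨rfl, by conv_lhs => rw [← h3]; simp [h4]⟩
      · exact Or.inl (hZ hx)))
  let P : ℝ → Prop := fun t => ∃ a, ∃ T ∈ AA (U a), H t h ∈ U a ∧ T (H t h) = h ∧ T * H t ∈ Λ
  have all : ∀ t, P t → ∀ a, ∀ T ∈ AA (U a), H t h ∈ U a → T (H t h) = h → T * H t ∈ Λ := by
    rintro t ⟨b, T', h1, h2, h3, h4⟩ a T h5 h6 h7
    suffices T * T'⁻¹ ∈ Λ by simpa [mul_assoc] using mul_mem this h4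
    by_cases hab : a = b
    · subst hab; exact alex h1 h5 h3 h7
    obtain ⟨S, hS, hS'⟩ := htr (H t h) fun c => by
      by_cases hc : c = a
      · rwa [hc]
      · rwa [show c = b by revert hab hc; cases a <;> cases b <;> cases c <;> simp]
    have h8 : S a * (S b)⁻¹ ∈ Λ := by
      cases a <;> cases b
      · exact (hab rfl).elim
      · simpa using inv_mem hS'
      · exact hS'
      · exact (hab rfl).elim
    simpa [mul_assoc] using mul_mem (mul_mem (alex (hS a).1 h5 (hS a).2 h7) h8)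
      (alex h1 (hS b).1 h3 (hS b).2)
  have key := PreconnectedSpace.induction₂' (fun s t : ℝ => P s → P t) (fun s => ?_)
    ⟨fun a b c h h' => h' ∘ h⟩ 0 1 ⟨true, 1, one_mem _, by simpa [H] using hh true, by simp [H],
      by simp [H]⟩
  · simpa [H] using all 1 key true 1 (one_mem _) (by simpa [H, hγh] using hh true)
      (by simp [H, hγh])
  obtain ⟨a, ha⟩ := (hUZ (H s h)).1 fun hz => hZ (by
    rwa [(H s).injective (hH s _ hz)] at hz) (hh true)
  obtain ⟨T, hT, hT', -⟩ := germClass_true.move (hU a).1 (hU a).preconn ha (hh a)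
  obtain ⟨N, hN, u, hu, hu'⟩ := loc_move (hU a).1 ha
  have hc : Continuous fun t => H t h := (continuous_hm_apply h).comp H0.continuous_extend
  obtain ⟨r, hr, hrN⟩ := Metric.mem_nhds_iff.1
    (hc.continuousAt (inter_mem hN ((hU a).1.mem_nhds ha)))
  have h1 : ∀ t ∈ ball s r, T * (u (H t h))⁻¹ ∈ AA (U a) ∧ (T * (u (H t h))⁻¹) (H t h) = h :=
    fun t ht => ⟨mul_mem hT (inv_mem (hu' _ (hrN ht).1).1), by
      rw [Homeomorph.mul_apply, Homeomorph.inv_apply,
        (Homeomorph.symm_apply_eq _).2 (hu' _ (hrN ht).1).2.symm, hT']⟩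
  have h2 : ∀ t ∈ ball s r, ∀ t' ∈ ball s r, P t → P t' := fun t ht t' ht' hP => by
    have hpc := ((convex_ball s r).isPathConnected ⟨s, mem_ball_self hr⟩).image'
      (f := fun t => T * (u (H t h))⁻¹ * H t) ((continuousOn_const.mul
        (hu.comp hc.continuousOn fun t ht => (hrN ht).1).inv).mul H0.continuous_extend.continuousOn)
    have := hΛ (Iso0_of_joined ((hpc.joinedIn _ (mem_image_of_mem _ ht) _
      (mem_image_of_mem _ ht')).mono (by
        rintro _ ⟨t, ht, rfl⟩ x (rfl | hx)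
        · exact (h1 t ht).2
        · rw [Homeomorph.mul_apply, hH t x hx, AA_fix (h1 t ht).1 (hZ hx)])))
    refine ⟨a, _, (h1 t' ht').1, (hrN ht').2, (h1 t' ht').2, ?_⟩
    simpa [mul_assoc] using mul_mem this (all t hP a _ (h1 t ht).1 (hrN ht).2 (h1 t ht).2)
  filter_upwards [ball_mem_nhds s hr] with t ht
  exact ⟨h2 s (mem_ball_self hr) t ht, h2 t ht s (mem_ball_self hr)⟩

end Pool.Agent.Lib.MP_069d55_gt.K
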