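import Pool.Agent.Lib.MP_069d55_gt.KGam

/-! Slit boxes, dead regions, families of discs, point pushing along a line. -/

open Set Topology Filter Metric

namespace Pool.Agent.Lib.MP_069d55_gt.K

/-- A box of height `H` with slits. -/
def SB (H c : ℝ) (J A B : Set ℝ) : Set ℂ := SR c J A B ∩ {u | |u.im| < H}

theorem DX_SB {H c : ℝ} (hc : 0 ≤ c) (hH : c < H) {J A B : Set ℝ} (hJ : IsOpen J)
    (hJc : Convex ℝ J) (hne : J.Nonempty) (hA : IsClosed A) (hB : IsClosed B)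
    (hAB : Disjoint A B) : DX (SB H c J A B) := by
  have hp : 0 < 2 * H / Real.pi := by have := hc.trans_lt hH; positivity
  let φ : ℝ → ℝ := fun t => 2 * H / Real.pi * Real.arctan t
  have hφ : StrictMono φ := Real.arctan_strictMono.const_mul hp
  have hr : range φ = Ioo (-H) H := by
    have : φ = (fun t => 2 * H / Real.pi * t) ∘ Real.arctan := rfl
    rw [this, range_comp, Real.range_arctan, image_mul_left_Ioo hp]
    congr 1 <;> field_simp
  have he : IsOpenEmbedding φ :=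
    ⟨hφ.isEmbedding_of_ordConnected (hr ▸ ordConnected_Ioo), hr ▸ isOpen_Ioo⟩
  obtain ⟨c0, hc0⟩ : c ∈ range φ := hr ▸ ⟨by linarith, hH⟩
  have hn : φ (-c0) = -c := by simp [φ, ← hc0, Real.arctan_neg]
  have h0 : 0 ≤ c0 := hφ.le_iff_le.1 (by simpa [φ, hc0] using hc0 ▸ hc)
  have hs := (Complex.equivRealProdCLM.symm.toHomeomorph.isOpenEmbedding.comp
    (IsOpenEmbedding.id.prodMap he)).comp Complex.equivRealProdCLM.toHomeomorph.isOpenEmbedding
  convert (DX_SR h0 hJ hJc hne hA hB hAB).image hs using 1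
  ext u
  constructor
  · rintro ⟨⟨h1, h2, h3⟩, h4⟩
    obtain ⟨t, ht⟩ : u.im ∈ range φ := hr ▸ abs_lt.1 h4
    refine ⟨⟨u.re, t⟩, ⟨h1, fun h => h2 ⟨h.1, ?_⟩, fun h => h3 ⟨h.1, ?_⟩⟩, ?_⟩
    · rw [← hn, ← ht]; exact hφ.monotone h.2
    · rw [← hc0, ← ht]; exact hφ.monotone h.2
    · apply Complex.ext <;> simp [ht]
  · rintro ⟨w, ⟨h1, h2, h3⟩, rfl⟩
    have : φ w.im ∈ Ioo (-H) H := hr ▸ mem_range_self _
    refine ⟨⟨by simpa using h1, fun h => h2 ⟨by simpa using h.1, hφ.le_iff_le.1 ?_⟩,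
      fun h => h3 ⟨by simpa using h.1, hφ.le_iff_le.1 ?_⟩⟩, by simpa [abs_lt] using this⟩
    · simpa [hn] using h.2
    · simpa [hc0] using h.2

variable {M : Type*} [MetricSpace M] [CompactSpace M] [Charted M] {E : Set M}

theorem TE.disc_cont (h : TE E) {D K : Set M} (hD : IsDisc D) (hK : IsCompact K)
    (hKD : K ⊆ interior D) : ∃ D' W, IsDisc D' ∧ K ⊆ D' ∧ D' ⊆ D ∧ IsClopen W ∧
      Cont (E := E) D' W := by
  have := h.compactSpace
  have := h.tdSpace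
  obtain ⟨d, hd, rfl⟩ := hD
  rw [interior_image_ball hd] at hKD
  obtain ⟨r0, r01, hr0⟩ := exists_lt_subset_ball (x := (0 : ℂ)) (r := 1)
    (hK.isClosed.preimage hd.continuous) fun z hz => hd.injective.mem_set_image.1 (hKD hz)
  set a := max r0 0 with ha
  have a0 : 0 ≤ a := le_max_right _ _
  have a1 : a < 1 := max_lt r01 one_pos
  obtain ⟨r, ar, r1⟩ := exists_between a1
  have cl : ∀ t : ℝ, IsClosed (d '' closedBall 0 t) := fun t =>
    ((isCompact_closedBall _ _).image hd.continuous).isClosed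
  have op : ∀ t : ℝ, IsOpen (d '' ball 0 t) := fun t => hd.isOpenMap _ isOpen_ball
  have btw : ∀ {t t' : ℝ}, t < t' → ∃ W : Set E, IsClopen W ∧ Subtype.val ⁻¹' (d '' closedBall 0 t) ⊆ W ∧
      W ⊆ Subtype.val ⁻¹' (d '' ball 0 t') := fun h' => exists_clopen_between
    ((cl _).preimage continuous_subtype_val) ((op _).preimage continuous_subtype_val)
    (preimage_mono (image_mono (closedBall_subset_ball h')))
  obtain ⟨W1, w1, w2, w3⟩ := btw r1
  obtain ⟨Wa, v1, v2, v3⟩ := btw ar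
  obtain ⟨o1, o2⟩ := h.region ((op 1).sdiff (cl a)) (by
    rw [← image_sdiff hd.injective]
    exact (preconn_annulus 0 a0 1).image _ hd.continuous.continuousOn) (w1.diff v1).2
  obtain ⟨x0, hx0, hx0'⟩ := h.nd _ ((op r).sdiff (cl a)) (by
    obtain ⟨t, h1, h2⟩ := exists_between ar
    refine ⟨d t, mem_image_of_mem _ ?_, fun h => ?_⟩
    · simpa [abs_of_pos (a0.trans_lt h1)]
    · have := hd.injective.mem_set_image.1 h
      simp [abs_of_pos (a0.trans_lt h1)] at this; linarith)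
  have hb : d '' ball 0 r ⊆ d '' ball 0 1 := image_mono (ball_subset_ball r1.le)
  obtain ⟨k, hk, hk'⟩ := gather_one o1 o2 (h.isCompact_val (w1.diff v1).1)
    (h.tame.mono (Subtype.coe_image_subset _ _)) (by
      rintro _ ⟨x, hx, rfl⟩
      exact ⟨⟨w3 hx.1, fun h => hx.2 (v2 h)⟩, fun h => Subtype.val_injective.mem_set_image.1 h hx⟩)
    (o1.inter (op r)) ⟨x0, ⟨⟨hb hx0.1, hx0.2⟩, fun h => hx0' (Subtype.coe_image_subset _ _ h)⟩,
      hx0.1⟩ inter_subset_left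
  obtain ⟨d1, d2⟩ := isDisc_closedBall hd 0 (a0.trans_lt ar)
  have fx : ∀ x : E, x ∉ W1 \ Wa → k x = x := fun x hx => AA_fix hk fun h => h.2 ⟨x, hx, rfl⟩
  refine ⟨k.symm '' (d '' closedBall 0 r), W1, d1.image _, fun x hx => ?_, ?_, w1, fun x hx => ?_,
    fun x hx => ?_⟩
  · have : x ∈ d '' closedBall 0 a := by
      obtain ⟨z, -, rfl⟩ := hKD hx
      exact mem_image_of_mem _ (ball_subset_closedBall (ball_subset_ball (le_max_left _ _) (hr0 hx)))
    exact ⟨x, image_mono (closedBall_subset_closedBall ar.le) this,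
      AA_fix (inv_mem hk) fun h => h.1.2 this⟩
  · rintro _ ⟨x, hx, rfl⟩
    exact image_mono ball_subset_closedBall ((AA_mem_iff (AA_mono (sdiff_subset.trans sdiff_subset)
      (inv_mem hk)) x).2 (image_mono (closedBall_subset_ball r1) hx))
  · rw [← k.symm.image_interior, d2]
    refine ⟨k x, ?_, by simp⟩
    by_cases hx' : x ∈ Wa
    · rw [fx x fun h => h.2 hx']; exact v3 hx'
    · exact (hk' ⟨x, ⟨hx, hx'⟩, rfl⟩).2
  · by_contra hx'
    obtain ⟨y, hy, hy'⟩ := hx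
    rw [Homeomorph.symm_apply_eq, fx x fun h => hx' h.1] at hy'
    exact hx' (w2 (by rwa [hy'] at hy))

theorem Ctx.dead_DX [PreconnectedSpace M] {V N : Subgroup (M ≃ₜ M)} (h : Ctx E V N) {Ω : Set M}
    (hΩ : DX Ω) (hd : ∀ W : Set E, IsClopen W → (∀ x ∈ W, (x : M) ∈ Ω) → Dead W) {k : M ≃ₜ M}
    (hk : k ∈ Stab E) (hkΩ : k ∈ AA Ω) : k ∈ N := by
  obtain ⟨K, hK, hKΩ, hk'⟩ := hkΩ
  obtain ⟨D, d1, d2, d3⟩ := hΩ.2 _ hK hKΩ
  obtain ⟨D', W, e1, e2, e3, e4, e5⟩ := h.toTE.disc_cont d1 hK d2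
  exact h.dead_disc e1 (hd W e4 fun x hx => d3 (e3 (interior_subset (e5.1 x hx)))) e5 hk
    fun x hx => hk' x fun h => hx (e2 h)

/-- A plane chart onto the complement of `y`. -/
structure LC (y : M) (e : ℂ → M) : Prop where
  emb : IsOpenEmbedding e
  range_eq : range e = {y}ᶜ

omit [CompactSpace M] [Charted M] in
theorem LC.ne {y : M} {e : ℂ → M} (h : LC y e) (u : ℂ) : e u ≠ y :=
  h.range_eq.subset (mem_range_self u)

omit [CompactSpace M] [Charted M] in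
theorem LC.comp {y : M} {e : ℂ → M} (h : LC y e) {k : M ≃ₜ M} (hk : k y = y) : LC y (k ∘ e) :=
  ⟨k.isOpenEmbedding.comp h.emb, by
    rw [range_comp, h.range_eq, k.image_compl, image_singleton, hk]⟩

theorem push_line {y : M} {e : ℂ → M} (he : LC y e) {Z0 : Set ℝ} (hZ : Z0.Finite) {h0 : ℝ}
    (hh : h0 ∉ Z0) {Λ : Subgroup (M ≃ₜ M)}
    (hΛ : Iso0 (insert (e h0) (insert y ((fun r : ℝ => e r) '' Z0))) ≤ Λ)
    (htr : ∀ q' ∉ Z0, ∃ q ∉ Z0, (∀ r ∈ Z0, r < q ↔ r < q') ∧ ∃ c c' : M ≃ₜ M,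
      c ∈ AA (e '' SR 0 univ ∅ Z0) ∧ c' ∈ AA (e '' SR 0 univ Z0 ∅) ∧ c (e h0) = e q ∧
      c' (e h0) = e q ∧ c⁻¹ * c' ∈ Λ) {γ : M ≃ₜ M}
    (hγ : γ ∈ Iso0 (insert y ((fun r : ℝ => e r) '' Z0))) (hγh : γ (e h0) = e h0) : γ ∈ Λ := by
  have hc := hZ.isClosed
  refine push_step (U := fun a => e '' (bif a then SR 0 univ ∅ Z0 else SR 0 univ Z0 ∅))
    (fun a => DX.image he.emb ?_) (fun x => ?_) (fun a => mem_image_of_mem _ ?_) hΛ
    (fun p hp => ?_) hγ hγh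
  · cases a
    exacts [DX_SR le_rfl isOpen_univ convex_univ univ_nonempty hc isClosed_empty (by simp),
      DX_SR le_rfl isOpen_univ convex_univ univ_nonempty isClosed_empty hc (by simp)]
  · constructor
    · intro hx
      rw [mem_insert_iff, not_or] at hx
      obtain ⟨u, rfl⟩ := he.range_eq.symm.subset hx.1
      rcases lt_trichotomy u.im 0 with h | h | h
      · exact ⟨false, u, by simp [SR, h], rfl⟩
      · refine ⟨false, u, ?_, rfl⟩
        simpa [SR, h] using fun h' => hx.2 ⟨u.re, h', congrArg e (by apply Complex.ext <;> simp [h])⟩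
      · exact ⟨true, u, by simp [SR, h], rfl⟩
    · rintro ⟨a, u, hu, rfl⟩ (h | ⟨r, hr, h⟩)
      · exact he.ne u h
      · obtain rfl := he.emb.injective h
        cases a <;> simp [SR, hr] at hu
  · cases a <;> simp [SR, hh]
  obtain ⟨p, hp1, rfl⟩ := hp true
  have hp2 := he.emb.injective.mem_set_image.1 (hp false)
  have hp3 : p.re ∉ Z0 := fun h => by
    simp [SR, h] at hp1 hp2; linarith
  obtain ⟨q, hq, hq', c, c', c1, c2, c3, c4, c5⟩ := htr p.re hp3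
  let J := ⋂ r ∈ Z0, {x : ℝ | (r < q → r < x) ∧ (q < r → x < r)}
  have hJ : DX (e '' SR 0 J ∅ ∅) := DX.image he.emb (DX_SR le_rfl (hZ.isOpen_biInter fun r _ => by
      rcases lt_trichotomy r q with h | h | h
      · simpa [h, h.le.not_gt] using isOpen_lt continuous_const continuous_id
      · simp [h]
      · simpa [h, h.le.not_gt] using isOpen_lt continuous_id continuous_const)
    (convex_iInter₂ fun r _ x hx y hy a b ha hb hab =>
      ⟨fun h => convex_Ioi r (hx.1 h) (hy.1 h) ha hb hab,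
        fun h => convex_Iio r (hx.2 h) (hy.2 h) ha hb hab⟩)
    ⟨q, mem_iInter₂.2 fun r _ => ⟨id, id⟩⟩ isClosed_empty isClosed_empty (by simp))
  have hJZ : ∀ x ∈ J, x ∉ Z0 := fun x hx h => by
    have := mem_iInter₂.1 hx x h
    rcases lt_trichotomy x q with h' | h' | h'
    exacts [lt_irrefl _ (this.1 h'), hq (h' ▸ h), lt_irrefl _ (this.2 h')]
  obtain ⟨T, t1, t2, -⟩ := germClass_true.move hJ.1 hJ.preconn (p := e p) (q := e q)
    (mem_image_of_mem _ ⟨mem_iInter₂.2 fun r hr => ⟨(hq' r hr).1, fun h => lt_of_le_of_ne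
      (not_lt.1 fun h' => h.not_gt ((hq' r hr).2 h')) fun h' => hp3 (h' ▸ hr)⟩, by simp⟩)
    (mem_image_of_mem _ ⟨mem_iInter₂.2 fun r _ => ⟨id, id⟩, by simp⟩)
  refine ⟨fun a => (bif a then c else c')⁻¹ * T, fun a => ⟨mul_mem (inv_mem ?_)
    (AA_mono (image_mono fun u hu => ?_) t1), ?_⟩, by simpa [mul_assoc] using c5⟩
  · cases a; exacts [c2, c1]
  · cases a <;> simp [SR, hJZ _ hu.1]
  · rw [Homeomorph.mul_apply, t2, Homeomorph.inv_apply, Homeomorph.symm_apply_eq]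
    cases a; exacts [c4.symm, c3.symm]

omit [CompactSpace M] [Charted M] in
theorem exists_routes {e : ℂ → M} (he : IsOpenEmbedding e) {Ω Ω' : Set ℂ} (h1 : DX Ω)
    (h2 : DX Ω') {p q : ℂ} (h3 : closedBall p 1 ⊆ Ω) (h4 : closedBall p 1 ⊆ Ω') (h5 : q ∈ Ω)
    (h6 : q ∈ Ω') : ∃ c ∈ AA (e '' Ω), ∃ c' ∈ AA (e '' Ω'), c (e p) = e q ∧
      ∀ x ∈ e '' closedBall p 1, c' x = c x ∧ c x ∈ e '' ball q (1 / 2) := by
  have key := fun {Ω : Set ℂ} (h1 : DX Ω) (h3 : closedBall p 1 ⊆ Ω) (h5 : q ∈ Ω) =>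
    move_affine h1.1 h1.preconn (finite_singleton ()) (C := fun _ => closedBall p 1)
      (p := fun _ => p) (q := fun _ => q) (fun _ _ => isCompact_closedBall _ _)
      (fun _ _ => mem_closedBall_self zero_le_one)
      (fun _ _ => (convex_closedBall _ _).starConvex (mem_closedBall_self zero_le_one))
      (pairwiseDisjoint_singleton _ _) (fun _ _ => h3) (fun _ _ _ _ _ => rfl) fun _ _ => h5
  obtain ⟨l, ⟨k, k1, k2⟩, ⟨k', k3, k4⟩, hl⟩ := ((key h1 h3 h5).and ((key h2 h4 h6).and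
    (Ioo_mem_nhdsGT one_half_pos))).exists
  obtain ⟨c, c1, c2⟩ := exists_lift he k1
  obtain ⟨c', c3, c4⟩ := exists_lift he k3
  refine ⟨c, c2, c', c4, by rw [c1.1, k2 () rfl p (mem_closedBall_self zero_le_one)]; simp, ?_⟩
  rintro _ ⟨u, hu, rfl⟩
  rw [c1.1, c3.1, k2 () rfl u hu, k4 () rfl u hu]
  refine ⟨rfl, mem_image_of_mem _ ?_⟩
  rw [mem_closedBall, dist_eq_norm] at hu
  have := hl.1
  simp only [mem_ball, dist_self_add_left, norm_mul, Complex.norm_real, Real.norm_eq_abs,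
    abs_of_pos this]
  nlinarith [hl.2]

omit [CompactSpace M] in
theorem gather_pointed [PreconnectedSpace M] {s : Set M} (hs : s.Finite) {D T : M → Set M}
    {p : M → M} (hD : ∀ i ∈ s, IsDisc (D i)) (hd : s.PairwiseDisjoint D) (hm : ∀ i ∈ s, i ∈ D i)
    (hT : ∀ i ∈ s, IsOpen (T i)) (hTc : ∀ i ∈ s, IsPreconnected (T i))
    (hTd : s.PairwiseDisjoint T) (hp : ∀ i ∈ s, p i ∈ T i) :
    ∃ k : M ≃ₜ M, ∀ i ∈ s, MapsTo k (D i) (T i) ∧ k i = p i := by
  obtain ⟨k, -, hk⟩ := gather_discs isOpen_univ isPreconnected_univ hs hD hd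
    (fun _ _ => subset_univ _) hT (fun i hi => ⟨_, hp i hi⟩) fun _ _ => subset_univ _
  choose! m m1 m2 _ using fun i hi => germClass_true.move (hT i hi) (hTc i hi)
    (hk i hi (hm i hi)) (hp i hi)
  obtain ⟨K, -, h1, h2⟩ := glue_open hs hTd m1
  exact ⟨K * k, fun i hi => ⟨fun x hx => (h2 i hi _).2 (hk i hi hx),
    (h1 i hi _ (hk i hi (hm i hi))).trans (m2 i hi)⟩⟩

/-- A finite family of disjoint discs centred at points of `E`, with boundaries off `E`. -/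
structure Fam (E : Set M) (s : Set M) (D : M → Set M) : Prop where
  fin : s.Finite
  disc : ∀ i ∈ s, IsDisc (D i)
  disj : s.PairwiseDisjoint D
  mem : ∀ i ∈ s, i ∈ D i
  sub : s ⊆ E
  int : ∀ i ∈ s, ∀ x ∈ E, x ∈ D i → x ∈ interior (D i)

omit [CompactSpace M] [Charted M] in
theorem Fam.cov {s : Set M} {D : M → Set M} (h : Fam E s D) (hc : ∀ x ∈ E, ∃ i ∈ s, x ∈ D i)
    {δ : ℝ} (hδ : 0 < δ) (hs : ∀ i ∈ s, Sm δ (D i)) :
    Cov E s (fun i => interior (D i)) id δ :=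
  ⟨hδ, h.fin, fun _ _ => isOpen_interior, fun i hi => (h.disc i hi).preconn_interior,
    h.disj.mono fun _ => interior_subset, fun x hx =>
      let ⟨i, hi, h'⟩ := hc x hx
      ⟨i, hi, h.int i hi x hx h'⟩, h.sub, fun i hi => h.int i hi i (h.sub hi) (h.mem i hi),
    fun i hi => (hs i hi).mono interior_subset⟩

omit [Charted M] in
theorem Fam.extend [Nonempty M] (hE : TE E) {s : Set M} {D : M → Set M} (h : Fam E s D) {O : M → Set M}
    (hO : ∀ x ∈ E, (∀ i ∈ s, x ∉ D i) → O x ∈ 𝓝 x) :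
    ∃ s' D', Fam E s' D' ∧ s ⊆ s' ∧ (∀ i ∈ s, D' i = D i) ∧ (∀ x ∈ E, ∃ i ∈ s', x ∈ D' i) ∧
      ∀ i ∈ s' \ s, ∃ x ∈ E, (∀ i ∈ s, x ∉ D i) ∧ D' i ⊆ O x := by
  classical
  let C := E \ ⋃ i ∈ s, interior (D i)
  have hC : ∀ x ∈ C, ∀ i ∈ s, x ∉ D i := fun x hx i hi h' =>
    hx.2 (mem_iUnion₂.2 ⟨i, hi, h.int i hi x hx.1 h'⟩)
  have hU := (h.fin.isClosed_biUnion fun i hi => (h.disc i hi).isCompact.isClosed).isOpen_compl
  obtain ⟨𝒟, a1, a2, a3, a4⟩ := (hE.tame.mono sdiff_subset).cover (C := C) (hE.closed.sdiff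
    (isOpen_biUnion fun _ _ => isOpen_interior)).isCompact
    (O := fun x : C => interior (O x) ∩ (⋃ i ∈ s, D i)ᶜ) (fun _ => isOpen_interior.inter hU)
    (fun x hx => mem_iUnion.2 ⟨⟨x, hx⟩, mem_interior_iff_mem_nhds.2 (hO x hx.1 (hC x hx)),
      fun h => by obtain ⟨i, hi, h⟩ := mem_iUnion₂.1 h; exact hC x hx i hi h⟩) one_pos
  have hn : ∀ A ∈ 𝒟, ∀ i ∈ s, ∀ x ∈ A, x ∉ D i := fun A hA i hi x hx h' => by
    obtain ⟨-, -, y, hy⟩ := a2 A hA
    exact (hy hx).2 (mem_iUnion₂.2 ⟨i, hi, h'⟩)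
  have eq : ∀ {A B x}, A ∈ 𝒟 → B ∈ 𝒟 → x ∈ A → x ∈ B → A = B := fun hA hB h h' =>
    a3.elim hA hB (Set.not_disjoint_iff.2 ⟨_, h, h'⟩)
  choose! c c1 c2 using fun A (hA : (A ∩ E).Nonempty) => hA
  choose! d d1 d2 using a4
  let t := c '' {A ∈ 𝒟 | (A ∩ E).Nonempty}
  have ht : ∀ i ∈ t, i ∈ C ∧ i ∉ s ∧ c (d i) = i := by
    rintro _ ⟨A, hA, rfl⟩
    have : c A ∈ C := ⟨c2 A hA.2, fun h => by
      obtain ⟨i, hi, h⟩ := mem_iUnion₂.1 h
      exact hn A hA.1 i hi _ (c1 A hA.2) (interior_subset h)⟩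
    exact ⟨this, fun h' => hC _ this _ h' (h.mem _ h'),
      by rw [eq (d1 _ this) hA.1 (interior_subset (d2 _ this)) (c1 A hA.2)]⟩
  have e1 : ∀ i ∈ s, s.piecewise D d i = D i := fun i hi => piecewise_eq_of_mem _ _ _ hi
  have e2 : ∀ i ∈ t, s.piecewise D d i = d i := fun i hi =>
    piecewise_eq_of_notMem _ _ _ (ht i hi).2.1
  refine ⟨s ∪ t, s.piecewise D d, ⟨h.fin.union ((a1.subset (sep_subset _ _)).image _), ?_, ?_, ?_,
    union_subset h.sub fun i hi => (ht i hi).1.1, ?_⟩, subset_union_left, e1, fun x hx => ?_, ?_⟩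
  · rintro i (hi | hi)
    exacts [e1 i hi ▸ h.disc i hi, e2 i hi ▸ (a2 _ (d1 i (ht i hi).1)).1]
  · rintro i (hi | hi) j (hj | hj) hne <;> simp only [Function.onFun]
    · rw [e1 i hi, e1 j hj]; exact h.disj hi hj hne
    · rw [e1 i hi, e2 j hj]; exact Set.disjoint_right.2 (hn _ (d1 j (ht j hj).1) i hi)
    · rw [e2 i hi, e1 j hj]; exact Set.disjoint_left.2 (hn _ (d1 i (ht i hi).1) j hj)
    · rw [e2 i hi, e2 j hj]
      exact a3 (d1 i (ht i hi).1) (d1 j (ht j hj).1) fun h =>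
        hne (by rw [← (ht i hi).2.2, h, (ht j hj).2.2])
  · rintro i (hi | hi)
    exacts [e1 i hi ▸ h.mem i hi, e2 i hi ▸ interior_subset (d2 i (ht i hi).1)]
  · rintro i (hi | hi) x hx
    · rw [e1 i hi]; exact h.int i hi x hx
    · rw [e2 i hi]
      intro hx'
      have : x ∈ C := ⟨hx, fun h => by
        obtain ⟨j, hj, h⟩ := mem_iUnion₂.1 h
        exact hn _ (d1 i (ht i hi).1) j hj _ hx' (interior_subset h)⟩
      rw [eq (d1 i (ht i hi).1) (d1 x this) hx' (interior_subset (d2 x this))]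
      exact d2 x this
  · by_cases hx' : x ∈ C
    · have hne : (d x ∩ E).Nonempty := ⟨x, interior_subset (d2 x hx'), hx⟩
      have : c (d x) ∈ t := ⟨_, ⟨d1 x hx', hne⟩, rfl⟩
      refine ⟨_, Or.inr this, ?_⟩
      rw [e2 _ this, eq (d1 _ (ht _ this).1) (d1 x hx') (interior_subset (d2 _ (ht _ this).1))
        (c1 _ hne)]
      exact interior_subset (d2 x hx')
    · obtain ⟨i, hi, h⟩ := mem_iUnion₂.1 (not_not.1 fun h => hx' ⟨hx, h⟩)
      exact ⟨i, Or.inl hi, e1 i hi ▸ interior_subset h⟩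
  · rintro i ⟨hi | hi, hi'⟩
    · exact (hi' hi).elim
    · obtain ⟨-, -, y, hy⟩ := a2 _ (d1 i (ht i hi).1)
      exact ⟨y, y.2.1, hC y y.2, e2 i hi ▸ fun x hx => interior_subset (hy hx).1⟩

end Pool.Agent.Lib.MP_069d55_gt.K
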