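import Pool.Agent.Lib.MP_069d55_gt.KMove
import Pool.Agent.Lib.MP_069d55_gt.Disc

/-! The linking character of plane homeomorphisms. -/

open Set Topology Filter Metric Complex Pool.Agent.Lib.MP_1e9af3_an

namespace Pool.Agent.Lib.MP_069d55_gt.K

/-- Joint logarithm of the difference quotient. -/
def JL (F : ℂ → ℂ) (L : ℂ × ℂ → ℂ) : Prop :=
  ContinuousOn L {p | p.1 ≠ p.2} ∧ ∀ z y, z ≠ y → ee (L (z, y)) * (z - y) = F z - F y

theorem exists_JL {F : ℂ ≃ₜ ℂ} (hF : deg F = 1) : ∃ L, JL F L := by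
  obtain ⟨l, hl, he⟩ := MP_1e9af3_an.exists_lift (U := (univ : Set (ℂ × ℂ))) convex_univ
    isOpen_univ univ_nonempty (g := fun p => (F (p.2 + ee p.1) - F p.2) / ee p.1)
    (Continuous.continuousOn (Continuous.div (by fun_prop) (by fun_prop) fun _ => ee_ne _))
    fun p _ => div_ne_zero (sub_ne_zero.2 fun h => ee_ne p.1 (by simpa using h)) (ee_ne _)
  rw [continuousOn_univ] at hl
  have he' : ∀ w y, ee (l (w, y)) * ee w = F (y + ee w) - F y := fun w y => by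
    rw [he _ trivial]; exact div_mul_cancel₀ _ (ee_ne _)
  have hi : ∀ p : ℂ × ℂ, ∃ n : ℤ, l (p.1 + 1, p.2) - l p = n := fun p => by
    obtain ⟨n, hn⟩ := ee_eq_iff.1 (show ee (l (p.1 + 1, p.2)) = ee (l p) by
      rw [he _ trivial, he _ trivial, ee_add_one])
    exact ⟨n, by rw [hn]; ring⟩
  obtain ⟨d, hd⟩ := hi (0, 0)
  have hp : ∀ w y, l (w + 1, y) = l (w, y) + d := fun w y => by
    have := int_const (S := univ) isPreconnected_univ (g := fun p : ℂ × ℂ => l (p.1 + 1, p.2) - l p)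
      (by fun_prop) (fun p _ => hi p) (mem_univ (w, y)) (mem_univ (0, 0))
    linear_combination this + hd
  have hw : HasWind (lp F 0 1) (d + 1) := ⟨fun θ => l (θ, 0) + θ, by fun_prop,
    fun θ => by simp [ee_add, he', lp], fun θ => by push_cast; rw [hp]; ring⟩
  have d0 : d = 0 := by have := hw.wind_eq.symm.trans hF; omega
  have hq : ∀ w w' y, ee w = ee w' → l (w, y) = l (w', y) := fun w w' y h => by
    obtain ⟨n, rfl⟩ := ee_eq_iff.1 h
    simpa [d0] using lift_int (U := univ) (L := fun w => l (w, y)) (fun _ _ _ => trivial)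
      (fun w _ => hp w y) n w' trivial
  refine ⟨fun p => l (log (p.1 - p.2) / tpi, p.2), fun p hp => ?_, fun z y h => ?_⟩
  · have h0 : p.1 - p.2 ≠ 0 := sub_ne_zero.2 hp
    have : ContinuousAt (fun q : ℂ × ℂ =>
        l (log (p.1 - p.2) / tpi + log ((q.1 - q.2) / (p.1 - p.2)) / tpi, q.2)) p :=
      hl.continuousAt.comp ((continuousAt_const.add ((ContinuousAt.clog (by fun_prop)
        (by simp [div_self h0])).div_const _)).prodMk continuousAt_snd)
    refine this.continuousWithinAt.congr (fun q hq' => hq _ _ _ ?_) (by simp [div_self h0])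
    have h1 : q.1 - q.2 ≠ 0 := sub_ne_zero.2 hq'
    rw [ee_add, ee_log h0, ee_log h1, ee_log (div_ne_zero h1 h0)]; field_simp
  · have := he' (log (z - y) / tpi) y
    rwa [ee_log (sub_ne_zero.2 h), add_sub_cancel] at this

theorem preconn_compl_pt (y : ℂ) : IsPreconnected ({y}ᶜ : Set ℂ) :=
  (isConnected_compl_singleton_of_one_lt_rank rank_two y).isPreconnected

theorem JL.cont {F : ℂ → ℂ} {L : ℂ × ℂ → ℂ} (h : JL F L) (y : ℂ) {A : Set ℂ}
    (hA : ∀ z ∈ A, z ≠ y) : ContinuousOn (fun z => L (z, y)) A :=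
  h.1.comp (by fun_prop) hA

theorem JL.diff {F : ℂ ≃ₜ ℂ} {L L' : ℂ × ℂ → ℂ} (h : JL F L) (h' : JL F L') {x b y : ℂ}
    (hx : x ≠ y) (hb : b ≠ y) : L (x, y) - L (b, y) = L' (x, y) - L' (b, y) := by
  have := int_const (preconn_compl_pt y) (g := fun z => L (z, y) - L' (z, y))
    ((h.cont y fun _ h => h).sub (h'.cont y fun _ h => h)) (fun z hz => by
      obtain ⟨n, hn⟩ := ee_eq_iff.1 (mul_right_cancel₀ (sub_ne_zero.2 hz)
        ((h.2 z y hz).trans (h'.2 z y hz).symm))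
      exact ⟨n, by rw [hn]; ring⟩) hx hb
  linear_combination this

theorem JL.mul {F G : ℂ ≃ₜ ℂ} {L L' : ℂ × ℂ → ℂ} (h : JL F L) (h' : JL G L') :
    JL (F * G : ℂ ≃ₜ ℂ) fun p => L (G p.1, G p.2) + L' p :=
  ⟨(h.1.comp (by fun_prop) fun p hp => G.injective.ne hp).add h'.1, fun z y hz => by
    rw [ee_add, mul_assoc, h'.2 z y hz, h.2 _ _ (G.injective.ne hz)]; rfl⟩

/-- normalised logarithm of the cross ratio -/
noncomputable def cr (b x y : ℂ) : ℂ := log ((x - y) / (b - y)) / tpi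

/-- local contribution to the linking character -/
noncomputable def nn (F : ℂ → ℂ) (L : ℂ × ℂ → ℂ) (b x y : ℂ) : ℂ :=
  L (x, y) - L (b, y) - cr b (F x) (F y) + cr b x y

theorem JL.nn_int {F : ℂ ≃ₜ ℂ} {L : ℂ × ℂ → ℂ} (h : JL F L) {b x y : ℂ} (hF : F b = b)
    (hx : x ≠ y) (hb : b ≠ y) : ∃ n : ℤ, nn F L b x y = n := by
  have h1 := h.2 x y hx
  have h2 := h.2 b y hb
  have a1 := sub_ne_zero.2 hx
  have a2 := sub_ne_zero.2 hb
  have a3 := sub_ne_zero.2 (F.injective.ne hx)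
  have a4 := sub_ne_zero.2 (F.injective.ne hb)
  rw [hF] at h2 a4
  obtain ⟨n, hn⟩ := ee_eq_iff.1 (show ee (nn F L b x y) = ee 0 by
    rw [nn, ee_add, ee_sub, ee_sub, cr, cr, ee_log (div_ne_zero a1 a2), ee_log (div_ne_zero a3 a4),
      ee_zero, ← h1, ← h2]
    have := ee_ne (L (x, y)); have := ee_ne (L (b, y))
    field_simp)
  exact ⟨n, by simpa using hn⟩

theorem cr_slit {b z y : ℂ} (h : ‖z - b‖ < ‖y - b‖) : (z - y) / (b - y) ∈ slitPlane :=
  mem_slit_of_close (by rwa [sub_sub_sub_cancel_right, norm_sub_rev b])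

theorem JL.nn_zero {F : ℂ ≃ₜ ℂ} {L : ℂ × ℂ → ℂ} (h : JL F L) {b x y : ℂ} (hF : F b = b)
    {A : Set ℂ} (hA : IsPreconnected A) (hb : b ∈ A) (hx : x ∈ A)
    (h1 : ∀ z ∈ A, ‖z - b‖ < ‖y - b‖ ∧ ‖F z - b‖ < ‖F y - b‖) : nn F L b x y = 0 := by
  have ne : ∀ z ∈ A, z ≠ y := fun z hz e => lt_irrefl _ (e ▸ (h1 z hz).1)
  have := int_const hA (g := fun z => nn F L b z y)
    ((((h.cont y ne).sub continuousOn_const).sub ((ContinuousOn.clog (by fun_prop)
      fun z hz => cr_slit (h1 z hz).2).div_const _)).add ((ContinuousOn.clog (by fun_prop)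
      fun z hz => cr_slit (h1 z hz).1).div_const _)) (fun z hz => h.nn_int hF (ne z hz) (ne b hb))
    hx hb
  have a2 := sub_ne_zero.2 (ne b hb)
  have a4 := sub_ne_zero.2 (F.injective.ne (ne b hb))
  rw [hF] at a4
  simpa [nn, cr, hF, div_self a2, div_self a4] using this

theorem JL.eq_of_close {F : ℂ ≃ₜ ℂ} {L : ℂ × ℂ → ℂ} (h : JL F L) {b x y : ℂ} (hb' : F b = b)
    (hx' : F x = x) (hy' : F y = y) {A : Set ℂ} (hA : IsPreconnected A) (hb : b ∈ A) (hx : x ∈ A)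
    (h1 : ∀ z ∈ A, ‖F z - z‖ < ‖z - y‖) : nn F L b x y = 0 := by
  have ne : ∀ z ∈ A, z ≠ y := fun z hz e => by simpa [e, hy'] using h1 z hz
  have sl : ∀ z ∈ A, (F z - y) / (z - y) ∈ slitPlane := fun z hz =>
    mem_slit_of_close (by simpa using h1 z hz)
  have := int_const hA (g := fun z => L (z, y) - log ((F z - y) / (z - y)) / tpi)
    ((h.cont y ne).sub ((ContinuousOn.clog (ContinuousOn.div (by fun_prop) (by fun_prop)
      fun z hz => sub_ne_zero.2 (ne z hz)) sl).div_const _)) (fun z hz => by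
      obtain ⟨n, hn⟩ := ee_eq_iff.1 (show ee (L (z, y)) = ee (log ((F z - y) / (z - y)) / tpi) by
        rw [ee_log (slitPlane_ne_zero (sl z hz)), eq_div_iff (sub_ne_zero.2 (ne z hz)),
          h.2 z y (ne z hz), hy'])
      exact ⟨n, by rw [hn]; ring⟩) hx hb
  simp only [hb', hx', div_self (sub_ne_zero.2 (ne b hb)), div_self (sub_ne_zero.2 (ne x hx))]
    at this
  rw [nn, hx', hy']; linear_combination this

/-- Two discrete sets converging to `b` and to infinity. -/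
structure LD (b : ℂ) (P Q : Set ℂ) : Prop where
  finP : ∀ r > 0, (P \ ball b r).Finite
  finQ : ∀ r, (Q ∩ ball b r).Finite
  notMem : b ∉ Q
  notMem' : b ∉ P
  disj : Disjoint P Q

/-- Admissible homeomorphisms. -/
structure Adm (b : ℂ) (P Q : Set ℂ) (F : ℂ ≃ₜ ℂ) : Prop where
  deg : deg F = 1
  fix : F b = b
  memP : ∀ z, F z ∈ P ↔ z ∈ P
  memQ : ∀ z, F z ∈ Q ↔ z ∈ Q

variable {b : ℂ} {P Q : Set ℂ}

theorem LD.radii (h : LD b P Q) : ∃ d > 0, ∃ R > 0, (∀ y ∈ Q, d ≤ ‖y - b‖) ∧ P ⊆ ball b R := by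
  obtain ⟨d, hd, h1⟩ := Metric.isOpen_iff.1 (h.finQ 1).isClosed.isOpen_compl b
    fun h' => h.notMem h'.1
  obtain ⟨R, hR, h2⟩ := ((h.finP 1 one_pos).isBounded.union
    (isBounded_ball (x := b) (r := 1))).subset_ball_lt 0 b
  refine ⟨min d 1, lt_min hd one_pos, R, hR, fun y hy => le_of_not_gt fun h' => ?_,
    fun x hx => h2 (by simpa using Or.inl hx)⟩
  rw [← dist_eq_norm, lt_min_iff] at h'
  exact h1 h'.1 ⟨hy, h'.2⟩

theorem LD.finite_supp (h : LD b P Q) {F : ℂ ≃ₜ ℂ} (a : Adm b P Q F) {L : ℂ × ℂ → ℂ}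
    (hL : JL F L) : {p : ℂ × ℂ | p.1 ∈ P ∧ p.2 ∈ Q ∧ nn F L b p.1 p.2 ≠ 0}.Finite := by
  obtain ⟨d, hd, R, hR, h1, h2⟩ := h.radii
  obtain ⟨δ, hδ, h3⟩ := Metric.mem_nhds_iff.1 (inter_mem (ball_mem_nhds b hd)
    (F.continuous.continuousAt.preimage_mem_nhds (a.fix.symm ▸ ball_mem_nhds b hd)))
  obtain ⟨R', h4⟩ := ((isCompact_closedBall b R).image F.continuous).isBounded.subset_ball b
  refine ((h.finP δ hδ).prod ((h.finQ R).union ((h.finQ R').preimage F.injective.injOn))).subset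
    fun p ⟨p1, p2, p3⟩ => ⟨⟨p1, fun hp => p3 ?_⟩, by_contra fun hp => p3 ?_⟩
  · refine hL.nn_zero a.fix (convex_ball b δ).isPreconnected (mem_ball_self hδ) hp fun z hz => ?_
    have := h3 hz
    simp only [mem_inter_iff, mem_preimage, mem_ball, dist_eq_norm, a.fix] at this
    exact ⟨this.1.trans_le (h1 _ p2), this.2.trans_le (h1 _ ((a.memQ _).2 p2))⟩
  · simp only [mem_union, mem_inter_iff, mem_preimage, p2, a.memQ, true_and, mem_ball,
      dist_eq_norm, not_or, not_lt] at hp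
    refine hL.nn_zero a.fix (convex_ball b R).isPreconnected (mem_ball_self hR) (h2 p1)
      fun z hz => ⟨(mem_ball_iff_norm.1 hz).trans_le hp.1, (mem_ball_iff_norm.1
        (h4 (mem_image_of_mem _ (ball_subset_closedBall hz)))).trans_le hp.2⟩

theorem LD.exists_char (h : LD b P Q) : ∃ χ : (ℂ ≃ₜ ℂ) → ℤ,
    (∀ F G, Adm b P Q F → Adm b P Q G → χ (F * G) = χ F + χ G) ∧
    ∀ F L, Adm b P Q F → JL F L → ∀ p : ℂ × ℂ, p.1 ∈ P → p.2 ∈ Q →
      (∀ x ∈ P, ∀ y ∈ Q, (x, y) ≠ p → nn F L b x y = 0) → χ F = nn F L b p.1 p.2 := by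
  classical
  have ne : ∀ x ∈ P, ∀ y ∈ Q, x ≠ y := fun x hx y hy e => Set.disjoint_left.1 h.disj hx (e ▸ hy)
  have nb : ∀ y ∈ Q, b ≠ y := fun y hy e => h.notMem (e ▸ hy)
  choose! L0 hL0 using fun (F : ℂ ≃ₜ ℂ) (hF : deg F = 1) => exists_JL hF
  set N : (ℂ ≃ₜ ℂ) → ℂ × ℂ → ℤ := fun F p =>
    if p.1 ∈ P ∧ p.2 ∈ Q then ⌊(nn F (L0 F) b p.1 p.2).re⌋ else 0 with hN
  have N1 : ∀ F L, Adm b P Q F → JL F L → ∀ p : ℂ × ℂ, p.1 ∈ P → p.2 ∈ Q →
      (N F p : ℂ) = nn F L b p.1 p.2 := fun F L a hL p p1 p2 => by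
    obtain ⟨n, hn⟩ := hL.nn_int a.fix (ne _ p1 _ p2) (nb _ p2)
    have : nn F (L0 F) b p.1 p.2 = nn F L b p.1 p.2 := by
      rw [nn, nn, (hL0 F a.deg).diff hL (ne _ p1 _ p2) (nb _ p2)]
    simp only [hN, if_pos (And.intro p1 p2), this, hn, intCast_re, Int.floor_intCast]
  have N0 : ∀ F (p : ℂ × ℂ), ¬ (p.1 ∈ P ∧ p.2 ∈ Q) → N F p = 0 := fun F p hp => if_neg hp
  have fs : ∀ F, Adm b P Q F → Function.HasFiniteSupport (N F) := fun F a =>
    (h.finite_supp a (hL0 F a.deg)).subset fun p hp => by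
      obtain ⟨p1, p2⟩ : p.1 ∈ P ∧ p.2 ∈ Q := by_contra fun h => hp (N0 F p h)
      exact ⟨p1, p2, by rw [← N1 F _ a (hL0 F a.deg) p p1 p2]; exact_mod_cast hp⟩
  refine ⟨fun F => ∑ᶠ p, N F p, fun F G a a' => ?_, fun F L a hL p p1 p2 hz => ?_⟩
  · have a'' : Adm b P Q (F * G) := ⟨by rw [deg_mul, a.deg, a'.deg]; rfl,
      by rw [hmul, a'.fix, a.fix], fun z => by rw [hmul, a.memP, a'.memP],
      fun z => by rw [hmul, a.memQ, a'.memQ]⟩
    simp only
    rw [← finsum_comp_equiv (G.toEquiv.prodCongr G.toEquiv) (f := N F)]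
    refine Eq.trans (finsum_congr fun p => ?_) (finsum_add_distrib ((fs F a).preimage
      (G.toEquiv.prodCongr G.toEquiv).injective.injOn) (fs G a'))
    by_cases hp : p.1 ∈ P ∧ p.2 ∈ Q
    · have e1 := N1 _ _ a'' ((hL0 F a.deg).mul (hL0 G a'.deg)) p hp.1 hp.2
      have e2 := N1 _ _ a (hL0 F a.deg) (G p.1, G p.2) ((a'.memP _).2 hp.1) ((a'.memQ _).2 hp.2)
      have e3 := N1 _ _ a' (hL0 G a'.deg) p hp.1 hp.2
      have : (N (F * G) p : ℂ) = N F (G p.1, G p.2) + N G p := by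
        rw [e1, e2, e3]; simp only [nn, hmul, a'.fix]; ring
      exact_mod_cast this
    · rw [N0 _ _ hp, N0 _ _ hp, N0 F _ fun h => hp ⟨(a'.memP _).1 h.1, (a'.memQ _).1 h.2⟩]; rfl
  · simp only
    rw [finsum_eq_single _ p fun q hq => ?_, N1 F L a hL p p1 p2]
    by_cases hp : q.1 ∈ P ∧ q.2 ∈ Q
    · have := N1 F L a hL q hp.1 hp.2
      rw [hz _ hp.1 _ hp.2 hq] at this
      exact_mod_cast this
    · exact N0 _ _ hp

theorem LD.near (h : LD b P Q) {T : Type*} {l : Filter T} {F : T → ℂ ≃ₜ ℂ}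
    (h1 : ∀ K, IsCompact K → ∀ ε > 0, ∀ᶠ t in l, ∀ z ∈ K, ‖F t z - z‖ < ε ∧ ‖(F t).symm z - z‖ < ε) :
    ∀ᶠ t in l, Adm b P Q (F t) → ∀ L, JL (F t) L → ∀ x ∈ P, ∀ y ∈ Q, nn (F t) L b x y = 0 := by
  obtain ⟨d, hd, R, hR, h2, h3⟩ := h.radii
  have fx : ∀ {O : Set ℂ} {x : ℂ}, ∀ r > 0, (O ∩ ball x r).Finite →
      ∀ᶠ t in l, F t x ∈ O → F t x = x := fun {O x} r hr hf => by
    obtain ⟨ε, hε, e⟩ := Metric.isOpen_iff.1 (hf.subset (sdiff_subset (t := {x}))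
      ).isClosed.isOpen_compl x fun h => h.2 rfl
    filter_upwards [h1 {x} isCompact_singleton _ (lt_min hε hr)] with t ht hO
    have := (ht x rfl).1
    rw [← dist_eq_norm, lt_min_iff] at this
    exact by_contra fun h => e this.1 ⟨⟨hO, this.2⟩, h⟩
  have key : ∀ p ∈ (P \ ball b (d / 2)) ×ˢ (Q ∩ ball b (R + 2)), ∀ᶠ t in l, Adm b P Q (F t) →
      ∀ L, JL (F t) L → nn (F t) L b p.1 p.2 = 0 := by
    rintro ⟨x, y⟩ ⟨⟨x1, x2⟩, y1, -⟩
    obtain ⟨γ, hγ⟩ := (isPathConnected_compl_singleton_of_one_lt_rank rank_two y).joinedIn b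
      (fun e => h.notMem (e ▸ y1)) x fun e => Set.disjoint_left.1 h.disj x1 (e ▸ y1)
    obtain ⟨ε, hε, e⟩ := Metric.isOpen_iff.1 (isCompact_range γ.continuous).isClosed.isOpen_compl y
      (by rintro ⟨t, e⟩; exact hγ t e)
    have x3 : d / 2 ≤ dist x b := not_lt.1 x2
    filter_upwards [h1 _ (isCompact_range γ.continuous) ε hε, fx (O := P) (x := x) (d / 4)
      (by positivity) ((h.finP (d / 4) (by positivity)).subset fun z hz => ⟨hz.1, fun h' => by
        linarith [dist_triangle_left x b z, mem_ball.1 hz.2, mem_ball.1 h']⟩),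
      fx (O := Q) (x := y) 1 one_pos ((h.finQ (dist y b + 1)).subset fun z hz => ⟨hz.1, by
        rw [mem_ball]; linarith [dist_triangle z y b, mem_ball.1 hz.2]⟩)] with t t1 t2 t3 a L hL
    refine hL.eq_of_close a.fix (t2 ((a.memP _).2 x1)) (t3 ((a.memQ _).2 y1))
      (isPreconnected_range γ.continuous) γ.source_mem_range γ.target_mem_range fun z hz =>
      (t1 z hz).1.trans_le (le_of_not_gt fun h' => e (mem_ball_iff_norm.2 h') hz)
  filter_upwards [(eventually_all_finite ((h.finP _ (half_pos hd)).prod (h.finQ _))).2 key,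
    h1 _ (isCompact_closedBall b (d / 2)) _ (half_pos hd),
    h1 _ (isCompact_closedBall b (R + 1)) _ one_pos] with t t1 t2 t3 a L hL x hx y hy
  have tri : ∀ z, ‖F t z - b‖ ≤ ‖F t z - z‖ + ‖z - b‖ := fun z => norm_sub_le_norm_sub_add_norm_sub ..
  by_cases c1 : x ∈ ball b (d / 2)
  · refine hL.nn_zero a.fix (convex_ball b _).isPreconnected (mem_ball_self (half_pos hd)) c1
      fun z hz => ?_
    have := (t2 z (ball_subset_closedBall hz)).1
    rw [mem_ball_iff_norm] at hz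
    exact ⟨by linarith [h2 y hy], by linarith [h2 _ ((a.memQ _).2 hy), tri z]⟩
  by_cases c2 : y ∈ ball b (R + 2)
  · exact t1 (x, y) ⟨⟨hx, c1⟩, hy, c2⟩ a L hL
  refine hL.nn_zero a.fix (convex_ball b R).isPreconnected (mem_ball_self hR) (h3 hx)
    fun z hz => ?_
  have := (t3 z (closedBall_subset_closedBall (by linarith) (ball_subset_closedBall hz))).1
  have e : R + 1 < ‖F t y - b‖ := lt_of_not_ge fun h' => c2 (by
    have := (t3 _ (mem_closedBall_iff_norm.2 h')).2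
    rw [Homeomorph.symm_apply_apply, norm_sub_rev] at this
    rw [mem_ball_iff_norm]
    linarith [norm_sub_le_norm_sub_add_norm_sub y (F t y) b, norm_sub_rev y (F t y)])
  rw [mem_ball_iff_norm] at hz c2
  exact ⟨by linarith, by linarith [tri z]⟩

theorem LD.twist (h : LD b P Q) {a η : ℝ} (ha : 0 < a) (hη : 0 < η) {x₀ : ℂ} (x1 : x₀ ∈ P)
    (x2 : ‖x₀‖ < a) (y1 : 0 ∈ Q) (hb : a + η < ‖b‖) (hP : ∀ x ∈ P, x ≠ x₀ → a + η < ‖x‖)
    (hQ : ∀ y ∈ Q, y ≠ 0 → a + η < ‖y‖) : ∃ T : ℂ ≃ₜ ℂ, (∀ z, ‖z‖ ≤ a ∨ a + η ≤ ‖z‖ → T z = z) ∧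
      ∀ L, JL T L → nn T L b x₀ 0 = 1 ∧ ∀ x ∈ P, ∀ y ∈ Q, (x, y) ≠ (x₀, 0) → nn T L b x y = 0 := by
  obtain ⟨T, hT⟩ := exists_sw (l := 1) (R := 1) (d := 2) (η := η) 1 a one_pos one_pos one_lt_two
    (by norm_num) hη
  simp only [sw_one one_pos one_lt_two, one_mul] at hT
  have fx : ∀ z, ‖z‖ ≤ a ∨ a + η ≤ ‖z‖ → T z = z := by
    rintro z (hz | hz)
    · rw [hT, cut_le hη hz]; simp [ee_one]
    · rw [hT, cut_ge hη hz]; simp [ee_zero]
  have nT : ∀ z, ‖T z‖ = ‖z‖ := fun z => by rw [hT, norm_mul, norm_ee_real, mul_one]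
  have ne : ∀ x ∈ P, ∀ y ∈ Q, x ≠ y := fun x hx y hy e => Set.disjoint_left.1 h.disj hx (e ▸ hy)
  have nb : ∀ y ∈ Q, b ≠ y := fun y hy e => h.notMem (e ▸ hy)
  have fb := fx b (Or.inr hb.le)
  have f0 := fx x₀ (Or.inl x2.le)
  have fy : ∀ y ∈ Q, T y = y := fun y hy => fx y (by
    by_cases e : y = 0
    exacts [Or.inl (by simpa [e] using ha.le), Or.inr (hQ y hy e).le])
  have oc : ∀ y, IsPreconnected ({z : ℂ | ‖z - 0‖ ∈ Ioi (a + η)} \ {y}) := fun y =>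
    preconn_diff_point (preconn_ann 0 isPreconnected_Ioi fun t ht =>
      le_of_lt (lt_trans (show (0 : ℝ) < a + η by positivity) ht))
      (isOpen_Ioi.preimage (f := fun z : ℂ => ‖z - 0‖) (by fun_prop)) y
  refine ⟨T, fx, fun L hL => ⟨?_, ?_⟩⟩
  · have := int_const (preconn_compl_pt 0) (g := fun z => L (z, 0) - (cut a η ‖z‖ : ℝ))
      ((hL.cont 0 fun _ h => h).sub (by fun_prop)) (fun z hz => by
        obtain ⟨n, hn⟩ := ee_eq_iff.1 (show ee (L (z, 0)) = ee (cut a η ‖z‖ : ℝ) from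
          mul_right_cancel₀ (show z ≠ 0 from hz) (by simpa [fy 0 y1, hT, mul_comm] using hL.2 z 0 hz))
        exact ⟨n, by rw [hn]; ring⟩) (ne _ x1 _ y1) (nb _ y1)
    simp only [cut_le hη x2.le, cut_ge hη hb.le] at this
    rw [nn, f0, fy 0 y1]; push_cast at this; linear_combination this
  have out : ∀ x y, a + η < ‖x‖ → x ≠ y → b ≠ y → T y = y → nn T L b x y = 0 :=
    fun x y h1 h2 h3 h4 => hL.eq_of_close fb (fx x (Or.inr h1.le)) h4 (oc y)
      ⟨by simpa using hb, h3⟩ ⟨by simpa using h1, h2⟩ fun z hz => by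
        rw [fx z (Or.inr (le_of_lt (by simpa using hz.1)))]; simpa [sub_eq_zero] using hz.2
  intro x hx y hy hne
  by_cases e : x = x₀
  swap
  · exact out x y (hP x hx e) (ne x hx y hy) (nb y hy) (fy y hy)
  subst e
  have hy' := hQ y hy fun e => hne (by rw [e])
  set w : ℂ := (((a + η + ‖y‖) / 2 : ℝ) : ℂ)
  have nw : ‖w‖ = (a + η + ‖y‖) / 2 := by
    rw [norm_real, Real.norm_of_nonneg (by positivity)]
  have w1 : a + η < ‖w‖ := by linarith
  have e1 := out w y w1 (fun e => by rw [← e] at hy' nw; linarith) (nb y hy) (fy y hy)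
  have e2 := fun x => hL.nn_zero (b := 0) (x := x) (y := y) (fx 0 (Or.inl (by simpa using ha.le)))
    (convex_ball 0 ‖y‖).isPreconnected (mem_ball_self (by linarith))
  have e3 := e2 x (by rw [mem_ball_zero_iff]; linarith) (by simp [nT])
  have e4 := e2 w (by rw [mem_ball_zero_iff]; linarith) (by simp [nT])
  simp only [nn, fy y hy, f0, fx w (Or.inr w1.le)] at e1 e3 e4 ⊢
  linear_combination e1 + e3 - e4

end Pool.Agent.Lib.MP_069d55_gt.K
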