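import Pool.Agent.Lib.MP_069d55_gt.KFar

/-! The braid part of the negative direction. -/

open Set Topology Filter Metric
open scoped unitInterval

namespace Pool.Agent.Lib.MP_069d55_gt.K

section ends
variable {X : Type*} [TopologicalSpace X] [CompactSpace X] [T2Space X]

theorem Abs.of_cover {ι : Type*} {t : Set ι} (ht : t.Finite) {A : ι → Set X}
    (hA : ∀ i ∈ t, IsClopen (A i)) {T : Set X} {z : X} (hT : IsClopen T)
    (h : ∀ i ∈ t, Abs (T ∩ A i) z) (hc : ∀ x ∈ T, ∃ i ∈ t, x ∈ A i) : Abs T z := by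
  induction t, ht using Set.Finite.induction_on generalizing T with
  | empty =>
    obtain rfl : T = ∅ := eq_empty_of_forall_notMem fun x hx => by simpa using hc x hx
    exact fun U _ => ⟨∅, empty_subset _, notMem_empty _, isClopen_empty, id, continuousOn_id,
      bijOn_id _⟩
  | @insert a t _ _ ih =>
    have ha := hA a (mem_insert _ _)
    rw [← inter_union_sdiff T (A a)]
    refine (h a (mem_insert _ _)).union (ih (fun i hi => hA i (mem_insert_of_mem _ hi)) (hT.diff ha)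
      (fun i hi => (h i (mem_insert_of_mem _ hi)).mono (hT.inter (hA i (mem_insert_of_mem _ hi)))
        ((hT.diff ha).inter (hA i (mem_insert_of_mem _ hi))) fun x hx => ⟨hx.1.1, hx.2⟩)
      fun x hx => ?_) (hT.inter ha).2 (hT.diff ha).2 (Set.disjoint_left.2 fun x h h' => h'.2 h.2)
    obtain ⟨i, rfl | hi, h'⟩ := hc x hx.1
    exacts [(hx.2 h').elim, ⟨i, hi, h'⟩]

variable [TotallyDisconnectedSpace X]

theorem piece_type (hs : Stable X) (hF : ¬ Flux X) {y : X} (hy : ∀ y' ∈ finOrbPlus X, y' = y)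
    {x : X} (hx : (orb x).Infinite) : ∃ U ∈ 𝓝 x, (∀ W ⊆ U, IsClopen W → P1 y W) ∨
      (y ∈ finOrbPlus X ∧ ∀ W ⊆ U, IsClopen W → Abs W y) := by
  obtain ⟨U, hU⟩ := hs.stN x
  by_cases h : ∃ z0 ∈ derivedSet (orb x), (orb z0).Infinite
  · obtain ⟨z0, h1, h2⟩ := h
    obtain ⟨w, h3, h4⟩ := exists_derived_notMem h2 (finite_singleton x) (by simpa using hx)
    obtain ⟨z, h5, h6⟩ := h2.exists_notMem_finite (toFinite {x, w, y})
    obtain ⟨z', h7, h8⟩ := h2.exists_notMem_finite (toFinite {x, w, y, z})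
    simp only [mem_insert_iff, mem_singleton_iff, not_or] at h4 h6 h8
    obtain ⟨R, hR⟩ := hs.stN z
    obtain ⟨R', hR'⟩ := hs.stN z'
    refine ⟨U \ {z, z', w}, (hU.1.2.sdiff (toFinite _).isClosed).mem_nhds ⟨hU.2.1, by
      simp [Ne.symm h4, Ne.symm h6.1, Ne.symm h8.1]⟩, Or.inl fun W hW hW' => ?_⟩
    have := fun z (h : z ∈ orb z0) => (hU.abs_of_derived (orb_subset_derived h1 h)).mono hU.1 hW'
      (hW.trans sdiff_subset)
    exact ⟨z, z', w, R, R', Ne.symm h8.2.2.2, h6.2.2, h8.2.2.1, fun h => (hW h).2 (by simp),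
      fun h => (hW h).2 (by simp), fun h => (hW h).2 (by simp), Ne.symm h6.2.1, Ne.symm h8.2.1,
      hR.1, hR'.1, hR.2.1, hR'.2.1, this z h5, this z' h7, hR.abs_of_derived (orb_eq h5 ▸ h3),
      hR'.abs_of_derived (orb_eq h7 ▸ h3)⟩
  · push Not at h
    obtain ⟨a, ha⟩ := hx.exists_accPt_principal
    have h1 : derivedSet (orb x) = {a} := by
      refine eq_singleton_iff_unique_mem.2 ⟨ha, fun b hb => by_contra fun hne => ?_⟩
      obtain ⟨A, a1, a2, a3⟩ := exists_clopen_nhds (isOpen_compl_singleton.mem_nhds (Ne.symm hne))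
      exact hF ⟨x, hx, Set.disjoint_left.2 fun z h1 h2 => hx (orb_eq h1 ▸ h z h2), A, a1,
        ⟨a, ha, a2⟩, ⟨b, hb, fun h => a3 h rfl⟩, fun z hz ⟨⟨c, h1, h2⟩, _⟩ =>
          hz (orb_eq h1 ▸ h c h2.1)⟩
    have h2 : a ∈ finOrbPlus X := ⟨h a ha, x, hx, h1⟩
    obtain rfl := hy a h2
    exact ⟨U, hU.1.2.mem_nhds hU.2.1, Or.inr ⟨h2, fun W hW hW' =>
      (hU.abs_of_derived ha).mono hU.1 hW' hW⟩⟩

end ends

variable {M : Type*} [MetricSpace M] [CompactSpace M]

theorem levels {G : Subgroup (M ≃ₜ M)} {s : Set M} (hG : G ≤ Fix s) {g : M ≃ₜ M} (hg : g ∈ Fix s)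
    {Z1 t : Set M} (ht : t.Finite) (hs : Z1 ∪ t ⊆ s)
    (h : ∀ Z, Z1 ⊆ Z → Z ⊆ Z1 ∪ t → ∀ p ∈ t, p ∉ Z → ∀ Λ, Iso0 (insert p Z) ≤ Λ → G ≤ Λ →
      ∀ γ ∈ Iso0 Z, γ p = p → γ ∈ Λ) (h0 : ∃ γ ∈ Iso0 Z1, γ⁻¹ * g ∈ G) :
    ∃ γ ∈ Iso0 (Z1 ∪ t), γ⁻¹ * g ∈ G := by
  induction t, ht using Set.Finite.induction_on with
  | empty => simpa using h0
  | @insert p t _ _ ih =>
    have h1 : Z1 ∪ t ⊆ Z1 ∪ insert p t := union_subset_union_right _ (subset_insert _ _)
    obtain ⟨γ, h2, h3⟩ := ih (h1.trans hs) fun Z a b q hq =>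
      h Z a (b.trans h1) q (mem_insert_of_mem _ hq)
    rw [union_insert] at hs ⊢
    by_cases hp : p ∈ Z1 ∪ t
    · exact ⟨γ, by rwa [insert_eq_of_mem hp], h3⟩
    let Λ : Subgroup (M ≃ₜ M) :=
      { carrier := {a | ∃ γ ∈ Iso0 (insert p (Z1 ∪ t)), γ⁻¹ * a ∈ G}
        one_mem' := ⟨1, one_mem _, by simp⟩
        mul_mem' := fun {a b} ⟨c, c1, c2⟩ ⟨d, d1, d2⟩ => ⟨c * ((c⁻¹ * a) * d * (c⁻¹ * a)⁻¹),
          mul_mem c1 (by
            have := Iso0_conj d1 (c⁻¹ * a)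
            rwa [image_congr fun x hx => hG c2 x (hs hx), image_id'] at this), by
          convert mul_mem c2 d2 using 1; group⟩
        inv_mem' := fun {a} ⟨c, c1, c2⟩ => ⟨(c⁻¹ * a)⁻¹ * c⁻¹ * (c⁻¹ * a)⁻¹⁻¹, by
            have := Iso0_conj (inv_mem c1) (c⁻¹ * a)⁻¹
            rwa [image_congr fun x hx => hG (inv_mem c2) x (hs hx), image_id'] at this, by
          convert inv_mem c2 using 1; group⟩ }
    have h4 : γ ∈ Λ := h _ subset_union_left h1 p (mem_insert _ _) hp Λ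
      (fun a ha => ⟨a, ha, by simp⟩) (fun a ha => ⟨1, one_mem _, by simpa⟩) γ h2 (by
        have := mul_mem hg (inv_mem (hG h3)) p (hs (mem_insert _ _))
        simpa using this)
    have := mul_mem h4 (show γ⁻¹ * g ∈ Λ from ⟨1, one_mem _, by simpa⟩)
    rwa [mul_inv_cancel_left] at this

theorem iso0_aff {y : M} {e : ℂ → M} (he : LC y e) {Z : Set M} {γ : M ≃ₜ M} (H : Path 1 γ)
    {P c : I → ℂ} (Q : ℂ) (hP : Continuous P) (hc : Continuous c) (h0 : ∀ t, c t ≠ 0)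
    (h1 : ∀ t, t = 0 ∨ t = 1 → P t = Q ∧ c t = 1)
    (h2 : ∀ t, ∀ x ∈ Z, (H t x = y ∧ x = y) ∨ ∃ u, H t x = e u ∧ x = e (Q + c t * (u - P t))) :
    γ ∈ Iso0 Z := by
  obtain ⟨A, hA, hA'⟩ := exists_lift_point he.emb he.range_eq (fun t => aff (P t) Q (c t) (h0 t))
    (by simp only [aff_apply]; fun_prop) (by simp only [aff_symm_apply]; fun_prop (disch := simp [h0]))
  have : ∀ t, t = 0 ∨ t = 1 → A t = 1 := fun t ht => (hA' t).unique (by
    convert IsLift.one; ext u; simp [h1 t ht])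
  refine ⟨⟨⟨fun t => A t * H t, hA.mul H.continuous⟩, by simp [this], by simp [this]⟩,
    fun t x hx => ?_⟩
  change A t (H t x) = x
  rcases h2 t x hx with ⟨h, rfl⟩ | ⟨u, h, rfl⟩
  · rw [h]; exact (hA' t).2 _ (by simp [he.range_eq])
  · rw [h, (hA' t).1, aff_apply]

omit [CompactSpace M] in
theorem LC.exists_path {y : M} {e : ℂ → M} (he : LC y e) {H : I → M ≃ₜ M} (hH : Continuous H)
    (hy : ∀ t, H t y = y) (u : ℂ) : ∃ P : I → ℂ, Continuous P ∧ ∀ t, H t (e u) = e (P t) := by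
  have : ∀ t, ∃ v, e v = H t (e u) := fun t => he.range_eq.symm.subset fun h =>
    he.ne u ((H t).injective (h.trans (hy t).symm))
  choose P hP using this
  exact ⟨P, he.emb.isInducing.continuous_iff.2 (((continuous_hm_apply _).comp hH).congr
    fun t => (hP t).symm), fun t => (hP t).symm⟩

theorem iso0_three {y : M} {e : ℂ → M} (he : LC y e) {Z : Set M} (hZ : (Z \ {y}).encard ≤ 2)
    {γ : M ≃ₜ M} (h : γ ∈ Iso0 {y}) (hγ : γ ∈ Fix Z) : γ ∈ Iso0 (insert y Z) := by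
  have one : ∀ u, γ (e u) = e u → γ ∈ Iso0 {y, e u} := fun u hu => by
    obtain ⟨H, hH⟩ := h
    obtain ⟨P, p1, p2⟩ := he.exists_path H.continuous (fun t => hH t y rfl) u
    refine iso0_aff he H u p1 continuous_const (fun _ => one_ne_zero) (fun t ht =>
      ⟨he.emb.injective ?_, rfl⟩) fun t => ?_
    · rcases ht with rfl | rfl <;> simp [← p2, hu]
    · rintro _ (rfl | rfl)
      exacts [Or.inl ⟨hH t _ rfl, rfl⟩, Or.inr ⟨_, p2 t, by simp⟩]
  rw [← insert_sdiff_singleton]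
  have ex : ∀ x ∈ Z \ {y}, ∃ u, e u = x := fun x hx => he.range_eq.symm.subset hx.2
  rcases hZ.lt_or_eq with h2 | h2
  · rcases encard_le_one_iff_eq.1 (Order.le_of_lt_add_one h2) with h3 | ⟨x, h3⟩
    · simpa [h3] using h
    · obtain ⟨u, rfl⟩ := ex x (by simp [h3])
      rw [h3]; exact one u (hγ _ (h3.symm.subset rfl).1)
  · obtain ⟨a, b, hab, h3⟩ := encard_eq_two.1 h2
    obtain ⟨u, rfl⟩ := ex a (by simp [h3])
    obtain ⟨v, rfl⟩ := ex b (by simp [h3])
    obtain ⟨H, hH⟩ := one u (hγ _ (h3.symm.subset (by simp)).1)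
    obtain ⟨P, p1, p2⟩ := he.exists_path H.continuous (fun t => hH t y (by simp)) v
    have n1 : ∀ t, P t - u ≠ 0 := fun t h => hab ((H t).injective (by
      rw [p2, sub_eq_zero.1 h]; exact hH t _ (by simp)))
    have n2 : v - u ≠ 0 := fun h => hab (by rw [sub_eq_zero.1 h])
    rw [h3]
    refine iso0_aff he H (P := fun _ => u) (c := fun t => (v - u) / (P t - u)) u continuous_const
      (continuous_const.div (p1.sub continuous_const) n1) (fun t => div_ne_zero n2 (n1 t))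
      (fun t ht => ⟨rfl, ?_⟩) fun t => ?_
    · have : P t = v := he.emb.injective (by
        rcases ht with rfl | rfl <;> simp [← p2, hγ _ (h3.symm.subset (by simp : e v ∈ _)).1])
      rw [this, div_self n2]
    · rintro _ (rfl | rfl | rfl)
      exacts [Or.inl ⟨hH t _ (by simp), rfl⟩, Or.inr ⟨u, hH t _ (by simp), by simp⟩,
        Or.inr ⟨_, p2 t, by rw [div_mul_cancel₀ _ (n1 t)]; simp⟩]

variable [Charted M] [PreconnectedSpace M] {E : Set M} {V 𝒩 : Subgroup (M ≃ₜ M)}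

theorem Ctx.braid (h : Ctx E V 𝒩) (hs : Stable E) (hF : ¬ Flux E) (hL : ¬ Link E) {y : E}
    {e : ℂ → M} (he : LC (y : M) e) (hy1 : (finOrb E).Nonempty → y ∈ finOrb E)
    (hy2 : (finOrbPlus E).Nonempty → y ∈ finOrbPlus E) {g : M ≃ₜ M} (hg : g ∈ Fix E)
    (hg' : g ∈ Iso0 {(y : M)}) : g ∈ V := by
  classical
  have := h.compactSpace
  have := h.tdSpace
  have : Nonempty M := ⟨y⟩
  obtain ⟨ε, hε, hV⟩ := h.V_open
  obtain ⟨δ, rfl⟩ : ∃ δ, ε = 2 * δ := ⟨ε / 2, by ring⟩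
  have hδ : 0 < δ := by linarith
  have hfin := hs.finite_finOrb
  have hsub : finOrbPlus E ⊆ finOrb E := fun _ h => h.1
  have card : ∀ k : ℕ, (k : ℕ∞) ≤ (finOrbPlus E).encard → y ∈ finOrb E →
      (finOrb E \ {y}).encard + 1 + k ≤ 3 := fun k hk hy => by
    rw [encard_sdiff_singleton_add_one hy]
    exact (add_le_add_right hk _).trans (Order.le_of_lt_add_one (lt_of_lt_of_eq (not_le.1 hL) (by norm_num)))
  have hy3 : ∀ y' ∈ finOrbPlus E, y' = y := fun y' hy' => by_contra fun hne => by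
    have hy := hy2 ⟨_, hy'⟩
    have h1 := card 2 (by
      rw [Nat.cast_ofNat, ← encard_pair hne]; exact encard_le_encard (pair_subset hy' hy)) hy.1
    have h2 : 1 ≤ (finOrb E \ {y}).encard := one_le_encard_iff_nonempty.2 ⟨y', hy'.1, hne⟩
    exact absurd ((add_le_add_left (add_le_add_left h2 _) _).trans h1) (by norm_num)
  have small : ∀ x : M, ∃ S ∈ 𝓝 x, Sm δ S ∧ Sm δ (g '' S) := fun x =>
    ⟨ball x (δ / 2) ∩ g ⁻¹' ball (g x) (δ / 2), inter_mem (ball_mem_nhds _ (half_pos hδ))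
      (g.continuous.continuousAt (ball_mem_nhds _ (half_pos hδ))), fun a ha b hb => by
        linarith [dist_triangle_right a b x, mem_ball.1 ha.1, mem_ball.1 hb.1], by
      rintro _ ⟨a, ha, rfl⟩ _ ⟨b, hb, rfl⟩
      linarith [dist_triangle_right (g a) (g b) (g x), mem_ball.1 ha.2, mem_ball.1 hb.2]⟩
  choose S s1 s2 s3 using small
  obtain ⟨Uy, hUy⟩ := hs.stN y
  obtain ⟨U, u1, u2⟩ := (mem_nhds_subtype _ _ _).1 (hUy.1.2.mem_nhds hUy.2.1)
  let B := insert (y : M) (Subtype.val '' finOrb E)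
  have F0 : Fam E ∅ fun _ => ∅ := ⟨finite_empty, by simp, by simp, by simp, by simp, by simp⟩
  obtain ⟨D1, F1, -, f2⟩ := F0.insert_finite h.toTE (t := B) ((hfin.image _).insert _)
    (insert_subset y.2 (Subtype.coe_image_subset _ _)) (by simp)
    (U := fun a => S a ∩ if a = y then U else univ) fun a _ => inter_mem (s1 a) (by
      split_ifs with h1
      exacts [h1 ▸ u1, univ_mem])
  rw [empty_union] at F1
  have ty : ∀ x ∈ E, (∀ i ∈ B, x ∉ D1 i) → ∃ O ∈ 𝓝 x,
      (∀ W ⊆ Subtype.val ⁻¹' O, IsClopen W → P1 y W) ∨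
      (y ∈ finOrbPlus E ∧ ∀ W ⊆ Subtype.val ⁻¹' O, IsClopen W → Abs W y) := fun x hx hx' => by
    obtain ⟨U, h1, h2⟩ := piece_type hs hF hy3 (x := ⟨x, hx⟩) fun h =>
      have : x ∈ B := Or.inr ⟨_, h, rfl⟩
      hx' x this (F1.mem x this)
    obtain ⟨O, h3, h4⟩ := (mem_nhds_subtype _ _ _).1 h1
    exact ⟨O, h3, h2.imp (fun h W hW => h W (hW.trans h4))
      fun h => ⟨h.1, fun W hW => h.2 W (hW.trans h4)⟩⟩
  choose! O o1 o2 using ty
  obtain ⟨s, D, F, g1, g2, hc, g3⟩ := F1.extend h.toTE (O := fun x => S x ∩ O x)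
    fun x hx hx' => inter_mem (s1 x) (o1 x hx hx')
  have hS : ∀ i ∈ s, ∃ x, D i ⊆ S x := fun i hi => by
    by_cases hi' : i ∈ B
    · exact ⟨i, g2 i hi' ▸ (f2 i hi').trans inter_subset_left⟩
    · obtain ⟨x, -, -, h⟩ := g3 i ⟨hi, hi'⟩
      exact ⟨x, h.trans inter_subset_left⟩
  have hsm : ∀ i ∈ s, Sm δ (D i) := fun i hi => let ⟨x, h⟩ := hS i hi; (s2 x).mono h
  have C := F.cov hc hδ hsm
  let P := {i ∈ s \ B | y ∈ finOrbPlus E ∧ Abs (Subtype.val ⁻¹' D i) y}
  have hP1 : ∀ i ∈ s \ B, i ∉ P → P1 y (Subtype.val ⁻¹' D i) := fun i hi hi' => by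
    obtain ⟨x, x1, x2, x3⟩ := g3 i hi
    have := preimage_mono (f := (Subtype.val : E → M)) (x3.trans inter_subset_right)
    exact ((o2 x x1 x2).resolve_right fun h => hi' ⟨hi, h.1, h.2 _ this (F.clopen hi.1)⟩) _ this
      (F.clopen hi.1)
  have hyB : (y : M) ∈ B := mem_insert _ _
  have hPs : P ⊆ s \ {(y : M)} := fun i hi => ⟨hi.1.1, fun h : i = y => hi.1.2 (h ▸ hyB)⟩
  obtain ⟨f, K, k0, k1, k2⟩ := exists_enum F.fin
  let n : M → ℤ := fun i => if i ∈ P then f i else K + f i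
  obtain ⟨e', G⟩ := F.exists_grid (g1 hyB) he (n := n) (N := 2 * K) (by omega)
    (fun i hi j hj hij => by
      have := k2 i hi.1
      have := k2 j hj.1
      simp only [n] at hij
      split_ifs at hij <;> first | omega | exact k1 hi.1 hj.1 (by omega))
    fun i hi => by
      have := k2 i hi.1
      simp only [n]
      split_ifs <;> omega
  have hG : C.GV h hV ≤ Fix s := by simpa using C.GV_le_Fix h hV
  have hgs : g ∈ Fix s := fun x hx => hg x (F.sub hx)
  have l0 : g ∈ Iso0 B := iso0_three he (by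
    rcases (finOrb E).eq_empty_or_nonempty with h | h
    · simp [h]
    · rw [← image_singleton, ← image_sdiff Subtype.val_injective,
        Subtype.val_injective.encard_image]
      exact (ENat.add_le_add_iff_right (k := 1) (by simp)).1 
        (((le_add_right le_rfl).trans (card 0 (by simp) (hy1 h))).trans_eq (by norm_num)))
    hg' (by rintro _ ⟨x, -, rfl⟩; exact hg x x.2)
  have l1 := levels hG hgs (Z1 := B) (t := P) (F.fin.subset fun i hi => hi.1.1)
    (union_subset g1 fun i hi => hi.1.1) (fun Z z1 z2 p hp hpZ Λ h1 h2 γ h3 h4 =>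
      G.push_private F h hc C hV (g1 hyB) hPs (p0 := K)
        (fun i hi => by simpa [n, hi] using (k2 i hi.1.1).2)
        (fun i hi => by simpa [n, hi.2] using (k2 i hi.1.1).1) (by omega)
        (fun T hT hT' => ⟨hT, y, fun h => (hT' y h).1 rfl, Abs.of_cover
          ((F.fin.subset fun i (hi : i ∈ P) => hi.1.1).insert (y : M))
          (A := fun i => Subtype.val ⁻¹' D i) (by
            rintro i (rfl | hi); exacts [F.clopen (g1 hyB), F.clopen hi.1.1]) hT (by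
            rintro i (rfl | hi)
            · refine hUy.abs (hT.inter (F.clopen (g1 hyB))) (fun x hx => u2 ?_)
                fun h => (hT' y h.1).1 rfl
              have := ((g2 _ hyB ▸ f2 _ hyB) hx.2).2
              rwa [if_pos rfl] at this
            · exact hi.2.2.mono (F.clopen hi.1.1) (hT.inter (F.clopen hi.1.1)) inter_subset_right)
          fun x hx => by
            obtain ⟨i, hi, h⟩ := hc x x.2
            exact ⟨i, by_contra fun h' => (hT' x hx).2 i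
              ⟨⟨hi, fun h => h' (Or.inl h)⟩, fun h => h' (Or.inr h)⟩ h, h⟩⟩)
        (z2.trans (union_subset g1 fun i hi => hi.1.1)) (z1 hyB) (by
          have h5 : (finOrb E \ {y}).encard ≤ 1 := (ENat.add_le_add_iff_right (k := 2) (by simp)).1
            (le_of_eq_of_le (by rw [add_assoc]; rfl) ((card 1 (by
              simpa [one_le_encard_iff_nonempty] using ⟨y, hp.2.1⟩) hp.2.1.1).trans_eq
              (by norm_num)))
          refine ((encard_le_one_iff_subsingleton.1 h5).image Subtype.val).anti fun i hi => ?_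
          rcases (z2 hi.1).resolve_right hi.2.2 with h | ⟨x, hx, rfl⟩
          exacts [(hi.2.1.2 h).elim, ⟨x, ⟨hx, fun h => hi.2.1.2 (congrArg _ h)⟩, rfl⟩])
        hp hpZ hp.2.2 h1 h2 h3 h4) ⟨g, l0, by simp⟩
  obtain ⟨γ, h1, h2⟩ := levels hG hgs (Z1 := B ∪ P) (t := s \ (B ∪ P)) (F.fin.subset sdiff_subset)
    (union_subset (union_subset g1 fun i hi => hi.1.1) sdiff_subset)
    (fun Z z1 z2 p hp hpZ Λ h1 h2 γ h3 h4 => by
      have z3 : Z ⊆ s := z2.trans
        (union_subset (union_subset g1 fun i hi => hi.1.1) sdiff_subset)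
      have hps : p ∈ s \ {(y : M)} := ⟨hp.1, fun h : p = y => hp.2 (Or.inl (h ▸ hyB))⟩
      have np : (0 : ℝ) ≤ n p ∧ (n p : ℝ) ≤ (2 * K : ℤ) := by exact_mod_cast G.bd p hps
      refine G.push z3 (z1 (Or.inl hyB)) ⟨hp.1, hpZ⟩ h1 (fun m m1 m2 => ?_) h3 h4
      have m1 : (-1 : ℝ) ≤ m := by exact_mod_cast m1
      have m2 : (m : ℝ) ≤ (2 * K : ℤ) := by exact_mod_cast m2
      obtain ⟨c, c1, c', c2, c3, c4⟩ := G.routes (α := -(3 * (2 * K : ℤ) + 3))
        (β := 3 * (2 * K : ℤ) + 3) (m := m) (S := (s \ {(y : M)}) \ {p}) hps sdiff_subset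
        (fun h => h.2 rfl) (by linarith) (by linarith) (by linarith) (by linarith)
      have hf := G.fix_all (S := (s \ {(y : M)}) \ {p}) le_rfl le_rfl (fun i hi h => Or.inl ⟨hi, h⟩)
        c1 c2 fun x hx => (c4 x hx).1
      have hfs := (G.fin.subset (sdiff_subset (t := {(y : M)}))).subset (sdiff_subset (t := {p}))
      have iso : ∀ {A A' : Set M}, A.Finite → A'.Finite → (∀ i ∈ A, ∀ j ∈ A', n i ≠ n j) →
          A ∪ A' = (s \ {(y : M)}) \ {p} → ∀ k ∈ AA (e' '' Bx n (3 * (2 * K : ℤ) + 3)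
          (-(3 * (2 * K : ℤ) + 3)) (3 * (2 * K : ℤ) + 3) A A'),
          k ∈ Iso0 (⋃ i ∈ s \ {p}, interior (D i)) := fun a1 a2 a3 a4 k hk =>
        ((DX_Bx G.one_lt (by linarith) a1 a2 a3).image G.lc.emb).iso0 hk (G.contain hps G.one_lt
          (by linarith) (by linarith) (a4 ▸ sdiff_subset) (a4 ▸ fun h => h.2 rfl) (F.mem p hp.1))
          fun x hx => by
            obtain ⟨i, hi, hx⟩ := mem_iUnion₂.1 hx
            exact Or.inl (G.avoid_all le_rfl le_rfl hi.1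
              (fun h => Or.inl (a4 ▸ ⟨⟨hi.1, h⟩, hi.2⟩)) (interior_subset hx))
      exact ⟨m, fun _ _ => Iff.rfl, _, _, _, (s \ {(y : M)}) \ {p}, fun i hi =>
        Or.inl ⟨⟨z3 hi.1, hi.2⟩, fun h : i = p => hpZ (h ▸ hi.1)⟩, c, c1, c', c2, c3,
        (c4 p (F.mem p hp.1)).1, h2 ((F.mem_GV_iff hc C h hV hf).2 (h.push_p1 hδ hV y.2 he (p := p)
          ⟨finite_singleton _, fun _ _ => F.disc p hp.1, pairwiseDisjoint_singleton _ _,
            by simpa using F.mem p hp.1, by simpa using F.sub hp.1, fun _ _ => F.int p hp.1⟩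
          (hsm p hp.1) (Set.disjoint_left.1 (F.disj (g1 hyB) hp.1 (Ne.symm hps.2)) (F.mem _ (g1 hyB)))
          (hP1 p ⟨hp.1, fun h => hp.2 (Or.inl h)⟩ fun h => hp.2 (Or.inr h))
          (isOpen_biUnion fun _ _ => isOpen_interior) (fun x hx hx' => by
            obtain ⟨i, hi, h⟩ := hc x hx
            exact mem_iUnion₂.2 ⟨i, ⟨hi, fun h' : i = p => hx' (h' ▸ h)⟩, F.int i hi x hx h⟩)
          (mul_mem (inv_mem (iso finite_empty hfs (by simp) (by simp) c c1))
            (iso hfs finite_empty (by simp) (by simp) c' c2)) (hf p hp.1)))⟩) l1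
  rw [union_sdiff_cancel (union_subset g1 fun i hi => hi.1.1)] at h1
  refine C.mem_V_of_GV h hV (mem_Stab_of_lift (φ := 1) fun x => hg x x.2) (fun i hi => ?_) (by
    have := mul_mem (C.Iso0_le_GV h hV (by simpa using h1)) h2
    rwa [mul_inv_cancel_left] at this)
  obtain ⟨x, hx⟩ := hS i hi
  exact (s3 x).mono (image_mono (interior_subset.trans hx))

end Pool.Agent.Lib.MP_069d55_gt.K
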