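import Pool.Agent.Lib.MP_069d55_gt.KBase

/-! Connectedness lemmas, discs, moving points and discs. -/

open Set Topology Filter Metric

namespace Pool.Agent.Lib.MP_069d55_gt.K

/-- Every point lies in the range of a plane chart. -/
class Charted (M : Type*) [TopologicalSpace M] : Prop where
  chart : ∀ x : M, ∃ e : ℂ → M, IsOpenEmbedding e ∧ x ∈ range e

instance : Charted ℂ := ⟨fun x => ⟨id, IsOpenEmbedding.id, x, rfl⟩⟩

section conn
variable {M : Type*} [TopologicalSpace M]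

theorem preconn_diff {Ω Z B : Set M} (hΩ : IsPreconnected Ω) (hZ : IsClosed Z) (hB : IsOpen B)
    (hZB : Z ⊆ B) (hBΩ : B ⊆ Ω) (h : IsPreconnected (B \ Z)) : IsPreconnected (Ω \ Z) := by
  rw [isPreconnected_iff_subset_of_disjoint]
  have key : ∀ u v, IsOpen u → IsOpen v → Ω \ Z ⊆ u ∪ v → Ω \ Z ∩ (u ∩ v) = ∅ → B \ Z ⊆ u →
      Ω \ Z ⊆ u ∨ Ω \ Z ⊆ v := by
    intro u v hu hv hc hd hBu
    rw [eq_empty_iff_forall_notMem] at hd
    rcases isPreconnected_iff_subset_of_disjoint.1 hΩ (u ∪ B) (v \ Z) (hu.union hB)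
      (hv.sdiff hZ) (fun x hx => by
        by_cases hxZ : x ∈ Z
        · exact Or.inl (Or.inr (hZB hxZ))
        · rcases hc ⟨hx, hxZ⟩ with h | h
          exacts [Or.inl (Or.inl h), Or.inr ⟨h, hxZ⟩])
      (eq_empty_iff_forall_notMem.2 fun x ⟨hx, h1, h2⟩ => by
        rcases h1 with h1 | h1
        exacts [hd x ⟨⟨hx, h2.2⟩, h1, h2.1⟩, hd x ⟨⟨hx, h2.2⟩, hBu ⟨h1, h2.2⟩, h2.1⟩]) with h | h
    · left
      intro x hx
      rcases h hx.1 with h | h
      exacts [h, hBu ⟨h, hx.2⟩]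
    · exact Or.inr fun x hx => (h hx.1).1
  intro u v hu hv hc hd
  have hs : B \ Z ⊆ Ω \ Z := fun x hx => ⟨hBΩ hx.1, hx.2⟩
  rcases isPreconnected_iff_subset_of_disjoint.1 h u v hu hv (hs.trans hc)
    (eq_empty_iff_forall_notMem.2 fun x hx =>
      eq_empty_iff_forall_notMem.1 hd x ⟨hs hx.1, hx.2⟩) with h | h
  · exact key u v hu hv hc hd h
  · exact (key v u hv hu (by rwa [union_comm]) (by rwa [inter_comm v]) h).symm

theorem preconn_diff_of_local {Ω Z : Set M} (hΩ : IsPreconnected Ω)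
    (h : ∀ x ∈ Ω, ∃ B, IsOpen B ∧ x ∈ B ∧ B ⊆ Ω ∧ IsPreconnected (B \ Z) ∧ B ⊆ closure (B \ Z)) :
    IsPreconnected (Ω \ Z) := by
  rw [isPreconnected_iff_subset_of_disjoint]
  intro u v hu hv hc hd
  rw [eq_empty_iff_forall_notMem] at hd
  let f : Set M → Set M := fun w => ⋃₀ {B | IsOpen B ∧ B ⊆ Ω ∧ B ⊆ closure (B \ Z) ∧ B \ Z ⊆ w}
  have hf : ∀ w, IsOpen (f w) := fun w => isOpen_sUnion fun B hB => hB.1
  have hf' : ∀ w, Ω ⊆ f w → Ω \ Z ⊆ w := fun w hw x hx => by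
    obtain ⟨B, hB, hxB⟩ := hw hx.1
    exact hB.2.2.2 ⟨hxB, hx.2⟩
  refine (isPreconnected_iff_subset_of_disjoint.1 hΩ (f u) (f v) (hf u) (hf v) ?_ ?_).imp
    (hf' u) (hf' v)
  · intro x hx
    obtain ⟨B, hB, hxB, hBΩ, hp, hcl⟩ := h x hx
    have hs : B \ Z ⊆ Ω \ Z := fun x hx => ⟨hBΩ hx.1, hx.2⟩
    rcases isPreconnected_iff_subset_of_disjoint.1 hp u v hu hv (hs.trans hc)
      (eq_empty_iff_forall_notMem.2 fun x hx => hd x ⟨hs hx.1, hx.2⟩) with h | h
    exacts [Or.inl ⟨B, ⟨hB, hBΩ, hcl, h⟩, hxB⟩, Or.inr ⟨B, ⟨hB, hBΩ, hcl, h⟩, hxB⟩]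
  · refine eq_empty_iff_forall_notMem.2 ?_
    rintro x ⟨-, ⟨B, hB, hxB⟩, ⟨B', hB', hxB'⟩⟩
    obtain ⟨y, hy', hy⟩ := mem_closure_iff.1 (hB.2.2.1 hxB) B' hB'.1 hxB'
    exact hd y ⟨⟨hB.2.1 hy.1, hy.2⟩, hB.2.2.2 hy, hB'.2.2.2 ⟨hy', hy.2⟩⟩

theorem preconn_annulus (c : ℂ) {a : ℝ} (ha : 0 ≤ a) (b : ℝ) :
    IsPreconnected (ball c b \ closedBall c a) := by
  have : ball c b \ closedBall c a =
      (fun p : ℝ × ℝ => c + p.1 * Complex.exp (p.2 * Complex.I)) '' (Ioo a b ×ˢ univ) := by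
    ext z
    simp only [Set.mem_sdiff, mem_ball, mem_closedBall, dist_eq_norm, not_le]
    constructor
    · rintro ⟨h1, h2⟩
      exact ⟨(‖z - c‖, Complex.arg (z - c)), ⟨⟨h2, h1⟩, trivial⟩, by simp⟩
    · rintro ⟨⟨r, t⟩, ⟨⟨h1, h2⟩, -⟩, rfl⟩
      have : ‖c + r * Complex.exp (t * Complex.I) - c‖ = r := by
        simp [Complex.norm_exp_ofReal_mul_I, abs_of_nonneg (ha.trans h1.le)]
      dsimp only at h1 h2 ⊢
      rw [this]; exact ⟨h2, h1⟩
  rw [this]
  exact (isPreconnected_Ioo.prod isPreconnected_univ).image _ (by fun_prop)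

theorem preconn_diff_ball [T2Space M] {e : ℂ → M} (he : IsOpenEmbedding e) {Ω : Set M}
    (hΩ : IsPreconnected Ω) (hΩo : IsOpen Ω) {c : ℂ} {a : ℝ} (ha : 0 ≤ a)
    (h : e '' closedBall c a ⊆ Ω) : IsPreconnected (Ω \ e '' closedBall c a) := by
  obtain ⟨δ, hδ, hs⟩ := (isCompact_closedBall c a).exists_thickening_subset_open
    (hΩo.preimage he.continuous) (image_subset_iff.1 h)
  rw [thickening_closedBall hδ ha] at hs
  refine preconn_diff (B := e '' ball c (δ + a)) hΩ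
    ((isCompact_closedBall c a).image he.continuous).isClosed (he.isOpenMap _ isOpen_ball)
    (image_mono (closedBall_subset_ball (by linarith))) (image_subset_iff.2 hs) ?_
  rw [← image_sdiff he.injective]
  exact (preconn_annulus c ha _).image _ he.continuous.continuousOn

theorem preconn_diff_point [T2Space M] [Charted M] {Ω : Set M} (hΩ : IsPreconnected Ω)
    (hΩo : IsOpen Ω) (x : M) : IsPreconnected (Ω \ {x}) := by
  by_cases hx : x ∈ Ω
  · obtain ⟨e, he, p, rfl⟩ := Charted.chart x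
    simpa using preconn_diff_ball he hΩ hΩo (c := p) le_rfl (by simpa using hx)
  · rwa [sdiff_singleton_eq_self hx]

theorem preconn_diff_finite [T2Space M] [Charted M] {Ω : Set M} (hΩ : IsPreconnected Ω)
    (hΩo : IsOpen Ω) {s : Set M} (hs : s.Finite) : IsPreconnected (Ω \ s) := by
  induction s, hs using Set.Finite.induction_on with
  | empty => simpa using hΩ
  | @insert a s _ hs ih =>
    rw [insert_eq, union_comm, ← Set.sdiff_sdiff]
    exact preconn_diff_point ih (hΩo.sdiff hs.isClosed) a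

theorem infinite_of_open [Charted M] {U : Set M} (hU : IsOpen U) (hne : U.Nonempty) :
    U.Infinite := by
  obtain ⟨x, hx⟩ := hne
  obtain ⟨e, he, p, rfl⟩ := Charted.chart x
  exact fun h => infinite_of_mem_nhds p ((hU.preimage he.continuous).mem_nhds hx)
    (h.preimage he.injective.injOn)

theorem exists_conn_nhds [Charted M] {x : M} {U : Set M} (hU : U ∈ 𝓝 x) :
    ∃ B, IsOpen B ∧ x ∈ B ∧ B ⊆ U ∧ IsPreconnected B := by
  obtain ⟨e, he, p, rfl⟩ := Charted.chart x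
  obtain ⟨r, hr, hs⟩ := Metric.mem_nhds_iff.1 (he.continuous.continuousAt hU)
  exact ⟨e '' ball p r, he.isOpenMap _ isOpen_ball, mem_image_of_mem _ (mem_ball_self hr),
    image_subset_iff.2 hs, (convex_ball p r).isPreconnected.image _ he.continuous.continuousOn⟩

instance [Charted M] : LocallyConnectedSpace M :=
  locallyConnectedSpace_iff_connected_subsets.2 fun _ _ hU =>
    let ⟨B, h1, h2, h3, h4⟩ := exists_conn_nhds hU
    ⟨B, h1.mem_nhds h2, h4, h3⟩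

end conn

section move
variable {M : Type*} [TopologicalSpace M] [T2Space M]

theorem loc_move_plane {Ω : Set ℂ} (hΩ : IsOpen Ω) {p : ℂ} (hp : p ∈ Ω) :
    ∃ r > 0, ∃ β : ℂ → ℂ, Continuous β ∧ (∀ᶠ z in 𝓝 p, β z = 1) ∧
      ∃ K, IsCompact K ∧ K ⊆ Ω ∧ (∀ z ∉ K, β z = 0) ∧
      ∀ v : ℂ, ‖v‖ < r → ∃ k : ℂ ≃ₜ ℂ, ∀ z, k z = z + v * β z := by
  obtain ⟨β, hβ, h1, K, hK, hKΩ, h0⟩ := exists_bump isCompact_singleton hΩ
    (singleton_subset_iff.2 hp)
  have h0' : ∀ z ∉ K, (β z : ℂ) = 0 := fun z hz => by simp [h0 z hz]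
  obtain ⟨r, hr, h⟩ := exists_perturb (ψ := fun z => (β z : ℂ))
    (Complex.ofRealCLM.contDiff.comp hβ) hK h0'
  refine ⟨r, hr, _, Complex.continuous_ofReal.comp hβ.continuous, ?_, K, hK, hKΩ, h0', h⟩
  rw [nhdsSet_singleton] at h1
  filter_upwards [h1] with z hz using by simp [hz]

theorem loc_move [Charted M] {Ω : Set M} (hΩ : IsOpen Ω) {x : M} (hx : x ∈ Ω) :
    ∃ N ∈ 𝓝 x, ∃ s : M → M ≃ₜ M, ContinuousOn s N ∧ ∀ y ∈ N, s y ∈ AA Ω ∧ s y x = y := by
  classical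
  obtain ⟨e, he, p, rfl⟩ := Charted.chart x
  obtain ⟨r, hr, β, hβ, h1, K, hK, hKΩ, h0, h⟩ := loc_move_plane (hΩ.preimage he.continuous) hx
  choose! k hk using h
  let N := e '' ball p r
  have hN : ∀ y : N, ∃ z ∈ ball p r, e z = y := fun y => y.2
  choose a ha ha' using hN
  have hac : Continuous a := he.isInducing.continuous_iff.2
    (continuous_subtype_val.congr fun y => (ha' y).symm)
  have hk' : ∀ y z, k (a y - p) z = z + (a y - p) * β z := fun y =>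
    hk _ (by simpa [dist_eq_norm] using ha y)
  obtain ⟨S, hS, hS'⟩ := exists_lift_supp (T := N) he (fun y => k (a y - p))
    (by simp only [hk']; fun_prop) hK fun y z hz => by simp [hk', h0 z hz]
  refine ⟨N, (he.isOpenMap _ isOpen_ball).mem_nhds (mem_image_of_mem _ (mem_ball_self hr)),
    fun y => if h : y ∈ N then S ⟨y, h⟩ else 1, ?_, fun y hy => ?_⟩
  · rw [continuousOn_iff_continuous_domRestrict]
    exact hS.congr fun y => by simp [y.2]
  · simp only [hy, dite_true]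
    refine ⟨AA_mono (image_preimage_subset e Ω) ((hS' _).mem_AA he
      ⟨K, hK, hKΩ, fun z hz => by simp [hk', h0 z hz]⟩), ?_⟩
    rw [(hS' _).1, hk', h1.self_of_nhds]
    simpa using ha' ⟨y, hy⟩

/-- A class of germs along which points can be moved. -/
structure GermClass (R : (M ≃ₜ M) → M → Prop) : Prop where
  mul : ∀ k k' p, R k p → R k' (k p) → R (k' * k) p
  inv : ∀ k p, R k p → R k⁻¹ (k p)
  of_id : ∀ k p, (∀ᶠ y in 𝓝 p, k y = y) → R k p
  loc : ∀ Ω, IsOpen Ω → ∀ p ∈ Ω, ∀ᶠ q in 𝓝 p, ∃ k ∈ AA Ω, k p = q ∧ R k p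

omit [T2Space M] in
theorem GermClass.move {R : (M ≃ₜ M) → M → Prop} (hR : GermClass R) {Ω : Set M} (hΩ : IsOpen Ω)
    (hc : IsPreconnected Ω) {p q : M} (hp : p ∈ Ω) (hq : q ∈ Ω) :
    ∃ k ∈ AA Ω, k p = q ∧ R k p := by
  refine hc.induction₂ (fun p q => ∃ k ∈ AA Ω, k p = q ∧ R k p)
    (fun x hx => (hR.loc Ω hΩ x hx).filter_mono nhdsWithin_le_nhds) ?_ ?_ hp hq
  · rintro x _ _ - - - ⟨k, hk, rfl, h⟩ ⟨k', hk', rfl, h'⟩
    exact ⟨k' * k, mul_mem hk' hk, rfl, hR.mul _ _ _ h h'⟩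
  · rintro x _ - - ⟨k, hk, rfl, h⟩
    exact ⟨k⁻¹, inv_mem hk, by simp, hR.inv _ _ h⟩

theorem GermClass.multi [Charted M] {R : (M ≃ₜ M) → M → Prop} (hR : GermClass R) {Ω : Set M}
    (hΩ : IsOpen Ω) (hc : IsPreconnected Ω) {ι : Type*} {p q : ι → M} {s : Set ι}
    (hs : s.Finite) (hp : InjOn p s) (hq : InjOn q s) (hpΩ : MapsTo p s Ω) (hqΩ : MapsTo q s Ω) :
    ∃ k ∈ AA Ω, ∀ i ∈ s, k (p i) = q i ∧ R k (p i) := by
  induction s, hs using Set.Finite.induction_on generalizing Ω with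
  | empty => exact ⟨1, one_mem _, by simp⟩
  | @insert a s ha hs ih =>
    have hfq := hs.image q
    have hfp := hs.image p
    have hpa := hpΩ (mem_insert a s)
    obtain ⟨t, htΩ, ht⟩ := (infinite_of_open hΩ ⟨_, hpa⟩).exists_notMem_finite (hfp.union hfq)
    rw [mem_union, not_or] at ht
    have hne : ∀ {f : ι → M}, InjOn f (insert a s) → f a ∉ f '' s := by
      rintro f hf ⟨i, hi, hi'⟩
      exact ha (hf (mem_insert_of_mem _ hi) (mem_insert _ _) hi' ▸ hi)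
    obtain ⟨k0, hk0, h0, h0'⟩ := hR.move (hΩ.sdiff hfp.isClosed) (preconn_diff_finite hc hΩ hfp)
      ⟨hpa, hne hp⟩ ⟨htΩ, ht.1⟩
    obtain ⟨k1, hk1, h1⟩ := ih (hΩ.sdiff isClosed_singleton) (preconn_diff_point hc hΩ t)
      (hp.mono (subset_insert _ _)) (hq.mono (subset_insert _ _))
      (fun i hi => ⟨hpΩ (mem_insert_of_mem _ hi), fun h => ht.1 ⟨i, hi, h⟩⟩)
      (fun i hi => ⟨hqΩ (mem_insert_of_mem _ hi), fun h => ht.2 ⟨i, hi, h⟩⟩)
    obtain ⟨k2, hk2, h2, h2'⟩ := hR.move (hΩ.sdiff hfq.isClosed) (preconn_diff_finite hc hΩ hfq)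
      ⟨htΩ, ht.2⟩ ⟨hqΩ (mem_insert _ _), hne hq⟩
    refine ⟨k2 * (k1 * k0), mul_mem (AA_mono sdiff_subset hk2)
      (mul_mem (AA_mono sdiff_subset hk1) (AA_mono sdiff_subset hk0)), ?_⟩
    rintro i (rfl | hi)
    · have e1 := AA_eventually hk1 (x := t) fun h => h.2 rfl
      have e2 : (k1 * k0) (p i) = t := by rw [Homeomorph.mul_apply, h0, e1.self_of_nhds]
      exact ⟨by rw [Homeomorph.mul_apply, e2, h2], hR.mul _ _ _
        (hR.mul _ _ _ h0' (hR.of_id _ _ (by rwa [h0]))) (by rwa [e2])⟩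
    · have e0 := AA_eventually hk0 (x := p i) fun h => h.2 (mem_image_of_mem _ hi)
      have e1 := AA_eventually hk2 (x := q i) fun h => h.2 (mem_image_of_mem _ hi)
      have e2 : (k1 * k0) (p i) = q i := by
        rw [Homeomorph.mul_apply, e0.self_of_nhds, (h1 i hi).1]
      exact ⟨by rw [Homeomorph.mul_apply, e2, e1.self_of_nhds], hR.mul _ _ _
        (hR.mul _ _ _ (hR.of_id _ _ e0) (by rw [e0.self_of_nhds]; exact (h1 i hi).2))
        (hR.of_id _ _ (by rwa [e2]))⟩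

theorem germClass_true [Charted M] : GermClass (fun (_ : M ≃ₜ M) _ => True) where
  mul _ _ _ _ _ := trivial
  inv _ _ _ := trivial
  of_id _ _ _ := trivial
  loc Ω hΩ p hp := by
    obtain ⟨N, hN, s, -, hs⟩ := loc_move hΩ hp
    filter_upwards [hN] with q hq using ⟨s q, (hs q hq).1, (hs q hq).2, trivial⟩

theorem germClass_transl :
    GermClass (fun (k : ℂ ≃ₜ ℂ) p => ∀ᶠ z in 𝓝 p, k z = z + (k p - p)) where
  mul k k' p h h' := by
    filter_upwards [h, k.continuous.continuousAt h'] with z hz hz'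
    simp only [Homeomorph.mul_apply]
    rw [mem_preimage, mem_ofPred] at hz'
    rw [hz', hz]; ring
  inv k p h := by
    have : Tendsto k.symm (𝓝 (k p)) (𝓝 p) := by
      simpa using k.symm.continuous.tendsto (k p)
    filter_upwards [this h] with z hz
    rw [mem_preimage, mem_ofPred, k.apply_symm_apply] at hz
    simp only [Homeomorph.inv_apply, k.symm_apply_apply]
    linear_combination -hz
  of_id k p h := by
    filter_upwards [h] with z hz
    rw [hz, h.self_of_nhds]; ring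
  loc Ω hΩ p hp := by
    obtain ⟨r, hr, β, -, h1, K, hK, hKΩ, h0, h⟩ := loc_move_plane hΩ hp
    filter_upwards [ball_mem_nhds p hr] with q hq
    obtain ⟨k, hk⟩ := h (q - p) (by simpa [dist_eq_norm] using hq)
    refine ⟨k, ⟨K, hK, hKΩ, fun z hz => by simp [hk, h0 z hz]⟩, by
      simp [hk, h1.self_of_nhds], ?_⟩
    filter_upwards [h1] with z hz
    simp [hk, hz, h1.self_of_nhds]

end move

end Pool.Agent.Lib.MP_069d55_gt.K
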