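import Pool.Agent.Lib.MP_069d55_gt.KOP

/-! The negative theorem. -/

open Set Topology Filter Metric OnePoint

namespace Pool.Agent.Lib.MP_069d55_gt.K

/-- The action on an invariant subset. -/
def onE {M : Type*} [TopologicalSpace M] (E : Set M) : Stab E →* (E ≃ₜ E) :=
  MonoidHom.mk' (fun g => g.1.subtype (p := (· ∈ E)) (q := (· ∈ E)) fun x => (g.2 x).symm)
    fun _ _ => rfl

theorem onE_coe {M : Type*} [TopologicalSpace M] {E : Set M} (g : Stab E) (x : E) :
    (onE E g x : M) = g.1 x := rfl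

variable {E : Set (OnePoint ℂ)} {h : TE E}
  {H : HomeoP (surf E h.closed) →* (OnePoint ℂ ≃ₜ OnePoint ℂ)}

/-- The action on the ends. -/
noncomputable def Hat.ends (a : Hat h H) : HomeoP (surf E h.closed) →* (E ≃ₜ E) :=
  (onE E).comp (H.codRestrict _ a.stab)

theorem Hat.ends_coe (a : Hat h H) (g) (x : E) : (a.ends g x : OnePoint ℂ) = H g x := rfl

theorem apply_mem_finOrb {X : Type*} [TopologicalSpace X] (φ : X ≃ₜ X) {x : X} :
    φ x ∈ finOrb X ↔ x ∈ finOrb X := by
  simp only [finOrb, mem_ofPred_eq, orb_eq (show φ x ∈ orb x from ⟨φ, rfl⟩)]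

/-- The subgroup fixing the ends of finite orbit. -/
noncomputable def Hat.fixF (a : Hat h H) : Subgroup (HomeoP (surf E h.closed)) :=
  (Fix (finOrb E)).comap a.ends

theorem Hat.fixF_index (a : Hat h H) (hs : Stable E) : a.fixF.FiniteIndex := by
  have := h.compactSpace
  have := h.tdSpace
  have := hs.finite_finOrb.to_subtype
  set t : HomeoP (surf E h.closed) →* Equiv.Perm (finOrb E) := MonoidHom.mk'
    (fun g => Equiv.Perm.subtypePerm (a.ends g).toEquiv fun _ => apply_mem_finOrb _)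
    fun a b => by ext y; simp only [map_mul]; rfl
  exact Subgroup.finiteIndex_of_le (H := t.ker) fun g hg y hy =>
    congrArg Subtype.val (Equiv.congr_fun (MonoidHom.mem_ker.1 hg) ⟨y, hy⟩)

theorem Hat.neg (a : Hat h H) (hs : Stable E) (hF : ¬ Flux E) (hL : ¬ Link E) :
    Neg (HomeoP (surf E h.closed)) := by
  intro W ρ h1 h2 v
  have := a.fixF_index hs
  refine finite_orbit ρ a.fixF fun g hg => ?_
  set V0 : Subgroup (HomeoP (surf E h.closed)) :=
    (MulAction.stabilizer (Equiv.Perm W) v).comap ρ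
  have c : Ctx E (V0.map H) (ρ.ker.map H) :=
    { toTE := h
      V_le := by rintro _ ⟨g, -, rfl⟩; exact a.stab g
      V_open := by
        obtain ⟨ε, hε, e⟩ := a.mem_of_near
        obtain ⟨δ, hδ, d⟩ := a.of_nhds (h1 v)
        refine ⟨_, lt_min hε hδ, fun k hk hn => ?_⟩
        obtain ⟨g, rfl⟩ := e k hk fun x => (hn x).trans_le (min_le_left _ _)
        exact ⟨g, d g fun x => (hn x).trans_le (min_le_right _ _), rfl⟩
      N_le := Subgroup.map_mono fun g hg => by
        change ρ g v = v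
        rw [MonoidHom.mem_ker.1 hg]; rfl
      N_conj := by
        rintro k hk ⟨x, hx⟩ _ ⟨n, hn, rfl⟩
        obtain ⟨g, rfl⟩ := a.mem_of_id hk hx
        exact ⟨g * n * g⁻¹, ρ.normal_ker.conj_mem n hn g, by simp⟩
      N_lim := by
        rintro _ ⟨n, hn, rfl⟩ hl
        refine ⟨n, Equiv.ext fun w => ?_, rfl⟩
        obtain ⟨ε, hε, e⟩ := a.of_nhds ((eventually_all_finite (h2 v w)).2 fun u _ => h1 u)
        obtain ⟨_, ⟨u, hu, rfl⟩, hu'⟩ := hl ε hε
        have := e (u * n * u⁻¹) (by simpa using hu') (ρ u w) ⟨u, hu, rfl⟩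
        simpa using this }
  obtain ⟨y, hy1, hy2⟩ : ∃ y : E, ((finOrb E).Nonempty → y ∈ finOrb E) ∧
      ((finOrbPlus E).Nonempty → y ∈ finOrbPlus E) := by
    by_cases p : (finOrbPlus E).Nonempty
    · exact ⟨_, fun _ => p.some_mem.1, fun _ => p.some_mem⟩
    by_cases q : (finOrb E).Nonempty
    · exact ⟨_, fun _ => q.some_mem, fun h => absurd h p⟩
    exact ⟨⟨_, a.inf⟩, fun h => absurd h q, fun h => absurd h p⟩
  obtain ⟨e, he⟩ := exists_lc (y : OnePoint ℂ)
  obtain ⟨_, ⟨u, hu, rfl⟩, hu'⟩ := c.ends hs hF (φ := a.ends g) hg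
  have fx : H (u⁻¹ * g) ∈ Fix E := fun x hx => by
    rw [map_mul, map_inv, Homeomorph.mul_apply, Homeomorph.inv_apply, Homeomorph.symm_apply_eq]
    exact (hu' ⟨x, hx⟩).symm
  obtain ⟨K, U, e', k1, k2⟩ := a.split (u⁻¹ * g) y.2 (fx _ y.2)
  obtain ⟨w, hw, e''⟩ := c.braid hs hF hL he hy1 hy2 fx (e' ▸ mul_mem k1.1 k2.1)
  have : g ∈ V0 := by
    rw [show g = u * w by rw [a.inj e'']; group]
    exact mul_mem hu hw
  exact this

end Pool.Agent.Lib.MP_069d55_gt.K
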