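import Pool.Agent.Lib.MP_069d55_gt.KSph
import Pool.Agent.Lib.MP_069d55_gt.KHat
import Pool.Agent.Lib.MP_069d55_gt.Grp

/-! The group of the surface as a group of homeomorphisms of the sphere. -/

open Set Topology Filter Metric OnePoint Pool.Agent.Lib.MP_1e9af3_an

namespace Pool.Agent.Lib.MP_069d55_gt.K

/-- The finite part of a point of the sphere. -/
def fin (x : OnePoint ℂ) : ℂ := x.elim 0 id

theorem contAt_fin (z : ℂ) : ContinuousAt fin (z : OnePoint ℂ) :=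
  continuousAt_coe.2 continuousAt_id

theorem hasDeg_prop {S : Set ℂ} (hS : IsOpen S) (hc : IsPreconnected S) {F : ℂ → ℂ}
    (hF : ContinuousOn F S) (hi : InjOn F S) {p q : ℂ} (hp : p ∈ S) (hq : q ∈ S) {d : ℤ}
    (h : HasDeg F p d) : HasDeg F q d := by
  refine (hc.induction₂' (fun p q => HasDeg F p d ↔ HasDeg F q d) (fun x hx => ?_)
    (fun _ _ _ _ _ _ h h' => h.trans h') hp hq).1 h
  obtain ⟨r, hr, hb⟩ := nhds_basis_closedBall.mem_iff.1 (hS.mem_nhds hx)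
  have sub : ∀ y ∈ ball x (r / 2), closedBall y (r / 2) ⊆ S := fun y hy =>
    (closedBall_subset_closedBall' (by linarith [mem_ball.1 hy])).trans hb
  have li : ∀ y ∈ ball x (r / 2), LocInj F y (r / 2) := fun y hy =>
    ⟨half_pos hr, hF.mono (sub y hy), hi.mono (sub y hy)⟩
  have hw : ∀ y ∈ ball x (r / 2), wind (lp F y (r / 2)) = wind (lp F x (r / 2)) := fun y hy =>
    wind_homotopy (H := fun y => lp F y (r / 2)) (convex_ball x (r / 2)).isPreconnected
      ((hF.comp (f := fun q : ℂ × ℝ => q.1 + (r / 2 : ℝ) * ee q.2) (by fun_prop) fun q hq =>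
        sub _ hq.1 (circ_mem (half_pos hr).le le_rfl _)).sub (hF.comp continuousOn_fst
        fun q hq => sub _ hq.1 (mem_closedBall_self (half_pos hr).le)))
      (fun t ht => (li t ht).lp_ne (half_pos hr) le_rfl) (fun t _ => lp_per F t _) hy
      (mem_ball_self (half_pos hr))
  refine mem_nhdsWithin_of_mem_nhds ?_
  filter_upwards [ball_mem_nhds x (half_pos hr)] with y hy
  have h1 := (li x (mem_ball_self (half_pos hr))).hasDeg
  have h2 := (li y hy).hasDeg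
  rw [hw y hy] at h2
  have : HasDeg F x d ↔ HasDeg F y d :=
    ⟨fun h => h1.unique h ▸ h2, fun h => h2.unique h ▸ h1⟩
  exact ⟨this, this.symm⟩

variable {E : Set (OnePoint ℂ)}

theorem range_SE (hi : ∞ ∈ E) : range (fun z : SE E => ((z : ℂ) : OnePoint ℂ)) = Eᶜ := by
  ext y
  induction y using OnePoint.rec with
  | infty => simp [hi]
  | coe z => exact ⟨fun ⟨w, h⟩ => h ▸ w.2, fun h => ⟨⟨z, h⟩, rfl⟩⟩

theorem coe_of_notMem (hi : ∞ ∈ E) {x : OnePoint ℂ} (hx : x ∉ E) :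
    ∃ z : SE E, ((z : ℂ) : OnePoint ℂ) = x :=
  (range_SE hi).ge hx

theorem TE.op (h : TE E) : IsOpen (SE E) := h.closed.isOpen_compl.preimage continuous_coe

theorem TE.emb (h : TE E) : IsOpenEmbedding fun z : SE E => ((z : ℂ) : OnePoint ℂ) :=
  isOpenEmbedding_coe.comp h.op.isOpenEmbedding_subtypeVal

theorem TE.preconn_SE (h : TE E) (hi : ∞ ∈ E) : IsPreconnected (SE E) := by
  have := h.ns E subset_rfl h.closed univ isOpen_univ isPreconnected_univ
  refine isOpenEmbedding_coe.isInducing.isPreconnected_image.1 ?_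
  rwa [← compl_eq_univ_sdiff, ← range_SE hi, ← image_univ, ← image_image,
    image_univ, Subtype.range_coe_subtype] at this

theorem TE.exists_SE (h : TE E) (hi : ∞ ∈ E) {U : Set (OnePoint ℂ)} (hU : IsOpen U)
    (hne : U.Nonempty) : ∃ p ∈ SE E, (p : OnePoint ℂ) ∈ U := by
  obtain ⟨x, h1, h2⟩ := h.nd U hU hne
  obtain ⟨z, rfl⟩ := coe_of_notMem hi h2
  exact ⟨z, z.2, h1⟩

/-- `H` extends homeomorphisms of the surface to the sphere. -/
structure Hat (h : TE E) (H : HomeoP (surf E h.closed) →* (OnePoint ℂ ≃ₜ OnePoint ℂ)) : Prop where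
  inf : ∞ ∈ E
  coe : ∀ g (z : SE E), H g (z : ℂ) = (g.1 z : ℂ)

theorem TE.exists_Hat (h : TE E) (hi : ∞ ∈ E) : ∃ H, Hat h H :=
  let ⟨H, hH⟩ := h.exists_hat h.emb (range_SE hi)
  ⟨H.comp (homeoPlus (surf E h.closed)).subtype, hi, fun g z => hH g.1 z⟩

variable {h : TE E} {H : HomeoP (surf E h.closed) →* (OnePoint ℂ ≃ₜ OnePoint ℂ)}

theorem Hat.stab (a : Hat h H) (g) : H g ∈ Stab E :=
  mem_Stab_of_hat (range_SE a.inf) (f := g.1.toEquiv) (a.coe g)

theorem Hat.inj (a : Hat h H) : Function.Injective H := fun g g' e =>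
  Subtype.ext (Homeomorph.ext fun z => Subtype.ext (coe_injective (by
    rw [← a.coe, ← a.coe, e])))

theorem Hat.near (a : Hat h H) {ε : ℝ} (hε : 0 < ε) :
    ∀ᶠ g in 𝓝 (1 : HomeoP (surf E h.closed)), ∀ x, dist (H g x) x < ε := by
  refine h.eventually_near (fun K hK hKE ε hε => ?_) hε
  have hK' : IsCompact (((↑) : ℂ → OnePoint ℂ) ⁻¹' K) :=
    isOpenEmbedding_coe.isInducing.isCompact_preimage' hK fun x hx => by
      rw [← compl_infty]; exact fun e => hKE x hx (e ▸ a.inf)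
  obtain ⟨δ, hδ, hd⟩ := Metric.mem_uniformity_dist.1 (hK'.uniformContinuousAt_of_continuousAt
    ((↑) : ℂ → OnePoint ℂ) (fun _ _ => continuous_coe.continuousAt) (dist_mem_uniformity hε))
  filter_upwards [nb_mem (S := surf E h.closed) hK' (fun z hz => hKE _ hz) hδ] with g hg x hx
  obtain ⟨z, rfl⟩ := coe_of_notMem a.inf (hKE x hx)
  rw [a.coe, dist_comm]
  exact hd (a := z) (b := g.1 z) (by rw [dist_comm]; exact hg z hx) hx

theorem near_fin {K : Set ℂ} (hK : IsCompact K) {ε : ℝ} (hε : 0 < ε) :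
    ∃ δ > 0, ∀ z ∈ K, ∀ w : ℂ, dist (w : OnePoint ℂ) z < δ → dist w z < ε := by
  obtain ⟨δ, hδ, hd⟩ := Metric.mem_uniformity_dist.1
    ((hK.image continuous_coe).uniformContinuousAt_of_continuousAt fin
      (by rintro _ ⟨z, -, rfl⟩; exact contAt_fin z) (dist_mem_uniformity hε))
  exact ⟨δ, hδ, fun z hz w hw => by
    rw [dist_comm] at hw ⊢; exact hd hw (mem_image_of_mem _ hz)⟩

theorem Hat.of_nhds (a : Hat h H) {A : Set (HomeoP (surf E h.closed))} (hA : A ∈ 𝓝 1) :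
    ∃ ε > 0, ∀ g, (∀ x, dist (H g x) x < ε) → g ∈ A := by
  obtain ⟨K, hK, -, ε, hε, hg⟩ := nb_of_mem hA
  obtain ⟨δ, hδ, hd⟩ := near_fin hK hε
  exact ⟨δ, hδ, fun g h' => hg g fun z hz => hd z hz _ (a.coe g z ▸ h' _)⟩

theorem Hat.mem_range (a : Hat h H) {k : OnePoint ℂ ≃ₜ OnePoint ℂ} (hk : k ∈ Stab E)
    (hd : ∀ f : SE E ≃ₜ SE E, (∀ z : SE E, ((f z : ℂ) : OnePoint ℂ) = k (z : ℂ)) →
      ∃ p ∈ SE E, HasDeg (fn f) p 1) : k ∈ H.range := by
  obtain ⟨f, hf⟩ := exists_ind a.inf a.inf k hk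
  obtain ⟨p, hp, h1⟩ := hd f hf
  refine ⟨⟨f, (orPres_iff h.op).2 fun q hq =>
    hasDeg_prop h.op (h.preconn_SE a.inf) (fn_cont f) (fn_inj f) hp hq h1⟩,
    DFunLike.coe_injective (h.ext (range_SE a.inf) (H _).continuous k.continuous fun z => ?_)⟩
  exact (a.coe _ z).trans (hf z)

theorem Hat.mem_of_id (a : Hat h H) {k : OnePoint ℂ ≃ₜ OnePoint ℂ} (hk : k ∈ Stab E)
    {x : OnePoint ℂ} (hx : ∀ᶠ y in 𝓝 x, k y = y) : k ∈ H.range := by
  refine a.mem_range hk fun f hf => ?_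
  obtain ⟨p, hp, h1⟩ := h.exists_SE a.inf isOpen_interior ⟨x, mem_interior_iff_mem_nhds.2 hx⟩
  refine ⟨p, hp, (hasDeg_id p).congr ?_⟩
  filter_upwards [h.op.mem_nhds hp, continuous_coe.continuousAt.eventually
    (mem_interior_iff_mem_nhds.1 h1)] with z hz e
  rw [fn_mem f hz]
  exact coe_injective ((hf ⟨z, hz⟩).trans e).symm

theorem Hat.mem_of_near (a : Hat h H) : ∃ ε > 0, ∀ k ∈ Stab E, (∀ x, dist (k x) x < ε) →
    k ∈ H.range := by
  obtain ⟨p, hp, -⟩ := h.exists_SE a.inf isOpen_univ univ_nonempty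
  obtain ⟨r, hr, hb⟩ := nhds_basis_closedBall.mem_iff.1 (h.op.mem_nhds hp)
  obtain ⟨δ, hδ, hd⟩ := near_fin (isCompact_closedBall p r) (half_pos hr)
  refine ⟨δ, hδ, fun k hk h' => a.mem_range hk fun f hf => ⟨p, hp, ?_⟩⟩
  have e : ∀ z ∈ closedBall p r, ‖fn f z - z‖ < r / 2 := fun z hz => by
    rw [fn_mem f (hb hz), ← dist_eq_norm]
    exact hd z hz _ (hf ⟨z, hb hz⟩ ▸ h' _)
  have li := fn_locInj f hr hb
  refine li.hasDeg_of ((hasWind_circle (c := r) (by exact_mod_cast hr.ne')).close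
    (li.loop hr le_rfl).cont (lp_per _ _ _) fun θ => ?_)
  have h1 := e _ (circ_mem hr.le le_rfl θ)
  have h2 := e _ (mem_closedBall_self hr.le)
  rw [norm_mul, norm_ee_real, mul_one, Complex.norm_real, Real.norm_of_nonneg hr.le,
    show lp (fn f) p r θ - r * ee θ = (fn f (p + r * ee θ) - (p + r * ee θ)) - (fn f p - p) by
      unfold lp; ring]
  linarith [norm_sub_le (fn f (p + r * ee θ) - (p + r * ee θ)) (fn f p - p)]

theorem exists_mover {y : OnePoint ℂ} {s : Set (OnePoint ℂ)} (hs : s.Finite) (hi : ∞ ∉ s)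
    (hy : y ∉ s) : ∃ k ∈ AA sᶜ, k ∞ = y := by
  obtain ⟨k, h1, h2, -⟩ := germClass_true.move hs.isClosed.isOpen_compl (by
    rw [compl_eq_univ_sdiff]; exact preconn_diff_finite isPreconnected_univ isOpen_univ hs) hi hy
  exact ⟨k, h1, h2⟩

theorem exists_lc (y : OnePoint ℂ) : ∃ e, LC y e := by
  obtain ⟨k, -, hk⟩ := exists_mover (y := y) finite_empty (notMem_empty _) (notMem_empty _)
  exact ⟨k ∘ (↑), k.isOpenEmbedding.comp isOpenEmbedding_coe, by
    rw [range_comp, ← compl_infty, image_compl_eq k.bijective, image_singleton, hk]⟩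

/-- `g` is isotopic to the identity relative to `y` and is the identity on some open set. -/
def Pc (y : OnePoint ℂ) (g : OnePoint ℂ ≃ₜ OnePoint ℂ) : Prop :=
  g ∈ Iso0 {y} ∧ ∃ x, ∀ᶠ w in 𝓝 x, g w = w

theorem Pc.conj {y : OnePoint ℂ} {g : OnePoint ℂ ≃ₜ OnePoint ℂ} (h : Pc y g)
    (k : OnePoint ℂ ≃ₜ OnePoint ℂ) : Pc (k y) (k * g * k⁻¹) := by
  obtain ⟨h1, x, hx⟩ := h
  refine ⟨image_singleton ▸ Iso0_conj h1 k, k x, ?_⟩
  filter_upwards [k.symm.continuous.continuousAt.eventually (k.symm_apply_apply x ▸ hx :)] with w e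
  simp [e]

theorem split_plane {g : OnePoint ℂ ≃ₜ OnePoint ℂ} {F : ℂ ≃ₜ ℂ} (hg : g ∞ = ∞)
    (hF : ∀ z : ℂ, (F z : OnePoint ℂ) = g z) (hd : deg F = 1) :
    ∃ K U, g = K * U ∧ Pc ∞ K ∧ Pc ∞ U := by
  obtain ⟨k, hk, e⟩ := disc_ball hd 1
  obtain ⟨R, hR, hkR⟩ := hk.exists_ball 0 0
  obtain ⟨K, hK, hK'⟩ := exists_lift isOpenEmbedding_coe (Ω := univ ∩ ball 0 R) hkR
  obtain ⟨j, j0, ji, j1⟩ := exists_inversion
  have K1 : K ∈ Iso0 {∞} := (isDisc_closedBall isOpenEmbedding_coe 0 hR).1.alexander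
    (fun x hx => AA_fix hK' fun h => hx (image_mono (inter_subset_right.trans
      ball_subset_closedBall) h)) (mem_image_of_mem _ (mem_closedBall_self hR.le))
    fun x hx => Or.inl (by rw [hx]; simp)
  have U1 : ∀ z : ℂ, ‖z‖ ≤ 1 → (K⁻¹ * g) z = z := fun z hz => by
    rw [Homeomorph.mul_apply, ← hF, ← e z hz, ← hK.1]; simp
  have U2 : (K⁻¹ * g) ∞ = ∞ := by
    rw [Homeomorph.mul_apply, hg]; exact Iso0_le_Fix (inv_mem K1) _ rfl
  refine ⟨K, K⁻¹ * g, by group, ⟨K1, ∞, AA_eventually hK' (by simp)⟩, ⟨?_, (0 : ℂ), ?_⟩⟩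
  · refine (isDisc_closedBall (j.isOpenEmbedding.comp isOpenEmbedding_coe) 0 one_pos).1.alexander
      (p := ∞) (fun x hx => ?_) ⟨0, by simp, j0⟩ fun x hx => Or.inr ⟨hx, U2⟩
    induction x using OnePoint.rec with
    | infty => exact U2
    | coe z =>
      refine U1 z (le_of_not_gt fun hz => hx ⟨z⁻¹, ?_, ?_⟩)
      · simpa using inv_le_one_of_one_le₀ hz.le
      · have : z ≠ 0 := norm_pos_iff.1 (one_pos.trans hz)
        rw [Function.comp_apply, j1 _ (inv_ne_zero this), inv_inv]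
  · filter_upwards [isOpenEmbedding_coe.image_mem_nhds.2 (closedBall_mem_nhds (0 : ℂ) one_pos)]
    rintro _ ⟨z, hz, rfl⟩
    exact U1 z (by simpa using hz)

theorem Hat.split (a : Hat h H) (g) {y : OnePoint ℂ} (hy : y ∈ E) (hg : H g y = y) :
    ∃ K U, H g = K * U ∧ Pc y K ∧ Pc y U := by
  obtain ⟨p, hp, -⟩ := h.exists_SE a.inf isOpen_univ univ_nonempty
  have hq : H g p ∉ E := fun e => hp ((a.stab g _).1 e)
  obtain ⟨k, hk, rfl⟩ := exists_mover (y := y) (s := {(p : OnePoint ℂ), H g p}) (toFinite _)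
    (by rintro (e | e); exacts [hp (e ▸ a.inf), hq (e ▸ a.inf)])
    (by rintro (e | e); exacts [hp (e ▸ hy), hq (e ▸ hy)])
  have hi : (k⁻¹ * H g * k) ∞ = ∞ := by simp [hg]
  obtain ⟨F, hF⟩ := exists_plane _ hi
  obtain ⟨K, U, e, h1, h2⟩ := split_plane hi hF ((hasDeg_homeo F p).unique ((g.op p hp).congr (by
    filter_upwards [h.op.mem_nhds hp, continuous_coe.continuousAt.eventually
      (AA_eventually hk (x := p) (by simp)), ((H g).continuous.comp continuous_coe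
      ).continuousAt.eventually (AA_eventually (inv_mem hk) (x := H g p) (by simp))] with z hz e e'
    refine coe_injective ?_
    rw [fn_mem _ hz, hF, Homeomorph.mul_apply, Homeomorph.mul_apply, e]
    exact (a.coe g ⟨z, hz⟩).symm.trans e'.symm)))
  exact ⟨_, _, by rw [show H g = k * (k⁻¹ * H g * k) * k⁻¹ by group, e]; group, h1.conj k, h2.conj k⟩

end Pool.Agent.Lib.MP_069d55_gt.K
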