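import Pool.Agent.Lib.MP_069d55_gt.KGrid

/-! Pushing a piece of ends that is absorbed at points with infinite orbit. -/

open Set Topology Filter Metric

namespace Pool.Agent.Lib.MP_069d55_gt.K

theorem exists_enum {α : Type*} {t : Set α} (ht : t.Finite) :
    ∃ f : α → ℤ, ∃ K : ℤ, 0 ≤ K ∧ InjOn f t ∧ ∀ i ∈ t, 0 ≤ f i ∧ f i < K := by
  obtain ⟨f, hf⟩ := countable_iff_exists_injOn.1 ht.countable
  obtain ⟨K, hK⟩ := (ht.image f).bddAbove
  exact ⟨fun i => f i, K + 1, by positivity, fun i hi j hj h => hf hi hj (Nat.cast_injective (R := ℤ) h),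
    fun i hi => ⟨by positivity, by have := hK (mem_image_of_mem f hi); dsimp only; omega⟩⟩

variable {M : Type*} [MetricSpace M] [CompactSpace M] [Charted M] {E : Set M}
  {y : M} {e : ℂ → M} {s : Set M} {D : M → Set M} {n : M → ℤ} {N : ℤ}
  {V 𝒩 : Subgroup (M ≃ₜ M)}

omit [CompactSpace M] [Charted M] in
theorem Fam.clopen (h : Fam E s D) {i : M} (hi : i ∈ s) :
    IsClopen ((Subtype.val : E → M) ⁻¹' D i) := by
  refine ⟨(h.disc i hi).isCompact.isClosed.preimage continuous_subtype_val, ?_⟩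
  convert (isOpen_interior (s := D i)).preimage (continuous_subtype_val (p := (· ∈ E))) using 1
  exact Set.ext fun x => ⟨h.int i hi x x.2, fun h => interior_subset (s := D i) h⟩

theorem Fam.insert_one (hE : TE E) (h : Fam E s D) {a : M} (ha : a ∈ E) (hn : ∀ i ∈ s, a ∉ D i)
    {U : Set M} (hU : U ∈ 𝓝 a) : ∃ D', Fam E (insert a s) D' ∧ (∀ i ∈ s, D' i = D i) ∧ D' a ⊆ U := by
  classical
  have := hE.compactSpace
  have := hE.tdSpace
  obtain ⟨Q, q1, q2, q3, q4⟩ := exists_conn_nhds (inter_mem hU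
    ((h.fin.isClosed_biUnion fun i hi => (h.disc i hi).isCompact.isClosed).isOpen_compl.mem_nhds
      fun h => by obtain ⟨i, hi, h⟩ := mem_iUnion₂.1 h; exact hn i hi h))
  obtain ⟨W, w1, w2, w3⟩ := exists_clopen_nhds (x := (⟨a, ha⟩ : E))
    (continuous_subtype_val.continuousAt (q1.mem_nhds q2))
  obtain ⟨A, d1, d2, d3⟩ := hE.exists_disc q1 q4 ⟨a, q2⟩ w1 w3
  have e1 : ∀ i ∈ s, Function.update D a A i = D i := fun i hi =>
    Function.update_of_ne (fun h' : i = a => hn i hi (h' ▸ h.mem i hi)) _ _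
  have e2 : Function.update D a A a = A := Function.update_self _ _ _
  have hd : ∀ i ∈ s, Disjoint A (D i) := fun i hi => Set.disjoint_left.2 fun x hx hx' =>
    (q3 (d2 hx)).2 (mem_iUnion₂.2 ⟨i, hi, hx'⟩)
  refine ⟨Function.update D a A, ⟨h.fin.insert a, ?_, ?_, ?_, insert_subset ha h.sub, ?_⟩, e1,
    e2.symm ▸ d2.trans (q3.trans inter_subset_left)⟩
  · rintro i (rfl | hi)
    exacts [e2.symm ▸ d1, (e1 i hi).symm ▸ h.disc i hi]
  · rintro i (rfl | hi) j (rfl | hj) hne <;> simp only [Function.onFun]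
    · exact (hne rfl).elim
    · rw [e2, e1 j hj]; exact hd j hj
    · rw [e2, e1 i hi]; exact (hd i hi).symm
    · rw [e1 i hi, e1 j hj]; exact h.disj hi hj hne
  · rintro i (rfl | hi)
    exacts [e2.symm ▸ interior_subset (d3.1 _ w2), (e1 i hi).symm ▸ h.mem i hi]
  · rintro i (rfl | hi) x hx
    · rw [e2]; exact fun h => d3.1 ⟨x, hx⟩ (d3.2 ⟨x, hx⟩ h)
    · rw [e1 i hi]; exact h.int i hi x hx

theorem Fam.insert_finite (hE : TE E) (h : Fam E s D) {t : Set M} (ht : t.Finite) (ha : t ⊆ E)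
    (hn : ∀ a ∈ t, ∀ i ∈ s, a ∉ D i) {U : M → Set M} (hU : ∀ a ∈ t, U a ∈ 𝓝 a) :
    ∃ D', Fam E (s ∪ t) D' ∧ (∀ i ∈ s, D' i = D i) ∧ ∀ a ∈ t, D' a ⊆ U a := by
  induction t, ht using Set.Finite.induction_on generalizing U with
  | empty => exact ⟨D, by simpa using h, fun _ _ => rfl, by simp⟩
  | @insert a t hat ht ih =>
    obtain ⟨D1, h1, h2, h3⟩ := ih ((subset_insert _ _).trans ha)
      (fun b hb => hn b (mem_insert_of_mem _ hb)) (U := fun b => U b ∩ {a}ᶜ) fun b hb =>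
        inter_mem (hU b (mem_insert_of_mem _ hb))
          (isOpen_compl_singleton.mem_nhds fun h : b = a => hat (h ▸ hb))
    obtain ⟨D2, h4, h5, h6⟩ := h1.insert_one hE (ha (mem_insert _ _)) (by
      rintro i (hi | hi)
      exacts [h2 i hi ▸ hn a (mem_insert _ _) i hi, fun h => (h3 i hi h).2 rfl])
      (hU a (mem_insert _ _))
    refine ⟨D2, by rwa [union_insert], fun i hi => (h5 i (Or.inl hi)).trans (h2 i hi), ?_⟩
    rintro b (rfl | hb)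
    exacts [h6, h5 b (Or.inr hb) ▸ (h3 b hb).trans inter_subset_left]

variable [PreconnectedSpace M]

theorem Grid.dead (G : Grid y e s D n N) (h : Ctx E V 𝒩) (hc : ∀ x ∈ E, ∃ i ∈ s, x ∈ D i)
    {α β : ℝ} {A B P : Set M} (h1 : -(3 * N + 3) ≤ α) (h2 : β ≤ 3 * N + 3) (h3 : α < β)
    (hA : A ⊆ s \ {y}) (hB : B ⊆ s \ {y}) (hAB : Disjoint A B)
    (hP : ∀ i ∈ s \ {y}, i ∈ P ∨ i ∈ A ∪ B ∨ 3 * (n i : ℝ) + 1 ≤ α ∨ β ≤ 3 * n i - 1)
    (hd : ∀ T : Set E, IsClopen T → (∀ x ∈ T, ∃ i ∈ P ∩ (s \ {y}), (x : M) ∈ D i) → Dead T)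
    {k : M ≃ₜ M} (hk : k ∈ Stab E) (hk' : k ∈ AA (e '' Bx n (3 * N + 3) α β A B)) : k ∈ 𝒩 := by
  have hf := G.fin.subset (sdiff_subset (t := {y}))
  refine h.dead_DX ((DX_Bx G.one_lt h3 (hf.subset hA) (hf.subset hB) fun i hi j hj hn =>
    Set.disjoint_left.1 hAB hi (G.inj (hA hi) (hB hj) hn ▸ hj)).image G.lc.emb)
    (fun T hT hT' => hd T hT fun x hx => ?_) hk hk'
  obtain ⟨i, hi, hxi⟩ := hc x x.2
  have hy : i ≠ y := fun h => G.avoid_y h1 h2 (h ▸ hxi) (hT' x hx)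
  exact ⟨i, ⟨(hP i ⟨hi, hy⟩).resolve_right fun h => G.avoid ⟨hi, hy⟩ h hxi (hT' x hx), hi, hy⟩, hxi⟩

theorem Grid.p1_route (G : Grid y e s D n N) (F : Fam E s D) (h : Ctx E V 𝒩)
    (hc : ∀ x ∈ E, ∃ i ∈ s, x ∈ D i) {p : M} {z z' : E} (hp : p ∈ s \ {y})
    (hz : (z : M) ∈ s \ {y}) (hz' : (z' : M) ∈ s \ {y}) (n0 : n z = 0) (n1 : n p = 1)
    (nN : n z' = N) (hN : 3 ≤ N) (ha : Abs (Subtype.val ⁻¹' D p) z)
    (ha' : Abs (Subtype.val ⁻¹' D p) z')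
    (hd : ∀ T : Set E, IsClopen T → (∀ x ∈ T, (x : M) ∈ D z ∪ D p ∪ D z') → Dead T)
    {m : ℤ} (hm : -1 ≤ m) (hm' : m ≤ N) :
    ∃ α β : ℝ, -(3 * N + 3) ≤ α ∧ β ≤ 3 * N + 3 ∧ ∃ S,
      (∀ i ∈ s \ {y}, i ≠ p → i ∈ S ∨ 3 * (n i : ℝ) + 1 ≤ α ∨ β ≤ 3 * n i - 1) ∧
      ∃ c ∈ AA (e '' Bx n (3 * N + 3) α β ∅ S), ∃ c' ∈ AA (e '' Bx n (3 * N + 3) α β S ∅),
        c p = e (3 * m + 3 / 2 : ℝ) ∧ (∀ x ∈ D p, c' x = c x) ∧
        (c⁻¹ * c' ∈ Stab E → c⁻¹ * c' ∈ 𝒩) := by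
  have := h.compactSpace
  have := h.tdSpace
  have hNr : (3 : ℝ) ≤ N := by exact_mod_cast hN
  have hmr : (-1 : ℝ) ≤ m := by exact_mod_cast hm
  have hmr' : (m : ℝ) ≤ N := by exact_mod_cast hm'
  have ge2 : ∀ i ∈ s \ {y}, i ≠ z → i ≠ p → (2 : ℝ) ≤ n i := fun i hi h1 h2 => by
    have a1 : n i ≠ 0 := fun h => h1 (G.inj hi hz (h.trans n0.symm))
    have a2 : n i ≠ 1 := fun h => h2 (G.inj hi hp (h.trans n1.symm))
    exact_mod_cast (by have := (G.bd i hi).1; omega : 2 ≤ n i)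
  have leN : ∀ i ∈ s \ {y}, i ≠ z' → n i ≤ N - 1 := fun i hi h1 => by
    have a1 : n i ≠ N := fun h => h1 (G.inj hi hz' (h.trans nN.symm))
    have := (G.bd i hi).2; omega
  have hd' : ∀ T : Set E, IsClopen T →
      (∀ x ∈ T, ∃ i ∈ ({(z : M), p, (z' : M)} : Set M) ∩ (s \ {y}), (x : M) ∈ D i) → Dead T :=
    fun T hT hT' => hd T hT fun x hx => by
      obtain ⟨i, ⟨rfl | rfl | rfl, -⟩, h⟩ := hT' x hx
      exacts [Or.inl (Or.inl h), Or.inl (Or.inr h), Or.inr h]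
  have zp : (z : M) ≠ p := fun h => by rw [h, n1] at n0; omega
  have zp' : (z' : M) ≠ p := fun h => by rw [h, n1] at nN; omega
  have zz : (z : M) ≠ z' := fun h => by rw [h, nN] at n0; omega
  by_cases hm1 : m ≤ 1
  · have : (m : ℝ) ≤ 1 := by exact_mod_cast hm1
    obtain ⟨c, c1, c', c2, c3, c4⟩ := G.routes (α := -3) (β := 5) (m := m) hp
      (singleton_subset_iff.2 hz) zp.symm (by rw [n1]; norm_num) (by rw [n1]; norm_num)
      (by linarith) (by linarith)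
    refine ⟨-3, 5, by linarith, by linarith, {(z : M)}, fun i hi h => ?_, c, c1, c', c2, c3,
      fun x hx => (c4 x hx).1, fun hs => G.dead h hc (α := -3) (β := 5) (A := ∅) (B := ∅)
        (by linarith) (by linarith) (by norm_num) (by simp) (by simp) (by simp) (fun i hi => ?_)
        hd' hs (mul_mem (inv_mem (AA_mono (image_mono (Bx_mono le_rfl le_rfl le_rfl (by simp)
          (by simp))) c1)) (AA_mono (image_mono (Bx_mono le_rfl le_rfl le_rfl (by simp)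
          (by simp))) c2))⟩
    · by_cases h' : i = z
      exacts [Or.inl h', Or.inr (Or.inr (by linarith [ge2 i hi h' h]))]
    · by_cases h' : i = z
      · simp [h']
      by_cases h : i = p
      exacts [by simp [h], Or.inr (Or.inr (Or.inr (by linarith [ge2 i hi h' h])))]
  have hm2 : (2 : ℝ) ≤ m := by exact_mod_cast (by omega : 2 ≤ m)
  let S := (s \ {y}) \ {p}
  let S' := (s \ {y}) \ {(z : M), p, (z' : M)}
  have hS' : ∀ i ∈ S', i ∈ S ∧ (2 : ℝ) ≤ n i ∧ n i ≤ N - 1 := fun i hi => by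
    have := hi.2
    simp only [mem_insert_iff, mem_singleton_iff, not_or] at this
    exact ⟨⟨hi.1, this.2.1⟩, ge2 i hi.1 this.1 this.2.1, leN i hi.1 this.2.2⟩
  obtain ⟨c, c1, c', c2, c3, c4⟩ := G.routes (α := 1) (β := 3 * m + 2) (m := m) (S := S) hp
    sdiff_subset (fun h => h.2 rfl) (by rw [n1]; norm_num) (by rw [n1]; push_cast; linarith)
    (by linarith) le_rfl
  have cfix : ∀ i ∈ s, i ≠ p → ∀ x ∈ D i, c x = x ∧ c' x = x := fun i hi hip x hx =>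
    ⟨AA_fix c1 (G.avoid_all (by linarith) (by linarith) hi (fun h => by simp [S, hi, h, hip]) hx),
      AA_fix c2 (G.avoid_all (by linarith) (by linarith) hi (fun h => by simp [S, hi, h, hip]) hx)⟩
  refine ⟨1, 3 * m + 2, by linarith, by linarith, S, fun i hi h => Or.inl ⟨hi, h⟩, c, c1, c', c2,
    c3, fun x hx => (c4 x hx).1, fun _ => ?_⟩
  have dj : ∀ {i j}, i ∈ s \ {y} → j ∈ s \ {y} → i ≠ j → Disjoint
      ((Subtype.val : E → M) ⁻¹' D i) (Subtype.val ⁻¹' D j) := fun hi hj h =>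
    (F.disj hi.1 hj.1 h).preimage _
  obtain ⟨u, u1, u2, u3, -⟩ := exists_transfer (F.clopen hz'.1) (F.clopen hz.1) (F.clopen hp.1)
    (F.mem _ hz'.1) (F.mem _ hz.1) (dj hz' hp zp') (dj hz hp zp) (dj hz' hz zz.symm) ha' ha
  set a : ℤ := min m (N - 1) with hadef
  have a1 : (2 : ℝ) ≤ a := by exact_mod_cast (by omega : 2 ≤ a)
  have a2 : (a : ℝ) ≤ m := by exact_mod_cast min_le_left _ _
  have a3 : (a : ℝ) ≤ N - 1 := by exact_mod_cast min_le_right _ _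
  let S1 := {i ∈ S' | n i ≤ m}
  let S2 := {i ∈ S' | m < n i}
  have s1 : S1 ⊆ s \ {y} := fun i hi => hi.1.1
  have s2 : S2 ⊆ s \ {y} := fun i hi => hi.1.1
  have l1 : ∀ i ∈ S', i ∈ S2 ∨ 3 * (n i : ℝ) + 1 ≤ 3 * a + 1 := fun i hi => by
    by_cases h : m < n i
    · exact Or.inl ⟨hi, h⟩
    · exact Or.inr (by exact_mod_cast (by have := (hS' i hi).2.2; omega : 3 * n i + 1 ≤ 3 * a + 1))
  have r1 := (DX_Bx (n := n) (α := -3) (β := 5) G.one_lt (by norm_num) finite_empty finite_empty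
    (by simp)).image G.lc.emb
  have r2 := (DX_Bx (n := n) (α := 3 * a + 1) (β := 3 * N + 3) G.one_lt (by linarith) finite_empty
    ((G.fin.subset sdiff_subset).subset s2) (by simp)).image G.lc.emb
  have i1 : D z ∪ D p ⊆ e '' Bx n (3 * N + 3) (-3) 5 ∅ ∅ := union_subset
    (G.contain hz G.one_lt (by rw [n0]; norm_num) (by rw [n0]; norm_num) (by simp) (by simp))
    (G.contain hp G.one_lt (by rw [n1]; norm_num) (by rw [n1]; norm_num) (by simp) (by simp))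
  have i2 : D z' ⊆ e '' Bx n (3 * N + 3) (3 * a + 1) (3 * N + 3) ∅ S2 :=
    G.contain hz' G.one_lt (by rw [nN]; linarith) (by rw [nN]; linarith) (by simpa using s2)
      (by simp [S2, S'])
  have i3 : ∀ x : E, x ∈ Subtype.val ⁻¹' D z' ∪ Subtype.val ⁻¹' D p →
      c' x = c x ∧ c x ∈ e '' Bx n (3 * N + 3) (3 * a + 1) (3 * N + 3) ∅ S2 := by
    rintro x (hx | hx)
    · rw [(cfix _ hz'.1 zp' _ hx).1, (cfix _ hz'.1 zp' _ hx).2]; exact ⟨rfl, i2 hx⟩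
    · exact ⟨(c4 _ hx).1, image_mono (ball_subset_Bx G.one_lt (by linarith) (by linarith))
        (c4 _ hx).2⟩
  have dis : ∀ x ∈ e '' Bx n (3 * N + 3) (3 * a + 1) (3 * N + 3) ∅ S2,
      x ∉ e '' Bx n (3 * N + 3) (-3) 5 ∅ ∅ := by
    rintro _ ⟨v, hv, rfl⟩ hv'
    linarith [(mem_Bx.1 hv).1, (mem_Bx.1 (G.lc.emb.injective.mem_set_image.1 hv')).2.1]
  obtain ⟨b1, b2, b3⟩ := h.realize r1.1 r1.preconn (F.clopen hz.1).1 u.continuous.continuousOn
    u.injective.injOn 1 1 (fun x hx => i1 (Or.inl hx)) fun x hx => i1 (u3.mapsTo hx)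
  obtain ⟨b4, b5, b6⟩ := h.realize r2.1 r2.preconn ((F.clopen hz'.1).union (F.clopen hp.1)).1
    u.continuous.continuousOn u.injective.injOn c 1 (fun x hx => (i3 x hx).2)
    fun x hx => i2 (u2.mapsTo hx)
  have st : ∀ k : M ≃ₜ M, (∀ i ∈ s, i ≠ p → ∀ x ∈ D i, k x = x) → (∀ x : E,
      x ∈ Subtype.val ⁻¹' D z' ∪ Subtype.val ⁻¹' D p → k x = c x) → b1 * b4 * k ∈ Stab E :=
    fun k k1 k2 => mem_Stab_of_lift (φ := u) fun x => by
      simp only [Homeomorph.mul_apply]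
      by_cases hx : x ∈ Subtype.val ⁻¹' D z' ∪ Subtype.val ⁻¹' D p
      · rw [k2 x hx, b6 x hx]; exact AA_fix b2 (dis _ (i2 (u2.mapsTo hx)))
      by_cases hx' : x ∈ Subtype.val ⁻¹' D z
      · rw [k1 _ hz.1 zp _ hx', AA_fix b5 fun h => dis _ h (i1 (Or.inl hx'))]; exact b3 x hx'
      obtain ⟨i, hi, hxi⟩ := hc x x.2
      have hi' : i ≠ y → i ∈ S' := fun h => ⟨⟨hi, h⟩, by
        rintro (rfl | rfl | rfl); exacts [hx' hxi, hx (Or.inr hxi), hx (Or.inl hxi)]⟩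
      rw [u1 x fun h => h.elim hx hx', k1 i hi (by rintro rfl; exact hx (Or.inr hxi)) _ hxi,
        AA_fix b5 (G.avoid_all (by linarith) le_rfl hi (fun h => (l1 i (hi' h)).imp Or.inr Or.inl)
          hxi), AA_fix b2 (G.avoid_all (by linarith) (by linarith) hi
          (fun h => Or.inr (Or.inr (by linarith [(hS' i (hi' h)).2.1]))) hxi)]
  have hP : ∀ i ∈ s \ {y}, i ∈ ({(z : M), p, (z' : M)} : Set M) ∨ i ∈ S' := fun i hi =>
    (em _).imp_right fun h => ⟨hi, h⟩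
  have out : ∀ i ∈ S', i ∈ (∅ : Set M) ∨ 3 * (n i : ℝ) + 1 ≤ -3 ∨ (5 : ℝ) ≤ 3 * n i - 1 :=
    fun i hi => Or.inr (Or.inr (by linarith [(hS' i hi).2.1]))
  have d1 := G.dead h hc (α := -3) (β := 3 * N + 3) (A := ∅) (B := S') (by linarith) le_rfl
    (by linarith) (by simp) sdiff_subset (by simp)
    (fun i hi => (hP i hi).imp_right fun h => Or.inl (Or.inr h)) hd'
    (st c (fun i hi h x hx => (cfix i hi h x hx).1) fun _ _ => rfl)
    (mul_mem (mul_mem (AA_mono (image_mono (Bx_mono le_rfl le_rfl (by linarith) (by simp) out)) b2)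
      (AA_mono (image_mono (Bx_mono le_rfl (by linarith) le_rfl (by simp)
        fun i hi => (l1 i hi).imp_right Or.inl)) b5))
      (AA_mono (image_mono (Bx_mono le_rfl (by linarith) (by linarith) (by simp)
        fun i hi => Or.inl (hS' i hi).1)) c1))
  have d2 := G.dead h hc (α := -3) (β := 3 * N + 3) (A := S1) (B := S2) (by linarith) le_rfl
    (by linarith) s1 s2 (Set.disjoint_left.2 fun i h1 h2 => h1.2.not_gt h2.2)
    (fun i hi => (hP i hi).imp_right fun h => Or.inl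
      ((le_or_gt (n i) m).imp (fun h' => ⟨h, h'⟩) fun h' => ⟨h, h'⟩)) hd'
    (st c' (fun i hi h x hx => (cfix i hi h x hx).2) fun x hx => (i3 x hx).1)
    (mul_mem (mul_mem (AA_mono (image_mono (Bx_mono le_rfl le_rfl (by linarith)
      (fun i hi => out i hi.1) fun i hi => out i hi.1)) b2)
      (AA_mono (image_mono (Bx_mono le_rfl (by linarith) le_rfl (fun i hi => Or.inr (Or.inl
        ((l1 i hi.1).resolve_left fun h => hi.2.not_gt h.2))) fun i hi => Or.inl hi)) b5))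
      (AA_mono (image_mono (Bx_mono le_rfl (by linarith) (by linarith)
        (fun i hi => Or.inl (hS' i hi.1).1) fun i hi => Or.inr (Or.inr (by
          exact_mod_cast (by have := hi.2; omega : 3 * m + 2 ≤ 3 * n i - 1))))) c2))
  convert mul_mem (inv_mem d1) d2 using 1
  group

omit [CompactSpace M] [Charted M] [PreconnectedSpace M] in
theorem Grid.fix_all (G : Grid y e s D n N) {p : M} {α β : ℝ} (h1 : -(3 * N + 3) ≤ α)
    (h2 : β ≤ 3 * N + 3) {S : Set M}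
    (hS : ∀ i ∈ s \ {y}, i ≠ p → i ∈ S ∨ 3 * (n i : ℝ) + 1 ≤ α ∨ β ≤ 3 * n i - 1) {c c' : M ≃ₜ M}
    (c1 : c ∈ AA (e '' Bx n (3 * N + 3) α β ∅ S)) (c2 : c' ∈ AA (e '' Bx n (3 * N + 3) α β S ∅))
    (c3 : ∀ x ∈ D p, c' x = c x) : ∀ i ∈ s, ∀ x ∈ D i, (c⁻¹ * c') x = x := fun i hi x hx => by
  rw [Homeomorph.mul_apply, Homeomorph.inv_apply, Homeomorph.symm_apply_eq]
  by_cases h : i = p
  · exact c3 x (h ▸ hx)
  · rw [AA_fix c1 (G.avoid_all h1 h2 hi (fun h' => by simpa using hS i ⟨hi, h'⟩ h) hx),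
      AA_fix c2 (G.avoid_all h1 h2 hi (fun h' => by simpa using hS i ⟨hi, h'⟩ h) hx)]

omit [CompactSpace M] [Charted M] [PreconnectedSpace M] in
theorem stab_of_fix_all (hc : ∀ x ∈ E, ∃ i ∈ s, x ∈ D i) {A : M ≃ₜ M}
    (h : ∀ i ∈ s, ∀ x ∈ D i, A x = x) : A ∈ Stab E :=
  mem_Stab_of_lift (φ := 1) fun x => let ⟨i, hi, hx⟩ := hc x x.2; h i hi x hx

omit [PreconnectedSpace M] in
theorem Fam.mem_GV_iff (F : Fam E s D) (hc : ∀ x ∈ E, ∃ i ∈ s, x ∈ D i) {δ : ℝ}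
    (c : Cov E s (fun i => interior (D i)) id δ) (h : Ctx E V 𝒩)
    (hV : ∀ g ∈ Stab E, (∀ x, dist (g x) x < 2 * δ) → g ∈ V) {A : M ≃ₜ M}
    (hA : ∀ i ∈ s, ∀ x ∈ D i, A x = x) : A ∈ c.GV h hV ↔ A ∈ V :=
  c.mem_GV_iff h hV (stab_of_fix_all hc hA)
    (by rintro _ ⟨i, hi, rfl⟩; exact hA i hi i (F.mem i hi)) fun i hi =>
    ⟨_, c.conn i hi, inter_subset_right, Subset.rfl, fun x hx => by
      rwa [hA i hi x (interior_subset hx)]⟩

/-- The piece `W` is absorbed at two points whose neighbourhoods are absorbed at a third. -/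
def P1 {X : Type*} [TopologicalSpace X] (y : X) (W : Set X) : Prop :=
  ∃ z z' w : X, ∃ R R' : Set X, z ≠ z' ∧ z ≠ y ∧ z' ≠ y ∧ z ∉ W ∧ z' ∉ W ∧ w ∉ W ∧ w ≠ z ∧ w ≠ z' ∧
    IsClopen R ∧ IsClopen R' ∧ z ∈ R ∧ z' ∈ R' ∧ Abs W z ∧ Abs W z' ∧ Abs R w ∧ Abs R' w

theorem Ctx.push_p1 (h : Ctx E V 𝒩) {δ : ℝ} (hδ : 0 < δ)
    (hV : ∀ g ∈ Stab E, (∀ x, dist (g x) x < 2 * δ) → g ∈ V) (hy : y ∈ E) (he : LC y e) {p : M}
    {D0 : Set M} (F : Fam E {p} fun _ => D0) (hsm : Sm δ D0) (hyD : y ∉ D0)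
    (hP : P1 (⟨y, hy⟩ : E) (Subtype.val ⁻¹' D0)) {O : Set M} (hO : IsOpen O)
    (hEO : ∀ x ∈ E, x ∉ D0 → x ∈ O) {A : M ≃ₜ M} (hA : A ∈ Iso0 O) (hA' : ∀ x ∈ D0, A x = x) :
    A ∈ V := by
  classical
  have := h.compactSpace
  have : Nonempty M := ⟨y⟩
  obtain ⟨z, z', w, R, R', p1, p2, p3, p4, p5, p6, p7, p8, p9, p10, p11, p12, p13, p14, p15,
    p16⟩ := hP
  choose! Q q1 q2 q3 q4 q5 using fun x (hx : x ∈ O) => exists_sm_nhds (hO.mem_nhds hx) hδ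
  have nb : ∀ {x : E} {R : Set E}, IsClopen R → x ∈ R → w ≠ x →
      ∃ U ∈ 𝓝 (x : M), Subtype.val ⁻¹' U ⊆ R \ {w} := fun h1 h2 h3 =>
    (mem_nhds_subtype _ _ _).1 ((h1.2.sdiff isClosed_singleton).mem_nhds ⟨h2, h3.symm⟩)
  obtain ⟨U, u1, u2⟩ := nb p9 p11 p7
  obtain ⟨U', u3, u4⟩ := nb p10 p12 p8
  have zz : (z : M) ≠ z' := fun h => p1 (Subtype.ext h)
  have hQ : ∀ x ∈ E, x ∉ D0 → Q x ∈ 𝓝 x := fun x hx hx' =>
    (q1 x (hEO x hx hx')).mem_nhds (q2 x (hEO x hx hx'))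
  have ht : ∀ a ∈ ({(z : M), (z' : M), y} : Set M), a ∈ E ∧ a ∉ D0 := by
    rintro _ (rfl | rfl | rfl); exacts [⟨z.2, p4⟩, ⟨z'.2, p5⟩, ⟨hy, hyD⟩]
  obtain ⟨D1, F1, f1, f2⟩ := F.insert_finite h.toTE (toFinite _) (fun a ha => (ht a ha).1)
    (fun a ha _ _ => (ht a ha).2)
    (U := fun a => Q a ∩ if a = z then U else if a = z' then U' else univ) fun a ha =>
      inter_mem (hQ a (ht a ha).1 (ht a ha).2) (by
        split_ifs with h1 h2
        exacts [h1 ▸ u1, h2 ▸ u3, univ_mem])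
  obtain ⟨s, D, F2, g1, g2, hc, g3⟩ := F1.extend h.toTE (O := Q) fun x hx hx' =>
    hQ x hx (f1 p rfl ▸ hx' p (Or.inl rfl))
  have hp : D p = D0 := (g2 p (Or.inl rfl)).trans (f1 p rfl)
  have hDO : ∀ i ∈ s, i ≠ p → ∃ x ∈ O, D i ⊆ Q x := fun i hi hip => by
    by_cases hi' : i ∈ ({(z : M), (z' : M), y} : Set M)
    · exact ⟨i, hEO i (ht i hi').1 (ht i hi').2,
        g2 i (Or.inr hi') ▸ (f2 i hi').trans inter_subset_left⟩
    · obtain ⟨x, x1, x2, x3⟩ := g3 i ⟨hi, fun h => h.elim hip hi'⟩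
      exact ⟨x, hEO x x1 (f1 p rfl ▸ x2 p (Or.inl rfl)), x3⟩
  have hAD : ∀ i ∈ s, ∀ x ∈ D i, A x = x := fun i hi x hx => by
    by_cases hip : i = p
    · exact hA' x (hp ▸ hip ▸ hx)
    · obtain ⟨a, ha, h⟩ := hDO i hi hip
      exact Iso0_le_Fix hA x (q3 a ha (h hx))
  have C := F2.cov hc hδ fun i hi => by
    by_cases hip : i = p
    · rwa [hip, hp]
    · obtain ⟨a, ha, h⟩ := hDO i hi hip
      exact (q5 a ha).mono h
  obtain ⟨f, K, k0, k1, k2⟩ := exists_enum F2.fin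
  have hpD : p ∈ D0 := F.mem p rfl
  have zp : (z : M) ≠ p := fun h => p4 (h.symm ▸ hpD : (z : M) ∈ D0)
  have zp' : (z' : M) ≠ p := fun h => p5 (h.symm ▸ hpD : (z' : M) ∈ D0)
  let n : M → ℤ := fun i => if i = z then 0 else if i = p then 1 else if i = z' then K + 3
    else f i + 2
  obtain ⟨e', G⟩ := F2.exists_grid (g1 (Or.inr (by simp))) he (n := n) (N := K + 3) (by omega)
    (fun i hi j hj hij => by
      have := k2 i hi.1
      have := k2 j hj.1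
      simp only [n] at hij
      split_ifs at hij <;> first | omega | simp only [*] | exact k1 hi.1 hj.1 (by omega))
    fun i hi => by
      have := k2 i hi.1
      simp only [n]
      split_ifs <;> omega
  have hps : p ∈ s \ {y} := ⟨g1 (Or.inl rfl), fun h : p = y => hyD (h ▸ hpD)⟩
  rw [← F2.mem_GV_iff hc C h hV hAD]
  refine G.push (Z := s \ {p}) sdiff_subset ⟨g1 (Or.inr (by simp)), fun h => hps.2 h.symm⟩
    (h := p) ⟨hps.1, fun h => h.2 rfl⟩ (by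
      rw [insert_sdiff_singleton, insert_eq_of_mem hps.1]
      simpa using C.Iso0_le_GV h hV) (fun m m1 m2 => ?_) (Iso0_anti (fun i hi => by
        obtain ⟨a, ha, h⟩ := hDO i hi.1 hi.2
        exact q3 a ha (h (F2.mem i hi.1))) hA) (hA' p hpD)
  have hz : D z ⊆ U := by
    rw [g2 z (Or.inr (by simp))]
    have := (f2 z (by simp)).trans (inter_subset_right (s := Q z))
    rwa [if_pos rfl] at this
  have hz' : D z' ⊆ U' := by
    rw [g2 z' (Or.inr (by simp))]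
    have := (f2 z' (by simp)).trans (inter_subset_right (s := Q z'))
    rwa [if_neg zz.symm, if_pos rfl] at this
  have hzs : (z : M) ∈ s \ {y} := ⟨g1 (Or.inr (by simp)), fun h => p2 (Subtype.ext h)⟩
  have hzs' : (z' : M) ∈ s \ {y} := ⟨g1 (Or.inr (by simp)), fun h => p3 (Subtype.ext h)⟩
  obtain ⟨α, β, a1, a2, S, a3, c, c1, c', c2, c3, c4, c5⟩ := G.p1_route F2 h hc hps hzs hzs'
    (by simp [n]) (by simp [n, zp.symm]) (by simp [n, zz.symm, zp']) (by omega) (hp ▸ p13)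
    (hp ▸ p14) (fun T hT hT' => ⟨hT, w, fun hw => by
      rcases hT' w hw with (h | h) | h
      exacts [(u2 (hz h)).2 rfl, p6 (hp ▸ h), (u4 (hz' h)).2 rfl], by
      have b1 := F2.clopen hzs.1
      have b2 := F2.clopen hps.1
      have b3 := F2.clopen hzs'.1
      refine Abs.mono (A := Subtype.val ⁻¹' D z ∪ Subtype.val ⁻¹' D p ∪ Subtype.val ⁻¹' D z') ?_
        ((b1.union b2).union b3) hT hT'
      exact ((p15.mono p9 b1 fun x hx => (u2 (hz hx)).1).union (hp ▸ p13.trans p9 p11 p15) b1.2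
        b2.2 ((F2.disj hzs.1 hps.1 zp).preimage _)).union (p16.mono p10 b3 fun x hx =>
          (u4 (hz' hx)).1) (b1.union b2).2 b3.2 (disjoint_union_left.2
          ⟨(F2.disj hzs.1 hzs'.1 zz).preimage _, (F2.disj hps.1 hzs'.1 zp'.symm).preimage _⟩)⟩)
    m1 m2
  have hf := G.fix_all a1 a2 a3 c1 c2 c4
  exact ⟨m, fun _ _ => Iff.rfl, α, β, _, S, fun i hi => a3 i ⟨hi.1.1, hi.2⟩ hi.1.2, c, c1, c', c2,
    c3, c4 p (hp ▸ hpD), (F2.mem_GV_iff hc C h hV hf).2 (h.N_le (c5 (stab_of_fix_all hc hf)))⟩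

end Pool.Agent.Lib.MP_069d55_gt.K
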