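import Pool.Agent.Lib.MP_069d55_gt.KTame
import Pool.Agent.Lib.MP_069d55_gt.KMain
import Pool.Agent.Lib.MP_069d55_gt.Ends

/-! The Riemann sphere as a charted compact metric space; real sets of ends are tame. -/

open Set Topology Filter Metric OnePoint

namespace Pool.Agent.Lib.MP_069d55_gt.K

noncomputable scoped instance sphMetric : MetricSpace (OnePoint ℂ) :=
  (onePointEquivSphereOfFinrankEq (ι := Fin 3) (V := ℂ)
    (by simp [Complex.finrank_real_complex])).isEmbedding.comapMetricSpace _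

theorem lc_coe : LC (∞ : OnePoint ℂ) (↑) := ⟨isOpenEmbedding_coe, compl_infty.symm⟩

scoped instance : Charted (OnePoint ℂ) := ⟨fun x => by
  obtain ⟨j, j0, -, -⟩ := exists_inversion
  induction x using OnePoint.rec with
  | infty => exact ⟨j ∘ (↑), j.isOpenEmbedding.comp isOpenEmbedding_coe, 0, j0⟩
  | coe z => exact ⟨(↑), isOpenEmbedding_coe, z, rfl⟩⟩

theorem exists_gap {A : Set ℝ} (h : IsTotallyDisconnected A) {a b : ℝ} (hab : a < b) :
    ∃ t ∈ Ioo a b, t ∉ A := by
  by_contra hc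
  push Not at hc
  have := h _ hc isPreconnected_Ioo (show (2 * a + b) / 3 ∈ Ioo a b from ⟨by linarith, by linarith⟩)
    (show (a + 2 * b) / 3 ∈ Ioo a b from ⟨by linarith, by linarith⟩)
  linarith

theorem ball_diff_real {Z : Set ℂ} (hZ : ∀ z ∈ Z, z.im = 0) {c r t : ℝ} (ht : |t - c| < r)
    (htZ : (t : ℂ) ∉ Z) : IsPreconnected (ball (c : ℂ) r \ Z) ∧
      ball (c : ℂ) r ⊆ closure (ball (c : ℂ) r \ Z) := by
  have htb : (t : ℂ) ∈ ball (c : ℂ) r := by
    rwa [mem_ball, dist_eq_norm, ← Complex.ofReal_sub, Complex.norm_real]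
  have up : ∀ z ∈ ball (c : ℂ) r, z.im = 0 → z ∈ closure (ball (c : ℂ) r ∩ {z | 0 < z.im}) :=
    fun z hz h => isOpen_ball.inter_closure ⟨hz, by rw [Complex.closure_setOfPred_lt_im]; exact h.ge⟩
  have dn : ∀ z ∈ ball (c : ℂ) r, z.im = 0 → z ∈ closure (ball (c : ℂ) r ∩ {z | z.im < 0}) :=
    fun z hz h => isOpen_ball.inter_closure ⟨hz, by rw [Complex.closure_setOfPred_im_lt]; exact h.le⟩
  have s1 : ball (c : ℂ) r ∩ {z | 0 < z.im} ⊆ ball (c : ℂ) r \ Z :=
    fun z hz => ⟨hz.1, fun h => (hZ z h).not_gt hz.2⟩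
  have s2 : ball (c : ℂ) r ∩ {z | z.im < 0} ⊆ ball (c : ℂ) r \ Z :=
    fun z hz => ⟨hz.1, fun h => (hZ z h).not_lt hz.2⟩
  have c1 := (((convex_ball (c : ℂ) r).inter (convex_halfSpace_im_gt 0)).isPreconnected
    ).subset_closure (subset_insert (t : ℂ) _) (insert_subset (up _ htb (by simp)) subset_closure)
  have c2 := (((convex_ball (c : ℂ) r).inter (convex_halfSpace_im_lt 0)).isPreconnected
    ).subset_closure (subset_insert (t : ℂ) _) (insert_subset (dn _ htb (by simp)) subset_closure)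
  constructor
  · refine (c1.union _ (mem_insert _ _) (mem_insert _ _) c2).subset_closure
      (union_subset (insert_subset ⟨htb, htZ⟩ s1) (insert_subset ⟨htb, htZ⟩ s2)) fun z hz => ?_
    rcases lt_trichotomy z.im 0 with h | h | h
    · exact subset_closure (Or.inr (Or.inr ⟨hz.1, h⟩))
    · exact closure_mono ((subset_insert _ _).trans subset_union_left) (up z hz.1 h)
    · exact subset_closure (Or.inl (Or.inr ⟨hz.1, h⟩))
  · intro z hz
    by_cases h : z ∈ Z
    exacts [closure_mono s1 (up z hz (hZ z h)), subset_closure ⟨hz, h⟩]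

theorem good_real {M : Type*} [MetricSpace M] {E : Set M}
    (htd : IsTotallyDisconnected E) {e : ℂ → M} (he : IsOpenEmbedding e)
    (hr : ∀ u, e u ∈ E → u.im = 0) {x : ℂ} (hx : e x ∈ E) {U : Set M} (hU : U ∈ 𝓝 (e x)) :
    ∃ D, Good E D ∧ e x ∈ interior D ∧ D ⊆ U := by
  obtain ⟨x, rfl⟩ : ∃ t : ℝ, x = t := ⟨x.re, Complex.ext rfl (by simpa using hr x hx)⟩
  obtain ⟨ε, hε, hb⟩ := nhds_basis_closedBall.mem_iff.1 (he.continuous.continuousAt hU)
  have hc : Continuous fun t : ℝ => e t := he.continuous.comp Complex.continuous_ofReal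
  have hA : IsTotallyDisconnected ((fun t : ℝ => e t) ⁻¹' E) :=
    isTotallyDisconnected_of_image hc.continuousOn (he.injective.comp Complex.ofReal_injective)
      fun t ht => htd t (ht.trans (image_preimage_subset _ _))
  obtain ⟨l, hl, hlE⟩ := exists_gap hA (show x - ε / 2 < x by linarith)
  obtain ⟨r, hr', hrE⟩ := exists_gap hA (show x < x + ε / 2 by linarith)
  have hρ : 0 < (r - l) / 2 := by linarith [hl.2, hr'.1]
  obtain ⟨h1, h2⟩ := isDisc_closedBall he (((l + r) / 2 : ℝ) : ℂ) hρ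
  have hd : ∀ s t : ℝ, dist (s : ℂ) t = |s - t| := fun s t => by
    rw [dist_eq_norm, ← Complex.ofReal_sub, Complex.norm_real, Real.norm_eq_abs]
  refine ⟨_, ⟨h1, ?_, fun Z hZ _ => ?_⟩, ?_, ?_⟩
  · rintro _ hy ⟨u, hu, rfl⟩
    obtain ⟨u, rfl⟩ : ∃ t : ℝ, u = t := ⟨u.re, Complex.ext rfl (by simpa using hr u hy)⟩
    rw [h2]
    refine mem_image_of_mem _ ?_
    rw [mem_closedBall, hd, abs_le] at hu
    have n1 : u ≠ l := fun h => hlE (h ▸ hy)
    have n2 : u ≠ r := fun h => hrE (h ▸ hy)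
    rw [mem_ball, hd, abs_lt]
    exact ⟨by rcases n1.lt_or_gt with h | h <;> linarith [hu.1],
      by rcases n2.lt_or_gt with h | h <;> linarith [hu.2]⟩
  · obtain ⟨t, ht, htE⟩ := exists_gap hA (show l < r by linarith)
    obtain ⟨h3, h4⟩ := ball_diff_real (Z := e ⁻¹' Z) (fun z hz => hr z (hZ hz)) (c := (l + r) / 2)
      (r := (r - l) / 2) (t := t) (abs_lt.2 ⟨by linarith [ht.1], by linarith [ht.2]⟩)
      fun h => htE (hZ h)
    rw [h2, ← image_sdiff_preimage]
    exact ⟨h3.image _ he.continuous.continuousOn,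
      (image_mono h4).trans (image_closure_subset_closure_image he.continuous)⟩
  · rw [h2]
    refine mem_image_of_mem _ ?_
    rw [mem_ball, hd, abs_lt]
    exact ⟨by linarith [hl.2], by linarith [hr'.1]⟩
  · refine image_subset_iff.2 ((closedBall_subset_closedBall' ?_).trans hb)
    rw [hd]
    rcases abs_cases ((l + r) / 2 - x) with h | h <;> linarith [hl.1, hr'.2, hl.2, hr'.1]

theorem TE.of_real {E : Set (OnePoint ℂ)} (hE : IsClosed E) (htd : IsTotallyDisconnected E)
    (hr : ∀ z : ℂ, (z : OnePoint ℂ) ∈ E → z.im = 0) : TE E := by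
  refine TE.of_local hE htd fun x hx U hU => ?_
  induction x using OnePoint.rec with
  | coe z => exact good_real htd isOpenEmbedding_coe hr hx hU
  | infty =>
    obtain ⟨j, j0, -, j1⟩ := exists_inversion
    rw [← j0] at hx hU ⊢
    refine good_real (e := j ∘ (↑)) htd (j.isOpenEmbedding.comp isOpenEmbedding_coe)
      (fun u hu => ?_) hx hU
    by_cases h : u = 0
    · simp [h]
    · rw [Function.comp_apply, j1 u h] at hu
      simpa [Complex.inv_im, h] using hr _ hu

end Pool.Agent.Lib.MP_069d55_gt.K
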