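import Pool.Agent.Lib.MP_069d55_gt.KCtx

/-! A local criterion for tameness. -/

open Set Topology Filter Metric

namespace Pool.Agent.Lib.MP_069d55_gt.K

variable {M : Type*} [MetricSpace M]

theorem IsDisc.exists_notMem {D Ω : Set M} (h : IsDisc D) (hΩ : IsOpen Ω) (hD : D ⊆ Ω) :
    (Ω \ D).Nonempty := by
  obtain ⟨d, hd, rfl⟩ := h
  obtain ⟨δ, hδ, hs⟩ := (isCompact_closedBall (0 : ℂ) 1).exists_thickening_subset_open
    (hΩ.preimage hd.continuous) (image_subset_iff.1 hD)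
  rw [thickening_closedBall hδ zero_le_one] at hs
  have e : ‖((1 + δ / 2 : ℝ) : ℂ)‖ = 1 + δ / 2 := by
    rw [Complex.norm_real, Real.norm_of_nonneg (by positivity)]
  refine ⟨d ((1 + δ / 2 : ℝ) : ℂ), hs (by rw [mem_ball_zero_iff, e]; linarith), fun h => ?_⟩
  rw [hd.injective.mem_set_image, mem_closedBall_zero_iff, e] at h
  linarith

theorem subset_interior_of_preconn {A D : Set M} (hA : IsPreconnected A) (hD : IsClosed D)
    (h : ∀ x ∈ A, x ∈ D → x ∈ interior D) {a : M} (ha : a ∈ A) (haD : a ∈ D) : A ⊆ interior D := by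
  refine (hA.subset_or_subset isOpen_interior hD.isOpen_compl
    (disjoint_compl_right.mono_left interior_subset) fun x hx => ?_).resolve_right
    fun h' => h' ha haD
  by_cases hx' : x ∈ D
  exacts [Or.inl (h x hx hx'), Or.inr hx']

/-- A disc whose boundary misses `E` and which no part of `E` separates. -/
def Good (E D : Set M) : Prop := IsDisc D ∧ (∀ y ∈ E, y ∈ D → y ∈ interior D) ∧
  ∀ Z ⊆ E, IsClosed Z → IsPreconnected (interior D \ Z) ∧ interior D ⊆ closure (interior D \ Z)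

theorem TE.of_local [CompactSpace M] [Charted M] {E : Set M} (hE : IsClosed E)
    (htd : IsTotallyDisconnected E)
    (h : ∀ x ∈ E, ∀ U ∈ 𝓝 x, ∃ D, Good E D ∧ x ∈ interior D ∧ D ⊆ U) : TE E := by
  have h' : ∀ x, ∀ U ∈ 𝓝 x, ∃ D, Good E D ∧ x ∈ interior D ∧ D ⊆ U := fun x U hU => by
    by_cases hx : x ∈ E
    · exact h x hx U hU
    obtain ⟨D, h1, h2, h3⟩ := exists_disc_nhds (inter_mem hU (hE.isOpen_compl.mem_nhds hx))
    refine ⟨D, ⟨h1, fun y hy hD => absurd hy (h3 hD).2, fun Z hZ _ => ?_⟩, h2,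
      h3.trans inter_subset_left⟩
    rw [sdiff_eq_left.2 (Set.disjoint_left.2 fun y hy hz => (h3 (interior_subset hy)).2 (hZ hz))]
    exact ⟨h1.preconn_interior, subset_closure⟩
  have ns : ∀ Z ⊆ E, IsClosed Z → ∀ Ω, IsOpen Ω → IsPreconnected Ω → IsPreconnected (Ω \ Z) :=
    fun Z hZ hZc Ω hΩ hc => preconn_diff_of_local hc fun x hx =>
      let ⟨D, h1, h2, h3⟩ := h' x Ω (hΩ.mem_nhds hx)
      ⟨interior D, isOpen_interior, h2, interior_subset.trans h3, h1.2.2 Z hZ hZc⟩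
  have nd : ∀ U, IsOpen U → U.Nonempty → ∃ x ∈ U, x ∉ E := fun U hU ⟨x, hx⟩ => by
    obtain ⟨D, h1, h2, h3⟩ := h' x U (hU.mem_nhds hx)
    obtain ⟨y, hy⟩ := closure_nonempty_iff.1 ⟨x, (h1.2.2 E subset_rfl hE).2 h2⟩
    exact ⟨y, h3 (interior_subset hy.1), hy.2⟩
  refine ⟨hE, fun δ hδ => ?_, htd, ns, nd⟩
  choose D0 g0 x0 s0 using fun x => h' x (ball x (δ / 2)) (ball_mem_nhds x (half_pos hδ))
  obtain ⟨t0, ht0⟩ := hE.isCompact.elim_finite_subcover (fun x => interior (D0 x))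
    (fun _ => isOpen_interior) fun x _ => mem_iUnion.2 ⟨x, x0 x⟩
  set U : Set M := (⋃ i ∈ t0, interior (D0 i)) ∩ ⋂ i ∈ t0, (D0 i \ interior (D0 i))ᶜ with hU
  have Uo : IsOpen U := (isOpen_biUnion fun _ _ => isOpen_interior).inter
    (isOpen_biInter_finset fun i _ =>
      ((g0 i).1.isCompact.isClosed.sdiff isOpen_interior).isOpen_compl)
  have EU : E ⊆ U := fun x hx => ⟨ht0 hx, mem_iInter₂.2 fun i _ h => h.2 ((g0 i).2.1 x hx h.1)⟩
  have Usm : ∀ A ⊆ U, IsPreconnected A → Sm δ A := fun A hA hc x hx y hy => by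
    obtain ⟨i, hi, hxi⟩ := mem_iUnion₂.1 (hA hx).1
    have := subset_interior_of_preconn hc (g0 i).1.isCompact.isClosed (fun z hz hD =>
      by_contra fun h => mem_iInter₂.1 (hA hz).2 i hi ⟨hD, h⟩) hx (interior_subset hxi)
    have h1 := s0 i (interior_subset (this hx))
    have h2 := s0 i (interior_subset (this hy))
    rw [mem_ball] at h1 h2
    linarith [dist_triangle_right x y i]
  choose D1 g1 x1 s1 using fun x : E => h' x U (Uo.mem_nhds (EU x.2))
  obtain ⟨t1, ht1⟩ := hE.isCompact.elim_finite_subcover (fun x => interior (D1 x))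
    (fun _ => isOpen_interior) fun x hx => mem_iUnion.2 ⟨⟨x, hx⟩, x1 _⟩
  have key : ∀ t : Finset E, ∃ 𝒟 : Set (Set M), 𝒟.Finite ∧
      (∀ D ∈ 𝒟, IsDisc D ∧ D ⊆ U ∧ ∀ y ∈ E, y ∈ D → y ∈ interior D) ∧ 𝒟.PairwiseDisjoint id ∧
      ∀ i ∈ t, ∀ y ∈ E, y ∈ D1 i → ∃ D ∈ 𝒟, y ∈ D := by
    classical
    intro t
    induction t using Finset.induction_on with
    | empty => exact ⟨∅, finite_empty, by simp, by simp, by simp⟩
    | insert m t _ ih =>
      obtain ⟨𝒟, f, p, d, c⟩ := ih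
      set Ω := connectedComponentIn U m
      have Ωo : IsOpen Ω := Uo.connectedComponentIn
      have hm : D1 m ⊆ Ω :=
        (g1 m).1.preconn.subset_connectedComponentIn (interior_subset (x1 m)) (s1 m)
      have out : ∀ D ∈ 𝒟, ∀ y ∈ D, y ∈ Ω → D ⊆ Ω := fun D hD y hy hy' => by
        rw [show Ω = _ from connectedComponentIn_eq hy']
        exact (p D hD).1.preconn.subset_connectedComponentIn hy (p D hD).2.1
      set Z := E \ ⋃ D ∈ 𝒟, interior D
      have Zc : IsClosed Z := hE.sdiff (isOpen_biUnion fun _ _ => isOpen_interior)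
      have hZ : ∀ D ∈ 𝒟, ∀ y ∈ D, y ∉ Z := fun D hD y hy h =>
        h.2 (mem_biUnion hD ((p D hD).2.2 y h.1 hy))
      have hZ' : ∀ y ∈ E, (∀ D ∈ 𝒟, y ∉ D) → y ∈ Z := fun y hy h => ⟨hy, fun h' => by
        obtain ⟨D, hD, hy⟩ := mem_iUnion₂.1 h'; exact h D hD (interior_subset hy)⟩
      obtain ⟨a, ha, haE⟩ := nd _ (Ωo.sdiff (g1 m).1.isCompact.isClosed)
        ((g1 m).1.exists_notMem Ωo hm)
      obtain ⟨k, hk, hk'⟩ := gather_discs (Ωo.sdiff Zc)
        (ns Z sdiff_subset Zc Ω Ωo isPreconnected_connectedComponentIn)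
        (s := {D ∈ 𝒟 | D ⊆ Ω}) (f.subset (sep_subset _ _)) (D := id) (t := fun _ => (Ω \ Z) \ D1 m)
        (fun D hD => (p D hD.1).1) (d.subset (sep_subset _ _))
        (fun D hD y hy => ⟨hD.2 hy, hZ D hD.1 y hy⟩)
        (fun _ _ => (Ωo.sdiff Zc).sdiff (g1 m).1.isCompact.isClosed)
        (fun _ _ => ⟨a, ⟨ha.1, fun h => haE h.1⟩, ha.2⟩) fun _ _ => sdiff_subset
      have kZ : ∀ y ∈ Z, k y = y := fun y hy => AA_fix hk fun h => h.2 hy
      have e1 : k.symm '' D1 m = k ⁻¹' D1 m := congrFun k.image_symm _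
      have sub : k ⁻¹' D1 m ⊆ Ω := fun y hy => (AA_mem_iff (AA_mono sdiff_subset hk) y).1 (hm hy)
      have dj : ∀ D ∈ 𝒟, ∀ y ∈ D, y ∉ k ⁻¹' D1 m := fun D hD y hy h =>
        (hk' D ⟨hD, out D hD y hy (sub h)⟩ hy).2 h
      refine ⟨insert (k ⁻¹' D1 m) 𝒟, f.insert _, ?_, d.insert fun D hD _ =>
        Set.disjoint_right.2 (dj D hD), ?_⟩
      · rintro D (rfl | hD)
        · refine ⟨e1 ▸ (g1 m).1.image _, sub.trans (connectedComponentIn_subset _ _),
            fun y hy h => ?_⟩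
          have := kZ y (hZ' y hy fun D hD h' => dj D hD y h' h)
          rw [← k.preimage_interior, mem_preimage]
          exact (g1 m).2.1 _ (this.symm ▸ hy) h
        · exact p D hD
      · intro i hi y hy hyi
        rcases Finset.mem_insert.1 hi with rfl | hi
        · by_cases hc : ∃ D ∈ 𝒟, y ∈ D
          · obtain ⟨D, hD, h⟩ := hc; exact ⟨D, Or.inr hD, h⟩
          · exact ⟨_, Or.inl rfl, by
              rw [mem_preimage, kZ y (hZ' y hy fun D hD h => hc ⟨D, hD, h⟩)]; exact hyi⟩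
        · obtain ⟨D, hD, h⟩ := c i hi y hy hyi; exact ⟨D, Or.inr hD, h⟩
  obtain ⟨𝒟, f, p, d, c⟩ := key t1
  refine ⟨𝒟, f, fun D hD => ⟨(p D hD).1, Usm D (p D hD).2.1 (p D hD).1.preconn⟩, d, fun x hx => ?_⟩
  obtain ⟨i, hi, hxi⟩ := mem_iUnion₂.1 (ht1 hx)
  obtain ⟨D, hD, h⟩ := c i hi x hx (interior_subset hxi)
  exact ⟨D, hD, (p D hD).2.2 x hx h⟩

end Pool.Agent.Lib.MP_069d55_gt.K
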