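import Pool.Agent.Lib.MP_069d55_gt.Tame
import Pool.Agent.Lib.MP_069d55_gt.Disc

/-! Compactly supported elements act trivially: the model with one top point at the origin. -/

namespace Pool.Agent.Lib.MP_069d55_gt

open Set Filter Topology Metric

noncomputable section

variable {X : Set ℂ} {α : Ordinal.{0}} {F G a b g : ℂ ≃ₜ ℂ}

def Pres (F : ℂ ≃ₜ ℂ) (X : Set ℂ) : Prop := ∀ z, F z ∈ X ↔ z ∈ X

lemma Pres.one : Pres 1 X := fun _ => Iff.rfl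
lemma Pres.mul (h : Pres F X) (h' : Pres G X) : Pres (F * G) X := fun z => (h _).trans (h' z)
lemma Pres.inv (h : Pres F X) : Pres F⁻¹ X := fun z => by rw [← h, happly_inv]
lemma Pres.image (h : Pres F X) : F '' X = X := by ext z; rw [mem_image_h, h.inv]
lemma pres_of_image (h : F '' X = X) : Pres F X := fun z => by
  conv_lhs => rw [← h, apply_mem_image]
lemma Pres.D (h : Pres F X) (β : Ordinal.{0}) : Pres F (D X β) :=
  pres_of_image (by rw [← D_image, h.image])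

/-- compactly supported homeomorphisms preserving `X` -/
def gc (X : Set ℂ) : Subgroup (ℂ ≃ₜ ℂ) where
  carrier := {F | Supp F univ ∧ Pres F X}
  one_mem' := ⟨Supp.one _, Pres.one⟩
  mul_mem' h h' := ⟨h.1.mul h'.1, h.2.mul h'.2⟩
  inv_mem' h := ⟨h.1.inv, h.2.inv⟩

/-- degree one homeomorphisms preserving `X` -/
def gp (X : Set ℂ) : Subgroup (ℂ ≃ₜ ℂ) where
  carrier := {F | deg F = 1 ∧ Pres F X}
  one_mem' := ⟨deg_one, Pres.one⟩
  mul_mem' h h' := ⟨by rw [deg_mul, h.1, h'.1, mul_one], h.2.mul h'.2⟩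
  inv_mem' h := ⟨deg_inv h.1, h.2.inv⟩

lemma gc_le_gp : gc X ≤ gp X := fun _ h => ⟨h.1.deg, h.2⟩

lemma mem_gc {O : Set ℂ} (h : Supp F O) (h' : Pres F X) : F ∈ gc X := ⟨h.univ, h'⟩

/-- An action of the subgroup `Γ` in which point stabilisers have finite orbits. -/
structure Act (Γ : Subgroup (ℂ ≃ₜ ℂ)) {W : Type*} (φ : (ℂ ≃ₜ ℂ) → Equiv.Perm W) : Prop where
  mul : ∀ a ∈ Γ, ∀ b ∈ Γ, φ (a * b) = φ a * φ b
  lf : ∀ v w, {u | ∃ a ∈ Γ, φ a v = v ∧ φ a w = u}.Finite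

variable {Γ : Subgroup (ℂ ≃ₜ ℂ)} {W : Type*} {φ : (ℂ ≃ₜ ℂ) → Equiv.Perm W} {v : W}

lemma Act.mono (h : Act Γ φ) {Γ' : Subgroup (ℂ ≃ₜ ℂ)} (hle : Γ' ≤ Γ) : Act Γ' φ :=
  ⟨fun a ha b hb => h.mul a (hle ha) b (hle hb), fun v w => (h.lf v w).subset
    fun _ ⟨a, ha, e⟩ => ⟨a, hle ha, e⟩⟩

lemma Act.one (h : Act Γ φ) : φ 1 = 1 := by
  simpa using h.mul 1 Γ.one_mem 1 Γ.one_mem

lemma Act.inv (h : Act Γ φ) (ha : a ∈ Γ) : φ a⁻¹ = (φ a)⁻¹ := by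
  rw [eq_inv_iff_mul_eq_one, ← h.mul _ (Γ.inv_mem ha) _ ha, inv_mul_cancel, h.one]

lemma Act.conj (h : Act Γ φ) (ha : a ∈ Γ) (hg : g ∈ Γ) :
    φ (g * a * g⁻¹) = φ g * φ a * (φ g)⁻¹ := by
  rw [h.mul _ (Γ.mul_mem hg ha) _ (Γ.inv_mem hg), h.mul _ hg _ ha, h.inv hg]

lemma Act.fix_mul (h : Act Γ φ) (ha : a ∈ Γ) (hb : b ∈ Γ) (h1 : φ a v = v) (h2 : φ b v = v) :
    φ (a * b) v = v := by
  rw [h.mul a ha b hb, Equiv.Perm.mul_apply, h2, h1]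

lemma Act.fix_inv (h : Act Γ φ) (ha : a ∈ Γ) (h1 : φ a v = v) : φ a⁻¹ v = v := by
  rw [h.inv ha, Equiv.Perm.inv_eq_iff_eq, h1]

lemma Act.comm (h : Act Γ φ) (ha : a ∈ Γ) (hb : b ∈ Γ) (h1 : φ a v = v) (h2 : φ b v = v)
    {C : Set ℂ} (aC : ∀ z, z ∉ C → a z = z) (bC : ∀ z, z ∉ C → b z = z) {σ : ℕ → ℂ ≃ₜ ℂ}
    (hσ : ∀ i, σ i ∈ Γ) (hσv : ∀ i, φ (σ i) v = v)
    (hd : ∀ i j, i ≠ j → Disjoint (σ i '' C) (σ j '' C)) : φ a * φ b = φ b * φ a := by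
  ext1 w
  set O := {u | ∃ a ∈ Γ, φ a v = v ∧ φ a w = u} with hO
  have hmap : ∀ c ∈ Γ, φ c v = v → ∀ o ∈ O, φ c o ∈ O := by
    rintro c hc hcv _ ⟨d, hd, hdv, rfl⟩
    exact ⟨c * d, Γ.mul_mem hc hd, h.fix_mul hc hd hcv hdv, by rw [h.mul c hc d hd]; rfl⟩
  have hw : w ∈ O := ⟨1, Γ.one_mem, by simp [h.one], by simp [h.one]⟩
  have : Finite O := h.lf v w
  obtain ⟨i, j, hij, e⟩ := Finite.exists_ne_map_eq_of_infinite
    fun (i : ℕ) (o : O) => (⟨φ (σ i) o, hmap _ (hσ i) (hσv i) o o.2⟩ : O)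
  set τ := (σ j)⁻¹ * σ i with hτ
  have hτΓ : τ ∈ Γ := Γ.mul_mem (Γ.inv_mem (hσ j)) (hσ i)
  have hτO : ∀ o ∈ O, φ τ o = o := fun o ho => by
    have := congrArg Subtype.val (congrFun e ⟨o, ho⟩)
    simp only at this
    rw [hτ, h.mul _ (Γ.inv_mem (hσ j)) _ (hσ i), h.inv (hσ j), Equiv.Perm.mul_apply, this]
    simp
  have hc : τ * a * τ⁻¹ * b = b * (τ * a * τ⁻¹) := by
    refine commute_of_disjoint (A := τ '' C) (fun z hz => ?_) bC ?_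
    · rw [mem_image_h] at hz
      rw [hmul, hmul, aC _ hz, happly_inv]
    · rw [disjoint_left]
      rintro _ ⟨z, hz, rfl⟩ hz'
      exact disjoint_left.1 (hd i j hij) (mem_image_of_mem _ hz) ⟨_, hz', happly_inv _ _⟩
  have haO : ∀ o ∈ O, φ (τ * a * τ⁻¹) o = φ a o := fun o ho => by
    rw [h.conj ha hτΓ, Equiv.Perm.mul_apply, Equiv.Perm.mul_apply,
      (Equiv.Perm.inv_eq_iff_eq.2 (hτO o ho).symm), hτO _ (hmap a ha h1 o ho)]
  have hm : τ * a * τ⁻¹ ∈ Γ := Γ.mul_mem (Γ.mul_mem hτΓ ha) (Γ.inv_mem hτΓ)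
  have := congrArg (fun p => φ p w) hc
  simp only [h.mul _ hm _ hb, h.mul _ hb _ hm, Equiv.Perm.mul_apply] at this
  rw [haO _ (hmap b hb h2 w hw), haO w hw] at this
  exact this

lemma Act.comm_conj (h : Act Γ φ) (ha : a ∈ Γ) (hb : b ∈ Γ) (hg : g ∈ Γ)
    (hc : φ (g * a * g⁻¹) * φ (g * b * g⁻¹) = φ (g * b * g⁻¹) * φ (g * a * g⁻¹)) :
    φ a * φ b = φ b * φ a := by
  rw [h.conj ha hg, h.conj hb hg] at hc
  calc φ a * φ b = (φ g)⁻¹ * (φ g * φ a * (φ g)⁻¹ * (φ g * φ b * (φ g)⁻¹)) * φ g := by group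
    _ = _ := by rw [hc]; group

lemma Act.fix_of_comm (h : Act Γ φ) (ha : a ∈ Γ) (hg : g ∈ Γ) (hc : φ g * φ a = φ a * φ g)
    (hv : φ (g * a * g⁻¹) v = v) : φ a v = v := by
  rwa [h.conj ha hg, hc, mul_inv_cancel_right] at hv

lemma mem_ann0 {z : ℂ} {a b : ℝ} : z ∈ ann 0 a b ↔ a < ‖z‖ ∧ ‖z‖ < b := by simp [mem_ann]

lemma exists_radius0 (hc : X.Countable) {a b : ℝ} (hab : a < b) :
    ∃ r, a < r ∧ r < b ∧ ∀ z ∈ X, ‖z‖ ≠ r := by simpa using exists_radius hc 0 hab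

lemma compact_ann0 (hX : IsClosed X) {a b : ℝ} (ha : ∀ z ∈ X, ‖z‖ ≠ a) (hb : ∀ z ∈ X, ‖z‖ ≠ b) :
    IsCompact (X ∩ ann 0 a b) := compact_inter_ann hX (by simpa using ha) (by simpa using hb)

lemma ann_split {a b c : ℝ} (hab : a < b) (hbc : b < c) (hb : ∀ z ∈ X, ‖z‖ ≠ b) :
    X ∩ ann 0 a c = X ∩ ann 0 a b ∪ X ∩ ann 0 b c := by
  ext z
  simp only [mem_inter_iff, mem_union, mem_ann0]
  constructor
  · rintro ⟨h1, h2, h3⟩
    rcases lt_or_gt_of_ne (hb z h1) with h | h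
    exacts [Or.inl ⟨h1, h2, h⟩, Or.inr ⟨h1, h, h3⟩]
  · rintro (⟨h1, h2, h3⟩ | ⟨h1, h2, h3⟩)
    exacts [⟨h1, h2, h3.trans hbc⟩, ⟨h1, hab.trans h2, h3⟩]

lemma ann_disj {Y : Set ℂ} {a b c : ℝ} : Disjoint (X ∩ ann 0 a b) (Y ∩ ann 0 b c) :=
  disjoint_left.2 fun _ h h' => lt_asymm (mem_ann0.1 h.2).2 (mem_ann0.1 h'.2).1

lemma exists_shift (hX : IsClosed X) (hc : X.Countable) {δ s r R : ℝ} (h0 : 0 < δ) (h1 : δ < s)
    (h2 : s < r) (h3 : r < R) (mδ : ∀ z ∈ X, ‖z‖ ≠ δ) (ms : ∀ z ∈ X, ‖z‖ ≠ s)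
    (mr : ∀ z ∈ X, ‖z‖ ≠ r) (mR : ∀ z ∈ X, ‖z‖ ≠ R) {y y' : ℂ} (hy : y ∈ ann 0 δ s)
    (hy' : y' ∈ ann 0 r R) (d : Dom X y (X ∩ ann 0 s r)) (d' : Dom X y' (X ∩ ann 0 s r)) :
    ∃ σ : ℂ ≃ₜ ℂ, Supp σ (ann 0 δ R) ∧ Pres σ X ∧ ∀ z, ‖σ z‖ < s ↔ ‖z‖ < r := by
  obtain ⟨τ, t1, t2, t3⟩ := exists_radial (a := (δ + s) / 2) (r := r) (s := s) (d := (r + R) / 2)
    (by linarith) (by linarith) (by linarith) (by linarith) (by linarith)
  have hK : IsCompact (closedBall (0 : ℂ) ((r + R) / 2) \ ball 0 ((δ + s) / 2)) :=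
    (isCompact_closedBall _ _).diff isOpen_ball
  have hfix : ∀ z, z ∉ closedBall (0 : ℂ) ((r + R) / 2) \ ball 0 ((δ + s) / 2) → τ z = z := by
    intro z hz
    simp only [Set.mem_sdiff, mem_closedBall_zero_iff, mem_ball_zero_iff, not_and_or, not_le,
      not_not] at hz
    exact t1 z (hz.symm.imp le_of_lt le_of_lt)
  have hsub : ∀ z ∈ closedBall (0 : ℂ) ((r + R) / 2) \ ball 0 ((δ + s) / 2), z ∈ ann 0 δ R := by
    intro z hz
    simp only [Set.mem_sdiff, mem_closedBall_zero_iff, mem_ball_zero_iff, not_lt] at hz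
    exact mem_ann0.2 ⟨by linarith, by linarith⟩
  have tS : Supp τ (ann 0 δ R) := ⟨_, hK, hsub, hfix⟩
  have tm := fun z => tS.mem_iff z
  simp only [mem_ann0] at tm
  have t4 : ∀ z, s < ‖τ z‖ ↔ r < ‖z‖ := fun z => by rw [← not_le, t3, not_le]
  have i1 : τ '' X ∩ ann 0 δ s = τ '' (X ∩ ann 0 δ r) := by
    ext w; obtain ⟨z, rfl⟩ := τ.surjective w
    simp only [mem_inter_iff, apply_mem_image, mem_ann0]
    refine and_congr_right fun _ => ⟨fun h => ?_, fun h => ?_⟩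
    · exact ⟨((tm z).1 ⟨h.1, by linarith⟩).1, (t2 z).1 h.2⟩
    · exact ⟨((tm z).2 ⟨h.1, by linarith⟩).1, (t2 z).2 h.2⟩
  have i2 : τ '' X ∩ ann 0 s R = τ '' (X ∩ ann 0 r R) := by
    ext w; obtain ⟨z, rfl⟩ := τ.surjective w
    simp only [mem_inter_iff, apply_mem_image, mem_ann0]
    refine and_congr_right fun _ => ⟨fun h => ?_, fun h => ?_⟩
    · exact ⟨(t4 z).1 h.1, ((tm z).1 ⟨by linarith, h.2⟩).2⟩
    · exact ⟨(t4 z).2 h.1, ((tm z).2 ⟨by linarith, h.2⟩).2⟩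
  have cP := (compact_ann0 hX ms mr).isClosed
  have dE : ∀ y, Dom X y ∅ := fun _ _ _ => D_empty
  obtain ⟨H₁, s1, e1⟩ := tame_fix (isOpen_ann 0 δ s) (preconn_ann' 0 h0.le s) (hc.image τ) hc
    (i1 ▸ (compact_ann0 hX mδ mr).image τ.continuous) (compact_ann0 hX mδ ms) (by
      rw [i1]
      refine (ty_image _ _).trans ?_
      rw [ann_split h1 h2 ms]
      simpa using ty_absorb (isOpen_ann 0 δ s) hy (compact_ann0 hX mδ ms).isClosed cP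
        isClosed_empty ann_disj (disjoint_empty _) d (dE y))
  obtain ⟨H₂, s2, e2⟩ := tame_fix (isOpen_ann 0 s R) (preconn_ann' 0 (h0.trans h1).le R)
    (hc.image τ) hc (i2 ▸ (compact_ann0 hX mr mR).image τ.continuous) (compact_ann0 hX ms mR) (by
      rw [i2]
      refine (ty_image _ _).trans ?_
      rw [ann_split h2 h3 mr, union_comm]
      simpa using ty_absorb (isOpen_ann 0 r R) hy' (compact_ann0 hX mr mR).isClosed
        isClosed_empty cP (disjoint_empty _) ann_disj.symm (dE y') d')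
  refine ⟨H₁ * (H₂ * τ), (s1.mono fun z hz => ?_).mul ((s2.mono fun z hz => ?_).mul tS),
    fun z => ?_, fun z => ?_⟩
  · rw [mem_ann0] at hz ⊢; exact ⟨hz.1, by linarith⟩
  · rw [mem_ann0] at hz ⊢; exact ⟨by linarith, hz.2⟩
  · rw [hmul, hmul]
    by_cases c1 : τ z ∈ ann 0 δ s
    · rw [s2.fix fun h => lt_asymm (mem_ann0.1 c1).2 (mem_ann0.1 h).1, e1 _ c1, apply_mem_image]
    by_cases c2 : τ z ∈ ann 0 s R
    · rw [s1.fix fun h => lt_asymm (mem_ann0.1 h).2 (mem_ann0.1 ((s2.mem_iff _).2 c2)).1, e2 _ c2,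
        apply_mem_image]
    rw [s2.fix c2, s1.fix c1]
    by_cases c3 : τ z ∈ ann 0 δ R
    · rw [mem_ann0] at c1 c2 c3
      have e : ‖τ z‖ = s := le_antisymm (not_lt.1 fun h => c2 ⟨h, c3.2⟩)
        (not_lt.1 fun h => c1 ⟨c3.1, h⟩)
      exact iff_of_false (fun h => ms _ h e) fun h => mr _ h
        (le_antisymm ((t3 z).1 e.le) (not_lt.1 fun h' => ((t2 z).2 h').ne e))
    · rw [tS.fix fun h => c3 ((tS.mem_iff z).2 h)]
  · have a1 := (s1.mono (O' := ball 0 s) fun z hz => mem_ball_zero_iff.2 (mem_ann0.1 hz).2).mem_iff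
    have a2 := (s2.mono (O' := (ball 0 s)ᶜ) fun z hz h =>
      lt_asymm (mem_ball_zero_iff.1 h) (mem_ann0.1 hz).1).mem_iff
    simp only [mem_ball_zero_iff, mem_compl_iff, not_iff_not] at a1 a2
    rw [hmul, hmul, a1, a2, t2]

/-- The model: one top point at the origin, all smaller ranks also near infinity. -/
structure Model (X : Set ℂ) (α : Ordinal.{0}) : Prop where
  cl : IsClosed X
  cnt : X.Countable
  top : D X α = {0}
  ns : NS α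
  far : ∀ R, Rich X α {z | R < ‖z‖}

lemma far_nonempty (R : ℝ) : {z : ℂ | R < ‖z‖}.Nonempty :=
  ⟨((|R| + 1 : ℝ) : ℂ), by
    rw [mem_ofPred_eq, Complex.norm_real, Real.norm_of_nonneg (by positivity)]
    linarith [le_abs_self R]⟩

lemma punct_nonempty {s : ℝ} (hs : 0 < s) : (ball (0 : ℂ) s \ {0}).Nonempty :=
  nonempty_diff isOpen_ball (nonempty_ball.2 hs) (countable_singleton _)

lemma Model.shift (M : Model X α) {s r : ℝ} (h0 : 0 < s) (h2 : s < r) (ms : ∀ z ∈ X, ‖z‖ ≠ s)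
    (mr : ∀ z ∈ X, ‖z‖ ≠ r) : ∃ δ R, 0 < δ ∧ δ < s ∧ r < R ∧
      ∃ σ : ℂ ≃ₜ ℂ, Supp σ (ann 0 δ R) ∧ Pres σ X ∧ ∀ z, ‖σ z‖ < s ↔ ‖z‖ < r := by
  have hP := compact_ann0 M.cl ms mr
  have hD : D (X ∩ ann 0 s r) α = ∅ := D_empty_of_notMem M.top inter_subset_left fun h => by
    have := (mem_ann0.1 h.2).1; simp at this; linarith
  obtain ⟨y, hy, d⟩ := exists_dom M.ns (rich_punct (M.top ▸ mem_singleton 0) (ball_mem_nhds 0 h0))
    (punct_nonempty h0) hP hD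
  obtain ⟨y', hy', d'⟩ := exists_dom M.ns (M.far r) (far_nonempty r) hP hD
  obtain ⟨δ, a0, a1, a2⟩ := exists_radius0 M.cnt (norm_pos_iff.2 hy.2)
  obtain ⟨R, b0, -, b2⟩ := exists_radius0 M.cnt (lt_add_one ‖y'‖)
  have hys := mem_ball_zero_iff.1 hy.1
  exact ⟨δ, R, a0, a1.trans hys, lt_trans hy' b0, exists_shift M.cl M.cnt a0 (a1.trans hys) h2
    (lt_trans hy' b0) a2 ms mr b2 (mem_ann0.2 ⟨a1, hys⟩) (mem_ann0.2 ⟨hy', b0⟩) d d'⟩

lemma Model.push (M : Model X α) {ε : ℝ} (hε : 0 < ε) (r : ℝ) : ∃ δ R, 0 < δ ∧ δ < ε ∧ r < R ∧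
    ∃ σ : ℂ ≃ₜ ℂ, Supp σ (ann 0 δ R) ∧ Pres σ X ∧ ∀ z, ‖z‖ < r → ‖σ z‖ < ε := by
  obtain ⟨s, a0, a1, a2⟩ := exists_radius0 M.cnt hε
  obtain ⟨r', b0, -, b2⟩ := exists_radius0 M.cnt (lt_add_one (max r s))
  rw [max_lt_iff] at b0
  obtain ⟨δ, R, c0, c1, c2, σ, c3, c4, c5⟩ := M.shift a0 b0.2 a2 b2
  exact ⟨δ, R, c0, c1.trans a1, b0.1.trans c2, σ, c3, c4,
    fun z hz => ((c5 z).2 (hz.trans b0.1)).trans a1⟩

/-- elements supported near the origin fix a given point -/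
def Small (X : Set ℂ) {W : Type*} (φ : (ℂ ≃ₜ ℂ) → Equiv.Perm W) : Prop :=
  ∀ v, ∃ ε > 0, ∀ a ∈ gc X, Supp a (ball 0 ε) → φ a v = v

lemma Model.comm (M : Model X α) (h : Act (gc X) φ) (hs : Small X φ) (ha : a ∈ gc X)
    (hb : b ∈ gc X) {s r : ℝ} (h0 : 0 < s) (h1 : s < r) (sa : Supp a (ann 0 s r))
    (sb : Supp b (ann 0 s r)) : φ a * φ b = φ b * φ a := by
  ext1 v
  obtain ⟨ε, hε, hv⟩ := hs v
  obtain ⟨s', a0, a1, a2⟩ := exists_radius0 M.cnt h0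
  obtain ⟨r', b0, -, b2⟩ := exists_radius0 M.cnt (lt_add_one r)
  obtain ⟨δ, R, -, -, c2, σ, c3, c4, c5⟩ := M.shift a0 (a1.trans (h1.trans b0)) a2 b2
  obtain ⟨δ', R', -, -, -, g, d3, d4, d5⟩ := M.push hε R
  have hg := mem_gc d3 d4
  have hfix : ∀ c ∈ gc X, Supp c (ball 0 R) → φ (g * c * g⁻¹) v = v := fun c hc sc =>
    hv _ ((gc X).mul_mem ((gc X).mul_mem hg hc) ((gc X).inv_mem hg)) ((sc.conj g).mono (by
      rintro _ ⟨z, hz, rfl⟩; exact mem_ball_zero_iff.2 (d5 z (mem_ball_zero_iff.1 hz))))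
  have hsub : ann 0 s r ⊆ ball 0 R := fun z hz =>
    mem_ball_zero_iff.2 ((mem_ann0.1 hz).2.trans (b0.trans c2))
  have hσ := mem_gc c3 c4
  have hpow : ∀ (k : ℕ) (u : ℂ), ‖u‖ < r' → ‖(σ ^ (k + 1)) u‖ < s' := fun k u hu => by
    induction k with
    | zero => simpa using (c5 u).2 hu
    | succ k ih => rw [pow_succ', hmul]; exact (c5 _).2 (ih.trans (a1.trans (h1.trans b0)))
  have hlt : ∀ i j, i < j → Disjoint ((g * σ ^ i * g⁻¹ : ℂ ≃ₜ ℂ) '' (g '' ann 0 s r))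
      ((g * σ ^ j * g⁻¹ : ℂ ≃ₜ ℂ) '' (g '' ann 0 s r)) := fun i j hij => by
    rw [disjoint_left]
    rintro _ ⟨_, ⟨u, hu, rfl⟩, rfl⟩ ⟨_, ⟨u', hu', rfl⟩, e⟩
    obtain ⟨k, rfl⟩ := Nat.exists_eq_add_of_lt hij
    simp only [hmul, hinv_apply] at e
    rw [add_assoc, pow_add, hmul] at e
    have := hpow k u' ((mem_ann0.1 hu').2.trans b0)
    rw [(σ ^ i).injective (g.injective e)] at this
    linarith [(mem_ann0.1 hu).1]
  refine congrFun (congrArg _ (h.comm_conj ha hb hg (h.comm (v := v) (C := g '' ann 0 s r)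
    (σ := fun i => g * σ ^ i * g⁻¹) ((gc X).mul_mem ((gc X).mul_mem hg ha) ((gc X).inv_mem hg))
    ((gc X).mul_mem ((gc X).mul_mem hg hb) ((gc X).inv_mem hg)) (hfix a ha (sa.mono hsub))
    (hfix b hb (sb.mono hsub)) (fun z hz => (sa.conj g).fix hz) (fun z hz => (sb.conj g).fix hz)
    (fun i => (gc X).mul_mem ((gc X).mul_mem hg ((gc X).pow_mem hσ i)) ((gc X).inv_mem hg))
    (fun i => hfix _ ((gc X).pow_mem hσ i) ((c3.mono fun z hz =>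
      mem_ball_zero_iff.2 (mem_ann0.1 hz).2).pow i)) fun i j hij => ?_))) v
  rcases lt_or_gt_of_ne hij with h' | h'
  exacts [hlt i j h', (hlt j i h').symm]

lemma Model.kill_ann (M : Model X α) (h : Act (gc X) φ) (hs : Small X φ) (ha : a ∈ gc X)
    {s : ℝ} (h0 : 0 < s) (hs0 : ∀ z, ‖z‖ ≤ s → a z = z) (v : W) : φ a v = v := by
  obtain ⟨ε, hε, hv⟩ := hs v
  obtain ⟨r, hr, K, hK, hKr, hKa⟩ := ha.1.exists_ball 0 s
  obtain ⟨δ, R, c0, c1, c2, g, c3, c4, c5⟩ := M.push (lt_min hε h0) r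
  rw [lt_min_iff] at c1
  have hg := mem_gc c3 c4
  have sa : Supp a (ann 0 δ r) := ⟨K \ ball 0 s, hK.diff isOpen_ball, fun z hz =>
    mem_ann0.2 ⟨c1.2.trans_le (by simpa using hz.2), mem_ball_zero_iff.1 (hKr hz.1).2⟩,
    fun z hz => by
      by_cases hzK : z ∈ K
      · exact hs0 z (by by_contra hn; exact hz ⟨hzK, by simpa using (not_le.1 hn).le⟩)
      · exact hKa z hzK⟩
  refine h.fix_of_comm ha hg (M.comm h hs hg ha c0 (c1.2.trans (hr.trans c2)) c3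
    (sa.mono fun z hz => mem_ann0.2 ⟨(mem_ann0.1 hz).1, (mem_ann0.1 hz).2.trans c2⟩)) ?_
  refine hv _ ((gc X).mul_mem ((gc X).mul_mem hg ha) ((gc X).inv_mem hg)) ((sa.conj g).mono ?_)
  rintro _ ⟨z, hz, rfl⟩
  exact mem_ball_zero_iff.2 ((c5 z (mem_ann0.1 hz).2).trans_le (min_le_left _ _))

theorem Model.kill (M : Model X α) (h : Act (gc X) φ) (hs : Small X φ) (ha : a ∈ gc X) (v : W) :
    φ a v = v := by
  obtain ⟨ε', hε', hv⟩ := hs v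
  obtain ⟨ε, hε, hεε, mε⟩ := exists_radius0 M.cnt hε'
  have a0 : a 0 = 0 := by
    have := (ha.2.D α 0).2 (M.top ▸ mem_singleton 0)
    rwa [M.top] at this
  obtain ⟨k, hk, hka⟩ := disc_loc ha.1.deg a0 hε
  obtain ⟨η, hη, hηb⟩ := Metric.eventually_nhds_iff_ball.1 hka
  obtain ⟨δ, d0, d1, mδ⟩ := exists_radius0 M.cnt (lt_min hη hε)
  rw [lt_min_iff] at d1
  set b := k⁻¹ * a with hb
  have bid : ∀ z, ‖z‖ < η → b z = z := fun z hz => hinv_eq (hηb z (mem_ball_zero_iff.2 hz))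
  have bm : ∀ z, ‖z‖ < η → (z ∈ b '' X ↔ z ∈ X) := fun z hz => by
    conv_lhs => rw [← bid z hz, apply_mem_image]
  have bm' : ∀ z, ε ≤ ‖z‖ → (z ∈ b '' X ↔ z ∈ X) := fun z hz => by
    rw [hb, image_hmul, ha.2.image, mem_image_h, inv_inv, hk.fix (by simpa using hz)]
  have bcl : IsClosed (b '' X) := b.isClosedMap _ M.cl
  have hP : IsCompact (b '' X ∩ ann 0 δ ε) := compact_ann0 bcl
    (fun z hz e => mδ z ((bm z (e ▸ d1.1)).1 hz) e) fun z hz e => mε z ((bm' z e.ge).1 hz) e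
  have hQ := compact_ann0 M.cl mδ mε
  have n0 : (0 : ℂ) ∉ ann 0 δ ε := fun h => by have := (mem_ann0.1 h).1; simp at this; linarith
  have tb : D (b '' X) α = {0} := by
    rw [D_image, M.top, image_singleton, bid 0 (by simpa using hη)]
  obtain ⟨y, hy, d⟩ := exists_dom M.ns (rich_punct (M.top ▸ mem_singleton 0) (ball_mem_nhds 0 d0))
    (punct_nonempty d0) (hP.union hQ) (by
      rw [D_union hP.isClosed hQ.isClosed, D_empty_of_notMem tb inter_subset_left fun h => n0 h.2,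
        D_empty_of_notMem M.top inter_subset_left fun h => n0 h.2, union_empty])
  obtain ⟨δ', e0, e1, mδ'⟩ := exists_radius0 M.cnt (norm_pos_iff.2 hy.2)
  have hyδ := mem_ball_zero_iff.1 hy.1
  have e2 : δ' < δ := e1.trans hyδ
  have hY := compact_ann0 M.cl mδ' mδ
  have i1 : b '' X ∩ ann 0 δ' ε = X ∩ ann 0 δ' δ ∪ b '' X ∩ ann 0 δ ε := by
    rw [ann_split e2 d1.2 fun z hz e => mδ z ((bm z (e ▸ d1.1)).1 hz) e]
    congr 1
    ext z
    exact and_congr_left fun hz => bm z ((mem_ann0.1 hz).2.trans d1.1)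
  obtain ⟨H, sH, eH⟩ := tame_fix (isOpen_ann 0 δ' ε) (preconn_ann' 0 e0.le ε) (M.cnt.image b)
    M.cnt (i1 ▸ hY.union hP) (compact_ann0 M.cl mδ' mε) (by
      rw [i1, ann_split e2 d1.2 mδ]
      exact ty_absorb (isOpen_ann 0 δ' δ) (mem_ann0.2 ⟨e1, hyδ⟩) hY.isClosed hP.isClosed
        hQ.isClosed ann_disj ann_disj (d.mono subset_union_left) (d.mono subset_union_right))
  have hP' : Pres (H * b) X := fun z => by
    rw [hmul]
    by_cases c : b z ∈ ann 0 δ' ε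
    · rw [eH _ c, apply_mem_image]
    · rw [sH.fix c, ← apply_mem_image (F := b) (A := X) (z := z)]
      rw [mem_ann0, not_and_or, not_lt, not_lt] at c
      rcases c with c | c
      · exact (bm _ (c.trans_lt (e2.trans d1.1))).symm
      · exact (bm' _ c).symm
  have m1 : H * b ∈ gc X := ⟨sH.univ.mul (hk.inv.univ.mul ha.1), hP'⟩
  have e : a = (k * H⁻¹) * (H * b) := by rw [hb]; group
  have m2 : k * H⁻¹ ∈ gc X := by
    have := (gc X).mul_mem ha ((gc X).inv_mem m1)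
    rwa [show a * (H * b)⁻¹ = k * H⁻¹ by rw [hb]; group] at this
  rw [e]
  refine h.fix_mul m2 m1 (hv _ m2 ((hk.mul (sH.inv.mono fun z hz =>
    mem_ball_zero_iff.2 (mem_ann0.1 hz).2)).mono (ball_subset_ball hεε.le)))
    (M.kill_ann h hs m1 e0 (fun z hz => ?_) v)
  rw [hmul, bid z (hz.trans_lt (e2.trans d1.1)), sH.fix fun h => (mem_ann0.1 h).1.not_ge hz]

end

end Pool.Agent.Lib.MP_069d55_gt
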