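import Pool.Agent.Lib.MP_069d55_gt.Three

/-! Three top points: the value along an Alexander path is locally constant. -/

namespace Pool.Agent.Lib.MP_069d55_gt

open Set Filter Topology Metric Pool.Agent.Lib.MP_1e9af3_an

noncomputable section

variable {X Y : Set ℂ} {α : Ordinal.{0}} {a F : ℂ ≃ₜ ℂ}
variable {W : Type*} {φ : (ℂ ≃ₜ ℂ) → Equiv.Perm W} {v : W}

lemma isOpen_diff_comp {O : Set ℂ} (hO : IsOpen O) (p : ℂ) :
    IsOpen (O \ connectedComponentIn O p) := by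
  refine isOpen_iff_mem_nhds.2 fun z hz => mem_of_superset
    (hO.connectedComponentIn.mem_nhds (mem_connectedComponentIn hz.1)) fun w hw => ?_
  refine ⟨connectedComponentIn_subset _ _ hw, fun h => hz.2 ?_⟩
  rw [connectedComponentIn_eq h, ← connectedComponentIn_eq hw]
  exact mem_connectedComponentIn hz.1

lemma tame_comp {O : Set ℂ} (hO : IsOpen O) (b b' : ℂ ≃ₜ ℂ) (t : Finset ℂ) :
    ∀ A : Set ℂ, IsCompact A → A.Countable → (∀ a ∈ A, b a ∈ connectedComponentIn O (b' a)) →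
      (∀ a ∈ A, ∃ p ∈ t, b' a ∈ connectedComponentIn O p) →
      Amb (⋃ a ∈ A, connectedComponentIn O (b' a)) (b '' A) (b' '' A) := by
  classical
  induction t using Finset.induction_on with
  | empty =>
    intro A _ _ _ h
    have : A = ∅ := eq_empty_of_forall_notMem fun a ha => by simpa using h a ha
    rw [this, image_empty, image_empty]; exact Amb.refl _ _
  | insert p t _ ih =>
    intro A hA hc h1 h2
    set V := connectedComponentIn O p with hV
    have hO' : ∀ a ∈ A, b' a ∈ O := fun a ha =>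
      let ⟨_, _, h⟩ := h2 a ha; connectedComponentIn_subset _ _ h
    have c2 : IsCompact (A \ b' ⁻¹' V) := hA.diff (hO.connectedComponentIn.preimage b'.continuous)
    have c1 : IsCompact (A ∩ b' ⁻¹' V) := by
      convert hA.diff ((isOpen_diff_comp hO p).preimage b'.continuous) using 1
      ext a
      exact and_congr_right fun ha => ⟨fun h h' => h'.2 h, fun h => by_contra fun h' =>
        h ⟨hO' a ha, h'⟩⟩
    obtain ⟨κ₂, s2, e2⟩ := ih _ c2 (hc.mono sdiff_subset) (fun a ha => h1 a ha.1) fun a ha => by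
      obtain ⟨q, hq, h⟩ := h2 a ha.1
      rcases Finset.mem_insert.1 hq with rfl | hq
      exacts [absurd h ha.2, ⟨q, hq, h⟩]
    have hdis : ∀ z ∈ V, z ∉ ⋃ a ∈ A \ b' ⁻¹' V, connectedComponentIn O (b' a) := fun z hz h => by
      obtain ⟨a, ha, h⟩ := mem_iUnion₂.1 h
      refine ha.2 ?_
      rw [mem_preimage, hV, connectedComponentIn_eq hz, ← connectedComponentIn_eq h]
      exact mem_connectedComponentIn (hO' a ha.1)
    have hb1 : b '' (A ∩ b' ⁻¹' V) ⊆ V := by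
      rintro _ ⟨a, ha, rfl⟩
      rw [hV, connectedComponentIn_eq ha.2]; exact h1 a ha.1
    rcases (A ∩ b' ⁻¹' V).eq_empty_or_nonempty with h | ⟨a₀, ha₀⟩
    · have : A \ b' ⁻¹' V = A := sdiff_eq_left.2 (disjoint_iff_inter_eq_empty.2 h)
      rw [this] at s2 e2; exact ⟨κ₂, s2, e2⟩
    obtain ⟨κ₁, s1, e1⟩ := tame hO.connectedComponentIn isPreconnected_connectedComponentIn
      (A := b '' (A ∩ b' ⁻¹' V)) (B := b' '' (A ∩ b' ⁻¹' V))
      ⟨c1.image b.continuous, (hc.mono inter_subset_left).image _, hb1⟩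
      ⟨c1.image b'.continuous, (hc.mono inter_subset_left).image _, by
        rintro _ ⟨a, ha, rfl⟩; exact ha.2⟩ ((ty_image _ _).trans (ty_image _ _).symm)
    refine ⟨κ₁ * κ₂, (s1.mono fun z hz => mem_iUnion₂.2 ⟨a₀, ha₀.1, ?_⟩).mul
      (s2.mono (biUnion_subset_biUnion_left sdiff_subset)), ?_⟩
    · rwa [← connectedComponentIn_eq ha₀.2]
    · rw [← inter_union_sdiff A (b' ⁻¹' V), image_hmul, image_union, image_union, e2,
        s2.image_of_disjoint fun z hz => hdis z (hb1 hz), image_union, e1, image_union,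
        s1.image_of_disjoint (by rintro _ ⟨a, ha, rfl⟩; exact ha.2)]

/-- a continuous path of uniformly supported homeomorphisms fixing `0` and `1` -/
structure Pth (b : ℝ → ℂ ≃ₜ ℂ) (R₀ : ℝ) : Prop where
  cont : Continuous fun p : ℝ × ℂ => b p.1 p.2
  far : ∀ t z, R₀ ≤ ‖z‖ → b t z = z
  zero : ∀ t, b t 0 = 0
  one : ∀ t, b t 1 = 1

variable {b : ℝ → ℂ ≃ₜ ℂ} {R₀ : ℝ}

lemma ev_amb (hb : Continuous fun p : ℝ × ℂ => b p.1 p.2) (t₀ : ℝ) {O A : Set ℂ} (hO : IsOpen O)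
    (hA : IsCompact A) (hc : A.Countable) (h : ∀ a ∈ A, b t₀ a ∈ O) :
    ∀ᶠ t in 𝓝 t₀, b t '' A ⊆ O ∧ Amb O (b t '' A) (b t₀ '' A) := by
  obtain ⟨s, hs⟩ := hA.elim_finite_subcover
    (fun p : ℂ => b t₀ ⁻¹' connectedComponentIn O p)
    (fun p => hO.connectedComponentIn.preimage (b t₀).continuous)
    fun a ha => mem_iUnion.2 ⟨b t₀ a, mem_connectedComponentIn (h a ha)⟩
  have hev : ∀ᶠ t in 𝓝 t₀, ∀ a ∈ A, b t a ∈ connectedComponentIn O (b t₀ a) := by
    refine hA.eventually_forall_of_forall_eventually fun a ha => ?_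
    have m := hO.connectedComponentIn.mem_nhds (mem_connectedComponentIn (h a ha))
    have e1 := (hb.continuousAt (x := (t₀, a))).eventually m
    have e2 := (((b t₀).continuous.comp continuous_snd).continuousAt (x := (t₀, a))).eventually m
    filter_upwards [e1, e2] with z h1 h2
    have h2' : b t₀ z.2 ∈ connectedComponentIn O (b t₀ a) := h2
    rwa [← connectedComponentIn_eq h2']
  filter_upwards [hev] with t ht
  refine ⟨?_, (tame_comp hO (b t) (b t₀) s A hA hc ht fun a ha => ?_).mono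
    (iUnion₂_subset fun a _ => connectedComponentIn_subset _ _)⟩
  · rintro _ ⟨a, ha, rfl⟩; exact connectedComponentIn_subset _ _ (ht a ha)
  · obtain ⟨p, hp, h⟩ := mem_iUnion₂.1 (hs ha)
    exact ⟨p, hp, h⟩

lemma Pth.supp (P : Pth b R₀) (t : ℝ) : Supp (b t) univ :=
  ⟨closedBall 0 R₀, isCompact_closedBall _ _, subset_univ _, fun z hz =>
    P.far t z (not_le.1 fun h => hz (mem_closedBall_zero_iff.2 h)).le⟩

lemma Pth.adm (P : Pth b R₀) (hX : Adm X α X) (t : ℝ) : Adm X α (b t '' X) :=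
  ⟨(b t).isClosedMap _ hX.cl, hX.cnt.image _, by rw [D_image, hX.top, image_pair, P.zero, P.one],
    R₀, fun z hz => by conv_lhs => rw [← P.far t z hz, apply_mem_image]⟩

lemma Ctx.local (C : Ctx X α φ) (P : Pth b R₀) (t₀ : ℝ) (w : W) :
    ∃ τ₀, Good X (b t₀ '' X) τ₀ ∧ ∀ᶠ t in 𝓝 t₀, ∃ τ, Good X (b t '' X) τ ∧
      φ (τ * b t) w = φ (τ₀ * b t₀) w := by
  have hX := C.adm
  have aY := P.adm hX t₀
  obtain ⟨c, c0, c1, mc⟩ := exists_line (hX.cnt.union aY.cnt) one_pos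
  have mX : Miss c X := fun z hz => mc z (Or.inl hz)
  have mY : Miss c (b t₀ '' X) := fun z hz => mc z (Or.inr hz)
  obtain ⟨τ₀, hτ₀⟩ := exists_std hX aY c0 c1 mX mY
  have g₀ : Good X (b t₀ '' X) τ₀ := ⟨c, c0, c1, mX, mY, hτ₀⟩
  refine ⟨τ₀, g₀, ?_⟩
  obtain ⟨l, r, sl, sr, rfl, eτ⟩ := hτ₀
  obtain ⟨K, hK, hKX, ε, hε, hw⟩ := C.opn w
  obtain ⟨N, hN, hKN, hNX⟩ := exists_compact_between (hK.image (b t₀).continuous)
    aY.cl.isOpen_compl (by
      rintro _ ⟨z, hz, rfl⟩ h; exact disjoint_left.1 hKX hz (apply_mem_image.1 h))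
  obtain ⟨R, hR, -, mR⟩ := exists_radius0 hX.cnt (lt_add_one R₀)
  have cA := compact_ball0 hX.cl mR
  have hbR : ∀ t z, b t z ∈ ball (0 : ℂ) R ↔ z ∈ ball (0 : ℂ) R := fun t =>
    mem_iff_of_fix fun z hz => P.far t z (hR.le.trans (by simpa using hz))
  have oO : IsOpen (ball (0 : ℂ) R \ N) := isOpen_ball.sdiff hN.isClosed
  have mO : ∀ z ∈ X ∩ ball 0 R, b t₀ z ∈ ball (0 : ℂ) R \ N := fun z hz =>
    ⟨(hbR t₀ z).2 hz.2, fun h => hNX h (mem_image_of_mem _ hz.1)⟩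
  set AL := (X ∩ ball 0 R) \ b t₀ ⁻¹' Rh c with hAL
  set AR := (X ∩ ball 0 R) \ b t₀ ⁻¹' Lh c with hAR
  have e1 := ev_amb P.cont t₀ (oO.inter (isOpen_Lh c)) (A := AL)
    (cA.diff ((isOpen_Rh c).preimage (b t₀).continuous)) (hX.cnt.mono fun z hz => hz.1.1)
    fun z hz => ⟨mO z hz.1, lt_of_le_of_ne (not_lt.1 hz.2) (mY _ (mem_image_of_mem _ hz.1.1))⟩
  have e2 := ev_amb P.cont t₀ (oO.inter (isOpen_Rh c)) (A := AR)
    (cA.diff ((isOpen_Lh c).preimage (b t₀).continuous)) (hX.cnt.mono fun z hz => hz.1.1)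
    fun z hz => ⟨mO z hz.1, lt_of_le_of_ne (not_lt.1 hz.2) (mY _ (mem_image_of_mem _ hz.1.1)).symm⟩
  have e3 : ∀ᶠ t in 𝓝 t₀, ∀ z ∈ K, b t z ∈ interior N :=
    hK.eventually_forall_of_forall_eventually fun z hz =>
      (P.cont.continuousAt (x := (t₀, z))).eventually
        (isOpen_interior.mem_nhds (hKN (mem_image_of_mem _ hz)))
  have e4 : ∀ᶠ t in 𝓝 t₀, ∀ z ∈ K, dist ((b t₀)⁻¹ (b t z)) z < ε :=
    hK.eventually_forall_of_forall_eventually fun z hz =>
      ((((b t₀)⁻¹.continuous.comp P.cont).dist continuous_snd).continuousAt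
        (x := (t₀, z))).eventually_lt continuousAt_const (by simpa [hinv_apply] using hε)
  filter_upwards [e1, e2, e3, e4] with t ⟨i1, κ₁, s1, f1⟩ ⟨i2, κ₂, s2, f2⟩ h3 h4
  have eX : X = X \ ball 0 R ∪ AL ∪ AR := by
    ext z
    have := fun h h' => nLR (c := c) (z := b t₀ z) h h'
    simp only [hAL, hAR, mem_union, Set.mem_sdiff, mem_inter_iff, mem_preimage]; tauto
  have eb : ∀ t, b t '' X = X \ ball 0 R ∪ b t '' AL ∪ b t '' AR := fun t => by
    conv_lhs => rw [eX]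
    rw [image_union, image_union]
    congr 2
    exact (image_congr fun z hz => P.far t z (hR.le.trans (by simpa using hz.2))).trans (image_id _)
  have i2' : b t₀ '' AR ⊆ Rh c := by
    rw [← f2]; exact ((image_mono i2).trans s2.image_eq.subset).trans inter_subset_right
  have eκ : (κ₁ * κ₂ : ℂ ≃ₜ ℂ) '' (b t '' X) = b t₀ '' X := by
    rw [eb t, eb t₀, image_hmul, image_union κ₂, image_union κ₂, f2,
      s2.image_of_disjoint (A := X \ ball 0 R) fun z hz h => hz.2 h.1.1,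
      s2.image_of_disjoint (A := b t '' AL) fun z hz h => nLR (i1 hz).2 h.2, image_union,
      image_union, f1, s1.image_of_disjoint (A := X \ ball 0 R) fun z hz h => hz.2 h.1.1,
      s1.image_of_disjoint (A := b t₀ '' AR) fun z hz h => nLR h.2 (i2' hz)]
  have s1' : Supp κ₁ (Lh c) := s1.mono inter_subset_right
  have s2' : Supp κ₂ (Rh c) := s2.mono inter_subset_right
  have g : Good X (b t '' X) (l * r * (κ₁ * κ₂)) := by
    refine ⟨c, c0, c1, mX, fun z hz => ?_, l * κ₁, r * κ₂, sl.mul s1', sr.mul s2', ?_, fun z => ?_⟩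
    · rw [eb t] at hz
      rcases hz with (h | h) | h
      exacts [mX z h.1, ne_of_lt (i1 h).2, ne_of_gt (i2 h).2]
    · rw [mul_assoc l, mul_assoc l, ← mul_assoc r, ← comm_LR le_rfl s1' sr, mul_assoc]
    · rw [hmul, eτ, ← eκ, apply_mem_image]
  refine ⟨_, g, ?_⟩
  have m1 := gc_le_gp (g.mem (P.supp t))
  have m0 := gc_le_gp (g₀.mem (P.supp t₀))
  have m2 := (gp X).mul_mem ((gp X).inv_mem m0) m1
  have := hw _ m2 fun z hz => by
    have hN' : b t z ∈ N := interior_subset (h3 z hz)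
    rw [show (l * r * b t₀)⁻¹ * (l * r * (κ₁ * κ₂) * b t) = (b t₀)⁻¹ * (κ₁ * (κ₂ * b t)) by group,
      hmul, hmul, hmul, s2.fix fun h => h.1.2 hN', s1.fix fun h => h.1.2 hN']
    exact h4 z hz
  rw [C.act.mul _ ((gp X).inv_mem m0) _ m1, C.act.inv m0, Equiv.Perm.mul_apply,
    Equiv.Perm.inv_eq_iff_eq] at this
  exact this

lemma Ctx.path (C : Ctx X α φ) (P : Pth b R₀) (h0 : b 0 = 1) (h1 : Pres (b 1) X) (w : W) :
    φ (b 1) w = w := by
  have hX := C.adm
  have g1 : ∀ t, Pres (b t) X → Good X (b t '' X) 1 := fun t ht => by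
    obtain ⟨c, c0, c1, mc⟩ := exists_line hX.cnt one_pos
    rw [ht.image]
    exact ⟨c, c0, c1, mc, mc, 1, 1, Supp.one _, Supp.one _, (mul_one 1).symm, fun _ => Iff.rfl⟩
  have key := PreconnectedSpace.induction₂' (fun s t : ℝ => ∀ τ τ', Good X (b s '' X) τ →
    Good X (b t '' X) τ' → φ (τ * b s) w = φ (τ' * b t) w) (fun t₀ => by
      obtain ⟨τ₀, g₀, h⟩ := C.local P t₀ w
      filter_upwards [h] with t ⟨τ, g, e⟩
      have : ∀ σ σ', Good X (b t₀ '' X) σ → Good X (b t '' X) σ' →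
          φ (σ * b t₀) w = φ (σ' * b t) w := fun σ σ' h h' => by
        rw [C.val (P.supp t₀) (P.adm hX t₀) g₀ h, C.val (P.supp t) (P.adm hX t) g h', e]
      exact ⟨this, fun σ σ' h h' => (this σ' σ h' h).symm⟩)
    ⟨fun s t u h h' τ τ' g g' => by
      obtain ⟨σ, gσ, -⟩ := C.local P t w
      rw [h τ σ g gσ, h' σ τ' gσ g']⟩ 1 0 1 1 (g1 1 h1) (g1 0 (h0 ▸ Pres.one))
  rwa [h0, one_mul, one_mul, C.act.one] at key

lemma exists_alex (ha : Supp a univ) (a0 : a 0 = 0) : ∃ (A : ℝ → ℂ ≃ₜ ℂ) (R : ℝ),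
    (Continuous fun p : ℝ × ℂ => A p.1 p.2) ∧ (∀ t z, R ≤ ‖z‖ → A t z = z) ∧ (∀ t, A t 0 = 0) ∧
      (∀ t ≤ 0, A t = 1) ∧ ∀ t ≥ 1, A t = a := by
  obtain ⟨R, hR, sa⟩ := ha.exists_ball 0 0
  have hfix : ∀ z, R ≤ ‖z‖ → a z = z := fun z hz => sa.fix fun h => by
    have := mem_ball_zero_iff.1 h.2; linarith
  have hM : ∀ z, ‖a z - z‖ ≤ 2 * R := fun z => by
    rcases le_or_gt R ‖z‖ with h | h
    · rw [hfix z h, sub_self, norm_zero]; linarith
    · have := mem_ball_zero_iff.1 ((sa.mem_iff z).2 ⟨trivial, mem_ball_zero_iff.2 h⟩).2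
      linarith [norm_sub_le (a z) z]
  have hcont : Continuous fun p : ℝ × ℂ => p.2 + p.1 * (a (p.2 / p.1) - p.2 / p.1) := by
    refine continuous_snd.add (continuous_iff_continuousAt.2 fun p => ?_)
    by_cases hp : p.1 = 0
    · rw [ContinuousAt, hp, Complex.ofReal_zero, zero_mul]
      refine squeeze_zero_norm (a := fun q : ℝ × ℂ => |q.1| * (2 * R)) (fun q => ?_) ?_
      · rw [norm_mul, Complex.norm_real, Real.norm_eq_abs]; gcongr; exact hM _
      · have : ContinuousAt (fun q : ℝ × ℂ => |q.1| * (2 * R)) p := by fun_prop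
        simpa [ContinuousAt, hp] using this
    · have h1 : ContinuousAt (fun q : ℝ × ℂ => q.2 / (q.1 : ℂ)) p :=
        ContinuousAt.div (by fun_prop) (by fun_prop) (by exact_mod_cast hp)
      exact ContinuousAt.mul (by fun_prop) ((a.continuous.continuousAt.comp h1).sub h1)
  have hex : ∀ s : ℝ, ∃ B : ℂ ≃ₜ ℂ, ∀ z, B z = z + s * (a (z / s) - z / s) := fun s => by
    by_cases hs : s = 0
    · exact ⟨1, fun z => by simp [hs]⟩
    · have hs' : (s : ℂ) ≠ 0 := by exact_mod_cast hs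
      refine ⟨((Homeomorph.mulRight₀ _ (inv_ne_zero hs')).trans a).trans
        (Homeomorph.mulLeft₀ _ hs'), fun z => ?_⟩
      change s * a (z * (s : ℂ)⁻¹) = _
      rw [← div_eq_mul_inv]; field_simp; ring
  choose B hB using hex
  refine ⟨fun t => B (max 0 (min 1 t)), R, ?_, fun t z hz => ?_, fun t => by simp [hB, a0],
    fun t ht => ?_, fun t ht => ?_⟩
  · simp only [hB]
    exact hcont.comp (f := fun p : ℝ × ℂ => (max 0 (min 1 p.1), p.2)) (by fun_prop)
  · rw [hB]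
    rcases (le_max_left 0 (min 1 t)).eq_or_lt with h | h
    · rw [← h]; simp
    · rw [hfix, sub_self, mul_zero, add_zero]
      rw [norm_div, Complex.norm_real, Real.norm_of_nonneg h.le, le_div_iff₀ h]
      have : max 0 (min 1 t) ≤ 1 := max_le zero_le_one (min_le_left _ _)
      nlinarith
  · ext1 z; simp [hB, max_eq_left (min_le_of_right_le ht), hone]
  · ext1 z; simp [hB, min_eq_left ht]

lemma exists_free (hX : IsClosed X) (hc : X.Countable) {r s : ℝ} (hrs : r < s) :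
    ∃ a η : ℝ, r < a ∧ 0 < η ∧ a + η < s ∧ ∀ z ∈ X, ‖z‖ < a ∨ a + η < ‖z‖ := by
  obtain ⟨ρ, h1, h2, mρ⟩ := exists_radius0 hc hrs
  have hK := ((isCompact_closedBall (0 : ℂ) s).inter_left hX).image continuous_norm
  obtain ⟨ε, hε, hb⟩ := Metric.isOpen_iff.1 (hK.isClosed.isOpen_compl.inter (isOpen_Ioo (a := r) (b := s)))
    ρ ⟨by rintro ⟨z, hz, e⟩; exact mρ z hz.1 e, h1, h2⟩
  have m : ∀ t, |t - ρ| < ε → t ∈ (norm '' (X ∩ closedBall (0 : ℂ) s))ᶜ ∩ Ioo r s := fun t ht =>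
    hb (by rwa [mem_ball, Real.dist_eq])
  refine ⟨ρ - ε / 2, ε / 2, (m _ (by rw [abs_lt]; constructor <;> linarith)).2.1, half_pos hε,
    by linarith, fun z hz => ?_⟩
  by_contra hcon
  push Not at hcon
  have := m ‖z‖ (by rw [abs_lt]; constructor <;> linarith)
  exact this.1 ⟨z, ⟨hz, mem_closedBall_zero_iff.2 this.2.2.le⟩, rfl⟩

lemma Ctx.kill_gc (C : Ctx X α φ) (ha : a ∈ gc X) (a0 : a 0 = 0) (a1 : a 1 = 1) (v : W) :
    φ a v = v := by
  obtain ⟨A, R, Ac, Af, A0, Al, Ar⟩ := exists_alex ha.1 a0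
  have hne : ∀ t, A t 1 ≠ 0 := fun t h => one_ne_zero ((A t).injective (h.trans (A0 t).symm))
  have hc : Continuous fun t => A t 1 := Ac.comp (f := fun t : ℝ => (t, (1 : ℂ))) (by fun_prop)
  obtain ⟨l', hl', el'⟩ := exists_lift (U := (univ : Set ℝ)) convex_univ isOpen_univ univ_nonempty
    (g := fun t => (A t 1)⁻¹) (hc.inv₀ hne).continuousOn fun t _ => inv_ne_zero (hne t)
  set l : ℝ → ℂ := fun t => l' t - l' 0 with hl
  have lc : Continuous l := (continuousOn_univ.1 hl').sub continuous_const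
  have el : ∀ t, ee (l t) = (A t 1)⁻¹ := fun t => by
    rw [hl, ee_sub, el' t trivial, el' 0 trivial, Al 0 le_rfl, hone, inv_one, div_one]
  obtain ⟨m, hm⟩ : ∃ m : ℤ, l 1 = m := by
    obtain ⟨m, hm⟩ := ee_eq_iff.1 (show ee (l 1) = ee 0 by rw [el, Ar 1 le_rfl, a1, ee_zero, inv_one])
    exact ⟨m, by simpa using hm⟩
  obtain ⟨B, hB⟩ : ∃ B, ∀ t, ‖A t 1‖ ≤ B ∧ ‖ee (l t)‖ ≤ B := by
    obtain ⟨B, hB⟩ := isCompact_Icc.bddAbove_image
      (f := fun t => max ‖A t 1‖ ‖(A t 1)⁻¹‖) (K := Icc (0 : ℝ) 1)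
      (hc.norm.max (hc.inv₀ hne).norm).continuousOn
    refine ⟨B, fun t => ?_⟩
    rw [el, ← max_le_iff]
    rcases le_total t 0 with h | h
    · rw [Al t h, ← Al 0 le_rfl]; exact hB ⟨0, by simp, rfl⟩
    rcases le_total 1 t with h' | h'
    · rw [Ar t h', ← Ar 1 le_rfl]; exact hB ⟨1, by simp, rfl⟩
    · exact hB ⟨t, ⟨h, h'⟩, rfl⟩
  have hB0 : 0 < B := (norm_pos_iff.2 (hne 0)).trans_le (hB 0).1
  obtain ⟨K, hK, -, hv⟩ := C.opn.fix v
  obtain ⟨R₁, hR₁, hKR⟩ := hK.isBounded.subset_ball_lt B 0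
  obtain ⟨r, η, h1, hη, -, hfree⟩ := exists_free C.adm.cl C.adm.cnt (lt_add_one R₁)
  have hd : B < (B + 2) * B := by nlinarith
  choose c hc' using fun t => exists_sw (l := ‖ee (l t)‖) (R := B) (d := (B + 2) * B) (l t).re r
    (norm_pos_iff.2 (ee_ne _)) hB0 hd (by nlinarith [(hB t).2]) hη
  have P : Pth (fun t => c t * A t) (max R (max ((B + 2) * B) (r + η))) := by
    refine ⟨?_, fun t z hz => ?_, fun t => by simp [hmul, A0, hc'], fun t => ?_⟩
    · simp only [hmul, hc']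
      exact Ac.mul (continuous_sw hB0 (by fun_prop) (by fun_prop) Ac.norm)
    · simp only [max_le_iff] at hz
      rw [hmul, Af t z hz.1, hc', sw_ge hB0 hd hη hz.2.1 hz.2.2, mul_one]
    · rw [hmul, hc', sw_le hB0 hd hη (hB t).1 (by linarith [(hB t).1]), ← ee_polar, el,
        mul_inv_cancel₀ (hne t)]
  have c1 : ∀ z, c 1 z = z * ee ((m * cut r η ‖z‖ : ℝ) : ℂ) := fun z => by
    rw [hc', hm, ee_int, norm_one, sw_one hB0 hd]; simp
  have cin : ∀ z, ‖z‖ ≤ r → c 1 z = z := fun z hz => by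
    rw [c1, cut_le hη hz]; simp [ee_int]
  have cout : ∀ z, r + η ≤ ‖z‖ → c 1 z = z := fun z hz => by
    rw [c1, cut_ge hη hz]; simp [ee_zero]
  have pc : Pres (c 1) X := fun z => by
    rcases le_or_gt ‖z‖ r with h | h
    · rw [cin z h]
    rcases le_or_gt (r + η) ‖z‖ with h' | h'
    · rw [cout z h']
    have : ‖c 1 z‖ = ‖z‖ := by rw [c1, norm_mul, norm_ee_real, mul_one]
    exact iff_of_false (fun hz => by rcases hfree _ hz with e | e <;> linarith)
      fun hz => by rcases hfree _ hz with e | e <;> linarith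
  have mc : c 1 ∈ gc X := ⟨⟨closedBall 0 (r + η), isCompact_closedBall _ _, subset_univ _,
    fun z hz => cout z (not_le.1 fun h => hz (mem_closedBall_zero_iff.2 h)).le⟩, pc⟩
  have key := C.path P (by
    ext1 z
    rw [hmul, Al 0 le_rfl, hc']
    simp [hl, ee_zero, sw_one hB0 hd, hone]) (by rw [Ar 1 le_rfl]; exact pc.mul ha.2) v
  simp only [Ar 1 le_rfl] at key
  rw [show a = (c 1)⁻¹ * (c 1 * a) by group]
  exact C.act.fix_mul (gc_le_gp ((gc X).inv_mem mc)) (gc_le_gp ((gc X).mul_mem mc ha))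
    (C.act.fix_inv (gc_le_gp mc) (hv _ (gc_le_gp mc) fun z hz =>
      cin z ((mem_ball_zero_iff.1 (hKR hz)).trans h1).le)) key

theorem kill_three (hX : IsClosed X) (hc : X.Countable) (ht : D X α = {0, 1}) (hα : NS α)
    (far : ∀ R, Rich X α {z | R < ‖z‖}) (h : Act (gp X) φ) (ho : Opn X φ) (hF : F ∈ gp X)
    (F0 : F 0 = 0) (F1 : F 1 = 1) (v : W) : φ F v = v := by
  have C : Ctx X α φ := ⟨⟨hX, hc, ht, 0, fun _ _ => Iff.rfl⟩, hα, h, ho⟩
  obtain ⟨K, h1, -, h3⟩ := ho.fix v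
  obtain ⟨R₀, hR₀, hK⟩ := h1.isBounded.subset_ball_lt 1 0
  obtain ⟨R, hR, -, mR⟩ := exists_radius0 hc (lt_add_one R₀)
  obtain ⟨a, ha, e⟩ := trunc_ns hX hc hα far hF (by linarith) mR (by
    rw [ht]; rintro z (rfl | rfl) <;> simp <;> linarith)
  have m : a⁻¹ * F ∈ gp X := (gp X).mul_mem ((gp X).inv_mem (gc_le_gp ha)) hF
  rw [show F = a * (a⁻¹ * F) by group]
  exact h.fix_mul (gc_le_gp ha) m (C.kill_gc ha (by rw [e 0 (by simp; linarith), F0])
    (by rw [e 1 (by simp; linarith), F1]) v) (h3 _ m fun z hz =>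
    hinv_eq (e z ((mem_ball_zero_iff.1 (hK hz)).trans hR).le))

end

end Pool.Agent.Lib.MP_069d55_gt
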