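import Pool.Agent.Lib.MP_069d55_gt.Grp
import Pool.Agent.Lib.MP_069d55_gt.Ends
import Pool.Agent.Lib.MP_069d55_gt.Three2

/-! Moving the ends into standard position; the negative cases. -/

namespace Pool.Agent.Lib.MP_069d55_gt

open Set Filter Topology Metric OnePoint Pool.Agent.Lib.MP_1e9af3_an

noncomputable section

variable {E E' E'' : Set (OnePoint ℂ)} {α β : Ordinal.{0}}

abbrev HE (h : Ends E) : Type := HomeoP (surf E h.cl)

/-- `E'` is obtained from `E` by an orientation preserving move `m` of the sphere -/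
structure Mv (E E' : Set (OnePoint ℂ)) (m : OnePoint ℂ ≃ₜ OnePoint ℂ) : Prop where
  img : ∀ y, m y ∈ E' ↔ y ∈ E
  op : ∃ h : SE E ≃ₜ SE E', OP h

lemma Mv.refl (h : Ends E) : Mv E E (Homeomorph.refl _) := ⟨fun _ => Iff.rfl, _, OP.refl h.op⟩

lemma Mv.trans (h : Ends E) (h' : Ends E') {m m' : OnePoint ℂ ≃ₜ OnePoint ℂ} (a : Mv E E' m)
    (b : Mv E' E'' m') : Mv E E'' (m.trans m') :=
  let ⟨_, h1⟩ := a.op
  let ⟨_, h2⟩ := b.op
  ⟨fun y => (b.img _).trans (a.img y), _, h1.trans h.op h'.op h2⟩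

lemma Mv.D {m : OnePoint ℂ ≃ₜ OnePoint ℂ} (a : Mv E E' m) (β : Ordinal.{0}) (y : OnePoint ℂ) :
    m y ∈ D E' β ↔ y ∈ D E β := by
  have : m ⁻¹' E' = E := Set.ext a.img
  conv_rhs => rw [← this, D_preimage m.isOpenEmbedding]
  rfl

lemma Mv.encard {m : OnePoint ℂ ≃ₜ OnePoint ℂ} (a : Mv E E' m) (β : Ordinal.{0}) :
    (MP_069d55_gt.D E' β).encard = (MP_069d55_gt.D E β).encard := by
  rw [← m.injective.encard_image (MP_069d55_gt.D E β)]
  congr 1; ext y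
  obtain ⟨y, rfl⟩ := m.surjective y
  rw [m.injective.mem_set_image, a.D]

lemma Mv.neg {m : OnePoint ℂ ≃ₜ OnePoint ℂ} (a : Mv E E' m) (h : Ends E) (h' : Ends E')
    (H : Neg (HE h')) : Neg (HE h) :=
  let ⟨f, hf⟩ := a.op
  let ⟨e, h1, h2⟩ := exists_conj (S := surf E' h'.cl) (T := surf E h.cl) f.symm (hf.symm h.op h'.op)
  H.of_surj e h1 h2

lemma Mv.pos {m : OnePoint ℂ ≃ₜ OnePoint ℂ} (a : Mv E E' m) (h : Ends E) (h' : Ends E')
    (H : Pos (HE h')) : Pos (HE h) :=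
  let ⟨f, hf⟩ := a.op
  let ⟨e, h1, h2⟩ := exists_conj (S := surf E h.cl) (T := surf E' h'.cl) f hf
  H.of_surj e h1 h2

lemma mv_of (h : Ends E) (m : OnePoint ℂ ≃ₜ OnePoint ℂ) (hm : ∞ ∈ m '' E) {F : ℂ → ℂ}
    (h1 : ∀ z ∈ SE E, m z = F z) (h2 : ∀ z ∈ SE E, HasDeg F z 1) :
    Ends (m '' E) ∧ Mv E (m '' E) m := by
  have hi : ∀ y, m y ∈ m '' E ↔ y ∈ E := fun y => m.injective.mem_set_image
  obtain ⟨f, hf⟩ := exists_ind h.inf hm m hi
  refine ⟨⟨m.isClosedMap _ h.cl, h.cnt.image _, hm⟩, hi, f, fun p hp => (h2 p hp).congr ?_⟩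
  filter_upwards [h.op.mem_nhds hp] with z hz
  rw [fn_mem f hz]
  exact coe_injective ((h1 z hz).symm.trans (hf ⟨z, hz⟩).symm)

lemma mv_plane (h : Ends E) {F : ℂ ≃ₜ ℂ} (hF : deg F = 1) :
    ∃ E' m, Ends E' ∧ Mv E E' m ∧ m ∞ = ∞ ∧ ∀ z : ℂ, m z = F z :=
  let ⟨h1, h2⟩ := mv_of h F.onePointCongr ⟨∞, h.inf, rfl⟩ (F := F) (fun _ _ => rfl)
    fun z _ => hF ▸ hasDeg_homeo F z
  ⟨_, _, h1, h2, rfl, fun _ => rfl⟩

lemma hasDeg_inv {p : ℂ} (hp : p ≠ 0) : HasDeg (fun z => z⁻¹) p 1 := by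
  filter_upwards [Ioo_mem_nhdsGT (norm_pos_iff.2 hp)] with r hr
  have hr0 : (r : ℂ) ≠ 0 := by exact_mod_cast hr.1.ne'
  have h1 : HasWind (fun θ : ℝ => p + r * ee θ) 0 := (hasWind_const hp).close (by fun_prop)
    (fun θ => by simp [ee_add_one]) fun θ => by simpa [norm_ee_real, abs_of_pos hr.1] using hr.2
  have h2 := (hasWind_circle (c := -r / p) (div_ne_zero (neg_ne_zero.2 hr0) hp)).mul h1.inv
  refine h2.congr fun θ => ?_
  have := h1.loop.ne θ
  simp only [lp] at this ⊢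
  field_simp; ring

lemma mv_inf (h : Ends E) {y : OnePoint ℂ} (hy : y ∈ E) :
    ∃ E' m, Ends E' ∧ Mv E E' m ∧ m y = ∞ := by
  induction y using OnePoint.rec with
  | infty => exact ⟨E, _, h, Mv.refl h, rfl⟩
  | coe p =>
    obtain ⟨F, hF, e⟩ := exists_move isOpen_univ isPreconnected_univ (mem_univ p) (mem_univ 0)
    obtain ⟨E₁, m, h₁, a, -, m1⟩ := mv_plane h hF.deg
    obtain ⟨j, j0, -, j1⟩ := exists_inversion
    have h0 : ((0 : ℂ) : OnePoint ℂ) ∈ E₁ := by rw [← e, ← m1, a.img]; exact hy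
    have hne : ∀ z ∈ SE E₁, z ≠ 0 := fun z hz e => hz (e ▸ h0)
    obtain ⟨h₂, b⟩ := mv_of h₁ j ⟨_, h0, j0⟩ (fun z hz => j1 z (hne z hz))
      fun z hz => hasDeg_inv (hne z hz)
    exact ⟨_, _, h₂, a.trans h h₁ b, by rw [Homeomorph.trans_apply, m1, e, j0]⟩

lemma mv_step (h : Ends E) {A : Set ℂ} (hA : A.Finite) (hAD : ∀ z ∈ A, (z : OnePoint ℂ) ∈ D E α)
    (hi : ∞ ∈ D E α) (hlt : A.encard + 1 < (D E α).encard) {q : ℂ} (hq : q ∉ A) :
    ∃ E' m, Ends E' ∧ Mv E E' m ∧ ∞ ∈ D E' α ∧ ∀ z ∈ insert q A, (z : OnePoint ℂ) ∈ D E' α := by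
  obtain ⟨y, hy, hyA⟩ : ∃ y ∈ D E α, y ∉ insert ∞ (((↑) : ℂ → OnePoint ℂ) '' A) := by
    by_contra hcon
    push Not at hcon
    have := (encard_le_encard hcon).trans (encard_insert_le _ _)
    rw [coe_injective.encard_image] at this
    exact hlt.not_ge this
  rw [mem_insert_iff, not_or] at hyA
  obtain ⟨p, rfl⟩ := ne_infty_iff_exists.1 hyA.1
  obtain ⟨F, hF, e⟩ := exists_move (isOpen_univ.sdiff hA.isClosed)
    (preconn_diff isOpen_univ isPreconnected_univ hA.countable)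
    (⟨trivial, fun h => hyA.2 (mem_image_of_mem _ h)⟩ : p ∈ univ \ A) ⟨trivial, hq⟩
  obtain ⟨E₁, m, h₁, a, m0, m1⟩ := mv_plane h hF.deg
  refine ⟨E₁, m, h₁, a, by rw [← m0, a.D]; exact hi, ?_⟩
  rintro z (rfl | hz)
  · rw [← e, ← m1, a.D]; exact hy
  · rw [← hF.fix (z := z) fun h => h.2 hz, ← m1, a.D]; exact hAD z hz

lemma encard_Iio' (k : ℕ) : (Iio k).encard = k := by
  rw [← Finset.coe_range, encard_coe_eq_coe_finsetCard, Finset.card_range]

lemma mv_norm (h : Ends E) (k : ℕ) (hk : (k : ℕ∞) + 1 ≤ (D E α).encard) :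
    ∃ E' m, Ends E' ∧ Mv E E' m ∧ ∞ ∈ D E' α ∧ ∀ i < k, (((i : ℕ) : ℂ) : OnePoint ℂ) ∈ D E' α := by
  induction k with
  | zero =>
    obtain ⟨y, hy⟩ : (D E α).Nonempty := one_le_encard_iff_nonempty.1 (by simpa using hk)
    obtain ⟨E', m, h', a, e⟩ := mv_inf h (D_sub hy)
    exact ⟨E', m, h', a, by rw [← e, a.D]; exact hy, by simp⟩
  | succ k ih =>
    obtain ⟨E', m, h', a, e, he⟩ := ih (le_trans (by gcongr; exact Nat.le_succ k) hk)
    obtain ⟨E₂, m₂, h₂, b, e₂, he₂⟩ := mv_step h' (A := Nat.cast '' Iio k) (q := (k : ℕ))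
      ((finite_Iio k).image _) (by rintro _ ⟨i, hi, rfl⟩; exact he i hi) e (by
        rw [Nat.cast_injective.encard_image, a.encard, encard_Iio']
        exact lt_of_lt_of_le (by exact_mod_cast Nat.lt_succ_self _) hk) (by simp)
    refine ⟨E₂, _, h₂, a.trans h h' b, e₂, fun i hi => he₂ _ ?_⟩
    rcases Nat.lt_succ_iff_lt_or_eq.1 hi with hi | rfl
    exacts [Or.inr ⟨i, hi, rfl⟩, Or.inl rfl]

lemma D_XE (β : Ordinal.{0}) (z : ℂ) : z ∈ D (XE E) β ↔ (z : OnePoint ℂ) ∈ D E β := by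
  rw [D_preimage isOpenEmbedding_coe]; rfl

/-- extension of an element to the sphere -/
def hatG (h : Ends E) : HE h →* (OnePoint ℂ ≃ₜ OnePoint ℂ) :=
  (hat h).comp (homeoPlus (surf E h.cl)).subtype

lemma hatG_coe (h : Ends E) (g : HE h) (z : SE E) : hatG h g (z : ℂ) = (g.1 z : ℂ) :=
  hat_coe h g.1 z

/-- the subgroup fixing all points of the derivative -/
def fixD (h : Ends E) (α : Ordinal.{0}) : Subgroup (HE h) where
  carrier := {g | ∀ y ∈ D E α, hatG h g y = y}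
  one_mem' y _ := by simp
  mul_mem' ha hb y hy := by rw [map_mul, Homeomorph.mul_apply, hb y hy, ha y hy]
  inv_mem' {a} ha y hy := by
    rw [map_inv, Homeomorph.inv_apply, Homeomorph.symm_apply_eq, ha y hy]

lemma fixD_index (h : Ends E) (hf : (D E α).Finite) : (fixD h α).FiniteIndex := by
  have := hf.to_subtype
  set t : HE h →* Equiv.Perm (D E α) := MonoidHom.mk'
    (fun g => Equiv.Perm.subtypePerm (hatG h g).toEquiv (hat_D h g.1 α))
    fun a b => by ext y; simp only [map_mul]; rfl with ht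
  exact Subgroup.finiteIndex_of_le (H := t.ker) fun g hg y hy =>
    congrArg Subtype.val (Equiv.congr_fun (MonoidHom.mem_ker.1 hg) ⟨y, hy⟩)

/-- restriction to the surface -/
def res (h : Ends E) (F : ℂ ≃ₜ ℂ) (hF : F ∈ gp (XE E)) : HE h :=
  ⟨F.subtype (p := (· ∈ SE E)) (q := (· ∈ SE E)) fun z => (not_congr (hF.2 z)).symm,
    (orPres_iff h.op).2 fun p hp =>
    (hF.1 ▸ hasDeg_homeo F p).congr (by
      filter_upwards [h.op.mem_nhds hp] with z hz
      exact (fn_mem (F.subtype (p := (· ∈ SE E)) (q := (· ∈ SE E))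
        fun z => (not_congr (hF.2 z)).symm) hz).symm)⟩

lemma hatG_res (h : Ends E) {F : ℂ ≃ₜ ℂ} (hF : F ∈ gp (XE E)) (y : OnePoint ℂ) :
    hatG h (res h F hF) y = F.onePointCongr y :=
  congrFun (h.ext (hatG h _).continuous F.onePointCongr.continuous fun z => hatG_coe h _ z) y

lemma exists_res (h : Ends E) {g : HE h} (hg : hatG h g ∞ = ∞) :
    ∃ F, ∃ hF : F ∈ gp (XE E), g = res h F hF ∧ ∀ z : ℂ, hatG h g z = F z := by
  obtain ⟨F, hF⟩ := exists_plane _ hg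
  have e : ∀ z : SE E, F z = g.1 z := fun z => coe_injective ((hF z).trans (hatG_coe h g z))
  obtain ⟨p, -, hp⟩ := nonempty_diff isOpen_univ univ_nonempty h.xcnt
  refine ⟨F, ⟨(hasDeg_homeo F p).unique ((g.op p hp).congr ?_), fun z => ?_⟩,
    Subtype.ext (Homeomorph.ext fun z => Subtype.ext (e z).symm), fun z => (hF z).symm⟩
  · filter_upwards [h.op.mem_nhds hp] with z hz
    exact (fn_mem _ hz).trans (e ⟨z, hz⟩).symm
  · rw [mem_preimage, hF]; exact hat_mem h g.1 z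

lemma rich_far (hi : ∞ ∈ D E α) (R : ℝ) : Rich (XE E) α {z | R < ‖z‖} := fun β hβ K hK _ => by
  obtain ⟨y, ⟨h1, h2⟩, h3⟩ := accPt_iff_nhds.1
    (mem_D_succ.1 (D_anti (Order.add_one_le_of_lt hβ) hi)).1 _
    ((closed_coe (hK.union (isCompact_closedBall 0 R))).isOpen_compl.mem_nhds (by simp))
  obtain ⟨z, rfl⟩ := ne_infty_iff_exists.1 h3
  rw [mem_compl_iff, coe_injective.mem_set_image, mem_union, not_or, mem_closedBall_zero_iff,
    not_le] at h1
  exact ⟨z, h1.2, h1.1, (D_XE β z).2 h2⟩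

lemma neg_of_kill (h : Ends E) (hf : (D E α).Finite) (hi : ∞ ∈ D E α)
    (hk : ∀ (W : Type) (φ : (ℂ ≃ₜ ℂ) → Equiv.Perm W), Act (gp (XE E)) φ → Opn (XE E) φ →
      ∀ F ∈ gp (XE E), (∀ z ∈ D (XE E) α, F z = z) → ∀ v, φ F v = v) : Neg (HE h) := by
  classical
  intro W ρ h1 h2 v
  have := fixD_index h hf
  refine finite_orbit ρ (fixD h α) fun g hg => ?_
  obtain ⟨F, hF, rfl, e⟩ := exists_res h (hg _ hi)
  set φ : (ℂ ≃ₜ ℂ) → Equiv.Perm W := fun F => if hF : F ∈ gp (XE E) then ρ (res h F hF) else 1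
    with hφ
  have φe : ∀ F (hF : F ∈ gp (XE E)), φ F = ρ (res h F hF) := fun F hF => dif_pos hF
  rw [← φe]
  refine hk W φ ⟨fun a ha b hb => ?_, fun v w => (h2 v w).subset ?_⟩ (fun v => ?_) F hF
    (fun z hz => coe_injective ((e z).symm.trans (hg _ ((D_XE α z).1 hz)))) v
  · rw [φe _ ha, φe _ hb, φe _ ((gp _).mul_mem ha hb), ← map_mul]; rfl
  · rintro u ⟨a, ha, h3⟩
    exact ⟨res h a ha, φe a ha ▸ h3⟩
  · obtain ⟨K, hK, hS, ε, hε, hg⟩ := nb_of_mem (h1 v)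
    exact ⟨K, hK, disjoint_left.2 fun z hz => hS hz, ε, hε, fun F hF hd =>
      φe F hF ▸ hg (res h F hF) fun z hz => hd z hz⟩

theorem neg_main (h : Ends E) {k : ℕ} (hn : (D E α).encard = (k + 1 : ℕ)) (hk : k ≤ 2)
    (hα : k = 0 ∨ NS α) : Neg (HE h) := by
  obtain ⟨E', m, h', a, e, he⟩ := mv_norm h k (by rw [hn]; exact le_rfl)
  refine a.neg h h' ?_
  rw [← a.encard] at hn
  have hf := finite_of_encard_eq_coe hn
  have ht : D (XE E') α = Nat.cast '' Iio k := by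
    have : insert ∞ (((↑) : ℂ → OnePoint ℂ) '' (Nat.cast '' Iio k)) = D E' α := by
      refine ((((finite_Iio k).image _).image _).insert _).eq_of_subset_of_encard_le
        (insert_subset e (by rintro _ ⟨_, ⟨i, hi, rfl⟩, rfl⟩; exact he i hi)) ?_
      rw [encard_insert_of_notMem (by simp), coe_injective.encard_image,
        Nat.cast_injective.encard_image, encard_Iio', hn]
      exact le_rfl
    ext z
    rw [D_XE, ← this, mem_insert_iff, coe_injective.mem_set_image]; simp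
  refine neg_of_kill h' hf e fun W φ hA ho F hF hfix v => ?_
  obtain rfl | rfl | rfl : k = 0 ∨ k = 1 ∨ k = 2 := by omega
  · exact kill_one h'.xcl h'.xcnt (by simpa using ht) (rich_far e) hA ho hF v
  · exact kill_two ⟨h'.xcl, h'.xcnt, by simpa [Order.lt_one_iff] using ht, hα.resolve_left (by simp),
      rich_far e⟩ hA ho hF v
  · have ht' : D (XE E') α = {0, 1} := by
      rw [ht, show Iio 2 = ({0, 1} : Set ℕ) by ext i; simp; omega]; simp [image_pair]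
    exact kill_three h'.xcl h'.xcnt ht' (hα.resolve_left (by simp)) (rich_far e) hA ho hF
      (hfix 0 (by simp [ht'])) (hfix 1 (by simp [ht'])) v

end

end Pool.Agent.Lib.MP_069d55_gt
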