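import Pool.Agent.Lib.MP_069d55_gt.Norm

/-! The positive cases: twisting about four top points and flux between two top points. -/

namespace Pool.Agent.Lib.MP_069d55_gt

open Set Filter Topology Metric OnePoint Pool.Agent.Lib.MP_1e9af3_an

noncomputable section

variable {E : Set (OnePoint ℂ)} {α β : Ordinal.{0}}

lemma exists_free' {X : Set ℂ} (hX : IsClosed X) (hc : X.Countable) (x : ℂ) {r s : ℝ}
    (hrs : r < s) :
    ∃ a η : ℝ, r < a ∧ 0 < η ∧ a + η < s ∧ ∀ z ∈ X, ‖z - x‖ < a ∨ a + η < ‖z - x‖ := by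
  obtain ⟨a, η, h1, h2, h3, h4⟩ := exists_free (X := (· + x) ⁻¹' X) (hX.preimage (by fun_prop))
    (hc.preimage (add_left_injective x)) hrs
  exact ⟨a, η, h1, h2, h3, fun z hz => h4 _ (by simpa using hz)⟩

lemma near_nhds (h : Ends E) {x : ℂ} {a η : ℝ} (ha : 0 < a) (hη : 0 < η)
    (hfree : ∀ z ∈ XE E, ‖z - x‖ < a ∨ a + η < ‖z - x‖) : ∀ᶠ g in 𝓝 (1 : HE h),
    (∀ y, y ∈ (↑) '' ball x (a + η / 2) → hatG h g y ∈ (↑) '' closedBall x (a + 3 * η / 4)) ∧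
    ∀ y ∈ E, (hatG h g y ∈ (↑) '' ball x a ↔ y ∈ (↑) '' ball x a) := by
  filter_upwards [nb_mem (S := surf E h.cl) ((isCompact_closedBall x (a + η)).diff
    (isOpen_ball (x := x) (ε := a))) (fun z hz hz' => by
      simp only [Set.mem_sdiff, mem_closedBall, mem_ball, dist_eq_norm] at hz
      rcases hfree z hz' with h | h
      exacts [hz.2 h, h.not_ge hz.1]) (show 0 < η / 4 by positivity)] with g hg
  exact near_id h g.1 ha hη hfree fun z h1 h2 => hg z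
    ⟨by rwa [mem_closedBall, dist_eq_norm], by rwa [mem_ball, dist_eq_norm, not_lt]⟩

lemma finite_XE (hf : (D E α).Finite) : (D (XE E) α).Finite := by
  rw [D_preimage isOpenEmbedding_coe]; exact hf.preimage coe_injective.injOn

lemma exists_isol {T : Set ℂ} (hT : T.Finite) (x : ℂ) : ∃ ε > 0, ∀ z ∈ T, z ∈ ball x ε → z = x := by
  obtain ⟨ε, hε, hb⟩ := Metric.isOpen_iff.1 (hT.subset (sdiff_subset (t := {x}))).isClosed.isOpen_compl
    x (by simp)
  exact ⟨ε, hε, fun z hz h => by_contra fun hne => hb h ⟨hz, hne⟩⟩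

lemma fixD_nhds (h : Ends E) (hf : (D E α).Finite) : ∀ᶠ g in 𝓝 (1 : HE h), g ∈ fixD h α := by
  refine (eventually_all_finite hf).2 fun y hy => ?_
  induction y using OnePoint.rec with
  | infty =>
    obtain ⟨R, hR, hT⟩ := (finite_XE hf).isBounded.subset_ball_lt 0 0
    obtain ⟨a, η, h1, h2, -, h4⟩ := exists_free' h.xcl h.xcnt 0 (lt_add_one R)
    filter_upwards [near_nhds h (hR.trans h1) h2 h4] with g hg
    by_contra hne
    obtain ⟨z, e⟩ := ne_infty_iff_exists.1 hne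
    have := (hg.2 ∞ h.inf).1 ⟨z, ball_subset_ball h1.le (hT ((D_XE α z).2
      (e ▸ (hat_D h g.1 α ∞).2 hy))), e⟩
    simp at this
  | coe x =>
    obtain ⟨ε, hε, hT⟩ := exists_isol (finite_XE hf) x
    obtain ⟨a, η, h1, h2, h3, h4⟩ := exists_free' h.xcl h.xcnt x hε
    filter_upwards [near_nhds h h1 h2 h4] with g hg
    obtain ⟨z, hz, e⟩ := (hg.2 x (D_sub hy)).2 (mem_image_of_mem _ (mem_ball_self h1))
    rw [← e, hT z ((D_XE α z).2 (e ▸ (hat_D h g.1 α x).2 hy)) (ball_subset_ball (by linarith) hz)]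

/-! ### Twisting -/

def w2 : ℂ := Complex.log 2 / tpi

lemma ee_w2 : ee w2 = 2 := ee_log two_ne_zero

def Tw (F : ℂ → ℂ) (k : ℤ) : Prop :=
  ∃ L : ℂ → ℂ, Continuous L ∧ (∀ w, ee (L w) = F (ee w)) ∧ L w2 - w2 - L 0 = k

lemma Tw.unique {F : ℂ → ℂ} {k k' : ℤ} (h : Tw F k) (h' : Tw F k') : k = k' := by
  obtain ⟨L, c, e, s⟩ := h
  obtain ⟨L', c', e', s'⟩ := h'
  have := int_const (S := univ) isPreconnected_univ (g := fun w => L w - L' w) (by fun_prop)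
    (fun w _ => by
      obtain ⟨n, hn⟩ := ee_eq_iff.1 ((e w).trans (e' w).symm)
      exact ⟨n, by simp [hn]⟩) (mem_univ w2) (mem_univ 0)
  have : (k : ℂ) = k' := by linear_combination this - s + s'
  exact_mod_cast this

lemma exists_glift {F : ℂ ≃ₜ ℂ} (h0 : F 0 = 0) :
    ∃ L : ℂ → ℂ, Continuous L ∧ ∀ w, ee (L w) = F (ee w) := by
  obtain ⟨L, c, e⟩ := exists_lift (U := (univ : Set ℂ)) convex_univ isOpen_univ univ_nonempty
    (g := fun w => F (ee w)) (by fun_prop) fun w _ h => ee_ne w (F.injective (h.trans h0.symm))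
  exact ⟨L, continuousOn_univ.1 c, fun w => e w trivial⟩

lemma glift_vals {F L : ℂ → ℂ} (e : ∀ w, ee (L w) = F (ee w)) (h1 : F 1 = 1) (h2 : F 2 = 2) :
    ∃ n m : ℤ, L 0 = 0 + n ∧ L w2 = w2 + m :=
  let ⟨n, hn⟩ := ee_eq_iff.1 (show ee (L 0) = ee 0 by rw [e, ee_zero, h1])
  let ⟨m, hm⟩ := ee_eq_iff.1 (show ee (L w2) = ee w2 by rw [e, ee_w2, h2])
  ⟨n, m, hn, hm⟩

lemma exists_tw {F : ℂ ≃ₜ ℂ} (h0 : F 0 = 0) (h1 : F 1 = 1) (h2 : F 2 = 2) : ∃ k, Tw F k := by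
  obtain ⟨L, c, e⟩ := exists_glift h0
  obtain ⟨n, m, hn, hm⟩ := glift_vals e h1 h2
  exact ⟨m - n, L, c, e, by rw [hn, hm]; push_cast; ring⟩

lemma Tw.mul {F G : ℂ ≃ₜ ℂ} {k k' : ℤ} (hF : deg F = 1) (h0 : F 0 = 0) (h1 : G 1 = 1)
    (h2 : G 2 = 2) (h : Tw F k) (h' : Tw G k') : Tw (F * G : ℂ ≃ₜ ℂ) (k + k') := by
  obtain ⟨L, c, e, s⟩ := h
  obtain ⟨L', c', e', s'⟩ := h'
  obtain ⟨n, m, hn, hm⟩ := glift_vals e' h1 h2
  obtain ⟨d, hd⟩ := ee_eq_iff.1 (show ee (L (0 + 1)) = ee (L 0) by rw [e, e, ee_add_one])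
  have hp : ∀ w, L (w + 1) = L w + d := fun w => by
    have := int_const (S := univ) isPreconnected_univ (g := fun w => L (w + 1) - L w) (by fun_prop)
      (fun w _ => by
        obtain ⟨n, hn⟩ := ee_eq_iff.1 (show ee (L (w + 1)) = ee (L w) by rw [e, e, ee_add_one])
        exact ⟨n, by simp [hn]⟩) (mem_univ w) (mem_univ 0)
    linear_combination this + hd
  have hw : HasWind (lp F 0 1) d := ⟨fun θ => L θ, by fun_prop, fun θ => by simp [e, lp, h0],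
    fun θ => by push_cast; exact hp θ⟩
  have hd1 : d = 1 := hw.wind_eq.symm.trans hF
  have hq := fun (n : ℤ) w => lift_int (U := univ) (fun _ _ _ => trivial) (fun w _ => hp w) n w trivial
  refine ⟨L ∘ L', c.comp c', fun w => by rw [Function.comp_apply, e, e', hmul], ?_⟩
  simp only [Function.comp_apply]
  rw [hn, hm] at s' ⊢
  rw [hq, hq, hd1]
  push_cast
  linear_combination s + s'

lemma tw_zero {F : ℂ ≃ₜ ℂ} (h0 : F 0 = 0) (h1 : F 1 = 1) (h2 : F 2 = 2) {A : Set ℂ}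
    (hA : IsPreconnected A) (m1 : 1 ∈ A) (m2 : 2 ∈ A) (hr : ∀ z ∈ A, 0 < z.re ∧ 0 < (F z).re) :
    Tw F 0 := by
  obtain ⟨L, c, e⟩ := exists_glift h0
  have s1 : ∀ z ∈ A, z ∈ Complex.slitPlane := fun z hz => Or.inl (hr z hz).1
  have s2 : ∀ z ∈ A, F z ∈ Complex.slitPlane := fun z hz => Or.inl (hr z hz).2
  have := int_const hA (g := fun z => L (Complex.log z / tpi) - Complex.log (F z) / tpi)
    ((c.comp_continuousOn ((continuousOn_id.clog s1).div_const _)).sub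
      ((F.continuous.continuousOn.clog s2).div_const _)) (fun z hz => by
      obtain ⟨n, hn⟩ := ee_eq_iff.1 (show ee (L (Complex.log z / tpi)) =
          ee (Complex.log (F z) / tpi) by
        rw [e, ee_log (Complex.slitPlane_ne_zero (s1 z hz)),
          ee_log (Complex.slitPlane_ne_zero (s2 z hz))])
      exact ⟨n, by simp [hn]⟩) m2 m1
  refine ⟨L, c, e, ?_⟩
  simp only [h1, h2, Complex.log_one, zero_div, sub_zero] at this
  rw [w2, this]; simp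

theorem pos_four (h : Ends E) (hn : 4 ≤ (D E α).encard) (hf : (D E α).Finite) : Pos (HE h) := by
  classical
  obtain ⟨E', m, h', mv, hi, he⟩ := mv_norm h 3 (by exact_mod_cast hn)
  refine mv.pos h h' ?_
  replace hf : (D E' α).Finite := by
    rw [← encard_lt_top_iff, mv.encard]; exact hf.encard_lt_top
  have := fixD_index h' hf
  have key : ∀ g ∈ fixD h' α, ∃ F : ℂ ≃ₜ ℂ, deg F = 1 ∧ (∀ z : ℂ, hatG h' g z = F z) ∧ F 0 = 0 ∧
      F 1 = 1 ∧ F 2 = 2 := fun g hg => by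
    obtain ⟨F, hF, -, e⟩ := exists_res h' (hg _ hi)
    have := fun i hi => coe_injective ((e _).symm.trans (hg _ (he i hi)))
    exact ⟨F, hF.1, e, by simpa using this 0 (by omega), by simpa using this 1 (by omega),
      by simpa using this 2 (by omega)⟩
  set R : HE h' → ℤ → Prop := fun g k => ∃ F : ℂ → ℂ, (∀ z : ℂ, hatG h' g z = F z) ∧ Tw F k with hR
  have Re : ∀ g (F : ℂ → ℂ) k, (∀ z : ℂ, hatG h' g z = F z) → Tw F k →
      Classical.epsilon (R g) = k := fun g F k h1 h2 => by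
    obtain ⟨F', h3, h4⟩ := Classical.epsilon_spec (p := R g) ⟨k, F, h1, h2⟩
    obtain rfl : F = F' := funext fun z => coe_injective ((h1 z).symm.trans (h3 z))
    exact h4.unique h2
  obtain ⟨a, η, a1, a2, a3, a4⟩ := exists_free h'.xcl h'.xcnt one_lt_two
  obtain ⟨F, hF⟩ := exists_sw (l := 1) (R := 1) (d := 2) (η := η) 1 a one_pos one_pos one_lt_two
    (by norm_num) a2
  simp only [sw_one one_pos one_lt_two, one_mul] at hF
  have Ffix : ∀ z, ‖z‖ ≤ a ∨ a + η ≤ ‖z‖ → F z = z := by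
    rintro z (hz | hz)
    · rw [hF, cut_le a2 hz]; simp [ee_one]
    · rw [hF, cut_ge a2 hz]; simp [ee_zero]
  have Fs : Supp F (XE E')ᶜ := ⟨closedBall 0 (a + η) \ ball 0 a,
    (isCompact_closedBall _ _).diff isOpen_ball, fun z hz hz' => by
      simp only [Set.mem_sdiff, mem_closedBall_zero_iff, mem_ball_zero_iff] at hz
      rcases a4 z hz' with h | h
      exacts [hz.2 h, h.not_ge hz.1], fun z hz => Ffix z (by
      simp only [Set.mem_sdiff, mem_closedBall_zero_iff, mem_ball_zero_iff, not_and, not_not] at hz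
      exact (le_or_gt ‖z‖ (a + η)).imp (fun h => (hz h).le) le_of_lt)⟩
  have Fg : F ∈ gp (XE E') := ⟨Fs.deg, fun z => not_iff_not.1 (Fs.mem_iff z)⟩
  refine pos_of (fixD h' α) (fun g => Classical.epsilon (R g)) (fun a ha b hb => ?_)
    (g₀ := res h' F Fg) (fun y hy => ?_) ?_ ?_
  · obtain ⟨A, d, e, e0, e1, e2⟩ := key a ha
    obtain ⟨B, -, e', f0, f1, f2⟩ := key b hb
    obtain ⟨k, hk⟩ := exists_tw e0 e1 e2
    obtain ⟨k', hk'⟩ := exists_tw f0 f1 f2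
    rw [Re a A k e hk, Re b B k' e' hk', Re (a * b) (A * B : ℂ ≃ₜ ℂ) _ (fun z => by
      rw [map_mul, Homeomorph.mul_apply, e', e, hmul]) (hk.mul d e0 f1 f2 hk')]
  · rw [hatG_res]
    induction y using OnePoint.rec with
    | infty => rfl
    | coe z => exact congrArg _ (Fs.fix (not_not.2 (D_sub (A := E') hy)))
  · rw [Re _ F (-1) (fun z => hatG_res h' Fg z) ⟨fun w => w + (cut a η ‖ee w‖ : ℝ), by fun_prop,
      fun w => by rw [hF, ee_add], by
        simp only [ee_w2, ee_zero]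
        rw [cut_le (r := ‖(1 : ℂ)‖) a2 (by simpa using a1.le),
          cut_ge (r := ‖(2 : ℂ)‖) a2 (by simpa using a3.le)]; simp⟩]
    norm_num
  · obtain ⟨a₁, η₁, b1, b2, b3, b4⟩ := exists_free' h'.xcl h'.xcnt 1 (show (0 : ℝ) < 1 / 4 by norm_num)
    obtain ⟨a₂, η₂, c1, c2, c3, c4⟩ := exists_free' h'.xcl h'.xcnt 2 (show (0 : ℝ) < 1 / 4 by norm_num)
    obtain ⟨p₁, hp₁⟩ := nonempty_diff isOpen_ball (nonempty_ball.2 b1 : (ball (1 : ℂ) a₁).Nonempty)
      h'.xcnt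
    obtain ⟨p₂, hp₂⟩ := nonempty_diff isOpen_ball (nonempty_ball.2 c1 : (ball (2 : ℂ) a₂).Nonempty)
      h'.xcnt
    have hre : ∀ {x z : ℂ} {r : ℝ}, dist z x ≤ r → x.re - r ≤ z.re := fun {x z r} h => by
      have := (abs_le.1 ((Complex.abs_re_le_norm (z - x)).trans (dist_eq_norm z x ▸ h))).1
      rw [Complex.sub_re] at this; linarith
    have ho : IsOpen {z : ℂ | 1 / 2 < z.re} := isOpen_lt continuous_const Complex.continuous_re
    have q₁ : p₁ ∈ {z : ℂ | 1 / 2 < z.re} \ XE E' :=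
      ⟨by have := hre (le_of_lt hp₁.1); simp at this ⊢; linarith, hp₁.2⟩
    have q₂ : p₂ ∈ {z : ℂ | 1 / 2 < z.re} \ XE E' :=
      ⟨by have := hre (le_of_lt hp₂.1); simp at this ⊢; linarith, hp₂.2⟩
    obtain ⟨γ, hγ⟩ := ((ho.sdiff h'.xcl).isConnected_iff_isPathConnected.1 ⟨⟨_, q₁⟩,
      preconn_diff ho (convex_halfSpace_re_gt _).isPreconnected h'.xcnt⟩).joinedIn _ q₁ _ q₂
    filter_upwards [fixD_nhds h' hf, near_nhds h' b1 b2 b4, near_nhds h' c1 c2 c4,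
      nb_mem (S := surf E' h'.cl) (isCompact_range γ.continuous)
        (by rintro _ ⟨t, rfl⟩; exact (hγ t).2) (show (0 : ℝ) < 1 / 4 by norm_num)] with g g1 g2 g3 g4
    obtain ⟨A, -, e, e0, e1, e2⟩ := key g g1
    refine ⟨g1, Re g A 0 e (tw_zero e0 e1 e2 (A := (ball 1 a₁ ∪ range γ) ∪ ball 2 a₂)
      (IsPreconnected.union p₂ (Or.inr γ.target_mem_range) hp₂.1 (IsPreconnected.union p₁ hp₁.1
        γ.source_mem_range (convex_ball _ _).isPreconnected (isPreconnected_range γ.continuous))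
        (convex_ball _ _).isPreconnected) (Or.inl (Or.inl (mem_ball_self b1)))
      (Or.inr (mem_ball_self c1)) ?_)⟩
    rintro z ((hz | ⟨t, rfl⟩) | hz)
    · have := g2.1 z (mem_image_of_mem _ (ball_subset_ball (by linarith) hz))
      rw [e, coe_injective.mem_set_image] at this
      have u := hre (le_of_lt hz)
      have v := hre this
      simp only [Complex.one_re] at u v
      constructor <;> linarith
    · have := g4 ⟨γ t, (hγ t).2⟩ (mem_range_self t)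
      have e3 := coe_injective ((e _).symm.trans (hatG_coe h' g ⟨γ t, (hγ t).2⟩))
      have u : 1 / 2 < (γ t).re := (hγ t).1
      have v := hre (x := γ t) (z := A (γ t)) (r := 1 / 4) (by rw [e3]; exact le_of_lt this)
      constructor <;> linarith
    · have := g3.1 z (mem_image_of_mem _ (ball_subset_ball (by linarith) hz))
      rw [e, coe_injective.mem_set_image] at this
      have u := hre (le_of_lt hz)
      have v := hre this
      simp only [Complex.re_ofNat] at u v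
      constructor <;> linarith

/-! ### Flux -/

lemma exists_flux {X : Set ℂ} (hX : IsClosed X) (hc : X.Countable) {x₁ x₂ : ℂ} {a₁ a₂ : ℝ}
    (hd : a₁ + a₂ ≤ dist x₁ x₂) (m₁ : ∀ z ∈ X, ‖z - x₁‖ ≠ a₁) (m₂ : ∀ z ∈ X, ‖z - x₂‖ ≠ a₂)
    (t₁ : D X (β + 1) ∩ ball x₁ a₁ = {x₁}) (t₂ : D X (β + 1) ∩ ball x₂ a₂ = {x₂}) :
    ∃ F ∈ gc X, (∀ z ∈ D X (β + 1), F z = z) ∧ ∃ y ∈ D X β, y ∉ ball x₁ a₁ ∧ F y ∈ ball x₁ a₁ ∧
      ∀ z ∈ D X β, z ≠ y → (F z ∈ ball x₁ a₁ ↔ z ∈ ball x₁ a₁) := by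
  have hx₁ : x₁ ∈ D X (β + 1) ∩ ball x₁ a₁ := t₁ ▸ mem_singleton _
  have hx₂ : x₂ ∈ D X (β + 1) ∩ ball x₂ a₂ := t₂ ▸ mem_singleton _
  have dj : ∀ z ∈ ball x₁ a₁, a₂ < ‖z - x₂‖ := fun z hz => by
    have := dist_triangle_left x₁ x₂ z
    rw [← dist_eq_norm]; linarith [mem_ball.1 hz]
  have dj' : ∀ z ∈ ball x₁ a₁, z ∉ ball x₂ a₂ := fun z hz h =>
    lt_asymm (dj z hz) (by rwa [mem_ball, dist_eq_norm] at h)
  obtain ⟨y, ⟨y1, y2⟩, y3⟩ := accPt_iff_nhds.1 (mem_D_succ.1 hx₂.1).1 _ (isOpen_ball.mem_nhds hx₂.2)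
  obtain ⟨U, hU, Ub, Ud⟩ := exists_piece hX hc y2
    (fun h => y3 (t₂ ▸ (⟨h, y1⟩ : y ∈ D X (β + 1) ∩ ball x₂ a₂) : y ∈ ({x₂} : Set ℂ)))
    (isOpen_ball.mem_nhds y1)
  obtain ⟨U', hU', ty⟩ := exists_copy (isOpen_ball.sdiff hX)
    (nonempty_diff isOpen_ball ⟨_, hx₁.2⟩ hc) hU.2.1 (hc.mono hU.1)
  obtain ⟨H, sH, eH⟩ := tame (isOpen_univ.sdiff hU.2.2) (preconn_diff isOpen_univ
    isPreconnected_univ (hc.mono sdiff_subset)) ⟨hU.2.1, hc.mono hU.1, fun z hz =>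
      ⟨trivial, fun h => h.2 hz⟩⟩ (hU'.mono fun z hz => ⟨trivial, fun h => (hU'.sub hz).2 h.1⟩)
    ty.symm
  have Hf : ∀ z ∈ X, z ∉ U → H z = z := fun z h1 h2 => sH.fix fun h => h.2 ⟨h1, h2⟩
  have HU : ∀ z ∈ U, H z ∈ ball x₁ a₁ := fun z hz => (hU'.sub (eH ▸ mem_image_of_mem _ hz)).1
  have tU : ∀ z ∈ D X (β + 1), z ∉ U := fun z hz h => by
    have := D_succ_of_finite (Ud ▸ finite_singleton y : (D U β).Finite)
    rw [hU.D_eq] at this
    exact (this ▸ ⟨hz, h⟩ : z ∈ (∅ : Set ℂ))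
  have DY : D (H '' X) (β + 1) = D X (β + 1) := by
    rw [D_image, image_congr fun z hz => Hf z (D_sub hz) (tU z hz), image_id']
  have Yc : IsClosed (H '' X) := H.isClosedMap _ hX
  have Ym : ∀ w ∈ H '' X, w ∈ X ∨ w ∈ ball x₁ a₁ := by
    rintro _ ⟨z, hz, rfl⟩
    by_cases h : z ∈ U
    exacts [Or.inr (HU z h), Or.inl ((Hf z hz h).symm ▸ hz)]
  have fx : ∀ {x : ℂ} {a : ℝ}, (∀ z ∈ X, ‖z - x‖ ≠ a) → (∀ z ∈ ball x₁ a₁, ‖z - x‖ ≠ a) →
      D X (β + 1) ∩ ball x a = {x} →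
      ∃ G : ℂ ≃ₜ ℂ, Supp G (ball x a) ∧ ∀ z ∈ ball x a, (G z ∈ X ↔ z ∈ H '' X) :=
    fun h1 h2 h3 => tame_fix isOpen_ball (convex_ball _ _).isPreconnected (hc.image _) hc
      (compact_inter_ball Yc fun z hz => (Ym z hz).elim (h1 z) (h2 z)) (compact_inter_ball hX h1)
      (ty_of_top (β := β + 1) (by rw [D_inter_open isOpen_ball, DY, h3])
        (by rw [D_inter_open isOpen_ball, h3]))
  obtain ⟨G₁, s₁, e₁⟩ := fx m₁ (fun z hz => by rw [mem_ball, dist_eq_norm] at hz; exact hz.ne) t₁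
  obtain ⟨G₂, s₂, e₂⟩ := fx m₂ (fun z hz => (dj z hz).ne') t₂
  have c₁ : ∀ w ∈ ball x₁ a₁, G₂ (G₁ w) = G₁ w := fun w hw =>
    s₂.fix (dj' _ ((s₁.mem_iff w).2 hw))
  have c₂ : ∀ w, G₂ (G₁ w) ∈ ball x₁ a₁ ↔ w ∈ ball x₁ a₁ := fun w => by
    refine ⟨fun h => ?_, fun h => by rw [c₁ w h]; exact (s₁.mem_iff w).2 h⟩
    rwa [s₂.fix fun h' => dj' _ h ((s₂.mem_iff _).2 h'), s₁.mem_iff] at h
  have pF : Pres (G₂ * G₁ * H) X := fun z => by
    rw [hmul, hmul, ← apply_mem_image (F := H) (A := X) (z := z)]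
    generalize H z = w
    by_cases h1 : w ∈ ball x₁ a₁
    · rw [c₁ w h1, e₁ w h1]
    rw [s₁.fix h1]
    by_cases h2 : w ∈ ball x₂ a₂
    · exact e₂ w h2
    rw [s₂.fix h2]
    exact ⟨fun h => ⟨w, h, Hf w h fun h' => h2 (Ub h')⟩, fun h => (Ym w h).resolve_right h1⟩
  have yU : y ∈ U := D_sub (Ud ▸ mem_singleton y : y ∈ D U β)
  refine ⟨G₂ * G₁ * H, ⟨(s₂.univ.mul s₁.univ).mul sH.univ, pF⟩, fun z hz => ?_, y, y2,
    fun h => dj' y h y1, (c₂ _).2 (HU y yU), fun z hz hne => ?_⟩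
  · have h0 := (pF.D (β + 1) z).2 hz
    rw [hmul, hmul, Hf z (D_sub hz) (tU z hz)] at h0 ⊢
    by_cases h1 : z ∈ ball x₁ a₁
    · exact (t₁.subset ⟨h0, (c₂ z).2 h1⟩).trans (t₁.subset ⟨hz, h1⟩).symm
    rw [s₁.fix h1] at h0 ⊢
    by_cases h2 : z ∈ ball x₂ a₂
    · exact (t₂.subset ⟨h0, (s₂.mem_iff z).2 h2⟩).trans (t₂.subset ⟨hz, h2⟩).symm
    exact s₂.fix h2
  · rw [hmul, hmul, c₂, Hf z (D_sub hz) fun h => hne (Ud.subset (by rw [hU.D_eq]; exact ⟨hz, h⟩))]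

theorem pos_flux (h : Ends E) (hn : 2 ≤ (D E (β + 1)).encard) (hf : (D E (β + 1)).Finite) :
    Pos (HE h) := by
  classical
  obtain ⟨y₀, hy₀⟩ : (D E (β + 1)).Nonempty := one_le_encard_iff_nonempty.1 (one_le_two.trans hn)
  obtain ⟨y, hy⟩ := ((Set.Infinite.of_accPt (mem_D_succ.1 hy₀).1).sdiff hf).nonempty
  obtain ⟨E', m, h', mv, hi⟩ := mv_inf h (D_sub hy.1)
  refine mv.pos h h' ?_
  replace hi : ∞ ∉ D E' (β + 1) := by rw [← hi, mv.D]; exact hy.2
  replace hf : (D E' (β + 1)).Finite := by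
    rw [← encard_lt_top_iff, mv.encard]; exact hf.encard_lt_top
  have := fixD_index h' hf
  rw [← mv.encard] at hn
  obtain ⟨u₁, u₂, k₁, k₂, hne⟩ := one_lt_encard_iff.1 (lt_of_lt_of_le (by norm_num) hn)
  obtain ⟨x₁, rfl⟩ := ne_infty_iff_exists.1 (ne_of_mem_of_not_mem k₁ hi)
  obtain ⟨x₂, rfl⟩ := ne_infty_iff_exists.1 (ne_of_mem_of_not_mem k₂ hi)
  have hd : 0 < dist x₁ x₂ / 2 := half_pos (dist_pos.2 fun e => hne (congrArg _ e))
  have iso : ∀ x : ℂ, (x : OnePoint ℂ) ∈ D E' (β + 1) → ∃ a η : ℝ, 0 < a ∧ 0 < η ∧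
      a ≤ dist x₁ x₂ / 2 ∧ (∀ z ∈ XE E', ‖z - x‖ < a ∨ a + η < ‖z - x‖) ∧
      D (XE E') (β + 1) ∩ ball x a = {x} := fun x hx => by
    obtain ⟨ε, hε, hT⟩ := exists_isol (finite_XE hf) x
    obtain ⟨a, η, h1, h2, h3, h4⟩ := exists_free' h'.xcl h'.xcnt x (lt_min hε hd)
    rw [lt_min_iff] at h3
    exact ⟨a, η, h1, h2, by linarith, h4, eq_singleton_iff_unique_mem.2 ⟨⟨(D_XE _ x).2 hx,
      mem_ball_self h1⟩, fun z hz => hT z hz.1 (ball_subset_ball (by linarith) hz.2)⟩⟩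
  obtain ⟨a, η, a1, a2, a3, a4, a5⟩ := iso x₁ k₁
  obtain ⟨b, θ, b1, b2, b3, b4, b5⟩ := iso x₂ k₂
  obtain ⟨F, Fg, Ft, p, p1, p2, p3, p4⟩ := exists_flux h'.xcl h'.xcnt (by linarith)
    (fun z hz e => by rcases a4 z hz with h | h <;> linarith)
    (fun z hz e => by rcases b4 z hz with h | h <;> linarith) a5 b5
  set U : Set (OnePoint ℂ) := (↑) '' ball x₁ a with hU
  set U' : Set (OnePoint ℂ) := (↑) '' closedBall x₁ a with hU'
  have Uo : IsOpen U := isOpenMap_coe _ isOpen_ball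
  have Uc : IsClosed U' := closed_coe (isCompact_closedBall _ _)
  have UU : U ⊆ U' := image_mono ball_subset_closedBall
  have UE : ∀ y ∈ E', y ∈ U' → y ∈ U := by
    rintro _ hy ⟨z, hz, rfl⟩
    rw [mem_closedBall, dist_eq_norm] at hz
    exact mem_image_of_mem _ (by
      rw [mem_ball, dist_eq_norm]; exact (a4 z hy).resolve_right (by linarith))
  set c : OnePoint ℂ → ℤ := fun y => if y ∈ D E' β ∧ y ∈ U then 1 else 0 with hc
  have cz : ∀ (g : HE h') y, (y ∈ D E' β → (hatG h' g y ∈ U ↔ y ∈ U)) →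
      c (hatG h' g y) - c y = 0 := fun g y hy => by
    have : hatG h' g y ∈ D E' β ↔ y ∈ D E' β := hat_D h' g.1 β y
    simp only [hc, this, and_congr_right hy, sub_self]
  have fs : ∀ g ∈ fixD h' (β + 1), Function.HasFiniteSupport fun y => c (hatG h' g y) - c y := by
    intro g hg
    have cl : IsClosed (D E' β ∩ ((hatG h' g ⁻¹' U' ∩ Uᶜ) ∪ ((hatG h' g ⁻¹' U)ᶜ ∩ U'))) :=
      (D_closed h'.cl).inter (((Uc.preimage (hatG h' g).continuous).inter Uo.isClosed_compl).union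
        ((Uo.preimage (hatG h' g).continuous).isClosed_compl.inter Uc))
    refine Set.Finite.subset (s := D E' β ∩ ((hatG h' g ⁻¹' U' ∩ Uᶜ) ∪ ((hatG h' g ⁻¹' U)ᶜ ∩ U')))
      ?_ fun y hy => ?_
    · by_contra hinf
      obtain ⟨x, hx, hacc⟩ := Set.Infinite.exists_accPt_of_subset_isCompact hinf cl.isCompact
        subset_rfl
      have e := hg x (mem_D_succ.2 ⟨hacc.mono (principal_mono.2 inter_subset_left), hx.1⟩)
      rcases hx.2 with h | h
      · exact h.2 (UE x (D_sub hx.1) (e ▸ h.1))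
      · exact h.1 (by rw [mem_preimage, e]; exact UE x (D_sub hx.1) h.2)
    · by_contra hcon
      refine hy (cz g y fun hy' => ⟨fun h => by_contra fun h2 => hcon ⟨hy', Or.inl ⟨UU h, h2⟩⟩,
        fun h => by_contra fun h2 => hcon ⟨hy', Or.inr ⟨h2, UU h⟩⟩⟩)
  refine pos_of (fixD h' (β + 1)) (fun g => ∑ᶠ y, (c (hatG h' g y) - c y)) (fun a ha b hb => ?_)
    (g₀ := res h' F (gc_le_gp Fg)) (fun y hy => ?_) ?_ ?_
  · rw [← finsum_comp_equiv (hatG h' b).toEquiv (f := fun y => c (hatG h' a y) - c y)]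
    refine Eq.trans (finsum_congr fun y => ?_)
      (finsum_add_distrib ((fs a ha).preimage (hatG h' b).injective.injOn) (fs b hb))
    simp
  · rw [hatG_res]
    induction y using OnePoint.rec with
    | infty => rfl
    | coe z => exact congrArg _ (Ft z ((D_XE _ z).2 hy))
  · rw [finsum_eq_single _ (p : OnePoint ℂ) fun y hy => cz _ y fun hy' => ?_]
    · have e : hatG h' (res h' F (gc_le_gp Fg)) p = F p := hatG_res h' _ _
      rw [e, hc]
      simp only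
      rw [if_pos ⟨(D_XE _ _).1 ((Fg.2.D β p).2 p1), mem_image_of_mem _ p3⟩,
        if_neg fun h => p2 (coe_injective.mem_set_image.1 h.2)]
      norm_num
    · rw [hatG_res]
      induction y using OnePoint.rec with
      | infty => rfl
      | coe z =>
        rw [hU, coe_injective.mem_set_image, ← p4 z ((D_XE _ z).2 hy') fun e => hy (congrArg _ e)]
        exact coe_injective.mem_set_image
  · filter_upwards [fixD_nhds h' hf, near_nhds h' a1 a2 a4] with g g1 g2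
    exact ⟨g1, finsum_eq_zero_of_forall_eq_zero fun y => cz g y fun hy => g2.2 y (D_sub hy)⟩

end

end Pool.Agent.Lib.MP_069d55_gt
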