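import Pool.Agent.Lib.MP_1e9af3_an.Cx

/-! Riemann mapping theorem for bounded simply connected domains. -/

set_option autoImplicit false

namespace Pool.Agent.Lib.MP_069d55_gt

open Set Filter Topology Complex Metric
open Pool.Agent.Lib.MP_1e9af3_an

noncomputable section

/-- The disc automorphism sending `a` to `0`. -/
def mob (a z : ℂ) : ℂ := (z - a) / (1 - (starRingEnd ℂ) a * z)

lemma mob_den_ne {a z : ℂ} (ha : ‖a‖ < 1) (hz : ‖z‖ < 1) : 1 - (starRingEnd ℂ) a * z ≠ 0 := by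
  intro h
  have h1 : (starRingEnd ℂ) a * z = 1 := by linear_combination -h
  have h2 : ‖(starRingEnd ℂ) a * z‖ < 1 := by
    rw [norm_mul, Complex.norm_conj]
    nlinarith [norm_nonneg a, norm_nonneg z]
  rw [h1] at h2; simp at h2

lemma norm_mob_lt {a z : ℂ} (ha : ‖a‖ < 1) (hz : ‖z‖ < 1) : ‖mob a z‖ < 1 := by
  have hd := mob_den_ne ha hz
  rw [mob, norm_div, div_lt_one (norm_pos_iff.2 hd)]
  have h1 : ‖a‖ ^ 2 < 1 := by nlinarith [norm_nonneg a]
  have h2 : ‖z‖ ^ 2 < 1 := by nlinarith [norm_nonneg z]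
  have key : ‖z - a‖ ^ 2 < ‖1 - (starRingEnd ℂ) a * z‖ ^ 2 := by
    rw [Complex.sq_norm, Complex.sq_norm] at *
    simp only [Complex.normSq_apply, Complex.sub_re, Complex.sub_im, Complex.mul_re,
      Complex.mul_im, Complex.conj_re, Complex.conj_im, Complex.one_re, Complex.one_im] at *
    nlinarith [mul_pos (sub_pos.2 h1) (sub_pos.2 h2)]
  exact lt_of_pow_lt_pow_left₀ 2 (norm_nonneg _) key

lemma one_sub_conj_mul (a : ℂ) : 1 - (starRingEnd ℂ) a * a = ((1 - ‖a‖ ^ 2 : ℝ) : ℂ) := by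
  rw [Complex.conj_mul']; push_cast; ring

lemma mob_inj {a z w : ℂ} (ha : ‖a‖ < 1) (hz : ‖z‖ < 1) (hw : ‖w‖ < 1)
    (h : mob a z = mob a w) : z = w := by
  have h1 := mob_den_ne ha hz
  have h2 := mob_den_ne ha hw
  have h3 := mob_den_ne ha ha
  rw [mob, mob, div_eq_div_iff h1 h2] at h
  have : (z - w) * (1 - (starRingEnd ℂ) a * a) = 0 := by linear_combination h
  rcases mul_eq_zero.1 this with h4 | h4
  · exact sub_eq_zero.1 h4
  · exact absurd h4 h3

lemma mob_eq_zero {a z : ℂ} (ha : ‖a‖ < 1) (hz : ‖z‖ < 1) (h : mob a z = 0) : z = a := by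
  rw [mob, div_eq_zero_iff] at h
  rcases h with h | h
  · exact sub_eq_zero.1 h
  · exact absurd h (mob_den_ne ha hz)

lemma hasDerivAt_mob {a z : ℂ} (ha : ‖a‖ < 1) (hz : ‖z‖ < 1) :
    HasDerivAt (mob a) ((1 - (starRingEnd ℂ) a * a) / (1 - (starRingEnd ℂ) a * z) ^ 2) z := by
  have hd := mob_den_ne ha hz
  have h1 : HasDerivAt (fun z : ℂ => z - a) 1 z := (hasDerivAt_id z).sub_const a
  have h2 : HasDerivAt (fun z : ℂ => 1 - (starRingEnd ℂ) a * z) (-((starRingEnd ℂ) a)) z := by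
    simpa using ((hasDerivAt_id z).const_mul ((starRingEnd ℂ) a)).const_sub 1
  have := h1.div h2 hd
  refine (this.congr_deriv ?_)
  congr 1; ring

/-- The competing family. -/
structure Fam (U : Set ℂ) (z₀ : ℂ) (g : ℂ → ℂ) : Prop where
  diff : DifferentiableOn ℂ g U
  inj : InjOn g U
  maps : ∀ z ∈ U, ‖g z‖ < 1
  zero : g z₀ = 0

lemma Fam.improve {U : Set ℂ} (hU : IsOpen U) (hs : IsSimplyConnected U) {z₀ : ℂ} (hz₀ : z₀ ∈ U)
    {g : ℂ → ℂ} (hg : Fam U z₀ g) {w : ℂ} (hw : ‖w‖ < 1) (hn : w ∉ g '' U) :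
    ∃ G, Fam U z₀ G ∧ ‖deriv g z₀‖ < ‖deriv G z₀‖ := by
  have hw0 : w ≠ 0 := fun h => hn ⟨z₀, hz₀, by rw [hg.zero, h]⟩
  set u : ℂ → ℂ := fun z => mob w (g z) with hu
  have hud : ∀ z ∈ U, HasDerivAt u
      ((1 - (starRingEnd ℂ) w * w) / (1 - (starRingEnd ℂ) w * g z) ^ 2 * deriv g z) z :=
    fun z hz => (hasDerivAt_mob hw (hg.maps z hz)).comp z
      (hg.diff.differentiableAt (hU.mem_nhds hz)).hasDerivAt
  have huc : ContinuousOn u U := fun z hz => (hud z hz).continuousAt.continuousWithinAt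
  have hu0 : ∀ z ∈ U, u z ≠ 0 := fun z hz h => hn ⟨z, hz, mob_eq_zero hw (hg.maps z hz) h⟩
  obtain ⟨s, hsc, hs2⟩ := exists_continuousOn_pow_eq hs hU huc
    (by rintro ⟨z, hz, h⟩; exact hu0 z hz h) two_ne_zero
  have hs0 : ∀ z ∈ U, s z ≠ 0 := fun z hz h => hu0 z hz (by rw [← hs2, h]; simp)
  have hs1 : ∀ z ∈ U, ‖s z‖ < 1 := fun z hz => by
    have : ‖s z‖ ^ 2 < 1 := by rw [← norm_pow, hs2]; exact norm_mob_lt hw (hg.maps z hz)
    nlinarith [norm_nonneg (s z)]
  have hsd : ∀ z ∈ U, ∀ d, HasDerivAt u d z → HasDerivAt s (d / (2 * s z)) z := by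
    intro z hz d hd
    have hc : ContinuousAt s z := hsc.continuousAt (hU.mem_nhds hz)
    rw [hasDerivAt_iff_tendsto_slope] at hd ⊢
    have h2 : Tendsto (fun y => s y + s z) (𝓝[≠] z) (𝓝 (2 * s z)) := by
      rw [two_mul]
      exact (hc.tendsto.add_const _).mono_left nhdsWithin_le_nhds
    have hne : 2 * s z ≠ 0 := mul_ne_zero two_ne_zero (hs0 z hz)
    refine (hd.div h2 hne).congr' ?_
    filter_upwards [h2.eventually_ne hne, self_mem_nhdsWithin] with y hy hyz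
    simp only [slope_def_field, Pi.div_apply]
    have hyz' : y - z ≠ 0 := sub_ne_zero.2 hyz
    rw [← hs2 y, ← hs2 z, div_div, div_eq_div_iff (mul_ne_zero hyz' hy) hyz']
    ring
  set s₀ := s z₀ with hs₀
  have hs₀1 := hs1 z₀ hz₀
  refine ⟨fun z => mob s₀ (s z), ⟨fun z hz => ?_, fun z hz y hy h => ?_, fun z hz =>
    norm_mob_lt hs₀1 (hs1 z hz), by simp [mob, hs₀]⟩, ?_⟩
  · exact ((hasDerivAt_mob hs₀1 (hs1 z hz)).comp z
      (hsd z hz _ (hud z hz))).differentiableAt.differentiableWithinAt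
  · have h1 := mob_inj hs₀1 (hs1 z hz) (hs1 y hy) h
    have h2 : u z = u y := by rw [← hs2, ← hs2, h1]
    exact hg.inj hz hy (mob_inj hw (hg.maps z hz) (hg.maps y hy) h2)
  · have hD := ((hasDerivAt_mob hs₀1 hs₀1).comp z₀ (hsd z₀ hz₀ _ (hud z₀ hz₀))).deriv
    have hD' : deriv (fun z => mob s₀ (s z)) z₀ = _ := hD
    rw [hD', hg.zero, one_sub_conj_mul, one_sub_conj_mul]
    have hg' : 0 < ‖deriv g z₀‖ :=
      norm_pos_iff.2 (deriv_ne_zero_of_injOn hU hg.diff hg.inj hz₀)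
    have hsq : ‖s₀‖ ^ 2 = ‖w‖ := by
      rw [← norm_pow, hs₀, hs2]; simp [hu, mob, hg.zero]
    have ht : 0 < ‖s₀‖ := norm_pos_iff.2 (hs0 z₀ hz₀)
    have h1 : 0 < 1 - ‖s₀‖ ^ 2 := by nlinarith
    have h2 : 0 < 1 - ‖w‖ ^ 2 := by nlinarith [norm_nonneg w]
    simp only [mul_zero, sub_zero, one_pow, div_one, norm_mul, norm_div, norm_pow,
      Complex.norm_real, Real.norm_eq_abs, abs_of_pos h1, abs_of_pos h2, Complex.norm_ofNat]
    rw [← hs₀, ← hsq]
    set t := ‖s₀‖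
    have : (1 - t ^ 2) / (1 - t ^ 2) ^ 2 * ((1 - (t ^ 2) ^ 2) * ‖deriv g z₀‖ / (2 * t))
        = (1 + t ^ 2) / (2 * t) * ‖deriv g z₀‖ := by
      field_simp; ring
    rw [abs_of_pos h1, this]
    have h3 : 1 < (1 + t ^ 2) / (2 * t) := by
      rw [one_lt_div (by positivity)]; nlinarith
    nlinarith

lemma hurwitz_inj {ι : Type*} {l : Filter ι} [l.NeBot] {U : Set ℂ} (hU : IsOpen U)
    (hc : IsPreconnected U) {F : ι → ℂ → ℂ} {g : ℂ → ℂ}
    (hF : ∀ i, DifferentiableOn ℂ (F i) U) (hi : ∀ i, InjOn (F i) U)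
    (hl : TendstoLocallyUniformlyOn F g l U) {z₀ : ℂ} (hz₀ : z₀ ∈ U) (h0 : deriv g z₀ ≠ 0) :
    InjOn g U := by
  have hg : DifferentiableOn ℂ g U := hl.differentiableOn (Eventually.of_forall hF) hU
  have hga : AnalyticOnNhd ℂ g U := hg.analyticOnNhd hU
  intro a ha b hb hab
  by_contra hne
  have hna : ¬ ∀ᶠ z in 𝓝 b, g z - g a = 0 := by
    intro h
    have h1 : EqOn (fun z => g z - g a) 0 U :=
      (hga.sub analyticOnNhd_const).eqOn_zero_of_preconnected_of_eventuallyEq_zero hc hb h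
    apply h0
    have : g =ᶠ[𝓝 z₀] fun _ => g a := by
      filter_upwards [hU.mem_nhds hz₀] with z hz using sub_eq_zero.1 (h1 hz)
    rw [this.deriv_eq]; simp
  have h2 := (((hga b hb).sub analyticAt_const (g := fun _ => g a)).eventually_eq_zero_or_eventually_ne_zero).resolve_left hna
  have h3 : ∀ᶠ z in 𝓝 b, z ∈ U ∧ z ≠ a ∧ (z ≠ b → g z - g a ≠ 0) :=
    (show ∀ᶠ z in 𝓝 b, z ∈ U from hU.mem_nhds hb).and ((eventually_ne_nhds (Ne.symm hne)).and (eventually_nhdsWithin_iff.1 h2))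
  obtain ⟨r, hr, hrb⟩ := Metric.nhds_basis_closedBall.eventually_iff.1 h3
  have hsub : closedBall b r ⊆ U := fun z hz => (hrb hz).1
  have hcs : ContinuousOn (fun z => ‖g z - g a‖) (sphere b r) :=
    ((hg.continuousOn.mono (sphere_subset_closedBall.trans hsub)).sub continuousOn_const).norm
  obtain ⟨x, hx, hmin⟩ := (isCompact_sphere b r).exists_isMinOn
    (NormedSpace.sphere_nonempty.2 hr.le) hcs
  set m := ‖g x - g a‖ with hm
  have hm0 : 0 < m := norm_pos_iff.2 ((hrb (sphere_subset_closedBall hx)).2.2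
    (fun h => by rw [h] at hx; simp at hx; exact hr.ne' hx.symm))
  have hu := (tendstoLocallyUniformlyOn_iff_forall_isCompact hU).1 hl _ hsub
    (isCompact_closedBall b r)
  have e1 := Metric.tendstoUniformlyOn_iff.1 hu (m / 4) (by positivity)
  have e2 := (hl.tendsto_at ha).eventually (ball_mem_nhds (g a) (show 0 < m / 4 by positivity))
  obtain ⟨i, hi1, hi2⟩ := (e1.and e2).exists
  have key : ∀ z ∈ closedBall b r, ‖(F i z - F i a) - (g z - g a)‖ < m / 2 := fun z hz => by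
    have a1 := hi1 z hz
    rw [dist_eq_norm] at a1 hi2
    have : (F i z - F i a) - (g z - g a) = -(g z - F i z) - (F i a - g a) := by ring
    rw [this]
    calc _ ≤ ‖-(g z - F i z)‖ + ‖F i a - g a‖ := norm_sub_le _ _
      _ < m / 2 := by rw [norm_neg]; linarith
  obtain ⟨z, hz, hz0⟩ := exists_zero_of_min (f := fun z => F i z - F i a) (c := b) (m := m / 2) hr
    (DifferentiableOn.diffContOnCl (by
      rw [closure_ball b hr.ne']
      exact ((hF i).mono hsub).sub_const _))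
    (fun z hz => by
      have a1 := key z (sphere_subset_closedBall hz)
      have a2 : m ≤ ‖g z - g a‖ := hmin hz
      have a3 := norm_sub_norm_le (g z - g a) (F i z - F i a)
      rw [norm_sub_rev] at a1
      linarith)
    (by simpa [hab] using key b (mem_closedBall_self hr.le))
  have hz' := ball_subset_closedBall hz
  exact (hrb hz').2.1 (hi i (hsub hz') ha (sub_eq_zero.1 hz0))

/-- Riemann mapping theorem for a bounded simply connected open set. -/
theorem riemann {U : Set ℂ} (hU : IsOpen U) (hs : IsSimplyConnected U)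
    (hb : Bornology.IsBounded U) {z₀ : ℂ} (hz₀ : z₀ ∈ U) :
    ∃ g : ℂ → ℂ, DifferentiableOn ℂ g U ∧ InjOn g U ∧ g '' U = ball 0 1 ∧ g z₀ = 0 := by
  have hc : IsPreconnected U := hs.isPathConnected.isConnected.isPreconnected
  obtain ⟨R, hR0, hR⟩ : ∃ R, 0 < R ∧ U ⊆ ball z₀ R := by
    obtain ⟨R, hR⟩ := hb.subset_ball z₀
    exact ⟨R, pos_of_mem_ball (hR hz₀), hR⟩
  obtain ⟨r, hr0, hr⟩ := Metric.isOpen_iff.1 hU z₀ hz₀
  have hR' : (R : ℂ) ≠ 0 := by exact_mod_cast hR0.ne'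
  have f0 : Fam U z₀ fun z => (z - z₀) / R :=
    ⟨by fun_prop, fun z _ w _ h => by simpa [div_left_inj' hR'] using h, fun z hz => by
      have := hR hz
      rw [mem_ball, dist_eq_norm] at this
      rw [norm_div, Complex.norm_real, Real.norm_of_nonneg hR0.le, div_lt_one hR0]; exact this,
      by simp⟩
  set D : Set ℝ := {x | ∃ g, Fam U z₀ g ∧ ‖deriv g z₀‖ = x} with hD
  have hne : D.Nonempty := ⟨_, _, f0, rfl⟩
  have hbd : BddAbove D := ⟨2 * 1 / r, by
    rintro _ ⟨g, hg, rfl⟩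
    exact deriv_le_of_bdd hr0 (hg.diff.mono hr) fun z hz => (hg.maps z (hr hz)).le⟩
  obtain ⟨x, -, hx, hxD⟩ := exists_seq_tendsto_sSup hne hbd
  choose F hF hFx using hxD
  obtain ⟨g, hgd, hgl, hgt⟩ := montel (hyperfilter ℕ) hU (fun i => (hF i).diff)
    (fun i z hz => ((hF i).maps z hz).le)
  have hder : ‖deriv g z₀‖ = sSup D := by
    have h1 := ((hgl.deriv (Eventually.of_forall fun i => (hF i).diff) hU).tendsto_at hz₀).norm
    have h2 : Tendsto (fun i => ‖deriv (F i) z₀‖) (hyperfilter ℕ) (𝓝 (sSup D)) := by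
      simp only [hFx]
      exact hx.mono_left (hyperfilter_le_cofinite.trans Nat.cofinite_eq_atTop.le)
    exact tendsto_nhds_unique h1 h2
  have hpos : deriv g z₀ ≠ 0 := by
    rw [← norm_pos_iff, hder]
    exact (norm_pos_iff.2 (deriv_ne_zero_of_injOn hU f0.diff f0.inj hz₀)).trans_le
      (le_csSup hbd ⟨_, f0, rfl⟩)
  have hgi : InjOn g U := hurwitz_inj hU hc (fun i => (hF i).diff) (fun i => (hF i).inj) hgl hz₀ hpos
  have hg1 : g '' U ⊆ closedBall 0 1 := by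
    rintro _ ⟨z, hz, rfl⟩
    rw [mem_closedBall_zero_iff]
    exact le_of_tendsto' (hgt z hz).norm fun i => ((hF i).maps z hz).le
  have hg2 : g '' U ⊆ ball 0 1 := by
    rw [← interior_closedBall (0:ℂ) one_ne_zero]
    exact interior_maximal hg1 (isOpen_image_of_injOn hU hgd hgi hU Subset.rfl)
  have hg0 : g z₀ = 0 := by
    have := hgt z₀ hz₀
    simp only [(hF _).zero] at this
    exact tendsto_nhds_unique this tendsto_const_nhds
  have hG : Fam U z₀ g := ⟨hgd, hgi, fun z hz => mem_ball_zero_iff.1 (hg2 ⟨z, hz, rfl⟩), hg0⟩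
  refine ⟨g, hgd, hgi, hg2.antisymm fun w hw => ?_, hg0⟩
  by_contra hn
  obtain ⟨G, hG1, hG2⟩ := hG.improve hU hs hz₀ (mem_ball_zero_iff.1 hw) hn
  rw [hder] at hG2
  exact absurd (le_csSup hbd ⟨G, hG1, rfl⟩) (not_le.2 hG2)

end

end Pool.Agent.Lib.MP_069d55_gt
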