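import Pool.Agent.Lib.MP_069d55_gt.Kill0

/-! Transport of the model to a slit disc. -/

namespace Pool.Agent.Lib.MP_069d55_gt

open Set Filter Topology Metric Pool.Agent.Lib.MP_1e9af3_an

noncomputable section

variable {X : Set ℂ} {α : Ordinal.{0}} {c : ℂ → ℂ} {a b e : ℂ ≃ₜ ℂ}
variable {W : Type*} {φ : (ℂ ≃ₜ ℂ) → Equiv.Perm W} {v : W}

lemma continuousAt_invFun (hc : IsOpenEmbedding c) (z : ℂ) :
    ContinuousAt (Function.invFun c) (c z) := by
  rw [ContinuousAt, ← hc.map_nhds_eq, tendsto_map'_iff,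
    Function.invFun_comp hc.injective, Function.leftInverse_invFun hc.injective z]
  exact tendsto_id

lemma exists_ext_fun (hc : IsOpenEmbedding c) (ha : Supp a univ) : ∃ f : ℂ → ℂ, Continuous f ∧
    (∀ z, f (c z) = c (a z)) ∧ ∀ w, w ∉ range c → f w = w := by
  obtain ⟨K, hK, -, hKa⟩ := ha
  have h1 : ∀ z, Function.extend c (c ∘ a) id (c z) = c (a z) := fun z =>
    hc.injective.extend_apply _ _ z
  have h2 : ∀ w, w ∉ range c → Function.extend c (c ∘ a) id w = w := fun w hw =>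
    Function.extend_apply' _ _ _ hw
  refine ⟨_, continuous_iff_continuousAt.2 fun w => ?_, h1, h2⟩
  by_cases hw : w ∈ range c
  · obtain ⟨z, rfl⟩ := hw
    rw [ContinuousAt, ← hc.map_nhds_eq z, tendsto_map'_iff, h1]
    refine Tendsto.congr (fun z => (h1 z).symm) ?_
    exact (hc.continuous.comp a.continuous).tendsto z
  · refine continuousAt_id.congr ?_
    filter_upwards [(hK.image hc.continuous).isClosed.isOpen_compl.mem_nhds
      fun h => hw (image_subset_range _ _ h)] with u hu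
    by_cases hu' : u ∈ range c
    · obtain ⟨z, rfl⟩ := hu'
      rw [h1, hKa z fun h => hu (mem_image_of_mem _ h)]; rfl
    · exact (h2 u hu').symm

lemma exists_ext (hc : IsOpenEmbedding c) (ha : Supp a univ) : ∃ A : ℂ ≃ₜ ℂ,
    (∀ z, A (c z) = c (a z)) ∧ ∀ w, w ∉ range c → A w = w := by
  obtain ⟨f, fc, f1, f2⟩ := exists_ext_fun hc ha
  obtain ⟨g, gc, g1, g2⟩ := exists_ext_fun hc ha.inv
  refine ⟨⟨⟨f, g, fun w => ?_, fun w => ?_⟩, fc, gc⟩, f1, f2⟩
  · by_cases hw : w ∈ range c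
    · obtain ⟨z, rfl⟩ := hw; rw [f1, g1, hinv_apply]
    · rw [f2 w hw, g2 w hw]
  · by_cases hw : w ∈ range c
    · obtain ⟨z, rfl⟩ := hw; rw [g1, f1, happly_inv]
    · rw [g2 w hw, f2 w hw]

open Classical in
/-- extension by the identity along the chart `c` -/
def ext (hc : IsOpenEmbedding c) (a : ℂ ≃ₜ ℂ) : ℂ ≃ₜ ℂ :=
  if h : Supp a univ then (exists_ext hc h).choose else 1

lemma ext_in (hc : IsOpenEmbedding c) (ha : Supp a univ) (z : ℂ) : ext hc a (c z) = c (a z) := by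
  rw [ext, dif_pos ha]; exact (exists_ext hc ha).choose_spec.1 z

lemma ext_out (hc : IsOpenEmbedding c) (ha : Supp a univ) {w : ℂ} (hw : w ∉ range c) :
    ext hc a w = w := by
  rw [ext, dif_pos ha]; exact (exists_ext hc ha).choose_spec.2 w hw

lemma ext_mul (hc : IsOpenEmbedding c) (ha : Supp a univ) (hb : Supp b univ) :
    ext hc (a * b) = ext hc a * ext hc b := by
  ext1 w
  by_cases hw : w ∈ range c
  · obtain ⟨z, rfl⟩ := hw
    rw [hmul, ext_in hc (ha.mul hb), ext_in hc hb, ext_in hc ha, hmul]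
  · rw [hmul, ext_out hc (ha.mul hb) hw, ext_out hc hb hw, ext_out hc ha hw]

lemma ext_supp (hc : IsOpenEmbedding c) {O : Set ℂ} (ha : Supp a O) : Supp (ext hc a) (c '' O) := by
  obtain ⟨K, hK, hKO, hKa⟩ := id ha
  refine ⟨c '' K, hK.image hc.continuous, image_mono hKO, fun w hw => ?_⟩
  by_cases hw' : w ∈ range c
  · obtain ⟨z, rfl⟩ := hw'
    rw [ext_in hc ha.univ, hKa z fun h => hw (mem_image_of_mem _ h)]
  · exact ext_out hc ha.univ hw'

lemma ext_gc (hc : IsOpenEmbedding c) (ha : a ∈ gc (c ⁻¹' X)) : ext hc a ∈ gc X := by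
  refine mem_gc (ext_supp hc ha.1) fun w => ?_
  by_cases hw : w ∈ range c
  · obtain ⟨z, rfl⟩ := hw
    rw [ext_in hc ha.1]; exact ha.2 z
  · rw [ext_out hc ha.1 hw]

lemma ext_surj (hc : IsOpenEmbedding c) (he : Supp e (range c)) (hp : Pres e X) :
    ∃ a ∈ gc (c ⁻¹' X), ext hc a = e := by
  have key : ∀ e : ℂ ≃ₜ ℂ, Supp e (range c) → ∃ f : ℂ → ℂ, Continuous f ∧ ∀ z, c (f z) = e (c z) := by
    intro e he
    have h1 : ∀ z, e (c z) ∈ range c := fun z => (he.mem_iff _).2 (mem_range_self z)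
    refine ⟨fun z => Function.invFun c (e (c z)), continuous_iff_continuousAt.2 fun z => ?_,
      fun z => Function.invFun_eq (h1 z)⟩
    obtain ⟨u, hu⟩ := h1 z
    exact ContinuousAt.comp (f := fun z => e (c z)) (hu ▸ continuousAt_invFun hc u)
      (e.continuous.comp hc.continuous).continuousAt
  obtain ⟨f, fc, f1⟩ := key e he
  obtain ⟨g, gc, g1⟩ := key e⁻¹ he.inv
  set a : ℂ ≃ₜ ℂ := ⟨⟨f, g, fun z => hc.injective (by rw [g1, f1, hinv_apply]),
    fun z => hc.injective (by rw [f1, g1, happly_inv])⟩, fc, gc⟩ with ha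
  have a1 : ∀ z, c (a z) = e (c z) := f1
  have sa : Supp a univ := by
    obtain ⟨K, hK, hKc, hKe⟩ := he
    exact ⟨c ⁻¹' K, hc.isInducing.isCompact_preimage' hK hKc, subset_univ _,
      fun z hz => hc.injective (by rw [a1, hKe _ hz])⟩
  refine ⟨a, ⟨sa, fun z => by rw [mem_preimage, a1]; exact hp _⟩, ?_⟩
  ext1 w
  by_cases hw : w ∈ range c
  · obtain ⟨z, rfl⟩ := hw
    rw [ext_in hc sa, a1]
  · rw [ext_out hc sa hw, he.fix hw]

lemma exists_chart {Ω : Set ℂ} (hΩ : IsOpen Ω) (hb : Bornology.IsBounded Ω) {q x : ℂ}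
    (hs : StarConvex ℝ q Ω) (hx : x ∈ Ω) :
    ∃ c : ℂ → ℂ, IsOpenEmbedding c ∧ range c = Ω ∧ c 0 = x := by
  have hsc : IsSimplyConnected Ω := by
    have := hs.contractibleSpace ⟨x, hx⟩
    exact SimplyConnectedSpace.ofContractible _
  obtain ⟨G, Gd, Gi, Gim, G0⟩ := riemann hΩ hsc hb hx
  set ψ := Function.invFunOn G Ω with hψ
  have ψG : ∀ w ∈ Ω, ψ (G w) = w := fun w hw => Gi.leftInvOn_invFunOn hw
  have hex : ∀ z ∈ ball (0 : ℂ) 1, ∃ w ∈ Ω, G w = z := fun z hz => by rwa [← Gim] at hz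
  have Gψ : ∀ z ∈ ball (0 : ℂ) 1, G (ψ z) = z := fun z hz => Function.invFunOn_eq (hex z hz)
  have ψm : ∀ z ∈ ball (0 : ℂ) 1, ψ z ∈ Ω := fun z hz => Function.invFunOn_mem (hex z hz)
  have ψd : DifferentiableOn ℂ ψ (ball 0 1) := fun z hz => by
    obtain ⟨w, hw, rfl⟩ := hex z hz
    exact (inv_analyticAt hΩ Gd Gi ψG hw).differentiableAt.differentiableWithinAt
  have ψi : InjOn ψ (ball 0 1) := fun z hz z' hz' h => by rw [← Gψ z hz, h, Gψ z' hz']
  set u := OpenPartialHomeomorph.univBall (0 : ℂ) 1 with hu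
  have us : u.source = univ := OpenPartialHomeomorph.univBall_source _ _
  have ut : u.target = ball 0 1 := OpenPartialHomeomorph.univBall_target _ one_pos
  have uo : IsOpenEmbedding u := u.isOpenEmbedding us
  have um : ∀ z, u z ∈ ball (0 : ℂ) 1 := fun z => ut ▸ u.map_source (us ▸ mem_univ z)
  refine ⟨ψ ∘ u, .of_continuous_injective_isOpenMap
    (ψd.continuousOn.comp_continuous uo.continuous um)
    (fun z z' h => uo.injective (ψi (um z) (um z') h)) fun V hV => ?_, ?_, ?_⟩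
  · rw [image_comp]
    exact isOpen_image_of_injOn isOpen_ball ψd ψi (uo.isOpenMap V hV)
      (by rintro _ ⟨z, -, rfl⟩; exact um z)
  · refine subset_antisymm (by rintro _ ⟨z, rfl⟩; exact ψm _ (um z)) fun w hw => ?_
    have : G w ∈ u.target := ut ▸ Gim ▸ mem_image_of_mem G hw
    exact ⟨u.symm (G w), by rw [Function.comp_apply, u.right_inv this, ψG w hw]⟩
  · rw [Function.comp_apply, hu, OpenPartialHomeomorph.univBall_apply_zero, ← G0, ψG x hx]

/-- closed ray from `y` in direction `u` -/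
def ray (y u : ℂ) : Set ℂ := {w | 0 ≤ ((w - y) / u).re ∧ ((w - y) / u).im = 0}

lemma isClosed_ray (y u : ℂ) : IsClosed (ray y u) :=
  IsClosed.and (isClosed_le continuous_const (by fun_prop))
    (isClosed_eq (f := fun w : ℂ => ((w - y) / u).im) (by fun_prop) continuous_const)

lemma star_slit {C : Set ℂ} (hC : Convex ℝ C) {y u : ℂ} (hu : u ≠ 0) {t : ℝ} (ht : 0 < t)
    (hq : y - t * u ∈ C) : StarConvex ℝ (y - t * u) (C \ ray y u) := by
  intro z hz p q hp hq' hpq
  refine ⟨hC hq hz.1 hp hq' hpq, fun h => hz.2 ?_⟩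
  have e : (p • (y - t * u) + q • z - y) / u = -(p * t : ℝ) + (q : ℝ) * ((z - y) / u) := by
    have : (p : ℂ) = 1 - q := by rw [← Complex.ofReal_one, ← hpq]; push_cast; ring
    simp only [Complex.real_smul]; push_cast; rw [this]; field_simp; ring
  obtain ⟨h1, h2⟩ := h
  rw [e] at h1 h2
  simp only [Complex.add_re, Complex.neg_re, Complex.ofReal_re, Complex.re_ofReal_mul,
    Complex.add_im, Complex.neg_im, Complex.ofReal_im, neg_zero, Complex.im_ofReal_mul, zero_add,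
    mul_eq_zero] at h1 h2
  have hq0 : 0 < q := by
    rcases hq'.eq_or_lt with h | h
    · rw [← h] at h1 hpq; nlinarith
    · exact h
  exact ⟨by nlinarith [mul_nonneg hp ht.le], h2.resolve_left hq0.ne'⟩

lemma exists_star {C : Set ℂ} (hC : Convex ℝ C) (ho : IsOpen C) {y u : ℂ} (hu : u ≠ 0)
    (hy : y ∈ C) : ∃ q ∈ C \ ray y u, StarConvex ℝ q (C \ ray y u) := by
  have h : ∀ᶠ t : ℝ in 𝓝 0, y - t * u ∈ C :=
    (show Continuous fun t : ℝ => y - t * u by fun_prop).continuousAt.eventually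
      (ho.mem_nhds (by simpa using hy))
  obtain ⟨t, h1, h2⟩ := ((h.filter_mono nhdsWithin_le_nhds).and
    (self_mem_nhdsWithin (s := Ioi 0))).exists
  refine ⟨_, ⟨h1, fun h => ?_⟩, star_slit hC hu h2 h1⟩
  have := h.1
  rw [show (y - t * u - y) / u = -(t : ℂ) by field_simp; ring] at this
  simp at this; exact absurd h2 (not_lt.2 this)

lemma exists_ray {T : Set ℂ} (hT : T.Countable) (y : ℂ) {σ : ℝ} (hσ : σ ≠ 0) :
    ∃ u : ℂ, u ≠ 0 ∧ (∀ w ∈ ray y u, w ∈ T → w = y) ∧ ∀ w ∈ ray y u, 0 ≤ σ * (w - y).re := by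
  obtain ⟨s, hs⟩ := ((hT.image fun z => σ * (z - y).im / (z - y).re).dense_compl ℝ).nonempty
  have hu : ((σ : ℂ) + s * Complex.I) ≠ 0 := fun h => hσ (by simpa using congrArg Complex.re h)
  have key : ∀ w ∈ ray y (σ + s * Complex.I), ∃ t : ℝ, 0 ≤ t ∧ (w - y).re = t * σ ∧
      (w - y).im = t * s := fun w hw => by
    refine ⟨_, hw.1, ?_⟩
    have e : w - y = ((w - y) / (σ + s * Complex.I)).re * (σ + s * Complex.I) := by
      conv_lhs => rw [← div_mul_cancel₀ (w - y) hu, ← Complex.re_add_im ((w - y) / _), hw.2]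
      simp
    constructor
    · conv_lhs => rw [e]
      simp
    · conv_lhs => rw [e]
      simp
  refine ⟨_, hu, fun w hw hwT => ?_, fun w hw => ?_⟩
  · obtain ⟨t, h0, h1, h2⟩ := key w hw
    by_cases ht : t = 0
    · rw [ht, zero_mul] at h1 h2
      exact sub_eq_zero.1 (Complex.ext h1 h2)
    · exact absurd ⟨w, hwT, by simp only [h1, h2]; field_simp⟩ hs
  · obtain ⟨t, h0, h1, -⟩ := key w hw
    rw [h1]; nlinarith [mul_self_nonneg σ]

theorem kill_slit (hX : IsClosed X) (hc : X.Countable) (hα : NS α) {x y u : ℂ}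
    (ht : D X α = {x, y}) (hu : u ≠ 0) (hr : ∀ w ∈ ray y u, w ∈ X → w = y) (hx : x ∉ ray y u)
    (h : Act (gp X) φ) (ho : Opn X φ) (he : Supp e (ray y u)ᶜ) (hp : Pres e X) (v : W) :
    φ e v = v := by
  obtain ⟨R, hR, se⟩ := he.exists_ball y (dist x y)
  have hR0 : 0 < R := dist_nonneg.trans_lt hR
  obtain ⟨q, -, hq⟩ := exists_star (convex_ball y R) isOpen_ball hu (mem_ball_self hR0)
  obtain ⟨c, hco, hcr, hc0⟩ := exists_chart (isOpen_ball.sdiff (isClosed_ray y u))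
    (isBounded_ball.subset sdiff_subset) hq (x := x) ⟨hR, hx⟩
  have hy : y ∈ ray y u := by simp [ray]
  have hyc : y ∉ range c := fun h => (hcr ▸ h).2 hy
  have M : Model (c ⁻¹' X) α := by
    refine ⟨hX.preimage hco.continuous, hc.preimage hco.injective, ?_, hα,
      fun R' β hβ K hK hKR => ?_⟩
    · rw [D_preimage hco, ht]
      ext z
      simp only [mem_preimage, mem_insert_iff, mem_singleton_iff]
      exact ⟨fun h => h.elim (fun h => hco.injective (h.trans hc0.symm))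
        fun h => absurd ⟨z, h⟩ hyc, fun h => Or.inl (h ▸ hc0)⟩
    · have hK' := ((isCompact_closedBall (0 : ℂ) R').union hK).image hco.continuous
      obtain ⟨w, ⟨⟨h1, h2⟩, h3⟩, -, h4⟩ := rich_punct (X := X) (γ := α) (x := y) (by simp [ht]) (inter_mem
        (ball_mem_nhds y hR0) (hK'.isClosed.isOpen_compl.mem_nhds fun h =>
          hyc (image_subset_range _ _ h))) β hβ ∅ isCompact_empty (empty_subset _)
      obtain ⟨z, rfl⟩ : w ∈ range c := hcr ▸ ⟨h1, fun h => h3 (hr w h (D_sub h4))⟩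
      refine ⟨z, ?_, fun h => h2 (mem_image_of_mem _ (Or.inr h)), by rwa [D_preimage hco]⟩
      exact not_le.1 fun h => h2 (mem_image_of_mem _ (Or.inl (mem_closedBall_zero_iff.2 h)))
  obtain ⟨a, ha, rfl⟩ := ext_surj hco (se.mono fun z hz => hcr ▸ ⟨hz.2, hz.1⟩) hp
  refine M.kill (φ := fun a => φ (ext hco a)) ⟨fun a ha b hb => ?_, fun v w => ?_⟩
    (fun v => ?_) ha v
  · rw [ext_mul hco ha.1 hb.1, h.mul _ (gc_le_gp (ext_gc hco ha)) _ (gc_le_gp (ext_gc hco hb))]
  · exact (h.lf v w).subset fun _ ⟨a, ha, e⟩ => ⟨_, gc_le_gp (ext_gc hco ha), e⟩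
  · obtain ⟨K, h1, h2, h3⟩ := ho.fix v
    obtain ⟨ε, hε, hb⟩ := Metric.isOpen_iff.1
      (h1.isClosed.isOpen_compl.preimage hco.continuous) 0 fun h =>
        disjoint_left.1 h2 (hc0 ▸ h) (D_sub (ht ▸ Or.inl rfl : x ∈ D X α))
    refine ⟨ε, hε, fun a ha sa => h3 _ (gc_le_gp (ext_gc hco ha)) fun z hz =>
      (ext_supp hco sa).fix ?_⟩
    rintro ⟨w, hw, rfl⟩
    exact hb hw hz

end

end Pool.Agent.Lib.MP_069d55_gt
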