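import Pool.Agent.Lib.MP_069d55_gt.CB

/-! Compact countable subsets of a plane domain with the same type are ambiently equivalent. -/

namespace Pool.Agent.Lib.MP_069d55_gt

open Set Filter Topology Metric

noncomputable section

variable {Ω A B C R O : Set ℂ} {δ : Ordinal.{0}} {x : ℂ}

def Amb (Ω A B : Set ℂ) : Prop := ∃ H : ℂ ≃ₜ ℂ, Supp H Ω ∧ H '' A = B

lemma Amb.refl (Ω A : Set ℂ) : Amb Ω A A := ⟨1, Supp.one _, image_hone _⟩
lemma Amb.symm (h : Amb Ω A B) : Amb Ω B A :=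
  let ⟨H, h1, h2⟩ := h; ⟨H⁻¹, h1.inv, image_hinv h2⟩
lemma Amb.trans (h : Amb Ω A B) (h' : Amb Ω B C) : Amb Ω A C :=
  let ⟨H, h1, h2⟩ := h; let ⟨G, h3, h4⟩ := h'; ⟨G * H, h3.mul h1, by rw [image_hmul, h2, h4]⟩
lemma Amb.mono (h : Amb Ω A B) (hs : Ω ⊆ O) : Amb O A B :=
  let ⟨H, h1, h2⟩ := h; ⟨H, h1.mono hs, h2⟩
lemma Amb.union (h : Amb (Ω \ R) A B) : Amb Ω (R ∪ A) (R ∪ B) :=
  let ⟨H, h1, h2⟩ := h
  ⟨H, h1.mono sdiff_subset, by rw [image_union, h2, h1.image_of_disjoint fun _ hz h => h.2 hz]⟩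

structure CC (Ω A : Set ℂ) : Prop where
  cpt : IsCompact A
  cnt : A.Countable
  sub : A ⊆ Ω

lemma CC.mono (h : CC Ω A) (hs : A ⊆ O) : CC O A := ⟨h.cpt, h.cnt, hs⟩
lemma CC.cl (h : CC Ω A) : IsClosed A := h.cpt.isClosed
lemma CC.union (h : CC Ω A) (h' : CC Ω B) : CC Ω (A ∪ B) :=
  ⟨h.cpt.union h'.cpt, h.cnt.union h'.cnt, union_subset h.sub h'.sub⟩
lemma CC.of_closed (h : CC Ω A) (hB : IsClosed B) (hs : B ⊆ A) : CC Ω B :=
  ⟨h.cpt.of_isClosed_subset hB hs, h.cnt.mono hs, hs.trans h.sub⟩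
lemma CC.image (h : CC Ω A) {H : ℂ ≃ₜ ℂ} (hH : Supp H Ω) : CC Ω (H '' A) :=
  ⟨h.cpt.image H.continuous, h.cnt.image _, hH.image_eq ▸ image_mono h.sub⟩

lemma nonempty_diff (hO : IsOpen O) (hne : O.Nonempty) (hR : R.Countable) : (O \ R).Nonempty :=
  (hR.dense_compl ℝ).inter_open_nonempty _ hO hne

lemma exists_copy (hO : IsOpen O) (hne : O.Nonempty) (hA : IsCompact A) (hc : A.Countable) :
    ∃ A', CC O A' ∧ Ty A' A := by
  obtain ⟨p, hp⟩ := hne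
  obtain ⟨ε, hε, hb⟩ := Metric.isOpen_iff.1 hO p hp
  obtain ⟨r, hr, hAr⟩ := hA.isBounded.subset_ball_lt 0 0
  have h0 : ((ε / r : ℝ) : ℂ) ≠ 0 := by exact_mod_cast (div_pos hε hr).ne'
  set F : ℂ ≃ₜ ℂ := (Homeomorph.mulLeft₀ _ h0).trans (Homeomorph.addLeft p) with hF
  refine ⟨F '' A, ⟨hA.image F.continuous, hc.image _, ?_⟩, ty_image F A⟩
  rintro _ ⟨z, hz, rfl⟩
  apply hb
  have := mem_ball_zero_iff.1 (hAr hz)
  change p + ((ε / r : ℝ) : ℂ) * z ∈ _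
  rw [mem_ball, dist_eq_norm, add_sub_cancel_left, norm_mul, Complex.norm_real,
    Real.norm_of_nonneg (div_pos hε hr).le, div_mul_eq_mul_div, div_lt_iff₀ hr]
  gcongr

/-- open round annulus -/
def ann (x : ℂ) (a b : ℝ) : Set ℂ := {z | ‖z - x‖ ∈ Ioo a b}

lemma mem_ann {x z : ℂ} {a b : ℝ} : z ∈ ann x a b ↔ a < ‖z - x‖ ∧ ‖z - x‖ < b := Iff.rfl

lemma isOpen_ann (x : ℂ) (a b : ℝ) : IsOpen (ann x a b) :=
  isOpen_Ioo.preimage (f := fun z : ℂ => ‖z - x‖) (by fun_prop)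

lemma preconn_ann' (x : ℂ) {a : ℝ} (ha : 0 ≤ a) (b : ℝ) : IsPreconnected (ann x a b) :=
  preconn_ann x isPreconnected_Ioo fun _ h => ha.trans h.1.le

lemma ann_nonempty (x : ℂ) {a b : ℝ} (ha : 0 ≤ a) (hab : a < b) : (ann x a b).Nonempty :=
  ⟨x + ((a + b) / 2 : ℝ), by
    rw [mem_ann, add_sub_cancel_left, Complex.norm_real, Real.norm_of_nonneg (by linarith)]
    constructor <;> linarith⟩

lemma compact_inter_ann {X : Set ℂ} (hX : IsClosed X) {a b : ℝ} (ha : ∀ z ∈ X, ‖z - x‖ ≠ a)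
    (hb : ∀ z ∈ X, ‖z - x‖ ≠ b) : IsCompact (X ∩ ann x a b) := by
  have : X ∩ ann x a b = (X ∩ ball x b) \ ball x a := by
    ext z; simp only [mem_inter_iff, mem_ball, dist_eq_norm, mem_ann, Set.mem_sdiff, not_lt]
    exact ⟨fun h => ⟨⟨h.1, h.2.2⟩, h.2.1.le⟩,
      fun h => ⟨h.1.1, lt_of_le_of_ne h.2 (ha z h.1.1).symm, h.1.2⟩⟩
  rw [this]; exact (compact_inter_ball hX hb).diff isOpen_ball

lemma exists_glue {s : ℕ → ℝ} (hs : StrictAnti s) (h0 : Tendsto s atTop (𝓝 0))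
    {G : ℕ → ℂ ≃ₜ ℂ} (hG : ∀ j, Supp (G j) (ann x (s (j + 1)) (s j))) :
    ∃ f : ℂ → ℂ, Continuous f ∧ (∀ j, ∀ z ∈ ann x (s (j + 1)) (s j), f z = G j z) ∧
      ∀ z, (∀ j, z ∉ ann x (s (j + 1)) (s j)) → f z = z := by
  classical
  have hpos : ∀ j, 0 < s j := fun j =>
    lt_of_le_of_lt (hs.antitone.le_of_tendsto h0 (j + 1)) (hs (Nat.lt_succ_self j))
  set f : ℂ → ℂ := fun z => if h : ∃ j, z ∈ ann x (s (j + 1)) (s j) then G h.choose z else z
    with hf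
  have f1 : ∀ j, ∀ z ∈ ann x (s (j + 1)) (s j), f z = G j z := fun j z hz => by
    have h : ∃ j, z ∈ ann x (s (j + 1)) (s j) := ⟨j, hz⟩
    have e1 := hs.lt_iff_gt.1 (h.choose_spec.1.trans hz.2)
    have e2 := hs.lt_iff_gt.1 (hz.1.trans h.choose_spec.2)
    simp only [hf, dif_pos h]
    rw [show h.choose = j by omega]
  have f2 : ∀ z, (∀ j, z ∉ ann x (s (j + 1)) (s j)) → f z = z := fun z hz => by
    simp only [hf, dif_neg (not_exists.2 hz)]
  refine ⟨f, continuous_iff_continuousAt.2 fun z => ?_, f1, f2⟩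
  by_cases hz : ∃ j, z ∈ ann x (s (j + 1)) (s j)
  · obtain ⟨j, hj⟩ := hz
    refine (G j).continuous.continuousAt.congr ?_
    filter_upwards [(isOpen_ann _ _ _).mem_nhds hj] with w hw using (f1 j w hw).symm
  push Not at hz
  by_cases hzx : z = x
  · subst hzx
    rw [Metric.continuousAt_iff, f2 z hz]
    intro ε hε
    obtain ⟨k, hk⟩ := (h0.eventually (gt_mem_nhds hε)).exists
    refine ⟨s (k + 1), hpos _, fun w hw => ?_⟩
    rw [dist_eq_norm] at hw ⊢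
    by_cases hw' : ∃ j, w ∈ ann z (s (j + 1)) (s j)
    · obtain ⟨j, hj⟩ := hw'
      have e1 := hs.lt_iff_gt.1 (hj.1.trans hw)
      rw [f1 j w hj]
      exact (((hG j).mem_iff w).2 hj).2.trans ((hs (by omega)).trans hk)
    · rw [f2 w (not_exists.1 hw')]
      exact hw.trans ((hs (Nat.lt_succ_self k)).trans hk)
  · choose K hK using hG
    obtain ⟨k, hk⟩ := (h0.eventually (gt_mem_nhds (norm_pos_iff.2 (sub_ne_zero.2 hzx)))).exists
    refine continuousAt_id.congr ?_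
    have e1 : ∀ᶠ w in 𝓝 z, ∀ j ∈ Finset.range k, w ∉ K j :=
      (eventually_all_finset _).2 fun j _ =>
        (hK j).1.isClosed.isOpen_compl.mem_nhds fun h => hz j ((hK j).2.1 h)
    have e2 : ∀ᶠ w in 𝓝 z, s k < ‖w - x‖ :=
      continuousAt_const.eventually_lt (by fun_prop) hk
    filter_upwards [e1, e2] with w h1 h2
    by_cases hw' : ∃ j, w ∈ ann x (s (j + 1)) (s j)
    · obtain ⟨j, hj⟩ := hw'
      rw [f1 j w hj, (hK j).2.2 w (h1 j (Finset.mem_range.2 (hs.lt_iff_gt.1 (h2.trans hj.2))))]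
      rfl
    · exact (f2 w (not_exists.1 hw')).symm

lemma amb_glue {s : ℕ → ℝ} (hs : StrictAnti s) (h0 : Tendsto s atTop (𝓝 0))
    (h : ∀ j, Amb (ann x (s (j + 1)) (s j)) (A ∩ ann x (s (j + 1)) (s j))
      (B ∩ ann x (s (j + 1)) (s j)))
    (hr : ∀ z, (∀ j, z ∉ ann x (s (j + 1)) (s j)) → (z ∈ A ↔ z ∈ B)) {r : ℝ} (h1 : s 0 < r) :
    Amb (ball x r) A B := by
  choose G hG hGA using h
  obtain ⟨f, fc, f1, f2⟩ := exists_glue hs h0 hG
  obtain ⟨g, gc, g1, g2⟩ := exists_glue hs h0 fun j => (hG j).inv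
  have gf : ∀ z, g (f z) = z := fun z => by
    by_cases hz : ∃ j, z ∈ ann x (s (j + 1)) (s j)
    · obtain ⟨j, hj⟩ := hz
      rw [f1 j z hj, g1 j _ (((hG j).mem_iff z).2 hj), hinv_apply]
    · rw [f2 z (not_exists.1 hz), g2 z (not_exists.1 hz)]
  have fg : ∀ z, f (g z) = z := fun z => by
    by_cases hz : ∃ j, z ∈ ann x (s (j + 1)) (s j)
    · obtain ⟨j, hj⟩ := hz
      rw [g1 j z hj, f1 j _ (((hG j).inv.mem_iff z).2 hj), happly_inv]
    · rw [g2 z (not_exists.1 hz), f2 z (not_exists.1 hz)]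
  have key : ∀ z, f z ∈ B ↔ z ∈ A := fun z => by
    by_cases hz : ∃ j, z ∈ ann x (s (j + 1)) (s j)
    · obtain ⟨j, hj⟩ := hz
      have e : G j z ∈ B ∩ ann x (s (j + 1)) (s j) ↔ z ∈ A ∩ ann x (s (j + 1)) (s j) := by
        rw [← hGA j, apply_mem_image]
      rw [f1 j z hj]
      simpa [hj, ((hG j).mem_iff z).2 hj] using e
    · rw [f2 z (not_exists.1 hz), hr z (not_exists.1 hz)]
  refine ⟨⟨⟨f, g, gf, fg⟩, fc, gc⟩, ⟨closedBall x (s 0), isCompact_closedBall _ _,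
    closedBall_subset_ball h1, fun z hz => f2 z fun j hj => hz ?_⟩, ?_⟩
  · rw [mem_closedBall, dist_eq_norm]
    exact hj.2.le.trans (hs.antitone (Nat.zero_le j))
  · ext w
    refine ⟨?_, fun hw => ⟨g w, (key _).1 (by rwa [fg]), fg w⟩⟩
    rintro ⟨z, hz, rfl⟩
    exact (key z).2 hz

lemma exists_ann_index {s : ℕ → ℝ} (h0 : Tendsto s atTop (𝓝 0)) {t : ℝ} (ht : 0 < t)
    (h1 : t < s 0) (hne : ∀ j, t ≠ s j) : ∃ j, s (j + 1) < t ∧ t < s j := by
  classical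
  have hex : ∃ k, s k < t := (h0.eventually (gt_mem_nhds ht)).exists
  have hk := Nat.find_spec hex
  obtain ⟨j, hj⟩ : ∃ j, Nat.find hex = j + 1 :=
    Nat.exists_eq_succ_of_ne_zero fun h => by rw [h] at hk; linarith
  refine ⟨j, hj ▸ hk, lt_of_le_of_ne (not_lt.1 (Nat.find_min hex (by omega))) (hne j)⟩

lemma dep_rec {σ : Type} (Inv : ℕ → σ → Prop) (Rel : ℕ → σ → σ → Prop) (s₀ : σ) (h₀ : Inv 0 s₀)
    (step : ∀ n s, Inv n s → ∃ s', Inv (n + 1) s' ∧ Rel n s s') :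
    ∃ f : ℕ → σ, f 0 = s₀ ∧ ∀ n, Inv n (f n) ∧ Rel n (f n) (f (n + 1)) := by
  choose nx h1 h2 using step
  let g : ∀ n, {s // Inv n s} := fun n =>
    Nat.rec ⟨s₀, h₀⟩ (fun n s => ⟨nx n s.1 s.2, h1 n s.1 s.2⟩) n
  exact ⟨fun n => (g n).1, rfl, fun n => ⟨(g n).2, h2 n _ (g n).2⟩⟩

lemma D_empty_of_notMem {X Y : Set ℂ} (h : D X δ = {x}) (hY : Y ⊆ X) (hx : x ∉ Y) : D Y δ = ∅ :=
  eq_empty_of_forall_notMem fun z hz => by
    have : z = x := by simpa [h] using D_mono hY hz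
    exact hx (this ▸ D_sub hz)

lemma tame_step {X T : Set ℂ} (hX : IsClosed X) (hT : T.Countable) (hXT : X ⊆ T)
    (hx : D X δ = {x}) {r r' ε : ℝ} (h0 : 0 < r') (h1 : r' < r) (hε : 0 < ε)
    (hr : ∀ z ∈ T, ‖z - x‖ ≠ r) (hC : CC (ann x r' r) C) (hCδ : D C δ = ∅) :
    ∃ r'', 0 < r'' ∧ r'' < r' ∧ r'' < ε ∧ (∀ z ∈ T, ‖z - x‖ ≠ r'') ∧
      ∃ C', CC (ann x r'' r') C' ∧ D C' δ = ∅ ∧ Ty (C ∪ C') (X ∩ ann x r'' r) := by
  obtain ⟨U, hU, hUN, hUC⟩ := subclop hX (hT.mono hXT) (isOpen_ball.sdiff isClosed_singleton)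
    (rich_punct (hx ▸ mem_singleton x) (ball_mem_nhds x h0)) hC.cpt hCδ
  obtain ⟨m, hm, hmb⟩ := Metric.isOpen_iff.1 hU.2.1.isClosed.isOpen_compl x
    fun h => (hUN h).2 rfl
  obtain ⟨r'', a0, a1, a2⟩ := exists_radius hT x (lt_min hm (lt_min h0 hε))
  rw [lt_min_iff, lt_min_iff] at a1
  have hXa := compact_inter_ann hX (fun z hz => a2 z (hXT hz)) fun z hz => hr z (hXT hz)
  have hUa : U ⊆ X ∩ ann x r'' r := fun z hz => ⟨hU.1 hz, by
    have e1 : m ≤ ‖z - x‖ := not_lt.1 fun h => hmb (by rwa [mem_ball, dist_eq_norm]) hz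
    have e2 := (hUN hz).1
    rw [mem_ball, dist_eq_norm] at e2
    exact ⟨by linarith, by linarith⟩⟩
  have hY : IsCompact ((X ∩ ann x r'' r) \ U) := by
    convert hXa.inter_left hU.2.2 using 1
    ext z; simp only [Set.mem_sdiff, mem_inter_iff]; tauto
  obtain ⟨C', hC', hCY⟩ := exists_copy (isOpen_ann x r'' r') (ann_nonempty x a0.le a1.2.1) hY
    (hT.mono fun z hz => hXT hz.1.1)
  refine ⟨r'', a0, a1.2.1, a1.2.2, a2, C', hC', hCY.symm.D_empty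
    (D_empty_of_notMem hx (fun z hz => hz.1.1) fun h => ?_), ?_⟩
  · have := h.1.2.1; simp at this; linarith
  · rw [← union_sdiff_cancel hUa]
    refine hUC.symm.union hCY hC.cl hC'.cl hU.2.1.isClosed hY.isClosed ?_ disjoint_sdiff_right
    exact disjoint_left.2 fun z h1 h2 => lt_asymm (hC.sub h1).1 (hC'.sub h2).2

def TameLt (δ : Ordinal.{0}) : Prop := ∀ Ω A B : Set ℂ, IsOpen Ω → IsPreconnected Ω → CC Ω A →
  CC Ω B → D A δ = ∅ → Ty A B → Amb Ω A B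

lemma tame_core (ih : TameLt δ) {r : ℝ} (hA : CC (ball x r) A) (hB : CC (ball x r) B)
    (hAx : D A δ = {x}) (hBx : D B δ = {x}) : Amb (ball x r) A B := by
  classical
  have hxA : x ∈ A := D_sub (hAx ▸ mem_singleton x : x ∈ D A δ)
  have hxB : x ∈ B := D_sub (hBx ▸ mem_singleton x : x ∈ D B δ)
  have hT := hA.union hB
  obtain ⟨r₀, hr₀, hsub⟩ := exists_lt_subset_ball hT.cl hT.sub
  have hr₀0 : 0 < r₀ := pos_of_mem_ball (hsub (Or.inl hxA))
  have hlt : ∀ z ∈ A ∪ B, ‖z - x‖ < r₀ := fun z hz => by simpa [dist_eq_norm] using hsub hz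
  obtain ⟨r₁, b0, b1, b2⟩ := exists_radius hT.cnt x (lt_min hr₀0 one_pos)
  rw [lt_min_iff] at b1
  set X : ℕ → Set ℂ := fun n => if Even n then A else B with hX
  have hX1 : ∀ n, IsClosed (X n) ∧ X n ⊆ A ∪ B ∧ D (X n) δ = {x} := fun n => by
    simp only [hX]; split_ifs
    exacts [⟨hA.cl, subset_union_left, hAx⟩, ⟨hB.cl, subset_union_right, hBx⟩]
  have hna : ∀ {a b : ℝ}, 0 < a → x ∉ ann x a b := fun ha h => by
    have := h.1; simp at this; linarith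
  obtain ⟨f, f0, hf⟩ := dep_rec (σ := ℝ × ℝ × Set ℂ)
    (fun n s => 0 < s.2.1 ∧ s.2.1 < s.1 ∧ s.2.1 < 1 / ((n : ℝ) + 1) ∧
      (∀ z ∈ A ∪ B, ‖z - x‖ ≠ s.1) ∧ (∀ z ∈ A ∪ B, ‖z - x‖ ≠ s.2.1) ∧
      CC (ann x s.2.1 s.1) s.2.2 ∧ D s.2.2 δ = ∅)
    (fun n s s' => s'.1 = s.2.1 ∧ Ty (s.2.2 ∪ s'.2.2) (X n ∩ ann x s'.2.1 s.1))
    (r₀, r₁, B ∩ ann x r₁ r₀)
    ⟨b0, b1.1, by simpa using b1.2, fun z hz => (hlt z hz).ne, b2,
      ⟨compact_inter_ann hB.cl (fun z hz => b2 z (Or.inr hz)) fun z hz => (hlt z (Or.inr hz)).ne,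
        hB.cnt.mono inter_subset_left, inter_subset_right⟩,
      D_empty_of_notMem hBx inter_subset_left fun h => hna b0 h.2⟩
    (fun n s ⟨i1, i2, _, i4, i5, i6, i7⟩ => by
      obtain ⟨r'', a0, a1, a2, a3, C', a4, a5, a6⟩ := tame_step (hX1 n).1 hT.cnt (hX1 n).2.1
        (hX1 n).2.2 i1 i2 (ε := 1 / ((n + 1 : ℕ) + 1 : ℝ)) (by positivity) i4 i6 i7
      exact ⟨(s.2.1, r'', C'), ⟨a0, a1, a2, i5, a3, a4, a5⟩, rfl, a6⟩)
  set ρ : ℕ → ℝ := fun n => (f n).1 with hρ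
  set C : ℕ → Set ℂ := fun n => (f n).2.2 with hC
  have e : ∀ n, (f n).2.1 = ρ (n + 1) := fun n => (hf n).2.1.symm
  have hanti : StrictAnti ρ := strictAnti_nat_of_succ_lt fun n => e n ▸ (hf n).1.2.1
  have hpos : ∀ n, 0 < ρ (n + 1) := fun n => e n ▸ (hf n).1.1
  have hlim : Tendsto ρ atTop (𝓝 0) := by
    rw [← tendsto_add_atTop_iff_nat 1]
    exact squeeze_zero (fun n => (hpos n).le) (fun n => e n ▸ (hf n).1.2.2.1.le)
      tendsto_one_div_add_atTop_nhds_zero_nat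
  have hmiss : ∀ n, ∀ z ∈ A ∪ B, ‖z - x‖ ≠ ρ n := fun n => (hf n).1.2.2.2.1
  have hCC : ∀ n, CC (ann x (ρ (n + 1)) (ρ n)) (C n) := fun n => e n ▸ (hf n).1.2.2.2.2.2.1
  have ρ0 : ρ 0 = r₀ := by simp [hρ, f0]
  have C0 : C 0 = B ∩ ann x (ρ 1) (ρ 0) := by rw [← e 0]; simp [hC, hρ, f0]
  set Z : Set ℂ := insert x (⋃ n, C n) with hZ
  have hamb : ∀ n, Amb (ann x (ρ (n + 2)) (ρ n)) (X n ∩ ann x (ρ (n + 2)) (ρ n))
      (Z ∩ ann x (ρ (n + 2)) (ρ n)) := fun n => by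
    have hs1 : ann x (ρ (n + 1)) (ρ n) ⊆ ann x (ρ (n + 2)) (ρ n) := fun z hz =>
      ⟨(hanti (by omega)).trans hz.1, hz.2⟩
    have hs2 : ann x (ρ (n + 2)) (ρ (n + 1)) ⊆ ann x (ρ (n + 2)) (ρ n) := fun z hz =>
      ⟨hz.1, hz.2.trans (hanti (by omega))⟩
    have hcc := ((hCC n).mono ((hCC n).sub.trans hs1)).union
      ((hCC (n + 1)).mono ((hCC (n + 1)).sub.trans hs2))
    have : Z ∩ ann x (ρ (n + 2)) (ρ n) = C n ∪ C (n + 1) := by
      refine subset_antisymm ?_ (subset_inter (union_subset ((subset_iUnion C n).trans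
        (subset_insert _ _)) ((subset_iUnion C (n + 1)).trans (subset_insert _ _))) hcc.sub)
      rintro z ⟨rfl | hz, hz'⟩
      · exact absurd hz' (hna (hpos _))
      · obtain ⟨m, hm⟩ := mem_iUnion.1 hz
        have e1 := hanti.lt_iff_gt.1 (((hCC m).sub hm).1.trans hz'.2)
        have e2 := hanti.lt_iff_gt.1 (hz'.1.trans ((hCC m).sub hm).2)
        rcases (show m = n ∨ m = n + 1 by omega) with rfl | rfl
        exacts [Or.inl hm, Or.inr hm]
    rw [this]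
    refine ih _ _ _ (isOpen_ann _ _ _) (preconn_ann' x (hpos _).le _)
      ⟨compact_inter_ann (hX1 n).1 (fun z hz => hmiss _ z ((hX1 n).2.1 hz))
        fun z hz => hmiss _ z ((hX1 n).2.1 hz), hT.cnt.mono fun z hz => (hX1 n).2.1 hz.1,
        inter_subset_right⟩ hcc
      (D_empty_of_notMem (hX1 n).2.2 inter_subset_left fun h => hna (hpos _) h.2) ?_
    have := (hf n).2.2
    rw [e (n + 1)] at this
    exact this.symm
  have h1 : Amb (ball x r) A Z := by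
    refine amb_glue (s := fun j => ρ (2 * j)) (fun a b h => hanti (by omega))
      (hlim.comp (tendsto_id.const_mul_atTop' two_pos)) (fun j => ?_) (fun z hz => ?_)
      (by simpa [ρ0] using hr₀)
    · simpa [hX, mul_add] using hamb (2 * j)
    · by_cases hzx : z = x
      · simp [hzx, hxA, hZ]
      · refine iff_of_false (fun h => ?_) ?_
        · obtain ⟨j, hj⟩ := exists_ann_index (s := fun j => ρ (2 * j))
            (hlim.comp (tendsto_id.const_mul_atTop' two_pos)) (norm_pos_iff.2 (sub_ne_zero.2 hzx))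
            (by simpa [ρ0] using hlt z (Or.inl h)) fun j => hmiss _ z (Or.inl h)
          exact hz j hj
        · rintro (h | h)
          · exact hzx h
          · obtain ⟨m, hm⟩ := mem_iUnion.1 h
            exact hz (m / 2) ⟨(hanti.antitone (by omega)).trans_lt ((hCC m).sub hm).1,
              ((hCC m).sub hm).2.trans_le (hanti.antitone (by omega))⟩
  have hlim2 : Tendsto (fun j => ρ (2 * j + 1)) atTop (𝓝 0) :=
    hlim.comp ((tendsto_add_atTop_nat 1).comp (tendsto_id.const_mul_atTop' two_pos))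
  have h2 : Amb (ball x r) B Z := by
    refine amb_glue (s := fun j => ρ (2 * j + 1)) (fun a b h => hanti (by omega)) hlim2
      (fun j => ?_) (fun z hz => ?_) ((hanti (by omega)).trans (ρ0 ▸ hr₀))
    · simpa [hX, mul_add, add_assoc] using hamb (2 * j + 1)
    · by_cases hzx : z = x
      · simp [hzx, hxB, hZ]
      · constructor
        · intro h
          rcases lt_or_gt_of_ne (hmiss 1 z (Or.inr h)) with h' | h'
          · obtain ⟨j, hj⟩ := exists_ann_index hlim2 (norm_pos_iff.2 (sub_ne_zero.2 hzx))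
              (by simpa using h') fun j => hmiss _ z (Or.inr h)
            exact absurd hj (hz j)
          · exact Or.inr (mem_iUnion.2 ⟨0, C0 ▸ ⟨h, h', ρ0 ▸ hlt z (Or.inr h)⟩⟩)
        · rintro (h | h)
          · exact absurd h hzx
          · obtain ⟨m, hm⟩ := mem_iUnion.1 h
            rcases m with _ | m
            · exact (C0 ▸ hm : z ∈ B ∩ _).1
            · exact absurd ⟨(hanti.antitone (by omega)).trans_lt ((hCC _).sub hm).1,
                ((hCC _).sub hm).2.trans_le (hanti.antitone (by omega))⟩ (hz (m / 2))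
  exact h1.trans h2.symm

lemma tame_inside (ih : TameLt δ) (hΩ : IsOpen Ω) (hc : IsPreconnected Ω) {r : ℝ} (hr : 0 < r)
    (hb : ball x r ⊆ Ω) (hA : CC Ω A) (hAx : D A δ = {x}) :
    ∃ A', CC (ball x r) A' ∧ D A' δ = {x} ∧ Amb Ω A A' := by
  obtain ⟨r₁, a0, a1, a2⟩ := exists_radius hA.cnt x hr
  have hin : CC (ball x r) (A ∩ ball x r₁) := ⟨compact_inter_ball hA.cl a2,
    hA.cnt.mono inter_subset_left, inter_subset_right.trans (ball_subset_ball a1.le)⟩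
  have hout : CC Ω (A \ ball x r₁) := hA.of_closed (hA.cl.sdiff isOpen_ball) sdiff_subset
  obtain ⟨C, hC, hCt⟩ := exists_copy (isOpen_ball.sdiff hA.cl)
    (nonempty_diff isOpen_ball (nonempty_ball.2 hr) hA.cnt) hout.cpt hout.cnt
  have h0 : D (A \ ball x r₁) δ = ∅ :=
    D_empty_of_notMem hAx sdiff_subset fun h => h.2 (mem_ball_self a0)
  refine ⟨A ∩ ball x r₁ ∪ C, hin.union (hC.mono (hC.sub.trans sdiff_subset)), ?_, ?_⟩
  · rw [D_union hin.cl hC.cl, hCt.symm.D_empty h0, D_inter_open isOpen_ball, hAx, union_empty,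
      inter_eq_left.2 (singleton_subset_iff.2 (mem_ball_self a0))]
  · have := (ih _ _ _ (hΩ.sdiff hin.cl) (preconn_diff hΩ hc hin.cnt)
      (hout.mono fun z hz => ⟨hA.sub hz.1, fun h => hz.2 h.2⟩)
      (hC.mono fun z hz => ⟨hb (hC.sub hz).1, fun h => (hC.sub hz).2 h.1⟩) h0 hCt.symm).union
    rwa [inter_union_sdiff] at this

lemma tame_one (ih : TameLt δ) (hΩ : IsOpen Ω) (hc : IsPreconnected Ω) (hA : CC Ω A) (hB : CC Ω B)
    {a b : ℂ} (hAx : D A δ = {a}) (hBx : D B δ = {b}) : Amb Ω A B := by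
  have ha : a ∈ Ω := hA.sub (D_sub (hAx ▸ mem_singleton a : a ∈ D A δ))
  have hb : b ∈ Ω := hB.sub (D_sub (hBx ▸ mem_singleton b : b ∈ D B δ))
  obtain ⟨H, hH, hab⟩ := exists_move hΩ hc ha hb
  obtain ⟨r, hr, hrb⟩ := Metric.isOpen_iff.1 hΩ b hb
  obtain ⟨A', h1, h2, h3⟩ := tame_inside ih hΩ hc hr hrb (hA.image hH)
    (by rw [D_image, hAx, image_singleton, hab])
  obtain ⟨B', h4, h5, h6⟩ := tame_inside ih hΩ hc hr hrb hB hBx
  exact (Amb.trans ⟨H, hH, rfl⟩ h3).trans (((tame_core ih h1 h4 h2 h5).mono hrb).trans h6.symm)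

lemma split_top (hA : CC Ω A) (h : D A (δ + 1) = ∅) {j : ℕ} (hj : (D A δ).encard = j + 1) :
    ∃ U A' a, CC (Ω \ A') U ∧ CC Ω A' ∧ A = A' ∪ U ∧ D U δ = {a} ∧ (D A' δ).encard = j := by
  obtain ⟨a, ha⟩ : (D A δ).Nonempty := by rw [← encard_ne_zero, hj]; simp
  obtain ⟨U, hU, -, hUa⟩ := exists_piece hA.cl hA.cnt ha (by simp [h]) univ_mem
  have e : A = A \ U ∪ U := (sdiff_union_of_subset hU.1).symm
  refine ⟨U, A \ U, a, ⟨hU.2.1, hA.cnt.mono hU.1, fun z hz => ⟨hA.sub (hU.1 hz), fun h => h.2 hz⟩⟩,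
    hA.of_closed hU.2.2 sdiff_subset, e, hUa, ?_⟩
  rw [e, encard_D_union hU.2.2 hU.2.1.isClosed disjoint_sdiff_left, hUa, encard_singleton] at hj
  exact WithTop.add_right_cancel ENat.one_ne_top hj

lemma tame_succ (ih : TameLt δ) : TameLt (δ + 1) := by
  have key : ∀ j : ℕ, ∀ Ω A B : Set ℂ, IsOpen Ω → IsPreconnected Ω → CC Ω A → CC Ω B →
      (D A δ).encard = j + 1 → (D B δ).encard = j + 1 → Amb Ω A B := by
    intro j
    induction j with
    | zero =>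
      intro Ω A B hΩ hc hA hB h1 h2
      obtain ⟨a, ha⟩ := encard_eq_one.1 (by simpa using h1)
      obtain ⟨b, hb⟩ := encard_eq_one.1 (by simpa using h2)
      exact tame_one ih hΩ hc hA hB ha hb
    | succ j ihj =>
      intro Ω A B hΩ hc hA hB h1 h2
      obtain ⟨U, A', a, hU, hA', rfl, hUa, hj⟩ := split_top hA
        (D_succ_of_finite (finite_of_encard_eq_coe (k := j + 1 + 1) h1)) h1
      obtain ⟨V, B', b, hV, hB', rfl, hVb, hj'⟩ := split_top hB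
        (D_succ_of_finite (finite_of_encard_eq_coe (k := j + 1 + 1) h2)) h2
      obtain ⟨W, hW, hWU⟩ := exists_copy (hΩ.sdiff (hA'.union hB').cl)
        (nonempty_diff hΩ ⟨a, (hU.sub (D_sub (hUa ▸ mem_singleton a : a ∈ D U δ))).1⟩
          (hA'.union hB').cnt) hU.cpt hU.cnt
      obtain ⟨w, hw⟩ := encard_eq_one.1 (by rw [hWU δ, hUa, encard_singleton])
      have s1 := (tame_one ih (hΩ.sdiff hA'.cl) (preconn_diff hΩ hc hA'.cnt) hU
        (hW.mono fun z hz => ⟨(hW.sub hz).1, fun h => (hW.sub hz).2 (Or.inl h)⟩) hUa hw).union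
      have s2 := (ihj _ _ _ (hΩ.sdiff hW.cl) (preconn_diff hΩ hc hW.cnt)
        (hA'.mono fun z hz => ⟨hA'.sub hz, fun h => (hW.sub h).2 (Or.inl hz)⟩)
        (hB'.mono fun z hz => ⟨hB'.sub hz, fun h => (hW.sub h).2 (Or.inr hz)⟩) hj hj').union
      have s3 := (tame_one ih (hΩ.sdiff hB'.cl) (preconn_diff hΩ hc hB'.cnt)
        (hW.mono fun z hz => ⟨(hW.sub hz).1, fun h => (hW.sub hz).2 (Or.inr h)⟩) hV hw hVb).union
      rw [union_comm W, union_comm W] at s2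
      exact (s1.trans s2).trans s3
  intro Ω A B hΩ hc hA hB h hT
  obtain ⟨j, hj⟩ := (finite_D hA.cpt h).exists_encard_eq_coe
  rcases j with _ | j
  · exact ih Ω A B hΩ hc hA hB (by simpa using hj) hT
  · exact key j Ω A B hΩ hc hA hB hj (hT δ ▸ hj)

lemma tameLt (δ : Ordinal.{0}) : TameLt δ := by
  have h0 : TameLt 0 := fun Ω A B _ _ _ _ h hT => by
    have := hT.D_empty h
    rw [D_zero] at h this
    rw [h, this]; exact Amb.refl _ _
  induction δ using Ordinal.limitRecOn with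
  | zero => exact h0
  | add_one δ ih => exact tame_succ ih
  | limit δ hδ ih =>
    intro Ω A B hΩ hc hA hB h hT
    rcases A.eq_empty_or_nonempty with rfl | hne
    · exact h0 Ω _ B hΩ hc hA hB D_empty hT
    · obtain ⟨β, hβ, -, h2⟩ := exists_type hA.cpt hne h
      exact ih _ (hδ.add_one_lt hβ) Ω A B hΩ hc hA hB h2 hT

theorem tame (hΩ : IsOpen Ω) (hc : IsPreconnected Ω) (hA : CC Ω A) (hB : CC Ω B) (hT : Ty A B) :
    Amb Ω A B :=
  let ⟨δ, h⟩ := scat hA.cl hA.cnt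
  tameLt δ Ω A B hΩ hc hA hB h hT

/-- Correcting one countable set to another inside a domain outside which they agree. -/
theorem tame_fix {X Y : Set ℂ} (hΩ : IsOpen Ω) (hc : IsPreconnected Ω) (hX : X.Countable)
    (hY : Y.Countable) (h1 : IsCompact (X ∩ Ω)) (h2 : IsCompact (Y ∩ Ω))
    (hT : Ty (X ∩ Ω) (Y ∩ Ω)) :
    ∃ H : ℂ ≃ₜ ℂ, Supp H Ω ∧ ∀ z ∈ Ω, (H z ∈ Y ↔ z ∈ X) := by
  obtain ⟨H, hH, e⟩ := tame hΩ hc ⟨h1, hX.mono inter_subset_left, inter_subset_right⟩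
    ⟨h2, hY.mono inter_subset_left, inter_subset_right⟩ hT
  refine ⟨H, hH, fun z hz => ?_⟩
  have : H z ∈ Y ∩ Ω ↔ z ∈ X ∩ Ω := by rw [← e, apply_mem_image]
  simpa [hz, (hH.mem_iff z).2 hz] using this

end

end Pool.Agent.Lib.MP_069d55_gt
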