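import Pool.Agent.Lib.MP_069d55_gt.Slit

/-! Three top points `0, 1, ∞`: standardising along vertical lines. -/

namespace Pool.Agent.Lib.MP_069d55_gt

open Set Filter Topology Metric

noncomputable section

variable {X Y : Set ℂ} {α : Ordinal.{0}} {c c' : ℝ} {a b e τ τ' : ℂ ≃ₜ ℂ}
variable {W : Type*} {φ : (ℂ ≃ₜ ℂ) → Equiv.Perm W} {v : W}

def Lh (c : ℝ) : Set ℂ := {z | z.re < c}
def Rh (c : ℝ) : Set ℂ := {z | c < z.re}
def Miss (c : ℝ) (Y : Set ℂ) : Prop := ∀ z ∈ Y, z.re ≠ c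

lemma isOpen_Lh (c : ℝ) : IsOpen (Lh c) := isOpen_lt Complex.continuous_re continuous_const
lemma isOpen_Rh (c : ℝ) : IsOpen (Rh c) := isOpen_lt continuous_const Complex.continuous_re
lemma disj_LR (h : c ≤ c') : Disjoint (Lh c) (Rh c') :=
  disjoint_left.2 fun _ h1 h2 => lt_asymm (lt_of_lt_of_le h1 h) h2
lemma nLR {z : ℂ} (h : z ∈ Lh c) (h' : z ∈ Rh c) : False := disjoint_left.1 (disj_LR le_rfl) h h'
lemma comm_LR (h : c ≤ c') (ha : Supp a (Lh c)) (hb : Supp b (Rh c')) : a * b = b * a :=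
  commute_of_disjoint (fun _ hz => ha.fix hz) (fun _ hz => hb.fix hz) (disj_LR h)

lemma exists_line (hY : Y.Countable) (hcc : c < c') : ∃ d, c < d ∧ d < c' ∧ Miss d Y := by
  obtain ⟨r, hr, hrT⟩ := ((hY.image Complex.re).dense_compl ℝ).inter_open_nonempty _
    isOpen_Ioo (nonempty_Ioo.2 hcc)
  exact ⟨r, hr.1, hr.2, fun z hz h => hrT ⟨z, hz, h⟩⟩

lemma closed_Lh (hY : IsClosed Y) (h : Miss c Y) : IsClosed (Y ∩ Lh c) := by
  convert hY.sdiff (isOpen_Rh c) using 1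
  ext z; exact and_congr_right fun hz => ⟨fun h1 h2 => nLR h1 h2,
    fun h1 => lt_of_le_of_ne (not_lt.1 h1) (h z hz)⟩

lemma closed_Rh (hY : IsClosed Y) (h : Miss c Y) : IsClosed (Y ∩ Rh c) := by
  convert hY.sdiff (isOpen_Lh c) using 1
  ext z; exact and_congr_right fun hz => ⟨fun h1 h2 => nLR h2 h1,
    fun h1 => lt_of_le_of_ne (not_lt.1 h1) (h z hz).symm⟩

structure Adm (X : Set ℂ) (α : Ordinal.{0}) (Y : Set ℂ) : Prop where
  cl : IsClosed Y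
  cnt : Y.Countable
  top : D Y α = {0, 1}
  far : ∃ R₀, ∀ z, R₀ ≤ ‖z‖ → (z ∈ Y ↔ z ∈ X)

lemma fix_side (hX : Adm X α X) (hY : Adm X α Y) {N : Set ℂ} (hN : IsOpen N) (hNc : Convex ℝ N)
    (c1 : IsClosed (X ∩ N)) (c2 : IsClosed (Y ∩ N)) {x : ℂ} (hx : ({0, 1} : Set ℂ) ∩ N = {x}) :
    ∃ l : ℂ ≃ₜ ℂ, Supp l N ∧ ∀ z ∈ N, (l z ∈ X ↔ z ∈ Y) := by
  obtain ⟨R₀, hR₀⟩ := hY.far
  obtain ⟨R, h1, -, mR⟩ := exists_radius0 hX.cnt (lt_add_one (max R₀ 1))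
  rw [max_lt_iff] at h1
  have ht : ∀ Z, D Z α = {0, 1} → D (Z ∩ (N ∩ ball 0 R)) α = {x} := fun Z hZ => by
    rw [D_inter_open (hN.inter isOpen_ball), hZ, ← inter_assoc, hx, inter_eq_left,
      singleton_subset_iff]
    have : x ∈ ({0, 1} : Set ℂ) := (hx.symm ▸ mem_singleton x : x ∈ ({0, 1} : Set ℂ) ∩ N).1
    rcases this with rfl | rfl <;> simp <;> linarith
  obtain ⟨l, sl, el⟩ := tame_fix (hN.inter isOpen_ball) (hNc.inter (convex_ball 0 R)).isPreconnected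
    hY.cnt hX.cnt
    (by rw [← inter_assoc]
        exact compact_ball0 c2 fun z hz e => mR z ((hR₀ z (e ▸ h1.1.le)).1 hz.1) e)
    (by rw [← inter_assoc]; exact compact_ball0 c1 fun z hz => mR z hz.1)
    (ty_of_top (ht Y hY.top) (ht X hX.top))
  refine ⟨l, sl.mono inter_subset_left, fun z hz => ?_⟩
  by_cases hb : z ∈ ball (0 : ℂ) R
  · exact el z ⟨hz, hb⟩
  · rw [sl.fix fun h => hb h.2, hR₀ z (h1.1.le.trans (by simpa using hb))]

lemma fix_left (hX : Adm X α X) (hY : Adm X α Y) (h0 : 0 < c) (h1 : c < 1) (mX : Miss c X)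
    (mY : Miss c Y) : ∃ l : ℂ ≃ₜ ℂ, Supp l (Lh c) ∧ ∀ z ∈ Lh c, (l z ∈ X ↔ z ∈ Y) := by
  refine fix_side hX hY (isOpen_Lh c) (convex_halfSpace_re_lt c) (closed_Lh hX.cl mX)
    (closed_Lh hY.cl mY) (x := 0) ?_
  ext z; simp only [mem_inter_iff, mem_insert_iff, mem_singleton_iff, Lh, mem_ofPred_eq]
  refine ⟨?_, fun h => by simp [h, h0]⟩
  rintro ⟨rfl | rfl, h⟩
  · rfl
  · simp at h; linarith

lemma fix_right (hX : Adm X α X) (hY : Adm X α Y) (h0 : 0 < c) (h1 : c < 1) (mX : Miss c X)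
    (mY : Miss c Y) : ∃ l : ℂ ≃ₜ ℂ, Supp l (Rh c) ∧ ∀ z ∈ Rh c, (l z ∈ X ↔ z ∈ Y) := by
  refine fix_side hX hY (isOpen_Rh c) (convex_halfSpace_re_gt c) (closed_Rh hX.cl mX)
    (closed_Rh hY.cl mY) (x := 1) ?_
  ext z; simp only [mem_inter_iff, mem_insert_iff, mem_singleton_iff, Rh, mem_ofPred_eq]
  refine ⟨?_, fun h => by simp [h, h1]⟩
  rintro ⟨rfl | rfl, h⟩
  · simp at h; linarith
  · rfl

/-- `τ` carries `Y` to `X` and is a product of maps supported left and right of the line. -/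
def Std (X Y : Set ℂ) (c : ℝ) (τ : ℂ ≃ₜ ℂ) : Prop :=
  ∃ l r : ℂ ≃ₜ ℂ, Supp l (Lh c) ∧ Supp r (Rh c) ∧ τ = l * r ∧ ∀ z, τ z ∈ X ↔ z ∈ Y

lemma exists_std (hX : Adm X α X) (hY : Adm X α Y) (h0 : 0 < c) (h1 : c < 1) (mX : Miss c X)
    (mY : Miss c Y) : ∃ τ, Std X Y c τ := by
  obtain ⟨l, sl, el⟩ := fix_left hX hY h0 h1 mX mY
  obtain ⟨r, sr, er⟩ := fix_right hX hY h0 h1 mX mY
  refine ⟨l * r, l, r, sl, sr, rfl, fun z => ?_⟩
  rcases lt_trichotomy z.re c with h | h | h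
  · rw [hmul, sr.fix fun h' => lt_asymm h h', el z h]
  · rw [hmul, sr.fix fun h' => h.le.not_gt h', sl.fix fun h' => h.ge.not_gt h']
    exact iff_of_false (fun h' => mX z h' h) fun h' => mY z h' h
  · rw [hmul, sl.fix fun h' => nLR h' ((sr.mem_iff z).2 h), er z h]

structure Ctx (X : Set ℂ) (α : Ordinal.{0}) {W : Type*} (φ : (ℂ ≃ₜ ℂ) → Equiv.Perm W) : Prop where
  adm : Adm X α X
  ns : NS α
  act : Act (gp X) φ
  opn : Opn X φ

def Kl (X : Set ℂ) {W : Type*} (φ : (ℂ ≃ₜ ℂ) → Equiv.Perm W) (e : ℂ ≃ₜ ℂ) : Prop :=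
  e ∈ gc X ∧ ∀ v, φ e v = v

lemma Kl.mul (C : Ctx X α φ) (ha : Kl X φ a) (hb : Kl X φ b) : Kl X φ (a * b) :=
  ⟨(gc X).mul_mem ha.1 hb.1, fun v =>
    C.act.fix_mul (gc_le_gp ha.1) (gc_le_gp hb.1) (ha.2 v) (hb.2 v)⟩

lemma Kl.inv (C : Ctx X α φ) (ha : Kl X φ a) : Kl X φ a⁻¹ :=
  ⟨(gc X).inv_mem ha.1, fun v => C.act.fix_inv (gc_le_gp ha.1) (ha.2 v)⟩

lemma Ctx.slit1 (C : Ctx X α φ) {u : ℂ} (hu : u ≠ 0) (h1 : ∀ w ∈ ray 1 u, w ∈ X → w = 1)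
    (h2 : ∀ w ∈ ray 1 u, 0 ≤ 1 * (w - 1).re) (he : Supp e (ray 1 u)ᶜ) (hp : Pres e X) :
    Kl X φ e :=
  ⟨mem_gc he hp, kill_slit C.adm.cl C.adm.cnt C.ns C.adm.top hu h1
    (fun h => by have := h2 0 h; norm_num at this) C.act C.opn he hp⟩

lemma Ctx.left (C : Ctx X α φ) (h1 : c < 1) (he : Supp e (Lh c)) (hp : Pres e X) : Kl X φ e := by
  obtain ⟨u, hu, r1, r2⟩ := exists_ray C.adm.cnt 1 one_ne_zero
  refine C.slit1 hu r1 r2 (he.mono fun z hz h => ?_) hp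
  have := r2 z h
  have : z.re < c := hz
  simp at *; linarith

lemma Ctx.right (C : Ctx X α φ) (h0 : 0 < c) (he : Supp e (Rh c)) (hp : Pres e X) : Kl X φ e := by
  obtain ⟨u, hu, r1, r2⟩ := exists_ray C.adm.cnt 0 (σ := -1) (by norm_num)
  refine ⟨mem_gc he hp, kill_slit C.adm.cl C.adm.cnt C.ns (x := 1) (y := 0)
    (C.adm.top.trans (pair_comm _ _)) hu r1 (fun h => by have := r2 1 h; norm_num at this)
    C.act C.opn (he.mono fun z hz h => ?_) hp⟩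
  have := r2 z h
  have : c < z.re := hz
  simp at *; linarith

lemma Std.pres (h : Std X Y c τ) (h' : Std X Y c' τ') : Pres (τ' * τ⁻¹) X := fun z => by
  obtain ⟨-, -, -, -, -, e⟩ := h
  obtain ⟨-, -, -, -, -, e'⟩ := h'
  rw [hmul, e', ← e, happly_inv]

lemma Ctx.same (C : Ctx X α φ) (h0 : 0 < c) (h1 : c < 1) (h : Std X Y c τ) (h' : Std X Y c τ') :
    Kl X φ (τ' * τ⁻¹) := by
  have hp := h.pres h'
  obtain ⟨l, r, sl, sr, rfl, -⟩ := h
  obtain ⟨l', r', sl', sr', rfl, -⟩ := h'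
  have s1 := sl'.mul sl.inv
  have s2 := sr'.mul sr.inv
  have e : l' * r' * (l * r)⁻¹ = l' * l⁻¹ * (r' * r⁻¹) := by
    rw [mul_assoc l' l⁻¹, comm_LR le_rfl sl.inv s2]; group
  rw [e] at hp ⊢
  refine (C.left h1 s1 fun z => ?_).mul C (C.right h0 s2 fun z => ?_)
  · by_cases hz : z ∈ Lh c
    · rw [← hp z, hmul _ (r' * r⁻¹), s2.fix fun h => disjoint_left.1 (disj_LR le_rfl) hz h]
    · rw [s1.fix hz]
  · by_cases hz : z ∈ Rh c
    · rw [← hp z, hmul _ (r' * r⁻¹),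
        s1.fix fun h => disjoint_left.1 (disj_LR le_rfl) h ((s2.mem_iff z).2 hz)]
    · rw [s2.fix hz]

lemma Ctx.diff (C : Ctx X α φ) (hY : Adm X α Y) (h0 : 0 < c) (hcc : c < c') (h1 : c' < 1)
    (mX : Miss c X) (mY : Miss c Y) (mX' : Miss c' X) (mY' : Miss c' Y) :
    ∃ τ τ', Std X Y c τ ∧ Std X Y c' τ' ∧ Kl X φ (τ' * τ⁻¹) := by
  have hX := C.adm
  obtain ⟨l, sl, el⟩ := fix_left hX hY h0 (hcc.trans h1) mX mY
  obtain ⟨r, sr, er⟩ := fix_right hX hY (h0.trans hcc) h1 mX' mY'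
  set M := Rh c ∩ Lh c' with hM
  have oM : IsOpen M := (isOpen_Rh c).inter (isOpen_Lh c')
  have cM : ∀ Z, IsClosed Z → Miss c Z → Miss c' Z → IsClosed (Z ∩ M) := fun Z h m m' => by
    rw [hM, ← inter_assoc]; exact closed_Lh (closed_Rh h m) fun z hz => m' z hz.1
  have tM : ∀ Z, D Z α = {0, 1} → D (Z ∩ M) α = ∅ := fun Z hZ => by
    rw [D_inter_open oM, hZ]
    refine eq_empty_of_forall_notMem ?_
    rintro z ⟨rfl | rfl, h, h'⟩
    · exact lt_asymm h0 h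
    · exact lt_asymm h1 h'
  set Y₁ := X \ M ∪ Y ∩ M with hY₁
  obtain ⟨R₀, hR₀⟩ := hY.far
  have aY : Adm X α Y₁ := by
    refine ⟨(hX.cl.sdiff oM).union (cM Y hY.cl mY mY'), (hX.cnt.mono sdiff_subset).union
      (hY.cnt.mono inter_subset_left), ?_, R₀, fun z hz => ?_⟩
    · rw [D_union (hX.cl.sdiff oM) (cM Y hY.cl mY mY'), tM Y hY.top, ← tM X hX.top,
        ← D_union (hX.cl.sdiff oM) (cM X hX.cl mX mX'), sdiff_union_inter, hX.top]
    · simp only [hY₁, mem_union, Set.mem_sdiff, mem_inter_iff, hR₀ z hz]; tauto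
  have e1 : ∀ z, (l * r) z ∈ Y₁ ↔ z ∈ Y := fun z => by
    simp only [hY₁, mem_union, Set.mem_sdiff, mem_inter_iff, hmul]
    by_cases c1 : z ∈ Lh c
    · rw [sr.fix fun h => disjoint_left.1 (disj_LR hcc.le) c1 h, el z c1]
      have : l z ∉ M := fun h => nLR ((sl.mem_iff z).2 c1) h.1
      tauto
    by_cases c2 : z ∈ Rh c'
    · have c3 := (sr.mem_iff z).2 c2
      rw [sl.fix fun h => disjoint_left.1 (disj_LR hcc.le) h c3, er z c2]
      have : r z ∉ M := fun h => nLR h.2 c3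
      tauto
    rw [sr.fix c2, sl.fix c1]
    have : z ∈ X ∪ Y → z ∈ M := fun h => ⟨lt_of_le_of_ne (not_lt.1 c1)
      (h.elim (mX z) (mY z)).symm, lt_of_le_of_ne (not_lt.1 c2) (h.elim (mX' z) (mY' z))⟩
    rw [mem_union] at this
    tauto
  obtain ⟨ν, sν, eν⟩ := fix_left hX aY (h0.trans hcc) h1 mX'
    fun z hz => hz.elim (fun h => mX' z h.1) fun h => mY' z h.1
  have eν' : ∀ z, ν z ∈ X ↔ z ∈ Y₁ := fun z => by
    by_cases hz : z ∈ Lh c'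
    · exact eν z hz
    · rw [sν.fix hz]
      have : z ∉ M := fun h => hz h.2
      simp only [hY₁, mem_union, Set.mem_sdiff, mem_inter_iff]; tauto
  obtain ⟨R, hR, -, mR⟩ := exists_radius0 hX.cnt (lt_add_one R₀)
  have cP : IsCompact (Y ∩ M ∩ ball 0 R) :=
    compact_ball0 (cM Y hY.cl mY mY') fun z hz e => mR z ((hR₀ z (e ▸ hR.le)).1 hz.1) e
  have cQ : IsCompact (X ∩ M ∩ ball 0 R) := compact_ball0 (cM X hX.cl mX mX') fun z hz => mR z hz.1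
  set P := Y ∩ M ∩ ball 0 R with hP
  set Q := X ∩ M ∩ ball 0 R with hQ
  have o1 : IsOpen (Rh c' \ {1}) := (isOpen_Rh c').sdiff isClosed_singleton
  obtain ⟨y, hy, d⟩ := exists_dom C.ns (rich_punct (X := X) (x := 1) (by simp [hX.top])
    ((isOpen_Rh c').mem_nhds h1)) (nonempty_diff (isOpen_Rh c') ⟨1, h1⟩ (countable_singleton _))
    (cP.union cQ) (by
      rw [D_union cP.isClosed cQ.isClosed, D_empty_of_subset (tM Y hY.top) inter_subset_left,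
        D_empty_of_subset (tM X hX.top) inter_subset_left, union_empty])
  obtain ⟨η, hη, hηb⟩ := Metric.isOpen_iff.1 o1 y hy
  obtain ⟨ρ, hρ', hρ, mρ⟩ := exists_radius hX.cnt y hη
  have hρ0 : y ∈ ball y ρ := mem_ball_self hρ'
  have cU := compact_inter_ball hX.cl mρ
  set U := X ∩ ball y ρ with hU
  have hUs : U ⊆ Rh c' \ {1} := fun z hz => hηb (ball_subset_ball hρ.le hz.2)
  have hUM : ∀ z ∈ U, z ∉ M := fun z hz h => nLR h.2 (hUs hz).1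
  have lUQ : Clop X (U ∪ Q) := (clop_of_open hX.cl isOpen_ball cU).union (by
    rw [hQ, inter_assoc] at cQ ⊢; exact clop_of_open hX.cl (oM.inter isOpen_ball) cQ)
  obtain ⟨u, hu, r1, r2⟩ := exists_ray hX.cnt 1 one_ne_zero
  have hray : ∀ z ∈ Lh c', z ∉ ray 1 u := fun z hz h => by
    have := r2 z h
    have : z.re < c' := hz
    simp at *; linarith
  obtain ⟨q, hq, hst⟩ := exists_star (convex_halfSpace_re_gt c) (isOpen_Rh c) hu
    (y := 1) (hcc.trans h1)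
  have oS : IsOpen (Rh c \ ray 1 u) := (isOpen_Rh c).sdiff (isClosed_ray _ _)
  have hUΩ : U ⊆ (Rh c \ ray 1 u) \ (X \ (U ∪ Q)) := fun z hz =>
    ⟨⟨hcc.trans (hUs hz).1, fun h => (hUs hz).2 (r1 z h hz.1)⟩, fun h => h.2 (Or.inl hz)⟩
  obtain ⟨μ, sμ, eμ⟩ := (tame (oS.sdiff lUQ.2.2) (preconn_diff oS
    (hst.isPathConnected hq).isConnected.isPreconnected (hX.cnt.mono sdiff_subset))
    (A := U ∪ P) (B := U ∪ Q)
    ⟨cU.union cP, (hX.cnt.mono inter_subset_left).union (hY.cnt.mono fun z hz => hz.1.1),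
      union_subset hUΩ fun z hz => ⟨⟨hz.1.2.1, hray z hz.1.2.2⟩,
        fun h => h.2 (Or.inr ⟨⟨h.1, hz.1.2⟩, hz.2⟩)⟩⟩
    ⟨cU.union cQ, hX.cnt.mono lUQ.1, union_subset hUΩ fun z hz => ⟨⟨hz.1.2.1, hray z hz.1.2.2⟩,
        fun h => h.2 (Or.inr hz)⟩⟩
    (ty_absorb isOpen_ball hρ0 cU.isClosed cP.isClosed cQ.isClosed
      (disjoint_left.2 fun z h h' => hUM z h h'.1.2) (disjoint_left.2 fun z h h' => hUM z h h'.1.2)
      (d.mono subset_union_left) (d.mono subset_union_right))).union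
  have eμ' : ∀ z, μ z ∈ X ↔ z ∈ Y₁ := fun z => by
    rw [sdiff_union_of_subset lUQ.1] at eμ
    conv_lhs => rw [← eμ, apply_mem_image]
    have a1 := hUM z
    have a2 : z ∈ U → z ∈ X := fun h => h.1
    have a3 : z ∉ ball (0 : ℂ) R → (z ∈ Y ↔ z ∈ X) := fun h =>
      hR₀ z (hR.le.trans (by simpa using h))
    simp only [hY₁, hP, hQ, mem_union, Set.mem_sdiff, mem_inter_iff]
    tauto
  have sμ' : Supp μ (Rh c) := sμ.mono sdiff_subset
  have s1 : Std X Y c (μ * (l * r)) := ⟨l, μ * r, sl, sμ'.mul (sr.mono fun z hz => hcc.trans hz),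
    by rw [← mul_assoc, ← comm_LR le_rfl sl sμ', mul_assoc], fun z => by rw [hmul, eμ', e1]⟩
  have s2 : Std X Y c' (ν * (l * r)) := ⟨ν * l, r, sν.mul (sl.mono fun z hz => lt_trans hz hcc), sr,
    by rw [mul_assoc], fun z => by rw [hmul, eν', e1]⟩
  refine ⟨_, _, s1, s2, C.slit1 hu r1 r2 ?_ (s1.pres s2)⟩
  rw [show ν * (l * r) * (μ * (l * r))⁻¹ = ν * μ⁻¹ by group]
  exact (sν.mono hray).mul (sμ.inv.mono fun z hz => hz.2)

/-- a standardisation along some admissible line -/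
def Good (X Y : Set ℂ) (τ : ℂ ≃ₜ ℂ) : Prop :=
  ∃ c, 0 < c ∧ c < 1 ∧ Miss c X ∧ Miss c Y ∧ Std X Y c τ

lemma Ctx.indep (C : Ctx X α φ) (hY : Adm X α Y) (h : Good X Y τ) (h' : Good X Y τ') :
    Kl X φ (τ' * τ⁻¹) := by
  have key : ∀ {c c' τ τ'}, 0 < c → c < c' → c' < 1 → Miss c X → Miss c Y → Miss c' X →
      Miss c' Y → Std X Y c τ → Std X Y c' τ' → Kl X φ (τ' * τ⁻¹) := by
    intro c c' τ τ' h0 hcc h1 a1 a2 a3 a4 s s'
    obtain ⟨σ, σ', b1, b2, b3⟩ := C.diff hY h0 hcc h1 a1 a2 a3 a4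
    have := ((C.same (h0.trans hcc) h1 b2 s').mul C b3).mul C (C.same h0 (hcc.trans h1) s b1)
    rwa [show τ' * σ'⁻¹ * (σ' * σ⁻¹) * (σ * τ⁻¹) = τ' * τ⁻¹ by group] at this
  obtain ⟨c, a0, a1, a2, a3, s⟩ := h
  obtain ⟨c', b0, b1, b2, b3, s'⟩ := h'
  rcases lt_trichotomy c c' with hc | rfl | hc
  · exact key a0 hc b1 a2 a3 b2 b3 s s'
  · exact C.same a0 a1 s s'
  · simpa using (key b0 hc a1 b2 b3 a2 a3 s' s).inv C

lemma Good.mem (h : Good X (b '' X) τ) (hb : Supp b univ) : τ * b ∈ gc X := by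
  obtain ⟨c, -, -, -, -, l, r, sl, sr, rfl, e⟩ := h
  exact ⟨(sl.univ.mul sr.univ).mul hb, fun z => by rw [hmul, e, apply_mem_image]⟩

lemma Ctx.val (C : Ctx X α φ) (hb : Supp b univ) (hY : Adm X α (b '' X)) (h : Good X (b '' X) τ)
    (h' : Good X (b '' X) τ') (v : W) : φ (τ' * b) v = φ (τ * b) v := by
  have k := C.indep hY h h'
  rw [show τ' * b = τ' * τ⁻¹ * (τ * b) by group,
    C.act.mul _ (gc_le_gp k.1) _ (gc_le_gp (h.mem hb)), Equiv.Perm.mul_apply, k.2]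

end

end Pool.Agent.Lib.MP_069d55_gt
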